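import Pool.Agent.Helper75.LG.Om

/-!
# Mertens bounds for row S (MP_7a4c99)
-/

set_option autoImplicit false

namespace Pool.Agent.SPA.M20

open Finset

theorem sum_le : ∃ C : ℝ, 0 ≤ C ∧ ∀ z : ℕ, 3 ≤ z →
    ∑ q ∈ (Icc 1 z).filter Nat.Prime, (1 : ℝ) / q ≤ Real.log (Real.log z) + C := by
  obtain ⟨C, hC⟩ := LG.sum_recip_loglog
  refine ⟨max C 0, le_max_right _ _, fun z hz => ?_⟩
  have h1 := hC z (by omega)
  have h2 : (Icc 1 z).filter Nat.Prime ⊆ Pool.GDS.prs z := by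
    intro q hq
    simp only [Pool.GDS.prs, mem_filter, mem_Icc] at hq ⊢
    omega
  have h3 := sum_le_sum_of_subset_of_nonneg (f := fun q : ℕ => (1 : ℝ) / q) h2 (fun i _ _ => by positivity)
  have h4 := le_max_left C 0
  exact h3.trans (h1.trans (by linarith))

theorem sum_sq (z : ℕ) (hz : 3 ≤ z) : ∑ q ∈ (Icc 1 z).filter Nat.Prime, 2 * ((1 : ℝ) / q) ^ 2 ≤ 2 := by
  have h1 : (Icc 1 z).filter Nat.Prime ⊆ Ioc 1 z := by
    intro q hq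
    obtain ⟨h2, h3⟩ := mem_filter.mp hq
    exact mem_Ioc.mpr ⟨h3.one_lt, (mem_Icc.mp h2).2⟩
  have h2 := sum_le_sum_of_subset_of_nonneg (f := fun q : ℕ => (((q : ℕ) : ℝ) ^ 2)⁻¹) h1
    (fun i _ _ => by positivity)
  have h3 := sum_Ioc_inv_sq_le_sub (α := ℝ) (k := 1) (n := z) (by norm_num) (by omega)
  have h4 : (0 : ℝ) ≤ ((z : ℕ) : ℝ)⁻¹ := by positivity
  have h5 : ∑ q ∈ (Icc 1 z).filter Nat.Prime, 2 * ((1 : ℝ) / q) ^ 2 =
      2 * ∑ q ∈ (Icc 1 z).filter Nat.Prime, (((q : ℕ) : ℝ) ^ 2)⁻¹ := by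
    rw [mul_sum]
    refine sum_congr rfl (fun q _ => ?_)
    rw [one_div, inv_pow]
  rw [h5]
  have h6 : (((1 : ℕ) : ℝ))⁻¹ = 1 := by simp
  rw [h6] at h3
  linarith

theorem one_sub_ge {x : ℝ} (h0 : 0 ≤ x) (h1 : x ≤ 1 / 2) : Real.exp (-x - 2 * x ^ 2) ≤ 1 - x := by
  have hp : 0 < 1 - x := by linarith
  have h2 := Real.one_sub_inv_le_log_of_pos hp
  rw [← Real.le_log_iff_exp_le hp]
  refine le_trans ?_ h2
  have h3 : 1 - (1 - x)⁻¹ = -x / (1 - x) := by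
    field_simp
    ring
  rw [h3, le_div_iff₀ hp]
  nlinarith [mul_nonneg h0 h0, mul_nonneg (mul_nonneg h0 h0) (by linarith : 0 ≤ 1 / 2 - x)]

theorem prod_ge : ∃ c : ℝ, 0 < c ∧ c ≤ 1 ∧ ∀ z : ℕ, 3 ≤ z →
    c / Real.log z ≤ ∏ q ∈ (Icc 1 z).filter Nat.Prime, (1 - 1 / (q : ℝ)) := by
  obtain ⟨C, hC0, hC⟩ := sum_le
  refine ⟨Real.exp (-(C + 2)), Real.exp_pos _, Real.exp_le_one_iff.mpr (by linarith), fun z hz => ?_⟩
  have hz3 : (3 : ℝ) ≤ z := by exact_mod_cast hz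
  have hl : 0 < Real.log z := Real.log_pos (by linarith)
  have h1 := hC z hz
  have h2 := sum_sq z hz
  have h3 : ∏ q ∈ (Icc 1 z).filter Nat.Prime, Real.exp (-(1 / (q : ℝ)) - 2 * (1 / (q : ℝ)) ^ 2) ≤
      ∏ q ∈ (Icc 1 z).filter Nat.Prime, (1 - 1 / (q : ℝ)) := by
    refine prod_le_prod (fun q _ => (Real.exp_pos _).le) (fun q hq => ?_)
    have hq2 : (2 : ℝ) ≤ q := by exact_mod_cast (mem_filter.mp hq).2.two_le
    exact one_sub_ge (by positivity) (one_div_le_one_div_of_le (by norm_num) hq2)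
  refine le_trans ?_ h3
  rw [← Real.exp_sum]
  have h4 : ∑ q ∈ (Icc 1 z).filter Nat.Prime, (-(1 / (q : ℝ)) - 2 * (1 / (q : ℝ)) ^ 2) =
      -(∑ q ∈ (Icc 1 z).filter Nat.Prime, (1 : ℝ) / q) - ∑ q ∈ (Icc 1 z).filter Nat.Prime, 2 * ((1 : ℝ) / q) ^ 2 := by
    rw [sum_sub_distrib, sum_neg_distrib]
  rw [h4]
  have h5 : Real.exp (-(C + 2)) / Real.log z = Real.exp (-(C + 2) - Real.log (Real.log z)) := by
    rw [Real.exp_sub, Real.exp_log hl]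
  rw [h5]
  exact Real.exp_le_exp.mpr (by linarith)

end Pool.Agent.SPA.M20
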