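import Pool.Agent.SPA.Stmts
import Pool.Agent.SPM.Brun34

/-!
# Row S, first half: Brun's pure sieve from below, and the dyadic sum (helper3)
-/

set_option autoImplicit false

namespace Pool.Agent.SPA

open Finset Pool.Agent.SPM.B34

/-- **The pure Brun sieve, lower bound.** -/
theorem brunlow (P : Finset ℕ) (hP : ∀ q ∈ P, q.Prime) (F : ℕ → Finset ℕ) (hF : ∀ q ∈ P, ∀ r ∈ F q, r < q)
    (x t : ℕ) :
    (x : ℝ) * (∏ q ∈ P, (1 - ((F q).card : ℝ) / q) -
        (∑ q ∈ P, ((F q).card : ℝ) / q) ^ (2 * t + 2) / (2 * t + 2).factorial) -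
      (1 + ∑ q ∈ P, ((F q).card : ℝ)) ^ (2 * t + 1) ≤
    (((Finset.Ioc 0 x).filter (fun k => ∀ q ∈ P, k % q ∉ F q)).card : ℝ) := by
  classical
  set h : ℕ → ℝ := fun q => ((F q).card : ℝ) / q with hh
  have h0 : ∀ q ∈ P, 0 ≤ h q := fun q _ => by rw [hh]; positivity
  have h1 : ∀ q ∈ P, h q ≤ 1 := by
    intro q hq
    have hc : (F q).card ≤ q := by
      have : F q ⊆ Finset.range q := fun r hr => Finset.mem_range.2 (hF q hq r hr)
      simpa using Finset.card_le_card this
    have hq0 : (0 : ℝ) < q := by exact_mod_cast (hP q hq).pos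
    rw [hh]
    simp only
    rw [div_le_one hq0]
    exact_mod_cast hc
  set ι : ℕ → ℕ → ℝ := fun k q => if k % q ∈ F q then 1 else 0 with hι
  have hι0 : ∀ k, ∀ q ∈ P, 0 ≤ ι k q := by
    intro k q _
    rw [hι]
    simp only
    split_ifs <;> norm_num
  have hι1 : ∀ k, ∀ q ∈ P, ι k q ≤ 1 := by
    intro k q _
    rw [hι]
    simp only
    split_ifs <;> norm_num
  have hodd : (-1 : ℝ) ^ (2 * t + 1) = -1 := by
    rw [pow_succ, pow_mul]
    norm_num
  have s1 : (((Finset.Ioc 0 x).filter (fun k => ∀ q ∈ P, k % q ∉ F q)).card : ℝ) =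
      ∑ k ∈ Finset.Ioc 0 x, ∏ q ∈ P, (1 - ι k q) := by
    rw [Finset.card_filter]
    push_cast
    apply Finset.sum_congr rfl
    intro k _
    by_cases hk : ∀ q ∈ P, k % q ∉ F q
    · rw [if_pos hk]
      symm
      apply Finset.prod_eq_one
      intro q hq
      rw [hι]
      simp only
      rw [if_neg (hk q hq), sub_zero]
    · rw [if_neg hk]
      push Not at hk
      obtain ⟨q, hq, hkq⟩ := hk
      symm
      apply Finset.prod_eq_zero hq
      rw [hι]
      simp only
      rw [if_pos hkq, sub_self]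
  have s2 : ∀ k, G P (2 * t + 1) (fun q => - ι k q) ≤ ∏ q ∈ P, (1 - ι k q) := by
    intro k
    have := (bonf P (ι k) (hι0 k) (hι1 k) (2 * t + 1)).1
    rw [hodd] at this
    linarith
  have s3 : ∑ k ∈ Finset.Ioc 0 x, G P (2 * t + 1) (fun q => - ι k q) =
      ∑ D ∈ P.powerset, if D.card ≤ 2 * t + 1 then
        (-1) ^ D.card * ((((Finset.Ioc 0 x).filter (fun k => ∀ q ∈ D, k % q ∈ F q)).card : ℕ) : ℝ) else 0 := by
    unfold G
    rw [Finset.sum_comm]
    apply Finset.sum_congr rfl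
    intro D _
    by_cases hD : D.card ≤ 2 * t + 1
    · simp only [if_pos hD]
      rw [Finset.card_filter]
      push_cast
      rw [Finset.mul_sum]
      apply Finset.sum_congr rfl
      intro k _
      rw [Finset.prod_neg]
      congr 1
      by_cases hk : ∀ q ∈ D, k % q ∈ F q
      · rw [if_pos hk]
        apply Finset.prod_eq_one
        intro q hq
        rw [hι]
        simp only
        rw [if_pos (hk q hq)]
      · rw [if_neg hk]
        push Not at hk
        obtain ⟨q, hq, hkq⟩ := hk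
        apply Finset.prod_eq_zero hq
        rw [hι]
        simp only
        rw [if_neg hkq]
    · simp only [if_neg hD, Finset.sum_const_zero]
  have s4 : ∀ D ∈ P.powerset, x * ∏ q ∈ D, (- h q) - ∏ q ∈ D, ((F q).card : ℝ) ≤
      (-1 : ℝ) ^ D.card * ((((Finset.Ioc 0 x).filter (fun k => ∀ q ∈ D, k % q ∈ F q)).card : ℕ) : ℝ) := by
    intro D hD
    have hDP := Finset.mem_powerset.1 hD
    have c := cnt x F D (fun q hq => hP q (hDP hq)) (fun q hq => hF q (hDP hq)) 1 0 one_pos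
      (fun q _ => Nat.coprime_one_left q)
    have ef : (Finset.Ioc 0 x).filter (fun k => k ≡ 0 [MOD 1] ∧ ∀ q ∈ D, k % q ∈ F q) =
        (Finset.Ioc 0 x).filter (fun k => ∀ q ∈ D, k % q ∈ F q) := by
      apply Finset.filter_congr
      intro k _
      simp [Nat.modEq_one]
    rw [ef] at c
    rw [Finset.prod_neg]
    simp only [Nat.cast_one, div_one] at c
    rw [abs_le] at c
    have hsg : ((-1 : ℝ) ^ D.card = 1) ∨ ((-1 : ℝ) ^ D.card = -1) := neg_one_pow_eq_or ℝ D.card
    have hh' : ∏ q ∈ D, h q = ∏ q ∈ D, (((F q).card : ℝ) / q) := rfl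
    rw [hh']
    rcases hsg with e | e
    · rw [e]
      linarith [c.1]
    · rw [e]
      linarith [c.2]
  have s5 : x * G P (2 * t + 1) (fun q => - h q) - G P (2 * t + 1) (fun q => ((F q).card : ℝ)) ≤
      (∑ D ∈ P.powerset, if D.card ≤ 2 * t + 1 then
        (-1) ^ D.card * ((((Finset.Ioc 0 x).filter (fun k => ∀ q ∈ D, k % q ∈ F q)).card : ℕ) : ℝ) else 0) := by
    unfold G
    rw [Finset.mul_sum, ← Finset.sum_sub_distrib]
    apply Finset.sum_le_sum
    intro D hD
    by_cases hc : D.card ≤ 2 * t + 1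
    · simp only [if_pos hc]
      exact s4 D hD
    · simp only [if_neg hc]
      norm_num
  have s6 := (bonf P h h0 h1 (2 * t + 1)).2
  rw [hodd] at s6
  have s8 := G_le P (fun q => ((F q).card : ℝ)) (fun q _ => Nat.cast_nonneg _) (2 * t + 1)
  have hx : (0 : ℝ) ≤ x := Nat.cast_nonneg x
  have s9 : ∏ q ∈ P, (1 - h q) - (∑ q ∈ P, h q) ^ (2 * t + 2) / (2 * t + 2).factorial ≤
      G P (2 * t + 1) (fun q => - h q) := by
    have e : 2 * t + 1 + 1 = 2 * t + 2 := rfl
    rw [e] at s6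
    linarith
  rw [s1]
  calc (x : ℝ) * (∏ q ∈ P, (1 - h q) - (∑ q ∈ P, h q) ^ (2 * t + 2) / (2 * t + 2).factorial) -
        (1 + ∑ q ∈ P, ((F q).card : ℝ)) ^ (2 * t + 1)
      ≤ x * G P (2 * t + 1) (fun q => - h q) - G P (2 * t + 1) (fun q => ((F q).card : ℝ)) :=
        sub_le_sub (mul_le_mul_of_nonneg_left s9 hx) s8
    _ ≤ ∑ k ∈ Finset.Ioc 0 x, G P (2 * t + 1) (fun q => - ι k q) := by
        rw [s3]
        exact s5
    _ ≤ ∑ k ∈ Finset.Ioc 0 x, ∏ q ∈ P, (1 - ι k q) := Finset.sum_le_sum fun k _ => s2 k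

/-- the `v` in `(N, 2N]` with `A v - 1` free of primes up to `z` -/
theorem s1 (A z N t : ℕ) (S : ℝ) (hA : 1 ≤ A) (hN : 2 ≤ N)
    (hS : ∑ q ∈ (Icc 1 z).filter Nat.Prime, (1 : ℝ) / q ≤ S) :
    (N : ℝ) * (∏ q ∈ (Icc 1 z).filter Nat.Prime, (1 - 1 / (q : ℝ)) - S ^ (2 * t + 2) / (2 * t + 2).factorial) -
        (1 + (z : ℝ)) ^ (2 * t + 1)
      ≤ (((Ioc N (2 * N)).filter (fun v => z < (A * v - 1).minFac)).card : ℝ) := by
  classical
  set Pz := (Icc 1 z).filter Nat.Prime with hPz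
  set P := Pz.filter (fun q => ¬ q ∣ A) with hPd
  have hPsub : P ⊆ Pz := filter_subset _ _
  have hPp : ∀ q ∈ P, q.Prime := by
    intro q hq
    rw [hPd, mem_filter, hPz, mem_filter] at hq
    exact hq.1.2
  set F : ℕ → Finset ℕ := fun q => {((A : ZMod q)⁻¹ - (N : ZMod q)).val} with hFd
  have hF : ∀ q ∈ P, ∀ r ∈ F q, r < q := by
    intro q hq r hr
    rw [hFd] at hr
    simp only [mem_singleton] at hr
    haveI : NeZero q := ⟨(hPp q hq).ne_zero⟩
    rw [hr]
    exact ZMod.val_lt _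
  have hcard : ∀ q, ((F q).card : ℝ) = 1 := by
    intro q
    rw [hFd]
    simp
  have key := brunlow P hPp F hF N t
  simp only [hcard] at key
  -- the map
  have hmap : ((Finset.Ioc 0 N).filter (fun k => ∀ q ∈ P, k % q ∉ F q)).card ≤
      ((Ioc N (2 * N)).filter (fun v => z < (A * v - 1).minFac)).card := by
    apply card_le_card_of_injOn (fun k => N + k)
    · intro k hk
      rw [mem_coe, mem_filter, mem_Ioc] at hk
      obtain ⟨⟨hk0, hkN⟩, hk⟩ := hk
      rw [mem_coe, mem_filter, mem_Ioc]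
      refine ⟨⟨by simp only; omega, by simp only; omega⟩, ?_⟩
      simp only
      by_contra hcon
      push Not at hcon
      have hv : 3 ≤ A * (N + k) := by
        calc 3 ≤ 1 * (N + k) := by omega
          _ ≤ A * (N + k) := Nat.mul_le_mul_right _ hA
      have hne : A * (N + k) - 1 ≠ 1 := by omega
      set q := (A * (N + k) - 1).minFac with hq
      have hqp : q.Prime := Nat.minFac_prime hne
      have hqd : q ∣ A * (N + k) - 1 := Nat.minFac_dvd _
      have hqA : ¬ q ∣ A := by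
        intro hd
        have h1 : q ∣ A * (N + k) := hd.mul_right _
        have h2 : q ∣ A * (N + k) - (A * (N + k) - 1) := Nat.dvd_sub h1 hqd
        have h3 : A * (N + k) - (A * (N + k) - 1) = 1 := by omega
        rw [h3] at h2
        exact hqp.one_lt.ne' (Nat.dvd_one.mp h2)
      have hqP : q ∈ P := by
        rw [hPd, mem_filter, hPz, mem_filter, mem_Icc]
        exact ⟨⟨⟨hqp.one_lt.le, hcon⟩, hqp⟩, hqA⟩
      apply hk q hqP
      rw [hFd]
      simp only [mem_singleton]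
      haveI : Fact q.Prime := ⟨hqp⟩
      have hA0 : (A : ZMod q) ≠ 0 := by
        rw [Ne, ZMod.natCast_eq_zero_iff]
        exact hqA
      have h4 : ((A * (N + k) - 1 : ℕ) : ZMod q) = 0 := by
        rw [ZMod.natCast_eq_zero_iff]
        exact hqd
      have h5 : (A : ZMod q) * ((N : ZMod q) + k) = 1 := by
        have h6 : A * (N + k) = (A * (N + k) - 1) + 1 := by omega
        have h7 := congrArg (Nat.cast : ℕ → ZMod q) h6
        rw [Nat.cast_add, h4] at h7
        push_cast at h7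
        rw [h7]
        ring
      have h8 : (k : ZMod q) = (A : ZMod q)⁻¹ - N := by
        have h9 : (N : ZMod q) + k = (A : ZMod q)⁻¹ := eq_inv_of_mul_eq_one_right h5
        rw [← h9]
        ring
      rw [← h8, ZMod.val_natCast]
    · intro a _ b _ hab
      simp only at hab
      omega
  have hmap' : ((((Finset.Ioc 0 N).filter (fun k => ∀ q ∈ P, k % q ∉ F q)).card : ℕ) : ℝ) ≤
      ((((Ioc N (2 * N)).filter (fun v => z < (A * v - 1).minFac)).card : ℕ) : ℝ) := by
    exact_mod_cast hmap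
  -- comparison
  have hfac : ∀ q ∈ Pz, (0 : ℝ) ≤ 1 - 1 / (q : ℝ) ∧ 1 - 1 / (q : ℝ) ≤ 1 := by
    intro q hq
    rw [hPz, mem_filter] at hq
    have hq1 : (1 : ℝ) ≤ q := by exact_mod_cast hq.2.one_lt.le
    have h1 : 1 / (q : ℝ) ≤ 1 := by
      rw [div_le_one (by linarith)]
      exact hq1
    have h2 : (0 : ℝ) ≤ 1 / (q : ℝ) := by positivity
    constructor <;> linarith
  have hprod : ∏ q ∈ Pz, (1 - 1 / (q : ℝ)) ≤ ∏ q ∈ P, (1 - 1 / (q : ℝ)) := by
    rw [← prod_sdiff hPsub]
    have h1 : ∏ q ∈ Pz \ P, (1 - 1 / (q : ℝ)) ≤ 1 := by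
      apply prod_le_one
      · intro q hq
        exact (hfac q (mem_sdiff.mp hq).1).1
      · intro q hq
        exact (hfac q (mem_sdiff.mp hq).1).2
    have h2 : 0 ≤ ∏ q ∈ P, (1 - 1 / (q : ℝ)) := prod_nonneg fun q hq => (hfac q (hPsub hq)).1
    calc (∏ q ∈ Pz \ P, (1 - 1 / (q : ℝ))) * ∏ q ∈ P, (1 - 1 / (q : ℝ))
        ≤ 1 * ∏ q ∈ P, (1 - 1 / (q : ℝ)) := mul_le_mul_of_nonneg_right h1 h2
      _ = ∏ q ∈ P, (1 - 1 / (q : ℝ)) := one_mul _
  have hsum : ∑ q ∈ P, (1 : ℝ) / q ≤ S := by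
    refine le_trans ?_ hS
    apply sum_le_sum_of_subset_of_nonneg hPsub
    intro q _ _
    positivity
  have hsum0 : 0 ≤ ∑ q ∈ P, (1 : ℝ) / q := sum_nonneg fun q _ => by positivity
  have hpow : (∑ q ∈ P, (1 : ℝ) / q) ^ (2 * t + 2) / ((2 * t + 2).factorial : ℝ) ≤
      S ^ (2 * t + 2) / ((2 * t + 2).factorial : ℝ) :=
    div_le_div_of_nonneg_right (pow_le_pow_left₀ hsum0 hsum _) (by positivity)
  have hPc : (P.card : ℝ) ≤ z := by
    have : P.card ≤ z := by
      calc P.card ≤ Pz.card := card_le_card hPsub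
        _ ≤ (Icc 1 z).card := card_le_card (filter_subset _ _)
        _ = z := by simp
    exact_mod_cast this
  have hone : ∑ _q ∈ P, (1 : ℝ) = P.card := by simp
  rw [hone] at key
  have hpow2 : (1 + (P.card : ℝ)) ^ (2 * t + 1) ≤ (1 + (z : ℝ)) ^ (2 * t + 1) :=
    pow_le_pow_left₀ (by positivity) (by linarith) _
  have hN0 : (0 : ℝ) ≤ N := by positivity
  have hmul := mul_le_mul_of_nonneg_left (sub_le_sub hprod hpow) hN0
  linarith

/-- the dyadic sum -/
theorem dyad (p : ℕ → Prop) [DecidablePred p] (V : ℕ) (δ : ℝ) (hV : 2 ≤ V) (hδ : 0 ≤ δ)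
    (h : ∀ N : ℕ, V ≤ N → δ * N ≤ (((Ioc N (2 * N)).filter p).card : ℝ)) :
    δ / 4 * Real.log V ≤ ∑ v ∈ (Ioc V (V ^ 2)).filter p, (1 : ℝ) / v := by
  -- blocks (V 2^j, V 2^(j+1)]
  have block : ∀ N : ℕ, V ≤ N → δ / 2 ≤ ∑ v ∈ (Ioc N (2 * N)).filter p, (1 : ℝ) / v := by
    intro N hN
    have hN0 : (0 : ℝ) < N := by
      have : 0 < N := by omega
      exact_mod_cast this
    have h1 : ∑ _v ∈ (Ioc N (2 * N)).filter p, (1 : ℝ) / (2 * N) ≤
        ∑ v ∈ (Ioc N (2 * N)).filter p, (1 : ℝ) / v := by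
      apply sum_le_sum
      intro v hv
      rw [mem_filter, mem_Ioc] at hv
      have hv0 : (0 : ℝ) < v := by
        have : 0 < v := by omega
        exact_mod_cast this
      have hv2 : (v : ℝ) ≤ 2 * N := by exact_mod_cast hv.1.2
      exact one_div_le_one_div_of_le hv0 hv2
    rw [sum_const, nsmul_eq_mul] at h1
    refine le_trans ?_ h1
    have h2 := h N hN
    calc δ / 2 = δ * N * (1 / (2 * N)) := by field_simp
      _ ≤ _ := mul_le_mul_of_nonneg_right h2 (by positivity)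
  have tele : ∀ J : ℕ, (J : ℝ) * (δ / 2) ≤ ∑ v ∈ (Ioc V (V * 2 ^ J)).filter p, (1 : ℝ) / v := by
    intro J
    induction J with
    | zero => simp
    | succ J ih =>
      have hle : V ≤ V * 2 ^ J := Nat.le_mul_of_pos_right V (by positivity)
      have e : (Ioc V (V * 2 ^ (J + 1))).filter p =
          (Ioc V (V * 2 ^ J)).filter p ∪ (Ioc (V * 2 ^ J) (2 * (V * 2 ^ J))).filter p := by
        rw [← filter_union]
        congr 1
        have e2 : V * 2 ^ (J + 1) = 2 * (V * 2 ^ J) := by ring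
        rw [e2]
        symm
        apply Ioc_union_Ioc_eq_Ioc hle
        omega
      have dis : Disjoint ((Ioc V (V * 2 ^ J)).filter p) ((Ioc (V * 2 ^ J) (2 * (V * 2 ^ J))).filter p) := by
        rw [disjoint_left]
        intro v h1 h2
        rw [mem_filter, mem_Ioc] at h1 h2
        omega
      rw [e, sum_union dis]
      push_cast
      have := block (V * 2 ^ J) hle
      linarith
  -- the number of blocks
  set J := Nat.log 2 V with hJ
  have hJ1 : 2 ^ J ≤ V := Nat.pow_log_le_self 2 (by omega)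
  have hJ2 : V < 2 ^ (J + 1) := Nat.lt_pow_succ_log_self (by norm_num) V
  have hJ3 : 1 ≤ J := by
    rw [hJ]
    exact Nat.log_pos (by norm_num) hV
  have hsub : (Ioc V (V * 2 ^ J)).filter p ⊆ (Ioc V (V ^ 2)).filter p := by
    apply filter_subset_filter
    apply Ioc_subset_Ioc_right
    rw [sq]
    exact Nat.mul_le_mul_left V hJ1
  have hmono : ∑ v ∈ (Ioc V (V * 2 ^ J)).filter p, (1 : ℝ) / v ≤ ∑ v ∈ (Ioc V (V ^ 2)).filter p, (1 : ℝ) / v := by
    apply sum_le_sum_of_subset_of_nonneg hsub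
    intro v _ _
    positivity
  refine le_trans ?_ ((tele J).trans hmono)
  have hlog : Real.log V ≤ (J + 1) * Real.log 2 := by
    have h1 : (V : ℝ) ≤ 2 ^ (J + 1) := by exact_mod_cast hJ2.le
    have h2 : (0 : ℝ) < V := by
      have : 0 < V := by omega
      exact_mod_cast this
    have h3 := Real.log_le_log h2 h1
    rw [Real.log_pow] at h3
    push_cast at h3
    exact h3
  have hl2 : Real.log 2 ≤ 1 := by
    have := Real.log_two_lt_d9
    linarith
  have hJr : (1 : ℝ) ≤ J := by exact_mod_cast hJ3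
  have hlog2 : Real.log V ≤ 2 * J := by
    have : ((J : ℝ) + 1) * Real.log 2 ≤ (J + 1) * 1 := mul_le_mul_of_nonneg_left hl2 (by positivity)
    linarith
  calc δ / 4 * Real.log V ≤ δ / 4 * (2 * J) := mul_le_mul_of_nonneg_left hlog2 (by positivity)
    _ = (J : ℝ) * (δ / 2) := by ring

end Pool.Agent.SPA
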