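import Pool.Agent.SPA.Stmts5

/-!
# Row S, the choice of the parameters (helper92)
-/

set_option autoImplicit false

namespace Pool.Agent.SPA.S92

open Finset

theorem pf (S : ℝ) (m : ℕ) (hS : 0 ≤ S) (hm : 8 * S ≤ m) : S ^ m / m.factorial ≤ Real.exp (-S) := by
  have h1 := Real.pow_div_factorial_le_exp (8 * S) (by positivity) m
  have h2 : (8 * S) ^ m / (m.factorial : ℝ) = 8 ^ m * (S ^ m / m.factorial) := by rw [mul_pow]; ring
  have h3 : Real.exp (8 * S) ≤ Real.exp m := Real.exp_le_exp.2 hm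
  have h4 : Real.exp 2 ≤ 8 := by
    have h := Real.exp_one_lt_d9
    have h0 := Real.exp_pos 1
    have h5 : Real.exp 2 = Real.exp 1 * Real.exp 1 := by rw [← Real.exp_add]; norm_num
    rw [h5]
    nlinarith
  have h5 : Real.exp (2 * m) ≤ 8 ^ m := by
    have h6 : Real.exp (2 * m) = Real.exp 2 ^ m := by rw [← Real.exp_nat_mul]; ring_nf
    rw [h6]
    exact pow_le_pow_left₀ (Real.exp_pos _).le h4 m
  have hX : 0 ≤ S ^ m / (m.factorial : ℝ) := by positivity
  have h6 : Real.exp (2 * m) * (S ^ m / m.factorial) ≤ Real.exp m := by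
    calc Real.exp (2 * m) * (S ^ m / m.factorial) ≤ 8 ^ m * (S ^ m / m.factorial) :=
          mul_le_mul_of_nonneg_right h5 hX
      _ = (8 * S) ^ m / (m.factorial : ℝ) := h2.symm
      _ ≤ Real.exp (8 * S) := h1
      _ ≤ Real.exp m := h3
  have h7 : S ^ m / (m.factorial : ℝ) ≤ Real.exp (-(m : ℝ)) := by
    have h8 : Real.exp (m : ℝ) = Real.exp (2 * m) * Real.exp (-(m : ℝ)) := by
      rw [← Real.exp_add]; ring_nf
    rw [h8] at h6
    exact le_of_mul_le_mul_left h6 (Real.exp_pos _)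
  refine h7.trans (Real.exp_le_exp.2 ?_)
  linarith

/-- the parameters, from the sieve, the dyadic sum and Mertens -/
theorem sAsm
    (s1 : ∀ (A z N t : ℕ) (S : ℝ), 1 ≤ A → 2 ≤ N → ∑ q ∈ (Icc 1 z).filter Nat.Prime, (1 : ℝ) / q ≤ S →
      (N : ℝ) * (∏ q ∈ (Icc 1 z).filter Nat.Prime, (1 - 1 / (q : ℝ)) - S ^ (2 * t + 2) / (2 * t + 2).factorial)
        - (1 + (z : ℝ)) ^ (2 * t + 1)
        ≤ (((Ioc N (2 * N)).filter (fun v => z < (A * v - 1).minFac)).card : ℝ))
    (dyad : ∀ (p : ℕ → Prop) [DecidablePred p] (V : ℕ) (δ : ℝ), 2 ≤ V → 0 ≤ δ →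
      (∀ N : ℕ, V ≤ N → δ * N ≤ (((Ioc N (2 * N)).filter p).card : ℝ)) →
      δ / 4 * Real.log V ≤ ∑ v ∈ (Ioc V (V ^ 2)).filter p, (1 : ℝ) / v)
    (sum_le : ∃ C : ℝ, ∀ z : ℕ, 3 ≤ z →
      ∑ q ∈ (Icc 1 z).filter Nat.Prime, (1 : ℝ) / q ≤ Real.log (Real.log z) + C)
    (prod_ge : ∃ c : ℝ, 0 < c ∧ ∀ z : ℕ, 3 ≤ z →
      c / Real.log z ≤ ∏ q ∈ (Icc 1 z).filter Nat.Prime, (1 - 1 / (q : ℝ))) : RowS := by
  obtain ⟨C, hC⟩ := sum_le
  obtain ⟨c0, hc0, hprod⟩ := prod_ge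
  set D : ℝ := |C| + 1 + |Real.log (4 / c0)| with hD
  have hD1 : 1 ≤ D := by rw [hD]; have := abs_nonneg C; have := abs_nonneg (Real.log (4 / c0)); linarith
  have hDC : C ≤ D := by rw [hD]; have := le_abs_self C; have := abs_nonneg (Real.log (4 / c0)); linarith
  have hDc : Real.log (4 / c0) ≤ D := by rw [hD]; have := le_abs_self (Real.log (4 / c0)); have := abs_nonneg C; linarith
  have hDe : Real.exp (-D) ≤ c0 / 4 := by
    have h : Real.exp (-D) ≤ Real.exp (-Real.log (4 / c0)) := Real.exp_le_exp.2 (by linarith)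
    have h1 : Real.exp (-Real.log (4 / c0)) = c0 / 4 := by
      rw [Real.exp_neg, Real.exp_log (by positivity), inv_div]
    rw [h1] at h
    exact h
  refine ⟨min (c0 / 8) 1, 17 * D + 23, lt_min (by positivity) one_pos, min_le_right _ _, by linarith, ?_⟩
  intro A z V hA hz hV hKV
  have hz3 : (3 : ℝ) ≤ z := by exact_mod_cast hz
  have hV3 : (3 : ℝ) ≤ V := by exact_mod_cast hV
  set Lz : ℝ := Real.log z with hLz
  have hLz1 : 1 ≤ Lz := by
    rw [hLz, Real.le_log_iff_exp_le (by linarith)]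
    have := Real.exp_one_lt_d9
    linarith
  have hLz0 : 0 < Lz := by linarith
  have hll : Real.log Lz ≤ Lz := by
    have := Real.log_le_sub_one_of_pos hLz0
    linarith
  have hll0 : 0 ≤ Real.log Lz := Real.log_nonneg hLz1
  set S : ℝ := Real.log Lz + D with hS
  have hS1 : 1 ≤ S := by rw [hS]; linarith
  set t : ℕ := ⌈4 * S⌉₊ with ht
  have ht1 : 4 * S ≤ t := Nat.le_ceil _
  have ht2 : (t : ℝ) < 4 * S + 1 := Nat.ceil_lt_add_one (by linarith)
  have hm : 8 * S ≤ ((2 * t + 2 : ℕ) : ℝ) := by push_cast; linarith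
  have hfac := pf S (2 * t + 2) (by linarith) hm
  have hexpS : Real.exp (-S) ≤ c0 / (4 * Lz) := by
    rw [hS, neg_add, Real.exp_add, Real.exp_neg, Real.exp_log hLz0]
    calc Lz⁻¹ * Real.exp (-D) ≤ Lz⁻¹ * (c0 / 4) := mul_le_mul_of_nonneg_left hDe (by positivity)
      _ = c0 / (4 * Lz) := by field_simp
  -- the error term
  have hE : (1 + (z : ℝ)) ^ (2 * t + 1) ≤ Real.exp ((16 * D + 22) * Lz ^ 2) := by
    have h1 : (1 + (z : ℝ)) = Real.exp (Real.log (1 + z)) := (Real.exp_log (by linarith)).symm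
    have h2 : Real.log (1 + z) ≤ 2 * Lz := by
      have h3 : Real.log ((z : ℝ) ^ 2) = 2 * Lz := by rw [Real.log_pow, hLz]; norm_num
      rw [← h3]
      apply Real.log_le_log (by linarith)
      nlinarith
    have h20 : 0 ≤ Real.log (1 + (z : ℝ)) := Real.log_nonneg (by linarith)
    rw [h1, ← Real.exp_nat_mul]
    apply Real.exp_le_exp.2
    push_cast
    have h4 : 2 * (t : ℝ) + 1 ≤ (8 * D + 11) * Lz := by
      have h5 : 2 * (t : ℝ) + 1 ≤ 8 * S + 3 := by linarith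
      have h6 : 8 * S + 3 ≤ (8 * D + 11) * Lz := by
        rw [hS]
        nlinarith
      linarith
    have h40 : 0 ≤ 2 * (t : ℝ) + 1 := by positivity
    calc (2 * (t : ℝ) + 1) * Real.log (1 + z) ≤ ((8 * D + 11) * Lz) * (2 * Lz) :=
          mul_le_mul h4 h2 h20 (by nlinarith)
      _ = (16 * D + 22) * Lz ^ 2 := by ring
  have hV0 : (0 : ℝ) < V := by linarith
  have hE2 : Real.exp ((16 * D + 22) * Lz ^ 2) ≤ c0 / (4 * Lz) * V := by
    have h1 : 4 * Lz / c0 ≤ Real.exp ((D + 1) * Lz ^ 2) := by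
      have h2 : 4 * Lz / c0 = Real.exp (Real.log (4 / c0) + Real.log Lz) := by
        rw [Real.exp_add, Real.exp_log (by positivity), Real.exp_log hLz0]; ring
      rw [h2]
      apply Real.exp_le_exp.2
      nlinarith [mul_nonneg hLz0.le (sub_nonneg.2 hLz1)]
    have h3 : Real.exp ((17 * D + 23) * Lz ^ 2) ≤ V := by
      rw [← Real.le_log_iff_exp_le hV0]
      exact hKV
    have h4 : Real.exp ((17 * D + 23) * Lz ^ 2) =
        Real.exp ((16 * D + 22) * Lz ^ 2) * Real.exp ((D + 1) * Lz ^ 2) := by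
      rw [← Real.exp_add]; ring_nf
    have h5 : Real.exp ((16 * D + 22) * Lz ^ 2) * (4 * Lz / c0) ≤ V := by
      calc Real.exp ((16 * D + 22) * Lz ^ 2) * (4 * Lz / c0)
          ≤ Real.exp ((16 * D + 22) * Lz ^ 2) * Real.exp ((D + 1) * Lz ^ 2) :=
            mul_le_mul_of_nonneg_left h1 (Real.exp_pos _).le
        _ = Real.exp ((17 * D + 23) * Lz ^ 2) := h4.symm
        _ ≤ V := h3
    calc Real.exp ((16 * D + 22) * Lz ^ 2) =
          c0 / (4 * Lz) * (Real.exp ((16 * D + 22) * Lz ^ 2) * (4 * Lz / c0)) := by field_simp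
      _ ≤ c0 / (4 * Lz) * V := mul_le_mul_of_nonneg_left h5 (by positivity)
  have hkey := dyad (fun v => z < (A * v - 1).minFac) V (c0 / (2 * Lz)) (by omega) (by positivity) (by
    intro N hN
    have hN2 : 2 ≤ N := by omega
    have hNV : (V : ℝ) ≤ N := by exact_mod_cast hN
    have hN0 : (0 : ℝ) < N := by linarith
    refine le_trans ?_ (s1 A z N t S hA hN2 ((hC z hz).trans (by rw [hS]; linarith)))
    have h1 := hprod z hz
    have h2 : c0 / (4 * Lz) * (V : ℝ) ≤ c0 / (4 * Lz) * N := mul_le_mul_of_nonneg_left hNV (by positivity)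
    have h3 : (N : ℝ) * (c0 / Lz - c0 / (4 * Lz)) ≤
        (N : ℝ) * (∏ q ∈ (Icc 1 z).filter Nat.Prime, (1 - 1 / (q : ℝ)) - S ^ (2 * t + 2) / (2 * t + 2).factorial) := by
      apply mul_le_mul_of_nonneg_left _ hN0.le
      have h4 := hfac.trans hexpS
      linarith
    have h5 : c0 / (2 * Lz) * N = N * (c0 / Lz - c0 / (4 * Lz)) - c0 / (4 * Lz) * N := by
      field_simp
      ring
    rw [h5]
    linarith)
  refine le_trans ?_ hkey
  have hLV : 0 ≤ Real.log V := Real.log_nonneg (by linarith)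
  apply mul_le_mul_of_nonneg_right _ hLV
  have h1 : min (c0 / 8) 1 / Lz ^ 3 ≤ (c0 / 8) / Lz := by
    have h2 : Lz ≤ Lz ^ 3 := by nlinarith [mul_nonneg hLz0.le (sub_nonneg.2 hLz1), sq_nonneg Lz]
    calc min (c0 / 8) 1 / Lz ^ 3 ≤ (c0 / 8) / Lz ^ 3 := by gcongr; exact min_le_left _ _
      _ ≤ (c0 / 8) / Lz := by gcongr
  refine h1.trans (le_of_eq ?_)
  field_simp
  norm_num

end Pool.Agent.SPA.S92
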