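import Pool.Agent.SPA.Stmts

/-!
# Row A: reciprocals of a residue class in `(V, V²]`
-/

set_option autoImplicit false

namespace Pool.Agent.SPA

open Finset

lemma inv_le_log (w q : ℝ) (hw : 0 < w) (hq : 0 < q) : 1 / (w + q) ≤ Real.log ((w + q) / w) / q := by
  have h1 : 1 - ((w + q) / w)⁻¹ ≤ Real.log ((w + q) / w) := Real.one_sub_inv_le_log_of_pos (by positivity)
  have h2 : 1 - ((w + q) / w)⁻¹ = q / (w + q) := by field_simp; ring
  rw [h2] at h1
  rw [le_div_iff₀ hq]
  calc 1 / (w + q) * q = q / (w + q) := by ring
    _ ≤ _ := h1

/-- general form: the least element is at least `V`, gaps `q` -/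
lemma rowA_aux (V q c : ℕ) (hV : 1 ≤ V) (hq : 1 ≤ q) : ∀ W : ℕ, V ≤ W →
    ∑ v ∈ (Ioc V W).filter (fun v => v ≡ c [MOD q]), (1 : ℝ) / v ≤ Real.log ((W : ℝ) / V) / q + 1 / V := by
  intro W
  have hV' : (0 : ℝ) < V := by exact_mod_cast hV
  have hq' : (0 : ℝ) < q := by exact_mod_cast hq
  induction W using Nat.strong_induction_on with
  | _ W ih =>
    intro hVW
    have hW' : (0 : ℝ) < W := by
      have : 0 < W := by omega
      exact_mod_cast this
    have hlog : 0 ≤ Real.log ((W : ℝ) / V) / q := by
      apply div_nonneg _ hq'.le
      apply Real.log_nonneg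
      rw [le_div_iff₀ hV', one_mul]
      exact_mod_cast hVW
    by_cases hc : W ≡ c [MOD q]
    · by_cases h : V + q < W
      · have hsub : (Ioc V W).filter (fun v => v ≡ c [MOD q])
            = insert W ((Ioc V (W - q)).filter (fun v => v ≡ c [MOD q])) := by
          ext v
          simp only [mem_filter, mem_insert, mem_Ioc]
          constructor
          · rintro ⟨⟨h1, h2⟩, h3⟩
            by_cases hv : v = W
            · exact Or.inl hv
            · right
              have h4 : v ≡ W [MOD q] := h3.trans hc.symm
              have hd : q ∣ W - v := (Nat.modEq_iff_dvd' h2).mp h4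
              have h5 : q ≤ W - v := Nat.le_of_dvd (by omega) hd
              exact ⟨⟨h1, by omega⟩, h3⟩
          · rintro (rfl | ⟨⟨h1, h2⟩, h3⟩)
            · exact ⟨⟨by omega, le_rfl⟩, hc⟩
            · exact ⟨⟨h1, by omega⟩, h3⟩
        have hn : W ∉ (Ioc V (W - q)).filter (fun v => v ≡ c [MOD q]) := by
          simp only [mem_filter, mem_Ioc, not_and]
          intro h1
          omega
        rw [hsub, sum_insert hn]
        have h1 := ih (W - q) (by omega) (by omega)
        have hcast : ((W - q : ℕ) : ℝ) = (W : ℝ) - q := by
          rw [Nat.cast_sub (by omega)]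
        rw [hcast] at h1
        have hwq : (0 : ℝ) < (W : ℝ) - q := by
          have : q < W := by omega
          have : (q : ℝ) < W := by exact_mod_cast this
          linarith
        have h2 := inv_le_log ((W : ℝ) - q) q hwq hq'
        rw [sub_add_cancel] at h2
        have h3 : Real.log ((W : ℝ) / V) = Real.log (((W : ℝ) - q) / V) + Real.log ((W : ℝ) / ((W : ℝ) - q)) := by
          rw [← Real.log_mul (by positivity) (by positivity)]
          congr 1
          field_simp
        rw [h3, add_div]
        linarith
      · have hsub : (Ioc V W).filter (fun v => v ≡ c [MOD q]) ⊆ {W} := by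
          intro v
          simp only [mem_filter, mem_singleton, mem_Ioc]
          rintro ⟨⟨h1, h2⟩, h3⟩
          by_contra hv
          have h4 : v ≡ W [MOD q] := h3.trans hc.symm
          have hd : q ∣ W - v := (Nat.modEq_iff_dvd' h2).mp h4
          have h5 : q ≤ W - v := Nat.le_of_dvd (by omega) hd
          omega
        calc ∑ v ∈ (Ioc V W).filter (fun v => v ≡ c [MOD q]), (1 : ℝ) / v ≤ ∑ v ∈ {W}, (1 : ℝ) / (v : ℕ) :=
              sum_le_sum_of_subset_of_nonneg hsub (fun _ _ _ => by positivity)
          _ = 1 / (W : ℝ) := by simp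
          _ ≤ 1 / V := by
              apply one_div_le_one_div_of_le hV'
              exact_mod_cast hVW
          _ ≤ _ := by linarith
    · rcases hVW.lt_or_eq with h | h
      · have hsub : (Ioc V W).filter (fun v => v ≡ c [MOD q]) = (Ioc V (W - 1)).filter (fun v => v ≡ c [MOD q]) := by
          ext v
          simp only [mem_filter, mem_Ioc]
          constructor
          · rintro ⟨⟨h1, h2⟩, h3⟩
            refine ⟨⟨h1, ?_⟩, h3⟩
            have : v ≠ W := by
              rintro rfl
              exact hc h3
            omega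
          · rintro ⟨⟨h1, h2⟩, h3⟩
            exact ⟨⟨h1, by omega⟩, h3⟩
        rw [hsub]
        refine (ih (W - 1) (by omega) (by omega)).trans ?_
        gcongr
        · have : 0 < W - 1 := by omega
          have h0 : (0 : ℝ) < ((W - 1 : ℕ) : ℝ) := by exact_mod_cast this
          positivity
        · omega
      · subst h
        simp

theorem a46 : RowA := by
  intro V q c hV hq
  have hV' : (0 : ℝ) < V := by exact_mod_cast hV
  refine (rowA_aux V q c hV hq (V ^ 2) ?_).trans ?_
  · nlinarith
  · have : ((V ^ 2 : ℕ) : ℝ) / V = V := by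
      push_cast
      field_simp
    rw [this]

end Pool.Agent.SPA
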