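import Pool.Agent.SPA.Stmts

/-!
# Row C: pairs of moduli `A v - 1`, `A w - 1` with the same `A`
-/

set_option autoImplicit false

namespace Pool.Agent.SPA

open Finset

/-- the gcd is symmetric in `v, w` -/
lemma c17_symm (A v w : ℕ) (hA : 1 ≤ A) (hv : 1 ≤ v) (hw : 1 ≤ w) :
    Nat.gcd (A * v - 1) (((v : ℤ) - w).natAbs) = Nat.gcd (A * w - 1) (((w : ℤ) - v).natAbs) := by
  have hAv : 1 ≤ A * v := Nat.mul_pos hA hv
  have hAw : 1 ≤ A * w := Nat.mul_pos hA hw
  apply Nat.dvd_antisymm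
  · apply Nat.dvd_gcd
    · have h1 : ((Nat.gcd (A * v - 1) (((v : ℤ) - w).natAbs) : ℕ) : ℤ) ∣ ((A * v - 1 : ℕ) : ℤ) :=
        Int.natCast_dvd_natCast.mpr (Nat.gcd_dvd_left _ _)
      have h2 : ((Nat.gcd (A * v - 1) (((v : ℤ) - w).natAbs) : ℕ) : ℤ) ∣ ((v : ℤ) - w) :=
        Int.natCast_dvd.mpr (Nat.gcd_dvd_right _ _)
      apply Int.natCast_dvd_natCast.mp
      rw [Nat.cast_sub hAv] at h1
      rw [Nat.cast_sub hAw]
      push_cast at h1 ⊢
      have h3 : (A : ℤ) * w - 1 = ((A : ℤ) * v - 1) - A * ((v : ℤ) - w) := by ring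
      rw [h3]
      exact dvd_sub h1 (h2.mul_left _)
    · have h : ((w : ℤ) - v).natAbs = ((v : ℤ) - w).natAbs := by omega
      rw [h]
      exact Nat.gcd_dvd_right _ _
  · apply Nat.dvd_gcd
    · have h1 : ((Nat.gcd (A * w - 1) (((w : ℤ) - v).natAbs) : ℕ) : ℤ) ∣ ((A * w - 1 : ℕ) : ℤ) :=
        Int.natCast_dvd_natCast.mpr (Nat.gcd_dvd_left _ _)
      have h2 : ((Nat.gcd (A * w - 1) (((w : ℤ) - v).natAbs) : ℕ) : ℤ) ∣ ((w : ℤ) - v) :=
        Int.natCast_dvd.mpr (Nat.gcd_dvd_right _ _)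
      apply Int.natCast_dvd_natCast.mp
      rw [Nat.cast_sub hAw] at h1
      rw [Nat.cast_sub hAv]
      push_cast at h1 ⊢
      have h3 : (A : ℤ) * v - 1 = ((A : ℤ) * w - 1) - A * ((w : ℤ) - v) := by ring
      rw [h3]
      exact dvd_sub h1 (h2.mul_left _)
    · have h : ((v : ℤ) - w).natAbs = ((w : ℤ) - v).natAbs := by omega
      rw [h]
      exact Nat.gcd_dvd_right _ _

/-- reciprocals of `v + g j` -/
lemma c17_inner (v g N : ℕ) (hg : 1 ≤ g) :
    ∑ w ∈ (Ioc v N).filter (fun w => g ∣ w - v), (1 : ℝ) / w ≤ (1 + Real.log N) / g := by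
  have hg' : (0 : ℝ) < g := by exact_mod_cast hg
  have hsub : (Ioc v N).filter (fun w => g ∣ w - v) ⊆ (Icc 1 N).image (fun j => v + g * j) := by
    intro w
    simp only [mem_filter, mem_Ioc, mem_image, mem_Icc]
    rintro ⟨⟨h1, h2⟩, ⟨j, hj⟩⟩
    have hj1 : 1 ≤ j := by
      rcases Nat.eq_zero_or_pos j with h | h
      · subst h; omega
      · exact h
    have hj2 : j ≤ g * j := Nat.le_mul_of_pos_left j hg
    exact ⟨j, ⟨hj1, by omega⟩, by omega⟩
  have hinj : Set.InjOn (fun j => v + g * j) (Icc 1 N : Finset ℕ) := by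
    intro a _ b _ hab
    simp only at hab
    have h : g * a = g * b := by omega
    exact Nat.eq_of_mul_eq_mul_left hg h
  calc ∑ w ∈ (Ioc v N).filter (fun w => g ∣ w - v), (1 : ℝ) / w
      ≤ ∑ w ∈ (Icc 1 N).image (fun j => v + g * j), (1 : ℝ) / w :=
        sum_le_sum_of_subset_of_nonneg hsub (fun _ _ _ => by positivity)
    _ = ∑ j ∈ Icc 1 N, (1 : ℝ) / ((v + g * j : ℕ) : ℝ) := sum_image hinj
    _ ≤ ∑ j ∈ Icc 1 N, ((j : ℝ))⁻¹ / g := by
        apply sum_le_sum
        intro j hj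
        have hj' : (0 : ℝ) < j := by
          have : 0 < j := by have := (mem_Icc.mp hj).1; omega
          exact_mod_cast this
        rw [inv_eq_one_div, div_div]
        apply one_div_le_one_div_of_le (by positivity)
        push_cast
        have : (0 : ℝ) ≤ v := by positivity
        linarith [mul_comm (g : ℝ) j]
    _ = (∑ j ∈ Icc 1 N, ((j : ℝ))⁻¹) / g := by rw [sum_div]
    _ ≤ (1 + Real.log N) / g := by
        have h := harmonic_le_one_add_log N
        rw [harmonic_eq_sum_Icc] at h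
        push_cast at h
        gcongr

/-- the sum over `w > v` -/
lemma c17_row (n v N : ℕ) (hn : 1 ≤ n) (hv : 1 ≤ v) :
    ∑ w ∈ Ioc v N, ((Nat.gcd n (w - v) : ℕ) : ℝ) / w ≤ (1 + Real.log N) * n.divisors.card := by
  have h1 : ∀ w ∈ Ioc v N, ((Nat.gcd n (w - v) : ℕ) : ℝ) / w ≤
      ∑ g ∈ n.divisors, if g ∣ w - v then (g : ℝ) * (1 / w) else 0 := by
    intro w hw
    have hw' : (0 : ℝ) < w := by
      have : 0 < w := by have := (mem_Ioc.mp hw).1; omega
      exact_mod_cast this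
    have hmem : Nat.gcd n (w - v) ∈ n.divisors :=
      Nat.mem_divisors.mpr ⟨Nat.gcd_dvd_left _ _, by omega⟩
    have h2 : (if Nat.gcd n (w - v) ∣ w - v then ((Nat.gcd n (w - v) : ℕ) : ℝ) * (1 / w) else 0) ≤
        ∑ g ∈ n.divisors, if g ∣ w - v then (g : ℝ) * (1 / w) else 0 :=
      single_le_sum (f := fun g : ℕ => if g ∣ w - v then (g : ℝ) * (1 / w) else 0)
        (s := n.divisors) (fun g _ => by positivity) hmem
    rw [if_pos (Nat.gcd_dvd_right n (w - v))] at h2
    calc ((Nat.gcd n (w - v) : ℕ) : ℝ) / w = ((Nat.gcd n (w - v) : ℕ) : ℝ) * (1 / w) := by ring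
      _ ≤ _ := h2
  calc ∑ w ∈ Ioc v N, ((Nat.gcd n (w - v) : ℕ) : ℝ) / w
      ≤ ∑ w ∈ Ioc v N, ∑ g ∈ n.divisors, (if g ∣ w - v then (g : ℝ) * (1 / w) else 0) :=
        sum_le_sum h1
    _ = ∑ g ∈ n.divisors, ∑ w ∈ Ioc v N, (if g ∣ w - v then (g : ℝ) * (1 / w) else 0) := sum_comm
    _ = ∑ g ∈ n.divisors, (g : ℝ) * ∑ w ∈ (Ioc v N).filter (fun w => g ∣ w - v), (1 : ℝ) / w := by
        apply sum_congr rfl
        intro g _
        rw [mul_sum, sum_filter]
    _ ≤ ∑ g ∈ n.divisors, (1 + Real.log N) := by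
        apply sum_le_sum
        intro g hg
        have hg1 : 1 ≤ g := Nat.pos_of_mem_divisors hg
        have hg' : (0 : ℝ) < g := by exact_mod_cast hg1
        calc (g : ℝ) * ∑ w ∈ (Ioc v N).filter (fun w => g ∣ w - v), (1 : ℝ) / w
            ≤ (g : ℝ) * ((1 + Real.log N) / g) := by
              gcongr
              exact c17_inner v g N hg1
          _ = 1 + Real.log N := by field_simp
    _ = (1 + Real.log N) * n.divisors.card := by
        rw [sum_const, nsmul_eq_mul]; ring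

/-- divisors come in pairs -/
lemma c17_div (n D : ℕ) (hn : 1 ≤ n) (hD : n < (D + 1) * (D + 1)) :
    n.divisors.card ≤ 2 * ((Icc 1 D).filter (fun d => d ∣ n)).card := by
  have h1 : n.divisors ⊆ (Icc 1 D).filter (fun d => d ∣ n) ∪
      ((Icc 1 D).filter (fun d => d ∣ n)).image (fun d => n / d) := by
    intro d hd
    have hd1 : d ∣ n := Nat.dvd_of_mem_divisors hd
    have hd0 : 1 ≤ d := Nat.pos_of_mem_divisors hd
    rw [mem_union]
    by_cases h : d ≤ D
    · left
      exact mem_filter.mpr ⟨mem_Icc.mpr ⟨hd0, h⟩, hd1⟩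
    · right
      rw [mem_image]
      refine ⟨n / d, mem_filter.mpr ⟨mem_Icc.mpr ⟨Nat.div_pos (Nat.le_of_dvd hn hd1) hd0, ?_⟩,
        Nat.div_dvd_of_dvd hd1⟩, Nat.div_div_self hd1 (by omega)⟩
      by_contra h2
      have h3 : d * (n / d) = n := Nat.mul_div_cancel' hd1
      have h4 : (D + 1) * (D + 1) ≤ d * (n / d) := Nat.mul_le_mul (by omega) (by omega)
      omega
  calc n.divisors.card ≤ _ := card_le_card h1
    _ ≤ ((Icc 1 D).filter (fun d => d ∣ n)).card +
        (((Icc 1 D).filter (fun d => d ∣ n)).image (fun d => n / d)).card := card_union_le _ _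
    _ ≤ ((Icc 1 D).filter (fun d => d ∣ n)).card + ((Icc 1 D).filter (fun d => d ∣ n)).card :=
        Nat.add_le_add_left card_image_le _
    _ = _ := by ring

/-- the class of `v` with `d ∣ A v - 1` -/
lemma c17_class (hRA : RowA) (A V d : ℕ) (hA : 1 ≤ A) (hV : 2 ≤ V) (hd : 1 ≤ d) :
    ∑ v ∈ (Ioc V (V ^ 2)).filter (fun v => d ∣ A * v - 1), (1 : ℝ) / v ≤ Real.log V / d + 1 / V := by
  rcases ((Ioc V (V ^ 2)).filter (fun v => d ∣ A * v - 1)).eq_empty_or_nonempty with h | ⟨c, hc⟩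
  · rw [h, sum_empty]
    have : 0 ≤ Real.log V := Real.log_natCast_nonneg V
    positivity
  · refine le_trans (sum_le_sum_of_subset_of_nonneg ?_ (fun _ _ _ => by positivity))
      (hRA V d c (by omega) hd)
    intro v hv
    rw [mem_filter] at hv hc ⊢
    refine ⟨hv.1, ?_⟩
    have hv1 := mem_Ioc.mp hv.1
    have hc1 := mem_Ioc.mp hc.1
    have hAv : 1 ≤ A * v := Nat.mul_pos hA (by omega)
    have hAc : 1 ≤ A * c := Nat.mul_pos hA (by omega)
    have e1 : ((d : ℕ) : ℤ) ∣ (A : ℤ) * v - 1 := by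
      have := Int.natCast_dvd_natCast.mpr hv.2
      rw [Nat.cast_sub hAv] at this
      push_cast at this
      exact this
    have e2 : ((d : ℕ) : ℤ) ∣ (A : ℤ) * c - 1 := by
      have := Int.natCast_dvd_natCast.mpr hc.2
      rw [Nat.cast_sub hAc] at this
      push_cast at this
      exact this
    rw [Nat.modEq_iff_dvd]
    have e3 : (c : ℤ) - v = ((A : ℤ) * c - 1) * v - ((A : ℤ) * v - 1) * c := by ring
    rw [e3]
    exact dvd_sub (e2.mul_right _) (e1.mul_right _)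

/-- `∑ τ(A v - 1) / v` -/
lemma c17_tau (hRA : RowA) (A V : ℕ) (hA : 1 ≤ A) (hV : 2 ≤ V) :
    ∑ v ∈ Ioc V (V ^ 2), (1 : ℝ) / v * ((A * v - 1).divisors.card : ℝ) ≤
      2 * ((1 + Real.log A + Real.log V) * Real.log V + Real.sqrt A) := by
  have hV' : (0 : ℝ) < V := by
    have : 0 < V := by omega
    exact_mod_cast this
  have hA' : (0 : ℝ) < A := by exact_mod_cast hA
  have hlV : 0 ≤ Real.log V := Real.log_natCast_nonneg V
  have hlA : 0 ≤ Real.log A := Real.log_natCast_nonneg A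
  set D : ℕ := Nat.sqrt (A * V ^ 2) with hDdef
  have hD1 : 1 ≤ D := by
    rw [hDdef, Nat.le_sqrt]
    nlinarith
  have hDr : (D : ℝ) ≤ Real.sqrt A * V := by
    have h1 : ((D * D : ℕ) : ℝ) ≤ ((A * V ^ 2 : ℕ) : ℝ) := by
      exact_mod_cast Nat.sqrt_le (A * V ^ 2)
    push_cast at h1
    have h2 : (Real.sqrt A * V) ^ 2 = A * V ^ 2 := by
      rw [mul_pow, Real.sq_sqrt hA'.le]
    have h3 : (0 : ℝ) ≤ Real.sqrt A * V := by positivity
    nlinarith [h1, h2, h3, (by positivity : (0 : ℝ) ≤ D)]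
  have hlogD : Real.log D ≤ Real.log A + Real.log V := by
    have hD0 : (0 : ℝ) < D := by exact_mod_cast hD1
    have h1 : Real.log D ≤ Real.log (Real.sqrt A * V) := Real.log_le_log hD0 hDr
    rw [Real.log_mul (by positivity) (by positivity), Real.log_sqrt hA'.le] at h1
    linarith
  have step1 : ∀ v ∈ Ioc V (V ^ 2), (1 : ℝ) / v * ((A * v - 1).divisors.card : ℝ) ≤
      2 * ∑ d ∈ Icc 1 D, (if d ∣ A * v - 1 then (1 : ℝ) / v else 0) := by
    intro v hv
    have hv1 := mem_Ioc.mp hv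
    have hv' : (0 : ℝ) < v := by
      have : 0 < v := by omega
      exact_mod_cast this
    have hAv : 2 ≤ A * v := by nlinarith
    have hn : 1 ≤ A * v - 1 := by omega
    have hlt : A * v - 1 < (D + 1) * (D + 1) := by
      have h1 : A * v ≤ A * V ^ 2 := Nat.mul_le_mul_left A hv1.2
      have h2 : A * V ^ 2 < (D + 1) * (D + 1) := Nat.lt_succ_sqrt _
      omega
    have h3 := c17_div (A * v - 1) D hn hlt
    have h4 : ((A * v - 1).divisors.card : ℝ) ≤
        2 * (((Icc 1 D).filter (fun d => d ∣ A * v - 1)).card : ℝ) := by exact_mod_cast h3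
    calc (1 : ℝ) / v * ((A * v - 1).divisors.card : ℝ)
        ≤ (1 : ℝ) / v * (2 * (((Icc 1 D).filter (fun d => d ∣ A * v - 1)).card : ℝ)) := by gcongr
      _ = 2 * ∑ d ∈ Icc 1 D, (if d ∣ A * v - 1 then (1 : ℝ) / v else 0) := by
          rw [← sum_filter, sum_const, nsmul_eq_mul]; ring
  calc ∑ v ∈ Ioc V (V ^ 2), (1 : ℝ) / v * ((A * v - 1).divisors.card : ℝ)
      ≤ ∑ v ∈ Ioc V (V ^ 2), 2 * ∑ d ∈ Icc 1 D, (if d ∣ A * v - 1 then (1 : ℝ) / v else 0) :=
        sum_le_sum step1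
    _ = 2 * ∑ d ∈ Icc 1 D, ∑ v ∈ Ioc V (V ^ 2), (if d ∣ A * v - 1 then (1 : ℝ) / v else 0) := by
        rw [← mul_sum, sum_comm]
    _ = 2 * ∑ d ∈ Icc 1 D, ∑ v ∈ (Ioc V (V ^ 2)).filter (fun v => d ∣ A * v - 1), (1 : ℝ) / v := by
        congr 1
        apply sum_congr rfl
        intro d _
        rw [sum_filter]
    _ ≤ 2 * ∑ d ∈ Icc 1 D, (Real.log V * ((d : ℝ))⁻¹ + 1 / V) := by
        gcongr with d hd
        have := c17_class hRA A V d hA hV (mem_Icc.mp hd).1
        rw [div_eq_mul_inv] at this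
        exact this
    _ = 2 * (Real.log V * ∑ d ∈ Icc 1 D, ((d : ℝ))⁻¹ + D / V) := by
        rw [sum_add_distrib, ← mul_sum, sum_const, nsmul_eq_mul, Nat.card_Icc]
        simp only [Nat.add_sub_cancel]
        ring
    _ ≤ 2 * (Real.log V * (1 + Real.log D) + Real.sqrt A) := by
        have h := harmonic_le_one_add_log D
        rw [harmonic_eq_sum_Icc] at h
        push_cast at h
        have h2 : (D : ℝ) / V ≤ Real.sqrt A := by
          rw [div_le_iff₀ hV']
          exact hDr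
        gcongr
    _ ≤ 2 * ((1 + Real.log A + Real.log V) * Real.log V + Real.sqrt A) := by
        nlinarith [mul_le_mul_of_nonneg_left hlogD hlV]

theorem c (hRA : RowA) : RowC := by
  intro A V hA hV
  have hV' : (0 : ℝ) < V := by
    have : 0 < V := by omega
    exact_mod_cast this
  have hlV : 0 ≤ Real.log V := Real.log_natCast_nonneg V
  have hlA : 0 ≤ Real.log A := Real.log_natCast_nonneg A
  -- the term
  let H : ℕ → ℕ → ℝ := fun v w =>
    ((Nat.gcd (A * v - 1) (((v : ℤ) - w).natAbs) : ℕ) : ℝ) / ((v : ℝ) * w)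
  have hsymm : ∀ v w, 1 ≤ v → 1 ≤ w → H v w = H w v := by
    intro v w hv hw
    simp only [H]
    rw [c17_symm A v w hA hv hw, mul_comm (v : ℝ) w]
  have hsplit : ∀ v ∈ Ioc V (V ^ 2), ∑ w ∈ (Ioc V (V ^ 2)).filter (fun w => w ≠ v), H v w =
      ∑ w ∈ (Ioc V (V ^ 2)).filter (fun w => v < w), H v w +
      ∑ w ∈ (Ioc V (V ^ 2)).filter (fun w => w < v), H v w := by
    intro v _
    rw [← sum_union]
    · congr 1
      ext w
      simp only [mem_filter, mem_union]
      constructor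
      · rintro ⟨h1, h2⟩
        rcases Nat.lt_or_gt_of_ne h2 with h | h
        · exact Or.inr ⟨h1, h⟩
        · exact Or.inl ⟨h1, h⟩
      · rintro (⟨h1, h2⟩ | ⟨h1, h2⟩)
        · exact ⟨h1, by omega⟩
        · exact ⟨h1, by omega⟩
    · rw [disjoint_left]
      intro w h1 h2
      have := (mem_filter.mp h1).2
      have := (mem_filter.mp h2).2
      omega
  have hswap : ∑ v ∈ Ioc V (V ^ 2), ∑ w ∈ (Ioc V (V ^ 2)).filter (fun w => w < v), H v w =
      ∑ v ∈ Ioc V (V ^ 2), ∑ w ∈ (Ioc V (V ^ 2)).filter (fun w => v < w), H v w := by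
    have h1 : ∑ v ∈ Ioc V (V ^ 2), ∑ w ∈ (Ioc V (V ^ 2)).filter (fun w => w < v), H v w =
        ∑ v ∈ Ioc V (V ^ 2), ∑ w ∈ Ioc V (V ^ 2), (if w < v then H v w else 0) := by
      apply sum_congr rfl
      intro v _
      rw [sum_filter]
    have h2 : ∑ v ∈ Ioc V (V ^ 2), ∑ w ∈ (Ioc V (V ^ 2)).filter (fun w => v < w), H v w =
        ∑ v ∈ Ioc V (V ^ 2), ∑ w ∈ Ioc V (V ^ 2), (if v < w then H v w else 0) := by
      apply sum_congr rfl
      intro v _
      rw [sum_filter]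
    rw [h1, h2, sum_comm]
    apply sum_congr rfl
    intro w hw
    apply sum_congr rfl
    intro v hv
    have hw1 := mem_Ioc.mp hw
    have hv1 := mem_Ioc.mp hv
    rw [hsymm v w (by omega) (by omega)]
  have hmain : ∑ v ∈ Ioc V (V ^ 2), ∑ w ∈ (Ioc V (V ^ 2)).filter (fun w => v < w), H v w ≤
      (1 + 2 * Real.log V) * (2 * ((1 + Real.log A + Real.log V) * Real.log V + Real.sqrt A)) := by
    have h1 : ∀ v ∈ Ioc V (V ^ 2), ∑ w ∈ (Ioc V (V ^ 2)).filter (fun w => v < w), H v w ≤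
        (1 + 2 * Real.log V) * ((1 : ℝ) / v * ((A * v - 1).divisors.card : ℝ)) := by
      intro v hv
      have hv1 := mem_Ioc.mp hv
      have hv' : (0 : ℝ) < v := by
        have : 0 < v := by omega
        exact_mod_cast this
      have hAv : 2 ≤ A * v := by nlinarith
      have hset : (Ioc V (V ^ 2)).filter (fun w => v < w) = Ioc v (V ^ 2) := by
        ext w
        simp only [mem_filter, mem_Ioc]
        constructor
        · rintro ⟨⟨h1, h2⟩, h3⟩
          exact ⟨h3, h2⟩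
        · rintro ⟨h1, h2⟩
          exact ⟨⟨by omega, h2⟩, h1⟩
      rw [hset]
      have h2 : ∑ w ∈ Ioc v (V ^ 2), H v w =
          (1 : ℝ) / v * ∑ w ∈ Ioc v (V ^ 2), ((Nat.gcd (A * v - 1) (w - v) : ℕ) : ℝ) / w := by
        rw [mul_sum]
        apply sum_congr rfl
        intro w hw
        have hw1 := mem_Ioc.mp hw
        have hw' : (0 : ℝ) < w := by
          have : 0 < w := by omega
          exact_mod_cast this
        have h3 : ((v : ℤ) - w).natAbs = w - v := by omega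
        simp only [H]
        rw [h3]
        field_simp
      rw [h2]
      have h4 := c17_row (A * v - 1) v (V ^ 2) (by omega) (by omega)
      have h5 : Real.log ((V ^ 2 : ℕ) : ℝ) = 2 * Real.log V := by
        push_cast
        rw [Real.log_pow]
        norm_num
      rw [h5] at h4
      calc (1 : ℝ) / v * ∑ w ∈ Ioc v (V ^ 2), ((Nat.gcd (A * v - 1) (w - v) : ℕ) : ℝ) / w
          ≤ (1 : ℝ) / v * ((1 + 2 * Real.log V) * ((A * v - 1).divisors.card : ℝ)) := by gcongr
        _ = _ := by ring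
    calc _ ≤ ∑ v ∈ Ioc V (V ^ 2),
          (1 + 2 * Real.log V) * ((1 : ℝ) / v * ((A * v - 1).divisors.card : ℝ)) := sum_le_sum h1
      _ = (1 + 2 * Real.log V) *
          ∑ v ∈ Ioc V (V ^ 2), (1 : ℝ) / v * ((A * v - 1).divisors.card : ℝ) := by rw [mul_sum]
      _ ≤ _ := by
          gcongr
          exact c17_tau hRA A V hA hV
  calc ∑ v ∈ Ioc V (V ^ 2), ∑ w ∈ (Ioc V (V ^ 2)).filter (fun w => w ≠ v),
      ((Nat.gcd (A * v - 1) (((v : ℤ) - w).natAbs) : ℕ) : ℝ) / ((v : ℝ) * w)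
      = ∑ v ∈ Ioc V (V ^ 2), (∑ w ∈ (Ioc V (V ^ 2)).filter (fun w => v < w), H v w +
          ∑ w ∈ (Ioc V (V ^ 2)).filter (fun w => w < v), H v w) := sum_congr rfl hsplit
    _ = 2 * ∑ v ∈ Ioc V (V ^ 2), ∑ w ∈ (Ioc V (V ^ 2)).filter (fun w => v < w), H v w := by
        rw [sum_add_distrib, hswap]; ring
    _ ≤ 2 * ((1 + 2 * Real.log V) *
          (2 * ((1 + Real.log A + Real.log V) * Real.log V + Real.sqrt A))) := by gcongr
    _ ≤ 8 * (1 + 2 * Real.log V) * ((1 + Real.log A + Real.log V) * Real.log V + Real.sqrt A) := by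
        have h1 : 0 ≤ (1 + Real.log A + Real.log V) * Real.log V + Real.sqrt A := by positivity
        have h2 : 0 ≤ (1 + 2 * Real.log V) *
          ((1 + Real.log A + Real.log V) * Real.log V + Real.sqrt A) := by positivity
        nlinarith

end Pool.Agent.SPA
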