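import Pool.Agent.SPA.Stmts

/-!
# Row D: the second moment of the number of divisibilities `m i ∣ k + r i`
-/

set_option autoImplicit false

namespace Pool.Agent.SPA.D3

open Finset

/-- the number of `k ≤ x` in a residue class -/
lemma card_bounds (x L v : ℕ) (hL : 0 < L) :
    ((((Ioc 0 x).filter (fun k => k ≡ v [MOD L])).card : ℕ) : ℝ) ≤ x / L + 1 ∧
    (x : ℝ) / L - 1 ≤ ((((Ioc 0 x).filter (fun k => k ≡ v [MOD L])).card : ℕ) : ℝ) := by
  have h := Nat.Ioc_filter_modEq_card 0 x hL v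
  have hL' : (0 : ℚ) < L := by exact_mod_cast hL
  set c := ((Ioc 0 x).filter (fun k => k ≡ v [MOD L])).card with hc
  have e : ((x : ℚ) - v) / L - (((0 : ℕ) : ℚ) - v) / L = x / L := by
    push_cast; field_simp; ring
  have h1 := Int.floor_le (((x : ℚ) - v) / L)
  have h2 := Int.lt_floor_add_one (((x : ℚ) - v) / L)
  have h3 := Int.floor_le ((((0 : ℕ) : ℚ) - v) / L)
  have h4 := Int.lt_floor_add_one ((((0 : ℕ) : ℚ) - v) / L)
  have key : (((c : ℤ) : ℚ)) = max ((⌊((x : ℚ) - v) / L⌋ : ℚ) - ⌊(((0 : ℕ) : ℚ) - v) / L⌋) 0 := by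
    rw [h, Int.cast_max, Int.cast_sub, Int.cast_zero]
  have hx0 : (0 : ℚ) ≤ x / L := by positivity
  have u : ((c : ℤ) : ℚ) ≤ x / L + 1 := by
    rw [key]; apply max_le
    · linarith
    · linarith
  have l : (x : ℚ) / L - 1 ≤ ((c : ℤ) : ℚ) := by
    rw [key]; refine le_trans ?_ (le_max_left _ _); linarith
  constructor
  · have := (Rat.cast_le (K := ℝ)).mpr u
    push_cast at this; exact this
  · have := (Rat.cast_le (K := ℝ)).mpr l
    push_cast at this; exact this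

/-- a divisibility is a residue class -/
lemma dvd_iff (m r k : ℕ) (hm : 1 ≤ m) : m ∣ k + r ↔ k ≡ (m - 1) * r [MOD m] := by
  have e : (m - 1) * r + r = m * r := by
    obtain ⟨n, rfl⟩ : ∃ n, m = n + 1 := ⟨m - 1, by omega⟩
    simp; ring
  constructor
  · intro h
    apply Nat.ModEq.add_right_cancel' r
    rw [e]
    exact ((Nat.modEq_zero_iff_dvd.mpr h).trans (Nat.modEq_zero_iff_dvd.mpr (Dvd.intro _ rfl)).symm)
  · intro h
    have h2 := h.add_right r
    rw [e] at h2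
    exact Nat.modEq_zero_iff_dvd.mp (h2.trans (Nat.modEq_zero_iff_dvd.mpr (Dvd.intro _ rfl)))

/-- single events -/
lemma single (m r x : ℕ) (hm : 1 ≤ m) :
    (x : ℝ) / m - 1 ≤ ((((Ioc 0 x).filter (fun k => m ∣ k + r)).card : ℕ) : ℝ) := by
  have e : (Ioc 0 x).filter (fun k => m ∣ k + r) = (Ioc 0 x).filter (fun k => k ≡ (m - 1) * r [MOD m]) := by
    apply filter_congr
    intro k _
    exact dvd_iff m r k hm
  rw [e]
  exact (card_bounds x m _ hm).2

/-- pairs of events -/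
lemma double (m n r s x : ℕ) (hm : 1 ≤ m) (hn : 1 ≤ n) :
    ((((Ioc 0 x).filter (fun k => m ∣ k + r ∧ n ∣ k + s)).card : ℕ) : ℝ) ≤
      x * (1 / (m : ℝ) * (1 / n)) +
      x * (if 1 < Nat.gcd m n ∧ r ≡ s [MOD Nat.gcd m n] then ((Nat.gcd m n : ℕ) : ℝ) / ((m : ℝ) * n) else 0) + 1 := by
  have hm' : (0 : ℝ) < m := by exact_mod_cast hm
  have hn' : (0 : ℝ) < n := by exact_mod_cast hn
  have hB : (0 : ℝ) ≤ (if 1 < Nat.gcd m n ∧ r ≡ s [MOD Nat.gcd m n] then ((Nat.gcd m n : ℕ) : ℝ) / ((m : ℝ) * n) else 0) := by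
    split_ifs
    · positivity
    · exact le_rfl
  have hx : (0 : ℝ) ≤ x := by positivity
  rcases ((Ioc 0 x).filter (fun k => m ∣ k + r ∧ n ∣ k + s)).eq_empty_or_nonempty with h0 | ⟨k0, hk0⟩
  · rw [h0]
    simp only [card_empty, Nat.cast_zero]
    have : (0 : ℝ) ≤ x * (1 / (m : ℝ) * (1 / n)) := by positivity
    have := mul_nonneg hx hB
    linarith
  · rw [mem_filter] at hk0
    obtain ⟨_, h1, h2⟩ := hk0
    have hg : 0 < Nat.gcd m n := Nat.gcd_pos_of_pos_left n hm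
    have hL : 0 < Nat.lcm m n := Nat.lcm_pos hm hn
    have sub : (Ioc 0 x).filter (fun k => m ∣ k + r ∧ n ∣ k + s) ⊆
        (Ioc 0 x).filter (fun k => k ≡ k0 [MOD Nat.lcm m n]) := by
      intro k hk
      rw [mem_filter] at hk ⊢
      obtain ⟨hk, a1, a2⟩ := hk
      refine ⟨hk, ?_⟩
      have b1 : (m : ℤ) ∣ (k0 : ℤ) - k := by
        have := dvd_sub (Int.natCast_dvd_natCast.mpr h1) (Int.natCast_dvd_natCast.mpr a1)
        push_cast at this
        have e : (k0 : ℤ) + r - (k + r) = k0 - k := by ring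
        rwa [e] at this
      have b2 : (n : ℤ) ∣ (k0 : ℤ) - k := by
        have := dvd_sub (Int.natCast_dvd_natCast.mpr h2) (Int.natCast_dvd_natCast.mpr a2)
        push_cast at this
        have e : (k0 : ℤ) + s - (k + s) = k0 - k := by ring
        rwa [e] at this
      rw [Nat.modEq_iff_dvd]
      have c1 := Int.natCast_dvd.mp b1
      have c2 := Int.natCast_dvd.mp b2
      exact Int.natCast_dvd.mpr (Nat.lcm_dvd c1 c2)
    have hc := (card_bounds x (Nat.lcm m n) k0 hL).1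
    have hle : ((((Ioc 0 x).filter (fun k => m ∣ k + r ∧ n ∣ k + s)).card : ℕ) : ℝ) ≤
        ((((Ioc 0 x).filter (fun k => k ≡ k0 [MOD Nat.lcm m n])).card : ℕ) : ℝ) := by
      exact_mod_cast card_le_card sub
    have hgl : ((Nat.gcd m n : ℕ) : ℝ) * ((Nat.lcm m n : ℕ) : ℝ) = m * n := by
      exact_mod_cast Nat.gcd_mul_lcm m n
    have hg' : (0 : ℝ) < ((Nat.gcd m n : ℕ) : ℝ) := by exact_mod_cast hg
    have hL' : (0 : ℝ) < ((Nat.lcm m n : ℕ) : ℝ) := by exact_mod_cast hL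
    have hxl : (x : ℝ) / ((Nat.lcm m n : ℕ) : ℝ) = x * (((Nat.gcd m n : ℕ) : ℝ) / ((m : ℝ) * n)) := by
      rw [← hgl]
      field_simp
    rcases Nat.lt_or_ge 1 (Nat.gcd m n) with hlt | hge
    · have hr : r ≡ s [MOD Nat.gcd m n] := by
        apply Nat.ModEq.add_left_cancel' k0
        have d1 : Nat.gcd m n ∣ k0 + r := (Nat.gcd_dvd_left m n).trans h1
        have d2 : Nat.gcd m n ∣ k0 + s := (Nat.gcd_dvd_right m n).trans h2
        exact (Nat.modEq_zero_iff_dvd.mpr d1).trans (Nat.modEq_zero_iff_dvd.mpr d2).symm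
      rw [if_pos ⟨hlt, hr⟩, ← hxl]
      have : (0 : ℝ) ≤ x * (1 / (m : ℝ) * (1 / n)) := by positivity
      linarith
    · have h1' : Nat.gcd m n = 1 := by omega
      have : (x : ℝ) * (1 / (m : ℝ) * (1 / n)) = x / ((Nat.lcm m n : ℕ) : ℝ) := by
        rw [hxl, h1']
        push_cast
        field_simp
      rw [this]
      have := mul_nonneg hx hB
      linarith

theorem d : RowD := by
  classical
  intro E m r x hm
  set μ : ℝ := ∑ i ∈ E, (1 : ℝ) / m i with hμ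
  have hμ0 : 0 ≤ μ := sum_nonneg fun i _ => by positivity
  have hμE : μ ≤ E.card := by
    rw [hμ]
    calc ∑ i ∈ E, (1 : ℝ) / m i ≤ ∑ i ∈ E, (1 : ℝ) := by
          apply sum_le_sum
          intro i hi
          have : (1 : ℝ) ≤ m i := by exact_mod_cast hm i hi
          rw [div_le_one (by linarith)]
          exact this
      _ = E.card := by simp
  have hS : ∀ k : ℕ, (((E.filter (fun i => m i ∣ k + r i)).card : ℕ) : ℝ) =
      ∑ i ∈ E, (if m i ∣ k + r i then (1 : ℝ) else 0) := by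
    intro k
    rw [sum_boole]
  -- first moment
  have h1 : (x : ℝ) * μ - E.card ≤ ∑ k ∈ Ioc 0 x, ∑ i ∈ E, (if m i ∣ k + r i then (1 : ℝ) else 0) := by
    rw [sum_comm]
    have : (x : ℝ) * μ - E.card = ∑ i ∈ E, ((x : ℝ) / m i - 1) := by
      rw [sum_sub_distrib, hμ, mul_sum]
      simp [div_eq_mul_inv]
    rw [this]
    apply sum_le_sum
    intro i hi
    rw [sum_boole]
    exact single (m i) (r i) x (hm i hi)
  -- second moment
  have h2 : ∑ k ∈ Ioc 0 x, (∑ i ∈ E, (if m i ∣ k + r i then (1 : ℝ) else 0)) ^ 2 ≤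
      x * μ ^ 2 + x * (∑ i ∈ E, ∑ j ∈ E.filter (fun j => 1 < Nat.gcd (m i) (m j) ∧ r i ≡ r j [MOD Nat.gcd (m i) (m j)]),
        ((Nat.gcd (m i) (m j) : ℕ) : ℝ) / ((m i : ℝ) * m j)) + (E.card : ℝ) ^ 2 := by
    have e1 : ∑ k ∈ Ioc 0 x, (∑ i ∈ E, (if m i ∣ k + r i then (1 : ℝ) else 0)) ^ 2 =
        ∑ i ∈ E, ∑ j ∈ E, ((((Ioc 0 x).filter (fun k => m i ∣ k + r i ∧ m j ∣ k + r j)).card : ℕ) : ℝ) := by
      have : ∀ k ∈ Ioc 0 x, (∑ i ∈ E, (if m i ∣ k + r i then (1 : ℝ) else 0)) ^ 2 =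
          ∑ i ∈ E, ∑ j ∈ E, (if m i ∣ k + r i ∧ m j ∣ k + r j then (1 : ℝ) else 0) := by
        intro k _
        rw [sq, sum_mul_sum]
        apply sum_congr rfl
        intro i _
        apply sum_congr rfl
        intro j _
        by_cases ha : m i ∣ k + r i
        · by_cases hb : m j ∣ k + r j
          · simp [ha, hb]
          · simp [ha, hb]
        · simp [ha]
      rw [sum_congr rfl this, sum_comm]
      apply sum_congr rfl
      intro i _
      rw [sum_comm]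
      apply sum_congr rfl
      intro j _
      rw [sum_boole]
    rw [e1]
    have e2 : (x : ℝ) * μ ^ 2 + x * (∑ i ∈ E, ∑ j ∈ E.filter (fun j => 1 < Nat.gcd (m i) (m j) ∧ r i ≡ r j [MOD Nat.gcd (m i) (m j)]),
        ((Nat.gcd (m i) (m j) : ℕ) : ℝ) / ((m i : ℝ) * m j)) + (E.card : ℝ) ^ 2 =
        ∑ i ∈ E, ∑ j ∈ E, (x * (1 / (m i : ℝ) * (1 / m j)) +
          x * (if 1 < Nat.gcd (m i) (m j) ∧ r i ≡ r j [MOD Nat.gcd (m i) (m j)] then
            ((Nat.gcd (m i) (m j) : ℕ) : ℝ) / ((m i : ℝ) * m j) else 0) + 1) := by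
      simp only [sum_add_distrib, sum_filter, ← mul_sum]
      rw [hμ, sq, sum_mul_sum]
      simp only [← mul_sum, sum_const, nsmul_eq_mul, mul_one]
      ring
    rw [e2]
    apply sum_le_sum
    intro i hi
    apply sum_le_sum
    intro j hj
    exact double (m i) (m j) (r i) (r j) x (hm i hi) (hm j hj)
  have h3 : ∑ k ∈ Ioc 0 x, ((((E.filter (fun i => m i ∣ k + r i)).card : ℕ) : ℝ) - μ) ^ 2 =
      ∑ k ∈ Ioc 0 x, (∑ i ∈ E, (if m i ∣ k + r i then (1 : ℝ) else 0)) ^ 2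
        - 2 * μ * ∑ k ∈ Ioc 0 x, ∑ i ∈ E, (if m i ∣ k + r i then (1 : ℝ) else 0) + x * μ ^ 2 := by
    have : ∀ k ∈ Ioc 0 x, ((((E.filter (fun i => m i ∣ k + r i)).card : ℕ) : ℝ) - μ) ^ 2 =
        (∑ i ∈ E, (if m i ∣ k + r i then (1 : ℝ) else 0)) ^ 2
        - 2 * μ * ∑ i ∈ E, (if m i ∣ k + r i then (1 : ℝ) else 0) + μ ^ 2 := by
      intro k _
      rw [hS k]
      ring
    rw [sum_congr rfl this, sum_add_distrib, sum_sub_distrib, ← mul_sum]
    simp
  rw [h3]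
  have hc : (0 : ℝ) ≤ E.card := by positivity
  have h4 : 2 * μ * ((x : ℝ) * μ - E.card) ≤
      2 * μ * ∑ k ∈ Ioc 0 x, ∑ i ∈ E, (if m i ∣ k + r i then (1 : ℝ) else 0) :=
    mul_le_mul_of_nonneg_left h1 (by positivity)
  have h5 : μ * E.card ≤ (E.card : ℝ) ^ 2 := by
    rw [sq]
    exact mul_le_mul_of_nonneg_right hμE hc
  nlinarith [h2, h4, h5]

end Pool.Agent.SPA.D3
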