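import Pool.Agent.SPA.Stmts7

/-!
# The upper bound `exp (4 sqrt (log x))` and the two-sided statement
-/

set_option autoImplicit false

namespace Pool.Agent.SPA

open Finset

/-- row Up: the upper bound (average over `k`, Rankin) -/
def RowUp : Prop := ∃ B : ℝ, ∀ x : ℕ, 2 ≤ x →
    (((Icc 2 x).filter (fun k => Real.exp (4 * Real.sqrt (Real.log x)) < (Pool.Agent.SPM.N k : ℝ))).card : ℝ)
      ≤ B * x * Real.exp (-Real.sqrt (Real.log x))

/-- the two-sided main theorem -/
def Main9 : Prop := ∃ c B : ℝ, 0 < c ∧ ∀ x : ℕ, 16 ≤ x →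
    (((Icc 2 x).filter (fun k => ¬ (Real.exp (c * Real.sqrt (Real.log x) / Real.log (Real.log x)) ≤
        (Pool.Agent.SPM.N k : ℝ) ∧ (Pool.Agent.SPM.N k : ℝ) ≤ Real.exp (4 * Real.sqrt (Real.log x))))).card : ℝ)
      ≤ B * x * Real.exp (-(c * Real.sqrt (Real.log x) / Real.log (Real.log x)))

end Pool.Agent.SPA
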