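import Pool.Agent.SPA.Stmts

/-!
# Row B1 (MP_7a4c99): roots of the quadratic modulo `g`
-/

set_option autoImplicit false

namespace Pool.Agent.SPA

open Finset

theorem b1_dvd (P t A s g u u1 : ℕ) (hc : Nat.Coprime g (P * A))
    (h : (g : ℤ) ∣ (P : ℤ) * u * A * ((t : ℤ) + u - s) + A - P * u)
    (h1 : (g : ℤ) ∣ (P : ℤ) * u1 * A * ((t : ℤ) + u1 - s) + A - P * u1) :
    (g : ℤ) ∣ ((u : ℤ) - u1) * (A * ((u : ℤ) + u1 + t - s) - 1) := by
  have h2 := dvd_sub h h1
  have h3 : (P : ℤ) * u * A * ((t : ℤ) + u - s) + A - P * u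
      - ((P : ℤ) * u1 * A * ((t : ℤ) + u1 - s) + A - P * u1)
      = (P : ℤ) * (((u : ℤ) - u1) * (A * ((u : ℤ) + u1 + t - s) - 1)) := by ring
  rw [h3] at h2
  have hcop : IsCoprime (g : ℤ) (P : ℤ) :=
    Nat.isCoprime_iff_coprime.mpr (Nat.Coprime.coprime_mul_right_right hc)
  exact hcop.dvd_of_dvd_mul_left h2

/-- the key of a root -/
noncomputable def b1key (g u1 u : ℕ) : ℕ := Int.gcd (g : ℤ) ((u : ℤ) - u1)

theorem b1key_dvd (g u1 u : ℕ) : b1key g u1 u ∣ g := by
  have h := Int.gcd_dvd_left (a := (g : ℤ)) (b := (u : ℤ) - u1)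
  exact Int.natCast_dvd_natCast.mp h

theorem b1_quot (g d : ℕ) (hg : 1 ≤ g) (m X : ℤ) (hd : Int.gcd (g : ℤ) m = d) (h : (g : ℤ) ∣ m * X) :
    ((g / d : ℕ) : ℤ) ∣ X := by
  have hdg : d ∣ g := by
    have h1 := Int.gcd_dvd_left (a := (g : ℤ)) (b := m)
    rw [hd] at h1
    exact Int.natCast_dvd_natCast.mp h1
  have hdm : (d : ℤ) ∣ m := by
    have h1 := Int.gcd_dvd_right (a := (g : ℤ)) (b := m)
    rwa [hd] at h1
  have hd0 : 0 < d := Nat.pos_of_dvd_of_pos hdg hg
  obtain ⟨e, he⟩ := hdg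
  obtain ⟨m', hm'⟩ := hdm
  have hge : g / d = e := by
    rw [he]; exact Nat.mul_div_cancel_left e hd0
  rw [hge]
  have hcop : IsCoprime (e : ℤ) m' := by
    rw [Int.isCoprime_iff_gcd_eq_one]
    have h2 : Int.gcd ((d : ℤ) * e) ((d : ℤ) * m') = d := by
      have h5 : (g : ℤ) = (d : ℤ) * e := by rw [he]; push_cast; ring
      rw [← hm', ← h5]
      exact hd
    rw [Int.gcd_mul_left] at h2
    have h3 : d * Int.gcd (e : ℤ) m' = d * 1 := by
      rw [mul_one]; simpa using h2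
    exact Nat.eq_of_mul_eq_mul_left hd0 h3
  have h4 : (d : ℤ) * e ∣ (d : ℤ) * (m' * X) := by
    have h5 : (g : ℤ) = (d : ℤ) * e := by rw [he]; push_cast; ring
    rw [← h5]
    have h6 : m * X = (d : ℤ) * (m' * X) := by rw [hm']; ring
    rw [← h6]; exact h
  have h7 : (e : ℤ) ∣ m' * X := Int.dvd_of_mul_dvd_mul_left (by exact_mod_cast hd0.ne') h4
  exact hcop.dvd_of_dvd_mul_left h7

theorem b1 : RowA → RowB1 := by
  intro hA P t A s g U hg hU hc
  set S := (Ioc U (U ^ 2)).filter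
      (fun u : ℕ => (g : ℤ) ∣ (P : ℤ) * u * A * ((t : ℤ) + u - s) + A - P * u) with hS
  have hterm : ∀ d ∈ g.divisors, 0 ≤ Real.log U * ((Nat.gcd d (g / d) : ℕ) : ℝ) / g + 1 / U := by
    intro d _
    have h1 : 0 ≤ Real.log U := Real.log_natCast_nonneg U
    positivity
  rcases S.eq_empty_or_nonempty with h0 | ⟨u1, hu1⟩
  · rw [h0, sum_empty]
    exact sum_nonneg hterm
  · have hmaps : ∀ u ∈ S, b1key g u1 u ∈ g.divisors := by
      intro u _
      exact Nat.mem_divisors.mpr ⟨b1key_dvd g u1 u, by omega⟩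
    rw [← sum_fiberwise_of_maps_to hmaps]
    refine sum_le_sum (fun d hd => ?_)
    rcases (S.filter (fun u => b1key g u1 u = d)).eq_empty_or_nonempty with h0 | ⟨u0, hu0⟩
    · rw [h0, sum_empty]
      exact hterm d hd
    · have hdg : d ∣ g := Nat.dvd_of_mem_divisors hd
      have hd0 : 0 < d := Nat.pos_of_dvd_of_pos hdg hg
      have hu1' := (mem_filter.mp hu1).2
      set q := Nat.lcm d (g / d) with hq
      have hgd0 : 0 < g / d := Nat.div_pos (Nat.le_of_dvd hg hdg) hd0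
      have hq0 : 0 < q := Nat.lcm_pos hd0 hgd0
      have hinfo : ∀ u ∈ S.filter (fun u => b1key g u1 u = d),
          (d : ℤ) ∣ (u : ℤ) - u1 ∧ ((g / d : ℕ) : ℤ) ∣ A * ((u : ℤ) + u1 + t - s) - 1 := by
        intro u hu
        obtain ⟨huS, hkey⟩ := mem_filter.mp hu
        have hu' := (mem_filter.mp huS).2
        refine ⟨?_, ?_⟩
        · have h1 := Int.gcd_dvd_right (a := (g : ℤ)) (b := (u : ℤ) - u1)
          have h2 : Int.gcd (g : ℤ) ((u : ℤ) - u1) = d := hkey
          rwa [h2] at h1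
        · exact b1_quot g d hg _ _ hkey (b1_dvd P t A s g u u1 hc hu' hu1')
      have hcopA : IsCoprime ((g / d : ℕ) : ℤ) (A : ℤ) := by
        have h1 : Nat.Coprime g A := Nat.Coprime.coprime_mul_left_right hc
        exact Nat.isCoprime_iff_coprime.mpr (h1.coprime_dvd_left (Nat.div_dvd_of_dvd hdg))
      have hsub : S.filter (fun u => b1key g u1 u = d) ⊆
          (Ioc U (U ^ 2)).filter (fun v => v ≡ u0 [MOD q]) := by
        intro u hu
        have huI : u ∈ Ioc U (U ^ 2) := (mem_filter.mp (mem_filter.mp hu).1).1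
        refine mem_filter.mpr ⟨huI, ?_⟩
        obtain ⟨h1, h2⟩ := hinfo u hu
        obtain ⟨h3, h4⟩ := hinfo u0 hu0
        have h5 : (d : ℤ) ∣ (u : ℤ) - u0 := by
          have := dvd_sub h1 h3
          have e : (u : ℤ) - u1 - ((u0 : ℤ) - u1) = (u : ℤ) - u0 := by ring
          rwa [e] at this
        have h6 : ((g / d : ℕ) : ℤ) ∣ (u : ℤ) - u0 := by
          have h7 := dvd_sub h2 h4
          have e : (A : ℤ) * ((u : ℤ) + u1 + t - s) - 1 - (A * ((u0 : ℤ) + u1 + t - s) - 1)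
              = A * ((u : ℤ) - u0) := by ring
          rw [e] at h7
          exact hcopA.dvd_of_dvd_mul_left h7
        have h10 : (q : ℤ) ∣ (u : ℤ) - u0 := by
          rw [Int.natCast_dvd] at h5 h6 ⊢
          exact Nat.lcm_dvd h5 h6
        refine ((Nat.modEq_iff_dvd).mpr ?_).symm
        exact h10
      have hle := sum_le_sum_of_subset_of_nonneg (f := fun u : ℕ => (1 : ℝ) / u) hsub
        (fun i _ _ => by positivity)
      refine hle.trans ((hA U q u0 (by omega) hq0).trans (le_of_eq ?_))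
      congr 1
      have hgl : Nat.gcd d (g / d) * q = g := by
        rw [hq, Nat.gcd_mul_lcm, Nat.mul_div_cancel' hdg]
      have hglR : ((Nat.gcd d (g / d) : ℕ) : ℝ) * (q : ℝ) = g := by exact_mod_cast hgl
      have hq0R : (q : ℝ) ≠ 0 := by exact_mod_cast hq0.ne'
      have hg0R : (g : ℝ) ≠ 0 := by
        have : g ≠ 0 := by omega
        exact_mod_cast this
      rw [div_eq_div_iff hq0R hg0R, ← hglR]
      ring

end Pool.Agent.SPA
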