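import Pool.Agent.SPA.Stmts

/-!
# Row B2: the sum over the moduli
-/

set_option autoImplicit false

namespace Pool.Agent.SPA

open Finset

lemma b2_term (d : ℕ) (hd : 1 ≤ d) :
    (1 : ℝ) / (((d + 1 : ℕ) : ℝ) * Real.sqrt ((d + 1 : ℕ) : ℝ)) ≤
      2 / Real.sqrt (d : ℝ) - 2 / Real.sqrt ((d + 1 : ℕ) : ℝ) := by
  have hd0 : (0 : ℝ) < d := by exact_mod_cast hd
  have hd1 : (0 : ℝ) < ((d + 1 : ℕ) : ℝ) := by positivity
  set a := Real.sqrt (d : ℝ) with ha
  set b := Real.sqrt ((d + 1 : ℕ) : ℝ) with hb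
  have hapos : 0 < a := Real.sqrt_pos.mpr hd0
  have hbpos : 0 < b := Real.sqrt_pos.mpr hd1
  have ha2 : a * a = d := Real.mul_self_sqrt hd0.le
  have hb2 : b * b = ((d + 1 : ℕ) : ℝ) := Real.mul_self_sqrt hd1.le
  have hab : a ≤ b := Real.sqrt_le_sqrt (by push_cast; linarith)
  have hdiff : (b - a) * (b + a) = 1 := by
    have : (b - a) * (b + a) = b * b - a * a := by ring
    rw [this, ha2, hb2]; push_cast; ring
  rw [← hb2]
  have hs : 0 < b + a := by linarith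
  have h1 : b - a = 1 / (b + a) := by
    rw [eq_div_iff hs.ne']; exact hdiff
  have h2 : 2 / a - 2 / b = 2 * (b - a) / (a * b) := by
    field_simp
  rw [h2, h1]
  rw [show 2 * (1 / (b + a)) / (a * b) = 2 / ((b + a) * (a * b)) by field_simp]
  rw [div_le_div_iff₀ (by positivity) (by positivity)]
  have h3 : (b + a) * (a * b) ≤ 2 * (b * b * b) := by
    have h4 : b + a ≤ 2 * b := by linarith
    have h5 : a * b ≤ b * b := mul_le_mul_of_nonneg_right hab hbpos.le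
    calc (b + a) * (a * b) ≤ (2 * b) * (b * b) := mul_le_mul h4 h5 (by positivity) (by positivity)
      _ = 2 * (b * b * b) := by ring
  linarith

lemma b2_tail (z G : ℕ) (hz : 1 ≤ z) :
    ∑ d ∈ Ioc z G, (1 : ℝ) / ((d : ℝ) * Real.sqrt d) ≤ 2 / Real.sqrt z := by
  by_cases h : z ≤ G
  · have key : ∀ n : ℕ, ∑ d ∈ Ioc z (z + n), (1 : ℝ) / ((d : ℝ) * Real.sqrt d)
        ≤ 2 / Real.sqrt z - 2 / Real.sqrt ((z + n : ℕ) : ℝ) := by
      intro n
      induction n with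
      | zero => simp
      | succ n ih =>
        rw [show z + (n + 1) = (z + n) + 1 by ring, Finset.sum_Ioc_succ_top (by omega)]
        have := b2_term (z + n) (by omega)
        linarith
    obtain ⟨n, rfl⟩ := Nat.exists_eq_add_of_le h
    have h1 := key n
    have h2 : 0 ≤ 2 / Real.sqrt ((z + n : ℕ) : ℝ) := by positivity
    linarith
  · rw [Finset.Ioc_eq_empty (by omega)]
    simp only [sum_empty]
    positivity

lemma b2_full (G : ℕ) : ∑ d ∈ Icc 1 G, (1 : ℝ) / ((d : ℝ) * Real.sqrt d) ≤ 3 := by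
  by_cases h : 1 ≤ G
  · rw [← Finset.add_sum_Ioc_eq_sum_Icc h]
    have := b2_tail 1 G le_rfl
    simp only [Nat.cast_one, Real.sqrt_one, mul_one, div_one] at this ⊢
    linarith
  · rw [Finset.Icc_eq_empty (by omega)]
    simp

lemma b2_harm (G : ℕ) : ∑ d ∈ Icc 1 G, (1 : ℝ) / d ≤ 1 + Real.log G := by
  have h := harmonic_le_one_add_log G
  rw [harmonic_eq_sum_Icc] at h
  push_cast at h
  simpa [one_div] using h

lemma b2_gcd (d e : ℕ) (hd : 1 ≤ d) (he : 1 ≤ e) :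
    (1 : ℝ) / ((d : ℝ) * e) * (((Nat.gcd d e : ℕ) : ℝ) / ((d : ℝ) * e)) ≤
      (1 : ℝ) / ((d : ℝ) * Real.sqrt d) * (1 / ((e : ℝ) * Real.sqrt e)) := by
  have hd0 : (0 : ℝ) < d := by exact_mod_cast hd
  have he0 : (0 : ℝ) < e := by exact_mod_cast he
  have hg1 : ((Nat.gcd d e : ℕ) : ℝ) ≤ d := by exact_mod_cast Nat.gcd_le_left e (by omega)
  have hg2 : ((Nat.gcd d e : ℕ) : ℝ) ≤ e := by exact_mod_cast Nat.gcd_le_right d (by omega)
  have hg : ((Nat.gcd d e : ℕ) : ℝ) ≤ Real.sqrt d * Real.sqrt e := by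
    rw [← Real.sqrt_mul hd0.le]
    apply Real.le_sqrt_of_sq_le
    rw [sq]
    exact mul_le_mul hg1 hg2 (by positivity) hd0.le
  have hsd : 0 < Real.sqrt d := Real.sqrt_pos.mpr hd0
  have hse : 0 < Real.sqrt e := Real.sqrt_pos.mpr he0
  have e1 : Real.sqrt d * Real.sqrt d = d := Real.mul_self_sqrt hd0.le
  have e2 : Real.sqrt e * Real.sqrt e = e := Real.mul_self_sqrt he0.le
  calc (1 : ℝ) / ((d : ℝ) * e) * (((Nat.gcd d e : ℕ) : ℝ) / ((d : ℝ) * e))
      ≤ (1 : ℝ) / ((d : ℝ) * e) * ((Real.sqrt d * Real.sqrt e) / ((d : ℝ) * e)) := by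
        gcongr
    _ = (1 : ℝ) / ((d : ℝ) * Real.sqrt d) * (1 / ((e : ℝ) * Real.sqrt e)) := by
        field_simp
        rw [show Real.sqrt (d : ℝ) ^ 2 = d by rw [sq, e1], show Real.sqrt (e : ℝ) ^ 2 = e by rw [sq, e2]]

theorem b2 : RowB2 := by
  refine ⟨12, by norm_num, ?_⟩
  intro z G U L hz hG hU hL
  set S := (Icc 2 G).filter (fun g => z < g.minFac) with hS
  set F : ℕ × ℕ → ℝ := fun p => (1 : ℝ) / ((p.1 : ℝ) * p.2) *
    (L * ((Nat.gcd p.1 p.2 : ℕ) : ℝ) / ((p.1 : ℝ) * p.2) + 1 / U) with hF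
  have hFnn : ∀ p, 0 ≤ F p := by
    intro p
    simp only [hF]
    positivity
  have step1 : ∀ g ∈ S, (1 : ℝ) / g * ∑ d ∈ g.divisors, (L * ((Nat.gcd d (g / d) : ℕ) : ℝ) / g + 1 / U)
      = ∑ p ∈ g.divisorsAntidiagonal, F p := by
    intro g _
    rw [Nat.sum_divisorsAntidiagonal (fun d e => F (d, e)), Finset.mul_sum]
    apply Finset.sum_congr rfl
    intro d hd
    have hdg : d ∣ g := Nat.dvd_of_mem_divisors hd
    have hcast : ((d : ℝ)) * ((g / d : ℕ) : ℝ) = g := by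
      exact_mod_cast Nat.mul_div_cancel' hdg
    simp only [hF, hcast]
  rw [Finset.sum_congr rfl step1]
  set T := (Icc 1 G ×ˢ Icc 1 G).filter (fun p : ℕ × ℕ => z < p.1 ∨ z < p.2) with hT
  have hdisj : (S : Set ℕ).PairwiseDisjoint (fun g => g.divisorsAntidiagonal) := by
    intro a _ b _ hab
    simp only [Function.onFun]
    rw [Finset.disjoint_left]
    intro p hp hq
    rw [Nat.mem_divisorsAntidiagonal] at hp hq
    exact hab (hp.1.symm.trans hq.1)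
  have step2 : ∑ g ∈ S, ∑ p ∈ g.divisorsAntidiagonal, F p ≤ ∑ p ∈ T, F p := by
    rw [← Finset.sum_biUnion hdisj]
    apply Finset.sum_le_sum_of_subset_of_nonneg
    · intro p hp
      rw [Finset.mem_biUnion] at hp
      obtain ⟨g, hg, hpg⟩ := hp
      rw [Nat.mem_divisorsAntidiagonal] at hpg
      rw [hS, Finset.mem_filter, Finset.mem_Icc] at hg
      obtain ⟨⟨h2, hgG⟩, hmin⟩ := hg
      obtain ⟨hpp, _⟩ := hpg
      have hp1 : 1 ≤ p.1 := by
        rcases Nat.eq_zero_or_pos p.1 with h | h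
        · rw [h, zero_mul] at hpp; omega
        · exact h
      have hp2 : 1 ≤ p.2 := by
        rcases Nat.eq_zero_or_pos p.2 with h | h
        · rw [h, mul_zero] at hpp; omega
        · exact h
      have hle1 : p.1 ≤ G := le_trans (by rw [← hpp]; exact Nat.le_mul_of_pos_right _ hp2) hgG
      have hle2 : p.2 ≤ G := le_trans (by rw [← hpp]; exact Nat.le_mul_of_pos_left _ hp1) hgG
      rw [hT, Finset.mem_filter, Finset.mem_product, Finset.mem_Icc, Finset.mem_Icc]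
      refine ⟨⟨⟨hp1, hle1⟩, ⟨hp2, hle2⟩⟩, ?_⟩
      by_cases h1 : p.1 = 1
      · right
        have : p.2 = g := by rw [← hpp, h1, one_mul]
        rw [this]
        exact lt_of_lt_of_le hmin (Nat.minFac_le (by omega))
      · left
        have hd : p.1 ∣ g := ⟨p.2, hpp.symm⟩
        have h3 : g.minFac ≤ p.1.minFac :=
          Nat.minFac_le_of_dvd (Nat.minFac_prime h1).two_le ((Nat.minFac_dvd p.1).trans hd)
        exact lt_of_lt_of_le hmin (h3.trans (Nat.minFac_le hp1))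
    · intro p _ _
      exact hFnn p
  refine step2.trans ?_
  have step3 : ∑ p ∈ T, F p = L * (∑ p ∈ T, (1 : ℝ) / ((p.1 : ℝ) * p.2) *
      (((Nat.gcd p.1 p.2 : ℕ) : ℝ) / ((p.1 : ℝ) * p.2))) + (∑ p ∈ T, (1 : ℝ) / ((p.1 : ℝ) * p.2)) / U := by
    rw [Finset.mul_sum, Finset.sum_div, ← Finset.sum_add_distrib]
    apply Finset.sum_congr rfl
    intro p _
    simp only [hF]
    ring
  rw [step3]
  set a : ℕ → ℝ := fun d => (1 : ℝ) / ((d : ℝ) * Real.sqrt d) with ha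
  have hann : ∀ d, 0 ≤ a d := fun d => by simp only [ha]; positivity
  have hTsub : T ⊆ (Ioc z G ×ˢ Icc 1 G) ∪ (Icc 1 G ×ˢ Ioc z G) := by
    intro p hp
    rw [hT, Finset.mem_filter, Finset.mem_product, Finset.mem_Icc, Finset.mem_Icc] at hp
    obtain ⟨⟨⟨h1, h2⟩, ⟨h3, h4⟩⟩, h5⟩ := hp
    rw [Finset.mem_union, Finset.mem_product, Finset.mem_product, Finset.mem_Ioc, Finset.mem_Ioc,
      Finset.mem_Icc, Finset.mem_Icc]
    rcases h5 with h5 | h5
    · left; exact ⟨⟨h5, h2⟩, ⟨h3, h4⟩⟩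
    · right; exact ⟨⟨h1, h2⟩, ⟨h5, h4⟩⟩
  have part1 : ∑ p ∈ T, (1 : ℝ) / ((p.1 : ℝ) * p.2) * (((Nat.gcd p.1 p.2 : ℕ) : ℝ) / ((p.1 : ℝ) * p.2))
      ≤ 12 / Real.sqrt z := by
    have hprod1 : ∑ p ∈ Ioc z G ×ˢ Icc 1 G, a p.1 * a p.2 ≤ (2 / Real.sqrt z) * 3 := by
      rw [Finset.sum_product]
      simp only [← Finset.mul_sum, ← Finset.sum_mul]
      exact mul_le_mul (b2_tail z G hz) (b2_full G) (Finset.sum_nonneg fun i _ => hann i) (by positivity)
    have hprod2 : ∑ p ∈ Icc 1 G ×ˢ Ioc z G, a p.1 * a p.2 ≤ 3 * (2 / Real.sqrt z) := by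
      rw [Finset.sum_product]
      simp only [← Finset.mul_sum, ← Finset.sum_mul]
      exact mul_le_mul (b2_full G) (b2_tail z G hz) (Finset.sum_nonneg fun i _ => hann i) (by norm_num)
    calc ∑ p ∈ T, (1 : ℝ) / ((p.1 : ℝ) * p.2) * (((Nat.gcd p.1 p.2 : ℕ) : ℝ) / ((p.1 : ℝ) * p.2))
        ≤ ∑ p ∈ T, a p.1 * a p.2 := by
          apply Finset.sum_le_sum
          intro p hp
          rw [hT, Finset.mem_filter, Finset.mem_product, Finset.mem_Icc, Finset.mem_Icc] at hp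
          exact b2_gcd p.1 p.2 hp.1.1.1 hp.1.2.1
      _ ≤ ∑ p ∈ (Ioc z G ×ˢ Icc 1 G) ∪ (Icc 1 G ×ˢ Ioc z G), a p.1 * a p.2 :=
          Finset.sum_le_sum_of_subset_of_nonneg hTsub (fun p _ _ => mul_nonneg (hann _) (hann _))
      _ ≤ ∑ p ∈ Ioc z G ×ˢ Icc 1 G, a p.1 * a p.2 + ∑ p ∈ Icc 1 G ×ˢ Ioc z G, a p.1 * a p.2 := by
          rw [← Finset.sum_union_inter]
          have : 0 ≤ ∑ p ∈ (Ioc z G ×ˢ Icc 1 G) ∩ (Icc 1 G ×ˢ Ioc z G), a p.1 * a p.2 :=
            Finset.sum_nonneg fun p _ => mul_nonneg (hann _) (hann _)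
          linarith
      _ ≤ (2 / Real.sqrt z) * 3 + 3 * (2 / Real.sqrt z) := add_le_add hprod1 hprod2
      _ = 12 / Real.sqrt z := by ring
  have part2 : ∑ p ∈ T, (1 : ℝ) / ((p.1 : ℝ) * p.2) ≤ (1 + Real.log G) ^ 2 := by
    have hlog : 0 ≤ Real.log G := Real.log_nonneg (by exact_mod_cast hG)
    calc ∑ p ∈ T, (1 : ℝ) / ((p.1 : ℝ) * p.2)
        ≤ ∑ p ∈ Icc 1 G ×ˢ Icc 1 G, (1 : ℝ) / ((p.1 : ℝ) * p.2) :=
          Finset.sum_le_sum_of_subset_of_nonneg (Finset.filter_subset _ _) (fun p _ _ => by positivity)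
      _ = (∑ d ∈ Icc 1 G, (1 : ℝ) / d) * (∑ d ∈ Icc 1 G, (1 : ℝ) / d) := by
          rw [Finset.sum_product, Finset.sum_mul_sum]
          apply Finset.sum_congr rfl; intro i _
          apply Finset.sum_congr rfl; intro j _
          rw [one_div_mul_one_div]
      _ ≤ (1 + Real.log G) * (1 + Real.log G) := by
          apply mul_le_mul (b2_harm G) (b2_harm G) _ (by linarith)
          exact Finset.sum_nonneg fun i _ => by positivity
      _ = (1 + Real.log G) ^ 2 := by ring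
  have hU' : (0 : ℝ) < U := by exact_mod_cast hU
  calc L * (∑ p ∈ T, (1 : ℝ) / ((p.1 : ℝ) * p.2) * (((Nat.gcd p.1 p.2 : ℕ) : ℝ) / ((p.1 : ℝ) * p.2)))
        + (∑ p ∈ T, (1 : ℝ) / ((p.1 : ℝ) * p.2)) / U
      ≤ L * (12 / Real.sqrt z) + (1 + Real.log G) ^ 2 / U := by
        apply add_le_add
        · exact mul_le_mul_of_nonneg_left part1 hL
        · gcongr
    _ = 12 * L / Real.sqrt z + (1 + Real.log G) ^ 2 / U := by ring

end Pool.Agent.SPA
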