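import Pool.Agent.SPA.Stmts
import Pool.Agent.SPM.Sol46

/-!
# MP_7a4c99_nt, row F (helper54): each divisor gives a sum = product multiset
-/

set_option autoImplicit false

namespace Pool.Agent.SPA

open Finset

namespace F54

/-- the multiset of an index -/
def mset (S : ℕ × ℕ → Multiset ℕ) (k : ℕ) (i : (ℕ × ℕ) × (ℕ × ℕ)) : Multiset ℕ :=
  S i.1 + (i.2.1 ::ₘ i.2.2 ::ₘ ((k + re i) / mo i) ::ₘ Multiset.replicate (k - 3 - (S i.1).card) 1)

lemma card_lt (s : Multiset ℕ) (h : ∀ a ∈ s, 2 ≤ a) : s.card < s.prod := by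
  induction s using Multiset.induction with
  | empty => simp
  | cons a s ih =>
    have h1 := ih fun b hb => h b (Multiset.mem_cons_of_mem hb)
    have ha := h a (Multiset.mem_cons_self a s)
    rw [Multiset.card_cons, Multiset.prod_cons]
    nlinarith

end F54

open F54 in
theorem f : RowF := by
  intro R U V k T hR hRU hUV hk hT
  choose! S hS using fun p (hp : p ∈ T) => (hT p hp).2.2
  have hV4 : 4 ≤ V := by nlinarith
  have hUV1 : U ≤ V := (Nat.le_self_pow (by norm_num) _).trans hUV
  have hVV : V ≤ V ^ 2 := Nat.le_self_pow (by norm_num) _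
  have hU1 : 1 ≤ U ^ 2 := Nat.one_le_pow _ _ (by omega)
  have hV41 : 4 ≤ V ^ 4 := hV4.trans (Nat.le_self_pow (by norm_num) _)
  have hUV4 : 4 ≤ U ^ 2 * V ^ 4 := by nlinarith
  have hRk : R * 4 ≤ R * U ^ 2 * V ^ 4 := by
    rw [mul_assoc]; exact Nat.mul_le_mul_left _ hUV4
  -- the basic facts of an index
  have key : ∀ i ∈ (Idx T U V).filter (fun i => mo i ∣ k + re i),
      i.1 ∈ T ∧ (U < i.2.1 ∧ i.2.1 ≤ U ^ 2) ∧ (V < i.2.2 ∧ i.2.2 ≤ V ^ 2) ∧
      Pool.Agent.SPM.IsSP k (mset S k i) ∧ V ^ 2 < (k + re i) / mo i := by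
    rintro ⟨⟨P, t⟩, u, v⟩ hi
    rw [mem_filter, Idx, mem_product, mem_product, mem_Ioc, mem_Ioc] at hi
    obtain ⟨⟨hp, ⟨hu1, hu2⟩, hv1, hv2⟩, hd⟩ := hi
    simp only at hp hu1 hu2 hv1 hv2
    obtain ⟨hs1, hs2, hs3⟩ := hS (P, t) hp
    obtain ⟨hPR, htR, -⟩ := hT (P, t) hp
    simp only at hs2 hs3 hPR htR
    have hcard := card_lt (S (P, t)) fun a ha => (hs1 a ha).1
    rw [hs2] at hcard
    have hP : 1 ≤ P := by omega
    have hd' : P * u * v - 1 ∣ k + (t + u + v - 3) := hd
    obtain ⟨c, hc⟩ := hd'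
    have huv : 15 ≤ u * v := by nlinarith
    have hPuv : 15 ≤ P * u * v := by
      calc 15 ≤ u * v := huv
        _ = 1 * (u * v) := by ring
        _ ≤ P * (u * v) := Nat.mul_le_mul_right _ hP
        _ = P * u * v := by ring
    have hm0 : 0 < P * u * v - 1 := by omega
    have hcq : (k + re ((P, t), (u, v))) / mo ((P, t), (u, v)) = c := by
      have : (k + (t + u + v - 3)) / (P * u * v - 1) = c := by
        rw [hc]; exact Nat.mul_div_cancel_left c hm0
      exact this
    have hcV : V ^ 2 < c := by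
      by_contra hcon
      push Not at hcon
      have h1 : P * u * v - 1 ≤ R * U ^ 2 * V ^ 2 := by
        calc P * u * v - 1 ≤ P * u * v := Nat.sub_le _ _
          _ ≤ R * U ^ 2 * V ^ 2 := Nat.mul_le_mul (Nat.mul_le_mul hPR hu2) hv2
      have h2 : (P * u * v - 1) * c ≤ R * U ^ 2 * V ^ 2 * V ^ 2 := Nat.mul_le_mul h1 hcon
      have h3 : R * U ^ 2 * V ^ 2 * V ^ 2 = R * U ^ 2 * V ^ 4 := by ring
      omega
    have hck : (S (P, t)).card ≤ k - 3 := by omega
    refine ⟨hp, ⟨hu1, hu2⟩, ⟨hv1, hv2⟩, ⟨?_, ?_, ?_⟩, ?_⟩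
    · simp only [mset, Multiset.card_add, Multiset.card_cons, Multiset.card_replicate]
      omega
    · intro a ha
      simp only [mset, Multiset.mem_add, Multiset.mem_cons] at ha
      rcases ha with ha | ha | ha | ha | ha
      · exact lt_of_lt_of_le (by norm_num) (hs1 a ha).1
      · omega
      · omega
      · rw [ha, hcq]; omega
      · rw [Multiset.eq_of_mem_replicate ha]; norm_num
    · simp only [mset, Multiset.prod_add, Multiset.prod_cons, Multiset.sum_add, Multiset.sum_cons,
        Multiset.prod_replicate, Multiset.sum_replicate, one_pow, hs2, hs3, hcq, smul_eq_mul]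
      obtain ⟨w, hw⟩ : ∃ w, P * u * v = w + 1 := ⟨P * u * v - 1, by omega⟩
      rw [hw, Nat.add_sub_cancel] at hc
      have e1 : P * (u * (v * (c * 1))) = w * c + c := by
        calc P * (u * (v * (c * 1))) = P * u * v * c := by ring
          _ = (w + 1) * c := by rw [hw]
          _ = w * c + c := by ring
      rw [e1, ← hc]
      omega
    · rw [hcq]; exact hcV
  -- injectivity
  have inj : Set.InjOn (mset S k) ↑((Idx T U V).filter (fun i => mo i ∣ k + re i)) := by
    intro i hi j hj hij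
    obtain ⟨hi1, ⟨hi2, hi3⟩, ⟨hi4, hi5⟩, -, hi6⟩ := key i hi
    obtain ⟨hj1, ⟨hj2, hj3⟩, ⟨hj4, hj5⟩, -, hj6⟩ := key j hj
    have hSi := (hS i.1 hi1).1
    have hSj := (hS j.1 hj1).1
    have mem : ∀ a, a ∈ mset S k i → 1 < a → U < a → a = j.2.1 ∨ a = j.2.2 ∨ a = (k + re j) / mo j := by
      intro a ha h1 h2
      rw [hij] at ha
      simp only [mset, Multiset.mem_add, Multiset.mem_cons] at ha
      rcases ha with ha | ha | ha | ha | ha
      · have := (hSj a ha).2; omega
      · exact Or.inl ha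
      · exact Or.inr (Or.inl ha)
      · exact Or.inr (Or.inr ha)
      · have := Multiset.eq_of_mem_replicate ha; omega
    have eu : i.2.1 = j.2.1 := by
      rcases mem i.2.1 (by simp [mset]) (by omega) hi2 with h | h | h
      · exact h
      · omega
      · omega
    have ev : i.2.2 = j.2.2 := by
      rcases mem i.2.2 (by simp [mset]) (by omega) (by omega) with h | h | h
      · omega
      · exact h
      · omega
    have ec : (k + re i) / mo i = (k + re j) / mo j := by
      rcases mem ((k + re i) / mo i) (by simp [mset]) (by omega) (by omega) with h | h | h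
      · omega
      · omega
      · exact h
    have eS : S i.1 = S j.1 := by
      have h := congrArg (Multiset.filter (fun a => 2 ≤ a)) hij
      have hf : ∀ p : (ℕ × ℕ) × (ℕ × ℕ), (∀ a ∈ S p.1, 2 ≤ a) → 2 ≤ p.2.1 → 2 ≤ p.2.2 →
          2 ≤ (k + re p) / mo p → Multiset.filter (fun a => 2 ≤ a) (mset S k p) =
            S p.1 + (p.2.1 ::ₘ p.2.2 ::ₘ ((k + re p) / mo p) ::ₘ 0) := by
        intro p h1 h2 h3 h4
        rw [mset, Multiset.filter_add, Multiset.filter_eq_self.2 h1,
          Multiset.filter_cons_of_pos _ h2, Multiset.filter_cons_of_pos _ h3,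
          Multiset.filter_cons_of_pos _ h4]
        congr 4
        rw [Multiset.filter_eq_nil]
        intro a ha
        rw [Multiset.eq_of_mem_replicate ha]; norm_num
      rw [hf i (fun a ha => (hSi a ha).1) (by omega) (by omega) (by omega),
        hf j (fun a ha => (hSj a ha).1) (by omega) (by omega) (by omega), eu, ev, ec] at h
      exact add_right_cancel h
    have e1 : i.1.1 = j.1.1 := by
      rw [← (hS i.1 hi1).2.1, ← (hS j.1 hj1).2.1, eS]
    have e2 : i.1.2 = j.1.2 := by
      have h1 := (hS i.1 hi1).2.2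
      have h2 := (hS j.1 hj1).2.2
      rw [eS] at h1
      omega
    exact Prod.ext (Prod.ext e1 e2) (Prod.ext eu ev)
  rw [Pool.Agent.SPM.N, ← card_image_of_injOn inj, ← Set.ncard_coe_finset]
  apply Set.ncard_le_ncard _ (Pool.Agent.SPM.Sol46.fin (by omega))
  intro s hs
  rw [coe_image] at hs
  obtain ⟨i, hi, rfl⟩ := hs
  exact (key i hi).2.2.2.1

end Pool.Agent.SPA
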