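import Pool.Agent.SPA.Stmts5
import Pool.Agent.SPA.M20

/-!
# Row S (MP_7a4c99): choice of the parameters of Brun's sieve and assembly
-/

set_option autoImplicit false

namespace Pool.Agent.SPA.S20

open Finset

/-- helper3's theorem `s1` -/
def HS1 : Prop := ∀ (A z N t : ℕ) (S : ℝ), 1 ≤ A → 2 ≤ N →
    ∑ q ∈ (Icc 1 z).filter Nat.Prime, (1 : ℝ) / q ≤ S →
    (N : ℝ) * (∏ q ∈ (Icc 1 z).filter Nat.Prime, (1 - 1 / (q : ℝ)) - S ^ (2 * t + 2) / (2 * t + 2).factorial)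
      - (1 + (z : ℝ)) ^ (2 * t + 1)
    ≤ (((Ioc N (2 * N)).filter (fun v => z < (A * v - 1).minFac)).card : ℝ)

/-- helper3's theorem `dyad` -/
def HDy : Prop := ∀ (p : ℕ → Prop) [DecidablePred p] (V : ℕ) (δ : ℝ), 2 ≤ V → 0 ≤ δ →
    (∀ N : ℕ, V ≤ N → δ * N ≤ (((Ioc N (2 * N)).filter p).card : ℝ)) →
    δ / 4 * Real.log V ≤ ∑ v ∈ (Ioc V (V ^ 2)).filter p, (1 : ℝ) / v

theorem one_le_log (V : ℕ) (hV : 3 ≤ V) : (1 : ℝ) ≤ Real.log V := by
  have h3 : (3 : ℝ) ≤ V := by exact_mod_cast hV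
  rw [Real.le_log_iff_exp_le (by linarith)]
  have := Real.exp_one_lt_d9
  linarith

theorem exp_two_le : Real.exp 2 ≤ 8 := by
  have h1 := Real.exp_one_lt_d9
  have h2 : Real.exp 2 = Real.exp 1 * Real.exp 1 := by rw [← Real.exp_add]; norm_num
  rw [h2]
  have h3 := Real.exp_pos 1
  nlinarith

theorem b1 {S : ℝ} (hS : 1 ≤ S) (t : ℕ) (ht : 10 * S ≤ t) :
    S ^ (2 * t + 2) / ((2 * t + 2).factorial : ℝ) ≤ Real.exp (-S) := by
  have h1 := Real.pow_div_factorial_le_exp (8 * S) (by linarith) (2 * t + 2)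
  have hf : (0 : ℝ) < ((2 * t + 2).factorial : ℝ) := by exact_mod_cast Nat.factorial_pos _
  have h2 : Real.exp (2 * ((2 * t + 2 : ℕ) : ℝ)) ≤ 8 ^ (2 * t + 2) := by
    rw [mul_comm, Real.exp_nat_mul]
    exact pow_le_pow_left₀ (Real.exp_pos _).le exp_two_le _
  have h3 : (8 * S) ^ (2 * t + 2) / ((2 * t + 2).factorial : ℝ) =
      8 ^ (2 * t + 2) * (S ^ (2 * t + 2) / ((2 * t + 2).factorial : ℝ)) := by
    rw [mul_pow, mul_div_assoc]
  rw [h3] at h1
  have h4 : 0 ≤ S ^ (2 * t + 2) / ((2 * t + 2).factorial : ℝ) := by positivity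
  have h5 : Real.exp (2 * ((2 * t + 2 : ℕ) : ℝ)) * (S ^ (2 * t + 2) / ((2 * t + 2).factorial : ℝ)) ≤
      Real.exp (8 * S) := (mul_le_mul_of_nonneg_right h2 h4).trans h1
  have h6 : S ^ (2 * t + 2) / ((2 * t + 2).factorial : ℝ) ≤
      Real.exp (8 * S - 2 * ((2 * t + 2 : ℕ) : ℝ)) := by
    rw [Real.exp_sub, le_div_iff₀ (Real.exp_pos _)]
    linarith
  refine h6.trans (Real.exp_le_exp.mpr ?_)
  push_cast
  linarith

theorem s_of (h1 : HS1) (h2 : HDy) : RowS := by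
  obtain ⟨C, hC0, hC⟩ := M20.sum_le
  obtain ⟨c1, hc1, hc1', hP⟩ := M20.prod_ge
  set D := Real.log (4 / c1) with hD
  have h4c : (1 : ℝ) ≤ 4 / c1 := by rw [le_div_iff₀ hc1]; linarith
  have hD0 : 0 ≤ D := Real.log_nonneg h4c
  have hDe : Real.exp (-D) = c1 / 4 := by
    rw [Real.exp_neg, hD, Real.exp_log (by positivity), inv_div]
  set C' := C + D + 1 with hC'
  have hC'1 : 1 ≤ C' := by linarith
  refine ⟨c1 / 8, 48 + 40 * C' + D, by positivity, by linarith, by linarith, ?_⟩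
  intro A z V hA hz hV hK
  have hl1 := one_le_log z hz
  have hlV := one_le_log V hV
  set l := Real.log z with hl
  have hl0 : 0 < l := by linarith
  have hll0 : 0 ≤ Real.log l := Real.log_nonneg hl1
  have hll1 : Real.log l ≤ l := (Real.log_le_sub_one_of_pos hl0).trans (by linarith)
  set S := Real.log l + C' with hSd
  have hS1 : 1 ≤ S := by linarith
  set t := ⌈10 * S⌉₊ with ht
  have ht1 : 10 * S ≤ t := Nat.le_ceil _
  have ht2 : (t : ℝ) < 10 * S + 1 := Nat.ceil_lt_add_one (by linarith)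
  have hSum : ∑ q ∈ (Icc 1 z).filter Nat.Prime, (1 : ℝ) / q ≤ S := (hC z hz).trans (by linarith)
  have hb1 : S ^ (2 * t + 2) / ((2 * t + 2).factorial : ℝ) ≤ c1 / (4 * l) := by
    refine (b1 hS1 t ht1).trans ?_
    have e1 : Real.exp (-S) ≤ Real.exp (-D) * Real.exp (-Real.log l) := by
      rw [← Real.exp_add]
      exact Real.exp_le_exp.mpr (by linarith)
    refine e1.trans (le_of_eq ?_)
    rw [hDe, Real.exp_neg, Real.exp_log hl0]
    field_simp
  have hz0 : (0 : ℝ) < z := by exact_mod_cast (by omega : 0 < z)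
  have hz3 : (3 : ℝ) ≤ z := by exact_mod_cast hz
  have hz1 : 1 + (z : ℝ) ≤ Real.exp (2 * l) := by
    have e1 : Real.exp (2 * l) = (z : ℝ) * z := by
      rw [two_mul, Real.exp_add, hl, Real.exp_log hz0]
    rw [e1]; nlinarith
  have hVpos : (0 : ℝ) < V := by exact_mod_cast (by omega : 0 < V)
  have hb2 : (1 + (z : ℝ)) ^ (2 * t + 1) ≤ V * (c1 / (4 * l)) := by
    have e1 : (1 + (z : ℝ)) ^ (2 * t + 1) ≤ Real.exp (2 * l) ^ (2 * t + 1) :=
      pow_le_pow_left₀ (by positivity) hz1 _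
    have e2 : Real.exp (2 * l) ^ (2 * t + 1) = Real.exp (((2 * t + 1 : ℕ) : ℝ) * (2 * l)) :=
      (Real.exp_nat_mul _ _).symm
    have e3 : (V : ℝ) * (c1 / (4 * l)) = Real.exp (Real.log V - D - Real.log l) := by
      rw [sub_sub, Real.exp_sub, Real.exp_log hVpos, Real.exp_add, Real.exp_log hl0, hD,
        Real.exp_log (by positivity)]
      field_simp
    rw [e3]
    refine (e1.trans (le_of_eq e2)).trans (Real.exp_le_exp.mpr ?_)
    have e4 : ((2 * t + 1 : ℕ) : ℝ) ≤ 20 * S + 3 := by push_cast; linarith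
    have e5 : ((2 * t + 1 : ℕ) : ℝ) * (2 * l) ≤ (20 * S + 3) * (2 * l) :=
      mul_le_mul_of_nonneg_right e4 (by linarith)
    have e6 : S ≤ l + C' := by linarith
    have e7 : (20 * S + 3) * (2 * l) ≤ (20 * (l + C') + 3) * (2 * l) :=
      mul_le_mul_of_nonneg_right (by linarith) (by linarith)
    have e8 : l ≤ l ^ 2 := by nlinarith
    have e9 : (20 * (l + C') + 3) * (2 * l) ≤ (46 + 40 * C') * l ^ 2 := by
      have f1 : (20 * (l + C') + 3) * (2 * l) = 40 * l ^ 2 + (40 * C' + 6) * l := by ring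
      have f2 : (40 * C' + 6) * l ≤ (40 * C' + 6) * l ^ 2 := mul_le_mul_of_nonneg_left e8 (by linarith)
      rw [f1]; linarith
    have e10 : D ≤ D * l ^ 2 := by nlinarith
    have e11 : Real.log l ≤ l ^ 2 := by linarith
    have e12 : (48 + 40 * C' + D) * l ^ 2 = (46 + 40 * C') * l ^ 2 + D * l ^ 2 + 2 * l ^ 2 := by ring
    have e13 : 0 ≤ l ^ 2 := by positivity
    linarith
  have hprod := hP z hz
  have hcard : ∀ N : ℕ, V ≤ N → c1 / (2 * l) * N ≤
      (((Ioc N (2 * N)).filter (fun v => z < (A * v - 1).minFac)).card : ℝ) := by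
    intro N hN
    refine le_trans ?_ (h1 A z N t S hA (by omega) hSum)
    have hNR : (V : ℝ) ≤ N := by exact_mod_cast hN
    have hN0 : (0 : ℝ) < N := by linarith
    have e1 : c1 / l - c1 / (4 * l) ≤ ∏ q ∈ (Icc 1 z).filter Nat.Prime, (1 - 1 / (q : ℝ))
        - S ^ (2 * t + 2) / ((2 * t + 2).factorial : ℝ) := by linarith
    have e2 := mul_le_mul_of_nonneg_left e1 hN0.le
    have e3 : (V : ℝ) * (c1 / (4 * l)) ≤ N * (c1 / (4 * l)) :=
      mul_le_mul_of_nonneg_right hNR (by positivity)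
    have e4 : c1 / (2 * l) * N = N * (c1 / l - c1 / (4 * l)) - N * (c1 / (4 * l)) := by
      field_simp; ring
    rw [e4]
    linarith
  have hfin := h2 (fun v => z < (A * v - 1).minFac) V (c1 / (2 * l)) (by omega) (by positivity) hcard
  refine le_trans ?_ hfin
  refine mul_le_mul_of_nonneg_right ?_ (by linarith)
  have e1 : c1 / (2 * l) / 4 = c1 / 8 / l := by field_simp; ring
  rw [e1]
  refine div_le_div_of_nonneg_left (by positivity) hl0 ?_
  nlinarith [mul_pos hl0 hl0, sq_nonneg (l - 1)]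

end Pool.Agent.SPA.S20
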