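import Pool.Agent.SPA.A46

/-!
# Row V, diagonal half: pairs with the same first entries and the same `u`
-/

set_option autoImplicit false

namespace Pool.Agent.SPA

open Finset

/-- the diagonal half of row V -/
def RowV0 : Prop := ∃ C : ℝ, 0 < C ∧ ∀ (z R U V : ℕ) (T : Finset (ℕ × ℕ)), 1 ≤ z → 2 ≤ R → R ^ 2 ≤ U → R ^ 4 * U ^ 8 ≤ V →
    (∀ p ∈ T, 1 ≤ p.1 ∧ p.1 ≤ R ∧ p.2 ≤ R ∧ ∀ q : ℕ, q.Prime → q ≤ z → q ∣ p.1) →
    ∑ i ∈ Idx T U V, ∑ j ∈ (Idx T U V).filter (fun j => j.1 = i.1 ∧ j.2.1 = i.2.1),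
        ((Nat.gcd (mo i) (mo j) : ℕ) : ℝ) / ((mo i : ℝ) * mo j)
    ≤ C * (∑ p ∈ T, (1 : ℝ) / p.1) * Real.log U * (Real.log V + Real.log V ^ 3 / Real.sqrt U)

lemma v0_filter (T : Finset (ℕ × ℕ)) (U V : ℕ) (i : (ℕ × ℕ) × (ℕ × ℕ)) (hi : i ∈ Idx T U V) :
    (Idx T U V).filter (fun j => j.1 = i.1 ∧ j.2.1 = i.2.1)
      = (Ioc V (V ^ 2)).image (fun w => (i.1, (i.2.1, w))) := by
  ext j
  simp only [Idx, mem_product] at hi
  simp only [mem_filter, mem_image, Idx, mem_product]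
  constructor
  · rintro ⟨⟨h1, h2, h3⟩, h4, h5⟩
    exact ⟨j.2.2, h3, by rw [← h4, ← h5]⟩
  · rintro ⟨w, hw, rfl⟩
    exact ⟨⟨hi.1, hi.2.1, hw⟩, rfl, rfl⟩

lemma v0_sum (T : Finset (ℕ × ℕ)) (U V : ℕ) (F : ((ℕ × ℕ) × (ℕ × ℕ)) → ((ℕ × ℕ) × (ℕ × ℕ)) → ℝ) :
    ∑ i ∈ Idx T U V, ∑ j ∈ (Idx T U V).filter (fun j => j.1 = i.1 ∧ j.2.1 = i.2.1), F i j
      = ∑ p ∈ T, ∑ u ∈ Ioc U (U ^ 2), ∑ v ∈ Ioc V (V ^ 2), ∑ w ∈ Ioc V (V ^ 2), F (p, (u, v)) (p, (u, w)) := by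
  have h1 : ∀ i ∈ Idx T U V, ∑ j ∈ (Idx T U V).filter (fun j => j.1 = i.1 ∧ j.2.1 = i.2.1), F i j
      = ∑ w ∈ Ioc V (V ^ 2), F i (i.1, (i.2.1, w)) := by
    intro i hi
    rw [v0_filter T U V i hi, sum_image]
    intro a _ b _ hab
    simpa using hab
  rw [sum_congr rfl h1, Idx, sum_product]
  refine sum_congr rfl fun p _ => ?_
  rw [sum_product]

/-- one pair -/
lemma v0_pair (A v w : ℕ) (hA : 2 ≤ A) (hv : 1 ≤ v) (hw : 1 ≤ w) (hne : w ≠ v) :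
    ((Nat.gcd (A * v - 1) (A * w - 1) : ℕ) : ℝ) / (((A * v - 1 : ℕ) : ℝ) * ((A * w - 1 : ℕ) : ℝ))
      ≤ 4 / (A : ℝ) ^ 2 * (((Nat.gcd (A * v - 1) (((v : ℤ) - w).natAbs) : ℕ) : ℝ) / ((v : ℝ) * w)) := by
  have hA' : (2 : ℝ) ≤ A := by exact_mod_cast hA
  have hv' : (1 : ℝ) ≤ v := by exact_mod_cast hv
  have hw' : (1 : ℝ) ≤ w := by exact_mod_cast hw
  have hAv : 1 ≤ A * v := by nlinarith
  have hAw : 1 ≤ A * w := by nlinarith
  have hg : Nat.gcd (A * v - 1) (A * w - 1) ≤ Nat.gcd (A * v - 1) (((v : ℤ) - w).natAbs) := by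
    apply Nat.le_of_dvd
    · apply Nat.gcd_pos_of_pos_right
      omega
    · apply Nat.dvd_gcd (Nat.gcd_dvd_left _ _)
      set g := Nat.gcd (A * v - 1) (A * w - 1) with hgd
      have h1 : (g : ℤ) ∣ (A : ℤ) * v - 1 := by
        have := Int.natCast_dvd_natCast.mpr (Nat.gcd_dvd_left (A * v - 1) (A * w - 1))
        rwa [Nat.cast_sub hAv, Nat.cast_mul, Nat.cast_one] at this
      have h2 : (g : ℤ) ∣ (A : ℤ) * w - 1 := by
        have := Int.natCast_dvd_natCast.mpr (Nat.gcd_dvd_right (A * v - 1) (A * w - 1))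
        rwa [Nat.cast_sub hAw, Nat.cast_mul, Nat.cast_one] at this
      have h3 : (g : ℤ) ∣ (v : ℤ) - w := by
        have h4 : (v : ℤ) - w = w * ((A : ℤ) * v - 1) - v * ((A : ℤ) * w - 1) := by ring
        rw [h4]
        exact dvd_sub (Dvd.dvd.mul_left h1 _) (Dvd.dvd.mul_left h2 _)
      exact Int.natCast_dvd.mp h3
  have hg' : ((Nat.gcd (A * v - 1) (A * w - 1) : ℕ) : ℝ)
      ≤ ((Nat.gcd (A * v - 1) (((v : ℤ) - w).natAbs) : ℕ) : ℝ) := by exact_mod_cast hg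
  have h1 : (A : ℝ) * v / 2 ≤ ((A * v - 1 : ℕ) : ℝ) := by
    rw [Nat.cast_sub hAv, Nat.cast_mul, Nat.cast_one]
    nlinarith
  have h2 : (A : ℝ) * w / 2 ≤ ((A * w - 1 : ℕ) : ℝ) := by
    rw [Nat.cast_sub hAw, Nat.cast_mul, Nat.cast_one]
    nlinarith
  have h3 : (A : ℝ) * v / 2 * ((A : ℝ) * w / 2) ≤ ((A * v - 1 : ℕ) : ℝ) * ((A * w - 1 : ℕ) : ℝ) := by
    gcongr
  calc ((Nat.gcd (A * v - 1) (A * w - 1) : ℕ) : ℝ) / (((A * v - 1 : ℕ) : ℝ) * ((A * w - 1 : ℕ) : ℝ))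
      ≤ ((Nat.gcd (A * v - 1) (((v : ℤ) - w).natAbs) : ℕ) : ℝ) / ((A : ℝ) * v / 2 * ((A : ℝ) * w / 2)) := by
        gcongr
    _ = _ := by
        field_simp
        ring

lemma v0_diag (A v : ℕ) (hA : 2 ≤ A) (hv : 1 ≤ v) :
    ((Nat.gcd (A * v - 1) (A * v - 1) : ℕ) : ℝ) / (((A * v - 1 : ℕ) : ℝ) * ((A * v - 1 : ℕ) : ℝ))
      ≤ 2 / A * (1 / (v : ℝ)) := by
  have hA' : (2 : ℝ) ≤ A := by exact_mod_cast hA
  have hv' : (1 : ℝ) ≤ v := by exact_mod_cast hv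
  have hAv : 1 ≤ A * v := by nlinarith
  have h1 : (A : ℝ) * v / 2 ≤ ((A * v - 1 : ℕ) : ℝ) := by
    rw [Nat.cast_sub hAv, Nat.cast_mul, Nat.cast_one]
    nlinarith
  have h0 : (0 : ℝ) < (A : ℝ) * v / 2 := by positivity
  rw [Nat.gcd_self]
  have h2 : ((A * v - 1 : ℕ) : ℝ) / (((A * v - 1 : ℕ) : ℝ) * ((A * v - 1 : ℕ) : ℝ)) = 1 / ((A * v - 1 : ℕ) : ℝ) := by
    have : ((A * v - 1 : ℕ) : ℝ) ≠ 0 := by
      intro h
      rw [h] at h1
      linarith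
    field_simp
  rw [h2]
  calc 1 / ((A * v - 1 : ℕ) : ℝ) ≤ 1 / ((A : ℝ) * v / 2) := by gcongr
    _ = _ := by field_simp

/-- the inner double sum -/
lemma v0_inner (hC : RowC) (A V : ℕ) (hA : 2 ≤ A) (hAV : A ≤ V) (hV : 3 ≤ V) (hlog : 1 ≤ Real.log V) :
    ∑ v ∈ Ioc V (V ^ 2), ∑ w ∈ Ioc V (V ^ 2),
      ((Nat.gcd (A * v - 1) (A * w - 1) : ℕ) : ℝ) / (((A * v - 1 : ℕ) : ℝ) * ((A * w - 1 : ℕ) : ℝ))
      ≤ 4 * Real.log V / A + 288 * Real.log V ^ 3 / (A : ℝ) ^ 2 + 96 * Real.log V / ((A : ℝ) * Real.sqrt A) := by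
  have hA' : (2 : ℝ) ≤ A := by exact_mod_cast hA
  have hV' : (3 : ℝ) ≤ V := by exact_mod_cast hV
  have hAp : (0 : ℝ) < A := by linarith
  have hs : 0 < Real.sqrt A := Real.sqrt_pos.mpr hAp
  have hlogA : Real.log A ≤ Real.log V := Real.log_le_log hAp (by exact_mod_cast hAV)
  have hlogA0 : 0 ≤ Real.log A := Real.log_nonneg (by linarith)
  have hmem : ∀ v ∈ Ioc V (V ^ 2), 1 ≤ v := by
    intro v hv
    rw [mem_Ioc] at hv
    omega
  -- split the inner sum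
  have hsplit : ∀ v ∈ Ioc V (V ^ 2), ∑ w ∈ Ioc V (V ^ 2),
      ((Nat.gcd (A * v - 1) (A * w - 1) : ℕ) : ℝ) / (((A * v - 1 : ℕ) : ℝ) * ((A * w - 1 : ℕ) : ℝ))
      ≤ 2 / A * (1 / (v : ℝ)) + 4 / (A : ℝ) ^ 2 * ∑ w ∈ (Ioc V (V ^ 2)).filter (fun w => w ≠ v),
        (((Nat.gcd (A * v - 1) (((v : ℤ) - w).natAbs) : ℕ) : ℝ) / ((v : ℝ) * w)) := by
    intro v hv
    have hvm := hmem v hv
    rw [← sum_filter_add_sum_filter_not (Ioc V (V ^ 2)) (fun w => w ≠ v), add_comm]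
    apply add_le_add
    · have hf : (Ioc V (V ^ 2)).filter (fun w => ¬ (w ≠ v)) = {v} := by
        ext w
        simp only [mem_filter, mem_singleton, not_not]
        constructor
        · exact fun h => h.2
        · rintro rfl
          exact ⟨hv, rfl⟩
      rw [hf, sum_singleton]
      exact v0_diag A v hA hvm
    · rw [mul_sum]
      apply sum_le_sum
      intro w hw
      rw [mem_filter] at hw
      exact v0_pair A v w hA hvm (hmem w hw.1) hw.2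
  have h1 := sum_le_sum hsplit
  rw [sum_add_distrib, ← mul_sum, ← mul_sum] at h1
  have hA1 : ∑ v ∈ Ioc V (V ^ 2), (1 : ℝ) / v ≤ 2 * Real.log V := by
    have h2 := a46 V 1 0 (by omega) le_rfl
    have h3 : (Ioc V (V ^ 2)).filter (fun v => v ≡ 0 [MOD 1]) = Ioc V (V ^ 2) := by
      apply filter_true_of_mem
      intro v _
      exact Nat.modEq_one
    rw [h3] at h2
    have h4 : (1 : ℝ) / V ≤ 1 := by
      rw [div_le_one (by linarith)]
      linarith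
    have h5 : Real.log V / ((1 : ℕ) : ℝ) = Real.log V := by simp
    rw [h5] at h2
    linarith
  have hC1 := hC A V (by omega) (by omega)
  have hC2 : 8 * (1 + 2 * Real.log V) * ((1 + Real.log A + Real.log V) * Real.log V + Real.sqrt A)
      ≤ 8 * (3 * Real.log V) * (3 * Real.log V * Real.log V + Real.sqrt A) := by
    have : 0 ≤ Real.log V := by linarith
    gcongr
    · linarith
    · linarith
  have hAsq : Real.sqrt A * Real.sqrt A = A := Real.mul_self_sqrt hAp.le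
  calc _ ≤ _ := h1
    _ ≤ 2 / A * (2 * Real.log V) + 4 / (A : ℝ) ^ 2 *
        (8 * (3 * Real.log V) * (3 * Real.log V * Real.log V + Real.sqrt A)) := by
        apply add_le_add
        · exact mul_le_mul_of_nonneg_left hA1 (by positivity)
        · exact mul_le_mul_of_nonneg_left (hC1.trans hC2) (by positivity)
    _ = 4 * Real.log V / A + 288 * Real.log V ^ 3 / (A : ℝ) ^ 2
        + 96 * Real.log V * (Real.sqrt A / (A : ℝ) ^ 2) := by
        field_simp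
        ring
    _ = _ := by
        congr 1
        have : Real.sqrt A / (A : ℝ) ^ 2 = 1 / ((A : ℝ) * Real.sqrt A) := by
          rw [div_eq_div_iff (by positivity) (by positivity)]
          calc Real.sqrt A * ((A : ℝ) * Real.sqrt A) = A * (Real.sqrt A * Real.sqrt A) := by ring
            _ = 1 * (A : ℝ) ^ 2 := by rw [hAsq]; ring
        rw [this]
        ring

theorem v0 : RowC → RowV0 := by
  intro hC
  refine ⟨600, by norm_num, ?_⟩
  intro z R U V T hz hR hU hV hT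
  have hR2 : 4 ≤ R ^ 2 := by nlinarith
  have hU4 : 4 ≤ U := hR2.trans hU
  have hU8 : U ≤ U ^ 8 := Nat.le_self_pow (by norm_num) U
  have hU28 : U ^ 2 ≤ U ^ 8 := Nat.pow_le_pow_right (by omega) (by norm_num)
  have hR4 : R ≤ R ^ 4 := Nat.le_self_pow (by norm_num) R
  have hRU : R * U ^ 2 ≤ V := (Nat.mul_le_mul hR4 hU28).trans hV
  have hUV : U ≤ V := by nlinarith
  have hU' : (4 : ℝ) ≤ U := by exact_mod_cast hU4
  have hV4 : (4 : ℝ) ≤ V := hU'.trans (by exact_mod_cast hUV)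
  have hlog4 : (1 : ℝ) ≤ Real.log 4 := by
    rw [Real.le_log_iff_exp_le (by norm_num)]
    have := Real.exp_one_lt_d9
    linarith
  have hlU : 1 ≤ Real.log U := hlog4.trans (Real.log_le_log (by norm_num) hU')
  have hlV : 1 ≤ Real.log V := hlog4.trans (Real.log_le_log (by norm_num) hV4)
  have hsU : 0 < Real.sqrt U := Real.sqrt_pos.mpr (by linarith)
  have hsU1 : 1 ≤ Real.sqrt U := by
    rw [show (1 : ℝ) = Real.sqrt 1 by simp]
    exact Real.sqrt_le_sqrt (by linarith)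
  have hsUU : Real.sqrt U ≤ U := by
    have : Real.sqrt U * Real.sqrt U = U := Real.mul_self_sqrt (by linarith)
    nlinarith
  rw [v0_sum T U V (fun i j => ((Nat.gcd (mo i) (mo j) : ℕ) : ℝ) / ((mo i : ℝ) * mo j))]
  -- the bound for one `p`, `u`
  have hpu : ∀ p ∈ T, ∀ u ∈ Ioc U (U ^ 2),
      ∑ v ∈ Ioc V (V ^ 2), ∑ w ∈ Ioc V (V ^ 2),
        ((Nat.gcd (mo (p, (u, v))) (mo (p, (u, w))) : ℕ) : ℝ) / ((mo (p, (u, v)) : ℝ) * mo (p, (u, w)))
      ≤ (1 / (p.1 : ℝ)) * (1 / (u : ℝ)) * (100 * Real.log V + 288 * Real.log V ^ 3 / Real.sqrt U) := by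
    intro p hp u hu
    obtain ⟨hp1, hpR, _, _⟩ := hT p hp
    rw [mem_Ioc] at hu
    have hA : 2 ≤ p.1 * u := by nlinarith
    have hAV : p.1 * u ≤ V := (Nat.mul_le_mul hpR hu.2).trans hRU
    have h1 := v0_inner hC (p.1 * u) V hA hAV (by omega) hlV
    have hP : (1 : ℝ) ≤ p.1 := by exact_mod_cast hp1
    have hu' : (U : ℝ) ≤ u := by exact_mod_cast hu.1.le
    have hup : (0 : ℝ) < u := by linarith
    have hPp : (0 : ℝ) < p.1 := by linarith
    have hcast : ((p.1 * u : ℕ) : ℝ) = (p.1 : ℝ) * u := by push_cast; ring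
    have hmo : ∀ v : ℕ, mo (p, (u, v)) = p.1 * u * v - 1 := fun v => rfl
    simp only [hmo]
    refine h1.trans ?_
    rw [hcast]
    have hUA : (U : ℝ) ≤ (p.1 : ℝ) * u := by nlinarith
    have hsA : Real.sqrt U ≤ Real.sqrt ((p.1 : ℝ) * u) := Real.sqrt_le_sqrt hUA
    have e1 : 4 * Real.log V / ((p.1 : ℝ) * u) = 1 / (p.1 : ℝ) * (1 / (u : ℝ)) * (4 * Real.log V) := by
      field_simp
    have e2 : 288 * Real.log V ^ 3 / ((p.1 : ℝ) * u) ^ 2
        ≤ 1 / (p.1 : ℝ) * (1 / (u : ℝ)) * (288 * Real.log V ^ 3 / Real.sqrt U) := by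
      have : 288 * Real.log V ^ 3 / ((p.1 : ℝ) * u) ^ 2
          = 1 / (p.1 : ℝ) * (1 / (u : ℝ)) * (288 * Real.log V ^ 3 / ((p.1 : ℝ) * u)) := by
        field_simp
      rw [this]
      have h0 : 0 ≤ Real.log V := by linarith
      gcongr
      exact hsUU.trans hUA
    have e3 : 96 * Real.log V / ((p.1 : ℝ) * u * Real.sqrt ((p.1 : ℝ) * u))
        ≤ 1 / (p.1 : ℝ) * (1 / (u : ℝ)) * (96 * Real.log V) := by
      have h0 : 0 ≤ Real.log V := by linarith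
      have h2 : 1 / (p.1 : ℝ) * (1 / (u : ℝ)) * (96 * Real.log V) = 96 * Real.log V / ((p.1 : ℝ) * u * 1) := by
        field_simp
      rw [h2]
      gcongr
      exact hsU1.trans hsA
    calc _ ≤ 1 / (p.1 : ℝ) * (1 / (u : ℝ)) * (4 * Real.log V)
          + 1 / (p.1 : ℝ) * (1 / (u : ℝ)) * (288 * Real.log V ^ 3 / Real.sqrt U)
          + 1 / (p.1 : ℝ) * (1 / (u : ℝ)) * (96 * Real.log V) := by
          rw [e1]
          linarith
      _ = _ := by ring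
  have hu1 : ∑ u ∈ Ioc U (U ^ 2), (1 : ℝ) / u ≤ 2 * Real.log U := by
    have h2 := a46 U 1 0 (by omega) le_rfl
    have h3 : (Ioc U (U ^ 2)).filter (fun v => v ≡ 0 [MOD 1]) = Ioc U (U ^ 2) := by
      apply filter_true_of_mem
      intro v _
      exact Nat.modEq_one
    rw [h3] at h2
    have h4 : (1 : ℝ) / U ≤ 1 := by
      rw [div_le_one (by linarith)]
      linarith
    have h5 : Real.log U / ((1 : ℕ) : ℝ) = Real.log U := by simp
    rw [h5] at h2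
    linarith
  have hB : 0 ≤ 100 * Real.log V + 288 * Real.log V ^ 3 / Real.sqrt U := by positivity
  calc _ ≤ ∑ p ∈ T, ∑ u ∈ Ioc U (U ^ 2),
        (1 / (p.1 : ℝ)) * (1 / (u : ℝ)) * (100 * Real.log V + 288 * Real.log V ^ 3 / Real.sqrt U) :=
        sum_le_sum fun p hp => sum_le_sum fun u hu => hpu p hp u hu
    _ = (∑ p ∈ T, (1 : ℝ) / p.1) * (∑ u ∈ Ioc U (U ^ 2), (1 : ℝ) / u)
        * (100 * Real.log V + 288 * Real.log V ^ 3 / Real.sqrt U) := by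
        rw [sum_mul_sum, sum_mul]
        refine sum_congr rfl fun p _ => ?_
        rw [sum_mul]
    _ ≤ (∑ p ∈ T, (1 : ℝ) / p.1) * (2 * Real.log U)
        * (100 * Real.log V + 288 * Real.log V ^ 3 / Real.sqrt U) := by
        gcongr
    _ ≤ (∑ p ∈ T, (1 : ℝ) / p.1) * (2 * Real.log U)
        * (300 * (Real.log V + Real.log V ^ 3 / Real.sqrt U)) := by
        gcongr
        have h6 : 0 ≤ Real.log V ^ 3 / Real.sqrt U := by positivity
        have h7 : 288 * Real.log V ^ 3 / Real.sqrt U = 288 * (Real.log V ^ 3 / Real.sqrt U) := by ring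
        rw [h7]
        linarith
    _ = _ := by ring

end Pool.Agent.SPA
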