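import Pool.Agent.SPA.Stmts5
import Pool.Agent.SPA.V075

/-!
# Row V0s: the diagonal part, no condition on the primes (`z = 1` in row V0)
-/

set_option autoImplicit false

namespace Pool.Agent.SPA

open Finset

theorem v0s : RowC → RowV0s := by
  intro hC
  obtain ⟨C, hC0, h⟩ := v0 hC
  refine ⟨C, hC0, ?_⟩
  intro R U V T hR hU hV hT
  refine h 1 R U V T le_rfl hR hU hV ?_
  intro p hp
  obtain ⟨h1, h2, h3⟩ := hT p hp
  refine ⟨h1, h2, h3, ?_⟩
  intro q hq hq1
  have := hq.two_le
  omega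

end Pool.Agent.SPA
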