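import Pool.Agent.SPA.Stmts5

/-!
# Row V1s (MP_7a4c99), off-diagonal half, sieved form
-/

set_option autoImplicit false

namespace Pool.Agent.SPA.V1s20

open Finset

/-- the quadratic -/
def Dz (P t A s u : ℕ) : ℤ := (P : ℤ) * u * A * ((t : ℤ) + u - s) + A - P * u

theorem dz_mod (P t A s u v v' g : ℕ) (h1 : (g : ℤ) ∣ (P : ℤ) * u * v - 1) (h2 : (g : ℤ) ∣ (A : ℤ) * v' - 1)
    (h3 : (g : ℤ) ∣ ((t : ℤ) + u + v) - (s + v')) : (g : ℤ) ∣ Dz P t A s u := by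
  have e : Dz P t A s u = (P : ℤ) * u * A * (((t : ℤ) + u + v) - (s + v')) - A * ((P : ℤ) * u * v - 1)
      + (P : ℤ) * u * ((A : ℤ) * v' - 1) := by
    unfold Dz; ring
  rw [e]
  exact dvd_add (dvd_sub (Dvd.dvd.mul_left h3 _) (Dvd.dvd.mul_left h1 _)) (Dvd.dvd.mul_left h2 _)

theorem dz_zero (P t u P' t' u' R U : ℕ) (hP : 1 ≤ P) (hP' : 1 ≤ P') (hPR : P ≤ R) (hP'R : P' ≤ R)
    (ht : t ≤ R) (ht' : t' ≤ R) (hRU : R ^ 2 ≤ U) (hu : U < u) (hu' : U < u')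
    (h : Dz P t (P' * u') (t' + u') u = 0) : P = P' ∧ t = t' ∧ u = u' := by
  set a : ℤ := (P : ℤ) * u with ha
  set b : ℤ := (P' : ℤ) * u' with hb
  have hb' : ((P' * u' : ℕ) : ℤ) = b := Nat.cast_mul P' u'
  have hu0 : (1 : ℤ) ≤ u := by exact_mod_cast (by omega : 1 ≤ u)
  have hu'0 : (1 : ℤ) ≤ u' := by exact_mod_cast (by omega : 1 ≤ u')
  have hP0 : (1 : ℤ) ≤ P := by exact_mod_cast hP
  have hP'0 : (1 : ℤ) ≤ P' := by exact_mod_cast hP'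
  have ha1 : 1 ≤ a := by rw [ha]; nlinarith
  have hb1 : 1 ≤ b := by rw [hb]; nlinarith
  set δ : ℤ := (t : ℤ) + u - (t' + u') with hδ
  have h1 : a * b * δ + b - a = 0 := by
    have : Dz P t (P' * u') (t' + u') u = a * b * δ + b - a := by
      unfold Dz; rw [hb']; push_cast; rw [hδ, ha]
    rw [← this]; exact h
  have hδ0 : δ = 0 := by
    by_contra hne
    rcases lt_or_gt_of_ne hne with hl | hl
    · have h2 : δ ≤ -1 := by omega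
      have h3 : a * b * δ ≤ a * b * (-1) := mul_le_mul_of_nonneg_left h2 (by positivity)
      nlinarith
    · have h2 : 1 ≤ δ := by omega
      have h3 : a * b * 1 ≤ a * b * δ := mul_le_mul_of_nonneg_left h2 (by positivity)
      nlinarith
  have hab : a = b := by rw [hδ0] at h1; linarith
  have hs : (t : ℤ) + u = t' + u' := by rw [hδ] at hδ0; linarith
  -- (P - P') u = P' (t - t')
  have h4 : ((P : ℤ) - P') * u = P' * ((t : ℤ) - t') := by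
    have h5 : (P : ℤ) * u = P' * u' := by rw [← ha, ← hb]; exact hab
    have h6 : (u' : ℤ) = t + u - t' := by linarith
    rw [h6] at h5
    linarith
  have hRUz : (R : ℤ) ^ 2 ≤ U := by exact_mod_cast hRU
  have huz : (U : ℤ) < u := by exact_mod_cast hu
  have hP'Rz : (P' : ℤ) ≤ R := by exact_mod_cast hP'R
  have htz : (t : ℤ) ≤ R := by exact_mod_cast ht
  have ht'z : (t' : ℤ) ≤ R := by exact_mod_cast ht'
  have ht0 : (0 : ℤ) ≤ t := by positivity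
  have ht'0 : (0 : ℤ) ≤ t' := by positivity
  have hR0 : (0 : ℤ) ≤ R := by positivity
  have hup : (P' : ℤ) * ((t : ℤ) - t') ≤ R ^ 2 := by nlinarith
  have hlo : -(R : ℤ) ^ 2 ≤ (P' : ℤ) * ((t : ℤ) - t') := by nlinarith
  have hPP : (P : ℤ) = P' := by
    by_contra hne
    rcases lt_or_gt_of_ne hne with hl | hl
    · have h7 : (P : ℤ) - P' ≤ -1 := by omega
      have h8 : ((P : ℤ) - P') * u ≤ (-1) * u := mul_le_mul_of_nonneg_right h7 (by omega)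
      linarith
    · have h7 : 1 ≤ (P : ℤ) - P' := by omega
      have h8 : 1 * (u : ℤ) ≤ ((P : ℤ) - P') * u := mul_le_mul_of_nonneg_right h7 (by omega)
      linarith
  have htt : (t : ℤ) = t' := by
    rw [hPP] at h4
    have h9 : (P' : ℤ) * ((t : ℤ) - t') = 0 := by rw [← h4]; ring
    rcases mul_eq_zero.mp h9 with h10 | h10
    · omega
    · linarith
  have huu : (u : ℤ) = u' := by linarith
  exact ⟨by exact_mod_cast hPP, by exact_mod_cast htt, by exact_mod_cast huu⟩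

theorem dz_le (P t u P' t' u' R U V : ℕ) (hPR : P ≤ R) (hP'R : P' ≤ R) (hR : 2 ≤ R)
    (ht : t ≤ R) (ht' : t' ≤ R) (hRU : R ^ 2 ≤ U) (hu : u ≤ U ^ 2) (hu' : u' ≤ U ^ 2)
    (hV : R ^ 4 * U ^ 8 ≤ V) : |Dz P t (P' * u') (t' + u') u| ≤ V := by
  have hU : 4 ≤ U := le_trans (by nlinarith) hRU
  have hPz : (P : ℤ) ≤ R := by exact_mod_cast hPR
  have hP'z : (P' : ℤ) ≤ R := by exact_mod_cast hP'R
  have hRz : (2 : ℤ) ≤ R := by exact_mod_cast hR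
  have hUz : (4 : ℤ) ≤ U := by exact_mod_cast hU
  have hRUz : (R : ℤ) ^ 2 ≤ U := by exact_mod_cast hRU
  have huz : (u : ℤ) ≤ (U : ℤ) ^ 2 := by exact_mod_cast hu
  have hu'z : (u' : ℤ) ≤ (U : ℤ) ^ 2 := by exact_mod_cast hu'
  have htz : (t : ℤ) ≤ R := by exact_mod_cast ht
  have ht'z : (t' : ℤ) ≤ R := by exact_mod_cast ht'
  have hVz : (R : ℤ) ^ 4 * (U : ℤ) ^ 8 ≤ V := by exact_mod_cast hV
  have hP0 : (0 : ℤ) ≤ P := by positivity
  have hP'0 : (0 : ℤ) ≤ P' := by positivity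
  have hu0 : (0 : ℤ) ≤ u := by positivity
  have hu'0 : (0 : ℤ) ≤ u' := by positivity
  have ht0 : (0 : ℤ) ≤ t := by positivity
  have ht'0 : (0 : ℤ) ≤ t' := by positivity
  set a : ℤ := (P : ℤ) * u with ha
  set b : ℤ := (P' : ℤ) * u' with hb
  have ha0 : 0 ≤ a := by positivity
  have hb0 : 0 ≤ b := by positivity
  have haR : a ≤ R * U ^ 2 := mul_le_mul hPz huz hu0 (by positivity)
  have hbR : b ≤ R * U ^ 2 := mul_le_mul hP'z hu'z hu'0 (by positivity)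
  have hRU1 : (R : ℤ) ≤ U := by nlinarith
  have hRU2 : (R : ℤ) ≤ (U : ℤ) ^ 2 := by nlinarith
  have hDe : Dz P t (P' * u') (t' + u') u = a * b * ((t : ℤ) + u - (t' + u')) + b - a := by
    unfold Dz; push_cast; ring
  have hab : a * b ≤ (R * U ^ 2) * (R * U ^ 2) := mul_le_mul haR hbR hb0 (by positivity)
  have hab0 : 0 ≤ a * b := by positivity
  have hs1 : (t : ℤ) + u - (t' + u') ≤ 2 * (U : ℤ) ^ 2 := by linarith
  have hs2 : -(2 * (U : ℤ) ^ 2) ≤ (t : ℤ) + u - (t' + u') := by linarith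
  have h1 : a * b * ((t : ℤ) + u - (t' + u')) ≤ (R * U ^ 2) * (R * U ^ 2) * (2 * (U : ℤ) ^ 2) := by
    refine (mul_le_mul_of_nonneg_left hs1 hab0).trans ?_
    exact mul_le_mul_of_nonneg_right hab (by positivity)
  have h2 : -((R * U ^ 2) * (R * U ^ 2) * (2 * (U : ℤ) ^ 2)) ≤ a * b * ((t : ℤ) + u - (t' + u')) := by
    have h3 := mul_le_mul_of_nonneg_left hs2 hab0
    have h4 : a * b * (2 * (U : ℤ) ^ 2) ≤ (R * U ^ 2) * (R * U ^ 2) * (2 * (U : ℤ) ^ 2) :=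
      mul_le_mul_of_nonneg_right hab (by positivity)
    linarith
  have hR1 : (1 : ℤ) ≤ R := by linarith
  have hU1 : (1 : ℤ) ≤ U := by linarith
  have h5 : (R * U ^ 2) * (R * U ^ 2) * (2 * (U : ℤ) ^ 2) + R * U ^ 2 ≤ (R : ℤ) ^ 4 * (U : ℤ) ^ 8 := by
    have e1 : (R * U ^ 2) * (R * U ^ 2) * (2 * (U : ℤ) ^ 2) = 2 * ((R : ℤ) ^ 2 * (U : ℤ) ^ 6) := by ring
    have e2 : (R : ℤ) * U ^ 2 ≤ (R : ℤ) ^ 2 * (U : ℤ) ^ 6 := by
      have f1 : (R : ℤ) ≤ (R : ℤ) ^ 2 := by nlinarith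
      have f2 : (U : ℤ) ^ 2 ≤ (U : ℤ) ^ 6 := pow_le_pow_right₀ hU1 (by norm_num)
      exact mul_le_mul f1 f2 (by positivity) (by positivity)
    have e3 : 3 * ((R : ℤ) ^ 2 * (U : ℤ) ^ 6) ≤ (R : ℤ) ^ 4 * (U : ℤ) ^ 8 := by
      have f3 : (R : ℤ) ^ 4 * (U : ℤ) ^ 8 = ((R : ℤ) ^ 2 * (U : ℤ) ^ 2) * ((R : ℤ) ^ 2 * (U : ℤ) ^ 6) := by ring
      rw [f3]
      refine mul_le_mul_of_nonneg_right ?_ (by positivity)
      nlinarith
    linarith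
  rw [hDe, abs_le]
  constructor <;> linarith

theorem one_le_logV (V : ℕ) (hV : 3 ≤ V) : (1 : ℝ) ≤ Real.log V := by
  have h3 : (3 : ℝ) ≤ V := by exact_mod_cast hV
  rw [Real.le_log_iff_exp_le (by linarith)]
  have := Real.exp_one_lt_d9
  linarith

theorem cls (hA : RowA) (A g V : ℕ) (hg : 1 ≤ g) (hgV : g ≤ V) (hV : 3 ≤ V) :
    ∑ v ∈ (Ioc V (V ^ 2)).filter (fun v : ℕ => (g : ℤ) ∣ (A : ℤ) * v - 1), (1 : ℝ) / v ≤ 2 * Real.log V / g := by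
  have hl := one_le_logV V hV
  have hgR : (0 : ℝ) < g := by exact_mod_cast hg
  have hVR : (0 : ℝ) < V := by exact_mod_cast (by omega : 0 < V)
  rcases ((Ioc V (V ^ 2)).filter (fun v : ℕ => (g : ℤ) ∣ (A : ℤ) * v - 1)).eq_empty_or_nonempty with h0 | ⟨v0, hv0⟩
  · rw [h0, sum_empty]; positivity
  · have h0 := (mem_filter.mp hv0).2
    have hcop : IsCoprime (g : ℤ) (A : ℤ) := by
      obtain ⟨k, hk⟩ := h0
      exact ⟨-k, v0, by linarith⟩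
    have hsub : (Ioc V (V ^ 2)).filter (fun v : ℕ => (g : ℤ) ∣ (A : ℤ) * v - 1) ⊆
        (Ioc V (V ^ 2)).filter (fun v => v ≡ v0 [MOD g]) := by
      intro v hv
      obtain ⟨hvI, hv1⟩ := mem_filter.mp hv
      refine mem_filter.mpr ⟨hvI, ?_⟩
      have h2 := dvd_sub hv1 h0
      have e : (A : ℤ) * v - 1 - (A * v0 - 1) = A * ((v : ℤ) - v0) := by ring
      rw [e] at h2
      exact ((Nat.modEq_iff_dvd).mpr (hcop.dvd_of_dvd_mul_left h2)).symm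
    have hle := sum_le_sum_of_subset_of_nonneg (f := fun u : ℕ => (1 : ℝ) / u) hsub
        (fun i _ _ => by positivity)
    refine hle.trans ((hA V g v0 (by omega) hg).trans ?_)
    have h5 : (1 : ℝ) / V ≤ Real.log V / g := by
      have h6 : (g : ℝ) ≤ V := by exact_mod_cast hgV
      have h7 : (1 : ℝ) / V ≤ 1 / g := one_div_le_one_div_of_le hgR h6
      have h8 : (1 : ℝ) / g ≤ Real.log V / g := div_le_div_of_nonneg_right hl hgR.le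
      exact h7.trans h8
    have h9 : 2 * Real.log V / g = Real.log V / g + Real.log V / g := by ring
    rw [h9]
    linarith

/-- the moduli that can occur -/
def Gs (z V P t b s u : ℕ) : Finset ℕ := ((Icc 2 V).filter (fun g => z < g.minFac)).filter
  (fun g : ℕ => Nat.Coprime g (P * b) ∧ (g : ℤ) ∣ (P : ℤ) * u * b * ((t : ℤ) + u - s) + b - P * u)

/-- the summand -/
noncomputable def ff (z : ℕ) (i j : (ℕ × ℕ) × (ℕ × ℕ)) : ℝ :=
  if ¬ (j.1 = i.1 ∧ j.2.1 = i.2.1) ∧ z < (Nat.gcd (mo i) (mo j)).minFac ∧ re i ≡ re j [MOD Nat.gcd (mo i) (mo j)]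
  then ((Nat.gcd (mo i) (mo j) : ℕ) : ℝ) / ((mo i : ℝ) * mo j) else 0

theorem ff_le (z R U V : ℕ) (p p' : ℕ × ℕ) (u u' v v' : ℕ) (hz : 1 ≤ z) (hR : 2 ≤ R) (hRU : R ^ 2 ≤ U)
    (hV : R ^ 4 * U ^ 8 ≤ V)
    (hp : 1 ≤ p.1 ∧ p.1 ≤ R ∧ p.2 ≤ R)
    (hp' : 1 ≤ p'.1 ∧ p'.1 ≤ R ∧ p'.2 ≤ R)
    (hu : u ∈ Ioc U (U ^ 2)) (hu' : u' ∈ Ioc U (U ^ 2)) (hv : v ∈ Ioc V (V ^ 2)) (hv' : v' ∈ Ioc V (V ^ 2)) :
    ff z (p, (u, v)) (p', (u', v')) ≤
      ∑ g ∈ Gs z V p.1 p.2 (p'.1 * u') (p'.2 + u') u, 4 * (g : ℝ) / ((p.1 * u : ℕ) * (p'.1 * u' : ℕ)) *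
        ((if (g : ℤ) ∣ ((p.1 * u : ℕ) : ℤ) * v - 1 then (1 : ℝ) / v else 0) *
         (if (g : ℤ) ∣ ((p'.1 * u' : ℕ) : ℤ) * v' - 1 then (1 : ℝ) / v' else 0)) := by
  have hnn : ∀ g ∈ Gs z V p.1 p.2 (p'.1 * u') (p'.2 + u') u, 0 ≤ 4 * (g : ℝ) / ((p.1 * u : ℕ) * (p'.1 * u' : ℕ)) *
        ((if (g : ℤ) ∣ ((p.1 * u : ℕ) : ℤ) * v - 1 then (1 : ℝ) / v else 0) *
         (if (g : ℤ) ∣ ((p'.1 * u' : ℕ) : ℤ) * v' - 1 then (1 : ℝ) / v' else 0)) := by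
    intro g _
    refine mul_nonneg (by positivity) (mul_nonneg ?_ ?_) <;> split_ifs <;> positivity
  unfold ff
  split_ifs with hc
  · obtain ⟨hne, hgmin, hre⟩ := hc
    obtain ⟨hP1, hPR, htR⟩ := hp
    obtain ⟨hP'1, hP'R, ht'R⟩ := hp'
    obtain ⟨hu1, hu2⟩ := mem_Ioc.mp hu
    obtain ⟨hu'1, hu'2⟩ := mem_Ioc.mp hu'
    obtain ⟨hv1, hv2⟩ := mem_Ioc.mp hv
    obtain ⟨hv'1, hv'2⟩ := mem_Ioc.mp hv'
    have hU : 4 ≤ U := le_trans (by nlinarith) hRU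
    set g := Nat.gcd (mo (p, (u, v))) (mo (p', (u', v'))) with hg
    have hmo : mo (p, (u, v)) = p.1 * u * v - 1 := rfl
    have hmo' : mo (p', (u', v')) = p'.1 * u' * v' - 1 := rfl
    have hav : 2 ≤ p.1 * u * v := by
      have h1 : 1 * 1 * 2 ≤ p.1 * u * v := Nat.mul_le_mul (Nat.mul_le_mul hP1 (by omega)) (by
        have : 1 ≤ V := by
          by_contra h0
          have : V = 0 := by omega
          rw [this] at hv1 hv2
          omega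
        omega)
      simpa using h1
    have hbv : 2 ≤ p'.1 * u' * v' := by
      have h1 : 1 * 1 * 2 ≤ p'.1 * u' * v' := Nat.mul_le_mul (Nat.mul_le_mul hP'1 (by omega)) (by
        have : 1 ≤ V := by
          by_contra h0
          have : V = 0 := by omega
          rw [this] at hv'1 hv'2
          omega
        omega)
      simpa using h1
    have hd1 : (g : ℤ) ∣ ((p.1 * u : ℕ) : ℤ) * v - 1 := by
      have h1 : (g : ℤ) ∣ ((p.1 * u * v - 1 : ℕ) : ℤ) := by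
        rw [← hmo]; exact_mod_cast Nat.gcd_dvd_left _ _
      have e : ((p.1 * u * v - 1 : ℕ) : ℤ) = ((p.1 * u : ℕ) : ℤ) * v - 1 := by
        rw [Nat.cast_sub (by omega)]; push_cast; ring
      rwa [e] at h1
    have hd2 : (g : ℤ) ∣ ((p'.1 * u' : ℕ) : ℤ) * v' - 1 := by
      have h1 : (g : ℤ) ∣ ((p'.1 * u' * v' - 1 : ℕ) : ℤ) := by
        rw [← hmo']; exact_mod_cast Nat.gcd_dvd_right _ _
      have e : ((p'.1 * u' * v' - 1 : ℕ) : ℤ) = ((p'.1 * u' : ℕ) : ℤ) * v' - 1 := by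
        rw [Nat.cast_sub (by omega)]; push_cast; ring
      rwa [e] at h1
    have hd3 : (g : ℤ) ∣ ((p.2 : ℤ) + u + v) - (((p'.2 + u' : ℕ) : ℤ) + v') := by
      have h1 : re (p, (u, v)) ≡ re (p', (u', v')) [MOD g] := hre
      have e1 : re (p, (u, v)) = p.2 + u + v - 3 := rfl
      have e2 : re (p', (u', v')) = p'.2 + u' + v' - 3 := rfl
      rw [e1, e2] at h1
      have h2 := (Nat.modEq_iff_dvd).mp h1.symm
      have e : ((p.2 + u + v - 3 : ℕ) : ℤ) - ((p'.2 + u' + v' - 3 : ℕ) : ℤ) =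
          ((p.2 : ℤ) + u + v) - (((p'.2 + u' : ℕ) : ℤ) + v') := by
        rw [Nat.cast_sub (by omega), Nat.cast_sub (by omega)]; push_cast; ring
      rwa [e] at h2
    have hD : (g : ℤ) ∣ Dz p.1 p.2 (p'.1 * u') (p'.2 + u') u := by
      refine dz_mod p.1 p.2 (p'.1 * u') (p'.2 + u') u v v' g ?_ hd2 hd3
      have e : ((p.1 * u : ℕ) : ℤ) = (p.1 : ℤ) * u := by push_cast; ring
      rwa [e] at hd1
    have hDne : Dz p.1 p.2 (p'.1 * u') (p'.2 + u') u ≠ 0 := by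
      intro h0
      obtain ⟨e1, e2, e3⟩ := dz_zero p.1 p.2 u p'.1 p'.2 u' R U hP1 hP'1 hPR hP'R htR ht'R hRU hu1 hu'1 h0
      exact hne ⟨Prod.ext e1.symm e2.symm, e3.symm⟩
    have hDle := dz_le p.1 p.2 u p'.1 p'.2 u' R U V hPR hP'R hR htR ht'R hRU hu2 hu'2 hV
    have hgV : g ≤ V := by
      have h1 : (g : ℤ) ≤ |Dz p.1 p.2 (p'.1 * u') (p'.2 + u') u| :=
        Int.le_of_dvd (abs_pos.mpr hDne) ((dvd_abs _ _).mpr hD)
      exact_mod_cast h1.trans hDle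
    have hcA : IsCoprime (g : ℤ) ((p.1 * u : ℕ) : ℤ) := by
      obtain ⟨k, hk⟩ := hd1
      exact ⟨-k, v, by linarith⟩
    have hcB : IsCoprime (g : ℤ) ((p'.1 * u' : ℕ) : ℤ) := by
      obtain ⟨k, hk⟩ := hd2
      exact ⟨-k, v', by linarith⟩
    have hcA' : Nat.Coprime g (p.1 * u) := Nat.isCoprime_iff_coprime.mp hcA
    have hcB' : Nat.Coprime g (p'.1 * u') := Nat.isCoprime_iff_coprime.mp hcB
    have hcP : Nat.Coprime g p.1 := Nat.Coprime.coprime_mul_right_right hcA'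
    have hmin : z < g.minFac := hgmin
    have hg1 : 1 < g := by
      have h0 : g ≠ 1 := by
        intro h1
        rw [h1, Nat.minFac_one] at hmin
        omega
      have h2 : 0 < g := by
        refine Nat.gcd_pos_of_pos_left _ ?_
        rw [hmo]; omega
      omega
    have hmem : g ∈ Gs z V p.1 p.2 (p'.1 * u') (p'.2 + u') u := by
      unfold Gs
      refine mem_filter.mpr ⟨mem_filter.mpr ⟨mem_Icc.mpr ⟨hg1, hgV⟩, hmin⟩, ?_, hD⟩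
      exact Nat.Coprime.mul_right hcP hcB'
    refine le_trans ?_ (single_le_sum hnn hmem)
    rw [if_pos hd1, if_pos hd2]
    have haR : (0 : ℝ) < ((p.1 * u : ℕ) : ℝ) := by
      exact_mod_cast Nat.mul_pos (by omega : 0 < p.1) (by omega : 0 < u)
    have hbR : (0 : ℝ) < ((p'.1 * u' : ℕ) : ℝ) := by
      exact_mod_cast Nat.mul_pos (by omega : 0 < p'.1) (by omega : 0 < u')
    have hvR : (0 : ℝ) < v := by exact_mod_cast (by omega : 0 < v)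
    have hv'R : (0 : ℝ) < v' := by exact_mod_cast (by omega : 0 < v')
    have hm1 : ((p.1 * u : ℕ) : ℝ) * v / 2 ≤ (mo (p, (u, v)) : ℝ) := by
      rw [hmo, Nat.cast_sub (by omega)]
      have h2 : (2 : ℝ) ≤ ((p.1 * u * v : ℕ) : ℝ) := by exact_mod_cast hav
      have h3 : ((p.1 * u : ℕ) : ℝ) * v = ((p.1 * u * v : ℕ) : ℝ) := by push_cast; ring
      rw [h3]; push_cast; push_cast at h2; linarith
    have hm2 : ((p'.1 * u' : ℕ) : ℝ) * v' / 2 ≤ (mo (p', (u', v')) : ℝ) := by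
      rw [hmo', Nat.cast_sub (by omega)]
      have h2 : (2 : ℝ) ≤ ((p'.1 * u' * v' : ℕ) : ℝ) := by exact_mod_cast hbv
      have h3 : ((p'.1 * u' : ℕ) : ℝ) * v' = ((p'.1 * u' * v' : ℕ) : ℝ) := by push_cast; ring
      rw [h3]; push_cast; push_cast at h2; linarith
    have h4 : (g : ℝ) / ((mo (p, (u, v)) : ℝ) * mo (p', (u', v'))) ≤
        (g : ℝ) / ((((p.1 * u : ℕ) : ℝ) * v / 2) * (((p'.1 * u' : ℕ) : ℝ) * v' / 2)) := by
      refine div_le_div_of_nonneg_left (by positivity) (by positivity) ?_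
      exact mul_le_mul hm1 hm2 (by positivity) (le_trans (by positivity) hm1)
    refine h4.trans (le_of_eq ?_)
    field_simp
    ring
  · exact sum_nonneg hnn

theorem pair_le (hA : RowA) (z R U V : ℕ) (p p' : ℕ × ℕ) (u u' : ℕ) (hz : 1 ≤ z) (hR : 2 ≤ R) (hRU : R ^ 2 ≤ U)
    (hV : R ^ 4 * U ^ 8 ≤ V) (hV3 : 3 ≤ V)
    (hp : 1 ≤ p.1 ∧ p.1 ≤ R ∧ p.2 ≤ R)
    (hp' : 1 ≤ p'.1 ∧ p'.1 ≤ R ∧ p'.2 ≤ R)
    (hu : u ∈ Ioc U (U ^ 2)) (hu' : u' ∈ Ioc U (U ^ 2)) :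
    ∑ v ∈ Ioc V (V ^ 2), ∑ v' ∈ Ioc V (V ^ 2), ff z (p, (u, v)) (p', (u', v')) ≤
      16 * Real.log V ^ 2 / ((p.1 * u : ℕ) * (p'.1 * u' : ℕ)) *
        ∑ g ∈ Gs z V p.1 p.2 (p'.1 * u') (p'.2 + u') u, (1 : ℝ) / g := by
  have hl := one_le_logV V hV3
  calc ∑ v ∈ Ioc V (V ^ 2), ∑ v' ∈ Ioc V (V ^ 2), ff z (p, (u, v)) (p', (u', v'))
      ≤ ∑ v ∈ Ioc V (V ^ 2), ∑ v' ∈ Ioc V (V ^ 2),
        ∑ g ∈ Gs z V p.1 p.2 (p'.1 * u') (p'.2 + u') u, 4 * (g : ℝ) / ((p.1 * u : ℕ) * (p'.1 * u' : ℕ)) *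
        ((if (g : ℤ) ∣ ((p.1 * u : ℕ) : ℤ) * v - 1 then (1 : ℝ) / v else 0) *
         (if (g : ℤ) ∣ ((p'.1 * u' : ℕ) : ℤ) * v' - 1 then (1 : ℝ) / v' else 0)) :=
        sum_le_sum (fun v hv => sum_le_sum (fun v' hv' =>
          ff_le z R U V p p' u u' v v' hz hR hRU hV hp hp' hu hu' hv hv'))
    _ = ∑ g ∈ Gs z V p.1 p.2 (p'.1 * u') (p'.2 + u') u, 4 * (g : ℝ) / ((p.1 * u : ℕ) * (p'.1 * u' : ℕ)) *
        ((∑ v ∈ Ioc V (V ^ 2), (if (g : ℤ) ∣ ((p.1 * u : ℕ) : ℤ) * v - 1 then (1 : ℝ) / v else 0)) *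
         (∑ v' ∈ Ioc V (V ^ 2), (if (g : ℤ) ∣ ((p'.1 * u' : ℕ) : ℤ) * v' - 1 then (1 : ℝ) / v' else 0))) := by
        rw [sum_congr rfl (fun v _ => sum_comm), sum_comm]
        refine sum_congr rfl (fun g _ => ?_)
        rw [sum_mul_sum, mul_sum]
        refine sum_congr rfl (fun v _ => ?_)
        rw [mul_sum]
    _ ≤ ∑ g ∈ Gs z V p.1 p.2 (p'.1 * u') (p'.2 + u') u,
        16 * Real.log V ^ 2 / ((p.1 * u : ℕ) * (p'.1 * u' : ℕ)) * ((1 : ℝ) / g) := by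
        refine sum_le_sum (fun g hg => ?_)
        have hg' := mem_Icc.mp (mem_filter.mp (mem_filter.mp hg).1).1
        have hg1 : 1 ≤ g := by omega
        have hgR : (0 : ℝ) < g := by exact_mod_cast hg1
        rw [← sum_filter, ← sum_filter]
        have h1 := cls hA (p.1 * u) g V hg1 hg'.2 hV3
        have h2 := cls hA (p'.1 * u') g V hg1 hg'.2 hV3
        have h1n : 0 ≤ ∑ v ∈ (Ioc V (V ^ 2)).filter (fun v : ℕ => (g : ℤ) ∣ ((p.1 * u : ℕ) : ℤ) * v - 1), (1 : ℝ) / v :=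
          sum_nonneg (fun i _ => by positivity)
        have h2n : 0 ≤ ∑ v ∈ (Ioc V (V ^ 2)).filter (fun v : ℕ => (g : ℤ) ∣ ((p'.1 * u' : ℕ) : ℤ) * v - 1), (1 : ℝ) / v :=
          sum_nonneg (fun i _ => by positivity)
        have h3 := mul_le_mul h1 h2 h2n (by positivity)
        have h4 : 0 ≤ 4 * (g : ℝ) / ((p.1 * u : ℕ) * (p'.1 * u' : ℕ)) := by positivity
        refine (mul_le_mul_of_nonneg_left h3 h4).trans (le_of_eq ?_)
        rw [mul_div_assoc, mul_div_assoc]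
        generalize (((p.1 * u : ℕ) : ℝ) * ((p'.1 * u' : ℕ) : ℝ)) = Y
        rcases eq_or_ne Y 0 with hY | hY
        · rw [hY]; simp
        · field_simp
          ring
    _ = 16 * Real.log V ^ 2 / ((p.1 * u : ℕ) * (p'.1 * u' : ℕ)) *
        ∑ g ∈ Gs z V p.1 p.2 (p'.1 * u') (p'.2 + u') u, (1 : ℝ) / g := by rw [mul_sum]

theorem usum (hB1 : RowB1) (C : ℝ) (hB2 : ∀ (z G U : ℕ) (L : ℝ), 1 ≤ z → 1 ≤ G → 1 ≤ U → 0 ≤ L →
    ∑ g ∈ (Icc 2 G).filter (fun g => z < g.minFac),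
      (1 : ℝ) / g * ∑ d ∈ g.divisors, (L * ((Nat.gcd d (g / d) : ℕ) : ℝ) / g + 1 / U)
    ≤ C * L / Real.sqrt z + (1 + Real.log G) ^ 2 / U)
    (z V U P t b s : ℕ) (hz : 1 ≤ z) (hU : 2 ≤ U) (hV : 1 ≤ V) :
    ∑ u ∈ Ioc U (U ^ 2), (1 : ℝ) / u * ∑ g ∈ Gs z V P t b s u, (1 : ℝ) / g ≤
      C * Real.log U / Real.sqrt z + (1 + Real.log V) ^ 2 / U := by
  refine le_trans ?_ (hB2 z V U (Real.log U) hz hV (by omega) (Real.log_natCast_nonneg U))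
  have e1 : ∀ u ∈ Ioc U (U ^ 2), (1 : ℝ) / u * ∑ g ∈ Gs z V P t b s u, (1 : ℝ) / g =
      ∑ g ∈ (Icc 2 V).filter (fun g => z < g.minFac), (1 : ℝ) / u *
        (if Nat.Coprime g (P * b) ∧ (g : ℤ) ∣ (P : ℤ) * u * b * ((t : ℤ) + u - s) + b - P * u
          then (1 : ℝ) / g else 0) := by
    intro u _
    unfold Gs
    rw [sum_filter, mul_sum]
  rw [sum_congr rfl e1, sum_comm]
  refine sum_le_sum (fun g hg => ?_)
  have hg' := mem_Icc.mp (mem_filter.mp hg).1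
  have hg1 : 1 ≤ g := by omega
  have hgR : (0 : ℝ) < g := by exact_mod_cast hg1
  have hlU : 0 ≤ Real.log U := Real.log_natCast_nonneg U
  have hnn : 0 ≤ (1 : ℝ) / g * ∑ d ∈ g.divisors, (Real.log U * ((Nat.gcd d (g / d) : ℕ) : ℝ) / g + 1 / U) :=
    mul_nonneg (by positivity) (sum_nonneg (fun d _ => by positivity))
  by_cases hc : Nat.Coprime g (P * b)
  · have h1 := hB1 P t b s g U hg1 hU hc
    have e2 : ∑ u ∈ Ioc U (U ^ 2), (1 : ℝ) / u *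
        (if Nat.Coprime g (P * b) ∧ (g : ℤ) ∣ (P : ℤ) * u * b * ((t : ℤ) + u - s) + b - P * u
          then (1 : ℝ) / g else 0) =
        (1 : ℝ) / g * ∑ u ∈ (Ioc U (U ^ 2)).filter
          (fun u : ℕ => (g : ℤ) ∣ (P : ℤ) * u * b * ((t : ℤ) + u - s) + b - P * u), (1 : ℝ) / u := by
      rw [sum_filter, mul_sum]
      refine sum_congr rfl (fun u _ => ?_)
      by_cases hd : (g : ℤ) ∣ (P : ℤ) * u * b * ((t : ℤ) + u - s) + b - P * u
      · rw [if_pos ⟨hc, hd⟩, if_pos hd]; ring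
      · rw [if_neg (fun h => hd h.2), if_neg hd]; ring
    rw [e2]
    exact mul_le_mul_of_nonneg_left h1 (by positivity)
  · refine le_trans (le_of_eq ?_) hnn
    refine sum_eq_zero (fun u _ => ?_)
    rw [if_neg (fun h => hc h.1), mul_zero]

theorem v1s : RowA → RowB1 → RowB2 → RowV1s := by
  intro hA hB1 hB2'
  obtain ⟨C, hC, hB2⟩ := hB2'
  refine ⟨32 * (C + 4), by positivity, ?_⟩
  intro z R U V T hz hR hRU hV hT
  have hU : 4 ≤ U := le_trans (by nlinarith) hRU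
  have hV3 : 3 ≤ V := by
    have h1 : 2 ^ 4 * 4 ^ 8 ≤ R ^ 4 * U ^ 8 := Nat.mul_le_mul (Nat.pow_le_pow_left hR 4) (Nat.pow_le_pow_left hU 8)
    have h2 : (3 : ℕ) ≤ 2 ^ 4 * 4 ^ 8 := by norm_num
    omega
  have hlV := one_le_logV V hV3
  have hlU := one_le_logV U (by omega)
  set L := Real.log V with hL
  set E : ℝ := C * Real.log U / Real.sqrt z + (1 + L) ^ 2 / U with hE
  have hzR : (0 : ℝ) < Real.sqrt z := Real.sqrt_pos.mpr (by exact_mod_cast (by omega : 0 < z))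
  have hUR : (0 : ℝ) < U := by exact_mod_cast (by omega : 0 < U)
  have hE0 : 0 ≤ E := by positivity
  -- step 1: the sum over all indices
  have s1 : ∑ i ∈ Idx T U V, ∑ j ∈ (Idx T U V).filter
        (fun j => ¬ (j.1 = i.1 ∧ j.2.1 = i.2.1) ∧
          z < (Nat.gcd (mo i) (mo j)).minFac ∧ re i ≡ re j [MOD Nat.gcd (mo i) (mo j)]),
        ((Nat.gcd (mo i) (mo j) : ℕ) : ℝ) / ((mo i : ℝ) * mo j)
      = ∑ i ∈ Idx T U V, ∑ j ∈ Idx T U V, ff z i j := by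
    refine sum_congr rfl (fun i _ => ?_)
    rw [sum_filter]
    rfl
  have s2 : ∑ i ∈ Idx T U V, ∑ j ∈ Idx T U V, ff z i j =
      ∑ p ∈ T, ∑ u ∈ Ioc U (U ^ 2), ∑ p' ∈ T, ∑ u' ∈ Ioc U (U ^ 2),
        ∑ v ∈ Ioc V (V ^ 2), ∑ v' ∈ Ioc V (V ^ 2), ff z (p, (u, v)) (p', (u', v')) := by
    unfold Idx
    rw [sum_product]
    refine sum_congr rfl (fun p _ => ?_)
    rw [sum_product]
    refine sum_congr rfl (fun u _ => ?_)
    rw [sum_congr rfl (fun v _ => sum_product (s := T) (t := Ioc U (U ^ 2) ×ˢ Ioc V (V ^ 2))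
      (f := fun j => ff z (p, (u, v)) j)), sum_comm]
    refine sum_congr rfl (fun p' _ => ?_)
    rw [sum_congr rfl (fun v _ => sum_product (s := Ioc U (U ^ 2)) (t := Ioc V (V ^ 2))
      (f := fun w => ff z (p, (u, v)) (p', w))), sum_comm]
  have s3 : ∑ p ∈ T, ∑ u ∈ Ioc U (U ^ 2), ∑ p' ∈ T, ∑ u' ∈ Ioc U (U ^ 2),
        ∑ v ∈ Ioc V (V ^ 2), ∑ v' ∈ Ioc V (V ^ 2), ff z (p, (u, v)) (p', (u', v')) ≤
      ∑ p ∈ T, ∑ u ∈ Ioc U (U ^ 2), ∑ p' ∈ T, ∑ u' ∈ Ioc U (U ^ 2),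
        16 * L ^ 2 / ((p.1 * u : ℕ) * (p'.1 * u' : ℕ)) *
        ∑ g ∈ Gs z V p.1 p.2 (p'.1 * u') (p'.2 + u') u, (1 : ℝ) / g :=
    sum_le_sum (fun p hp => sum_le_sum (fun u hu => sum_le_sum (fun p' hp' => sum_le_sum (fun u' hu' =>
      pair_le hA z R U V p p' u u' hz hR hRU hV hV3 (hT p hp) (hT p' hp') hu hu'))))
  have s4 : ∑ p ∈ T, ∑ u ∈ Ioc U (U ^ 2), ∑ p' ∈ T, ∑ u' ∈ Ioc U (U ^ 2),
        16 * L ^ 2 / ((p.1 * u : ℕ) * (p'.1 * u' : ℕ)) *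
        ∑ g ∈ Gs z V p.1 p.2 (p'.1 * u') (p'.2 + u') u, (1 : ℝ) / g =
      ∑ p ∈ T, ∑ p' ∈ T, ∑ u' ∈ Ioc U (U ^ 2), 16 * L ^ 2 * ((1 : ℝ) / p.1) * ((1 : ℝ) / p'.1) * ((1 : ℝ) / u') *
        ∑ u ∈ Ioc U (U ^ 2), (1 : ℝ) / u * ∑ g ∈ Gs z V p.1 p.2 (p'.1 * u') (p'.2 + u') u, (1 : ℝ) / g := by
    refine sum_congr rfl (fun p _ => ?_)
    rw [sum_comm]
    refine sum_congr rfl (fun p' _ => ?_)
    rw [sum_comm]
    refine sum_congr rfl (fun u' _ => ?_)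
    rw [mul_sum]
    refine sum_congr rfl (fun u _ => ?_)
    push_cast
    simp only [div_eq_mul_inv, mul_inv, one_mul]
    ring
  have s5 : ∑ p ∈ T, ∑ p' ∈ T, ∑ u' ∈ Ioc U (U ^ 2), 16 * L ^ 2 * ((1 : ℝ) / p.1) * ((1 : ℝ) / p'.1) * ((1 : ℝ) / u') *
        ∑ u ∈ Ioc U (U ^ 2), (1 : ℝ) / u * ∑ g ∈ Gs z V p.1 p.2 (p'.1 * u') (p'.2 + u') u, (1 : ℝ) / g ≤
      ∑ p ∈ T, ∑ p' ∈ T, ∑ u' ∈ Ioc U (U ^ 2), 16 * L ^ 2 * ((1 : ℝ) / p.1) * ((1 : ℝ) / p'.1) * ((1 : ℝ) / u') * E := by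
    refine sum_le_sum (fun p _ => sum_le_sum (fun p' _ => sum_le_sum (fun u' _ => ?_)))
    exact mul_le_mul_of_nonneg_left
      (usum hB1 C hB2 z V U p.1 p.2 (p'.1 * u') (p'.2 + u') hz (by omega) (by omega)) (by positivity)
  have s6 : ∑ p ∈ T, ∑ p' ∈ T, ∑ u' ∈ Ioc U (U ^ 2), 16 * L ^ 2 * ((1 : ℝ) / p.1) * ((1 : ℝ) / p'.1) * ((1 : ℝ) / u') * E =
      16 * L ^ 2 * E * (∑ p ∈ T, (1 : ℝ) / p.1) ^ 2 * ∑ u' ∈ Ioc U (U ^ 2), (1 : ℝ) / u' := by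
    have e1 : ∀ p ∈ T, ∀ p' ∈ T, ∑ u' ∈ Ioc U (U ^ 2),
        16 * L ^ 2 * ((1 : ℝ) / p.1) * ((1 : ℝ) / p'.1) * ((1 : ℝ) / u') * E =
        (16 * L ^ 2 * E * ∑ u' ∈ Ioc U (U ^ 2), (1 : ℝ) / u') * (((1 : ℝ) / p.1) * ((1 : ℝ) / p'.1)) := by
      intro p _ p' _
      rw [mul_sum, sum_mul]
      refine sum_congr rfl (fun u' _ => ?_)
      ring
    rw [sum_congr rfl (fun p hp => sum_congr rfl (fun p' hp' => e1 p hp p' hp'))]
    simp_rw [← mul_sum]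
    rw [← sum_mul]
    ring
  have s7 : ∑ u' ∈ Ioc U (U ^ 2), (1 : ℝ) / u' ≤ 2 * Real.log U := by
    have h1 := hA U 1 0 (by omega) le_rfl
    have h2 : (Ioc U (U ^ 2)).filter (fun v => v ≡ 0 [MOD 1]) = Ioc U (U ^ 2) := by
      refine filter_true_of_mem (fun v _ => Nat.modEq_one)
    rw [h2] at h1
    have h3 : (1 : ℝ) / U ≤ Real.log U := by
      have h4 : (1 : ℝ) / U ≤ 1 := by
        rw [div_le_one hUR]
        exact_mod_cast (by omega : 1 ≤ U)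
      linarith
    have h5 : Real.log U / ((1 : ℕ) : ℝ) = Real.log U := by simp
    rw [h5] at h1
    linarith
  have hE1 : E ≤ (C + 4) * (Real.log U / Real.sqrt z + L ^ 2 / U) := by
    have h1 : (1 + L) ^ 2 ≤ 4 * L ^ 2 := by nlinarith
    have h2 : (1 + L) ^ 2 / U ≤ 4 * (L ^ 2 / U) := by
      rw [← mul_div_assoc]
      exact div_le_div_of_nonneg_right h1 hUR.le
    have h3 : 0 ≤ Real.log U / Real.sqrt z := by positivity
    have h4 : 0 ≤ L ^ 2 / U := by positivity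
    rw [hE]
    have h5 : C * Real.log U / Real.sqrt z = C * (Real.log U / Real.sqrt z) := by ring
    rw [h5]
    nlinarith [mul_nonneg hC.le h4, mul_nonneg hC.le h3]
  have hW0 : 0 ≤ (∑ p ∈ T, (1 : ℝ) / p.1) ^ 2 := sq_nonneg _
  calc _ = _ := s1
    _ = _ := s2
    _ ≤ _ := s3
    _ = _ := s4
    _ ≤ _ := s5
    _ = _ := s6
    _ ≤ 16 * L ^ 2 * ((C + 4) * (Real.log U / Real.sqrt z + L ^ 2 / U)) * (∑ p ∈ T, (1 : ℝ) / p.1) ^ 2 *
          (2 * Real.log U) := by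
        refine mul_le_mul ?_ s7 (sum_nonneg (fun i _ => by positivity)) (by positivity)
        refine mul_le_mul_of_nonneg_right ?_ hW0
        exact mul_le_mul_of_nonneg_left hE1 (by positivity)
    _ = _ := by ring

end Pool.Agent.SPA.V1s20
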