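import Pool.Agent.SPA.H46d
import Pool.Agent.SPA.A46
import Pool.Agent.SPA.B120
import Pool.Agent.SPA.B277
import Pool.Agent.SPA.C17
import Pool.Agent.SPA.D3
import Pool.Agent.SPA.F54
import Pool.Agent.SPA.V0s75
import Pool.Agent.SPA.V1s20
import Pool.Agent.SPA.S13
import Pool.Agent.SPA.S20

/-!
# The finite statement from the rows
-/

set_option autoImplicit false

namespace Pool.Agent.SPA

theorem rowS46 : RowS := S20.s_of (fun A z N t S h1 h2 h3 => s1 A z N t S h1 h2 h3)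
  (fun p _ V δ h1 h2 h3 => dyad p V δ h1 h2 h3)

theorem all46 : ∃ C c K : ℝ, 0 < C ∧ 0 < c ∧ c ≤ 1 ∧ 1 ≤ K ∧ Core2 C c K := by
  obtain ⟨c, K, hc, hc1, hK, hS⟩ := rowS46
  obtain ⟨C, hC, h⟩ := core2 D3.d f hc hc1 hS (v0s (Pool.Agent.SPA.c a46)) (V1s20.v1s a46 (b1 a46) b2)
  exact ⟨C, c, K, hC, hc, hc1, hK, h⟩

end Pool.Agent.SPA
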