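import Pool.Agent.SPA.Stmts8

/-!
# Row As8 (helper69)
-/

set_option autoImplicit false

namespace Pool.Agent.SPA.As869

open Finset Filter

theorem ev (k : ℕ) (q D ε : ℝ) (hq0 : 0 < q) (hq1 : q < 1) (hε : 0 < ε) :
    ∀ᶠ n : ℕ in atTop, D * ((n : ℝ) ^ k * q ^ n) ≤ ε := by
  have h := tendsto_pow_const_mul_const_pow_of_abs_lt_one k (r := q) (by rw [abs_of_pos hq0]; exact hq1)
  have h2 := h.const_mul D
  rw [mul_zero] at h2
  exact (h2.eventually_le_const hε)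

theorem exp4_lt : Real.exp (1 / 4) < Real.sqrt 3 := by
  have h1 : Real.exp (1 / 4) ^ 4 = Real.exp 1 := by
    rw [← Real.exp_nat_mul]
    norm_num
  have h2 := Real.exp_one_lt_d9
  have h3 : Real.sqrt 3 ^ 4 = 9 := by
    have : Real.sqrt 3 ^ 2 = 3 := Real.sq_sqrt (by norm_num)
    calc Real.sqrt 3 ^ 4 = (Real.sqrt 3 ^ 2) ^ 2 := by ring
      _ = 9 := by rw [this]; norm_num
  refine lt_of_pow_lt_pow_left₀ 4 (Real.sqrt_nonneg 3) ?_
  rw [h1, h3]
  linarith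

theorem expr (r : ℕ) : Real.exp (((r : ℝ) + 1) / 4) = Real.exp (1 / 4) * Real.exp (1 / 4) ^ r := by
  rw [← Real.exp_nat_mul, ← Real.exp_add]
  congr 1
  ring

theorem ev2 (c : ℝ) (hc : 0 < c) : ∀ᶠ r : ℕ in atTop,
    ((r : ℝ) * Real.log 3) ^ 3 * Real.exp (((r : ℝ) + 1) / 4) ≤ c * 3 ^ r := by
  have hs : Real.sqrt 3 < 3 := by
    rw [Real.sqrt_lt' (by norm_num)]
    norm_num
  have hq : Real.exp (1 / 4) / 3 < 1 := by
    rw [div_lt_one (by norm_num)]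
    exact exp4_lt.trans hs
  filter_upwards [ev 3 (Real.exp (1 / 4) / 3) (Real.log 3 ^ 3 * Real.exp (1 / 4)) c (by positivity) hq hc] with r hr
  have h3 : (0 : ℝ) < 3 ^ r := by positivity
  calc ((r : ℝ) * Real.log 3) ^ 3 * Real.exp (((r : ℝ) + 1) / 4)
      = (Real.log 3 ^ 3 * Real.exp (1 / 4) * ((r : ℝ) ^ 3 * (Real.exp (1 / 4) / 3) ^ r)) * 3 ^ r := by
        rw [expr, div_pow]
        field_simp
    _ ≤ c * 3 ^ r := mul_le_mul_of_nonneg_right hr h3.le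

theorem ev3 : ∀ᶠ r : ℕ in atTop,
    ((r : ℝ) * Real.log 3) ^ 6 * Real.exp (((r : ℝ) + 1) / 4) ≤ Real.sqrt 3 ^ r := by
  have hs0 : 0 < Real.sqrt 3 := Real.sqrt_pos.2 (by norm_num)
  have hq : Real.exp (1 / 4) / Real.sqrt 3 < 1 := by
    rw [div_lt_one hs0]
    exact exp4_lt
  filter_upwards [ev 6 (Real.exp (1 / 4) / Real.sqrt 3) (Real.log 3 ^ 6 * Real.exp (1 / 4)) 1 (by positivity) hq one_pos]
    with r hr
  have h3 : 0 < Real.sqrt 3 ^ r := by positivity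
  calc ((r : ℝ) * Real.log 3) ^ 6 * Real.exp (((r : ℝ) + 1) / 4)
      = (Real.log 3 ^ 6 * Real.exp (1 / 4) * ((r : ℝ) ^ 6 * (Real.exp (1 / 4) / Real.sqrt 3) ^ r)) * Real.sqrt 3 ^ r := by
        rw [expr, div_pow]
        field_simp
    _ ≤ 1 * Real.sqrt 3 ^ r := mul_le_mul_of_nonneg_right hr h3.le
    _ = _ := one_mul _

theorem log_ge_one {x : ℝ} (hx : 16 ≤ x) : 1 ≤ Real.log (Real.log x) := by
  have h1 := Real.exp_one_lt_d9
  have h2 := Real.log_two_gt_d9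
  have h3 : Real.log 16 = 4 * Real.log 2 := by
    rw [show (16 : ℝ) = 2 ^ 4 by norm_num, Real.log_pow]
    norm_num
  have h4 : Real.log 16 ≤ Real.log x := Real.log_le_log (by norm_num) hx
  have h5 : Real.exp 1 ≤ Real.log x := by
    rw [h3] at h4
    linarith
  rw [Real.le_log_iff_exp_le (lt_of_lt_of_le (Real.exp_pos 1) h5)]
  exact h5

theorem as8 : RowAs8 := by
  intro C c K hC hc hc1 hK hcore hG
  obtain ⟨C₁, hC₁, hG⟩ := hG
  obtain ⟨m, hm⟩ := exists_nat_ge (6 * K)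
  obtain ⟨r₀, hr₀⟩ := eventually_atTop.1 (((ev2 c hc).and ev3).and
    ((eventually_ge_atTop (2 ^ m)).and (eventually_ge_atTop 1)))
  have hC₁r : (1 : ℝ) ≤ C₁ := by exact_mod_cast hC₁
  set c₀ : ℝ := 1 / (24 * C₁) with hc₀
  have hc₀p : 0 < c₀ := by rw [hc₀]; positivity
  have hc₀1 : c₀ ≤ 1 := by
    rw [hc₀, div_le_one (by positivity)]
    linarith
  set u : ℕ → ℝ := fun x => Real.sqrt (Real.log x) / Real.log (Real.log x) with hu
  have hexpr : ∀ x : ℕ, c₀ / 4 * Real.sqrt (Real.log x) / Real.log (Real.log x) = c₀ / 4 * u x := by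
    intro x
    rw [hu]
    simp only
    ring
  have hSm : 0 ≤ ∑ j ∈ range 16, Real.exp (c₀ / 4 * u j) := Finset.sum_nonneg fun j _ => (Real.exp_pos _).le
  refine ⟨c₀ / 4, (∑ j ∈ range 16, Real.exp (c₀ / 4 * u j)) + Real.exp (((r₀ : ℝ) + 1) / 4) + 13 + 3377 * C / c ^ 2,
    by positivity, ?_⟩
  intro x hx
  rw [hexpr x]
  have hx1 : (1 : ℝ) ≤ x := by exact_mod_cast (by omega : 1 ≤ x)
  have hx0 : (0 : ℝ) < x := by linarith
  set e : ℝ := Real.exp (-(c₀ / 4 * u x)) with he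
  have he0 : 0 < e := Real.exp_pos _
  have hc2 : 0 < 3377 * C / c ^ 2 := by positivity
  have hxe0 : 0 < (x : ℝ) * e := by positivity
  have hcard : (((Icc 2 x).filter (fun k => (Pool.Agent.SPM.N k : ℝ) < Real.exp (c₀ / 4 * u x))).card : ℝ) ≤ x := by
    have h1 : ((Icc 2 x).filter (fun k => (Pool.Agent.SPM.N k : ℝ) < Real.exp (c₀ / 4 * u x))).card ≤ (Icc 2 x).card :=
      card_le_card (filter_subset _ _)
    have h2 : (Icc 2 x).card ≤ x := by
      rw [Nat.card_Icc]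
      omega
    exact_mod_cast h1.trans h2
  have hE0 : 0 < Real.exp (((r₀ : ℝ) + 1) / 4) := Real.exp_pos _
  by_cases hx16 : x < 16
  · have h1 : Real.exp (c₀ / 4 * u x) ≤ ∑ j ∈ range 16, Real.exp (c₀ / 4 * u j) :=
      Finset.single_le_sum (f := fun j => Real.exp (c₀ / 4 * u j)) (fun j _ => (Real.exp_pos _).le) (mem_range.2 hx16)
    have h2 : Real.exp (c₀ / 4 * u x) * e = 1 := by
      rw [he, ← Real.exp_add, add_neg_cancel, Real.exp_zero]
    have h3 : 1 ≤ (∑ j ∈ range 16, Real.exp (c₀ / 4 * u j)) * e := by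
      rw [← h2]
      exact mul_le_mul_of_nonneg_right h1 he0.le
    have h4 : 0 ≤ (Real.exp (((r₀ : ℝ) + 1) / 4) + 13 + 3377 * C / c ^ 2) * (x * e) := by positivity
    calc _ ≤ (x : ℝ) := hcard
      _ = 1 * x := (one_mul _).symm
      _ ≤ ((∑ j ∈ range 16, Real.exp (c₀ / 4 * u j)) * e) * x := mul_le_mul_of_nonneg_right h3 hx0.le
      _ ≤ ((∑ j ∈ range 16, Real.exp (c₀ / 4 * u j)) * e) * x +
          (Real.exp (((r₀ : ℝ) + 1) / 4) + 13 + 3377 * C / c ^ 2) * (x * e) := by linarith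
      _ = _ := by ring
  push Not at hx16
  have hx16r : (16 : ℝ) ≤ x := by exact_mod_cast hx16
  set l : ℝ := Real.log (Real.log x) with hl
  have hl1 : 1 ≤ l := log_ge_one hx16r
  have hl0 : 0 < l := by linarith
  have hlogpos : 0 < Real.log x := Real.log_pos (by linarith)
  have hlog1 : 1 ≤ Real.log x := by
    have : l ≤ Real.log x - 1 := Real.log_le_sub_one_of_pos hlogpos
    linarith
  set s : ℝ := Real.sqrt (Real.log x) with hs
  have hs1 : 1 ≤ s := by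
    rw [hs, Real.one_le_sqrt]
    exact hlog1
  have hs2 : s ^ 2 = Real.log x := Real.sq_sqrt hlogpos.le
  have hux : u x = s / l := rfl
  set y : ℝ := u x with hy
  have hy0 : 0 ≤ y := by rw [hux]; positivity
  have hyl : y * l = s := by
    rw [hux]
    field_simp
  have hys : y ≤ s := by
    calc y = y * 1 := (mul_one y).symm
      _ ≤ y * l := mul_le_mul_of_nonneg_left hl1 hy0
      _ = s := hyl
  set r : ℕ := ⌊c₀ * y⌋₊ with hr
  have hr1 : (r : ℝ) ≤ c₀ * y := Nat.floor_le (by positivity)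
  have hr2 : c₀ * y < (r : ℝ) + 1 := Nat.lt_floor_add_one _
  have hyr : c₀ / 4 * y ≤ ((r : ℝ) + 1) / 4 := by linarith
  have her : Real.exp (-(((r : ℝ) + 1) / 4)) ≤ e := Real.exp_le_exp.2 (by linarith)
  by_cases hlt : r < r₀
  · -- small `x`
    have h1 : Real.exp (-(((r₀ : ℝ) + 1) / 4)) ≤ e := by
      refine le_trans (Real.exp_le_exp.2 ?_) her
      have : (r : ℝ) ≤ r₀ := by exact_mod_cast hlt.le
      linarith
    have h2 : 1 ≤ Real.exp (((r₀ : ℝ) + 1) / 4) * e := by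
      calc (1 : ℝ) = Real.exp (((r₀ : ℝ) + 1) / 4) * Real.exp (-(((r₀ : ℝ) + 1) / 4)) := by
            rw [← Real.exp_add, add_neg_cancel, Real.exp_zero]
        _ ≤ _ := mul_le_mul_of_nonneg_left h1 (Real.exp_pos _).le
    have h4 : 0 ≤ ((∑ j ∈ range 16, Real.exp (c₀ / 4 * u j)) + 13 + 3377 * C / c ^ 2) * (x * e) :=
      mul_nonneg (by linarith) hxe0.le
    calc _ ≤ (x : ℝ) := hcard
      _ = 1 * x := (one_mul _).symm
      _ ≤ (Real.exp (((r₀ : ℝ) + 1) / 4) * e) * x := mul_le_mul_of_nonneg_right h2 hx0.le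
      _ ≤ (Real.exp (((r₀ : ℝ) + 1) / 4) * e) * x +
          ((∑ j ∈ range 16, Real.exp (c₀ / 4 * u j)) + 13 + 3377 * C / c ^ 2) * (x * e) := by linarith
      _ = _ := by ring
  push Not at hlt
  obtain ⟨⟨hE2, hE3⟩, hmr, h1r⟩ := hr₀ r hlt
  have hr0 : (1 : ℝ) ≤ r := by exact_mod_cast h1r
  obtain ⟨T, hT, hW3⟩ := hG r h1r
  set W : ℝ := ∑ p ∈ T, (1 : ℝ) / p.1 with hWd
  set R : ℕ := 2 ^ (C₁ * r ^ 2 * (Nat.log 2 r + 1) ^ 2) with hRd
  set g : ℝ := (Nat.log 2 r : ℝ) + 1 with hg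
  have hl2 := Real.log_two_gt_d9
  have hl2' := Real.log_two_lt_d9
  have hg1 : 1 ≤ g := by
    rw [hg]
    have : (0 : ℝ) ≤ (Nat.log 2 r : ℝ) := Nat.cast_nonneg _
    linarith
  have hgK : 6 * K ≤ g := by
    have h1 : m ≤ Nat.log 2 r := by
      have := Nat.log_mono_right (b := 2) hmr
      rwa [Nat.log_pow (by norm_num)] at this
    have h2 : (m : ℝ) ≤ (Nat.log 2 r : ℝ) := by exact_mod_cast h1
    rw [hg]
    linarith
  have hgl : g ≤ 2 * l := by
    have h1 : 2 ^ Nat.log 2 r ≤ r := Nat.pow_log_le_self 2 (by omega)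
    have h2 : ((2 : ℝ)) ^ Nat.log 2 r ≤ r := by exact_mod_cast h1
    have h3 : (Nat.log 2 r : ℝ) * Real.log 2 ≤ Real.log r := by
      rw [← Real.log_pow]
      exact Real.log_le_log (by positivity) h2
    have h4 : (r : ℝ) ≤ s := by
      calc (r : ℝ) ≤ c₀ * y := hr1
        _ ≤ 1 * y := mul_le_mul_of_nonneg_right hc₀1 hy0
        _ ≤ s := by rw [one_mul]; exact hys
    have h5 : Real.log r ≤ l / 2 := by
      have h6 : Real.log r ≤ Real.log s := Real.log_le_log (by linarith) h4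
      have h7 : Real.log s = l / 2 := by
        rw [hs, Real.log_sqrt hlogpos.le]
      rw [h7] at h6
      exact h6
    have h8 : (0 : ℝ) ≤ (Nat.log 2 r : ℝ) := Nat.cast_nonneg _
    have h9 : (Nat.log 2 r : ℝ) * (1 / 2) ≤ l / 2 := by
      refine le_trans ?_ (h3.trans h5)
      exact mul_le_mul_of_nonneg_left (by linarith) h8
    rw [hg]
    linarith
  have hlog3 : 0 < Real.log 3 := Real.log_pos (by norm_num)
  have hlog3' : Real.log 3 ≤ 2 := by
    have := Real.log_le_sub_one_of_pos (show (0 : ℝ) < 3 by norm_num)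
    linarith
  have hz : Real.log ((3 ^ r : ℕ) : ℝ) = r * Real.log 3 := by
    push_cast
    rw [Real.log_pow]
  have hRlog : Real.log (R : ℝ) = C₁ * (r : ℝ) ^ 2 * g ^ 2 * Real.log 2 := by
    rw [hRd, hg]
    push_cast
    rw [Real.log_pow]
    push_cast
    ring
  have hexpnat : r ≤ C₁ * r ^ 2 * (Nat.log 2 r + 1) ^ 2 := by
    calc r = 1 * (r * 1) * 1 := by ring
      _ ≤ C₁ * (r * r) * (Nat.log 2 r + 1) ^ 2 := by
          apply Nat.mul_le_mul
          · exact Nat.mul_le_mul hC₁ (Nat.mul_le_mul_left r h1r)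
          · exact Nat.one_le_pow _ _ (by omega)
      _ = C₁ * r ^ 2 * (Nat.log 2 r + 1) ^ 2 := by ring
  have hm1 : 2 ≤ r := by
    have h1 : (1 : ℝ) ≤ m := by linarith
    have h2 : 1 ≤ m := by exact_mod_cast h1
    calc 2 = 2 ^ 1 := (pow_one 2).symm
      _ ≤ 2 ^ m := Nat.pow_le_pow_right (by norm_num) h2
      _ ≤ r := hmr
  have hR1 : (3 : ℕ) ≤ R := by
    calc 3 ≤ 2 ^ 2 := by norm_num
      _ ≤ R := Nat.pow_le_pow_right (by norm_num) (hm1.trans hexpnat)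
  have hz3 : 3 ≤ 3 ^ r := by
    calc 3 = 3 ^ 1 := (pow_one 3).symm
      _ ≤ 3 ^ r := Nat.pow_le_pow_right (by norm_num) h1r
  have hK2 : K * Real.log ((3 ^ r : ℕ) : ℝ) ^ 2 ≤ Real.log R := by
    rw [hz, hRlog]
    have h1 : K * ((r : ℝ) * Real.log 3) ^ 2 ≤ K * (r * 2) ^ 2 := by
      apply mul_le_mul_of_nonneg_left _ (by linarith)
      apply pow_le_pow_left₀ (by positivity)
      exact mul_le_mul_of_nonneg_left hlog3' (by positivity)
    have h2 : 6 * K ≤ g ^ 2 := by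
      calc 6 * K ≤ g := hgK
        _ = g * 1 := (mul_one g).symm
        _ ≤ g * g := mul_le_mul_of_nonneg_left hg1 (by linarith)
        _ = g ^ 2 := (pow_two g).symm
    have h3 : 0 < (r : ℝ) ^ 2 := by positivity
    have h4 : K * ((r : ℝ) * 2) ^ 2 ≤ (r : ℝ) ^ 2 * g ^ 2 * (2 / 3) := by
      calc K * ((r : ℝ) * 2) ^ 2 = (r : ℝ) ^ 2 * (4 * K) := by ring
        _ ≤ (r : ℝ) ^ 2 * (g ^ 2 * (2 / 3)) := mul_le_mul_of_nonneg_left (by linarith) h3.le
        _ = _ := by ring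
    have h5 : (r : ℝ) ^ 2 * g ^ 2 * (2 / 3) ≤ (r : ℝ) ^ 2 * g ^ 2 * Real.log 2 :=
      mul_le_mul_of_nonneg_left (by linarith) (by positivity)
    have h6 : (r : ℝ) ^ 2 * g ^ 2 * Real.log 2 ≤ C₁ * ((r : ℝ) ^ 2 * g ^ 2 * Real.log 2) := by
      have : 0 ≤ (r : ℝ) ^ 2 * g ^ 2 * Real.log 2 := by positivity
      exact le_mul_of_one_le_left this hC₁r
    calc _ ≤ _ := h1
      _ ≤ _ := h4
      _ ≤ _ := h5
      _ ≤ _ := h6
      _ = _ := by ring
  set δ : ℝ := c / Real.log ((3 ^ r : ℕ) : ℝ) ^ 3 with hδ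
  have hrl : 0 < (r : ℝ) * Real.log 3 := by positivity
  have hδ0 : 0 < δ := by
    rw [hδ, hz]
    positivity
  have hexp1 : 1 ≤ Real.exp (((r : ℝ) + 1) / 4) := Real.one_le_exp (by positivity)
  have hδW : Real.exp (((r : ℝ) + 1) / 4) ≤ δ * W := by
    have h1 : Real.exp (((r : ℝ) + 1) / 4) ≤ δ * 3 ^ r := by
      rw [hδ, hz, div_mul_eq_mul_div, le_div_iff₀ (by positivity), mul_comm]
      exact hE2
    exact h1.trans (mul_le_mul_of_nonneg_left hW3 hδ0.le)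
  have hmain := hcore (3 ^ r) R x T hz3 hR1 hK2 hT (by
    rw [← hδ, ← hWd]
    exact hexp1.trans hδW)
  rw [← hδ, ← hWd] at hmain
  -- inclusion
  have hincl : (((Icc 2 x).filter (fun k => (Pool.Agent.SPM.N k : ℝ) < Real.exp (c₀ / 4 * y))).card : ℝ) ≤
      (((Icc 2 x).filter (fun k => (Pool.Agent.SPM.N k : ℝ) < 10 * δ * W)).card : ℝ) := by
    have : ((Icc 2 x).filter (fun k => (Pool.Agent.SPM.N k : ℝ) < Real.exp (c₀ / 4 * y))) ⊆
        ((Icc 2 x).filter (fun k => (Pool.Agent.SPM.N k : ℝ) < 10 * δ * W)) := by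
      intro k hk
      rw [mem_filter] at hk ⊢
      refine ⟨hk.1, hk.2.trans_le ?_⟩
      have h1 : Real.exp (c₀ / 4 * y) ≤ Real.exp (((r : ℝ) + 1) / 4) := Real.exp_le_exp.2 hyr
      have h2 : 0 < δ * W := lt_of_lt_of_le (Real.exp_pos _) hδW
      calc Real.exp (c₀ / 4 * y) ≤ δ * W := h1.trans hδW
        _ ≤ 10 * (δ * W) := by linarith
        _ = 10 * δ * W := by ring
    exact_mod_cast card_le_card this
  -- the first term
  have hxe : (x : ℝ) = Real.exp (s ^ 2) := by rw [hs2, Real.exp_log hx0]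
  have hR94 : (R : ℝ) ^ 94 ≤ Real.exp (s ^ 2 / 2) := by
    have hR0 : (0 : ℝ) < R := by exact_mod_cast (by omega : 0 < R)
    have h1 : (R : ℝ) ^ 94 = Real.exp (94 * Real.log R) := by
      rw [mul_comm, ← Real.rpow_def_of_pos hR0]
      norm_cast
    rw [h1, hRlog]
    apply Real.exp_le_exp.2
    have h2 : (r : ℝ) * g ≤ c₀ * y * (2 * l) := mul_le_mul hr1 hgl (by linarith) (by positivity)
    have h3 : c₀ * y * (2 * l) = 2 * c₀ * s := by rw [← hyl]; ring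
    rw [h3] at h2
    have h4 : ((r : ℝ) * g) ^ 2 ≤ (2 * c₀ * s) ^ 2 := pow_le_pow_left₀ (by positivity) h2 2
    have h5 : (2 * c₀ * s) ^ 2 = s ^ 2 / (144 * C₁ ^ 2) := by
      rw [hc₀]
      field_simp
      norm_num
    rw [h5] at h4
    have h6 : C₁ * (r : ℝ) ^ 2 * g ^ 2 ≤ s ^ 2 / 144 := by
      calc C₁ * (r : ℝ) ^ 2 * g ^ 2 = C₁ * ((r : ℝ) * g) ^ 2 := by ring
        _ ≤ C₁ * (s ^ 2 / (144 * C₁ ^ 2)) := mul_le_mul_of_nonneg_left h4 (by linarith)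
        _ = s ^ 2 / 144 / C₁ := by field_simp
        _ ≤ s ^ 2 / 144 := div_le_self (by positivity) hC₁r
    have h7 : 0 ≤ C₁ * (r : ℝ) ^ 2 * g ^ 2 := by positivity
    have h8 : 0 ≤ s ^ 2 := by positivity
    calc 94 * (C₁ * (r : ℝ) ^ 2 * g ^ 2 * Real.log 2) ≤ 94 * (C₁ * (r : ℝ) ^ 2 * g ^ 2 * (7 / 10)) := by
          apply mul_le_mul_of_nonneg_left _ (by norm_num)
          exact mul_le_mul_of_nonneg_left (by linarith) h7
      _ ≤ 94 * (s ^ 2 / 144 * (7 / 10)) := by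
          apply mul_le_mul_of_nonneg_left _ (by norm_num)
          exact mul_le_mul_of_nonneg_right h6 (by norm_num)
      _ ≤ s ^ 2 / 2 := by linarith
  have hfirst : 13 * (R : ℝ) ^ 94 ≤ 13 * (x * e) := by
    have h1 : Real.exp (s ^ 2 / 2) ≤ x * e := by
      rw [hxe, he, ← Real.exp_add]
      apply Real.exp_le_exp.2
      have h2 : s ≤ s ^ 2 := by
        calc s = s * 1 := (mul_one s).symm
          _ ≤ s * s := mul_le_mul_of_nonneg_left hs1 (by linarith)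
          _ = s ^ 2 := (pow_two s).symm
      have h3 : c₀ / 4 * y ≤ 1 / 4 * s := by
        apply mul_le_mul _ hys hy0 (by norm_num)
        linarith
      linarith
    linarith
  -- the second term
  have hs0 : 0 < Real.sqrt 3 := Real.sqrt_pos.2 (by norm_num)
  have hs3 : Real.sqrt 3 ≤ 3 := by
    rw [Real.sqrt_le_left (by norm_num)]
    norm_num
  have hsz : Real.sqrt ((3 ^ r : ℕ) : ℝ) = Real.sqrt 3 ^ r := by
    push_cast
    rw [Real.sqrt_eq_iff_mul_self_eq (by positivity) (by positivity), ← mul_pow, Real.mul_self_sqrt (by norm_num)]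
  have hsW : Real.sqrt 3 ^ r ≤ W := (pow_le_pow_left₀ hs0.le hs3 r).trans hW3
  have hsR : Real.sqrt 3 ^ r ≤ (R : ℝ) := by
    have h1 : Real.sqrt 3 ≤ 2 := by
      rw [Real.sqrt_le_left (by norm_num)]
      norm_num
    calc Real.sqrt 3 ^ r ≤ 2 ^ r := pow_le_pow_left₀ hs0.le h1 r
      _ ≤ 2 ^ (C₁ * r ^ 2 * (Nat.log 2 r + 1) ^ 2) := pow_le_pow_right₀ (by norm_num) hexpnat
      _ = (R : ℝ) := by rw [hRd]; push_cast; rfl
  have hsp : 0 < Real.sqrt 3 ^ r := by positivity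
  have hsum : 16 / Real.sqrt ((3 ^ r : ℕ) : ℝ) + 3360 / (R : ℝ) + 1 / W ≤ 3377 / Real.sqrt 3 ^ r := by
    rw [hsz]
    have h1 : 3360 / (R : ℝ) ≤ 3360 / Real.sqrt 3 ^ r := div_le_div_of_nonneg_left (by norm_num) hsp hsR
    have h2 : 1 / W ≤ 1 / Real.sqrt 3 ^ r := div_le_div_of_nonneg_left (by norm_num) hsp hsW
    have h3 : 3377 / Real.sqrt 3 ^ r = 16 / Real.sqrt 3 ^ r + 3360 / Real.sqrt 3 ^ r + 1 / Real.sqrt 3 ^ r := by ring
    rw [h3]
    linarith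
  have hE3' : ((r : ℝ) * Real.log 3) ^ 6 / Real.sqrt 3 ^ r ≤ e := by
    refine le_trans ?_ her
    rw [Real.exp_neg, div_le_iff₀ hsp]
    have h5 : 0 < Real.exp (((r : ℝ) + 1) / 4) := Real.exp_pos _
    rw [inv_mul_eq_div, le_div_iff₀ h5]
    exact hE3
  have hsecond : C * x / δ ^ 2 * (16 / Real.sqrt ((3 ^ r : ℕ) : ℝ) + 3360 / (R : ℝ) + 1 / W) ≤
      3377 * C / c ^ 2 * (x * e) := by
    have h0 : 0 ≤ C * x / δ ^ 2 := by positivity
    refine (mul_le_mul_of_nonneg_left hsum h0).trans ?_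
    have h1 : C * x / δ ^ 2 * (3377 / Real.sqrt 3 ^ r) =
        3377 * C / c ^ 2 * (x * (((r : ℝ) * Real.log 3) ^ 6 / Real.sqrt 3 ^ r)) := by
      rw [hδ, hz]
      field_simp
    rw [h1]
    apply mul_le_mul_of_nonneg_left _ hc2.le
    exact mul_le_mul_of_nonneg_left hE3' hx0.le
  have hpos : 0 ≤ ((∑ j ∈ range 16, Real.exp (c₀ / 4 * u j)) + Real.exp (((r₀ : ℝ) + 1) / 4)) * (x * e) :=
    mul_nonneg (by linarith) hxe0.le
  calc _ ≤ (((Icc 2 x).filter (fun k => (Pool.Agent.SPM.N k : ℝ) < 10 * δ * W)).card : ℝ) := hincl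
    _ ≤ 13 * (R : ℝ) ^ 94 + C * x / δ ^ 2 * (16 / Real.sqrt ((3 ^ r : ℕ) : ℝ) + 3360 / (R : ℝ) + 1 / W) := hmain
    _ ≤ 13 * (x * e) + 3377 * C / c ^ 2 * (x * e) := add_le_add hfirst hsecond
    _ ≤ 13 * (x * e) + 3377 * C / c ^ 2 * (x * e) +
        ((∑ j ∈ range 16, Real.exp (c₀ / 4 * u j)) + Real.exp (((r₀ : ℝ) + 1) / 4)) * (x * e) := by linarith
    _ = _ := by ring

end Pool.Agent.SPA.As869
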