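import Mathlib

/-!
# Squarefree integers with few prime factors carry the harmonic sum (helper54)
-/

set_option autoImplicit false

namespace Pool.Agent.SPA.W54

open Finset

lemma hr (n : ℕ) : ∑ i ∈ Icc 1 n, (1 : ℝ) / i = (harmonic n : ℝ) := by
  rw [harmonic_eq_sum_Icc]
  push_cast
  exact sum_congr rfl fun i _ => one_div _

lemma hr_up (L : ℕ) : ∑ i ∈ Icc (1 : ℕ) (2 ^ L), (1 : ℝ) / i ≤ L + 1 := by
  rw [hr]
  have h := harmonic_le_one_add_log (2 ^ L)
  have h1 : Real.log ((2 ^ L : ℕ) : ℝ) = L * Real.log 2 := by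
    push_cast
    rw [Real.log_pow]
  have h2 : Real.log 2 ≤ 1 := by
    have := Real.log_two_lt_d9
    linarith
  have h3 : (L : ℝ) * Real.log 2 ≤ L * 1 := mul_le_mul_of_nonneg_left h2 (Nat.cast_nonneg L)
  rw [h1] at h
  linarith

lemma hr_low (L : ℕ) : (L : ℝ) / 2 ≤ ∑ i ∈ Icc (1 : ℕ) (2 ^ L), (1 : ℝ) / i := by
  rw [hr]
  have h := log_add_one_le_harmonic (2 ^ L)
  have h0 : Real.log ((2 ^ L : ℕ) : ℝ) ≤ Real.log (((2 ^ L : ℕ) : ℝ) + 1) := by
    apply Real.log_le_log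
    · positivity
    · linarith
  have h1 : Real.log ((2 ^ L : ℕ) : ℝ) = L * Real.log 2 := by
    push_cast
    rw [Real.log_pow]
  have h2 : 1 / 2 ≤ Real.log 2 := by
    have := Real.log_two_gt_d9
    linarith
  have h3 : (L : ℝ) * (1 / 2) ≤ L * Real.log 2 := mul_le_mul_of_nonneg_left h2 (Nat.cast_nonneg L)
  have h4 : Real.log (((2 ^ L : ℕ) : ℝ) + 1) ≤ harmonic (2 ^ L) := by
    push_cast at h ⊢
    exact h
  linarith

lemma sq_sum (N : ℕ) : ∑ m ∈ Icc 1 N, (1 : ℝ) / (m : ℝ) ^ 2 ≤ 2 := by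
  rcases Nat.eq_zero_or_pos N with h | h
  · subst h; simp
  have e : Icc 1 N = insert 1 (Ioc 1 N) := by
    ext i
    simp only [mem_Icc, mem_insert, mem_Ioc]
    omega
  rw [e, sum_insert (by simp)]
  have h1 := sum_Ioc_inv_sq_le_sub (α := ℝ) (k := 1) (n := N) one_ne_zero h
  have h2 : ∑ m ∈ Ioc 1 N, (1 : ℝ) / (m : ℝ) ^ 2 = ∑ i ∈ Ioc 1 N, ((i : ℝ) ^ 2)⁻¹ :=
    sum_congr rfl fun i _ => one_div _
  rw [h2]
  have h3 : (0 : ℝ) ≤ (N : ℝ)⁻¹ := by positivity
  push_cast at h1 ⊢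
  norm_num at h1 ⊢
  linarith

lemma sqfree_sum (N : ℕ) : ∑ n ∈ Icc 1 N, (1 : ℝ) / n ≤
    2 * ∑ s ∈ (Icc 1 N).filter (fun s : ℕ => Squarefree s), (1 : ℝ) / s := by
  have h1 : ∑ n ∈ Icc 1 N, (1 : ℝ) / n ≤
      ∑ y ∈ ((Icc 1 N).filter (fun s : ℕ => Squarefree s)) ×ˢ (Icc 1 N),
        (1 : ℝ) / y.1 * ((1 : ℝ) / (y.2 : ℝ) ^ 2) := by
    have hex : ∀ n ∈ Icc 1 N, ∃ y : ℕ × ℕ, y ∈ ((Icc 1 N).filter (fun s : ℕ => Squarefree s)) ×ˢ (Icc 1 N) ∧
        y.2 ^ 2 * y.1 = n := by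
      intro n hn
      rw [mem_Icc] at hn
      obtain ⟨a, b, ha, hb, hab, hsq⟩ := Nat.sq_mul_squarefree_of_pos (show 0 < n by omega)
      refine ⟨(a, b), ?_, hab⟩
      rw [mem_product, mem_filter, mem_Icc, mem_Icc]
      have h2 : a ≤ n := by
        rw [← hab]; exact Nat.le_mul_of_pos_left a (by positivity)
      have h3 : b ≤ n := by
        rw [← hab]
        calc b ≤ b ^ 2 := by nlinarith
          _ ≤ b ^ 2 * a := Nat.le_mul_of_pos_right _ ha
      exact ⟨⟨⟨ha, by omega⟩, hsq⟩, hb, by omega⟩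
    choose! e he1 he2 using hex
    have hinj : Set.InjOn e (Icc 1 N : Finset ℕ) := by
      intro n hn m hm hnm
      rw [← he2 n hn, ← he2 m hm, hnm]
    calc ∑ n ∈ Icc 1 N, (1 : ℝ) / n
        = ∑ n ∈ Icc 1 N, (1 : ℝ) / (e n).1 * ((1 : ℝ) / ((e n).2 : ℝ) ^ 2) := by
          refine sum_congr rfl fun n hn => ?_
          have h4 : (n : ℝ) = ((e n).2 : ℝ) ^ 2 * (e n).1 := by
            rw [← Nat.cast_pow, ← Nat.cast_mul, he2 n hn]
          rw [h4, one_div_mul_one_div, mul_comm]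
      _ = ∑ y ∈ (Icc 1 N).image e, (1 : ℝ) / y.1 * ((1 : ℝ) / (y.2 : ℝ) ^ 2) := by
          rw [sum_image hinj]
      _ ≤ _ := by
          apply sum_le_sum_of_subset_of_nonneg
          · intro y hy
            rw [mem_image] at hy
            obtain ⟨n, hn, rfl⟩ := hy
            exact he1 n hn
          · intro y _ _
            positivity
  refine h1.trans ?_
  rw [sum_product]
  simp only
  have h2 : ∀ x ∈ (Icc 1 N).filter (fun s : ℕ => Squarefree s),
      ∑ y ∈ Icc 1 N, (1 : ℝ) / x * ((1 : ℝ) / (y : ℝ) ^ 2) ≤ 2 * ((1 : ℝ) / x) := by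
    intro x _
    rw [← mul_sum, mul_comm]
    exact mul_le_mul_of_nonneg_right (sq_sum N) (by positivity)
  refine (sum_le_sum h2).trans ?_
  rw [mul_sum]

lemma tau_sum (N : ℕ) : ∑ w ∈ Icc 1 N, ((w.divisors.card : ℕ) : ℝ) / w ≤ (∑ i ∈ Icc 1 N, (1 : ℝ) / i) ^ 2 := by
  rw [sq, sum_mul_sum, ← sum_product']
  have h1 : ∑ w ∈ Icc 1 N, ((w.divisors.card : ℕ) : ℝ) / w =
      ∑ w ∈ Icc 1 N, ∑ y ∈ ((Icc 1 N) ×ˢ (Icc 1 N)).filter (fun y => y.1 * y.2 = w),
        (1 : ℝ) / y.1 * ((1 : ℝ) / y.2) := by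
    refine sum_congr rfl fun w hw => ?_
    rw [mem_Icc] at hw
    have h2 : ((Icc 1 N) ×ˢ (Icc 1 N)).filter (fun y => y.1 * y.2 = w) = w.divisorsAntidiagonal := by
      ext y
      rw [mem_filter, mem_product, mem_Icc, mem_Icc, Nat.mem_divisorsAntidiagonal]
      constructor
      · rintro ⟨_, h⟩
        exact ⟨h, by omega⟩
      · rintro ⟨h, h0⟩
        have h3 : 0 < y.1 := by
          rcases Nat.eq_zero_or_pos y.1 with h4 | h4
          · rw [h4, zero_mul] at h; omega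
          · exact h4
        have h5 : 0 < y.2 := by
          rcases Nat.eq_zero_or_pos y.2 with h4 | h4
          · rw [h4, mul_zero] at h; omega
          · exact h4
        have h6 : y.1 ≤ w := by rw [← h]; exact Nat.le_mul_of_pos_right _ h5
        have h7 : y.2 ≤ w := by rw [← h]; exact Nat.le_mul_of_pos_left _ h3
        exact ⟨⟨⟨h3, by omega⟩, h5, by omega⟩, h⟩
    rw [h2]
    have h3 : ∀ y ∈ w.divisorsAntidiagonal, (1 : ℝ) / y.1 * ((1 : ℝ) / y.2) = 1 / w := by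
      intro y hy
      rw [Nat.mem_divisorsAntidiagonal] at hy
      rw [one_div_mul_one_div, ← Nat.cast_mul, hy.1]
    rw [sum_congr rfl h3, sum_const, nsmul_eq_mul, mul_one_div]
    have h4 : w.divisorsAntidiagonal.card = w.divisors.card := by
      rw [← Nat.map_div_right_divisors, card_map]
    rw [h4]
  rw [h1]
  have h5 : ∀ w ∈ Icc 1 N, ∑ y ∈ ((Icc 1 N) ×ˢ (Icc 1 N)).filter (fun y => y.1 * y.2 = w),
      (1 : ℝ) / y.1 * ((1 : ℝ) / y.2) = ∑ y ∈ (((Icc 1 N) ×ˢ (Icc 1 N)).filter (fun y => y.1 * y.2 ∈ Icc 1 N)).filter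
        (fun y => y.1 * y.2 = w), (1 : ℝ) / y.1 * ((1 : ℝ) / y.2) := by
    intro w hw
    congr 1
    ext y
    simp only [mem_filter]
    constructor
    · rintro ⟨ha, hb⟩
      exact ⟨⟨ha, by rw [hb]; exact hw⟩, hb⟩
    · rintro ⟨⟨ha, _⟩, hb⟩
      exact ⟨ha, hb⟩
  rw [sum_congr rfl h5, sum_fiberwise_of_maps_to (fun y hy => (mem_filter.1 hy).2)]
  apply sum_le_sum_of_subset_of_nonneg (filter_subset _ _)
  intro y _ _
  positivity

lemma pow_le_tau {n : ℕ} (hn : Squarefree n) : 2 ^ n.primeFactorsList.length ≤ n.divisors.card := by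
  have h0 : n ≠ 0 := hn.ne_zero
  rw [Nat.card_divisors h0]
  have h1 : n.primeFactorsList.length = n.primeFactors.card := by
    rw [← List.toFinset_card_of_nodup ((Nat.squarefree_iff_nodup_primeFactorsList h0).1 hn)]
    rfl
  rw [h1, ← prod_const]
  apply prod_le_prod'
  intro p hp
  have h2 : 0 < n.factorization p := by
    rw [Nat.mem_primeFactors] at hp
    exact hp.1.factorization_pos_of_dvd h0 hp.2.1
  omega

/-- the integers up to `2 ^ L` with at most `d` prime factors -/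
theorem sumW (L d : ℕ) (hL : 1 ≤ L) (hd : 32 * (L + 1) ≤ 2 ^ d) :
    (L : ℝ) / 8 ≤ ∑ w ∈ (Icc (1 : ℕ) (2 ^ L)).filter (fun w : ℕ => w.primeFactorsList.length ≤ d), (1 : ℝ) / w := by
  have h1 := hr_low L
  have h2 := sqfree_sum (2 ^ L)
  have h3 : ∑ s ∈ (Icc (1 : ℕ) (2 ^ L)).filter (fun s : ℕ => Squarefree s), (1 : ℝ) / s =
      ∑ s ∈ ((Icc (1 : ℕ) (2 ^ L)).filter (fun s : ℕ => Squarefree s)).filter (fun w : ℕ => w.primeFactorsList.length ≤ d),
        (1 : ℝ) / s +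
      ∑ s ∈ ((Icc (1 : ℕ) (2 ^ L)).filter (fun s : ℕ => Squarefree s)).filter (fun w : ℕ => ¬ w.primeFactorsList.length ≤ d),
        (1 : ℝ) / s := (sum_filter_add_sum_filter_not _ _ _).symm
  have h4 : ∑ s ∈ ((Icc (1 : ℕ) (2 ^ L)).filter (fun s : ℕ => Squarefree s)).filter (fun w : ℕ => w.primeFactorsList.length ≤ d),
        (1 : ℝ) / s ≤ ∑ w ∈ (Icc (1 : ℕ) (2 ^ L)).filter (fun w : ℕ => w.primeFactorsList.length ≤ d), (1 : ℝ) / w := by
    apply sum_le_sum_of_subset_of_nonneg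
    · intro w hw
      rw [mem_filter, mem_filter] at hw
      exact mem_filter.2 ⟨hw.1.1, hw.2⟩
    · intro i _ _
      positivity
  have h5 : (2 : ℝ) ^ (d + 1) *
      ∑ s ∈ ((Icc (1 : ℕ) (2 ^ L)).filter (fun s : ℕ => Squarefree s)).filter (fun w : ℕ => ¬ w.primeFactorsList.length ≤ d),
        (1 : ℝ) / s ≤ ((L : ℝ) + 1) ^ 2 := by
    calc _ ≤ ∑ w ∈ Icc (1 : ℕ) (2 ^ L), ((w.divisors.card : ℕ) : ℝ) / w := by
          rw [mul_sum]
          calc _ ≤ ∑ w ∈ ((Icc (1 : ℕ) (2 ^ L)).filter (fun s : ℕ => Squarefree s)).filter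
                (fun w : ℕ => ¬ w.primeFactorsList.length ≤ d), ((w.divisors.card : ℕ) : ℝ) / w := by
                apply sum_le_sum
                intro w hw
                rw [mem_filter, mem_filter] at hw
                rw [mul_one_div]
                apply div_le_div_of_nonneg_right _ (Nat.cast_nonneg w)
                have h6 : 2 ^ (d + 1) ≤ w.divisors.card :=
                  (Nat.pow_le_pow_right (by norm_num) (by omega)).trans (pow_le_tau hw.1.2)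
                exact_mod_cast h6
            _ ≤ _ := by
                apply sum_le_sum_of_subset_of_nonneg
                · exact (filter_subset _ _).trans (filter_subset _ _)
                · intro i _ _
                  positivity
      _ ≤ (∑ i ∈ Icc (1 : ℕ) (2 ^ L), (1 : ℝ) / i) ^ 2 := tau_sum _
      _ ≤ ((L : ℝ) + 1) ^ 2 := by
          apply pow_le_pow_left₀ _ (hr_up L)
          exact sum_nonneg fun i _ => by positivity
  have h6 : (64 : ℝ) * (L + 1) ≤ 2 ^ (d + 1) := by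
    have h7 : 64 * (L + 1) ≤ 2 ^ (d + 1) := by rw [pow_succ]; omega
    exact_mod_cast h7
  set B := ∑ s ∈ ((Icc (1 : ℕ) (2 ^ L)).filter (fun s : ℕ => Squarefree s)).filter
    (fun w : ℕ => ¬ w.primeFactorsList.length ≤ d), (1 : ℝ) / s with hB
  have hB0 : 0 ≤ B := sum_nonneg fun i _ => by positivity
  have hL1 : (1 : ℝ) ≤ L := by exact_mod_cast hL
  have h8 : 64 * B ≤ L + 1 := by
    have h9 : (64 : ℝ) * (L + 1) * B ≤ (L + 1) ^ 2 := (mul_le_mul_of_nonneg_right h6 hB0).trans h5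
    have h10 : (64 * B) * (L + 1) ≤ (L + 1) * (L + 1) := by nlinarith
    exact le_of_mul_le_mul_right h10 (by positivity)
  linarith

end Pool.Agent.SPA.W54
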