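import Pool.Agent.SPA.G820
import Pool.Agent.SPA.W54

/-!
# Row G8 (MP_7a4c99)
-/

set_option autoImplicit false

namespace Pool.Agent.SPA.G820

theorem g8 : RowG8 := g8_of (fun L d hL hd => W54.sumW L d hL hd)

end Pool.Agent.SPA.G820
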