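import Pool.Agent.SPA.Stmts9
import Pool.Agent.SPM.Sol46

/-!
# Row Up: the upper bound on average
-/

set_option autoImplicit false

namespace Pool.Agent.SPA

open Finset

namespace Up77

/-- the multisets with entries in `[2, N]` and product at most `y` -/
def S (N y : ℕ) : Set (Multiset ℕ) := {m | (∀ a ∈ m, 2 ≤ a ∧ a ≤ N) ∧ m.prod ≤ y}

lemma prod_pos (m : Multiset ℕ) (h : ∀ a ∈ m, 2 ≤ a) : 0 < m.prod :=
  (Pool.Agent.SPM.Sol46.sum_le_prod m (fun a ha => by have := h a ha; omega)).1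

lemma S_zero (N : ℕ) : S N 0 = ∅ := by
  ext m
  simp only [S, Set.mem_setOf_eq, Set.mem_empty_iff_false, iff_false, not_and, not_le]
  intro h
  exact prod_pos m fun a ha => (h a ha).1

/-- the product -/
noncomputable def P (σ : ℝ) (N : ℕ) : ℝ := ∏ n ∈ Icc 2 N, (1 - (n : ℝ) ^ (-σ))⁻¹

lemma t_le (σ : ℝ) (hσ : 1 ≤ σ) (n : ℕ) (hn : 2 ≤ n) : (n : ℝ) ^ (-σ) ≤ 1 / n := by
  have hn1 : (1 : ℝ) ≤ n := by exact_mod_cast (by omega : 1 ≤ n)
  calc (n : ℝ) ^ (-σ) ≤ (n : ℝ) ^ (-1 : ℝ) := Real.rpow_le_rpow_of_exponent_le hn1 (by linarith)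
    _ = 1 / n := by rw [Real.rpow_neg_one, one_div]

lemma t_pos (σ : ℝ) (n : ℕ) (hn : 2 ≤ n) : 0 < (n : ℝ) ^ (-σ) :=
  Real.rpow_pos_of_pos (by exact_mod_cast (by omega : 0 < n)) _

lemma t_half (σ : ℝ) (hσ : 1 ≤ σ) (n : ℕ) (hn : 2 ≤ n) : (n : ℝ) ^ (-σ) ≤ 1 / 2 := by
  refine (t_le σ hσ n hn).trans ?_
  have : (2 : ℝ) ≤ n := by exact_mod_cast hn
  exact one_div_le_one_div_of_le (by norm_num) this

lemma P_pos (σ : ℝ) (hσ : 1 ≤ σ) (N : ℕ) : 0 < P σ N := by
  unfold P
  apply Finset.prod_pos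
  intro n hn
  have h2 : 2 ≤ n := (Finset.mem_Icc.1 hn).1
  have := t_half σ hσ n h2
  exact inv_pos.2 (by linarith)

lemma P_succ (σ : ℝ) (hσ : 1 ≤ σ) (N : ℕ) (hN : 1 ≤ N) :
    P σ (N + 1) = P σ N * (1 - ((N + 1 : ℕ) : ℝ) ^ (-σ))⁻¹ := by
  unfold P
  rw [Finset.prod_Icc_succ_top (by omega)]

lemma P_rec (σ : ℝ) (hσ : 1 ≤ σ) (N : ℕ) (hN : 1 ≤ N) :
    P σ N + ((N + 1 : ℕ) : ℝ) ^ (-σ) * P σ (N + 1) = P σ (N + 1) := by
  rw [P_succ σ hσ N hN]
  have h := t_half σ hσ (N + 1) (by omega)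
  have h1 : (1 : ℝ) - ((N + 1 : ℕ) : ℝ) ^ (-σ) ≠ 0 := by linarith
  field_simp
  ring

lemma main (σ : ℝ) (hσ : 1 ≤ σ) : ∀ N y : ℕ, (S N y).Finite ∧ ((S N y).ncard : ℝ) ≤ (y : ℝ) ^ σ * P σ N := by
  intro N
  induction N with
  | zero =>
    intro y
    have hsub : S 0 y ⊆ {0} := by
      intro m hm
      rw [Set.mem_singleton_iff]
      rcases Multiset.empty_or_exists_mem m with h | ⟨a, ha⟩
      · exact h
      · have := hm.1 a ha
        omega
    refine ⟨(Set.finite_singleton _).subset hsub, ?_⟩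
    rcases Nat.eq_zero_or_pos y with rfl | hy
    · rw [S_zero, Set.ncard_empty]
      have : 0 ≤ ((0 : ℕ) : ℝ) ^ σ * P σ 0 := mul_nonneg (by positivity) (P_pos σ hσ 0).le
      simpa using this
    · have h1 : (S 0 y).ncard ≤ 1 := by
        have := Set.ncard_le_ncard hsub (Set.finite_singleton _)
        rwa [Set.ncard_singleton] at this
      have h2 : P σ 0 = 1 := by unfold P; simp
      rw [h2, mul_one]
      have h3 : (1 : ℝ) ≤ (y : ℝ) ^ σ := Real.one_le_rpow (by exact_mod_cast hy) (by linarith)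
      have h4 : ((S 0 y).ncard : ℝ) ≤ 1 := by exact_mod_cast h1
      linarith
  | succ N ih =>
    rcases Nat.eq_zero_or_pos N with rfl | hN
    · intro y
      have e : S (0 + 1) y = S 0 y := by
        ext m
        simp only [S, Set.mem_setOf_eq]
        constructor
        · rintro ⟨h1, h2⟩
          exact ⟨fun a ha => by have := h1 a ha; omega, h2⟩
        · rintro ⟨h1, h2⟩
          exact ⟨fun a ha => by have := h1 a ha; omega, h2⟩
      have e2 : P σ (0 + 1) = P σ 0 := by unfold P; simp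
      rw [e, e2]
      exact ih y
    · intro y
      induction y using Nat.strong_induction_on with
      | _ y ihy =>
        rcases Nat.eq_zero_or_pos y with rfl | hy
        · rw [S_zero, Set.ncard_empty]
          refine ⟨Set.finite_empty, ?_⟩
          have : 0 ≤ ((0 : ℕ) : ℝ) ^ σ * P σ (N + 1) := mul_nonneg (by positivity) (P_pos σ hσ _).le
          simpa using this
        · have hlt : y / (N + 1) < y := Nat.div_lt_self hy (by omega)
          obtain ⟨f1, b1⟩ := ih y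
          obtain ⟨f2, b2⟩ := ihy _ hlt
          have hsub : S (N + 1) y ⊆ S N y ∪ (fun m => (N + 1) ::ₘ m) '' S (N + 1) (y / (N + 1)) := by
            intro m hm
            by_cases h : (N + 1) ∈ m
            · right
              obtain ⟨t, rfl⟩ := Multiset.exists_cons_of_mem h
              refine ⟨t, ⟨fun a ha => hm.1 a (Multiset.mem_cons_of_mem ha), ?_⟩, rfl⟩
              have := hm.2
              rw [Multiset.prod_cons] at this
              rw [Nat.le_div_iff_mul_le (by omega)]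
              rw [mul_comm]
              exact this
            · left
              refine ⟨fun a ha => ?_, hm.2⟩
              have h1 := hm.1 a ha
              have h2 : a ≠ N + 1 := fun e => h (e ▸ ha)
              omega
          have hfin : (S N y ∪ (fun m => (N + 1) ::ₘ m) '' S (N + 1) (y / (N + 1))).Finite := f1.union (f2.image _)
          refine ⟨hfin.subset hsub, ?_⟩
          have c1 : (S (N + 1) y).ncard ≤ (S N y).ncard + (S (N + 1) (y / (N + 1))).ncard := by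
            refine (Set.ncard_le_ncard hsub hfin).trans ((Set.ncard_union_le _ _).trans ?_)
            exact Nat.add_le_add_left (Set.ncard_image_le f2) _
          have c2 : ((S (N + 1) y).ncard : ℝ) ≤ ((S N y).ncard : ℝ) + ((S (N + 1) (y / (N + 1))).ncard : ℝ) := by
            exact_mod_cast c1
          have hy0 : (0 : ℝ) ≤ y := by positivity
          have hN0 : (0 : ℝ) < ((N + 1 : ℕ) : ℝ) := by positivity
          have d1 : (((y / (N + 1) : ℕ) : ℝ)) ^ σ ≤ (y : ℝ) ^ σ * ((N + 1 : ℕ) : ℝ) ^ (-σ) := by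
            have : ((y / (N + 1) : ℕ) : ℝ) ≤ (y : ℝ) / ((N + 1 : ℕ) : ℝ) := Nat.cast_div_le
            calc (((y / (N + 1) : ℕ) : ℝ)) ^ σ ≤ ((y : ℝ) / ((N + 1 : ℕ) : ℝ)) ^ σ :=
                  Real.rpow_le_rpow (by positivity) this (by linarith)
              _ = (y : ℝ) ^ σ * ((N + 1 : ℕ) : ℝ) ^ (-σ) := by
                  rw [Real.div_rpow hy0 hN0.le, Real.rpow_neg hN0.le, div_eq_mul_inv]
          have hP := (P_pos σ hσ (N + 1)).le
          calc ((S (N + 1) y).ncard : ℝ) ≤ (y : ℝ) ^ σ * P σ N + (((y / (N + 1) : ℕ) : ℝ)) ^ σ * P σ (N + 1) := by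
                linarith
            _ ≤ (y : ℝ) ^ σ * P σ N + ((y : ℝ) ^ σ * ((N + 1 : ℕ) : ℝ) ^ (-σ)) * P σ (N + 1) := by
                have := mul_le_mul_of_nonneg_right d1 hP
                linarith
            _ = (y : ℝ) ^ σ * (P σ N + ((N + 1 : ℕ) : ℝ) ^ (-σ) * P σ (N + 1)) := by ring
            _ = (y : ℝ) ^ σ * P σ (N + 1) := by rw [P_rec σ hσ N hN]

lemma tele (e : ℝ) (he : 0 < e) (N : ℕ) (hN : 1 ≤ N) :
    ((N + 1 : ℕ) : ℝ) ^ (-(1 + e)) ≤ (1 / e) * ((N : ℝ) ^ (-e) - ((N + 1 : ℕ) : ℝ) ^ (-e)) := by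
  have hN0 : (0 : ℝ) < N := by exact_mod_cast hN
  have hM0 : (0 : ℝ) < ((N + 1 : ℕ) : ℝ) := by positivity
  set A := ((N + 1 : ℕ) : ℝ) ^ (-e) with hA
  have hApos : 0 < A := Real.rpow_pos_of_pos hM0 _
  have h1 : ((N + 1 : ℕ) : ℝ) ^ (-(1 + e)) = A / ((N + 1 : ℕ) : ℝ) := by
    rw [hA, show -(1 + e) = -e - 1 by ring, Real.rpow_sub_one hM0.ne']
  have hlog : 1 / ((N + 1 : ℕ) : ℝ) ≤ Real.log ((N + 1 : ℕ) : ℝ) - Real.log N := by
    have h2 := Real.one_sub_inv_le_log_of_pos (show (0 : ℝ) < ((N + 1 : ℕ) : ℝ) / N by positivity)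
    rw [Real.log_div hM0.ne' hN0.ne'] at h2
    have h3 : 1 - (((N + 1 : ℕ) : ℝ) / N)⁻¹ = 1 / ((N + 1 : ℕ) : ℝ) := by
      field_simp
      push_cast
      ring
    rw [h3] at h2
    exact h2
  have h4 : (N : ℝ) ^ (-e) = A * Real.exp (e * (Real.log ((N + 1 : ℕ) : ℝ) - Real.log N)) := by
    rw [hA, Real.rpow_def_of_pos hN0, Real.rpow_def_of_pos hM0, ← Real.exp_add]
    congr 1
    ring
  have h5 : 1 + e * (1 / ((N + 1 : ℕ) : ℝ)) ≤ Real.exp (e * (Real.log ((N + 1 : ℕ) : ℝ) - Real.log N)) := by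
    have := Real.add_one_le_exp (e * (Real.log ((N + 1 : ℕ) : ℝ) - Real.log N))
    have := mul_le_mul_of_nonneg_left hlog he.le
    linarith
  have h6 : A * (1 + e * (1 / ((N + 1 : ℕ) : ℝ))) ≤ (N : ℝ) ^ (-e) := by
    rw [h4]
    exact mul_le_mul_of_nonneg_left h5 hApos.le
  rw [h1, one_div, ← div_eq_inv_mul, le_div_iff₀ he]
  have h7 : A / ((N + 1 : ℕ) : ℝ) * e = A * (1 + e * (1 / ((N + 1 : ℕ) : ℝ))) - A := by
    field_simp
    ring
  rw [h7]
  linarith

lemma P_le (e : ℝ) (he : 0 < e) (N : ℕ) (hN : 1 ≤ N) :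
    P (1 + e) N ≤ Real.exp ((1 / e) * (1 - (N : ℝ) ^ (-e)) + 2 * (1 - 1 / N)) := by
  induction N, hN using Nat.le_induction with
  | base => unfold P; simp
  | succ N hN ih =>
    rw [P_succ (1 + e) (by linarith) N hN]
    have hN0 : (0 : ℝ) < N := by exact_mod_cast hN
    have hM0 : (0 : ℝ) < ((N + 1 : ℕ) : ℝ) := by positivity
    set t := ((N + 1 : ℕ) : ℝ) ^ (-(1 + e)) with ht
    have t0 : 0 < t := t_pos (1 + e) (N + 1) (by omega)
    have t1 : t ≤ 1 / 2 := t_half (1 + e) (by linarith) (N + 1) (by omega)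
    have t2 : t ≤ 1 / ((N + 1 : ℕ) : ℝ) := t_le (1 + e) (by linarith) (N + 1) (by omega)
    have h1 : (1 - t)⁻¹ ≤ Real.exp (t + 2 * t ^ 2) := by
      have h2 : (0 : ℝ) < 1 - t := by linarith
      have h3 := Real.add_one_le_exp (t / (1 - t))
      have h4 : t / (1 - t) + 1 = (1 - t)⁻¹ := by field_simp; ring
      rw [h4] at h3
      refine h3.trans (Real.exp_le_exp.2 ?_)
      rw [div_le_iff₀ h2]
      nlinarith [mul_nonneg (sq_nonneg t) (show (0 : ℝ) ≤ 1 - 2 * t by linarith)]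
    have h5 : t ≤ (1 / e) * ((N : ℝ) ^ (-e) - ((N + 1 : ℕ) : ℝ) ^ (-e)) := tele e he N hN
    have h6 : t ^ 2 ≤ 1 / (N : ℝ) - 1 / ((N + 1 : ℕ) : ℝ) := by
      have h7 : t ^ 2 ≤ (1 / ((N + 1 : ℕ) : ℝ)) ^ 2 := pow_le_pow_left₀ t0.le t2 2
      refine h7.trans ?_
      rw [div_sub_div _ _ hN0.ne' hM0.ne', div_pow, div_le_div_iff₀ (by positivity) (by positivity)]
      push_cast
      nlinarith
    have hPp := (P_pos (1 + e) (by linarith) N).le
    calc P (1 + e) N * (1 - t)⁻¹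
        ≤ Real.exp ((1 / e) * (1 - (N : ℝ) ^ (-e)) + 2 * (1 - 1 / N)) * Real.exp (t + 2 * t ^ 2) :=
          mul_le_mul ih h1 (inv_nonneg.2 (by linarith)) (Real.exp_pos _).le
      _ = Real.exp (((1 / e) * (1 - (N : ℝ) ^ (-e)) + 2 * (1 - 1 / N)) + (t + 2 * t ^ 2)) :=
          (Real.exp_add _ _).symm
      _ ≤ Real.exp ((1 / e) * (1 - ((N + 1 : ℕ) : ℝ) ^ (-e)) + 2 * (1 - 1 / ((N + 1 : ℕ) : ℝ))) := by
          apply Real.exp_le_exp.2
          have h8 : (1 / e) * ((N : ℝ) ^ (-e) - ((N + 1 : ℕ) : ℝ) ^ (-e)) =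
            (1 / e) * (1 - ((N + 1 : ℕ) : ℝ) ^ (-e)) - (1 / e) * (1 - (N : ℝ) ^ (-e)) := by ring
          rw [h8] at h5
          linarith

/-- `2 ∑ (a - 1) ≤ ∏ a` for at least two entries, all at least two -/
lemma two_sum (m : Multiset ℕ) (h : ∀ a ∈ m, 2 ≤ a) (hc : 2 ≤ m.card) : 2 * m.sum ≤ m.prod + 2 * m.card := by
  induction m using Multiset.induction with
  | empty => simp at hc
  | cons a m ih =>
    have ha : 2 ≤ a := h a (Multiset.mem_cons_self a m)
    have hm : ∀ b ∈ m, 2 ≤ b := fun b hb => h b (Multiset.mem_cons_of_mem hb)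
    rw [Multiset.card_cons] at hc
    rw [Multiset.prod_cons, Multiset.sum_cons, Multiset.card_cons]
    by_cases h2 : 2 ≤ m.card
    · have i := ih hm h2
      have hp : 2 ≤ m.prod := by
        obtain ⟨b, hb⟩ := Multiset.exists_mem_of_ne_zero (fun e => by rw [e] at h2; simp at h2 : m ≠ 0)
        have := hm b hb
        exact this.trans (Nat.le_of_dvd (prod_pos m hm) (Multiset.dvd_prod hb))
      obtain ⟨a', rfl⟩ : ∃ a', a = a' + 1 := ⟨a - 1, by omega⟩
      nlinarith [Nat.mul_le_mul_left a' hp]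
    · have h1 : m.card = 1 := by omega
      obtain ⟨b, rfl⟩ := Multiset.card_eq_one.1 h1
      have hb : 2 ≤ b := hm b (Multiset.mem_singleton_self b)
      simp only [Multiset.prod_singleton, Multiset.sum_singleton, Multiset.card_singleton]
      obtain ⟨a', rfl⟩ : ∃ a', a = a' + 2 := ⟨a - 2, by omega⟩
      obtain ⟨b', rfl⟩ : ∃ b', b = b' + 2 := ⟨b - 2, by omega⟩
      nlinarith [Nat.zero_le (a' * b')]

/-- the large entries -/
def f (s : Multiset ℕ) : Multiset ℕ := s.filter (fun a => 2 ≤ a)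

lemma decomp {k : ℕ} {s : Multiset ℕ} (hs : Pool.Agent.SPM.IsSP k s) :
    s = f s + Multiset.replicate (k - (f s).card) 1 ∧ (f s).card ≤ k ∧ s.prod = (f s).prod ∧
      k + (f s).sum = (f s).prod + (f s).card := by
  obtain ⟨hc, hpos, hps⟩ := hs
  have h1 : f s + s.filter (fun a => ¬ 2 ≤ a) = s := Multiset.filter_add_not _ s
  set u := s.filter (fun a => ¬ 2 ≤ a) with hu
  have h2 : u = Multiset.replicate u.card 1 := by
    apply Multiset.eq_replicate_card.2
    intro b hb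
    rw [hu, Multiset.mem_filter] at hb
    have := hpos b hb.1
    omega
  have h3 : (f s).card + u.card = k := by
    rw [← hc, ← h1, Multiset.card_add, h1]
  have h4 : u.card = k - (f s).card := by omega
  have hprod : s.prod = (f s).prod := by
    conv_lhs => rw [← h1]
    rw [Multiset.prod_add, h2, Multiset.prod_replicate, one_pow, mul_one]
  have hsum : s.sum = (f s).sum + u.card := by
    conv_lhs => rw [← h1]
    rw [Multiset.sum_add]
    congr 1
    rw [h2, Multiset.sum_replicate]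
    simp
  refine ⟨?_, by omega, hprod, by omega⟩
  rw [← h4, ← h2]
  exact h1.symm

lemma f_two (s : Multiset ℕ) : ∀ a ∈ f s, 2 ≤ a := fun a ha => (Multiset.mem_filter.1 ha).2

lemma prod_le {k : ℕ} (hk : 2 ≤ k) {s : Multiset ℕ} (hs : Pool.Agent.SPM.IsSP k s) : (f s).prod ≤ 2 * k := by
  obtain ⟨h1, h2, h3, h4⟩ := decomp hs
  have hc : 2 ≤ (f s).card := by
    by_contra hcon
    have h5 : (f s).card = 0 ∨ (f s).card = 1 := by omega
    rcases h5 with h5 | h5
    · have h6 : f s = 0 := Multiset.card_eq_zero.1 h5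
      rw [h6] at h4
      simp at h4
      omega
    · obtain ⟨b, hb⟩ := Multiset.card_eq_one.1 h5
      rw [hb] at h4
      simp at h4
      omega
  have h6 := two_sum (f s) (f_two s) hc
  omega

lemma sum_N (x : ℕ) : ∑ k ∈ Icc 2 x, Pool.Agent.SPM.N k ≤ (S (2 * x) (2 * x)).ncard := by
  classical
  have hfin : (S (2 * x) (2 * x)).Finite := (main 1 le_rfl (2 * x) (2 * x)).1
  set A : ℕ → Finset (Multiset ℕ) := fun k =>
    if h : 2 ≤ k then ((Pool.Agent.SPM.Sol46.fin h).toFinset).image f else ∅ with hA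
  have hcard : ∀ k ∈ Icc 2 x, Pool.Agent.SPM.N k = (A k).card := by
    intro k hk
    have h2 : 2 ≤ k := (Finset.mem_Icc.1 hk).1
    simp only [hA, dif_pos h2]
    rw [Finset.card_image_of_injOn]
    · unfold Pool.Agent.SPM.N
      exact Set.ncard_eq_toFinset_card _ _
    · intro s hs s' hs' hss
      rw [Finset.mem_coe, Set.Finite.mem_toFinset] at hs hs'
      have d1 := decomp hs
      have d2 := decomp hs'
      rw [d1.1, d2.1]
      have hss' : f s = f s' := hss
      rw [hss']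
  have hmem : ∀ k ∈ Icc 2 x, ∀ m ∈ A k, m ∈ S (2 * x) (2 * x) ∧ k + m.sum = m.prod + m.card := by
    intro k hk m hm
    have h2 : 2 ≤ k := (Finset.mem_Icc.1 hk).1
    have hkx : k ≤ x := (Finset.mem_Icc.1 hk).2
    simp only [hA, dif_pos h2, Finset.mem_image, Set.Finite.mem_toFinset] at hm
    obtain ⟨s, hs, rfl⟩ := hm
    have hp := prod_le h2 hs
    refine ⟨⟨fun a ha => ⟨f_two s a ha, ?_⟩, by omega⟩, (decomp hs).2.2.2⟩
    have h3 : a ≤ (f s).prod := Nat.le_of_dvd (prod_pos _ (f_two s)) (Multiset.dvd_prod ha)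
    omega
  have hdisj : ((Icc 2 x : Finset ℕ) : Set ℕ).PairwiseDisjoint A := by
    intro k hk l hl hkl
    simp only [Function.onFun]
    rw [Finset.disjoint_left]
    intro m h1 h2
    have e1 := (hmem k (by exact_mod_cast hk) m h1).2
    have e2 := (hmem l (by exact_mod_cast hl) m h2).2
    omega
  rw [Finset.sum_congr rfl hcard, ← Finset.card_biUnion (fun k hk l hl hkl => hdisj (by exact_mod_cast hk) (by exact_mod_cast hl) hkl)]
  rw [Set.ncard_eq_toFinset_card _ hfin]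
  apply Finset.card_le_card
  intro m hm
  rw [Finset.mem_biUnion] at hm
  obtain ⟨k, hk, hm⟩ := hm
  rw [Set.Finite.mem_toFinset]
  exact (hmem k hk m hm).1

end Up77

open Up77 in
theorem up77 : RowUp := by
  refine ⟨2 * Real.exp 3, ?_⟩
  intro x hx
  have hx0 : (0 : ℝ) < x := by exact_mod_cast (by omega : 0 < x)
  have hx2 : (2 : ℝ) ≤ x := by exact_mod_cast hx
  set l := Real.log x with hl
  have hl2 : Real.log 2 ≤ l := Real.log_le_log (by norm_num) hx2
  have hlog2 : (0 : ℝ) < Real.log 2 := Real.log_pos (by norm_num)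
  have hlog21 : Real.log 2 ≤ 1 := by
    have := Real.log_two_lt_d9
    linarith
  have hl0 : 0 < l := by linarith
  set s := Real.sqrt l with hs
  have hs0 : 0 < s := Real.sqrt_pos.2 hl0
  have hss : s * s = l := Real.mul_self_sqrt hl0.le
  have hls : Real.log 2 ≤ s := by
    apply Real.le_sqrt_of_sq_le
    nlinarith
  set e := 1 / s with he
  have he0 : 0 < e := by positivity
  have hel : e * l = s := by
    rw [he, ← hss]
    field_simp
  have hinv : 1 / e = s := by rw [he, one_div_one_div]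
  have he2 : e * Real.log 2 ≤ 1 := by
    rw [he, one_div, ← div_eq_inv_mul, div_le_one hs0]
    exact hls
  have hM : ((S (2 * x) (2 * x)).ncard : ℝ) ≤ 2 * Real.exp 3 * x * Real.exp (2 * s) := by
    have h1 := (main (1 + e) (by linarith) (2 * x) (2 * x)).2
    have h2 := P_le e he0 (2 * x) (by omega)
    have h3 : P (1 + e) (2 * x) ≤ Real.exp (s + 2) := by
      refine h2.trans (Real.exp_le_exp.2 ?_)
      have h4 : 0 ≤ ((2 * x : ℕ) : ℝ) ^ (-e) := by positivity
      have h5 : 0 ≤ 1 / ((2 * x : ℕ) : ℝ) := by positivity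
      rw [hinv]
      nlinarith [mul_nonneg hs0.le h4]
    have h6 : ((2 * x : ℕ) : ℝ) ^ (1 + e) ≤ 2 * x * Real.exp (s + 1) := by
      have hpos : (0 : ℝ) < ((2 * x : ℕ) : ℝ) := by push_cast; positivity
      rw [Real.rpow_add hpos, Real.rpow_one, Real.rpow_def_of_pos hpos]
      push_cast
      apply mul_le_mul_of_nonneg_left _ (by positivity)
      apply Real.exp_le_exp.2
      rw [Real.log_mul (by norm_num) hx0.ne', ← hl]
      nlinarith
    calc ((S (2 * x) (2 * x)).ncard : ℝ) ≤ ((2 * x : ℕ) : ℝ) ^ (1 + e) * P (1 + e) (2 * x) := h1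
      _ ≤ (2 * x * Real.exp (s + 1)) * Real.exp (s + 2) :=
          mul_le_mul h6 h3 (P_pos _ (by linarith) _).le (by positivity)
      _ = 2 * Real.exp 3 * x * Real.exp (2 * s) := by
          have : Real.exp (s + 1) * Real.exp (s + 2) = Real.exp 3 * Real.exp (2 * s) := by
            rw [← Real.exp_add, ← Real.exp_add]
            congr 1
            ring
          linear_combination (2 * (x : ℝ)) * this
  set E := (Icc 2 x).filter (fun k => Real.exp (4 * s) < (Pool.Agent.SPM.N k : ℝ)) with hE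
  have h1 : (E.card : ℝ) * Real.exp (4 * s) ≤ ∑ k ∈ E, (Pool.Agent.SPM.N k : ℝ) := by
    rw [← nsmul_eq_mul, ← Finset.sum_const]
    apply Finset.sum_le_sum
    intro k hk
    rw [hE, Finset.mem_filter] at hk
    exact hk.2.le
  have h2 : ∑ k ∈ E, (Pool.Agent.SPM.N k : ℝ) ≤ ∑ k ∈ Icc 2 x, (Pool.Agent.SPM.N k : ℝ) :=
    Finset.sum_le_sum_of_subset_of_nonneg (Finset.filter_subset _ _) (fun k _ _ => by positivity)
  have h3 : ∑ k ∈ Icc 2 x, (Pool.Agent.SPM.N k : ℝ) ≤ ((S (2 * x) (2 * x)).ncard : ℝ) := by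
    have := sum_N x
    exact_mod_cast this
  have h4 : (E.card : ℝ) * Real.exp (4 * s) ≤ 2 * Real.exp 3 * x * Real.exp (2 * s) := by linarith
  have h5 : (E.card : ℝ) = (E.card : ℝ) * Real.exp (4 * s) * Real.exp (-(4 * s)) := by
    rw [mul_assoc, ← Real.exp_add]
    simp
  rw [h5]
  calc (E.card : ℝ) * Real.exp (4 * s) * Real.exp (-(4 * s))
      ≤ (2 * Real.exp 3 * x * Real.exp (2 * s)) * Real.exp (-(4 * s)) :=
        mul_le_mul_of_nonneg_right h4 (Real.exp_pos _).le
    _ = 2 * Real.exp 3 * x * Real.exp (-(2 * s)) := by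
        rw [mul_assoc (2 * Real.exp 3 * (x : ℝ)), ← Real.exp_add]
        congr 2
        ring
    _ ≤ 2 * Real.exp 3 * x * Real.exp (-s) := by
        apply mul_le_mul_of_nonneg_left _ (by positivity)
        exact Real.exp_le_exp.2 (by linarith)

end Pool.Agent.SPA
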