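import Pool.Agent.SPA.Main920
import Pool.Agent.SPA.All46
import Pool.Agent.SPA.As869
import Pool.Agent.SPA.RowG820
import Pool.Agent.SPA.up77

/-!
# The two-sided main theorem
-/

set_option autoImplicit false

namespace Pool.Agent.SPA

theorem main8_20 : Main8 := by
  obtain ⟨C, c, K, hC, hc, hc1, hK, h⟩ := all46
  exact As869.as8 C c K hC hc hc1 hK h G820.g8

theorem main9_20 : Main9 := Main920.main9 main8_20 up77

end Pool.Agent.SPA
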