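import Pool.Agent.SPA.Stmts10

/-!
# Row As10 (MP_7a4c99): the choice of the parameters
-/

set_option autoImplicit false
set_option maxHeartbeats 1000000

namespace Pool.Agent.SPA.As1020

open Finset

/-- powers against the exponential function -/
lemma ev (M : ℝ) (n : ℕ) : ∃ L : ℝ, ∀ l : ℝ, L ≤ l → M * l ^ n ≤ Real.exp l := by
  have h := (Real.isLittleO_pow_exp_atTop (n := n)).def (show (0 : ℝ) < 1 / (|M| + 1) by positivity)
  rw [Filter.eventually_atTop] at h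
  obtain ⟨L, hL⟩ := h
  refine ⟨L, fun l hl => ?_⟩
  have h1 := hL l hl
  rw [Real.norm_eq_abs, Real.norm_eq_abs, abs_of_pos (Real.exp_pos l)] at h1
  have h2 : (|M| + 1) * |l ^ n| ≤ Real.exp l := by
    have h3 := mul_le_mul_of_nonneg_left h1 (show (0 : ℝ) ≤ |M| + 1 by positivity)
    have h4 : (|M| + 1) * (1 / (|M| + 1) * Real.exp l) = Real.exp l := by
      field_simp
    linarith
  calc M * l ^ n ≤ |M * l ^ n| := le_abs_self _
    _ = |M| * |l ^ n| := abs_mul _ _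
    _ ≤ (|M| + 1) * |l ^ n| := mul_le_mul_of_nonneg_right (by linarith) (abs_nonneg _)
    _ ≤ Real.exp l := h2

/-- the error terms, in terms of `lam = log z` -/
theorem err (C c x lam z R W : ℝ) (hC : 0 < C) (hc : 0 < c) (hx : 0 < x) (hlam : 0 < lam)
    (q6 : lam ^ 6 ≤ Real.exp (lam / 4)) (hz : Real.exp lam ≤ z) (hR0 : 0 < R) (hR : lam / 2 ≤ Real.log R)
    (hW : Real.exp lam ≤ W) :
    C * x / (c / lam ^ 3) ^ 2 * (16 / Real.sqrt z + 3360 / R + 1 / W) ≤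
      3377 * C / c ^ 2 * (x * Real.exp (-(lam / 4))) := by
  have hE : 0 < Real.exp (lam / 2) := Real.exp_pos _
  have e2 : 16 / Real.sqrt z ≤ 16 / Real.exp (lam / 2) := by
    apply div_le_div_of_nonneg_left (by norm_num) hE
    apply Real.le_sqrt_of_sq_le
    calc Real.exp (lam / 2) ^ 2 = Real.exp lam := by
          rw [← Real.exp_nat_mul]; push_cast; ring_nf
      _ ≤ z := hz
  have e3 : 3360 / R ≤ 3360 / Real.exp (lam / 2) := by
    apply div_le_div_of_nonneg_left (by norm_num) hE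
    rw [← Real.le_log_iff_exp_le hR0]
    exact hR
  have e4 : 1 / W ≤ 1 / Real.exp (lam / 2) :=
    div_le_div_of_nonneg_left (by norm_num) hE (le_trans (Real.exp_le_exp.2 (by linarith)) hW)
  have e5 : C * x / (c / lam ^ 3) ^ 2 ≤ C * x / c ^ 2 * Real.exp (lam / 4) := by
    have h1 : C * x / (c / lam ^ 3) ^ 2 = C * x / c ^ 2 * lam ^ 6 := by
      field_simp
    rw [h1]
    exact mul_le_mul_of_nonneg_left q6 (by positivity)
  have e6 : 16 / Real.sqrt z + 3360 / R + 1 / W ≤ 3377 / Real.exp (lam / 2) := by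
    calc 16 / Real.sqrt z + 3360 / R + 1 / W
        ≤ 16 / Real.exp (lam / 2) + 3360 / Real.exp (lam / 2) + 1 / Real.exp (lam / 2) := by linarith
      _ = 3377 / Real.exp (lam / 2) := by ring
  have hW0 : 0 < W := lt_of_lt_of_le (Real.exp_pos _) hW
  calc C * x / (c / lam ^ 3) ^ 2 * (16 / Real.sqrt z + 3360 / R + 1 / W)
      ≤ C * x / c ^ 2 * Real.exp (lam / 4) * (3377 / Real.exp (lam / 2)) :=
        mul_le_mul e5 e6 (by positivity) (by positivity)
    _ = 3377 * C / c ^ 2 * (x * Real.exp (-(lam / 4))) := by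
        have h1 : Real.exp (lam / 2) = Real.exp (lam / 4) * Real.exp (lam / 4) := by
          rw [← Real.exp_add]; ring_nf
        have h2 : Real.exp (-(lam / 4)) = (Real.exp (lam / 4))⁻¹ := by
          rw [← Real.exp_neg]
        rw [h1, h2]
        have h3 := Real.exp_pos (lam / 4)
        field_simp

/-- `δ W ≥ exp (lam / 2)` -/
theorem dW (c lam W : ℝ) (hc : 0 < c) (hlam : 0 < lam) (q5 : lam ^ 3 / c ≤ Real.exp (lam / 2))
    (hW : Real.exp lam ≤ W) : Real.exp (lam / 2) ≤ c / lam ^ 3 * W := by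
  have h2 : Real.exp (lam / 2) * (lam ^ 3 / c) ≤ W := by
    calc Real.exp (lam / 2) * (lam ^ 3 / c) ≤ Real.exp (lam / 2) * Real.exp (lam / 2) :=
          mul_le_mul_of_nonneg_left q5 (Real.exp_pos _).le
      _ = Real.exp lam := by rw [← Real.exp_add]; ring_nf
      _ ≤ W := hW
  have h3 := mul_le_mul_of_nonneg_left h2 (show 0 ≤ c / lam ^ 3 by positivity)
  have h4 : c / lam ^ 3 * (Real.exp (lam / 2) * (lam ^ 3 / c)) = Real.exp (lam / 2) := by
    field_simp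
  linarith

/-- the size of `r` and `ρ` -/
theorem sizes (c₀ t s : ℝ) (hc0 : 0 < c₀) (hc1 : c₀ ≤ 1) (ht : 16 ≤ t) (hs : s = Real.exp (t / 2))
    (h7 : 2 * t / c₀ ≤ Real.exp (t / 4)) (r ρ : ℕ) (hr : r = ⌊c₀ * s / t⌋₊) (hρ : ρ = Nat.log 2 r + 1) :
    (r : ℝ) ≤ c₀ * s / t ∧ c₀ * s / t / 2 ≤ r ∧ t / 4 ≤ r ∧ t / 4 ≤ ρ ∧ (ρ : ℝ) ≤ 2 * t := by
  have hs0 : 0 < s := by rw [hs]; exact Real.exp_pos _
  have hv : 2 * Real.exp (t / 4) ≤ c₀ * s / t := by
    rw [le_div_iff₀ (by linarith)]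
    rw [div_le_iff₀ hc0] at h7
    have h1 : s = Real.exp (t / 4) * Real.exp (t / 4) := by rw [hs, ← Real.exp_add]; ring_nf
    rw [h1]
    have h2 := mul_le_mul_of_nonneg_left h7 (Real.exp_pos (t / 4)).le
    linarith
  have he1 := Real.add_one_le_exp (t / 4)
  have a1 : (r : ℝ) ≤ c₀ * s / t := by rw [hr]; exact Nat.floor_le (by positivity)
  have a2 : c₀ * s / t < r + 1 := by rw [hr]; exact Nat.lt_floor_add_one _
  have a3 : c₀ * s / t / 2 ≤ r := by linarith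
  have a4 : Real.exp (t / 4) ≤ r := by linarith
  have hr0 : (0 : ℝ) < r := lt_of_lt_of_le (Real.exp_pos _) a4
  have a5 : t / 4 ≤ Real.log r := by rw [Real.le_log_iff_exp_le hr0]; exact a4
  have hrn : r ≠ 0 := by
    intro h
    rw [h] at hr0
    simp at hr0
  have l2a := Real.log_two_gt_d9
  have l2b := Real.log_two_lt_d9
  refine ⟨a1, a3, by linarith, ?_, ?_⟩
  · have b1 : r < 2 ^ ρ := by
      rw [hρ]; exact Nat.lt_pow_succ_log_self (by norm_num) r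
    have b2 : (r : ℝ) ≤ 2 ^ ρ := by exact_mod_cast b1.le
    have b3 := Real.log_le_log hr0 b2
    rw [Real.log_pow] at b3
    have b4 : (ρ : ℝ) * Real.log 2 ≤ ρ * 1 := mul_le_mul_of_nonneg_left (by linarith) (Nat.cast_nonneg _)
    linarith
  · have b1 : 2 ^ Nat.log 2 r ≤ r := Nat.pow_log_le_self 2 hrn
    have b2 : (2 : ℝ) ^ Nat.log 2 r ≤ r := by exact_mod_cast b1
    have b3 := Real.log_le_log (by positivity) b2
    rw [Real.log_pow] at b3
    have b4 : (r : ℝ) ≤ s := by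
      refine a1.trans ?_
      rw [div_le_iff₀ (by linarith)]
      have : c₀ * s ≤ 1 * s := mul_le_mul_of_nonneg_right hc1 hs0.le
      nlinarith
    have b5 : Real.log r ≤ t / 2 := by
      have := Real.log_le_log hr0 b4
      rw [hs, Real.log_exp] at this
      exact this
    have b6 : (Nat.log 2 r : ℝ) * 0.6931471803 ≤ Nat.log 2 r * Real.log 2 :=
      mul_le_mul_of_nonneg_left l2a.le (Nat.cast_nonneg _)
    rw [hρ]
    push_cast
    linarith

theorem as10 : RowAs10 := by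
  intro C c K hC hc hc1 hK hCore hG
  obtain ⟨C₁, hC1, hG⟩ := hG
  have hC1R : (1 : ℝ) ≤ C₁ := by exact_mod_cast hC1
  obtain ⟨c₀, hc₀⟩ : ∃ c₀ : ℝ, c₀ = 1 / (24 * C₁) := ⟨_, rfl⟩
  have hc00 : 0 < c₀ := by rw [hc₀]; positivity
  have hc01 : c₀ ≤ 1 := by
    rw [hc₀, div_le_one (by positivity)]
    linarith
  have hc0C : 24 * C₁ * c₀ = 1 := by rw [hc₀]; field_simp
  obtain ⟨L5, hL5⟩ := ev (8 / c) 3
  obtain ⟨L6, hL6⟩ := ev (4 ^ 6) 6
  obtain ⟨L7, hL7⟩ := ev (8 / c₀) 1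
  obtain ⟨t₀, ht₀⟩ : ∃ t₀ : ℝ, t₀ = 4 * (128 + 6 * K + 2 * |L5| + 4 * |L6| + |L7|) := ⟨_, rfl⟩
  have g1 := abs_nonneg L5
  have g2 := abs_nonneg L6
  have g3 := abs_nonneg L7
  have g4 := le_abs_self L5
  have g5 := le_abs_self L6
  have g6 := le_abs_self L7
  refine ⟨c₀ / 16, Real.exp (Real.exp (t₀ / 2)) + 13 + 3377 * C / c ^ 2, by positivity, fun x hx => ?_⟩
  have hx16 : (16 : ℝ) ≤ x := by exact_mod_cast hx
  have hx0 : (0 : ℝ) < x := by linarith
  obtain ⟨X, hX⟩ : ∃ X, X = Real.log x := ⟨_, rfl⟩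
  have hXe : Real.exp 1 ≤ X := by
    have h3 : Real.log 16 ≤ Real.log x := Real.log_le_log (by norm_num) hx16
    have h4 : Real.log 16 = 4 * Real.log 2 := by
      rw [show (16 : ℝ) = 2 ^ 4 by norm_num, Real.log_pow]
      norm_num
    have h5 := Real.log_two_gt_d9
    have h6 := Real.exp_one_lt_d9
    rw [hX]
    linarith
  have hX0 : 0 < X := lt_of_lt_of_le (Real.exp_pos 1) hXe
  obtain ⟨t, ht⟩ : ∃ t, t = Real.log X := ⟨_, rfl⟩
  have ht1 : 1 ≤ t := by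
    rw [ht, Real.le_log_iff_exp_le hX0]
    exact hXe
  obtain ⟨s, hs⟩ : ∃ s, s = Real.sqrt X := ⟨_, rfl⟩
  have hs0 : 0 < s := by rw [hs]; exact Real.sqrt_pos.mpr hX0
  have hse : s = Real.exp (t / 2) := by
    rw [ht, ← Real.log_sqrt hX0.le, ← hs, Real.exp_log hs0]
  have hs2 : s ^ 2 = X := by rw [hs]; exact Real.sq_sqrt hX0.le
  have hs1 : 1 ≤ s := by rw [hse]; exact Real.one_le_exp (by linarith)
  have hxe : Real.exp X = x := by rw [hX, Real.exp_log hx0]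
  obtain ⟨g, hg⟩ : ∃ g, g = G x := ⟨_, rfl⟩
  have hg1 : g = s * Real.log t / t := by
    rw [hg]
    unfold G
    rw [← hX, ← ht, ← hs]
  rw [← hg]
  have hlt0 : 0 ≤ Real.log t := Real.log_nonneg ht1
  have hg0 : 0 ≤ g := by rw [hg1]; positivity
  have hgs : g ≤ s := by
    rw [hg1, div_le_iff₀ (by linarith)]
    exact mul_le_mul_of_nonneg_left (Real.log_le_self (by linarith)) hs0.le
  have hcg : c₀ / 16 * g ≤ g := by
    have : c₀ / 16 * g ≤ 1 * g := mul_le_mul_of_nonneg_right (by linarith) hg0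
    linarith
  have hCc : 0 ≤ 3377 * C / c ^ 2 := by positivity
  have hE1 : 0 < Real.exp (-(c₀ / 16 * g)) := Real.exp_pos _
  by_cases htl : t < t₀
  · have h3 : (((Icc 2 x).filter (fun k => (Pool.Agent.SPM.N k : ℝ) < Real.exp (c₀ / 16 * g))).card : ℝ) ≤ x := by
      have h4 : ((Icc 2 x).filter (fun k => (Pool.Agent.SPM.N k : ℝ) < Real.exp (c₀ / 16 * g))).card ≤ x := by
        refine (card_filter_le _ _).trans ?_
        rw [Nat.card_Icc]; omega
      exact_mod_cast h4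
    refine h3.trans ?_
    have h2 : g ≤ Real.exp (t₀ / 2) := hgs.trans (by rw [hse]; exact Real.exp_le_exp.2 (by linarith))
    have h5 : 1 ≤ Real.exp (Real.exp (t₀ / 2)) * Real.exp (-(c₀ / 16 * g)) := by
      rw [← Real.exp_add]
      exact Real.one_le_exp (by linarith)
    have h6 : 1 ≤ (Real.exp (Real.exp (t₀ / 2)) + 13 + 3377 * C / c ^ 2) * Real.exp (-(c₀ / 16 * g)) := by
      refine h5.trans (mul_le_mul_of_nonneg_right ?_ hE1.le)
      linarith
    calc (x : ℝ) = x * 1 := (mul_one _).symm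
      _ ≤ x * ((Real.exp (Real.exp (t₀ / 2)) + 13 + 3377 * C / c ^ 2) * Real.exp (-(c₀ / 16 * g))) :=
          mul_le_mul_of_nonneg_left h6 hx0.le
      _ = _ := by ring
  push Not at htl
  have ht512 : 512 ≤ t := by linarith
  have h7 : 2 * t / c₀ ≤ Real.exp (t / 4) := by
    have := hL7 (t / 4) (by linarith)
    have e : 8 / c₀ * (t / 4) ^ 1 = 2 * t / c₀ := by ring
    rw [e] at this
    exact this
  obtain ⟨r, hr⟩ : ∃ r, r = ⌊c₀ * s / t⌋₊ := ⟨_, rfl⟩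
  obtain ⟨ρ, hρ⟩ : ∃ ρ, ρ = Nat.log 2 r + 1 := ⟨_, rfl⟩
  obtain ⟨b1, b2, b3, b4, b5⟩ := sizes c₀ t s hc00 hc01 (by linarith) hse h7 r ρ hr hρ
  have hr1 : (1 : ℝ) ≤ r := by linarith
  have hr0 : (0 : ℝ) < r := by linarith
  have hr1n : 1 ≤ r := by exact_mod_cast hr1
  have hρ128 : (128 : ℝ) ≤ ρ := by linarith
  have hρ0 : (0 : ℝ) < ρ := by linarith
  have hρn : 3 ≤ ρ := by
    have : (3 : ℝ) ≤ ρ := by linarith
    exact_mod_cast this
  have hρK : 6 * K ≤ ρ := by linarith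
  obtain ⟨T, hT, hW⟩ := hG r hr1n
  rw [← hρ] at hT hW
  obtain ⟨R, hR⟩ : ∃ R, R = 2 ^ (C₁ * r ^ 2 * ρ ^ 2) := ⟨_, rfl⟩
  rw [← hR] at hT
  have hR3 : 3 ≤ R := by
    have h1 : 1 ≤ C₁ * r ^ 2 := Nat.mul_pos hC1 (by positivity)
    have h2 : 3 ^ 2 ≤ ρ ^ 2 := Nat.pow_le_pow_left hρn 2
    have h3 : 1 * 3 ^ 2 ≤ C₁ * r ^ 2 * ρ ^ 2 := Nat.mul_le_mul h1 h2
    have h4 : 2 ^ 2 ≤ 2 ^ (C₁ * r ^ 2 * ρ ^ 2) := Nat.pow_le_pow_right (by norm_num) (by omega)
    omega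
  have hR0 : (0 : ℝ) < R := by
    have : 0 < R := by omega
    exact_mod_cast this
  obtain ⟨Y, hY⟩ : ∃ Y : ℝ, Y = (r : ℝ) ^ 2 * (ρ : ℝ) ^ 2 := ⟨_, rfl⟩
  have hlR : Real.log R = C₁ * Y * Real.log 2 := by
    rw [hR, hY]; push_cast
    rw [Real.log_pow]
    push_cast
    ring
  have l2a := Real.log_two_gt_d9
  have l2b := Real.log_two_lt_d9
  have hY0 : 0 ≤ Y := by rw [hY]; positivity
  have hYle : 6 * (C₁ * Y) ≤ X / 24 := by
    have h1 : (r : ℝ) * ρ ≤ 2 * (c₀ * s) := by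
      calc (r : ℝ) * ρ ≤ c₀ * s / t * (2 * t) := mul_le_mul b1 b5 (by positivity) (by positivity)
        _ = 2 * (c₀ * s) := by field_simp
    have h2 : Y ≤ (2 * (c₀ * s)) ^ 2 := by
      rw [hY, ← mul_pow]
      exact pow_le_pow_left₀ (by positivity) h1 2
    have h3 : 6 * (C₁ * (2 * (c₀ * s)) ^ 2) = 24 * C₁ * c₀ * c₀ * X := by rw [← hs2]; ring
    have h4 : 6 * (C₁ * Y) ≤ 6 * (C₁ * (2 * (c₀ * s)) ^ 2) :=
      mul_le_mul_of_nonneg_left (mul_le_mul_of_nonneg_left h2 (by linarith)) (by norm_num)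
    have h5 : c₀ * X ≤ 1 / 24 * X := by
      apply mul_le_mul_of_nonneg_right _ hX0.le
      rw [hc₀]
      exact one_div_le_one_div_of_le (by norm_num) (by linarith)
    rw [h3, hc0C, one_mul] at h4
    linarith
  obtain ⟨z, hz⟩ : ∃ z, z = ρ ^ r := ⟨_, rfl⟩
  have hz3 : 3 ≤ z := by
    rw [hz]
    exact hρn.trans (Nat.le_self_pow (by omega) ρ)
  have hz0 : (0 : ℝ) < z := by
    have : 0 < z := by omega
    exact_mod_cast this
  obtain ⟨lam, hlam⟩ : ∃ lam, lam = Real.log z := ⟨_, rfl⟩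
  have hlamr : lam = r * Real.log ρ := by
    rw [hlam, hz]; push_cast
    rw [Real.log_pow]
  have hlρ1 : 1 ≤ Real.log ρ := by
    rw [Real.le_log_iff_exp_le hρ0]
    have := Real.exp_one_lt_d9
    linarith
  have hlρ2 : Real.log ρ ^ 2 ≤ 4 * ρ := by
    have h1 := Real.log_le_sub_one_of_pos (Real.sqrt_pos.mpr hρ0)
    rw [Real.log_sqrt hρ0.le] at h1
    have h2 := Real.sqrt_nonneg (ρ : ℝ)
    have h3 : Real.log ρ ≤ 2 * Real.sqrt ρ := by linarith
    calc Real.log ρ ^ 2 ≤ (2 * Real.sqrt ρ) ^ 2 := pow_le_pow_left₀ (by linarith) h3 2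
      _ = 4 * ρ := by rw [mul_pow, Real.sq_sqrt hρ0.le]; norm_num
  have hlρ3 : Real.log ρ ≤ ρ := Real.log_le_self hρ0.le
  have hlamr2 : (r : ℝ) ≤ lam := by
    rw [hlamr]
    calc (r : ℝ) = r * 1 := (mul_one _).symm
      _ ≤ r * Real.log ρ := mul_le_mul_of_nonneg_left hlρ1 hr0.le
  have hlam0 : 0 < lam := by linarith
  have hzlam : Real.exp lam ≤ z := by rw [hlam, Real.exp_log hz0]
  obtain ⟨W, hWd⟩ : ∃ W, W = ∑ p ∈ T, (1 : ℝ) / p.1 := ⟨_, rfl⟩
  rw [← hWd] at hW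
  have hWz : Real.exp lam ≤ W := by
    rw [hlam, Real.exp_log hz0]
    refine le_trans ?_ hW
    have h1 : 2 * (ρ : ℝ) ≤ (ρ : ℝ) ^ 2 / 64 := by
      rw [le_div_iff₀ (by norm_num)]
      nlinarith
    have h2 : (2 * (ρ : ℝ)) ^ r ≤ ((ρ : ℝ) ^ 2 / 64) ^ r := pow_le_pow_left₀ (by positivity) h1 r
    have h3 : (2 : ℝ) ≤ 2 ^ r := by
      calc (2 : ℝ) = 2 ^ 1 := by norm_num
        _ ≤ 2 ^ r := pow_le_pow_right₀ (by norm_num) hr1n
    rw [mul_pow] at h2
    have h4 : 2 * (ρ : ℝ) ^ r ≤ 2 ^ r * (ρ : ℝ) ^ r := mul_le_mul_of_nonneg_right h3 (by positivity)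
    rw [hz, le_div_iff₀ (by norm_num)]
    push_cast
    linarith
  have hrr : (r : ℝ) * ρ ≤ Y := by
    rw [hY]
    have h1 : (r : ℝ) * 1 ≤ r * r := mul_le_mul_of_nonneg_left hr1 hr0.le
    have h2 : (ρ : ℝ) * 1 ≤ ρ * ρ := mul_le_mul_of_nonneg_left (by linarith) hρ0.le
    rw [sq, sq]
    exact mul_le_mul (by linarith) (by linarith) hρ0.le (by positivity)
  have hKR : K * Real.log z ^ 2 ≤ Real.log R := by
    rw [← hlam, hlR, hlamr, mul_pow]
    have h1 : K * (r ^ 2 * Real.log ρ ^ 2) ≤ K * (r ^ 2 * (4 * ρ)) :=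
      mul_le_mul_of_nonneg_left (mul_le_mul_of_nonneg_left hlρ2 (by positivity)) (by linarith)
    have h2 : K * ((r : ℝ) ^ 2 * (4 * ρ)) = (r ^ 2 * ρ) * (4 * K) := by ring
    have h3 : ((r : ℝ) ^ 2 * ρ) * (4 * K) ≤ (r ^ 2 * ρ) * (ρ * (2 / 3)) :=
      mul_le_mul_of_nonneg_left (by linarith) (by positivity)
    have h4 : ((r : ℝ) ^ 2 * ρ) * (ρ * (2 / 3)) = Y * (2 / 3) := by rw [hY]; ring
    have h5 : Y * (2 / 3) ≤ C₁ * Y * Real.log 2 := by
      have h6 : 1 * Y ≤ C₁ * Y := mul_le_mul_of_nonneg_right hC1R hY0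
      have h7 : C₁ * Y * (2 / 3) ≤ C₁ * Y * Real.log 2 := mul_le_mul_of_nonneg_left (by linarith) (by positivity)
      linarith
    linarith
  have q5 : lam ^ 3 / c ≤ Real.exp (lam / 2) := by
    have h1 := hL5 (lam / 2) (by linarith)
    have h2 : 8 / c * (lam / 2) ^ 3 = lam ^ 3 / c := by ring
    rw [h2] at h1
    exact h1
  have q6 : lam ^ 6 ≤ Real.exp (lam / 4) := by
    have h1 := hL6 (lam / 4) (by linarith)
    have h2 : 4 ^ 6 * (lam / 4) ^ 6 = lam ^ 6 := by ring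
    rw [h2] at h1
    exact h1
  have hdW := dW c lam W hc hlam0 q5 hWz
  have hcore := hCore z R x T hz3 hR3 hKR hT (by
    rw [← hWd, ← hlam]
    exact (Real.one_le_exp (by positivity)).trans hdW)
  rw [← hWd, ← hlam] at hcore
  -- `c₀ g / 16 ≤ lam / 4`
  have hglam : c₀ / 16 * g ≤ lam / 4 := by
    have h1 : Real.log t / 2 ≤ Real.log ρ := by
      have h2 : Real.log (t / 4) ≤ Real.log ρ := Real.log_le_log (by linarith) b4
      rw [Real.log_div (by linarith) (by norm_num), show (4 : ℝ) = 2 ^ 2 by norm_num, Real.log_pow] at h2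
      have h3 : Real.log 16 ≤ Real.log t := Real.log_le_log (by norm_num) (by linarith)
      rw [show (16 : ℝ) = 2 ^ 4 by norm_num, Real.log_pow] at h3
      push_cast at h2 h3
      linarith
    have h4 : c₀ * s / t / 2 * (Real.log t / 2) ≤ lam := by
      rw [hlamr]
      exact mul_le_mul b2 h1 (by linarith) hr0.le
    have h5 : c₀ * s / t / 2 * (Real.log t / 2) = c₀ * g / 4 := by
      rw [hg1]; ring
    rw [h5] at h4
    linarith
  have hsub : (((Icc 2 x).filter (fun k => (Pool.Agent.SPM.N k : ℝ) < Real.exp (c₀ / 16 * g))).card : ℝ) ≤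
      (((Icc 2 x).filter (fun k => (Pool.Agent.SPM.N k : ℝ) < 10 * (c / lam ^ 3) * W)).card : ℝ) := by
    have h1 : Real.exp (c₀ / 16 * g) ≤ 10 * (c / lam ^ 3) * W := by
      have h2 : Real.exp (c₀ / 16 * g) ≤ Real.exp (lam / 2) := Real.exp_le_exp.2 (by linarith)
      have h3 := Real.exp_pos (lam / 2)
      linarith
    have h4 : (Icc 2 x).filter (fun k => (Pool.Agent.SPM.N k : ℝ) < Real.exp (c₀ / 16 * g)) ⊆
        (Icc 2 x).filter (fun k => (Pool.Agent.SPM.N k : ℝ) < 10 * (c / lam ^ 3) * W) := by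
      intro k hk
      rw [mem_filter] at hk ⊢
      exact ⟨hk.1, lt_of_lt_of_le hk.2 h1⟩
    exact_mod_cast card_le_card h4
  refine hsub.trans (hcore.trans ?_)
  have e1 : (R : ℝ) ^ 94 ≤ x * Real.exp (-(c₀ / 16 * g)) := by
    have h1 : (R : ℝ) ^ 94 = Real.exp (94 * Real.log R) := by
      rw [show (94 : ℝ) * Real.log R = ((94 : ℕ) : ℝ) * Real.log R by norm_num, Real.exp_nat_mul,
        Real.exp_log hR0]
    have h2 : Real.log R ≤ C₁ * Y * 0.6931471808 := by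
      rw [hlR]
      exact mul_le_mul_of_nonneg_left l2b.le (by positivity)
    have h3 : g ≤ X := by
      have : s * 1 ≤ s * s := mul_le_mul_of_nonneg_left hs1 hs0.le
      rw [← hs2, sq]
      linarith
    have h4 : c₀ / 16 * g ≤ 1 / 16 * X :=
      mul_le_mul (by linarith) h3 hg0 (by norm_num)
    rw [h1, ← hxe, ← Real.exp_add]
    apply Real.exp_le_exp.2
    linarith
  have hRlog : lam / 2 ≤ Real.log R := by
    rw [hlR, hlamr]
    have h1 : (r : ℝ) * Real.log ρ ≤ r * ρ := mul_le_mul_of_nonneg_left hlρ3 hr0.le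
    have h6 : 1 * Y ≤ C₁ * Y := mul_le_mul_of_nonneg_right hC1R hY0
    have h7 : C₁ * Y * (1 / 2) ≤ C₁ * Y * Real.log 2 := mul_le_mul_of_nonneg_left (by linarith) (by positivity)
    linarith
  have e7 := err C c x lam z R W hC hc hx0 hlam0 q6 hzlam hR0 hRlog hWz
  have e8 : 3377 * C / c ^ 2 * (x * Real.exp (-(lam / 4))) ≤ 3377 * C / c ^ 2 * (x * Real.exp (-(c₀ / 16 * g))) :=
    mul_le_mul_of_nonneg_left (mul_le_mul_of_nonneg_left (Real.exp_le_exp.2 (by linarith)) hx0.le) hCc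
  have e9 : 0 ≤ x * Real.exp (-(c₀ / 16 * g)) := by positivity
  have e10 : 0 ≤ Real.exp (Real.exp (t₀ / 2)) := (Real.exp_pos _).le
  calc 13 * (R : ℝ) ^ 94 + C * x / (c / lam ^ 3) ^ 2 * (16 / Real.sqrt z + 3360 / R + 1 / W)
      ≤ 13 * (x * Real.exp (-(c₀ / 16 * g))) +
        3377 * C / c ^ 2 * (x * Real.exp (-(c₀ / 16 * g))) := by linarith
    _ = (13 + 3377 * C / c ^ 2) * (x * Real.exp (-(c₀ / 16 * g))) := by ring
    _ ≤ (Real.exp (Real.exp (t₀ / 2)) + 13 + 3377 * C / c ^ 2) * (x * Real.exp (-(c₀ / 16 * g))) := by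
        apply mul_le_mul_of_nonneg_right _ e9
        linarith
    _ = _ := by ring

end Pool.Agent.SPA.As1020
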