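import Pool.Agent.SPA.Stmts10

/-!
# Row As10 (helper69)
-/

set_option autoImplicit false

namespace Pool.Agent.SPA.As1069

open Finset Filter

theorem evR (k : ℕ) (b ε : ℝ) (hb : 0 < b) (hε : 0 < ε) :
    ∀ᶠ t : ℝ in atTop, t ^ k ≤ ε * Real.exp (b * t) := by
  have h := (isLittleO_pow_exp_pos_mul_atTop (b := b) k hb).def hε
  filter_upwards [h, eventually_ge_atTop (0 : ℝ)] with t ht ht0
  rw [Real.norm_of_nonneg (by positivity), Real.norm_of_nonneg (Real.exp_pos _).le] at ht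
  exact ht

theorem tend_ll : Tendsto (fun x : ℕ => Real.log (Real.log (x : ℝ))) atTop atTop :=
  Real.tendsto_log_atTop.comp (Real.tendsto_log_atTop.comp tendsto_natCast_atTop_atTop)

theorem as10 : RowAs10 := by
  intro C c K hC hc hc1 hK hcore hG
  obtain ⟨C₁, hC₁, hG⟩ := hG
  have hC₁r : (1 : ℝ) ≤ C₁ := by exact_mod_cast hC₁
  set c₀ : ℝ := 1 / (24 * C₁) with hc₀
  have hc₀p : 0 < c₀ := by rw [hc₀]; positivity
  have hc₀1 : c₀ ≤ 1 := by
    rw [hc₀, div_le_one (by positivity)]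
    linarith
  obtain ⟨m, hm⟩ := exists_nat_ge (6 * K + 128)
  obtain ⟨t₀, ht₀⟩ := eventually_atTop.1 ((evR 6 (1 / 8) 1 (by norm_num) one_pos).and (evR 3 (1 / 2) c (by norm_num) hc))
  obtain ⟨n₀, hn₀⟩ := exists_nat_ge t₀
  set r₀ : ℕ := max (max n₀ 2) (2 ^ m) with hr₀
  obtain ⟨l₀, hl₀⟩ := eventually_atTop.1 (((evR 1 (1 / 4) c₀ (by norm_num) hc₀p).and
    ((Real.tendsto_exp_atTop.comp (tendsto_id.atTop_div_const (show (0 : ℝ) < 4 by norm_num))).eventually_ge_atTop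
      ((r₀ : ℝ) + 1))).and (eventually_ge_atTop (1 : ℝ)))
  obtain ⟨X₀, hX₀⟩ := eventually_atTop.1 (tend_ll.eventually_ge_atTop l₀)
  have hSm : 0 ≤ ∑ j ∈ range (X₀ + 16), Real.exp (c₀ / 8 * G j) := Finset.sum_nonneg fun j _ => (Real.exp_pos _).le
  refine ⟨c₀ / 8, (∑ j ∈ range (X₀ + 16), Real.exp (c₀ / 8 * G j)) + 13 + 3377 * C / c ^ 2, by positivity, ?_⟩
  intro x hx
  have hx16r : (16 : ℝ) ≤ x := by exact_mod_cast hx
  have hx0 : (0 : ℝ) < x := by linarith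
  set e : ℝ := Real.exp (-(c₀ / 8 * G x)) with he
  have he0 : 0 < e := Real.exp_pos _
  have hc2 : 0 < 3377 * C / c ^ 2 := by positivity
  have hxe0 : 0 < (x : ℝ) * e := by positivity
  by_cases hxs : x < X₀ + 16
  · have hcard : (((Icc 2 x).filter (fun k => (Pool.Agent.SPM.N k : ℝ) < Real.exp (c₀ / 8 * G x))).card : ℝ) ≤ x := by
      have h1 : ((Icc 2 x).filter (fun k => (Pool.Agent.SPM.N k : ℝ) < Real.exp (c₀ / 8 * G x))).card ≤ (Icc 2 x).card :=
        card_le_card (filter_subset _ _)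
      have h2 : (Icc 2 x).card ≤ x := by
        rw [Nat.card_Icc]
        omega
      exact_mod_cast h1.trans h2
    have h1 : Real.exp (c₀ / 8 * G x) ≤ ∑ j ∈ range (X₀ + 16), Real.exp (c₀ / 8 * G j) :=
      Finset.single_le_sum (f := fun j : ℕ => Real.exp (c₀ / 8 * G j)) (fun j _ => (Real.exp_pos _).le) (mem_range.2 hxs)
    have h2 : Real.exp (c₀ / 8 * G x) * e = 1 := by
      rw [he, ← Real.exp_add, add_neg_cancel, Real.exp_zero]
    have h3 : 1 ≤ (∑ j ∈ range (X₀ + 16), Real.exp (c₀ / 8 * G j)) * e := by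
      rw [← h2]
      exact mul_le_mul_of_nonneg_right h1 he0.le
    have h4 : 0 ≤ (13 + 3377 * C / c ^ 2) * (x * e) := by positivity
    calc _ ≤ (x : ℝ) := hcard
      _ = 1 * x := (one_mul _).symm
      _ ≤ ((∑ j ∈ range (X₀ + 16), Real.exp (c₀ / 8 * G j)) * e) * x := mul_le_mul_of_nonneg_right h3 hx0.le
      _ ≤ ((∑ j ∈ range (X₀ + 16), Real.exp (c₀ / 8 * G j)) * e) * x +
          (13 + 3377 * C / c ^ 2) * (x * e) := by linarith
      _ = _ := by ring
  push Not at hxs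
  have hll := hX₀ x (by omega)
  set l : ℝ := Real.log (Real.log x) with hl
  obtain ⟨⟨hl4, hlr⟩, hl1⟩ := hl₀ l hll
  have hl0 : 0 < l := by linarith
  have hlogpos : 0 < Real.log x := Real.log_pos (by linarith)
  have hlog1 : 1 ≤ Real.log x := by
    have : l ≤ Real.log x - 1 := Real.log_le_sub_one_of_pos hlogpos
    linarith
  set s : ℝ := Real.sqrt (Real.log x) with hs
  have hs1 : 1 ≤ s := by
    rw [hs, Real.one_le_sqrt]
    exact hlog1
  have hs2 : s ^ 2 = Real.log x := Real.sq_sqrt hlogpos.le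
  have hlogs : Real.log s = l / 2 := by
    rw [hs, Real.log_sqrt hlogpos.le]
  have hsexp : s = Real.exp (l / 2) := by
    rw [← hlogs, Real.exp_log (by linarith)]
  have hlogl : 0 ≤ Real.log l := Real.log_nonneg hl1
  have hlogl1 : Real.log l ≤ l := (Real.log_le_sub_one_of_pos hl0).trans (by linarith)
  have hGx : G x = s / l * Real.log l := by
    rw [G]
    ring
  have hys : s / l ≤ s := div_le_self (by linarith) hl1
  have hy0 : 0 ≤ s / l := by positivity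
  have hyl : s / l * l = s := by field_simp
  set r : ℕ := ⌊c₀ * (s / l)⌋₊ with hr
  have hr1 : (r : ℝ) ≤ c₀ * (s / l) := Nat.floor_le (by positivity)
  have hr2 : c₀ * (s / l) < (r : ℝ) + 1 := Nat.lt_floor_add_one _
  -- `r + 1` is at least `exp (l / 4)`
  have hexpl : Real.exp (l / 4) ≤ (r : ℝ) + 1 := by
    refine le_trans ?_ hr2.le
    have h1 : l ≤ c₀ * Real.exp (l / 4) := by
      have := hl4
      rw [pow_one] at this
      have e1 : (1 : ℝ) / 4 * l = l / 4 := by ring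
      rwa [e1] at this
    have h2 : s = Real.exp (l / 4) * Real.exp (l / 4) := by
      rw [hsexp, ← Real.exp_add]
      congr 1
      ring
    rw [mul_div_assoc', le_div_iff₀ hl0]
    calc Real.exp (l / 4) * l ≤ Real.exp (l / 4) * (c₀ * Real.exp (l / 4)) :=
          mul_le_mul_of_nonneg_left h1 (Real.exp_pos _).le
      _ = c₀ * s := by rw [h2]; ring
  have hrr₀ : r₀ ≤ r := by
    have h1 : (r₀ : ℝ) + 1 ≤ r + 1 := by
      refine le_trans ?_ hexpl
      exact hlr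
    have h2 : (r₀ : ℝ) ≤ r := by linarith
    exact_mod_cast h2
  have hn₀r : n₀ ≤ r := ((le_max_left _ _).trans (le_max_left _ _)).trans hrr₀
  have h2r : 2 ≤ r := ((le_max_right _ _).trans (le_max_left _ _)).trans hrr₀
  have hmr : 2 ^ m ≤ r := (le_max_right _ _).trans hrr₀
  have h1r : 1 ≤ r := by omega
  have hr0 : (2 : ℝ) ≤ r := by exact_mod_cast h2r
  obtain ⟨T, hT, hW0⟩ := hG r h1r
  set W : ℝ := ∑ p ∈ T, (1 : ℝ) / p.1 with hWd
  set R : ℕ := 2 ^ (C₁ * r ^ 2 * (Nat.log 2 r + 1) ^ 2) with hRd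
  set ρ : ℕ := Nat.log 2 r + 1 with hρ
  have hl2 := Real.log_two_gt_d9
  have hl2' := Real.log_two_lt_d9
  have hρK : 6 * K + 128 ≤ (ρ : ℝ) := by
    have h1 : m ≤ Nat.log 2 r := by
      have := Nat.log_mono_right (b := 2) hmr
      rwa [Nat.log_pow (by norm_num)] at this
    have h2 : (m : ℝ) ≤ (Nat.log 2 r : ℝ) := by exact_mod_cast h1
    rw [hρ]
    push_cast
    linarith
  have hρ128 : (128 : ℝ) ≤ ρ := by linarith
  have hρ1 : (1 : ℝ) ≤ ρ := by linarith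
  have hρp : (0 : ℝ) < ρ := by linarith
  have hρ3 : 3 ≤ ρ := by
    have : (3 : ℝ) ≤ ρ := by linarith
    exact_mod_cast this
  -- `ρ ≤ 2 l`
  have hgl : (ρ : ℝ) ≤ 2 * l := by
    have h1 : 2 ^ Nat.log 2 r ≤ r := Nat.pow_log_le_self 2 (by omega)
    have h2 : ((2 : ℝ)) ^ Nat.log 2 r ≤ r := by exact_mod_cast h1
    have h3 : (Nat.log 2 r : ℝ) * Real.log 2 ≤ Real.log r := by
      rw [← Real.log_pow]
      exact Real.log_le_log (by positivity) h2
    have h4 : (r : ℝ) ≤ s := by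
      calc (r : ℝ) ≤ c₀ * (s / l) := hr1
        _ ≤ 1 * (s / l) := mul_le_mul_of_nonneg_right hc₀1 hy0
        _ ≤ s := by rw [one_mul]; exact hys
    have h5 : Real.log r ≤ l / 2 := by
      rw [← hlogs]
      exact Real.log_le_log (by linarith) h4
    have h8 : (0 : ℝ) ≤ (Nat.log 2 r : ℝ) := Nat.cast_nonneg _
    have h9 : (Nat.log 2 r : ℝ) * (1 / 2) ≤ l / 2 := by
      refine le_trans ?_ (h3.trans h5)
      exact mul_le_mul_of_nonneg_left (by linarith) h8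
    rw [hρ]
    push_cast
    linarith
  -- `l ≤ 3 ρ`
  have hlρ : l ≤ 3 * ρ := by
    have h1 : r + 1 ≤ 2 ^ ρ := Nat.lt_pow_succ_log_self (by norm_num) r
    have h2 : (r : ℝ) + 1 ≤ (2 : ℝ) ^ ρ := by exact_mod_cast h1
    have h3 : l / 4 ≤ ρ * Real.log 2 := by
      rw [← Real.log_pow, ← Real.log_exp (l / 4)]
      exact Real.log_le_log (Real.exp_pos _) (hexpl.trans h2)
    have h4 : (ρ : ℝ) * Real.log 2 ≤ ρ * (3 / 4) := mul_le_mul_of_nonneg_left (by linarith) hρp.le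
    linarith
  set lam : ℝ := Real.log ρ with hlam
  have hlam1 : Real.log 3 ≤ lam := Real.log_le_log (by norm_num) (by linarith)
  have hlog3 : 1 ≤ Real.log 3 := by
    rw [Real.le_log_iff_exp_le (by norm_num)]
    have := Real.exp_one_lt_d9
    linarith
  have hlam0 : 1 ≤ lam := hlog3.trans hlam1
  have hllam : Real.log l ≤ 2 * lam := by
    have h1 : Real.log l ≤ Real.log (3 * ρ) := Real.log_le_log hl0 hlρ
    rw [Real.log_mul (by norm_num) (by linarith)] at h1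
    linarith
  have hcG : c₀ / 8 * G x ≤ ((r : ℝ) + 1) * lam / 4 := by
    rw [hGx]
    have h1 : c₀ * (s / l) * Real.log l ≤ ((r : ℝ) + 1) * (2 * lam) :=
      mul_le_mul hr2.le hllam hlogl (by positivity)
    calc c₀ / 8 * (s / l * Real.log l) = c₀ * (s / l) * Real.log l / 8 := by ring
      _ ≤ ((r : ℝ) + 1) * (2 * lam) / 8 := by linarith
      _ = _ := by ring
  have hz : Real.log ((ρ ^ r : ℕ) : ℝ) = r * lam := by
    push_cast
    rw [Real.log_pow]
  have hzexp : ((ρ ^ r : ℕ) : ℝ) = Real.exp (r * lam) := by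
    rw [← hz, Real.exp_log (by positivity)]
  have hRlog : Real.log (R : ℝ) = C₁ * (r : ℝ) ^ 2 * (ρ : ℝ) ^ 2 * Real.log 2 := by
    rw [hRd]
    push_cast
    rw [Real.log_pow]
    push_cast
    ring
  have hexpnat : r * ρ ≤ C₁ * r ^ 2 * ρ ^ 2 := by
    calc r * ρ = 1 * (r * 1) * (ρ * 1) := by ring
      _ ≤ C₁ * (r * r) * (ρ * ρ) := by
          apply Nat.mul_le_mul
          · exact Nat.mul_le_mul hC₁ (Nat.mul_le_mul_left r h1r)
          · exact Nat.mul_le_mul_left ρ (by omega)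
      _ = C₁ * r ^ 2 * ρ ^ 2 := by ring
  have hR2 : ρ ^ r ≤ R := by
    calc ρ ^ r ≤ (2 ^ ρ) ^ r := Nat.pow_le_pow_left (Nat.lt_two_pow_self).le r
      _ = 2 ^ (r * ρ) := by rw [← pow_mul, mul_comm]
      _ ≤ R := Nat.pow_le_pow_right (by norm_num) hexpnat
  have hz3 : 3 ≤ ρ ^ r := by
    calc 3 ≤ ρ := hρ3
      _ = ρ ^ 1 := (pow_one ρ).symm
      _ ≤ ρ ^ r := Nat.pow_le_pow_right (by omega) h1r
  have hR1 : (3 : ℕ) ≤ R := hz3.trans hR2
  have hlamsq : lam ^ 2 ≤ 4 * ρ := by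
    have h1 : 0 < Real.sqrt ρ := Real.sqrt_pos.2 hρp
    have h2 : Real.log (Real.sqrt ρ) = lam / 2 := Real.log_sqrt hρp.le
    have h3 : Real.log (Real.sqrt ρ) ≤ Real.sqrt ρ - 1 := Real.log_le_sub_one_of_pos h1
    have h4 : lam ≤ 2 * Real.sqrt ρ := by
      rw [h2] at h3
      linarith
    calc lam ^ 2 ≤ (2 * Real.sqrt ρ) ^ 2 := pow_le_pow_left₀ (by linarith) h4 2
      _ = 4 * (Real.sqrt ρ) ^ 2 := by ring
      _ = 4 * ρ := by rw [Real.sq_sqrt hρp.le]
  have hK2 : K * Real.log ((ρ ^ r : ℕ) : ℝ) ^ 2 ≤ Real.log R := by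
    rw [hz, hRlog]
    have h3 : 0 < (r : ℝ) ^ 2 := by positivity
    have h1 : K * ((r : ℝ) * lam) ^ 2 ≤ (r : ℝ) ^ 2 * (K * (4 * ρ)) := by
      calc K * ((r : ℝ) * lam) ^ 2 = (r : ℝ) ^ 2 * (K * lam ^ 2) := by ring
        _ ≤ _ := mul_le_mul_of_nonneg_left (mul_le_mul_of_nonneg_left hlamsq (by linarith)) h3.le
    have h4 : K * (4 * ρ) ≤ (ρ : ℝ) ^ 2 * (2 / 3) := by
      calc K * (4 * ρ) = (4 * K) * ρ := by ring
        _ ≤ (ρ * (2 / 3)) * ρ := mul_le_mul_of_nonneg_right (by linarith) hρp.le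
        _ = _ := by ring
    have h5 : (ρ : ℝ) ^ 2 * (2 / 3) ≤ (ρ : ℝ) ^ 2 * Real.log 2 :=
      mul_le_mul_of_nonneg_left (by linarith) (by positivity)
    have h6 : (r : ℝ) ^ 2 * ((ρ : ℝ) ^ 2 * Real.log 2) ≤ C₁ * ((r : ℝ) ^ 2 * ((ρ : ℝ) ^ 2 * Real.log 2)) := by
      have : 0 ≤ (r : ℝ) ^ 2 * ((ρ : ℝ) ^ 2 * Real.log 2) := by positivity
      exact le_mul_of_one_le_left this hC₁r
    calc _ ≤ _ := h1
      _ ≤ (r : ℝ) ^ 2 * ((ρ : ℝ) ^ 2 * Real.log 2) := mul_le_mul_of_nonneg_left (h4.trans h5) h3.le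
      _ ≤ _ := h6
      _ = _ := by ring
  -- the asymptotic inequalities at `t = r lam`
  set t : ℝ := (r : ℝ) * lam with ht
  have htr : (r : ℝ) ≤ t := by
    calc (r : ℝ) = r * 1 := (mul_one _).symm
      _ ≤ r * lam := mul_le_mul_of_nonneg_left hlam0 (by linarith)
  have htt₀ : t₀ ≤ t := by
    have : (n₀ : ℝ) ≤ r := by exact_mod_cast hn₀r
    linarith
  have ht0 : 0 < t := by linarith
  obtain ⟨hA6, hA3⟩ := ht₀ t htt₀
  have hq1 : ((r : ℝ) + 1) * lam / 4 ≤ t / 2 := by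
    have : lam ≤ t := by
      calc lam = 1 * lam := (one_mul _).symm
        _ ≤ r * lam := mul_le_mul_of_nonneg_right (by linarith) (by linarith)
    have e1 : ((r : ℝ) + 1) * lam = t + lam := by rw [ht]; ring
    rw [e1]
    linarith
  have hq2 : ((r : ℝ) + 1) * lam / 4 ≤ 3 * t / 8 := by
    have : 2 * lam ≤ t := mul_le_mul_of_nonneg_right hr0 (by linarith)
    have e1 : ((r : ℝ) + 1) * lam = t + lam := by rw [ht]; ring
    rw [e1]
    linarith
  have hE2 : t ^ 3 * Real.exp (((r : ℝ) + 1) * lam / 4) ≤ c * Real.exp t := by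
    calc t ^ 3 * Real.exp (((r : ℝ) + 1) * lam / 4) ≤ c * Real.exp (1 / 2 * t) * Real.exp (t / 2) := by
          apply mul_le_mul hA3 (Real.exp_le_exp.2 hq1) (Real.exp_pos _).le
          exact mul_nonneg hc.le (Real.exp_pos _).le
      _ = c * Real.exp t := by
          rw [mul_assoc, ← Real.exp_add]
          congr 2
          ring
  have hE3 : t ^ 6 * Real.exp (((r : ℝ) + 1) * lam / 4) ≤ Real.exp (t / 2) := by
    calc t ^ 6 * Real.exp (((r : ℝ) + 1) * lam / 4) ≤ 1 * Real.exp (1 / 8 * t) * Real.exp (3 * t / 8) := by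
          apply mul_le_mul hA6 (Real.exp_le_exp.2 hq2) (Real.exp_pos _).le
          positivity
      _ = Real.exp (t / 2) := by
          rw [one_mul, ← Real.exp_add]
          congr 1
          ring
  -- the weight
  have hW3 : Real.exp t ≤ W := by
    refine le_trans ?_ hW0
    rw [← hzexp]
    push_cast
    have h1 : ((ρ : ℝ) ^ 2 / 64) ^ r = (ρ : ℝ) ^ r * ((ρ : ℝ) / 64) ^ r := by
      rw [← mul_pow]
      congr 1
      ring
    have h2 : (2 : ℝ) ≤ ((ρ : ℝ) / 64) ^ r := by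
      calc (2 : ℝ) = 2 ^ 1 := (pow_one _).symm
        _ ≤ 2 ^ r := pow_le_pow_right₀ (by norm_num) h1r
        _ ≤ ((ρ : ℝ) / 64) ^ r := pow_le_pow_left₀ (by norm_num) (by linarith) r
    rw [h1, le_div_iff₀ (by norm_num)]
    exact mul_le_mul_of_nonneg_left h2 (by positivity)
  set δ : ℝ := c / Real.log ((ρ ^ r : ℕ) : ℝ) ^ 3 with hδ
  have hδ0 : 0 < δ := by
    rw [hδ, hz]
    positivity
  have hexp1 : 1 ≤ Real.exp (((r : ℝ) + 1) * lam / 4) := Real.one_le_exp (by positivity)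
  have hδW : Real.exp (((r : ℝ) + 1) * lam / 4) ≤ δ * W := by
    have h1 : Real.exp (((r : ℝ) + 1) * lam / 4) ≤ δ * Real.exp t := by
      rw [hδ, hz, div_mul_eq_mul_div, le_div_iff₀ (by positivity), mul_comm]
      exact hE2
    exact h1.trans (mul_le_mul_of_nonneg_left hW3 hδ0.le)
  have hmain := hcore (ρ ^ r) R x T hz3 hR1 hK2 hT (by
    rw [← hδ, ← hWd]
    exact hexp1.trans hδW)
  rw [← hδ, ← hWd] at hmain
  have her : Real.exp (-(((r : ℝ) + 1) * lam / 4)) ≤ e := Real.exp_le_exp.2 (by linarith)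
  -- inclusion
  have hincl : (((Icc 2 x).filter (fun k => (Pool.Agent.SPM.N k : ℝ) < Real.exp (c₀ / 8 * G x))).card : ℝ) ≤
      (((Icc 2 x).filter (fun k => (Pool.Agent.SPM.N k : ℝ) < 10 * δ * W)).card : ℝ) := by
    have : ((Icc 2 x).filter (fun k => (Pool.Agent.SPM.N k : ℝ) < Real.exp (c₀ / 8 * G x))) ⊆
        ((Icc 2 x).filter (fun k => (Pool.Agent.SPM.N k : ℝ) < 10 * δ * W)) := by
      intro k hk
      rw [mem_filter] at hk ⊢
      refine ⟨hk.1, hk.2.trans_le ?_⟩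
      have h1 : Real.exp (c₀ / 8 * G x) ≤ Real.exp (((r : ℝ) + 1) * lam / 4) := Real.exp_le_exp.2 hcG
      have h2 : 0 < δ * W := lt_of_lt_of_le (Real.exp_pos _) hδW
      calc Real.exp (c₀ / 8 * G x) ≤ δ * W := h1.trans hδW
        _ ≤ 10 * (δ * W) := by linarith
        _ = 10 * δ * W := by ring
    exact_mod_cast card_le_card this
  -- the first term
  have hxe : (x : ℝ) = Real.exp (s ^ 2) := by rw [hs2, Real.exp_log hx0]
  have hR94 : (R : ℝ) ^ 94 ≤ Real.exp (s ^ 2 / 2) := by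
    have hR0 : (0 : ℝ) < R := by exact_mod_cast (by omega : 0 < R)
    have h1 : (R : ℝ) ^ 94 = Real.exp (94 * Real.log R) := by
      rw [mul_comm, ← Real.rpow_def_of_pos hR0]
      norm_cast
    rw [h1, hRlog]
    apply Real.exp_le_exp.2
    have h2 : (r : ℝ) * ρ ≤ c₀ * (s / l) * (2 * l) := mul_le_mul hr1 hgl (by linarith) (by positivity)
    have h3 : c₀ * (s / l) * (2 * l) = 2 * c₀ * s := by
      calc c₀ * (s / l) * (2 * l) = 2 * c₀ * (s / l * l) := by ring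
        _ = 2 * c₀ * s := by rw [hyl]
    rw [h3] at h2
    have h4 : ((r : ℝ) * ρ) ^ 2 ≤ (2 * c₀ * s) ^ 2 := pow_le_pow_left₀ (by positivity) h2 2
    have h5 : (2 * c₀ * s) ^ 2 = s ^ 2 / (144 * C₁ ^ 2) := by
      rw [hc₀]
      field_simp
      norm_num
    rw [h5] at h4
    have h6 : C₁ * (r : ℝ) ^ 2 * (ρ : ℝ) ^ 2 ≤ s ^ 2 / 144 := by
      calc C₁ * (r : ℝ) ^ 2 * (ρ : ℝ) ^ 2 = C₁ * ((r : ℝ) * ρ) ^ 2 := by ring
        _ ≤ C₁ * (s ^ 2 / (144 * C₁ ^ 2)) := mul_le_mul_of_nonneg_left h4 (by linarith)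
        _ = s ^ 2 / 144 / C₁ := by field_simp
        _ ≤ s ^ 2 / 144 := div_le_self (by positivity) hC₁r
    have h7 : 0 ≤ C₁ * (r : ℝ) ^ 2 * (ρ : ℝ) ^ 2 := by positivity
    have h8 : 0 ≤ s ^ 2 := by positivity
    calc 94 * (C₁ * (r : ℝ) ^ 2 * (ρ : ℝ) ^ 2 * Real.log 2) ≤ 94 * (C₁ * (r : ℝ) ^ 2 * (ρ : ℝ) ^ 2 * (7 / 10)) := by
          apply mul_le_mul_of_nonneg_left _ (by norm_num)
          exact mul_le_mul_of_nonneg_left (by linarith) h7
      _ ≤ 94 * (s ^ 2 / 144 * (7 / 10)) := by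
          apply mul_le_mul_of_nonneg_left _ (by norm_num)
          exact mul_le_mul_of_nonneg_right h6 (by norm_num)
      _ ≤ s ^ 2 / 2 := by linarith
  have hfirst : 13 * (R : ℝ) ^ 94 ≤ 13 * (x * e) := by
    have h1 : Real.exp (s ^ 2 / 2) ≤ x * e := by
      rw [hxe, he, ← Real.exp_add]
      apply Real.exp_le_exp.2
      have h2 : s ≤ s ^ 2 := by
        calc s = s * 1 := (mul_one s).symm
          _ ≤ s * s := mul_le_mul_of_nonneg_left hs1 (by linarith)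
          _ = s ^ 2 := (pow_two s).symm
      have h3 : G x ≤ s := by
        rw [hGx]
        calc s / l * Real.log l ≤ s / l * l := mul_le_mul_of_nonneg_left hlogl1 hy0
          _ = s := hyl
      have h3' : 0 ≤ G x := by
        rw [hGx]
        exact mul_nonneg hy0 hlogl
      have h4 : c₀ / 8 * G x ≤ 1 / 8 * s := by
        apply mul_le_mul _ h3 h3' (by norm_num)
        linarith
      linarith
    linarith
  -- the second term
  have hsz : Real.sqrt ((ρ ^ r : ℕ) : ℝ) = Real.exp (t / 2) := by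
    rw [hzexp, Real.sqrt_eq_iff_mul_self_eq (Real.exp_pos _).le (Real.exp_pos _).le, ← Real.exp_add]
    congr 1
    ring
  have hsp : 0 < Real.exp (t / 2) := Real.exp_pos _
  have hsW : Real.exp (t / 2) ≤ W := (Real.exp_le_exp.2 (by linarith)).trans hW3
  have hsR : Real.exp (t / 2) ≤ (R : ℝ) := by
    have h1 : ((ρ ^ r : ℕ) : ℝ) ≤ (R : ℝ) := by exact_mod_cast hR2
    rw [hzexp] at h1
    exact (Real.exp_le_exp.2 (by linarith)).trans h1
  have hsum : 16 / Real.sqrt ((ρ ^ r : ℕ) : ℝ) + 3360 / (R : ℝ) + 1 / W ≤ 3377 / Real.exp (t / 2) := by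
    rw [hsz]
    have h1 : 3360 / (R : ℝ) ≤ 3360 / Real.exp (t / 2) := div_le_div_of_nonneg_left (by norm_num) hsp hsR
    have h2 : 1 / W ≤ 1 / Real.exp (t / 2) := div_le_div_of_nonneg_left (by norm_num) hsp hsW
    have h3 : 3377 / Real.exp (t / 2) = 16 / Real.exp (t / 2) + 3360 / Real.exp (t / 2) + 1 / Real.exp (t / 2) := by ring
    rw [h3]
    linarith
  have hE3' : t ^ 6 / Real.exp (t / 2) ≤ e := by
    refine le_trans ?_ her
    rw [Real.exp_neg, div_le_iff₀ hsp]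
    have h5 : 0 < Real.exp (((r : ℝ) + 1) * lam / 4) := Real.exp_pos _
    rw [inv_mul_eq_div, le_div_iff₀ h5]
    exact hE3
  have hsecond : C * x / δ ^ 2 * (16 / Real.sqrt ((ρ ^ r : ℕ) : ℝ) + 3360 / (R : ℝ) + 1 / W) ≤
      3377 * C / c ^ 2 * (x * e) := by
    have h0 : 0 ≤ C * x / δ ^ 2 := by positivity
    refine (mul_le_mul_of_nonneg_left hsum h0).trans ?_
    have h1 : C * x / δ ^ 2 * (3377 / Real.exp (t / 2)) =
        3377 * C / c ^ 2 * (x * (t ^ 6 / Real.exp (t / 2))) := by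
      rw [hδ, hz]
      have ht' : t ≠ 0 := ht0.ne'
      generalize Real.exp (t / 2) = E at hsp
      generalize t = τ at ht'
      field_simp
    rw [h1]
    apply mul_le_mul_of_nonneg_left _ hc2.le
    exact mul_le_mul_of_nonneg_left hE3' hx0.le
  have hpos : 0 ≤ (∑ j ∈ range (X₀ + 16), Real.exp (c₀ / 8 * G j)) * (x * e) :=
    mul_nonneg hSm hxe0.le
  calc _ ≤ (((Icc 2 x).filter (fun k => (Pool.Agent.SPM.N k : ℝ) < 10 * δ * W)).card : ℝ) := hincl
    _ ≤ 13 * (R : ℝ) ^ 94 + C * x / δ ^ 2 * (16 / Real.sqrt ((ρ ^ r : ℕ) : ℝ) + 3360 / (R : ℝ) + 1 / W) := hmain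
    _ ≤ 13 * (x * e) + 3377 * C / c ^ 2 * (x * e) := add_le_add hfirst hsecond
    _ ≤ 13 * (x * e) + 3377 * C / c ^ 2 * (x * e) +
        (∑ j ∈ range (X₀ + 16), Real.exp (c₀ / 8 * G j)) * (x * e) := by linarith
    _ = _ := by ring

end Pool.Agent.SPA.As1069
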