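import Pool.Agent.SPA.Stmts9

/-!
# The order of `log (N k)` for almost all `k`: `sqrt (log x) * log log log x / log log x`
-/

set_option autoImplicit false

namespace Pool.Agent.SPA

open Finset

/-- the order of `log (N k)` -/
noncomputable def G (x : ℕ) : ℝ :=
  Real.sqrt (Real.log x) * Real.log (Real.log (Real.log x)) / Real.log (Real.log x)

/-! ## lower bound -/

/-- row G10: as G8 with `w_i ≤ 2 ^ a` -/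
def RowG10 : Prop := ∃ C₁ : ℕ, 1 ≤ C₁ ∧ ∀ r : ℕ, 1 ≤ r → ∃ T : Finset (ℕ × ℕ),
    (∀ p ∈ T, 1 ≤ p.1 ∧ p.1 ≤ 2 ^ (C₁ * r ^ 2 * (Nat.log 2 r + 1) ^ 2) ∧ p.2 ≤ 2 ^ (C₁ * r ^ 2 * (Nat.log 2 r + 1) ^ 2) ∧
      ∃ s : Multiset ℕ, (∀ a ∈ s, 2 ≤ a ∧ a ≤ 2 ^ (C₁ * r ^ 2 * (Nat.log 2 r + 1) ^ 2)) ∧
        s.prod = p.1 ∧ s.sum = p.2 + s.card) ∧
    (((Nat.log 2 r + 1 : ℕ) : ℝ) ^ 2 / 64) ^ r / 2 ≤ ∑ p ∈ T, (1 : ℝ) / p.1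

def Low10 : Prop := ∃ c B : ℝ, 0 < c ∧ ∀ x : ℕ, 16 ≤ x →
    (((Icc 2 x).filter (fun k => (Pool.Agent.SPM.N k : ℝ) < Real.exp (c * G x))).card : ℝ)
      ≤ B * x * Real.exp (-(c * G x))

/-- `r = ⌊c₀ sqrt (log x) / log log x⌋`, `ρ = log₂ r + 1`, `z = ρ ^ r`, `R = 2 ^ (C₁ r² ρ²)` -/
def RowAs10 : Prop := ∀ C c K : ℝ, 0 < C → 0 < c → c ≤ 1 → 1 ≤ K → Core2 C c K → RowG10 → Low10

/-! ## upper bound -/

/-- number of prime factors `> w`, with multiplicity -/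
def om (w Q : ℕ) : ℕ := (Q.primeFactorsList.filter (fun p => w < p)).length

/-- entries at least two -/
def big (s : Multiset ℕ) : Multiset ℕ := s.filter (fun a => 2 ≤ a)

/-- `k` is bad: a solution whose entries `≤ y` have together more than `M` prime factors `> w` -/
def Bad (w y M k : ℕ) : Prop := ∃ s : Multiset ℕ, Pool.Agent.SPM.IsSP k s ∧
  M < om w ((big s).filter (fun a => a ≤ y)).prod

/-- row GL: sums over multisets -/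
def RowGL : Prop := ∀ (N : ℕ) (g : ℕ → ℝ) (X : Finset (Multiset ℕ)),
    (∀ n, 2 ≤ n → n ≤ N → 0 ≤ g n ∧ g n ≤ 1 / 2) → (∀ s ∈ X, ∀ e ∈ s, 2 ≤ e ∧ e ≤ N) →
    ∑ s ∈ X, (s.map g).prod ≤ ∏ n ∈ Icc 2 N, (1 - g n)⁻¹

/-- row GP: sums over smooth numbers (GL for the prime factors, `(1-t)⁻¹ ≤ exp (t + 2 t²)`) -/
def RowGP : Prop := ∀ (y : ℕ) (h : ℕ → ℝ) (X : Finset ℕ),
    (∀ p : ℕ, p.Prime → p ≤ y → 0 ≤ h p ∧ h p / p ≤ 1 / 2) →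
    (∀ Q ∈ X, Q ≠ 0 ∧ ∀ p ∈ Q.primeFactorsList, p ≤ y) →
    ∑ Q ∈ X, (Q.primeFactorsList.map h).prod / (Q : ℝ) ≤
      Real.exp (∑ p ∈ (Icc 1 y).filter Nat.Prime, (h p / p + 2 * (h p / p) ^ 2))

/-- row U1: smooth numbers weighted with `Z ^ om` -/
def RowU1 : Prop := ∃ C : ℝ, 0 < C ∧ ∀ (w y : ℕ) (Z : ℝ) (X : Finset ℕ), 3 ≤ w → w ≤ y → 1 ≤ Z → 2 * Z ≤ w →
    (∀ Q ∈ X, Q ≠ 0 ∧ ∀ p ∈ Q.primeFactorsList, p ≤ y) →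
    ∑ Q ∈ X, Z ^ om w Q / (Q : ℝ) ≤ Real.exp (2 * Z * (Real.log (Real.log y) + C))

/-- row U2: integers weighted with `z ^ om`, `z ≤ 1` -/
def RowU2 : Prop := ∃ C : ℝ, 0 < C ∧ ∀ (w y : ℕ) (z : ℝ), 3 ≤ w → w ≤ y → 0 < z → z ≤ 1 →
    ∑ e ∈ Icc 1 y, z ^ om w e / (e : ℝ) ≤ C * Real.log w ^ (1 - z) * Real.log y ^ z

/-- row UA2: the multisets with few prime factors in the small entries (GL with
`g e = z ^ om e / e` for `e ≤ y` and `lam⁻¹ e ^ (-(1+η))` for `e > y`) -/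
def RowUA2 : Prop := ∀ (x y w M n₁ : ℕ) (z lam η : ℝ) (X : Finset (Multiset ℕ)), 2 ≤ x → 2 ≤ y →
    0 < z → z ≤ 1 → 1 ≤ lam → 0 < η → η ≤ 1 → 2 * x < y ^ (n₁ + 1) →
    (∀ s ∈ X, (∀ e ∈ s, 2 ≤ e) ∧ s.prod ≤ 2 * x ∧ om w (s.filter (fun a => a ≤ y)).prod ≤ M) →
    (X.card : ℝ) ≤ (2 * (x : ℝ)) ^ (1 + η) * (1 / z) ^ M * lam ^ n₁ * Real.exp (2 / (lam * η)) *
      Real.exp (2 * ∑ e ∈ Icc 1 y, z ^ om w e / (e : ℝ))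

/-- row UA1: the bad `k` (`k` is determined by the product `Q` and the sum of `e - 1` of the entries `≤ y`
and the multiset of the entries `> y`) -/
def RowUA1 : Prop := ∃ C : ℝ, 0 < C ∧ ∀ (x y w M n₁ : ℕ) (Z lam η : ℝ), 2 ≤ x → 3 ≤ w → w ≤ y →
    1 ≤ Z → 2 * Z ≤ w → 1 ≤ lam → 0 < η → η ≤ 1 → 2 * x < y ^ (n₁ + 1) →
    ∀ X : Finset ℕ, (∀ k ∈ X, 2 ≤ k ∧ k ≤ x ∧ Bad w y M k) →
    (X.card : ℝ) ≤ ((y : ℝ) * (Nat.log 2 (2 * x) + 1) + 1) * (2 * (x : ℝ)) ^ (1 + η) * (1 / Z) ^ M * lam ^ n₁ *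
      Real.exp (2 / (lam * η)) * Real.exp (2 * Z * (Real.log (Real.log y) + C))

/-- row UF: both counts together -/
def RowUF : Prop := ∃ C : ℝ, 0 < C ∧ ∀ (x y w M n₁ : ℕ) (z Z lam η F : ℝ), 2 ≤ x → 3 ≤ w → w ≤ y →
    0 < z → z ≤ 1 → 1 ≤ Z → 2 * Z ≤ w → 1 ≤ lam → 0 < η → η ≤ 1 → 0 < F → 2 * x < y ^ (n₁ + 1) →
    (((Icc 2 x).filter (fun k => F < (Pool.Agent.SPM.N k : ℝ))).card : ℝ) ≤
      (2 * (x : ℝ)) ^ (1 + η) * lam ^ n₁ * Real.exp (2 / (lam * η)) *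
      (((y : ℝ) * (Nat.log 2 (2 * x) + 1) + 1) * (1 / Z) ^ M * Real.exp (2 * Z * (Real.log (Real.log y) + C)) +
        (1 / z) ^ M * Real.exp (C * Real.log w ^ (1 - z) * Real.log y ^ z) / F)

def Up10 : Prop := ∃ C B c : ℝ, 0 < C ∧ 0 < c ∧ ∀ x : ℕ, 16 ≤ x →
    (((Icc 2 x).filter (fun k => Real.exp (C * G x) < (Pool.Agent.SPM.N k : ℝ))).card : ℝ)
      ≤ B * x * Real.exp (-(c * G x))

/-- `r = sqrt (log x)`, `l = log r`, `y = ⌊exp (r l)⌋`, `w = ⌈2 r⌉`, `M = ⌈2 r⌉`, `n₁ = ⌊2 r / l⌋`,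
`Z = r / l`, `lam = l ^ 2`, `η = 1 / (r l)`, `z = 1 - 4 log l / l`, `F = exp (50 r log l / l)` -/
def RowUPar : Prop := RowUF → Up10

/-- the order of `log (N k)` for almost all `k` -/
def Main10 : Prop := ∃ c C B : ℝ, 0 < c ∧ 0 < C ∧ ∀ x : ℕ, 16 ≤ x →
    (((Icc 2 x).filter (fun k => ¬ (Real.exp (c * G x) ≤ (Pool.Agent.SPM.N k : ℝ) ∧
        (Pool.Agent.SPM.N k : ℝ) ≤ Real.exp (C * G x)))).card : ℝ)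
      ≤ B * x * Real.exp (-(c * G x))

end Pool.Agent.SPA
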