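import Pool.Agent.SPA.As892
import Pool.Agent.SPA.Stmts10

/-!
# MP_7a4c99_nt, row As10 (helper92): the choice of the parameters
-/

set_option autoImplicit false

namespace Pool.Agent.SPA

open Finset Filter

namespace As1092

/-- polynomial against exponential -/
theorem bigT (C c : ℝ) (hC : 0 < C) (hc : 0 < c) : ∃ t₀ : ℝ, 1 ≤ t₀ ∧ ∀ t : ℝ, t₀ ≤ t →
    t ^ 3 / c ≤ Real.exp (t / 2) ∧
      C / (c / t ^ 3) ^ 2 * (3377 / Real.exp (t / 2)) ≤ Real.exp (-(t / 4)) := by
  have h := Real.tendsto_pow_mul_exp_neg_atTop_nhds_zero 6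
  have hε : 0 < min (c ^ 2 / (C * 3377 * 4096)) (c / 64) := by positivity
  have h1 := h.eventually (gt_mem_nhds hε)
  obtain ⟨u₀, hu₀⟩ := (h1.and (eventually_ge_atTop (1 : ℝ))).exists_forall_of_atTop
  refine ⟨max 4 (4 * u₀), le_trans (by norm_num) (le_max_left _ _), fun t ht => ?_⟩
  have ht4 : 4 ≤ t := le_trans (le_max_left _ _) ht
  have htu : 4 * u₀ ≤ t := le_trans (le_max_right _ _) ht
  obtain ⟨h2, h3⟩ := hu₀ (t / 4) (by linarith)
  have ht0 : 0 < t := by linarith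
  have h4 : (t / 4) ^ 6 * Real.exp (-(t / 4)) < c ^ 2 / (C * 3377 * 4096) := lt_of_lt_of_le h2 (min_le_left _ _)
  have h5 : (t / 4) ^ 6 * Real.exp (-(t / 4)) < c / 64 := lt_of_lt_of_le h2 (min_le_right _ _)
  have hE : 0 < Real.exp (t / 4) := Real.exp_pos _
  have hE1 : Real.exp (-(t / 4)) = (Real.exp (t / 4))⁻¹ := Real.exp_neg _
  have hE2 : Real.exp (t / 2) = Real.exp (t / 4) * Real.exp (t / 4) := by
    rw [← Real.exp_add]
    congr 1
    ring
  have hE3 : 1 ≤ Real.exp (t / 4) := Real.one_le_exp (by linarith)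
  constructor
  · rw [div_le_iff₀ hc, hE2]
    have h6 : (t / 4) ^ 3 ≤ (t / 4) ^ 6 := pow_le_pow_right₀ h3 (by norm_num)
    rw [hE1, ← div_eq_mul_inv, div_lt_iff₀ hE] at h5
    have h7 : t ^ 3 < Real.exp (t / 4) * c := by
      have h8 : t ^ 3 = 64 * (t / 4) ^ 3 := by ring
      rw [h8]
      linarith
    have h9 : Real.exp (t / 4) * c ≤ Real.exp (t / 4) * Real.exp (t / 4) * c := by
      have := mul_le_mul_of_nonneg_right (le_mul_of_one_le_right hE.le hE3) hc.le
      linarith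
    linarith
  · rw [hE1, ← div_eq_mul_inv, div_lt_iff₀ hE] at h4
    have h6 : C / (c / t ^ 3) ^ 2 * (3377 / Real.exp (t / 2)) =
        (C * 3377 * t ^ 6) / (c ^ 2 * (Real.exp (t / 4) * Real.exp (t / 4))) := by
      rw [hE2]
      field_simp
    rw [h6, hE1, div_le_iff₀ (by positivity)]
    have h7 : C * 3377 * t ^ 6 ≤ c ^ 2 * Real.exp (t / 4) := by
      have h8 : t ^ 6 = 4096 * (t / 4) ^ 6 := by ring
      have h9 : c ^ 2 / (C * 3377 * 4096) * Real.exp (t / 4) * (C * 3377 * 4096) = c ^ 2 * Real.exp (t / 4) := by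
        field_simp
      have h10 : (t / 4) ^ 6 * (C * 3377 * 4096) ≤ c ^ 2 / (C * 3377 * 4096) * Real.exp (t / 4) * (C * 3377 * 4096) :=
        mul_le_mul_of_nonneg_right h4.le (by positivity)
      rw [h9] at h10
      rw [h8]
      linarith
    have h8 : (Real.exp (t / 4))⁻¹ * (c ^ 2 * (Real.exp (t / 4) * Real.exp (t / 4))) = c ^ 2 * Real.exp (t / 4) := by
      field_simp
    rw [h8]
    exact h7

/-- `X` large -/
theorem bigX (A L : ℝ) : ∃ X₀ : ℝ, Real.exp 1 ≤ X₀ ∧ ∀ X : ℝ, X₀ ≤ X →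
    L ≤ Real.sqrt X / Real.log X ∧
      Real.sqrt (Real.log X) + A + Real.log (Real.log X) ≤ Real.log X / 2 := by
  refine ⟨max (Real.exp ((max 8 A) ^ 2)) ((4 * max L 1) ^ 4), ?_, fun X hX => ?_⟩
  · refine le_trans ?_ (le_max_left _ _)
    apply Real.exp_le_exp.2
    have : (8 : ℝ) ≤ max 8 A := le_max_left _ _
    nlinarith
  have h1 : Real.exp ((max 8 A) ^ 2) ≤ X := le_trans (le_max_left _ _) hX
  have h2 : (4 * max L 1) ^ 4 ≤ X := le_trans (le_max_right _ _) hX
  have hX0 : 0 < X := lt_of_lt_of_le (Real.exp_pos _) h1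
  have hm : (8 : ℝ) ≤ max 8 A := le_max_left _ _
  have hA : A ≤ max 8 A := le_max_right _ _
  have hY : (max 8 A) ^ 2 ≤ Real.log X := by rw [Real.le_log_iff_exp_le hX0]; exact h1
  have hY0 : 0 < Real.log X := by nlinarith
  constructor
  · rw [le_div_iff₀ hY0]
    obtain ⟨w, hw⟩ : ∃ w, w = Real.sqrt (Real.sqrt X) := ⟨_, rfl⟩
    have hs0 : 0 < Real.sqrt X := Real.sqrt_pos.2 hX0
    have hw0 : 0 < w := by rw [hw]; exact Real.sqrt_pos.2 hs0
    have hw2 : w ^ 2 = Real.sqrt X := by rw [hw]; exact Real.sq_sqrt hs0.le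
    have hw4 : w ^ 4 = X := by
      calc w ^ 4 = (w ^ 2) ^ 2 := by ring
        _ = X := by rw [hw2]; exact Real.sq_sqrt hX0.le
    have hlog : Real.log X = 4 * Real.log w := by
      rw [← hw4, Real.log_pow]
      norm_num
    have hm1 : (1 : ℝ) ≤ max L 1 := le_max_right _ _
    have hwL : 4 * max L 1 ≤ w := by
      rw [← hw4] at h2
      exact le_of_pow_le_pow_left₀ (by norm_num) hw0.le h2
    have hlw : Real.log w ≤ w := by
      have := Real.log_le_sub_one_of_pos hw0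
      linarith
    rw [← hw2]
    have hL : L ≤ max L 1 := le_max_left _ _
    calc L * Real.log X ≤ max L 1 * Real.log X := mul_le_mul_of_nonneg_right hL hY0.le
      _ = (4 * max L 1) * Real.log w := by rw [hlog]; ring
      _ ≤ (4 * max L 1) * w := mul_le_mul_of_nonneg_left hlw (by positivity)
      _ ≤ w * w := mul_le_mul_of_nonneg_right hwL hw0.le
      _ = w ^ 2 := by ring
  · obtain ⟨v, hv⟩ : ∃ v, v = Real.sqrt (Real.log X) := ⟨_, rfl⟩
    have hv0 : 0 < v := by rw [hv]; exact Real.sqrt_pos.2 hY0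
    have hv2 : v ^ 2 = Real.log X := by rw [hv]; exact Real.sq_sqrt hY0.le
    have hvm : max 8 A ≤ v := by
      rw [← hv2] at hY
      exact le_of_pow_le_pow_left₀ (by norm_num) hv0.le hY
    have hlv : Real.log (Real.log X) = 2 * Real.log v := by
      rw [← hv2, Real.log_pow]
      norm_num
    have hlw : Real.log v ≤ v := by
      have := Real.log_le_sub_one_of_pos hv0
      linarith
    rw [hlv, ← hv, ← hv2]
    have h8 : 8 ≤ v := hm.trans hvm
    have hAv : A ≤ v := hA.trans hvm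
    nlinarith

end As1092

open As892 As692 As1092 in
/-- row As10 -/
theorem as1092 : RowAs10 := by
  intro C c K hC hc hc1 hK hCore hG10
  obtain ⟨C₁, -, hG⟩ := hG10
  obtain ⟨t₀, ht₀1, ht₀⟩ := bigT C c hC hc
  obtain ⟨D, hD⟩ : ∃ D : ℝ, D = (C₁ : ℝ) + 1 := ⟨_, rfl⟩
  have hD1 : 1 ≤ D := by rw [hD]; have : (0 : ℝ) ≤ C₁ := by positivity
                         linarith
  have hD0 : 0 < D := by linarith
  obtain ⟨r₀, hr₀⟩ : ∃ r₀ : ℕ, r₀ = 2 ^ (128 + ⌈2 * K⌉₊) + ⌈t₀⌉₊ := ⟨_, rfl⟩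
  obtain ⟨X₀, hX₀, hbig⟩ := bigX (Real.log (23 * D)) (23 * D * (r₀ + 1))
  obtain ⟨c', hc'⟩ : ∃ c' : ℝ, c' = 1 / (368 * D) := ⟨_, rfl⟩
  have hc'0 : 0 < c' := by rw [hc']; positivity
  have hc'1 : c' * (368 * D) = 1 := by rw [hc']; field_simp
  refine ⟨c', 14 + Real.exp (c' * Real.sqrt X₀), hc'0, fun x hx => ?_⟩
  have hx16 : (16 : ℝ) ≤ x := by exact_mod_cast hx
  have hx0 : (0 : ℝ) < x := by linarith
  obtain ⟨X, hX⟩ : ∃ X, X = Real.log x := ⟨_, rfl⟩
  obtain ⟨Y, hY⟩ : ∃ Y, Y = Real.log X := ⟨_, rfl⟩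
  obtain ⟨l, hl⟩ : ∃ l, l = Real.sqrt X / Y := ⟨_, rfl⟩
  have hlog2 := Real.log_two_gt_d9
  have hlog2' := Real.log_two_lt_d9
  have hXe : Real.exp 1 ≤ X := by
    have h1 : Real.log 16 ≤ X := by rw [hX]; exact Real.log_le_log (by norm_num) hx16
    have h2 : Real.log 16 = 4 * Real.log 2 := by
      rw [show (16 : ℝ) = 2 ^ 4 by norm_num, Real.log_pow]
      norm_num
    have := Real.exp_one_lt_d9
    linarith
  have hX0 : 0 < X := lt_of_lt_of_le (Real.exp_pos 1) hXe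
  have hX1 : 1 ≤ X := by
    have := Real.exp_one_gt_d9
    linarith
  have hY1 : 1 ≤ Y := by rw [hY, Real.le_log_iff_exp_le hX0]; exact hXe
  have hY0 : 0 < Y := by linarith
  have hsX : 0 < Real.sqrt X := Real.sqrt_pos.2 hX0
  have hl0 : 0 < l := by rw [hl]; positivity
  have hlX : l ≤ Real.sqrt X := by
    rw [hl, div_le_iff₀ hY0]
    exact le_mul_of_one_le_right hsX.le hY1
  have hlY : l * Y = Real.sqrt X := by rw [hl]; field_simp
  have hLY0 : 0 ≤ Real.log Y := Real.log_nonneg hY1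
  have hLYY : Real.log Y ≤ Y := by
    have := Real.log_le_sub_one_of_pos hY0
    linarith
  have hGx : G x = l * Real.log Y := by
    unfold G
    rw [← hX, ← hY, hl]
    ring
  obtain ⟨g, hg⟩ : ∃ g, g = G x := ⟨_, rfl⟩
  rw [← hg]
  rw [← hg] at hGx
  have hg0 : 0 ≤ g := by rw [hGx]; positivity
  have hgX : g ≤ Real.sqrt X := by
    rw [hGx, ← hlY]
    exact mul_le_mul_of_nonneg_left hLYY hl0.le
  have triv : (((Icc 2 x).filter (fun k => (Pool.Agent.SPM.N k : ℝ) < Real.exp (c' * g))).card : ℝ) ≤ x := by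
    have h1 : ((Icc 2 x).filter (fun k => (Pool.Agent.SPM.N k : ℝ) < Real.exp (c' * g))).card ≤ x := by
      refine (card_filter_le _ _).trans ?_
      rw [Nat.card_Icc]; omega
    exact_mod_cast h1
  have hel : 0 < Real.exp (-(c' * g)) := Real.exp_pos _
  by_cases hcase : X < X₀
  · -- small `x`
    refine triv.trans ?_
    have h3 : 1 ≤ Real.exp (c' * Real.sqrt X₀) * Real.exp (-(c' * g)) := by
      rw [← Real.exp_add]
      apply Real.one_le_exp
      have h5 := mul_le_mul_of_nonneg_left (hgX.trans (Real.sqrt_le_sqrt hcase.le)) hc'0.le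
      linarith
    have h4 : (14 + Real.exp (c' * Real.sqrt X₀)) * x * Real.exp (-(c' * g)) =
        x * (14 * Real.exp (-(c' * g)) + Real.exp (c' * Real.sqrt X₀) * Real.exp (-(c' * g))) := by ring
    rw [h4]
    calc (x : ℝ) = x * 1 := (mul_one _).symm
      _ ≤ _ := mul_le_mul_of_nonneg_left (by linarith) hx0.le
  push Not at hcase
  obtain ⟨hb1, hb2⟩ := hbig X hcase
  rw [← hY] at hb1 hb2
  rw [← hl] at hb1
  obtain ⟨r, hr⟩ : ∃ r, r = ⌊l / (23 * D)⌋₊ := ⟨_, rfl⟩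
  have hr1 : (r : ℝ) ≤ l / (23 * D) := by rw [hr]; exact Nat.floor_le (by positivity)
  have hr2 : l / (23 * D) < r + 1 := by rw [hr]; exact Nat.lt_floor_add_one _
  have hr1a : (r : ℝ) * (23 * D) ≤ l := by rwa [le_div_iff₀ (by positivity)] at hr1
  have hr2a : l < (r + 1) * (23 * D) := by rwa [div_lt_iff₀ (by positivity)] at hr2
  have hrr0 : r₀ ≤ r := by
    have h1 : (r₀ : ℝ) < r + 1 := by
      by_contra h
      push Not at h
      have h2 : ((r : ℝ) + 1) * (23 * D) ≤ r₀ * (23 * D) := mul_le_mul_of_nonneg_right h (by positivity)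
      have h3 : 23 * D * ((r₀ : ℝ) + 1) = r₀ * (23 * D) + 23 * D := by ring
      linarith
    have h2 : r₀ < r + 1 := by exact_mod_cast h1
    omega
  have hp1 : 2 ^ (128 + ⌈2 * K⌉₊) ≤ r := by omega
  have hr1' : 1 ≤ r := le_trans Nat.one_le_two_pow hp1
  have hrpos : (1 : ℝ) ≤ r := by exact_mod_cast hr1'
  have hrt : t₀ ≤ r := by
    have h1 : ⌈t₀⌉₊ ≤ r := le_trans (by rw [hr₀]; exact Nat.le_add_left _ _) hrr0
    exact le_trans (Nat.le_ceil _) (by exact_mod_cast h1)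
  obtain ⟨T, hT, hWG⟩ := hG r hr1'
  obtain ⟨W, hWdef⟩ : ∃ W, W = ∑ p ∈ T, (1 : ℝ) / p.1 := ⟨_, rfl⟩
  rw [← hWdef] at hWG
  obtain ⟨rho, hrho⟩ : ∃ rho, rho = Nat.log 2 r + 1 := ⟨_, rfl⟩
  rw [← hrho] at hT hWG
  have hrhoR : ((rho : ℕ) : ℝ) ≤ 2 * Y := by
    rw [hrho, hY]
    push_cast
    refine As892.lam r X hr1' hXe (le_trans ?_ hlX)
    exact le_trans (le_mul_of_one_le_right (by positivity) (by linarith)) hr1a
  have hlogr : 128 + ⌈2 * K⌉₊ ≤ Nat.log 2 r := Nat.le_log_of_pow_le (by norm_num) hp1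
  have hrho128 : (128 : ℝ) ≤ rho := by
    have : 128 ≤ rho := by omega
    exact_mod_cast this
  have hrhoK : 2 * K ≤ rho := by
    have h2 : 2 * K ≤ (⌈2 * K⌉₊ : ℝ) := Nat.le_ceil _
    have h3 : ((⌈2 * K⌉₊ : ℕ) : ℝ) ≤ rho := by
      have : ⌈2 * K⌉₊ ≤ rho := by omega
      exact_mod_cast this
    linarith
  have hrho1 : 1 ≤ rho := by omega
  have hrho0 : (0 : ℝ) < rho := by linarith
  -- `log rho`
  obtain ⟨q, hq⟩ : ∃ q, q = Real.log (rho : ℝ) := ⟨_, rfl⟩
  have hq1 : 1 ≤ q := by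
    rw [hq, Real.le_log_iff_exp_le hrho0]
    have := Real.exp_one_lt_d9
    linarith
  have hq0 : 0 < q := by linarith
  have hqr : q ^ 2 ≤ rho := by
    have h1 : q = 2 * Real.log (Real.sqrt rho) := by
      rw [Real.log_sqrt hrho0.le, hq]
      ring
    have h2 : Real.log (Real.sqrt rho) ≤ Real.sqrt rho / 2 := by
      have hs : 0 < Real.sqrt rho := Real.sqrt_pos.2 hrho0
      have h3 := Real.add_one_le_exp (Real.sqrt rho / 2 - 1)
      rw [Real.log_le_iff_le_exp hs]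
      have h4 : Real.exp (Real.sqrt rho / 2) = Real.exp (Real.sqrt rho / 2 - 1) * Real.exp 1 := by
        rw [← Real.exp_add]
        congr 1
        ring
      rw [h4]
      have h5 : Real.sqrt rho / 2 ≤ Real.exp (Real.sqrt rho / 2 - 1) := by linarith
      have h6 : 2 ≤ Real.exp 1 := by
        have := Real.exp_one_gt_d9
        linarith
      have h7 : Real.sqrt rho / 2 * 2 ≤ Real.exp (Real.sqrt rho / 2 - 1) * Real.exp 1 :=
        mul_le_mul h5 h6 (by norm_num) (Real.exp_pos _).le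
      linarith
    have h3 : q ≤ Real.sqrt rho := by linarith
    calc q ^ 2 ≤ Real.sqrt rho ^ 2 := pow_le_pow_left₀ hq0.le h3 2
      _ = rho := Real.sq_sqrt hrho0.le
  have hqY : Real.log Y ≤ 2 * q := by
    have h1 : (r : ℝ) + 1 ≤ 2 ^ rho := by
      have h2 : r < 2 ^ (Nat.log 2 r + 1) := Nat.lt_pow_succ_log_self (by norm_num) r
      rw [← hrho] at h2
      have h3 : r + 1 ≤ 2 ^ rho := h2
      exact_mod_cast h3
    have h2 : l ≤ 2 ^ rho * (23 * D) := hr2a.le.trans (mul_le_mul_of_nonneg_right h1 (by positivity))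
    have h3 : Real.log l ≤ rho * Real.log 2 + Real.log (23 * D) := by
      have h4 := Real.log_le_log hl0 h2
      rwa [Real.log_mul (by positivity) (by positivity), Real.log_pow] at h4
    have h4 : Real.log l = Y / 2 - Real.log Y := by
      rw [hl, Real.log_div hsX.ne' hY0.ne', Real.log_sqrt hX0.le, ← hY]
    have h5 : Real.sqrt Y ≤ rho := by
      have h6 : (rho : ℝ) * Real.log 2 ≤ rho := by
        have := mul_le_mul_of_nonneg_left (show Real.log 2 ≤ 1 by linarith) hrho0.le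
        linarith
      linarith
    have h6 : Real.log (Real.sqrt Y) ≤ q := by
      rw [hq]
      exact Real.log_le_log (Real.sqrt_pos.2 hY0) h5
    rw [Real.log_sqrt hY0.le] at h6
    linarith
  obtain ⟨R, hR⟩ : ∃ R, R = 2 ^ ((C₁ + 1) * r ^ 2 * rho ^ 2) := ⟨_, rfl⟩
  have hexp : C₁ * r ^ 2 * rho ^ 2 ≤ (C₁ + 1) * r ^ 2 * rho ^ 2 := by
    have : C₁ * (r ^ 2 * rho ^ 2) ≤ (C₁ + 1) * (r ^ 2 * rho ^ 2) := Nat.mul_le_mul_right _ (by omega)
    rw [mul_assoc, mul_assoc]
    exact this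
  have hRR : 2 ^ (C₁ * r ^ 2 * rho ^ 2) ≤ R := by
    rw [hR]
    exact Nat.pow_le_pow_right (by norm_num) hexp
  have hT' : ∀ p ∈ T, 1 ≤ p.1 ∧ p.1 ≤ R ∧ p.2 ≤ R ∧
      ∃ s : Multiset ℕ, (∀ a ∈ s, 2 ≤ a ∧ a ≤ R) ∧ s.prod = p.1 ∧ s.sum = p.2 + s.card := by
    intro p hp
    obtain ⟨h1, h2, h3, s, h4, h5, h6⟩ := hT p hp
    exact ⟨h1, h2.trans hRR, h3.trans hRR, s, fun a ha => ⟨(h4 a ha).1, (h4 a ha).2.trans hRR⟩, h5, h6⟩
  have hlz : Real.log ((rho ^ r : ℕ) : ℝ) = r * q := by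
    push_cast
    rw [Real.log_pow, hq]
  have hlR : Real.log (R : ℝ) = D * ((r * rho) ^ 2) * Real.log 2 := by
    rw [hR, hD]
    push_cast
    rw [Real.log_pow]
    push_cast
    ring
  have hz3 : 3 ≤ rho ^ r := by
    calc 3 ≤ rho := by omega
      _ = rho ^ 1 := (pow_one _).symm
      _ ≤ rho ^ r := Nat.pow_le_pow_right (by omega) hr1'
  have hexp2 : rho * r ≤ (C₁ + 1) * r ^ 2 * rho ^ 2 := by
    calc rho * r = 1 * r * rho := by ring
      _ ≤ (C₁ + 1) * r ^ 2 * rho ^ 2 :=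
          Nat.mul_le_mul (Nat.mul_le_mul (by omega) (Nat.le_self_pow (by norm_num) r))
            (Nat.le_self_pow (by norm_num) rho)
  have hRz : rho ^ r ≤ R := by
    rw [hR]
    calc rho ^ r ≤ (2 ^ rho) ^ r := Nat.pow_le_pow_left Nat.lt_two_pow_self.le r
      _ = 2 ^ (rho * r) := by rw [pow_mul]
      _ ≤ _ := Nat.pow_le_pow_right (by norm_num) hexp2
  have hR3 : 3 ≤ R := hz3.trans hRz
  have hKz : K * Real.log ((rho ^ r : ℕ) : ℝ) ^ 2 ≤ Real.log (R : ℝ) := by
    rw [hlz, hlR, mul_pow, mul_pow]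
    have h3 : K * q ^ 2 ≤ D * (rho : ℝ) ^ 2 * Real.log 2 := by
      have h4 : K * q ^ 2 ≤ (rho : ℝ) / 2 * rho :=
        mul_le_mul (by linarith) hqr (by positivity) (by positivity)
      have h5 : (rho : ℝ) / 2 * rho ≤ (rho : ℝ) ^ 2 * Real.log 2 := by
        have := mul_le_mul_of_nonneg_left (show (1 : ℝ) / 2 ≤ Real.log 2 by linarith) (sq_nonneg (rho : ℝ))
        calc (rho : ℝ) / 2 * rho = (rho : ℝ) ^ 2 * (1 / 2) := by ring
          _ ≤ _ := this
      have h6 : (rho : ℝ) ^ 2 * Real.log 2 ≤ D * ((rho : ℝ) ^ 2 * Real.log 2) :=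
        le_mul_of_one_le_left (by positivity) hD1
      have h7 : D * (rho : ℝ) ^ 2 * Real.log 2 = D * ((rho : ℝ) ^ 2 * Real.log 2) := by ring
      rw [h7]
      linarith
    calc K * ((r : ℝ) ^ 2 * q ^ 2) = (r : ℝ) ^ 2 * (K * q ^ 2) := by ring
      _ ≤ (r : ℝ) ^ 2 * (D * (rho : ℝ) ^ 2 * Real.log 2) := mul_le_mul_of_nonneg_left h3 (by positivity)
      _ = D * ((r : ℝ) ^ 2 * (rho : ℝ) ^ 2) * Real.log 2 := by ring
  -- `t = r log rho`
  obtain ⟨t, ht⟩ : ∃ t, t = (r : ℝ) * q := ⟨_, rfl⟩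
  have htr : (r : ℝ) ≤ t := by rw [ht]; exact le_mul_of_one_le_right (by positivity) hq1
  have ht0 : 0 < t := by linarith
  obtain ⟨hb3, hb4⟩ := ht₀ t (hrt.trans htr)
  have hzt : ((rho : ℝ)) ^ r = Real.exp t := by
    rw [ht, hq, mul_comm, Real.exp_mul, Real.exp_log hrho0, Real.rpow_natCast]
  have hWt : Real.exp t ≤ W := by
    refine le_trans ?_ hWG
    have h1 : ((rho : ℝ) ^ 2 / 64) = rho * (rho / 64) := by ring
    rw [h1, mul_pow, hzt]
    have h2 : (2 : ℝ) ≤ (rho / 64) ^ r := by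
      have h3 : (2 : ℝ) ≤ rho / 64 := by linarith
      have h4 : (2 : ℝ) ^ 1 ≤ (rho / 64) ^ r :=
        (pow_le_pow_right₀ (by norm_num) hr1').trans (pow_le_pow_left₀ (by norm_num) h3 r)
      linarith
    have h3 := mul_le_mul_of_nonneg_left h2 (Real.exp_pos t).le
    linarith
  have hδ0 : 0 < c / t ^ 3 := by positivity
  have hW0 : 0 < W := lt_of_lt_of_le (Real.exp_pos _) hWt
  have hδW : Real.exp (t / 2) ≤ c / t ^ 3 * W := by
    refine le_trans ?_ (mul_le_mul_of_nonneg_left hWt hδ0.le)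
    have h1 : Real.exp t = Real.exp (t / 2) * Real.exp (t / 2) := by
      rw [← Real.exp_add]
      congr 1
      ring
    have h2 : 1 ≤ c / t ^ 3 * Real.exp (t / 2) := by
      rw [div_le_iff₀ hc] at hb3
      rw [div_mul_eq_mul_div, le_div_iff₀ (by positivity)]
      linarith
    rw [h1]
    calc Real.exp (t / 2) = 1 * Real.exp (t / 2) := (one_mul _).symm
      _ ≤ (c / t ^ 3 * Real.exp (t / 2)) * Real.exp (t / 2) := mul_le_mul_of_nonneg_right h2 (Real.exp_pos _).le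
      _ = c / t ^ 3 * (Real.exp (t / 2) * Real.exp (t / 2)) := by ring
  have h1W : 1 ≤ c / Real.log ((rho ^ r : ℕ) : ℝ) ^ 3 * ∑ p ∈ T, (1 : ℝ) / p.1 := by
    rw [hlz, ← hWdef, ← ht]
    have h1 : (1 : ℝ) ≤ Real.exp (t / 2) := Real.one_le_exp (by positivity)
    linarith
  have hcore := hCore (rho ^ r) R x T hz3 hR3 hKz hT' h1W
  rw [hlz, ← hWdef, ← ht] at hcore
  have hcl : c' * g ≤ t / 4 := by
    have h1 : l ≤ 46 * D * r := by
      have h4 : D ≤ D * r := le_mul_of_one_le_right hD0.le hrpos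
      have h5 : ((r : ℝ) + 1) * (23 * D) = 23 * (D * r) + 23 * D := by ring
      rw [h5] at hr2a
      have h6 : 46 * D * r = 46 * (D * r) := by ring
      rw [h6]
      linarith
    have h2 : g ≤ 46 * D * r * (2 * q) := by
      rw [hGx]
      exact mul_le_mul h1 hqY hLY0 (by positivity)
    have h3 : c' * g ≤ c' * (46 * D * r * (2 * q)) := mul_le_mul_of_nonneg_left h2 hc'0.le
    have h4 : c' * (46 * D * r * (2 * q)) = (c' * (368 * D)) * (t / 4) := by rw [ht]; ring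
    rw [h4, hc'1, one_mul] at h3
    exact h3
  -- the sets
  have hsub : (((Icc 2 x).filter (fun k => (Pool.Agent.SPM.N k : ℝ) < Real.exp (c' * g))).card : ℝ) ≤
      (((Icc 2 x).filter (fun k => (Pool.Agent.SPM.N k : ℝ) < 10 * (c / t ^ 3) * W)).card : ℝ) := by
    have h1 : ((Icc 2 x).filter (fun k => (Pool.Agent.SPM.N k : ℝ) < Real.exp (c' * g))).card ≤
        ((Icc 2 x).filter (fun k => (Pool.Agent.SPM.N k : ℝ) < 10 * (c / t ^ 3) * W)).card := by
      apply card_le_card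
      intro k hk
      rw [mem_filter] at hk ⊢
      refine ⟨hk.1, hk.2.trans_le ?_⟩
      have h2 : Real.exp (c' * g) ≤ Real.exp (t / 2) := Real.exp_le_exp.2 (by linarith)
      have h3 : 0 < c / t ^ 3 * W := by positivity
      have h4 : 10 * (c / t ^ 3) * W = 10 * (c / t ^ 3 * W) := by ring
      rw [h4]
      linarith
    exact_mod_cast h1
  refine hsub.trans (hcore.trans ?_)
  have hsXX : Real.sqrt X * Real.sqrt X = X := Real.mul_self_sqrt hX0.le
  -- the first term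
  have hfirst : 13 * (R : ℝ) ^ 94 ≤ 13 * (x * Real.exp (-(c' * g))) := by
    apply mul_le_mul_of_nonneg_left _ (by norm_num)
    have hR0 : (0 : ℝ) < R := by
      have : 0 < R := by omega
      exact_mod_cast this
    have h1 : (R : ℝ) ^ 94 = Real.exp (94 * (D * ((r * rho) ^ 2) * Real.log 2)) := by
      rw [← hlR, mul_comm, Real.exp_mul, Real.exp_log hR0]
      norm_cast
    have h2 : (x : ℝ) * Real.exp (-(c' * g)) = Real.exp (X - c' * g) := by
      rw [sub_eq_add_neg, Real.exp_add, hX, Real.exp_log hx0]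
    rw [h1, h2]
    apply Real.exp_le_exp.2
    have h3 : (r : ℝ) * rho * (23 * D) ≤ 2 * Real.sqrt X := by
      have h4 : (r : ℝ) * (23 * D) * rho ≤ l * (2 * Y) :=
        mul_le_mul hr1a hrhoR (by positivity) hl0.le
      calc (r : ℝ) * rho * (23 * D) = (r : ℝ) * (23 * D) * rho := by ring
        _ ≤ l * (2 * Y) := h4
        _ = 2 * (l * Y) := by ring
        _ = 2 * Real.sqrt X := by rw [hlY]
    have h5 : ((r : ℝ) * rho * (23 * D)) ^ 2 ≤ 4 * X := by
      have h6 := pow_le_pow_left₀ (by positivity) h3 2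
      have h7 : (2 * Real.sqrt X) ^ 2 = 4 * X := by rw [mul_pow, sq (Real.sqrt X), hsXX]; norm_num
      rwa [h7] at h6
    have h6 : 529 * (D * ((r * rho) ^ 2)) ≤ 4 * X := by
      have h7 : ((r : ℝ) * rho * (23 * D)) ^ 2 = D * (529 * (D * ((r * rho) ^ 2))) := by ring
      rw [h7] at h5
      have h8 : 529 * (D * (((r : ℝ) * rho) ^ 2)) ≤ D * (529 * (D * ((r * rho) ^ 2))) :=
        le_mul_of_one_le_left (by positivity) hD1
      linarith
    have h7 : D * (((r : ℝ) * rho) ^ 2) * Real.log 2 ≤ D * ((r * rho) ^ 2) * (6932 / 10000) :=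
      mul_le_mul_of_nonneg_left (by linarith) (by positivity)
    have h8 : c' * g ≤ X / 2 := by
      have h9 : c' ≤ 1 / 368 := by
        rw [hc']
        apply one_div_le_one_div_of_le (by norm_num)
        linarith
      have h10 : g ≤ X := by
        have h11 : 1 ≤ Real.sqrt X := by
          rw [Real.one_le_sqrt]
          linarith
        have h12 : Real.sqrt X ≤ Real.sqrt X * Real.sqrt X := le_mul_of_one_le_right hsX.le h11
        linarith
      have h13 : c' * g ≤ 1 / 368 * X := mul_le_mul h9 h10 hg0 (by norm_num)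
      linarith
    linarith
  -- the second term
  have hsecond : C * x / (c / t ^ 3) ^ 2 *
      (16 / Real.sqrt ((rho ^ r : ℕ) : ℝ) + 3360 / (R : ℝ) + 1 / W) ≤ x * Real.exp (-(c' * g)) := by
    have hs : 0 < Real.exp (t / 2) := Real.exp_pos _
    have h0 : Real.exp t = Real.exp (t / 2) * Real.exp (t / 2) := by
      rw [← Real.exp_add]
      congr 1
      ring
    have hte : Real.exp (t / 2) ≤ Real.exp t := Real.exp_le_exp.2 (by linarith)
    have h1 : Real.sqrt ((rho ^ r : ℕ) : ℝ) = Real.exp (t / 2) := by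
      push_cast
      rw [hzt, h0, Real.sqrt_mul_self hs.le]
    have h2 : Real.exp (t / 2) ≤ R := by
      refine hte.trans ?_
      rw [← hzt]
      exact_mod_cast hRz
    have h3 : Real.exp (t / 2) ≤ W := hte.trans hWt
    have h4 : 3360 / (R : ℝ) ≤ 3360 / Real.exp (t / 2) := div_le_div_of_nonneg_left (by norm_num) hs h2
    have h5 : 1 / W ≤ 1 / Real.exp (t / 2) := div_le_div_of_nonneg_left (by norm_num) hs h3
    have h6 : 16 / Real.sqrt ((rho ^ r : ℕ) : ℝ) + 3360 / (R : ℝ) + 1 / W ≤ 3377 / Real.exp (t / 2) := by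
      rw [h1]
      have h7 : (3377 : ℝ) / Real.exp (t / 2) =
          16 / Real.exp (t / 2) + 3360 / Real.exp (t / 2) + 1 / Real.exp (t / 2) := by
        ring
      rw [h7]
      linarith
    have h7 : C * x / (c / t ^ 3) ^ 2 *
        (16 / Real.sqrt ((rho ^ r : ℕ) : ℝ) + 3360 / (R : ℝ) + 1 / W) ≤
        C * x / (c / t ^ 3) ^ 2 * (3377 / Real.exp (t / 2)) :=
      mul_le_mul_of_nonneg_left h6 (by positivity)
    have h8 : C * x / (c / t ^ 3) ^ 2 * (3377 / Real.exp (t / 2)) =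
        x * (C / (c / t ^ 3) ^ 2 * (3377 / Real.exp (t / 2))) := by ring
    rw [h8] at h7
    refine h7.trans (mul_le_mul_of_nonneg_left (hb4.trans ?_) hx0.le)
    apply Real.exp_le_exp.2
    linarith
  have hfin : (14 + Real.exp (c' * Real.sqrt X₀)) * x * Real.exp (-(c' * g)) =
      13 * (x * Real.exp (-(c' * g))) + x * Real.exp (-(c' * g)) +
        Real.exp (c' * Real.sqrt X₀) * (x * Real.exp (-(c' * g))) := by ring
  rw [hfin]
  have hpos : 0 ≤ Real.exp (c' * Real.sqrt X₀) * (x * Real.exp (-(c' * g))) := by positivity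
  linarith

end Pool.Agent.SPA
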