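import Pool.Agent.SPA.Stmts4

/-!
# MP_7a4c99_nt, row As2 (helper54): the choice of the parameters
-/

set_option autoImplicit false
set_option maxHeartbeats 2000000

namespace Pool.Agent.SPA

open Finset

namespace As254

lemma dvd_two_primorial {z q : ℕ} (hq : q.Prime) (hqz : q ≤ z) : q ∣ 2 * primorial z := by
  apply Dvd.dvd.mul_left
  rw [primorial]
  apply Finset.dvd_prod_of_mem
  rw [mem_filter, mem_range]
  exact ⟨by omega, hq⟩

lemma four_le : (4 : ℝ) ≤ Real.exp (7 / 5) := by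
  have h := Real.log_two_lt_d9
  have h4 : Real.log 4 ≤ 7 / 5 := by
    rw [show (4 : ℝ) = 2 ^ 2 by norm_num, Real.log_pow]
    push_cast
    linarith
  rwa [Real.log_le_iff_le_exp (by norm_num)] at h4

lemma two_le : (2 : ℝ) ≤ Real.exp (7 / 10) := by
  have h := Real.log_two_lt_d9
  have h4 : Real.log 2 ≤ 7 / 10 := by linarith
  rwa [Real.log_le_iff_le_exp (by norm_num)] at h4

lemma five_le : (5 : ℝ) ≤ Real.exp 2 := by
  have h := Real.quadratic_le_exp_of_nonneg (show (0 : ℝ) ≤ 2 by norm_num)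
  linarith

lemma expand {l : ℝ} (hl : 24 ≤ l) : l + l ^ 2 / 100 + 3 ≤ Real.exp (l / 2) := by
  have h := Real.quadratic_le_exp_of_nonneg (show (0 : ℝ) ≤ l / 2 by linarith)
  nlinarith

lemma big {l : ℝ} (hl : 24 ≤ l) : 94 * Real.exp (3 * l / 4) + l ≤ Real.exp l := by
  have h1 : Real.exp l = Real.exp (3 * l / 4) * Real.exp (l / 4) := by
    rw [← Real.exp_add]; ring_nf
  have h2 : 95 ≤ Real.exp (l / 4) := by
    have h3 : (5 : ℝ) ^ 3 ≤ Real.exp 2 ^ 3 := pow_le_pow_left₀ (by norm_num) five_le 3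
    have h4 : Real.exp 2 ^ 3 = Real.exp 6 := by
      rw [← Real.exp_nat_mul]; norm_num
    have h5 : Real.exp 6 ≤ Real.exp (l / 4) := Real.exp_le_exp.2 (by linarith)
    linarith
  have h6 : l ≤ Real.exp (3 * l / 4) := by
    have h := Real.quadratic_le_exp_of_nonneg (show (0 : ℝ) ≤ 3 * l / 4 by linarith)
    nlinarith
  have h7 := Real.exp_pos (3 * l / 4)
  rw [h1]
  nlinarith

end As254

open As254 in
theorem as2 : RowAs2 := by
  intro C hC hCore hG
  refine ⟨1 / 64, 40 + 14500 * C, by norm_num, fun x hx => ?_⟩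
  have hx0 : (0 : ℝ) < x := by
    have : 0 < x := by omega
    exact_mod_cast this
  have hx16 : (16 : ℝ) ≤ x := by exact_mod_cast hx
  obtain ⟨X, hX⟩ : ∃ X, X = Real.log x := ⟨_, rfl⟩
  obtain ⟨l, hl⟩ : ∃ l, l = Real.log X := ⟨_, rfl⟩
  rw [← hX, ← hl]
  have hX2 : 2 < X := by
    rw [hX]
    have h1 : Real.log 16 ≤ Real.log x := Real.log_le_log (by norm_num) hx16
    have h2 : Real.log 16 = 4 * Real.log 2 := by
      rw [show (16 : ℝ) = 2 ^ 4 by norm_num, Real.log_pow]; push_cast; ring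
    have h3 := Real.log_two_gt_d9
    linarith
  have hl0 : 0 < l := by rw [hl]; exact Real.log_pos (by linarith)
  have hXl : Real.exp l = X := by rw [hl]; exact Real.exp_log (by linarith)
  have hxX : Real.exp X = x := by rw [hX]; exact Real.exp_log hx0
  have triv : ∀ p : ℕ → Prop, ∀ [DecidablePred p], (((Icc 2 x).filter p).card : ℝ) ≤ x := by
    intro p _
    have h1 : ((Icc 2 x).filter p).card ≤ x := by
      refine (card_filter_le _ _).trans ?_
      rw [Nat.card_Icc]; omega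
    exact_mod_cast h1
  by_cases hl24 : l < 24
  · refine (triv _).trans ?_
    rw [le_div_iff₀ hl0]
    nlinarith
  push Not at hl24
  -- the parameters
  obtain ⟨z, hz⟩ : ∃ z, z = ⌊l ^ 2 / 200⌋₊ + 1 := ⟨_, rfl⟩
  have hz1 : 1 ≤ z := by omega
  have hz2 : (z : ℝ) ≤ l ^ 2 / 200 + 1 := by
    rw [hz]; push_cast
    linarith [Nat.floor_le (show (0 : ℝ) ≤ l ^ 2 / 200 by positivity)]
  have hz3 : l ^ 2 / 200 ≤ z := by
    rw [hz]; push_cast
    exact (Nat.lt_floor_add_one _).le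
  obtain ⟨Q, hQ⟩ : ∃ Q, Q = 2 * primorial z := ⟨_, rfl⟩
  have hQ2 : 2 ≤ Q := by
    have := primorial_pos z
    omega
  have hQ3 : (Q : ℝ) ≤ Real.exp (7 / 1000 * l ^ 2 + 21 / 10) := by
    have h1 : (Q : ℝ) ≤ 2 * 4 ^ z := by
      rw [hQ]; exact_mod_cast Nat.mul_le_mul_left 2 (primorial_le_four_pow z)
    have h2 : (4 : ℝ) ^ z ≤ Real.exp (7 / 5 * z) := by
      calc (4 : ℝ) ^ z ≤ Real.exp (7 / 5) ^ z := pow_le_pow_left₀ (by norm_num) four_le z
        _ = Real.exp (7 / 5 * z) := by rw [← Real.exp_nat_mul]; ring_nf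
    have h3 : Real.exp (7 / 5 * z) ≤ Real.exp (7 / 1000 * l ^ 2 + 7 / 5) := Real.exp_le_exp.2 (by linarith)
    calc (Q : ℝ) ≤ 2 * 4 ^ z := h1
      _ ≤ Real.exp (7 / 10) * Real.exp (7 / 1000 * l ^ 2 + 7 / 5) :=
          mul_le_mul two_le (h2.trans h3) (by positivity) (Real.exp_pos _).le
      _ = _ := by rw [← Real.exp_add]; ring_nf
  obtain ⟨s, hs⟩ : ∃ s, s = Real.exp (l / 2) := ⟨_, rfl⟩
  have hs1 : l + l ^ 2 / 100 + 3 ≤ s := by rw [hs]; exact expand hl24
  obtain ⟨y, hy⟩ : ∃ y, y = ⌊Real.exp s⌋₊ := ⟨_, rfl⟩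
  have hes := Real.quadratic_le_exp_of_nonneg (show (0 : ℝ) ≤ s by nlinarith)
  have hy1 : (y : ℝ) ≤ Real.exp s := by rw [hy]; exact Nat.floor_le (Real.exp_pos _).le
  have hy2 : Real.exp s / 2 ≤ y := by
    have h1 : Real.exp s < y + 1 := by rw [hy]; exact Nat.lt_floor_add_one _
    nlinarith
  have hsy : s ≤ y := by nlinarith
  have hy4 : 4 ≤ y := by
    have : (4 : ℝ) ≤ y := by nlinarith
    exact_mod_cast this
  have hy0 : (0 : ℝ) < y := by nlinarith
  have hQy : Q ≤ y := by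
    have h1 : (Q : ℝ) ≤ y := by
      have h2 : 2 * Real.exp (7 / 1000 * l ^ 2 + 21 / 10) ≤ Real.exp s := by
        calc 2 * Real.exp (7 / 1000 * l ^ 2 + 21 / 10)
            ≤ Real.exp (7 / 10) * Real.exp (7 / 1000 * l ^ 2 + 21 / 10) :=
              mul_le_mul_of_nonneg_right two_le (Real.exp_pos _).le
          _ = Real.exp (7 / 1000 * l ^ 2 + 28 / 10) := by rw [← Real.exp_add]; ring_nf
          _ ≤ Real.exp s := Real.exp_le_exp.2 (by nlinarith)
      linarith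
    exact_mod_cast h1
  have hly1 : Real.log y ≤ s := by
    rw [Real.log_le_iff_le_exp hy0]; exact hy1
  have hly2 : s / 2 ≤ Real.log y := by
    rw [Real.le_log_iff_exp_le hy0]
    refine le_trans ?_ hy2
    rw [le_div_iff₀ (by norm_num)]
    calc Real.exp (s / 2) * 2 ≤ Real.exp (s / 2) * Real.exp (7 / 10) :=
          mul_le_mul_of_nonneg_left two_le (Real.exp_pos _).le
      _ = Real.exp (s / 2 + 7 / 10) := by rw [← Real.exp_add]
      _ ≤ Real.exp s := Real.exp_le_exp.2 (by nlinarith)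
  obtain ⟨r, hr⟩ : ∃ r, r = ⌊l / 8⌋₊ := ⟨_, rfl⟩
  have hr1 : (r : ℝ) ≤ l / 8 := by rw [hr]; exact Nat.floor_le (by linarith)
  have hr2 : l / 8 - 1 ≤ r := by
    have h1 : l / 8 < r + 1 := by rw [hr]; exact Nat.lt_floor_add_one _
    linarith
  obtain ⟨R, hR⟩ : ∃ R, R = y ^ 5 ^ r := ⟨_, rfl⟩
  have hyR : y ≤ R := by rw [hR]; exact Nat.le_self_pow (by positivity) y
  have hyR' : (y : ℝ) ≤ R := by exact_mod_cast hyR
  have hR0 : (0 : ℝ) < R := lt_of_lt_of_le hy0 hyR'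
  have hlR : Real.log R ≤ Real.exp (3 * l / 4) := by
    rw [hR]; push_cast
    rw [Real.log_pow]
    push_cast
    have h1 : (5 : ℝ) ^ r ≤ Real.exp (l / 4) := by
      calc (5 : ℝ) ^ r ≤ Real.exp 2 ^ r := pow_le_pow_left₀ (by norm_num) five_le r
        _ = Real.exp (r * 2) := by rw [← Real.exp_nat_mul]
        _ ≤ Real.exp (l / 4) := Real.exp_le_exp.2 (by linarith)
    calc (5 : ℝ) ^ r * Real.log y ≤ Real.exp (l / 4) * s :=
          mul_le_mul h1 hly1 (by nlinarith) (Real.exp_pos _).le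
      _ = Real.exp (3 * l / 4) := by rw [hs, ← Real.exp_add]; ring_nf
  have hlR2 : s / 2 ≤ Real.log R := hly2.trans (Real.log_le_log hy0 hyR')
  obtain ⟨T, hT, hW⟩ := hG r Q y hQ2 hQy hy4
  rw [← hR] at hT
  obtain ⟨W, hWd⟩ : ∃ W, W = ∑ p ∈ T, (1 : ℝ) / p.1 := ⟨_, rfl⟩
  rw [← hWd] at hW
  have hQ0 : (0 : ℝ) < Q := by
    have : 0 < Q := by omega
    exact_mod_cast this
  have hWe : Real.exp (1 / 64 * l ^ 2) ≤ W := by
    refine le_trans ?_ hW
    have h1 : Real.exp (l / 2 - 7 / 5) ≤ Real.log y / 2 := by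
      have h2 : Real.exp (l / 2 - 7 / 5) * 4 ≤ s := by
        calc Real.exp (l / 2 - 7 / 5) * 4 ≤ Real.exp (l / 2 - 7 / 5) * Real.exp (7 / 5) :=
              mul_le_mul_of_nonneg_left four_le (Real.exp_pos _).le
          _ = s := by rw [hs, ← Real.exp_add]; ring_nf
      linarith
    have h3 : Real.exp ((l / 8 - 1) * (l / 2 - 7 / 5)) ≤ (Real.log y / 2) ^ r := by
      calc Real.exp ((l / 8 - 1) * (l / 2 - 7 / 5)) ≤ Real.exp (r * (l / 2 - 7 / 5)) :=
            Real.exp_le_exp.2 (mul_le_mul_of_nonneg_right hr2 (by linarith))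
        _ = Real.exp (l / 2 - 7 / 5) ^ r := by rw [← Real.exp_nat_mul]
        _ ≤ (Real.log y / 2) ^ r := pow_le_pow_left₀ (Real.exp_pos _).le h1 r
    rw [le_div_iff₀ hQ0]
    calc Real.exp (1 / 64 * l ^ 2) * Q
        ≤ Real.exp (1 / 64 * l ^ 2) * Real.exp (7 / 1000 * l ^ 2 + 21 / 10) :=
          mul_le_mul_of_nonneg_left hQ3 (Real.exp_pos _).le
      _ = Real.exp (1 / 64 * l ^ 2 + (7 / 1000 * l ^ 2 + 21 / 10)) := by rw [← Real.exp_add]
      _ ≤ Real.exp ((l / 8 - 1) * (l / 2 - 7 / 5)) := Real.exp_le_exp.2 (by nlinarith)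
      _ ≤ _ := h3
  have hW1 : 1 ≤ W := (Real.one_le_exp (by positivity)).trans hWe
  have hR3 : 3 ≤ R := by omega
  have hcore := hCore z R x T hz1 hR3 (fun p hp => by
    obtain ⟨h1, h2, h3, h4, h5⟩ := hT p hp
    exact ⟨h2, h3, h4, fun q hq hqz => (by rw [hQ] at h1; exact (dvd_two_primorial hq hqz).trans h1), h5⟩)
    (by rw [← hWd]; exact hW1)
  rw [← hWd] at hcore
  have hsub : (((Icc 2 x).filter (fun k => (Pool.Agent.SPM.N k : ℝ) < Real.exp (1 / 64 * l ^ 2))).card : ℝ) ≤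
      (((Icc 2 x).filter (fun k => (Pool.Agent.SPM.N k : ℝ) < 5 * W * Real.log R ^ 2)).card : ℝ) := by
    have h1 : Real.exp (1 / 64 * l ^ 2) ≤ 5 * W * Real.log R ^ 2 := by
      have h2 : 1 ≤ Real.log R := by nlinarith
      have h3 : 1 ≤ Real.log R ^ 2 := one_le_pow₀ h2
      nlinarith
    have h4 : (Icc 2 x).filter (fun k => (Pool.Agent.SPM.N k : ℝ) < Real.exp (1 / 64 * l ^ 2)) ⊆
        (Icc 2 x).filter (fun k => (Pool.Agent.SPM.N k : ℝ) < 5 * W * Real.log R ^ 2) := by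
      intro k hk
      rw [mem_filter] at hk ⊢
      exact ⟨hk.1, lt_of_lt_of_le hk.2 h1⟩
    exact_mod_cast card_le_card h4
  refine hsub.trans (hcore.trans ?_)
  have e1 : (R : ℝ) ^ 94 ≤ x / l := by
    have h1 : (R : ℝ) ^ 94 = Real.exp (94 * Real.log R) := by
      rw [show (94 : ℝ) * Real.log R = ((94 : ℕ) : ℝ) * Real.log R by norm_num, Real.exp_nat_mul,
        Real.exp_log hR0]
    rw [h1, le_div_iff₀ hl0]
    have h2 : l ≤ Real.exp l := by
      have := Real.add_one_le_exp l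
      linarith
    calc Real.exp (94 * Real.log R) * l ≤ Real.exp (94 * Real.exp (3 * l / 4)) * Real.exp l :=
          mul_le_mul (Real.exp_le_exp.2 (by linarith)) h2 hl0.le (Real.exp_pos _).le
      _ = Real.exp (94 * Real.exp (3 * l / 4) + l) := by rw [← Real.exp_add]
      _ ≤ Real.exp X := Real.exp_le_exp.2 (by rw [← hXl]; exact big hl24)
      _ = x := hxX
  have e2 : 16 / Real.sqrt z ≤ 240 / l := by
    have h1 : l / 15 ≤ Real.sqrt z := by
      apply Real.le_sqrt_of_sq_le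
      nlinarith
    rw [div_le_div_iff₀ (by positivity) hl0]
    nlinarith
  have e3 : 3360 / (R : ℝ) ≤ 3360 / l := by
    apply div_le_div_of_nonneg_left (by norm_num) hl0
    nlinarith
  have e4 : 1 / Real.log R ^ 2 ≤ 1 / l := by
    apply div_le_div_of_nonneg_left (by norm_num) hl0
    nlinarith
  have e5 : 4 * C * x * (16 / Real.sqrt z + 3360 / R + 1 / Real.log R ^ 2) ≤ 4 * C * x * (3601 / l) := by
    apply mul_le_mul_of_nonneg_left _ (by positivity)
    calc 16 / Real.sqrt z + 3360 / R + 1 / Real.log R ^ 2 ≤ 240 / l + 3360 / l + 1 / l := by linarith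
      _ = 3601 / l := by ring
  have e6 : 0 ≤ x / l := by positivity
  calc 13 * (R : ℝ) ^ 94 + 4 * C * x * (16 / Real.sqrt z + 3360 / R + 1 / Real.log R ^ 2)
      ≤ 13 * (x / l) + 4 * C * x * (3601 / l) := by linarith
    _ = (13 + 14404 * C) * (x / l) := by ring
    _ ≤ (40 + 14500 * C) * (x / l) := by
        apply mul_le_mul_of_nonneg_right _ e6
        linarith
    _ = _ := by ring

end Pool.Agent.SPA
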