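import Pool.Agent.SPA.Stmts6
import Pool.Agent.SPA.As254

/-!
# MP_7a4c99_nt, row As5 (helper54): the choice of the parameters, strongest form
-/

set_option autoImplicit false
set_option maxHeartbeats 2000000

namespace Pool.Agent.SPA

open Finset

namespace As554

open As254

/-- powers against the exponential function -/
lemma ev (M : ℝ) (n : ℕ) : ∃ L : ℝ, ∀ l : ℝ, L ≤ l → M * l ^ n ≤ Real.exp l := by
  have h := (Real.isLittleO_pow_exp_atTop (n := n)).def (show (0 : ℝ) < 1 / (|M| + 1) by positivity)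
  rw [Filter.eventually_atTop] at h
  obtain ⟨L, hL⟩ := h
  refine ⟨L, fun l hl => ?_⟩
  have h1 := hL l hl
  rw [Real.norm_eq_abs, Real.norm_eq_abs, abs_of_pos (Real.exp_pos l)] at h1
  have h2 : (|M| + 1) * |l ^ n| ≤ Real.exp l := by
    have h3 := mul_le_mul_of_nonneg_left h1 (show (0 : ℝ) ≤ |M| + 1 by positivity)
    have h4 : (|M| + 1) * (1 / (|M| + 1) * Real.exp l) = Real.exp l := by
      field_simp
    linarith
  calc M * l ^ n ≤ |M * l ^ n| := le_abs_self _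
    _ = |M| * |l ^ n| := abs_mul _ _
    _ ≤ (|M| + 1) * |l ^ n| := mul_le_mul_of_nonneg_right (by linarith) (abs_nonneg _)
    _ ≤ Real.exp l := h2

lemma big2 {l a : ℝ} (hl : 24 ≤ l) (ha : a ≤ Real.exp (3 * l / 4)) :
    94 * Real.exp (3 * l / 4) + a ≤ Real.exp l := by
  have h1 : Real.exp l = Real.exp (3 * l / 4) * Real.exp (l / 4) := by
    rw [← Real.exp_add]; ring_nf
  have h2 : 95 ≤ Real.exp (l / 4) := by
    have h3 : (5 : ℝ) ^ 3 ≤ Real.exp 2 ^ 3 := pow_le_pow_left₀ (by norm_num) five_le 3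
    have h4 : Real.exp 2 ^ 3 = Real.exp 6 := by
      rw [← Real.exp_nat_mul]; norm_num
    have h5 : Real.exp 6 ≤ Real.exp (l / 4) := Real.exp_le_exp.2 (by linarith)
    linarith
  have h8 := mul_le_mul_of_nonneg_left h2 (Real.exp_pos (3 * l / 4)).le
  rw [h1]
  linarith

/-- the parameters `y`, `r`, `R` and the family `T` -/
lemma params (hG : RowG) {l : ℝ} (hl : 24 ≤ l) : ∃ (R : ℕ) (T : Finset (ℕ × ℕ)), 3 ≤ R ∧
    (∀ p ∈ T, 1 ≤ p.1 ∧ p.1 ≤ R ∧ p.2 ≤ R ∧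
      ∃ s : Multiset ℕ, (∀ a ∈ s, 2 ≤ a ∧ a ≤ R) ∧ s.prod = p.1 ∧ s.sum = p.2 + s.card) ∧
    Real.exp (l ^ 2 / 32) ≤ ∑ p ∈ T, (1 : ℝ) / p.1 ∧
    Real.exp (l / 2) / 2 ≤ Real.log R ∧ Real.log R ≤ Real.exp (3 * l / 4) ∧
    Real.exp (Real.exp (l / 2)) / 2 ≤ R := by
  obtain ⟨s, hs⟩ : ∃ s, s = Real.exp (l / 2) := ⟨_, rfl⟩
  have hs1 : l + l ^ 2 / 100 + 3 ≤ s := by rw [hs]; exact expand hl
  have hs27 : 27 ≤ s := by nlinarith
  obtain ⟨y, hy⟩ : ∃ y, y = ⌊Real.exp s⌋₊ := ⟨_, rfl⟩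
  have hes := Real.quadratic_le_exp_of_nonneg (show (0 : ℝ) ≤ s by linarith)
  have hy1 : (y : ℝ) ≤ Real.exp s := by rw [hy]; exact Nat.floor_le (Real.exp_pos _).le
  have hes2 : 2 ≤ Real.exp s := by
    have := Real.add_one_le_exp s
    linarith
  have hy2 : Real.exp s / 2 ≤ y := by
    have h1 : Real.exp s < y + 1 := by rw [hy]; exact Nat.lt_floor_add_one _
    linarith
  have hsy : s ≤ y := by nlinarith
  have hy4 : 4 ≤ y := by
    have : (4 : ℝ) ≤ y := by linarith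
    exact_mod_cast this
  have hy0 : (0 : ℝ) < y := by linarith
  have hly1 : Real.log y ≤ s := by
    rw [Real.log_le_iff_le_exp hy0]; exact hy1
  have hly2 : s / 2 ≤ Real.log y := by
    rw [Real.le_log_iff_exp_le hy0]
    refine le_trans ?_ hy2
    rw [le_div_iff₀ (by norm_num)]
    calc Real.exp (s / 2) * 2 ≤ Real.exp (s / 2) * Real.exp (7 / 10) :=
          mul_le_mul_of_nonneg_left two_le (Real.exp_pos _).le
      _ = Real.exp (s / 2 + 7 / 10) := by rw [← Real.exp_add]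
      _ ≤ Real.exp s := Real.exp_le_exp.2 (by linarith)
  obtain ⟨r, hr⟩ : ∃ r, r = ⌊l / 8⌋₊ := ⟨_, rfl⟩
  have hr1 : (r : ℝ) ≤ l / 8 := by rw [hr]; exact Nat.floor_le (by linarith)
  have hr2 : l / 8 - 1 ≤ r := by
    have h1 : l / 8 < r + 1 := by rw [hr]; exact Nat.lt_floor_add_one _
    linarith
  obtain ⟨R, hR⟩ : ∃ R, R = y ^ 5 ^ r := ⟨_, rfl⟩
  have hyR : y ≤ R := by rw [hR]; exact Nat.le_self_pow (by positivity) y
  have hyR' : (y : ℝ) ≤ R := by exact_mod_cast hyR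
  have hlR : Real.log R ≤ Real.exp (3 * l / 4) := by
    rw [hR]; push_cast
    rw [Real.log_pow]
    push_cast
    have h1 : (5 : ℝ) ^ r ≤ Real.exp (l / 4) := by
      calc (5 : ℝ) ^ r ≤ Real.exp 2 ^ r := pow_le_pow_left₀ (by norm_num) five_le r
        _ = Real.exp (r * 2) := by rw [← Real.exp_nat_mul]
        _ ≤ Real.exp (l / 4) := Real.exp_le_exp.2 (by linarith)
    calc (5 : ℝ) ^ r * Real.log y ≤ Real.exp (l / 4) * s :=
          mul_le_mul h1 hly1 (by linarith) (Real.exp_pos _).le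
      _ = Real.exp (3 * l / 4) := by rw [hs, ← Real.exp_add]; ring_nf
  have hlR2 : s / 2 ≤ Real.log R := hly2.trans (Real.log_le_log hy0 hyR')
  obtain ⟨T, hT, hW⟩ := hG r 2 y le_rfl (by omega) hy4
  rw [← hR] at hT
  refine ⟨R, T, by omega, fun p hp => (hT p hp).2, ?_, by rw [← hs]; exact hlR2, hlR,
    by rw [← hs]; exact hy2.trans hyR'⟩
  refine le_trans ?_ hW
  have h1 : Real.exp (l / 2 - 7 / 5) ≤ Real.log y / 2 := by
    have h2 : Real.exp (l / 2 - 7 / 5) * 4 ≤ s := by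
      calc Real.exp (l / 2 - 7 / 5) * 4 ≤ Real.exp (l / 2 - 7 / 5) * Real.exp (7 / 5) :=
            mul_le_mul_of_nonneg_left four_le (Real.exp_pos _).le
        _ = s := by rw [hs, ← Real.exp_add]; ring_nf
    linarith
  have h3 : Real.exp ((l / 8 - 1) * (l / 2 - 7 / 5)) ≤ (Real.log y / 2) ^ r := by
    calc Real.exp ((l / 8 - 1) * (l / 2 - 7 / 5)) ≤ Real.exp (r * (l / 2 - 7 / 5)) :=
          Real.exp_le_exp.2 (mul_le_mul_of_nonneg_right hr2 (by linarith))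
      _ = Real.exp (l / 2 - 7 / 5) ^ r := by rw [← Real.exp_nat_mul]
      _ ≤ (Real.log y / 2) ^ r := pow_le_pow_left₀ (Real.exp_pos _).le h1 r
  push_cast
  rw [le_div_iff₀ (by norm_num)]
  calc Real.exp (l ^ 2 / 32) * 2 ≤ Real.exp (l ^ 2 / 32) * Real.exp (7 / 10) :=
        mul_le_mul_of_nonneg_left two_le (Real.exp_pos _).le
    _ = Real.exp (l ^ 2 / 32 + 7 / 10) := by rw [← Real.exp_add]
    _ ≤ Real.exp ((l / 8 - 1) * (l / 2 - 7 / 5)) := Real.exp_le_exp.2 (by nlinarith)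
    _ ≤ _ := h3

end As554

open As254 As554 in
theorem as5 : RowAs5 := by
  intro C c K hC hc hc1 hK hCore hG
  obtain ⟨L3, hL3⟩ := ev 1 12
  obtain ⟨L4, hL4⟩ := ev (32 * K) 4
  obtain ⟨L5, hL5⟩ := ev (1 / c) 6
  obtain ⟨L6, hL6⟩ := ev 1 2
  obtain ⟨l₀, hl₀⟩ : ∃ l₀ : ℝ, 64 ≤ l₀ ∧ L3 ≤ l₀ ∧ 2 * L4 ≤ l₀ ∧ L5 ≤ l₀ ∧ 2 * L6 ≤ l₀ := by
    refine ⟨64 + |L3| + 2 * |L4| + |L5| + 2 * |L6|, ?_, ?_, ?_, ?_, ?_⟩ <;>
    linarith [le_abs_self L3, le_abs_self L4, le_abs_self L5, le_abs_self L6, abs_nonneg L3,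
      abs_nonneg L4, abs_nonneg L5, abs_nonneg L6]
  obtain ⟨h64, h3, h4, h5, h6⟩ := hl₀
  refine ⟨1 / 64, Real.exp (l₀ ^ 2 / 64) + 13 + 3377 * C / c ^ 2, by norm_num, fun x hx => ?_⟩
  have hx0 : (0 : ℝ) < x := by
    have : 0 < x := by omega
    exact_mod_cast this
  have hx3 : (3 : ℝ) ≤ x := by exact_mod_cast hx
  obtain ⟨X, hX⟩ : ∃ X, X = Real.log x := ⟨_, rfl⟩
  obtain ⟨l, hl⟩ : ∃ l, l = Real.log X := ⟨_, rfl⟩
  rw [← hX, ← hl]
  have hX1 : 1 < X := by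
    rw [hX, Real.lt_log_iff_exp_lt hx0]
    exact lt_of_lt_of_le (Real.exp_one_lt_d9.trans (by norm_num)) hx3
  have hXl : Real.exp l = X := by rw [hl]; exact Real.exp_log (by linarith)
  have hl0 : 0 < l := by rw [hl]; exact Real.log_pos hX1
  have hxX : Real.exp X = x := by rw [hX]; exact Real.exp_log hx0
  have triv : ∀ p : ℕ → Prop, ∀ [DecidablePred p], (((Icc 2 x).filter p).card : ℝ) ≤ x := by
    intro p _
    have h1 : ((Icc 2 x).filter p).card ≤ x := by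
      refine (card_filter_le _ _).trans ?_
      rw [Nat.card_Icc]; omega
    exact_mod_cast h1
  have hCc : 0 ≤ 3377 * C / c ^ 2 := by positivity
  have hE1 : 0 < Real.exp (-(1 / 64 * l ^ 2)) := Real.exp_pos _
  by_cases hll : l < l₀
  · refine (triv _).trans ?_
    have h1 : 1 ≤ Real.exp (l₀ ^ 2 / 64) * Real.exp (-(1 / 64 * l ^ 2)) := by
      rw [← Real.exp_add]
      apply Real.one_le_exp
      nlinarith
    have h2 : 1 ≤ (Real.exp (l₀ ^ 2 / 64) + 13 + 3377 * C / c ^ 2) * Real.exp (-(1 / 64 * l ^ 2)) := by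
      refine h1.trans (mul_le_mul_of_nonneg_right ?_ hE1.le)
      linarith
    calc (x : ℝ) = x * 1 := (mul_one _).symm
      _ ≤ x * ((Real.exp (l₀ ^ 2 / 64) + 13 + 3377 * C / c ^ 2) * Real.exp (-(1 / 64 * l ^ 2))) :=
          mul_le_mul_of_nonneg_left h2 hx0.le
      _ = _ := by ring
  push Not at hll
  have hl64 : 64 ≤ l := by linarith
  -- the parameters
  obtain ⟨R, T, hR3, hT, hW, hR1, hR2, hR4⟩ := params hG (show (24 : ℝ) ≤ l by linarith)
  obtain ⟨W, hWd⟩ : ∃ W, W = ∑ p ∈ T, (1 : ℝ) / p.1 := ⟨_, rfl⟩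
  rw [← hWd] at hW
  have hR0 : (0 : ℝ) < R := by
    have : 0 < R := by omega
    exact_mod_cast this
  obtain ⟨z, hz⟩ : ∃ z, z = ⌊Real.exp (l ^ 2 / 16)⌋₊ + 3 := ⟨_, rfl⟩
  have hz3 : 3 ≤ z := by omega
  have hz1 : Real.exp (l ^ 2 / 16) ≤ z := by
    rw [hz]; push_cast
    linarith [(Nat.lt_floor_add_one (Real.exp (l ^ 2 / 16))).le]
  have hz2 : (z : ℝ) ≤ Real.exp (l ^ 2) := by
    rw [hz]; push_cast
    have h1 := Nat.floor_le (Real.exp_pos (l ^ 2 / 16)).le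
    have h7 : Real.exp (l ^ 2 / 16) * 4 ≤ Real.exp (l ^ 2) := by
      calc Real.exp (l ^ 2 / 16) * 4 ≤ Real.exp (l ^ 2 / 16) * Real.exp (7 / 5) :=
            mul_le_mul_of_nonneg_left four_le (Real.exp_pos _).le
        _ = Real.exp (l ^ 2 / 16 + 7 / 5) := by rw [← Real.exp_add]
        _ ≤ Real.exp (l ^ 2) := Real.exp_le_exp.2 (by nlinarith)
    have h8 : 1 ≤ Real.exp (l ^ 2 / 16) := Real.one_le_exp (by positivity)
    linarith
  have hz0 : (0 : ℝ) < z := lt_of_lt_of_le (Real.exp_pos _) hz1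
  obtain ⟨lam, hlam⟩ : ∃ lam, lam = Real.log z := ⟨_, rfl⟩
  have hlam1 : lam ≤ l ^ 2 := by
    rw [hlam, Real.log_le_iff_le_exp hz0]
    exact hz2
  have hlam0 : 0 < lam := by
    rw [hlam]
    apply Real.log_pos
    have : (3 : ℝ) ≤ z := by exact_mod_cast hz3
    linarith
  have q3 : (l ^ 2) ^ 6 ≤ Real.exp l := by
    have := hL3 l (by linarith)
    have e : (l ^ 2) ^ 6 = 1 * l ^ 12 := by ring
    rw [e]; exact this
  have q4 : K * (l ^ 2) ^ 2 ≤ Real.exp (l / 2) / 2 := by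
    have := hL4 (l / 2) (by linarith)
    have e : K * (l ^ 2) ^ 2 = 32 * K * (l / 2) ^ 4 / 2 := by ring
    rw [e]; linarith
  have hl2 : l ≤ l ^ 2 / 64 := by nlinarith
  have q5 : (l ^ 2) ^ 3 / c ≤ Real.exp (l ^ 2 / 64) := by
    have h1 := hL5 l (by linarith)
    have e : (l ^ 2) ^ 3 / c = 1 / c * l ^ 6 := by ring
    rw [e]
    exact h1.trans (Real.exp_le_exp.2 hl2)
  have q6 : l ^ 2 / 32 + 1 ≤ Real.exp (l / 2) := by
    have h1 := hL6 (l / 2) (by linarith)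
    nlinarith
  have r2 : lam ^ 2 ≤ (l ^ 2) ^ 2 := pow_le_pow_left₀ hlam0.le hlam1 2
  have r3 : lam ^ 3 ≤ (l ^ 2) ^ 3 := pow_le_pow_left₀ hlam0.le hlam1 3
  have r6 : lam ^ 6 ≤ Real.exp l := (pow_le_pow_left₀ hlam0.le hlam1 6).trans q3
  have hKR : K * Real.log z ^ 2 ≤ Real.log R := by
    rw [← hlam]
    exact (mul_le_mul_of_nonneg_left r2 (by linarith)).trans (q4.trans hR1)
  have hdW : Real.exp (l ^ 2 / 64) ≤ c / lam ^ 3 * W := by
    have h1 : lam ^ 3 / c ≤ Real.exp (l ^ 2 / 64) :=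
      (div_le_div_of_nonneg_right r3 hc.le).trans q5
    have h2 : Real.exp (l ^ 2 / 64) * (lam ^ 3 / c) ≤ W := by
      calc Real.exp (l ^ 2 / 64) * (lam ^ 3 / c) ≤ Real.exp (l ^ 2 / 64) * Real.exp (l ^ 2 / 64) :=
            mul_le_mul_of_nonneg_left h1 (Real.exp_pos _).le
        _ = Real.exp (l ^ 2 / 32) := by rw [← Real.exp_add]; ring_nf
        _ ≤ W := hW
    have h3 := mul_le_mul_of_nonneg_left h2 (show 0 ≤ c / lam ^ 3 by positivity)
    have h4 : c / lam ^ 3 * (Real.exp (l ^ 2 / 64) * (lam ^ 3 / c)) = Real.exp (l ^ 2 / 64) := by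
      field_simp
    linarith
  have hcore := hCore z R x T hz3 hR3 hKR hT (by
    rw [← hWd, ← hlam]
    exact (Real.one_le_exp (by positivity)).trans hdW)
  rw [← hWd, ← hlam] at hcore
  have hsub : (((Icc 2 x).filter (fun k => (Pool.Agent.SPM.N k : ℝ) < Real.exp (1 / 64 * l ^ 2))).card : ℝ) ≤
      (((Icc 2 x).filter (fun k => (Pool.Agent.SPM.N k : ℝ) < 10 * (c / lam ^ 3) * W)).card : ℝ) := by
    have h1 : Real.exp (1 / 64 * l ^ 2) ≤ 10 * (c / lam ^ 3) * W := by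
      have h2 : Real.exp (1 / 64 * l ^ 2) = Real.exp (l ^ 2 / 64) := by ring_nf
      have h3 := Real.exp_pos (l ^ 2 / 64)
      rw [h2]; linarith
    have h4 : (Icc 2 x).filter (fun k => (Pool.Agent.SPM.N k : ℝ) < Real.exp (1 / 64 * l ^ 2)) ⊆
        (Icc 2 x).filter (fun k => (Pool.Agent.SPM.N k : ℝ) < 10 * (c / lam ^ 3) * W) := by
      intro k hk
      rw [mem_filter] at hk ⊢
      exact ⟨hk.1, lt_of_lt_of_le hk.2 h1⟩
    exact_mod_cast card_le_card h4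
  refine hsub.trans (hcore.trans ?_)
  have e1 : (R : ℝ) ^ 94 ≤ x * Real.exp (-(1 / 64 * l ^ 2)) := by
    have h1 : (R : ℝ) ^ 94 = Real.exp (94 * Real.log R) := by
      rw [show (94 : ℝ) * Real.log R = ((94 : ℕ) : ℝ) * Real.log R by norm_num, Real.exp_nat_mul,
        Real.exp_log hR0]
    have h2 : l ^ 2 / 64 ≤ Real.exp (3 * l / 4) := by
      have h3 : Real.exp (l / 2) ≤ Real.exp (3 * l / 4) := Real.exp_le_exp.2 (by linarith)
      have h4 : 0 ≤ l ^ 2 := by positivity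
      linarith
    rw [h1, ← hxX, ← Real.exp_add]
    apply Real.exp_le_exp.2
    have h4 := big2 (show (24 : ℝ) ≤ l by linarith) h2
    rw [hXl] at h4
    linarith
  have hE : 0 < Real.exp (l ^ 2 / 32) := Real.exp_pos _
  have e2 : 16 / Real.sqrt z ≤ 16 / Real.exp (l ^ 2 / 32) := by
    apply div_le_div_of_nonneg_left (by norm_num) hE
    apply Real.le_sqrt_of_sq_le
    calc Real.exp (l ^ 2 / 32) ^ 2 = Real.exp (l ^ 2 / 16) := by
          rw [← Real.exp_nat_mul]; push_cast; ring_nf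
      _ ≤ z := hz1
  have e3 : 3360 / (R : ℝ) ≤ 3360 / Real.exp (l ^ 2 / 32) := by
    apply div_le_div_of_nonneg_left (by norm_num) hE
    refine le_trans ?_ hR4
    rw [le_div_iff₀ (by norm_num)]
    calc Real.exp (l ^ 2 / 32) * 2 ≤ Real.exp (l ^ 2 / 32) * Real.exp (7 / 10) :=
          mul_le_mul_of_nonneg_left two_le (Real.exp_pos _).le
      _ = Real.exp (l ^ 2 / 32 + 7 / 10) := by rw [← Real.exp_add]
      _ ≤ _ := Real.exp_le_exp.2 (by linarith)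
  have e4 : 1 / W ≤ 1 / Real.exp (l ^ 2 / 32) :=
    div_le_div_of_nonneg_left (by norm_num) hE hW
  have e5 : C * x / (c / lam ^ 3) ^ 2 ≤ C * x / c ^ 2 * Real.exp (l ^ 2 / 64) := by
    have h1 : C * x / (c / lam ^ 3) ^ 2 = C * x / c ^ 2 * lam ^ 6 := by
      field_simp
    rw [h1]
    exact mul_le_mul_of_nonneg_left (r6.trans (Real.exp_le_exp.2 hl2)) (by positivity)
  have e6 : 16 / Real.sqrt z + 3360 / R + 1 / W ≤ 3377 / Real.exp (l ^ 2 / 32) := by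
    calc 16 / Real.sqrt z + 3360 / R + 1 / W
        ≤ 16 / Real.exp (l ^ 2 / 32) + 3360 / Real.exp (l ^ 2 / 32) + 1 / Real.exp (l ^ 2 / 32) := by linarith
      _ = 3377 / Real.exp (l ^ 2 / 32) := by ring
  have hW0 : 0 < W := lt_of_lt_of_le (Real.exp_pos _) hW
  have e7 : C * x / (c / lam ^ 3) ^ 2 * (16 / Real.sqrt z + 3360 / R + 1 / W) ≤
      3377 * C / c ^ 2 * (x * Real.exp (-(1 / 64 * l ^ 2))) := by
    calc C * x / (c / lam ^ 3) ^ 2 * (16 / Real.sqrt z + 3360 / R + 1 / W)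
        ≤ C * x / c ^ 2 * Real.exp (l ^ 2 / 64) * (3377 / Real.exp (l ^ 2 / 32)) :=
          mul_le_mul e5 e6 (by positivity) (by positivity)
      _ = 3377 * C / c ^ 2 * (x * Real.exp (-(1 / 64 * l ^ 2))) := by
          have h1 : Real.exp (l ^ 2 / 32) = Real.exp (l ^ 2 / 64) * Real.exp (l ^ 2 / 64) := by
            rw [← Real.exp_add]; ring_nf
          have h2 : Real.exp (-(1 / 64 * l ^ 2)) = (Real.exp (l ^ 2 / 64))⁻¹ := by
            rw [← Real.exp_neg]; ring_nf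
          rw [h1, h2]
          have h3 := Real.exp_pos (l ^ 2 / 64)
          field_simp
  have e8 : 0 ≤ x * Real.exp (-(1 / 64 * l ^ 2)) := by positivity
  have e9 : 0 ≤ Real.exp (l₀ ^ 2 / 64) := (Real.exp_pos _).le
  calc 13 * (R : ℝ) ^ 94 + C * x / (c / lam ^ 3) ^ 2 * (16 / Real.sqrt z + 3360 / R + 1 / W)
      ≤ 13 * (x * Real.exp (-(1 / 64 * l ^ 2))) +
        3377 * C / c ^ 2 * (x * Real.exp (-(1 / 64 * l ^ 2))) := by linarith
    _ = (13 + 3377 * C / c ^ 2) * (x * Real.exp (-(1 / 64 * l ^ 2))) := by ring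
    _ ≤ (Real.exp (l₀ ^ 2 / 64) + 13 + 3377 * C / c ^ 2) * (x * Real.exp (-(1 / 64 * l ^ 2))) := by
        apply mul_le_mul_of_nonneg_right _ e8
        linarith
    _ = _ := by ring

end Pool.Agent.SPA
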