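import Pool.Agent.SPA.Stmts7

/-!
# MP_7a4c99_nt, row As6 (helper92): the choice of the parameters
-/

set_option autoImplicit false

namespace Pool.Agent.SPA

open Finset Filter

namespace As692

theorem exp_half : Real.exp (1 / 2) ≤ 2 := by
  have h1 : Real.exp (1 / 2) * Real.exp (1 / 2) = Real.exp 1 := by rw [← Real.exp_add]; norm_num
  have h2 := Real.exp_one_lt_d9
  have h3 := Real.exp_pos (1 / 2)
  by_contra h
  push Not at h
  nlinarith

theorem exp_quarter : Real.exp (1 / 4) ≤ 3 / 2 := by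
  have h1 : Real.exp (1 / 4) * Real.exp (1 / 4) = Real.exp (1 / 2) := by rw [← Real.exp_add]; norm_num
  have h2 := exp_half
  have h3 := Real.exp_pos (1 / 4)
  by_contra h
  push Not at h
  nlinarith

theorem sqrt3 : (17 / 10 : ℝ) ≤ Real.sqrt 3 := by
  apply Real.le_sqrt_of_sq_le
  norm_num

theorem sqrt3_le : Real.sqrt 3 ≤ 2 := by
  rw [Real.sqrt_le_left (by norm_num)]
  norm_num

theorem sqrt_pow3 (r : ℕ) : Real.sqrt ((3 : ℝ) ^ r) = Real.sqrt 3 ^ r := by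
  rw [Real.sqrt_eq_iff_mul_self_eq (by positivity) (by positivity), ← mul_pow,
    Real.mul_self_sqrt (by norm_num)]

/-- the number `r₀` -/
theorem large (C c K : ℝ) (hc : 0 < c) (hC : 0 < C) (j₀ : ℕ) : ∃ r₀ : ℕ, ∀ r : ℕ, r₀ ≤ r →
    j₀ ≤ r ∧ K ≤ r ∧ 1 ≤ r ∧ Real.exp (r / 2) ≤ c / (r * Real.log 3) ^ 3 * 3 ^ r ∧
    C / (c / (r * Real.log 3) ^ 3) ^ 2 * (3377 / Real.sqrt 3 ^ r) ≤ Real.exp (-(r / 4)) := by
  have hl3 : 0 < Real.log 3 := Real.log_pos (by norm_num)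
  have e1 : ∀ᶠ n : ℕ in atTop, Real.log 3 ^ 3 / c * ((n : ℝ) ^ 3 * (Real.exp (1 / 2) / 3) ^ n) ≤ 1 := by
    have h : |Real.exp (1 / 2) / 3| < 1 := by
      rw [abs_of_pos (by positivity), div_lt_one (by norm_num)]
      linarith [exp_half]
    have t := (tendsto_pow_const_mul_const_pow_of_abs_lt_one 3 h).const_mul (Real.log 3 ^ 3 / c)
    rw [mul_zero] at t
    exact t.eventually_le_const one_pos
  have e2 : ∀ᶠ n : ℕ in atTop, C * 3377 * Real.log 3 ^ 6 / c ^ 2 *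
      ((n : ℝ) ^ 6 * (Real.exp (1 / 4) / Real.sqrt 3) ^ n) ≤ 1 := by
    have h : |Real.exp (1 / 4) / Real.sqrt 3| < 1 := by
      rw [abs_of_pos (by positivity), div_lt_one (by positivity)]
      linarith [exp_quarter, sqrt3]
    have t := (tendsto_pow_const_mul_const_pow_of_abs_lt_one 6 h).const_mul (C * 3377 * Real.log 3 ^ 6 / c ^ 2)
    rw [mul_zero] at t
    exact t.eventually_le_const one_pos
  obtain ⟨r₀, hr₀⟩ := eventually_atTop.1 (e1.and (e2.and (eventually_ge_atTop (j₀ + ⌈K⌉₊ + 1))))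
  refine ⟨r₀, fun r hr => ?_⟩
  obtain ⟨h1, h2, h3⟩ := hr₀ r hr
  have hr1 : 1 ≤ r := by omega
  have hr0 : (0 : ℝ) < r := by exact_mod_cast hr1
  have hs3 : 0 < Real.sqrt 3 := by positivity
  refine ⟨by omega, ?_, hr1, ?_, ?_⟩
  · have h4 : K ≤ (⌈K⌉₊ : ℝ) := Nat.le_ceil K
    have h5 : ((⌈K⌉₊ : ℕ) : ℝ) ≤ r := by
      have : ⌈K⌉₊ ≤ r := by omega
      exact_mod_cast this
    linarith
  · have h4 : Real.exp (r / 2) = Real.exp (1 / 2) ^ r := by rw [← Real.exp_nat_mul]; ring_nf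
    rw [h4]
    rw [div_pow] at h1
    have h5 : Real.log 3 ^ 3 / c * ((r : ℝ) ^ 3 * (Real.exp (1 / 2) ^ r / 3 ^ r)) =
        Real.exp (1 / 2) ^ r / (c / (r * Real.log 3) ^ 3 * 3 ^ r) := by
      field_simp
    rw [h5, div_le_one (by positivity)] at h1
    exact h1
  · have h4 : Real.exp (-(r / 4)) = (Real.exp (1 / 4) ^ r)⁻¹ := by
      rw [← Real.exp_nat_mul, ← Real.exp_neg]; ring_nf
    rw [h4]
    rw [div_pow] at h2
    have hE : 0 < Real.exp (1 / 4) ^ r := by positivity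
    rw [le_inv_comm₀ (by positivity) hE] 
    have h5 : C * 3377 * Real.log 3 ^ 6 / c ^ 2 * ((r : ℝ) ^ 6 * (Real.exp (1 / 4) ^ r / Real.sqrt 3 ^ r)) =
        Real.exp (1 / 4) ^ r / (C / (c / (r * Real.log 3) ^ 3) ^ 2 * (3377 / Real.sqrt 3 ^ r))⁻¹ := by
      field_simp
    rw [h5, div_le_one (by positivity)] at h2
    exact h2

end As692

open As692 in
theorem as6 : RowAs6 := by
  intro C c K hC hc hc1 hK hCore hG6
  obtain ⟨j₀, hG⟩ := hG6
  obtain ⟨r₀, hr₀⟩ := large C c K hc hC j₀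
  refine ⟨1 / 248, 14 + Real.exp (1 / 248 * (31 * (r₀ + 1))), by norm_num, fun x hx => ?_⟩
  have hx2 : (2 : ℝ) ≤ x := by exact_mod_cast hx
  have hx0 : (0 : ℝ) < x := by linarith
  set X : ℝ := Real.log x with hX
  have hX0 : 0 < X := Real.log_pos (by linarith)
  set l : ℝ := X ^ ((1 : ℝ) / 3) with hl
  have hl0 : 0 < l := Real.rpow_pos_of_pos hX0 _
  have hl3 : l ^ 3 = X := by
    rw [hl, ← Real.rpow_natCast, ← Real.rpow_mul hX0.le]
    norm_num
  set r : ℕ := ⌊l / 31⌋₊ with hr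
  have hr1 : (r : ℝ) ≤ l / 31 := Nat.floor_le (by positivity)
  have hr2 : l / 31 < r + 1 := Nat.lt_floor_add_one _
  have triv : (((Icc 2 x).filter (fun k => (Pool.Agent.SPM.N k : ℝ) < Real.exp (1 / 248 * l))).card : ℝ) ≤ x := by
    have h1 : ((Icc 2 x).filter (fun k => (Pool.Agent.SPM.N k : ℝ) < Real.exp (1 / 248 * l))).card ≤ x := by
      refine (card_filter_le _ _).trans ?_
      rw [Nat.card_Icc]; omega
    exact_mod_cast h1
  have hel : 0 < Real.exp (-(1 / 248 * l)) := Real.exp_pos _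
  by_cases hcase : r < r₀
  · -- small `x`
    refine triv.trans ?_
    have h1 : (r : ℝ) + 1 ≤ r₀ := by exact_mod_cast hcase
    have h2 : l ≤ 31 * (r₀ + 1) := by linarith
    have h3 : 1 ≤ Real.exp (1 / 248 * (31 * (r₀ + 1))) * Real.exp (-(1 / 248 * l)) := by
      rw [← Real.exp_add]
      apply Real.one_le_exp
      linarith
    have h4 : (14 + Real.exp (1 / 248 * (31 * ((r₀ : ℝ) + 1)))) * x * Real.exp (-(1 / 248 * l)) =
        x * (14 * Real.exp (-(1 / 248 * l)) +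
          Real.exp (1 / 248 * (31 * ((r₀ : ℝ) + 1))) * Real.exp (-(1 / 248 * l))) := by ring
    rw [h4]
    calc (x : ℝ) = x * 1 := (mul_one _).symm
      _ ≤ _ := mul_le_mul_of_nonneg_left (by linarith) hx0.le
  push Not at hcase
  obtain ⟨hj, hKr, hr1', hδ, hend⟩ := hr₀ r hcase
  have hrpos : (1 : ℝ) ≤ r := by exact_mod_cast hr1'
  obtain ⟨T, hT, hW⟩ := hG r (72 * r) (by omega) (by omega) hr1'
  set W : ℝ := ∑ p ∈ T, (1 : ℝ) / p.1 with hWdef
  have hW3 : (3 : ℝ) ^ r ≤ W := by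
    refine le_trans (le_of_eq ?_) hW
    congr 1
    push_cast
    field_simp
    norm_num
  have hlog3 : 0 < Real.log 3 := Real.log_pos (by norm_num)
  have hlog3' : Real.log 3 ≤ 2 := by
    have := Real.log_le_sub_one_of_pos (show (0 : ℝ) < 3 by norm_num)
    linarith
  have hlz : Real.log ((3 ^ r : ℕ) : ℝ) = r * Real.log 3 := by
    push_cast
    rw [Real.log_pow]
  set R : ℕ := 2 ^ (3 * r ^ 2 * (72 * r)) with hR
  have hlR : Real.log (R : ℝ) = 216 * r ^ 3 * Real.log 2 := by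
    rw [hR]
    push_cast
    rw [Real.log_pow]
    push_cast
    ring
  have hlog2 := Real.log_two_gt_d9
  have hlog2' := Real.log_two_lt_d9
  have hz3 : 3 ≤ 3 ^ r := by
    calc 3 = 3 ^ 1 := by norm_num
      _ ≤ 3 ^ r := Nat.pow_le_pow_right (by norm_num) hr1'
  have hrE : r ≤ 3 * r ^ 2 * (72 * r) := by nlinarith [Nat.one_le_pow 2 r hr1']
  have hR2 : 2 ^ 2 ≤ R := by
    rw [hR]
    apply Nat.pow_le_pow_right (by norm_num)
    nlinarith [Nat.one_le_pow 2 r hr1']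
  have hR3 : 3 ≤ R := by omega
  have hKz : K * Real.log ((3 ^ r : ℕ) : ℝ) ^ 2 ≤ Real.log (R : ℝ) := by
    rw [hlz, hlR, mul_pow]
    have h1 : Real.log 3 ^ 2 ≤ 4 := by nlinarith
    have h2 : K * ((r : ℝ) ^ 2 * Real.log 3 ^ 2) ≤ r * ((r : ℝ) ^ 2 * 4) := by
      apply mul_le_mul hKr _ (by positivity) (by positivity)
      exact mul_le_mul_of_nonneg_left h1 (by positivity)
    have h3 : (r : ℝ) * ((r : ℝ) ^ 2 * 4) ≤ 216 * r ^ 3 * Real.log 2 := by
      have h4 : (0 : ℝ) ≤ (r : ℝ) ^ 3 := by positivity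
      nlinarith
    linarith
  have hδ0 : 0 < c / (r * Real.log 3) ^ 3 := by positivity
  have hW0 : 0 < W := lt_of_lt_of_le (by positivity) hW3
  have hδW : Real.exp (r / 2) ≤ c / (r * Real.log 3) ^ 3 * W :=
    hδ.trans (mul_le_mul_of_nonneg_left hW3 hδ0.le)
  have h1W : 1 ≤ c / Real.log ((3 ^ r : ℕ) : ℝ) ^ 3 * W := by
    rw [hlz]
    have h1 : (1 : ℝ) ≤ Real.exp (r / 2) := Real.one_le_exp (by positivity)
    linarith
  have hcore := hCore (3 ^ r) R x T hz3 hR3 hKz hT h1W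
  rw [hlz, ← hWdef] at hcore
  have hll : l ≤ 62 * r := by linarith
  -- the sets
  have hsub : (((Icc 2 x).filter (fun k => (Pool.Agent.SPM.N k : ℝ) < Real.exp (1 / 248 * l))).card : ℝ) ≤
      (((Icc 2 x).filter (fun k => (Pool.Agent.SPM.N k : ℝ) < 10 * (c / (r * Real.log 3) ^ 3) * W)).card : ℝ) := by
    have h1 : ((Icc 2 x).filter (fun k => (Pool.Agent.SPM.N k : ℝ) < Real.exp (1 / 248 * l))).card ≤
        ((Icc 2 x).filter (fun k => (Pool.Agent.SPM.N k : ℝ) < 10 * (c / (r * Real.log 3) ^ 3) * W)).card := by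
      apply card_le_card
      intro k hk
      rw [mem_filter] at hk ⊢
      refine ⟨hk.1, hk.2.trans_le ?_⟩
      have h2 : Real.exp (1 / 248 * l) ≤ Real.exp (r / 2) := Real.exp_le_exp.2 (by linarith)
      have h3 : 0 < c / (r * Real.log 3) ^ 3 * W := by positivity
      nlinarith
    exact_mod_cast h1
  refine hsub.trans (hcore.trans ?_)
  -- the first term
  have hfirst : 13 * (R : ℝ) ^ 94 ≤ 13 * (x * Real.exp (-(1 / 248 * l))) := by
    apply mul_le_mul_of_nonneg_left _ (by norm_num)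
    have hR0 : (0 : ℝ) < R := by
      have : 0 < R := by omega
      exact_mod_cast this
    have h1 : (R : ℝ) ^ 94 = Real.exp (94 * (216 * r ^ 3 * Real.log 2)) := by
      rw [← hlR, mul_comm, Real.exp_mul, Real.exp_log hR0]
      norm_cast
    have h2 : (x : ℝ) * Real.exp (-(1 / 248 * l)) = Real.exp (X - 1 / 248 * l) := by
      rw [sub_eq_add_neg, Real.exp_add, hX, Real.exp_log hx0]
    rw [h1, h2]
    apply Real.exp_le_exp.2
    have h3 : (r : ℝ) ^ 3 ≤ X / 29791 := by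
      have h4 : (r : ℝ) ^ 3 ≤ (l / 31) ^ 3 := pow_le_pow_left₀ (by positivity) hr1 3
      rw [div_pow, hl3] at h4
      norm_num at h4
      linarith
    have h5 : 94 * (216 * (r : ℝ) ^ 3 * Real.log 2) ≤ X / 2 := by
      have h6 : (0 : ℝ) ≤ (r : ℝ) ^ 3 := by positivity
      have h7 : (r : ℝ) ^ 3 * Real.log 2 ≤ (r : ℝ) ^ 3 * (7 / 10) :=
        mul_le_mul_of_nonneg_left (by linarith) h6
      nlinarith
    have h8 : 1 / 248 * l ≤ X / 2 := by
      have h9 : 31 ≤ l := by linarith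
      rw [← hl3]
      nlinarith [sq_nonneg l, mul_pos hl0 hl0]
    linarith
  -- the second term
  have hsecond : C * x / (c / (r * Real.log 3) ^ 3) ^ 2 *
      (16 / Real.sqrt ((3 ^ r : ℕ) : ℝ) + 3360 / (R : ℝ) + 1 / W) ≤ x * Real.exp (-(1 / 248 * l)) := by
    have hs : 0 < Real.sqrt 3 ^ r := by positivity
    have h1 : Real.sqrt ((3 ^ r : ℕ) : ℝ) = Real.sqrt 3 ^ r := by
      push_cast
      exact sqrt_pow3 r
    have h2 : Real.sqrt 3 ^ r ≤ R := by
      have h3 : Real.sqrt 3 ^ r ≤ 2 ^ r := pow_le_pow_left₀ (by positivity) sqrt3_le r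
      have h4 : (2 : ℝ) ^ r ≤ 2 ^ (3 * r ^ 2 * (72 * r)) := pow_le_pow_right₀ (by norm_num) hrE
      have h5 : (R : ℝ) = 2 ^ (3 * r ^ 2 * (72 * r)) := by rw [hR]; push_cast; ring
      rw [h5]
      exact h3.trans h4
    have h3 : Real.sqrt 3 ^ r ≤ W := by
      refine le_trans ?_ hW3
      apply pow_le_pow_left₀ (by positivity)
      linarith [sqrt3_le]
    have h4 : 3360 / (R : ℝ) ≤ 3360 / Real.sqrt 3 ^ r := div_le_div_of_nonneg_left (by norm_num) hs h2
    have h5 : 1 / W ≤ 1 / Real.sqrt 3 ^ r := div_le_div_of_nonneg_left (by norm_num) hs h3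
    have h6 : 16 / Real.sqrt ((3 ^ r : ℕ) : ℝ) + 3360 / (R : ℝ) + 1 / W ≤ 3377 / Real.sqrt 3 ^ r := by
      rw [h1]
      have h7 : (3377 : ℝ) / Real.sqrt 3 ^ r = 16 / Real.sqrt 3 ^ r + 3360 / Real.sqrt 3 ^ r + 1 / Real.sqrt 3 ^ r := by
        ring
      rw [h7]
      linarith
    have h7 : C * x / (c / (r * Real.log 3) ^ 3) ^ 2 *
        (16 / Real.sqrt ((3 ^ r : ℕ) : ℝ) + 3360 / (R : ℝ) + 1 / W) ≤
        C * x / (c / (r * Real.log 3) ^ 3) ^ 2 * (3377 / Real.sqrt 3 ^ r) :=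
      mul_le_mul_of_nonneg_left h6 (by positivity)
    have h8 : C * x / (c / (r * Real.log 3) ^ 3) ^ 2 * (3377 / Real.sqrt 3 ^ r) =
        x * (C / (c / (r * Real.log 3) ^ 3) ^ 2 * (3377 / Real.sqrt 3 ^ r)) := by ring
    rw [h8] at h7
    refine h7.trans (mul_le_mul_of_nonneg_left (hend.trans ?_) hx0.le)
    apply Real.exp_le_exp.2
    linarith
  have hfin : (14 + Real.exp (1 / 248 * (31 * ((r₀ : ℝ) + 1)))) * x * Real.exp (-(1 / 248 * l)) =
      13 * (x * Real.exp (-(1 / 248 * l))) + x * Real.exp (-(1 / 248 * l)) +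
        Real.exp (1 / 248 * (31 * ((r₀ : ℝ) + 1))) * (x * Real.exp (-(1 / 248 * l))) := by ring
  rw [hfin]
  have hpos : 0 ≤ Real.exp (1 / 248 * (31 * ((r₀ : ℝ) + 1))) * (x * Real.exp (-(1 / 248 * l))) := by positivity
  linarith

end Pool.Agent.SPA
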