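import Pool.Agent.SPA.Stmts7

/-!
# The form with `exp (c sqrt (log x) / log log x)`
-/

set_option autoImplicit false

namespace Pool.Agent.SPA

open Finset

/-- row G8: a family with `log R` about `r² (log r)²` and weight at least `3 ^ r` -/
def RowG8 : Prop := ∃ C₁ : ℕ, 1 ≤ C₁ ∧ ∀ r : ℕ, 1 ≤ r → ∃ T : Finset (ℕ × ℕ),
    (∀ p ∈ T, 1 ≤ p.1 ∧ p.1 ≤ 2 ^ (C₁ * r ^ 2 * (Nat.log 2 r + 1) ^ 2) ∧ p.2 ≤ 2 ^ (C₁ * r ^ 2 * (Nat.log 2 r + 1) ^ 2) ∧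
      ∃ s : Multiset ℕ, (∀ a ∈ s, 2 ≤ a ∧ a ≤ 2 ^ (C₁ * r ^ 2 * (Nat.log 2 r + 1) ^ 2)) ∧
        s.prod = p.1 ∧ s.sum = p.2 + s.card) ∧
    (3 : ℝ) ^ r ≤ ∑ p ∈ T, (1 : ℝ) / p.1

/-- the main theorem: `N k ≥ exp (c sqrt (log x) / log log x)` for all but `O(x exp (-c sqrt (log x) / log log x))`
of the `k ≤ x` -/
def Main8 : Prop := ∃ c B : ℝ, 0 < c ∧ ∀ x : ℕ, 3 ≤ x →
    (((Icc 2 x).filter (fun k => (Pool.Agent.SPM.N k : ℝ) <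
      Real.exp (c * Real.sqrt (Real.log x) / Real.log (Real.log x)))).card : ℝ)
      ≤ B * x * Real.exp (-(c * Real.sqrt (Real.log x) / Real.log (Real.log x)))

/-- `r = ⌊c₀ sqrt (log x) / log log x⌋`, `z = 3 ^ r`, `R = 2 ^ (C₁ r² (log₂ r + 1)²)` -/
def RowAs8 : Prop := ∀ C c K : ℝ, 0 < C → 0 < c → c ≤ 1 → 1 ≤ K → Core2 C c K → RowG8 → Main8

end Pool.Agent.SPA
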