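import Pool.Agent.SPA.As692
import Pool.Agent.SPA.Stmts8

/-!
# MP_7a4c99_nt, row As8 (helper92): the choice of the parameters
-/

set_option autoImplicit false

namespace Pool.Agent.SPA

open Finset Filter

/-- the family, working form -/
def RowG8w : Prop := ∃ C₁ : ℕ, ∀ r : ℕ, 1 ≤ r → ∃ T : Finset (ℕ × ℕ),
    (∀ p ∈ T, 1 ≤ p.1 ∧ p.1 ≤ 2 ^ (C₁ * r ^ 2 * (Nat.log 2 r + 1) ^ 2) ∧
      p.2 ≤ 2 ^ (C₁ * r ^ 2 * (Nat.log 2 r + 1) ^ 2) ∧
      ∃ s : Multiset ℕ, (∀ a ∈ s, 2 ≤ a ∧ a ≤ 2 ^ (C₁ * r ^ 2 * (Nat.log 2 r + 1) ^ 2)) ∧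
        s.prod = p.1 ∧ s.sum = p.2 + s.card) ∧
    (3 : ℝ) ^ r ≤ ∑ p ∈ T, (1 : ℝ) / p.1

/-- the main theorem, working form -/
def Main8w : Prop := ∃ c B : ℝ, 0 < c ∧ ∀ x : ℕ, 3 ≤ x →
    (((Icc 2 x).filter (fun k => (Pool.Agent.SPM.N k : ℝ) <
      Real.exp (c * (Real.sqrt (Real.log x) / Real.log (Real.log x))))).card : ℝ)
      ≤ B * x * Real.exp (-(c * (Real.sqrt (Real.log x) / Real.log (Real.log x))))

namespace As892

open As692

/-- `log₂ r + 1` against `log X` when `r ≤ sqrt X` -/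
theorem lam (r : ℕ) (X : ℝ) (hr : 1 ≤ r) (hX : Real.exp 1 ≤ X) (h : (r : ℝ) ≤ Real.sqrt X) :
    ((Nat.log 2 r : ℕ) : ℝ) + 1 ≤ 2 * Real.log X := by
  have hX0 : 0 < X := lt_of_lt_of_le (Real.exp_pos 1) hX
  have hY : 1 ≤ Real.log X := by rw [Real.le_log_iff_exp_le hX0]; exact hX
  have h1 : (2 : ℝ) ^ (Nat.log 2 r) ≤ r := by exact_mod_cast Nat.pow_log_le_self 2 (by omega)
  have h2 : (Nat.log 2 r : ℝ) * Real.log 2 ≤ Real.log X / 2 := by
    have h3 : Real.log ((2 : ℝ) ^ (Nat.log 2 r)) ≤ Real.log (Real.sqrt X) :=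
      Real.log_le_log (by positivity) (h1.trans h)
    rw [Real.log_pow, Real.log_sqrt hX0.le] at h3
    exact h3
  have h3 := Real.log_two_gt_d9
  have h4 : (0 : ℝ) ≤ (Nat.log 2 r : ℝ) := by positivity
  nlinarith

end As892

open As892 As692 in
theorem as8w : ∀ C c K : ℝ, 0 < C → 0 < c → c ≤ 1 → 1 ≤ K → Core2 C c K → RowG8w → Main8w := by
  intro C c K hC hc hc1 hK hCore hG8
  obtain ⟨C₁, hG⟩ := hG8
  obtain ⟨r₀, hr₀⟩ := large C c K hc hC (2 ^ ⌈6 * K⌉₊)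
  obtain ⟨D, hD⟩ : ∃ D : ℝ, D = (C₁ : ℝ) + 1 := ⟨_, rfl⟩
  have hD1 : 1 ≤ D := by rw [hD]; have : (0 : ℝ) ≤ C₁ := by positivity
                         linarith
  have hD0 : 0 < D := by linarith
  obtain ⟨L₀, hL₀⟩ : ∃ L₀ : ℝ, L₀ = 23 * D * (r₀ + 1) + 22 := ⟨_, rfl⟩
  refine ⟨1 / (184 * D), 14 + Real.exp (1 / (184 * D) * L₀), by positivity, fun x hx => ?_⟩
  have hx3 : (3 : ℝ) ≤ x := by exact_mod_cast hx
  have hx0 : (0 : ℝ) < x := by linarith
  obtain ⟨X, hX⟩ : ∃ X, X = Real.log x := ⟨_, rfl⟩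
  obtain ⟨Y, hY⟩ : ∃ Y, Y = Real.log X := ⟨_, rfl⟩
  rw [← hX, ← hY]
  have hX1 : 109 / 100 ≤ X := by
    have h1 : Real.log 3 ≤ X := by rw [hX]; exact Real.log_le_log (by norm_num) hx3
    have h2 : 109 / 100 ≤ Real.log 3 := by
      rw [Real.le_log_iff_exp_le (by norm_num)]
      have h3 : Real.exp (109 / 100) ^ 100 ≤ 3 ^ 100 := by
        rw [← Real.exp_nat_mul]
        have h4 : Real.exp (((100 : ℕ) : ℝ) * (109 / 100)) = Real.exp 1 ^ 109 := by
          rw [← Real.exp_nat_mul]; norm_num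
        rw [h4]
        have h5 : Real.exp 1 ^ 109 ≤ (2.7182818286 : ℝ) ^ 109 :=
          pow_le_pow_left₀ (Real.exp_pos 1).le Real.exp_one_lt_d9.le 109
        refine h5.trans ?_
        norm_num
      exact le_of_pow_le_pow_left₀ (by norm_num) (by norm_num) h3
    linarith
  have hX0 : 0 < X := by linarith
  have hY0 : 0 < Y := by rw [hY]; exact Real.log_pos (by linarith)
  have hYl : 8 / 100 ≤ Y := by
    have h1 := Real.one_sub_inv_le_log_of_pos hX0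
    rw [← hY] at h1
    have h2 : X⁻¹ ≤ 100 / 109 := by
      rw [inv_le_comm₀ hX0 (by norm_num)]
      norm_num
      linarith
    linarith
  obtain ⟨l, hl⟩ : ∃ l, l = Real.sqrt X / Y := ⟨_, rfl⟩
  rw [← hl]
  have hsX : 0 < Real.sqrt X := Real.sqrt_pos.2 hX0
  have hl0 : 0 < l := by rw [hl]; positivity
  obtain ⟨c', hc'⟩ : ∃ c' : ℝ, c' = 1 / (184 * D) := ⟨_, rfl⟩
  rw [← hc']
  have hc'0 : 0 < c' := by rw [hc']; positivity
  have hc'1 : c' * (184 * D) = 1 := by rw [hc']; field_simp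
  have triv : (((Icc 2 x).filter (fun k => (Pool.Agent.SPM.N k : ℝ) < Real.exp (c' * l))).card : ℝ) ≤ x := by
    have h1 : ((Icc 2 x).filter (fun k => (Pool.Agent.SPM.N k : ℝ) < Real.exp (c' * l))).card ≤ x := by
      refine (card_filter_le _ _).trans ?_
      rw [Nat.card_Icc]; omega
    exact_mod_cast h1
  have hel : 0 < Real.exp (-(c' * l)) := Real.exp_pos _
  by_cases hcase : l < L₀
  · -- small `x`
    refine triv.trans ?_
    have h3 : 1 ≤ Real.exp (c' * L₀) * Real.exp (-(c' * l)) := by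
      rw [← Real.exp_add]
      apply Real.one_le_exp
      have h5 := mul_le_mul_of_nonneg_left hcase.le hc'0.le
      linarith
    have h4 : (14 + Real.exp (c' * L₀)) * x * Real.exp (-(c' * l)) =
        x * (14 * Real.exp (-(c' * l)) + Real.exp (c' * L₀) * Real.exp (-(c' * l))) := by ring
    rw [h4]
    calc (x : ℝ) = x * 1 := (mul_one _).symm
      _ ≤ _ := mul_le_mul_of_nonneg_left (by linarith) hx0.le
  push Not at hcase
  -- `Y ≥ 1`
  have hDr : 0 < 23 * D * ((r₀ : ℝ) + 1) := by positivity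
  have hXe : Real.exp 1 ≤ X := by
    by_contra h
    push Not at h
    have h2 : Real.sqrt X ≤ 17 / 10 := by
      rw [Real.sqrt_le_left (by norm_num)]
      have := Real.exp_one_lt_d9
      linarith
    have h3 : l ≤ 17 / 10 / Y := by
      rw [hl]
      exact div_le_div_of_nonneg_right h2 hY0.le
    have h4 : 17 / 10 / Y < 22 := by
      rw [div_lt_iff₀ hY0]
      linarith
    linarith
  have hY1 : 1 ≤ Y := by rw [hY, Real.le_log_iff_exp_le hX0]; exact hXe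
  have hlX : l ≤ Real.sqrt X := by
    rw [hl, div_le_iff₀ hY0]
    exact le_mul_of_one_le_right hsX.le hY1
  have hlY : l * Y = Real.sqrt X := by rw [hl]; field_simp
  obtain ⟨r, hr⟩ : ∃ r, r = ⌊l / (23 * D)⌋₊ := ⟨_, rfl⟩
  have hr1 : (r : ℝ) ≤ l / (23 * D) := by rw [hr]; exact Nat.floor_le (by positivity)
  have hr2 : l / (23 * D) < r + 1 := by rw [hr]; exact Nat.lt_floor_add_one _
  have hr1a : (r : ℝ) * (23 * D) ≤ l := by rwa [le_div_iff₀ (by positivity)] at hr1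
  have hr2a : l < (r + 1) * (23 * D) := by rwa [div_lt_iff₀ (by positivity)] at hr2
  have hrr0 : r₀ ≤ r := by
    have h1 : (r₀ : ℝ) < r + 1 := by
      by_contra h
      push Not at h
      have h2 : ((r : ℝ) + 1) * (23 * D) ≤ r₀ * (23 * D) := mul_le_mul_of_nonneg_right h (by positivity)
      have h3 : L₀ = r₀ * (23 * D) + 23 * D + 22 := by rw [hL₀]; ring
      linarith
    have h2 : r₀ < r + 1 := by exact_mod_cast h1
    omega
  obtain ⟨hj, -, hr1', hδ, hend⟩ := hr₀ r hrr0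
  have hrpos : (1 : ℝ) ≤ r := by exact_mod_cast hr1'
  obtain ⟨T, hT, hW3⟩ := hG r hr1'
  obtain ⟨W, hWdef⟩ : ∃ W, W = ∑ p ∈ T, (1 : ℝ) / p.1 := ⟨_, rfl⟩
  rw [← hWdef] at hW3
  obtain ⟨lam, hlam⟩ : ∃ lam, lam = Nat.log 2 r + 1 := ⟨_, rfl⟩
  rw [← hlam] at hT
  have hlamR : ((lam : ℕ) : ℝ) ≤ 2 * Y := by
    rw [hlam, hY]
    push_cast
    refine As892.lam r X hr1' hXe (le_trans ?_ hlX)
    exact le_trans (le_mul_of_one_le_right (by positivity) (by linarith)) hr1a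
  have hlamK : 6 * K ≤ lam := by
    have h1 : ⌈6 * K⌉₊ ≤ Nat.log 2 r := Nat.le_log_of_pow_le (by norm_num) hj
    have h2 : 6 * K ≤ (⌈6 * K⌉₊ : ℝ) := Nat.le_ceil _
    have h3 : ((⌈6 * K⌉₊ : ℕ) : ℝ) ≤ lam := by
      have : ⌈6 * K⌉₊ ≤ lam := by omega
      exact_mod_cast this
    linarith
  have hlam1 : 1 ≤ lam := by omega
  have hlam1' : (1 : ℝ) ≤ lam := by exact_mod_cast hlam1
  obtain ⟨R, hR⟩ : ∃ R, R = 2 ^ ((C₁ + 1) * r ^ 2 * lam ^ 2) := ⟨_, rfl⟩
  have hexp : C₁ * r ^ 2 * lam ^ 2 ≤ (C₁ + 1) * r ^ 2 * lam ^ 2 := by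
    have : C₁ * (r ^ 2 * lam ^ 2) ≤ (C₁ + 1) * (r ^ 2 * lam ^ 2) := Nat.mul_le_mul_right _ (by omega)
    rw [mul_assoc, mul_assoc]
    exact this
  have hRR : 2 ^ (C₁ * r ^ 2 * lam ^ 2) ≤ R := by
    rw [hR]
    exact Nat.pow_le_pow_right (by norm_num) hexp
  have hT' : ∀ p ∈ T, 1 ≤ p.1 ∧ p.1 ≤ R ∧ p.2 ≤ R ∧
      ∃ s : Multiset ℕ, (∀ a ∈ s, 2 ≤ a ∧ a ≤ R) ∧ s.prod = p.1 ∧ s.sum = p.2 + s.card := by
    intro p hp
    obtain ⟨h1, h2, h3, s, h4, h5, h6⟩ := hT p hp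
    exact ⟨h1, h2.trans hRR, h3.trans hRR, s, fun a ha => ⟨(h4 a ha).1, (h4 a ha).2.trans hRR⟩, h5, h6⟩
  have hlog3 : 0 < Real.log 3 := Real.log_pos (by norm_num)
  have hlog3' : Real.log 3 ≤ 2 := by
    have := Real.log_le_sub_one_of_pos (show (0 : ℝ) < 3 by norm_num)
    linarith
  have hlz : Real.log ((3 ^ r : ℕ) : ℝ) = r * Real.log 3 := by
    push_cast
    rw [Real.log_pow]
  have hlR : Real.log (R : ℝ) = D * ((r * lam) ^ 2) * Real.log 2 := by
    rw [hR, hD]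
    push_cast
    rw [Real.log_pow]
    push_cast
    ring
  have hlog2 := Real.log_two_gt_d9
  have hlog2' := Real.log_two_lt_d9
  have hz3 : 3 ≤ 3 ^ r := by
    calc 3 = 3 ^ 1 := by norm_num
      _ ≤ 3 ^ r := Nat.pow_le_pow_right (by norm_num) hr1'
  have hexp2 : r ≤ (C₁ + 1) * r ^ 2 * lam ^ 2 := by
    calc r = 1 * r * 1 := by ring
      _ ≤ (C₁ + 1) * r ^ 2 * lam ^ 2 :=
          Nat.mul_le_mul (Nat.mul_le_mul (by omega) (Nat.le_self_pow (by norm_num) r)) (Nat.one_le_pow 2 lam hlam1)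
  have hr2' : 2 ≤ r := by
    have h1 : 1 ≤ ⌈6 * K⌉₊ := Nat.one_le_ceil_iff.2 (by linarith)
    calc 2 = 2 ^ 1 := by norm_num
      _ ≤ 2 ^ ⌈6 * K⌉₊ := Nat.pow_le_pow_right (by norm_num) h1
      _ ≤ r := hj
  have hR4 : 2 ^ 2 ≤ R := by
    rw [hR]
    apply Nat.pow_le_pow_right (by norm_num)
    omega
  have hR3 : 3 ≤ R := by omega
  have hKz : K * Real.log ((3 ^ r : ℕ) : ℝ) ^ 2 ≤ Real.log (R : ℝ) := by
    rw [hlz, hlR, mul_pow, mul_pow]
    have h1 : Real.log 3 ^ 2 ≤ 4 := by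
      calc Real.log 3 ^ 2 ≤ 2 ^ 2 := pow_le_pow_left₀ hlog3.le hlog3' 2
        _ = 4 := by norm_num
    have h3 : K * 4 ≤ D * (lam : ℝ) ^ 2 * Real.log 2 := by
      have h4 : (lam : ℝ) ≤ (lam : ℝ) ^ 2 := le_self_pow₀ hlam1' (by norm_num)
      have h5 : (lam : ℝ) * (2 / 3) ≤ (lam : ℝ) ^ 2 * Real.log 2 :=
        mul_le_mul h4 (by linarith) (by norm_num) (by positivity)
      have h6 : (lam : ℝ) ^ 2 * Real.log 2 ≤ D * ((lam : ℝ) ^ 2 * Real.log 2) :=
        le_mul_of_one_le_left (by positivity) hD1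
      have h7 : D * (lam : ℝ) ^ 2 * Real.log 2 = D * ((lam : ℝ) ^ 2 * Real.log 2) := by ring
      rw [h7]
      linarith
    calc K * ((r : ℝ) ^ 2 * Real.log 3 ^ 2) ≤ K * ((r : ℝ) ^ 2 * 4) := by gcongr
      _ = (r : ℝ) ^ 2 * (K * 4) := by ring
      _ ≤ (r : ℝ) ^ 2 * (D * (lam : ℝ) ^ 2 * Real.log 2) := mul_le_mul_of_nonneg_left h3 (by positivity)
      _ = D * ((r : ℝ) ^ 2 * (lam : ℝ) ^ 2) * Real.log 2 := by ring
  have hδ0 : 0 < c / (r * Real.log 3) ^ 3 := by positivity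
  have hW0 : 0 < W := lt_of_lt_of_le (by positivity) hW3
  have hδW : Real.exp (r / 2) ≤ c / (r * Real.log 3) ^ 3 * W :=
    hδ.trans (mul_le_mul_of_nonneg_left hW3 hδ0.le)
  have h1W : 1 ≤ c / Real.log ((3 ^ r : ℕ) : ℝ) ^ 3 * ∑ p ∈ T, (1 : ℝ) / p.1 := by
    rw [hlz, ← hWdef]
    have h1 : (1 : ℝ) ≤ Real.exp (r / 2) := Real.one_le_exp (by positivity)
    linarith
  have hcore := hCore (3 ^ r) R x T hz3 hR3 hKz hT' h1W
  rw [hlz, ← hWdef] at hcore
  have hcl : c' * l ≤ r / 4 := by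
    have h1 : l ≤ 46 * D * r := by
      have h4 : D ≤ D * r := le_mul_of_one_le_right hD0.le hrpos
      have h5 : ((r : ℝ) + 1) * (23 * D) = 23 * (D * r) + 23 * D := by ring
      rw [h5] at hr2a
      have h6 : 46 * D * r = 46 * (D * r) := by ring
      rw [h6]
      linarith
    have h2 : c' * l ≤ c' * (46 * D * r) := mul_le_mul_of_nonneg_left h1 hc'0.le
    have h3 : c' * (46 * D * r) = (c' * (184 * D)) * (r / 4) := by ring
    rw [h3, hc'1, one_mul] at h2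
    exact h2
  -- the sets
  have hsub : (((Icc 2 x).filter (fun k => (Pool.Agent.SPM.N k : ℝ) < Real.exp (c' * l))).card : ℝ) ≤
      (((Icc 2 x).filter (fun k => (Pool.Agent.SPM.N k : ℝ) < 10 * (c / (r * Real.log 3) ^ 3) * W)).card : ℝ) := by
    have h1 : ((Icc 2 x).filter (fun k => (Pool.Agent.SPM.N k : ℝ) < Real.exp (c' * l))).card ≤
        ((Icc 2 x).filter (fun k => (Pool.Agent.SPM.N k : ℝ) < 10 * (c / (r * Real.log 3) ^ 3) * W)).card := by
      apply card_le_card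
      intro k hk
      rw [mem_filter] at hk ⊢
      refine ⟨hk.1, hk.2.trans_le ?_⟩
      have h2 : Real.exp (c' * l) ≤ Real.exp (r / 2) := Real.exp_le_exp.2 (by linarith)
      have h3 : 0 < c / (r * Real.log 3) ^ 3 * W := by positivity
      have h4 : 10 * (c / (r * Real.log 3) ^ 3) * W = 10 * (c / (r * Real.log 3) ^ 3 * W) := by ring
      rw [h4]
      linarith
    exact_mod_cast h1
  refine hsub.trans (hcore.trans ?_)
  have hsXX : Real.sqrt X * Real.sqrt X = X := Real.mul_self_sqrt hX0.le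
  -- the first term
  have hfirst : 13 * (R : ℝ) ^ 94 ≤ 13 * (x * Real.exp (-(c' * l))) := by
    apply mul_le_mul_of_nonneg_left _ (by norm_num)
    have hR0 : (0 : ℝ) < R := by
      have : 0 < R := by omega
      exact_mod_cast this
    have h1 : (R : ℝ) ^ 94 = Real.exp (94 * (D * ((r * lam) ^ 2) * Real.log 2)) := by
      rw [← hlR, mul_comm, Real.exp_mul, Real.exp_log hR0]
      norm_cast
    have h2 : (x : ℝ) * Real.exp (-(c' * l)) = Real.exp (X - c' * l) := by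
      rw [sub_eq_add_neg, Real.exp_add, hX, Real.exp_log hx0]
    rw [h1, h2]
    apply Real.exp_le_exp.2
    have h3 : (r : ℝ) * lam * (23 * D) ≤ 2 * Real.sqrt X := by
      have h4 : (r : ℝ) * (23 * D) * lam ≤ l * (2 * Y) :=
        mul_le_mul hr1a hlamR (by positivity) hl0.le
      calc (r : ℝ) * lam * (23 * D) = (r : ℝ) * (23 * D) * lam := by ring
        _ ≤ l * (2 * Y) := h4
        _ = 2 * (l * Y) := by ring
        _ = 2 * Real.sqrt X := by rw [hlY]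
    have h5 : ((r : ℝ) * lam * (23 * D)) ^ 2 ≤ 4 * X := by
      have h6 := pow_le_pow_left₀ (by positivity) h3 2
      have h7 : (2 * Real.sqrt X) ^ 2 = 4 * X := by rw [mul_pow, sq (Real.sqrt X), hsXX]; norm_num
      rwa [h7] at h6
    have h6 : 529 * (D * ((r * lam) ^ 2)) ≤ 4 * X := by
      have h7 : ((r : ℝ) * lam * (23 * D)) ^ 2 = D * (529 * (D * ((r * lam) ^ 2))) := by ring
      rw [h7] at h5
      have h8 : 529 * (D * (((r : ℝ) * lam) ^ 2)) ≤ D * (529 * (D * ((r * lam) ^ 2))) :=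
        le_mul_of_one_le_left (by positivity) hD1
      linarith
    have h7 : D * (((r : ℝ) * lam) ^ 2) * Real.log 2 ≤ D * ((r * lam) ^ 2) * (6932 / 10000) :=
      mul_le_mul_of_nonneg_left (by linarith) (by positivity)
    have h8 : c' * l ≤ X / 2 := by
      have h9 : c' ≤ 1 / 184 := by
        rw [hc']
        apply one_div_le_one_div_of_le (by norm_num)
        linarith
      have h10 : l ≤ X := by
        have h11 : 1 ≤ Real.sqrt X := by
          rw [Real.one_le_sqrt]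
          linarith
        have h12 : Real.sqrt X ≤ Real.sqrt X * Real.sqrt X := le_mul_of_one_le_right hsX.le h11
        linarith
      have h13 : c' * l ≤ 1 / 184 * X := mul_le_mul h9 h10 hl0.le (by norm_num)
      linarith
    linarith
  -- the second term
  have hsecond : C * x / (c / (r * Real.log 3) ^ 3) ^ 2 *
      (16 / Real.sqrt ((3 ^ r : ℕ) : ℝ) + 3360 / (R : ℝ) + 1 / W) ≤ x * Real.exp (-(c' * l)) := by
    have hs : 0 < Real.sqrt 3 ^ r := by positivity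
    have h1 : Real.sqrt ((3 ^ r : ℕ) : ℝ) = Real.sqrt 3 ^ r := by
      push_cast
      exact sqrt_pow3 r
    have h2 : Real.sqrt 3 ^ r ≤ R := by
      have h3 : Real.sqrt 3 ^ r ≤ 2 ^ r := pow_le_pow_left₀ (by positivity) sqrt3_le r
      have h4 : (2 : ℝ) ^ r ≤ 2 ^ ((C₁ + 1) * r ^ 2 * lam ^ 2) := pow_le_pow_right₀ (by norm_num) hexp2
      have h5 : (R : ℝ) = 2 ^ ((C₁ + 1) * r ^ 2 * lam ^ 2) := by rw [hR]; push_cast; ring
      rw [h5]
      exact h3.trans h4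
    have h3 : Real.sqrt 3 ^ r ≤ W := by
      refine le_trans ?_ hW3
      apply pow_le_pow_left₀ (by positivity)
      linarith [sqrt3_le]
    have h4 : 3360 / (R : ℝ) ≤ 3360 / Real.sqrt 3 ^ r := div_le_div_of_nonneg_left (by norm_num) hs h2
    have h5 : 1 / W ≤ 1 / Real.sqrt 3 ^ r := div_le_div_of_nonneg_left (by norm_num) hs h3
    have h6 : 16 / Real.sqrt ((3 ^ r : ℕ) : ℝ) + 3360 / (R : ℝ) + 1 / W ≤ 3377 / Real.sqrt 3 ^ r := by
      rw [h1]
      have h7 : (3377 : ℝ) / Real.sqrt 3 ^ r = 16 / Real.sqrt 3 ^ r + 3360 / Real.sqrt 3 ^ r + 1 / Real.sqrt 3 ^ r := by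
        ring
      rw [h7]
      linarith
    have h7 : C * x / (c / (r * Real.log 3) ^ 3) ^ 2 *
        (16 / Real.sqrt ((3 ^ r : ℕ) : ℝ) + 3360 / (R : ℝ) + 1 / W) ≤
        C * x / (c / (r * Real.log 3) ^ 3) ^ 2 * (3377 / Real.sqrt 3 ^ r) :=
      mul_le_mul_of_nonneg_left h6 (by positivity)
    have h8 : C * x / (c / (r * Real.log 3) ^ 3) ^ 2 * (3377 / Real.sqrt 3 ^ r) =
        x * (C / (c / (r * Real.log 3) ^ 3) ^ 2 * (3377 / Real.sqrt 3 ^ r)) := by ring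
    rw [h8] at h7
    refine h7.trans (mul_le_mul_of_nonneg_left (hend.trans ?_) hx0.le)
    apply Real.exp_le_exp.2
    linarith
  have hfin : (14 + Real.exp (c' * L₀)) * x * Real.exp (-(c' * l)) =
      13 * (x * Real.exp (-(c' * l))) + x * Real.exp (-(c' * l)) +
        Real.exp (c' * L₀) * (x * Real.exp (-(c' * l))) := by ring
  rw [hfin]
  have hpos : 0 ≤ Real.exp (c' * L₀) * (x * Real.exp (-(c' * l))) := by positivity
  linarith

/-- row As8 -/
theorem as892 : RowAs8 := by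
  intro C c K hC hc hc1 hK hCore hG8
  obtain ⟨C₁, -, hG⟩ := hG8
  obtain ⟨c', B, hc', h⟩ := as8w C c K hC hc hc1 hK hCore ⟨C₁, hG⟩
  refine ⟨c', B, hc', fun x hx => ?_⟩
  have h1 := h x hx
  simp only [← mul_div_assoc] at h1
  exact h1

end Pool.Agent.SPA
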