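import Mathlib

/-!
# Ordered factorisations
-/

set_option autoImplicit false

namespace Pool.Agent.SPA.C834

open Finset

lemma step34 (r q M : ℕ) (hq : q.Prime) (hM : M ≠ 0) :
    (Nat.finMulAntidiag r (q * M)).card ≤ r * (Nat.finMulAntidiag r M).card := by
  have hsub : Nat.finMulAntidiag r (q * M) ⊆ (Finset.univ : Finset (Fin r)).biUnion
      (fun i : Fin r => (Nat.finMulAntidiag r M).image (fun g => Function.update g i (q * g i))) := by
    intro f hf
    rw [Nat.mem_finMulAntidiag] at hf
    have hd : q ∣ ∏ i, f i := by rw [hf.1]; exact dvd_mul_right q M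
    obtain ⟨i, _, hi⟩ := (Prime.dvd_finsetProd_iff hq.prime f).1 hd
    obtain ⟨c, hc⟩ := hi
    refine Finset.mem_biUnion.2 ⟨i, Finset.mem_univ i, Finset.mem_image.2 ⟨Function.update f i c, ?_, ?_⟩⟩
    · rw [Nat.mem_finMulAntidiag]
      refine ⟨?_, hM⟩
      have h1 := Finset.prod_update_of_mem (Finset.mem_univ i) f c
      have h2 := Finset.prod_update_of_mem (Finset.mem_univ i) f (f i)
      rw [Function.update_eq_self] at h2
      rw [h1]
      have h3 : q * (c * ∏ x ∈ (Finset.univ : Finset (Fin r)) \ {i}, f x) = q * M := by
        rw [← hf.1, h2, hc]; ring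
      exact Nat.eq_of_mul_eq_mul_left hq.pos h3
    · simp only [Function.update_self, Function.update_idem, ← hc, Function.update_eq_self]
  refine (Finset.card_le_card hsub).trans (Finset.card_biUnion_le.trans ?_)
  refine (Finset.sum_le_sum (fun i _ => Finset.card_image_le)).trans ?_
  simp

/-- the number of ordered factorisations of `M` into `r` factors is at most `r ^ Ω(M)` -/
theorem cardAnti (r M : ℕ) (hM : M ≠ 0) :
    (Nat.finMulAntidiag r M).card ≤ r ^ M.primeFactorsList.length := by
  induction M using Nat.strong_induction_on with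
  | _ M ih =>
    by_cases h1 : M = 1
    · subst h1
      rw [Nat.finMulAntidiag_one]
      simp
    · have hq := Nat.minFac_prime h1
      obtain ⟨M', hM'⟩ := Nat.minFac_dvd M
      have hM0 : M' ≠ 0 := by
        rintro rfl
        rw [mul_zero] at hM'
        exact hM hM'
      have hlt : M' < M := by
        rw [hM']
        have := hq.two_le
        have h0 : 0 < M' := Nat.pos_of_ne_zero hM0
        nlinarith
      have hlen : M.primeFactorsList.length = M'.primeFactorsList.length + 1 := by
        have h2 := (Nat.perm_primeFactorsList_mul hq.ne_zero hM0).length_eq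
        rw [← hM', Nat.primeFactorsList_prime hq] at h2
        rw [h2]
        simp
      rw [hlen, pow_succ, mul_comm]
      calc (Nat.finMulAntidiag r M).card = (Nat.finMulAntidiag r (M.minFac * M')).card := by rw [← hM']
        _ ≤ r * (Nat.finMulAntidiag r M').card := step34 r _ M' hq hM0
        _ ≤ r * r ^ M'.primeFactorsList.length := Nat.mul_le_mul_left r (ih M' hlt hM0)

end Pool.Agent.SPA.C834
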