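import Mathlib

/-!
# One linear equation kills a factor: the collision lemma of the family G8
-/

set_option autoImplicit false

namespace Pool.Agent.SPA.G83

open Finset

theorem coll (r : ℕ) (PP : Fin r → Finset ℕ) (A s : ℝ) (hA : 0 < A) (hs : 0 < s)
    (h1 : ∀ i, ∀ p ∈ PP i, A ≤ (p : ℝ)) (h2 : ∀ i, s ≤ ∑ p ∈ PP i, (1 : ℝ) / p)
    (w w' : Fin r → ℕ) (hne : w ≠ w') :
    ∑ p ∈ (Fintype.piFinset PP).filter (fun p => ∑ i, p i * w i = ∑ i, p i * w' i), ∏ i, (1 : ℝ) / p i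
      ≤ 1 / (A * s) * ∏ i, ∑ p ∈ PP i, (1 : ℝ) / p := by
  classical
  obtain ⟨i₀, hi₀⟩ := Function.ne_iff.mp hne
  set F := (Fintype.piFinset PP).filter (fun p => ∑ i, p i * w i = ∑ i, p i * w' i) with hF
  set Q : Fin r → Finset ℕ := Function.update PP i₀ {1} with hQ
  set u : (Fin r → ℕ) → (Fin r → ℕ) := fun p => Function.update p i₀ 1 with hu
  have hSpos : ∀ i, 0 < ∑ p ∈ PP i, (1 : ℝ) / p := fun i => lt_of_lt_of_le hs (h2 i)
  have hmem : ∀ p ∈ F, u p ∈ Fintype.piFinset Q := by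
    intro p hp
    rw [Fintype.mem_piFinset]
    intro j
    have hp' := Fintype.mem_piFinset.mp (Finset.mem_filter.mp hp).1
    by_cases hj : j = i₀
    · subst hj
      simp [hQ, hu]
    · simp only [hQ, hu, Function.update_of_ne hj]
      exact hp' j
  have hinj : Set.InjOn u (F : Set (Fin r → ℕ)) := by
    intro p hp q hq hpq
    have hp2 := (Finset.mem_filter.mp (Finset.mem_coe.mp hp)).2
    have hq2 := (Finset.mem_filter.mp (Finset.mem_coe.mp hq)).2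
    have hoff : ∀ j, j ≠ i₀ → p j = q j := by
      intro j hj
      have := congrFun hpq j
      simpa [hu, Function.update_of_ne hj] using this
    have e1 : ∑ i, ((p i : ℤ) - q i) * ((w i : ℤ) - w' i) = 0 := by
      have a1 : ∑ i, (p i : ℤ) * w i = ∑ i, (p i : ℤ) * w' i := by exact_mod_cast hp2
      have a2 : ∑ i, (q i : ℤ) * w i = ∑ i, (q i : ℤ) * w' i := by exact_mod_cast hq2
      have : ∑ i, ((p i : ℤ) - q i) * ((w i : ℤ) - w' i)
          = (∑ i, (p i : ℤ) * w i) - (∑ i, (p i : ℤ) * w' i) - ((∑ i, (q i : ℤ) * w i) - ∑ i, (q i : ℤ) * w' i) := by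
        rw [← Finset.sum_sub_distrib, ← Finset.sum_sub_distrib, ← Finset.sum_sub_distrib]
        refine Finset.sum_congr rfl (fun i _ => by ring)
      rw [this, a1, a2]; ring
    have e2 : ((p i₀ : ℤ) - q i₀) * ((w i₀ : ℤ) - w' i₀) = 0 := by
      rw [← e1]
      rw [Finset.sum_eq_single i₀]
      · intro j _ hj
        rw [hoff j hj]; simp
      · intro h; exact absurd (Finset.mem_univ _) h
    have e3 : p i₀ = q i₀ := by
      rcases mul_eq_zero.mp e2 with h | h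
      · have := sub_eq_zero.mp h; exact_mod_cast this
      · exfalso; apply hi₀; have := sub_eq_zero.mp h; exact_mod_cast this
    funext j
    by_cases hj : j = i₀
    · rw [hj]; exact e3
    · exact hoff j hj
  have hle : ∀ p ∈ F, ∏ i, (1 : ℝ) / p i ≤ 1 / A * ∏ i, (1 : ℝ) / ((u p) i : ℕ) := by
    intro p hp
    have hp' := Fintype.mem_piFinset.mp (Finset.mem_filter.mp hp).1
    rw [← Finset.mul_prod_erase Finset.univ (fun i => (1 : ℝ) / p i) (Finset.mem_univ i₀),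
      ← Finset.mul_prod_erase Finset.univ (fun i => (1 : ℝ) / ((u p) i : ℕ)) (Finset.mem_univ i₀)]
    have e : ∏ x ∈ Finset.univ.erase i₀, (1 : ℝ) / ((u p) x : ℕ) = ∏ x ∈ Finset.univ.erase i₀, (1 : ℝ) / p x := by
      refine Finset.prod_congr rfl (fun j hj => ?_)
      have hj' := (Finset.mem_erase.mp hj).1
      simp [hu, Function.update_of_ne hj']
    rw [e]
    have e' : (1 : ℝ) / ((u p) i₀ : ℕ) = 1 := by simp [hu]
    rw [e', one_mul]
    have hnn : 0 ≤ ∏ x ∈ Finset.univ.erase i₀, (1 : ℝ) / p x := Finset.prod_nonneg (fun j _ => by positivity)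
    exact mul_le_mul_of_nonneg_right (one_div_le_one_div_of_le hA (h1 i₀ _ (hp' i₀))) hnn
  have hprodQ : ∑ q ∈ Fintype.piFinset Q, ∏ i, (1 : ℝ) / q i ≤ 1 / s * ∏ i, ∑ p ∈ PP i, (1 : ℝ) / p := by
    rw [← Finset.prod_univ_sum Q (fun _ q => (1 : ℝ) / (q : ℕ))]
    rw [← Finset.mul_prod_erase Finset.univ (fun i => ∑ p ∈ PP i, (1 : ℝ) / p) (Finset.mem_univ i₀),
      ← Finset.mul_prod_erase Finset.univ (fun i => ∑ p ∈ Q i, (1 : ℝ) / p) (Finset.mem_univ i₀)]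
    have e : ∏ x ∈ Finset.univ.erase i₀, ∑ p ∈ Q x, (1 : ℝ) / p = ∏ x ∈ Finset.univ.erase i₀, ∑ p ∈ PP x, (1 : ℝ) / p := by
      refine Finset.prod_congr rfl (fun j hj => ?_)
      have hj' := (Finset.mem_erase.mp hj).1
      simp [hQ, Function.update_of_ne hj']
    rw [e]
    have e' : ∑ p ∈ Q i₀, (1 : ℝ) / p = 1 := by simp [hQ]
    rw [e', one_mul]
    have hnn : 0 ≤ ∏ x ∈ Finset.univ.erase i₀, ∑ p ∈ PP x, (1 : ℝ) / p :=
      Finset.prod_nonneg (fun j _ => (hSpos j).le)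
    have hge : 1 ≤ 1 / s * ∑ p ∈ PP i₀, (1 : ℝ) / p := by
      rw [one_div, ← div_eq_inv_mul, le_div_iff₀ hs, one_mul]
      exact h2 i₀
    calc ∏ x ∈ Finset.univ.erase i₀, ∑ p ∈ PP x, (1 : ℝ) / p
        = 1 * ∏ x ∈ Finset.univ.erase i₀, ∑ p ∈ PP x, (1 : ℝ) / p := (one_mul _).symm
      _ ≤ (1 / s * ∑ p ∈ PP i₀, (1 : ℝ) / p) * ∏ x ∈ Finset.univ.erase i₀, ∑ p ∈ PP x, (1 : ℝ) / p :=
          mul_le_mul_of_nonneg_right hge hnn
      _ = _ := by ring
  calc ∑ p ∈ F, ∏ i, (1 : ℝ) / p i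
      ≤ ∑ p ∈ F, 1 / A * ∏ i, (1 : ℝ) / ((u p) i : ℕ) := Finset.sum_le_sum hle
    _ = 1 / A * ∑ p ∈ F, ∏ i, (1 : ℝ) / ((u p) i : ℕ) := by rw [Finset.mul_sum]
    _ = 1 / A * ∑ q ∈ F.image u, ∏ i, (1 : ℝ) / (q i : ℕ) := by
        rw [Finset.sum_image hinj]
    _ ≤ 1 / A * ∑ q ∈ Fintype.piFinset Q, ∏ i, (1 : ℝ) / q i := by
        refine mul_le_mul_of_nonneg_left ?_ (by positivity)
        refine Finset.sum_le_sum_of_subset_of_nonneg ?_ (fun q _ _ => Finset.prod_nonneg (fun j _ => by positivity))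
        intro q hq
        obtain ⟨p, hp, rfl⟩ := Finset.mem_image.mp hq
        exact hmem p hp
    _ ≤ 1 / A * (1 / s * ∏ i, ∑ p ∈ PP i, (1 : ℝ) / p) := mul_le_mul_of_nonneg_left hprodQ (by positivity)
    _ = 1 / (A * s) * ∏ i, ∑ p ∈ PP i, (1 : ℝ) / p := by
        rw [← mul_assoc, one_div_mul_one_div]

end Pool.Agent.SPA.G83
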