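import Pool.Agent.SPA.Stmts5

/-!
# The dyadic sum
-/

set_option autoImplicit false

namespace Pool.Agent.SPA

open Finset

lemma dyad_aux (p : ℕ → Prop) [DecidablePred p] (V : ℕ) (δ : ℝ) (hV : 2 ≤ V)
    (h : ∀ N : ℕ, V ≤ N → δ * N ≤ (((Ioc N (2 * N)).filter p).card : ℝ)) (J : ℕ) :
    (J : ℝ) * (δ / 2) ≤ ∑ v ∈ (Ioc V (V * 2 ^ J)).filter p, (1 : ℝ) / v := by
  induction J with
  | zero => simp
  | succ J ih =>
    have hN1 : V ≤ V * 2 ^ J := Nat.le_mul_of_pos_right V (by positivity)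
    set N := V * 2 ^ J with hN
    have h2 : V * 2 ^ (J + 1) = 2 * N := by rw [hN]; ring
    rw [h2, sum_filter, ← sum_Ioc_consecutive _ hN1 (by omega : N ≤ 2 * N), ← sum_filter, ← sum_filter]
    have hNp : (0 : ℝ) < N := by
      have : 0 < N := by omega
      exact_mod_cast this
    have h3 : δ / 2 ≤ ∑ v ∈ (Ioc N (2 * N)).filter p, (1 : ℝ) / v := by
      have h4 : ∑ v ∈ (Ioc N (2 * N)).filter p, (1 : ℝ) / (2 * N) ≤ ∑ v ∈ (Ioc N (2 * N)).filter p, (1 : ℝ) / v := by
        apply sum_le_sum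
        intro v hv
        rw [mem_filter, mem_Ioc] at hv
        have hv0 : (0 : ℝ) < v := by
          have : 0 < v := by omega
          exact_mod_cast this
        apply one_div_le_one_div_of_le hv0
        exact_mod_cast hv.1.2
      rw [sum_const, nsmul_eq_mul] at h4
      refine le_trans ?_ h4
      have h5 := h N hN1
      calc δ / 2 = δ * N * (1 / (2 * N)) := by field_simp
        _ ≤ _ := mul_le_mul_of_nonneg_right h5 (by positivity)
    push_cast
    linarith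

theorem dyad75 (p : ℕ → Prop) [DecidablePred p] (V : ℕ) (δ : ℝ) (hV : 2 ≤ V) (hδ : 0 ≤ δ)
    (h : ∀ N : ℕ, V ≤ N → δ * N ≤ (((Ioc N (2 * N)).filter p).card : ℝ)) :
    δ / 4 * Real.log V ≤ ∑ v ∈ (Ioc V (V ^ 2)).filter p, (1 : ℝ) / v := by
  obtain ⟨J, hJ⟩ : ∃ J, J = Nat.log 2 V := ⟨_, rfl⟩
  have hJ1 : 1 ≤ J := by
    rw [hJ]
    exact Nat.log_pos (by norm_num) hV
  have h1 : 2 ^ J ≤ V := by
    rw [hJ]
    exact Nat.pow_log_le_self 2 (by omega)
  have h2 : V < 2 ^ (J + 1) := by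
    rw [hJ]
    exact Nat.lt_pow_succ_log_self (by norm_num) V
  have hV0 : (0 : ℝ) < V := by
    have : 0 < V := by omega
    exact_mod_cast this
  have h3 : Real.log V ≤ (J + 1) * Real.log 2 := by
    have e : Real.log (V : ℝ) ≤ Real.log ((2 : ℝ) ^ (J + 1)) :=
      Real.log_le_log hV0 (by exact_mod_cast h2.le)
    rw [Real.log_pow] at e
    push_cast at e
    exact e
  have hl2 : Real.log 2 < 0.7 := by
    have := Real.log_two_lt_d9
    linarith
  have hl2' : 0 < Real.log 2 := Real.log_pos (by norm_num)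
  have hJ' : (1 : ℝ) ≤ J := by exact_mod_cast hJ1
  have h4 : Real.log V ≤ 2 * J := by nlinarith
  have h5 := dyad_aux p V δ hV h J
  have h6 : ∑ v ∈ (Ioc V (V * 2 ^ J)).filter p, (1 : ℝ) / v ≤ ∑ v ∈ (Ioc V (V ^ 2)).filter p, (1 : ℝ) / v := by
    apply sum_le_sum_of_subset_of_nonneg
    · apply filter_subset_filter
      apply Ioc_subset_Ioc_right
      rw [pow_two]
      exact Nat.mul_le_mul_left V h1
    · intro _ _ _
      positivity
  calc δ / 4 * Real.log V ≤ δ / 4 * (2 * J) := mul_le_mul_of_nonneg_left h4 (by positivity)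
    _ = J * (δ / 2) := by ring
    _ ≤ _ := h5.trans h6

end Pool.Agent.SPA
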