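import Pool.Agent.SPA.G820
import Pool.Agent.SPA.W54

/-!
# The family with general parameters (MP_7a4c99)
-/

set_option autoImplicit false
set_option maxHeartbeats 1000000

namespace Pool.Agent.SPA.G1020

open Finset G820

theorem fam (j₀ : ℕ) (hj : ∀ a L : ℕ, j₀ ≤ a → 1 ≤ L →
    (L : ℝ) / (4 * ((a : ℝ) + L)) ≤ ∑ p ∈ (Ioc (2 ^ a) (2 ^ (a + L))).filter Nat.Prime, (1 : ℝ) / p)
    (r ρ d g L : ℕ) (hr : 1 ≤ r) (hρ : r ≤ 2 ^ ρ) (hL1 : 1 ≤ L) (hLd : 32 * (L + 1) ≤ 2 ^ d)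
    (hLg : L ≤ r * g) (hg : ρ * d + ρ + 4 ≤ g) (hjg : j₀ ≤ g) : ∃ T : Finset (ℕ × ℕ),
    (∀ p ∈ T, 1 ≤ p.1 ∧ p.1 ≤ 2 ^ (3 * r ^ 2 * g) ∧ p.2 ≤ 2 ^ (3 * r ^ 2 * g) ∧
      ∃ s : Multiset ℕ, (∀ a ∈ s, 2 ≤ a ∧ a ≤ 2 ^ (3 * r ^ 2 * g)) ∧
        s.prod = p.1 ∧ s.sum = p.2 + s.card) ∧
    1 / 2 * ((L : ℝ) / (64 * r)) ^ r ≤ ∑ p ∈ T, (1 : ℝ) / p.1 := by
  classical
  obtain ⟨a, ha⟩ : ∃ a, a = r * g := ⟨_, rfl⟩
  have hLa : L ≤ a := by rw [ha]; exact hLg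
  have hga : g ≤ a := by rw [ha]; exact Nat.le_mul_of_pos_left g (by omega)
  obtain ⟨WW, hWW⟩ : ∃ WW, WW = (Icc 1 (2 ^ L)).filter (fun w => w.primeFactorsList.length ≤ d) := ⟨_, rfl⟩
  have hWW1 : ∀ w ∈ WW, 1 ≤ w ∧ w ≤ 2 ^ L ∧ w.primeFactorsList.length ≤ d := by
    intro w hw
    rw [hWW, mem_filter, mem_Icc] at hw
    exact ⟨hw.1.1, hw.1.2, hw.2⟩
  have hWsum : (L : ℝ) / 8 ≤ ∑ w ∈ WW, (1 : ℝ) / w := by
    have h1 := W54.sumW L d hL1 hLd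
    rw [← hWW] at h1
    exact h1
  obtain ⟨PP, hPP⟩ : ∃ PP : Fin r → Finset ℕ,
      PP = fun i : Fin r => (Ioc (2 ^ (a + (i : ℕ) * g)) (2 ^ (a + (i : ℕ) * g + g))).filter Nat.Prime :=
    ⟨_, rfl⟩
  have hPP1 : ∀ i, ∀ p ∈ PP i, p.Prime ∧ 2 ^ (a + i * g) < p ∧ p ≤ 2 ^ (a + i * g + g) := by
    intro i p hp
    rw [hPP] at hp
    simp only [mem_filter, mem_Ioc] at hp
    exact ⟨hp.2, hp.1.1, hp.1.2⟩
  have hrR : (1 : ℝ) ≤ r := by exact_mod_cast hr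
  have hexp : ∀ i : Fin r, a + i * g + g ≤ 2 * (r * g) := by
    intro i
    have h1 : ((i : ℕ) + 1) * g ≤ r * g := Nat.mul_le_mul_right g i.isLt
    rw [ha]
    nlinarith
  have hg1 : 1 ≤ g := by omega
  have hPsum : ∀ i, 1 / (8 * (r : ℝ)) ≤ ∑ p ∈ PP i, (1 : ℝ) / p := by
    intro i
    have h1 := hj (a + i * g) g (by omega) hg1
    rw [hPP]
    refine le_trans ?_ h1
    have h2 : ((a + i * g : ℕ) : ℝ) + g ≤ 2 * (r * g) := by exact_mod_cast hexp i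
    have h3 : (0 : ℝ) < g := by exact_mod_cast hg1
    have h4 : (0 : ℝ) ≤ ((a + i * g : ℕ) : ℝ) := Nat.cast_nonneg _
    rw [div_le_div_iff₀ (by positivity) (by positivity)]
    nlinarith
  have hPA : ∀ i, ∀ p ∈ PP i, (2 : ℝ) ^ a ≤ (p : ℝ) := by
    intro i p hp
    have h1 := (hPP1 i p hp).2.1
    have h2 : 2 ^ a ≤ 2 ^ (a + i * g) := Nat.pow_le_pow_right (by norm_num) (by omega)
    exact_mod_cast (by omega : 2 ^ a ≤ p)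
  obtain ⟨V, hV⟩ : ∃ V, V = Fintype.piFinset (fun _ : Fin r => WW) := ⟨_, rfl⟩
  have hV1 : ∀ w ∈ V, ∀ i, w i ∈ WW := by
    intro w hw
    rw [hV] at hw
    exact Fintype.mem_piFinset.mp hw
  have hK : ∀ w ∈ V, ((V.filter (fun w' => ∏ i, w' i = ∏ i, w i)).card : ℝ) ≤ (r : ℝ) ^ (r * d) := by
    intro w hw
    obtain ⟨h1, h2⟩ := len_prod (univ : Finset (Fin r)) w d (fun i _ => by
      obtain ⟨h3, -, h4⟩ := hWW1 _ (hV1 w hw i)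
      exact ⟨by omega, h4⟩)
    rw [card_univ, Fintype.card_fin] at h2
    have h3 : V.filter (fun w' => ∏ i, w' i = ∏ i, w i) ⊆ Nat.finMulAntidiag r (∏ i, w i) := by
      intro w' hw'
      rw [mem_filter] at hw'
      rw [Nat.mem_finMulAntidiag]
      exact ⟨hw'.2, h1⟩
    have h4 := (card_le_card h3).trans ((C834.cardAnti r _ h1).trans (Nat.pow_le_pow_right hr h2))
    exact_mod_cast h4
  have hbad := bad_le r PP V (2 ^ a) (1 / (8 * r)) ((r : ℝ) ^ (r * d)) (by positivity) (by positivity) hPA hPsum hK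
  obtain ⟨X, hX⟩ : ∃ X : ℝ, X = ∏ i, ∑ p ∈ PP i, (1 : ℝ) / p := ⟨_, rfl⟩
  obtain ⟨Y, hY⟩ : ∃ Y : ℝ, Y = ∑ w ∈ V, ∏ i, (1 : ℝ) / w i := ⟨_, rfl⟩
  rw [← hX, ← hY] at hbad
  have hY2 : Y = ∏ _i : Fin r, ∑ w ∈ WW, (1 : ℝ) / w := by
    rw [hY, hV, prod_univ_sum]
  have hX2 : X = ∑ p ∈ Fintype.piFinset PP, ∏ i, (1 : ℝ) / p i := by
    rw [hX, prod_univ_sum]
  have hX0 : 0 ≤ X := by
    rw [hX]; exact prod_nonneg (fun i _ => sum_nonneg (fun p _ => by positivity))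
  have hY0 : 0 ≤ Y := by
    rw [hY]; exact sum_nonneg (fun w _ => prod_nonneg (fun p _ => by positivity))
  have hXY : ((L : ℝ) / (64 * r)) ^ r ≤ X * Y := by
    rw [hX, hY2, ← prod_mul_distrib]
    calc ((L : ℝ) / (64 * r)) ^ r = ∏ _i : Fin r, ((L : ℝ) / (64 * r)) := by
          rw [prod_const, card_univ, Fintype.card_fin]
      _ ≤ _ := by
        refine prod_le_prod (fun i _ => by positivity) (fun i _ => ?_)
        calc (L : ℝ) / (64 * r) = 1 / (8 * r) * (L / 8) := by field_simp; norm_num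
          _ ≤ _ := mul_le_mul (hPsum i) hWsum (by positivity) (le_trans (by positivity) (hPsum i))
  have hhalf : (r : ℝ) ^ (r * d) * (1 / (2 ^ a * (1 / (8 * r)))) ≤ 1 / 2 := by
    have h1 : 16 * r * r ^ (r * d) ≤ 2 ^ a := by
      calc 16 * r * r ^ (r * d) ≤ 2 ^ 4 * 2 ^ ρ * (2 ^ ρ) ^ (r * d) :=
            Nat.mul_le_mul (Nat.mul_le_mul (by norm_num) hρ) (Nat.pow_le_pow_left hρ _)
        _ = 2 ^ (4 + ρ + ρ * (r * d)) := by rw [← pow_mul, ← pow_add, ← pow_add]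
        _ ≤ 2 ^ a := by
          refine Nat.pow_le_pow_right (by norm_num) ?_
          rw [ha]
          have h2 : r * (ρ * d + ρ + 4) = ρ * (r * d) + r * (ρ + 4) := by ring
          have h3 : 1 * (ρ + 4) ≤ r * (ρ + 4) := Nat.mul_le_mul_right _ hr
          have h4 : r * (ρ * d + ρ + 4) ≤ r * g := Nat.mul_le_mul_left r hg
          omega
    have h2 : 16 * (r : ℝ) * (r : ℝ) ^ (r * d) ≤ 2 ^ a := by exact_mod_cast h1
    have h3 : (r : ℝ) ^ (r * d) * (1 / (2 ^ a * (1 / (8 * r)))) = 8 * r * (r : ℝ) ^ (r * d) / 2 ^ a := by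
      field_simp
    rw [h3, div_le_div_iff₀ (by positivity) (by norm_num)]
    linarith
  -- the family
  obtain ⟨Gd, hGd⟩ : ∃ Gd, Gd = (Fintype.piFinset PP ×ˢ V).filter (fun x => ¬ Bad r V x) := ⟨_, rfl⟩
  obtain ⟨F, hF⟩ : ∃ F : (Fin r → ℕ) × (Fin r → ℕ) → ℕ × ℕ,
      F = fun x => (∏ i, x.1 i * x.2 i, ∑ i, (x.1 i * x.2 i - 1)) := ⟨_, rfl⟩
  have hGd1 : ∀ x ∈ Gd, (∀ i, x.1 i ∈ PP i) ∧ (x.2 ∈ V) ∧ ¬ Bad r V x := by
    intro x hx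
    rw [hGd, mem_filter, mem_product] at hx
    exact ⟨Fintype.mem_piFinset.mp hx.1.1, hx.1.2, hx.2⟩
  have hent : ∀ x ∈ Gd, ∀ i, 2 ≤ x.1 i * x.2 i ∧ x.1 i * x.2 i ≤ 2 ^ (3 * (r * g)) := by
    intro x hx i
    obtain ⟨h1, h2, -⟩ := hGd1 x hx
    obtain ⟨h3, h4, h5⟩ := hPP1 i _ (h1 i)
    obtain ⟨h6, h7, -⟩ := hWW1 _ (hV1 _ h2 i)
    refine ⟨le_trans h3.two_le (Nat.le_mul_of_pos_right _ h6), ?_⟩
    calc x.1 i * x.2 i ≤ 2 ^ (a + i * g + g) * 2 ^ L := Nat.mul_le_mul h5 h7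
      _ = 2 ^ (a + i * g + g + L) := by rw [← pow_add]
      _ ≤ 2 ^ (3 * (r * g)) := by
        refine Nat.pow_le_pow_right (by norm_num) ?_
        have := hexp i
        have h8 : L ≤ r * g := by rw [← ha]; exact hLa
        omega
  have hsum : ∀ x ∈ Gd, ∑ i, x.1 i * x.2 i = ∑ i, (x.1 i * x.2 i - 1) + r := by
    intro x hx
    have h1 : ∑ i, x.1 i * x.2 i = ∑ i, ((x.1 i * x.2 i - 1) + 1) := by
      refine sum_congr rfl (fun i _ => ?_)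
      have := (hent x hx i).1
      omega
    rw [h1, sum_add_distrib]
    simp
  have hinj : Set.InjOn F (Gd : Set ((Fin r → ℕ) × (Fin r → ℕ))) := by
    intro x hx y hy hxy
    rw [mem_coe] at hx hy
    obtain ⟨h1, h2, h3⟩ := hGd1 x hx
    obtain ⟨k1, k2, k3⟩ := hGd1 y hy
    rw [hF] at hxy
    simp only [Prod.mk.injEq] at hxy
    obtain ⟨e1, e2⟩ := rd hLa (p := x.1) (p' := y.1) (w := x.2) (w' := y.2)
      (fun i => hPP1 i _ (h1 i)) (fun i => hPP1 i _ (k1 i))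
      (fun i => ⟨(hWW1 _ (hV1 _ k2 i)).1, (hWW1 _ (hV1 _ k2 i)).2.1⟩) hxy.1
    have e3 : ∑ i, x.1 i * x.2 i = ∑ i, y.1 i * y.2 i := by
      rw [hsum x hx, hsum y hy, hxy.2]
    by_cases e4 : y.2 = x.2
    · exact Prod.ext e1 e4.symm
    · exfalso
      refine h3 ⟨y.2, k2, e4, e2.symm, ?_⟩
      rw [e3, e1]
  have hE2 : 3 * (r * g) ≤ 3 * r ^ 2 * g := by
    have h1 : r ≤ r ^ 2 := Nat.le_self_pow (by norm_num) r
    calc 3 * (r * g) = 3 * r * g := by ring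
      _ ≤ 3 * r ^ 2 * g := Nat.mul_le_mul_right g (Nat.mul_le_mul_left 3 h1)
  refine ⟨Gd.image F, ?_, ?_⟩
  · intro y hy
    obtain ⟨x, hx, rfl⟩ := mem_image.mp hy
    have h1 := hent x hx
    have h2 := sum_le_prod (univ : Finset (Fin r)) (fun i => x.1 i * x.2 i) (fun i _ => le_trans (by norm_num) (h1 i).1)
    have h3 : ∏ i, x.1 i * x.2 i ≤ 2 ^ (3 * r ^ 2 * g) := by
      calc ∏ i, x.1 i * x.2 i ≤ ∏ _i : Fin r, 2 ^ (3 * (r * g)) :=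
            prod_le_prod' (fun i _ => (h1 i).2)
        _ = 2 ^ (3 * r ^ 2 * g) := by
          rw [prod_const, card_univ, Fintype.card_fin, ← pow_mul]
          congr 1
          ring
    rw [hF]
    simp only
    refine ⟨?_, h3, ?_, univ.val.map (fun i => x.1 i * x.2 i), ?_, rfl, ?_⟩
    · exact Nat.one_le_iff_ne_zero.mpr (prod_ne_zero_iff.mpr (fun i _ => by have := (h1 i).1; omega))
    · omega
    · intro b hb
      obtain ⟨i, -, rfl⟩ := Multiset.mem_map.mp hb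
      refine ⟨(h1 i).1, (h1 i).2.trans ?_⟩
      exact Nat.pow_le_pow_right (by norm_num) hE2
    · rw [Multiset.card_map]
      have h5 := hsum x hx
      have h6 : (univ : Finset (Fin r)).val.card = r := by
        rw [card_val, card_univ, Fintype.card_fin]
      rw [h6]
      exact h5
  · rw [sum_image hinj]
    have h1 : ∑ x ∈ Gd, (1 : ℝ) / (F x).1 = ∑ x ∈ Gd, (∏ i, (1 : ℝ) / x.1 i) * (∏ i, (1 : ℝ) / x.2 i) := by
      refine sum_congr rfl (fun x _ => ?_)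
      rw [hF]
      simp only [one_div, Nat.cast_prod, Nat.cast_mul]
      rw [← prod_mul_distrib, ← prod_inv_distrib]
      refine prod_congr rfl (fun i _ => ?_)
      rw [mul_inv]
    rw [h1]
    have h2 := sum_filter_add_sum_filter_not (Fintype.piFinset PP ×ˢ V) (Bad r V)
      (fun x => (∏ i, (1 : ℝ) / x.1 i) * (∏ i, (1 : ℝ) / x.2 i))
    rw [← hGd] at h2
    have h3 : ∑ x ∈ Fintype.piFinset PP ×ˢ V, (∏ i, (1 : ℝ) / x.1 i) * (∏ i, (1 : ℝ) / x.2 i) = X * Y := by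
      rw [hX2, hY, sum_mul_sum, sum_product]
    rw [h3] at h2
    have h4 : (r : ℝ) ^ (r * d) * (1 / (2 ^ a * (1 / (8 * r))) * X) * Y ≤ 1 / 2 * (X * Y) := by
      calc (r : ℝ) ^ (r * d) * (1 / (2 ^ a * (1 / (8 * r))) * X) * Y
          = ((r : ℝ) ^ (r * d) * (1 / (2 ^ a * (1 / (8 * r))))) * (X * Y) := by ring
        _ ≤ 1 / 2 * (X * Y) := mul_le_mul_of_nonneg_right hhalf (mul_nonneg hX0 hY0)
    linarith

/-- the parameters `L = a = r g` -/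
theorem g10 : ∃ C₁ : ℕ, 1 ≤ C₁ ∧ ∀ r : ℕ, 1 ≤ r → ∃ T : Finset (ℕ × ℕ),
    (∀ p ∈ T, 1 ≤ p.1 ∧ p.1 ≤ 2 ^ (C₁ * r ^ 2 * (Nat.log 2 r + 1) ^ 2) ∧ p.2 ≤ 2 ^ (C₁ * r ^ 2 * (Nat.log 2 r + 1) ^ 2) ∧
      ∃ s : Multiset ℕ, (∀ a ∈ s, 2 ≤ a ∧ a ≤ 2 ^ (C₁ * r ^ 2 * (Nat.log 2 r + 1) ^ 2)) ∧
        s.prod = p.1 ∧ s.sum = p.2 + s.card) ∧
    (((Nat.log 2 r + 1 : ℕ) : ℝ) ^ 2 / 64) ^ r / 2 ≤ ∑ p ∈ T, (1 : ℝ) / p.1 := by
  obtain ⟨j₀, hj⟩ := PB20.pblock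
  refine ⟨3 * (406 + 2 * j₀), by omega, fun r hr => ?_⟩
  obtain ⟨ρ, hρd⟩ : ∃ ρ, ρ = Nat.log 2 r + 1 := ⟨_, rfl⟩
  have hρ : r ≤ 2 ^ ρ := by
    rw [hρd]
    exact (Nat.lt_pow_succ_log_self (by norm_num) r).le
  have hρ1 : 1 ≤ ρ := by omega
  rw [← hρd]
  obtain ⟨d, hd⟩ : ∃ d, d = 2 * ρ + 15 + j₀ := ⟨_, rfl⟩
  obtain ⟨g, hg⟩ : ∃ g, g = ρ * d + ρ + 388 + j₀ := ⟨_, rfl⟩
  have hρ2 : ρ ≤ ρ ^ 2 := Nat.le_self_pow (by norm_num) ρ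
  have hρ3 : 1 ≤ ρ ^ 2 := by omega
  have hg2 : g = 2 * ρ ^ 2 + 16 * ρ + ρ * j₀ + 388 + j₀ := by rw [hg, hd]; ring
  have hg1 : ρ ^ 2 ≤ g := by rw [hg2]; omega
  have hj1 : j₀ * 1 ≤ j₀ * ρ ^ 2 := Nat.mul_le_mul_left _ hρ3
  have hj2 : ρ * j₀ ≤ ρ ^ 2 * j₀ := Nat.mul_le_mul_right _ hρ2
  have hg3 : g ≤ (406 + 2 * j₀) * ρ ^ 2 := by
    rw [hg2]; nlinarith
  have e1 : ρ < 2 ^ ρ := Nat.lt_two_pow_self
  have e2 : j₀ < 2 ^ j₀ := Nat.lt_two_pow_self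
  have e3 : ρ ^ 2 ≤ 2 * 2 ^ ρ := by
    clear * -
    induction ρ with
    | zero => norm_num
    | succ n ih =>
      rcases Nat.lt_or_ge n 3 with h | h
      · interval_cases n <;> norm_num
      · rw [pow_succ 2 n]
        nlinarith
  have hLd : 32 * (r * g + 1) ≤ 2 ^ d := by
    obtain ⟨U, hU⟩ : ∃ U, U = 2 ^ ρ := ⟨_, rfl⟩
    obtain ⟨V, hV⟩ : ∃ V, V = 2 ^ j₀ := ⟨_, rfl⟩
    rw [← hU] at e1 e3 hρ
    rw [← hV] at e2
    have h1 : 2 ^ d = U * U * 32768 * V := by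
      rw [hd, hU, hV, pow_add, pow_add, two_mul, pow_add]; norm_num
    have h2 : ρ * j₀ ≤ U * V := Nat.mul_le_mul e1.le e2.le
    have hU1 : 1 ≤ U := by omega
    have hV1 : 1 ≤ V := by omega
    have hUV : U * 1 ≤ U * V := Nat.mul_le_mul_left _ hV1
    have hVU : 1 * V ≤ U * V := Nat.mul_le_mul_right _ hU1
    have h3 : g + 1 ≤ 1024 * (U * V) := by rw [hg2]; omega
    have h4 : r * g + 1 ≤ U * (g + 1) := by nlinarith [Nat.mul_le_mul_right g hρ]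
    rw [h1]
    nlinarith [Nat.mul_le_mul_left U h3]
  obtain ⟨T, hT, hW⟩ := fam j₀ hj r ρ d g (r * g) hr hρ
    (Nat.mul_pos (by omega) (by omega)) hLd le_rfl (by omega) (by omega)
  have hE : 3 * r ^ 2 * g ≤ 3 * (406 + 2 * j₀) * r ^ 2 * ρ ^ 2 := by
    calc 3 * r ^ 2 * g ≤ 3 * r ^ 2 * ((406 + 2 * j₀) * ρ ^ 2) := Nat.mul_le_mul_left _ hg3
      _ = _ := by ring
  have hE2 := Nat.pow_le_pow_right (show 0 < 2 by norm_num) hE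
  refine ⟨T, fun p hp => ?_, ?_⟩
  · obtain ⟨h1, h2, h3, s, h4, h5⟩ := hT p hp
    exact ⟨h1, h2.trans hE2, h3.trans hE2, s, fun b hb => ⟨(h4 b hb).1, (h4 b hb).2.trans hE2⟩, h5⟩
  · refine le_trans ?_ hW
    have hr0 : (0 : ℝ) < r := by exact_mod_cast (by omega : 0 < r)
    have h1 : (((r * g : ℕ) : ℝ) / (64 * r)) = (g : ℝ) / 64 := by
      push_cast
      field_simp
    have h2 : ((ρ : ℝ)) ^ 2 / 64 ≤ (g : ℝ) / 64 := by
      have : ((ρ : ℝ)) ^ 2 ≤ g := by exact_mod_cast hg1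
      linarith
    rw [h1]
    have h3 : ((ρ : ℝ) ^ 2 / 64) ^ r ≤ ((g : ℝ) / 64) ^ r := pow_le_pow_left₀ (by positivity) h2 r
    linarith

end Pool.Agent.SPA.G1020
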