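import Pool.Agent.SPA.Co3
import Pool.Agent.SPA.C834

/-!
# The family G8: the abstract counting
-/

set_option autoImplicit false

namespace Pool.Agent.SPA.G83

open Finset

/-- the pair (product, sum of the entries minus one) of a tuple -/
def fm (r : ℕ) (x : (Fin r → ℕ) × (Fin r → ℕ)) : ℕ × ℕ :=
  (∏ i, x.1 i * x.2 i, ∑ i, (x.1 i * x.2 i - 1))

theorem wt_eq (r : ℕ) (x : (Fin r → ℕ) × (Fin r → ℕ)) :
    (1 : ℝ) / ((fm r x).1 : ℕ) = (∏ i, (1 : ℝ) / x.1 i) * ∏ i, (1 : ℝ) / x.2 i := by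
  simp only [fm]
  rw [← Finset.prod_mul_distrib]
  push_cast
  rw [one_div, ← Finset.prod_inv_distrib]
  refine Finset.prod_congr rfl (fun i _ => ?_)
  rw [one_div_mul_one_div, one_div]

theorem good (r d : ℕ) (PP : Fin r → Finset ℕ) (WW : Finset ℕ) (A s : ℝ) (hA : 0 < A) (hs : 0 < s)
    (h1 : ∀ i, ∀ p ∈ PP i, A ≤ (p : ℝ)) (h2 : ∀ i, s ≤ ∑ p ∈ PP i, (1 : ℝ) / p)
    (hW : ∀ w ∈ WW, 1 ≤ w ∧ w.primeFactorsList.length ≤ d)
    (hP1 : ∀ i, ∀ p ∈ PP i, 1 ≤ p)
    (hinj : ∀ x ∈ Fintype.piFinset PP ×ˢ Fintype.piFinset (fun _ : Fin r => WW),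
      ∀ y ∈ Fintype.piFinset PP ×ˢ Fintype.piFinset (fun _ : Fin r => WW),
        ∏ i, x.1 i * x.2 i = ∏ i, y.1 i * y.2 i → x.1 = y.1)
    (hbad : (r : ℝ) ^ (d * r) * (1 / (A * s)) ≤ 1 / 2) :
    ∃ T : Finset (ℕ × ℕ), (∀ q ∈ T, ∃ x ∈ Fintype.piFinset PP ×ˢ Fintype.piFinset (fun _ : Fin r => WW), q = fm r x) ∧
      1 / 2 * ((∏ i, ∑ p ∈ PP i, (1 : ℝ) / p) * (∑ w ∈ WW, (1 : ℝ) / w) ^ r) ≤ ∑ q ∈ T, (1 : ℝ) / q.1 := by
  classical
  set G := Fintype.piFinset PP ×ˢ Fintype.piFinset (fun _ : Fin r => WW) with hG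
  set bad : (Fin r → ℕ) × (Fin r → ℕ) → Prop := fun x =>
    ∃ w' ∈ Nat.finMulAntidiag r (∏ i, x.2 i), w' ≠ x.2 ∧ ∑ i, x.1 i * x.2 i = ∑ i, x.1 i * w' i with hbd
  set wt : (Fin r → ℕ) × (Fin r → ℕ) → ℝ := fun x => (∏ i, (1 : ℝ) / x.1 i) * ∏ i, (1 : ℝ) / x.2 i with hwt
  have hwt0 : ∀ x, 0 ≤ wt x := fun x => mul_nonneg (Finset.prod_nonneg (fun i _ => by positivity))
    (Finset.prod_nonneg (fun i _ => by positivity))
  set SP : ℝ := ∏ i, ∑ p ∈ PP i, (1 : ℝ) / p with hSP
  set SW : ℝ := (∑ w ∈ WW, (1 : ℝ) / w) ^ r with hSW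
  have hSP0 : 0 ≤ SP := Finset.prod_nonneg (fun i _ => Finset.sum_nonneg (fun p _ => by positivity))
  have hSWeq : ∑ w ∈ Fintype.piFinset (fun _ : Fin r => WW), ∏ i, (1 : ℝ) / w i = SW := by
    rw [← Finset.prod_univ_sum (fun _ : Fin r => WW) (fun _ q => (1 : ℝ) / (q : ℕ))]
    simp [hSW]
  have hSPeq : ∑ p ∈ Fintype.piFinset PP, ∏ i, (1 : ℝ) / p i = SP := by
    rw [← Finset.prod_univ_sum PP (fun _ q => (1 : ℝ) / (q : ℕ))]
  have htot : ∑ x ∈ G, wt x = SP * SW := by
    rw [hG, Finset.sum_product, ← hSPeq, ← hSWeq, Finset.sum_mul_sum]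
  -- the bad tuples
  have hbadsum : ∑ x ∈ G.filter bad, wt x ≤ 1 / 2 * (SP * SW) := by
    have s1 : ∑ x ∈ G.filter bad, wt x ≤ ∑ x ∈ G, ∑ w' ∈ (Nat.finMulAntidiag r (∏ i, x.2 i)).filter (fun w' => w' ≠ x.2),
        if ∑ i, x.1 i * x.2 i = ∑ i, x.1 i * w' i then wt x else 0 := by
      rw [Finset.sum_filter]
      refine Finset.sum_le_sum (fun x _ => ?_)
      have hnn : ∀ w' ∈ (Nat.finMulAntidiag r (∏ i, x.2 i)).filter (fun w' => w' ≠ x.2),
          0 ≤ (if ∑ i, x.1 i * x.2 i = ∑ i, x.1 i * w' i then wt x else 0) := by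
        intro w' _; split_ifs
        · exact hwt0 x
        · exact le_refl _
      split_ifs with hb
      · obtain ⟨w', hw', hne, heq⟩ := hb
        have hm : w' ∈ (Nat.finMulAntidiag r (∏ i, x.2 i)).filter (fun w' => w' ≠ x.2) :=
          Finset.mem_filter.mpr ⟨hw', hne⟩
        have := Finset.single_le_sum hnn hm
        rw [if_pos heq] at this
        exact this
      · exact Finset.sum_nonneg hnn
    have s2 : ∑ x ∈ G, ∑ w' ∈ (Nat.finMulAntidiag r (∏ i, x.2 i)).filter (fun w' => w' ≠ x.2),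
        (if ∑ i, x.1 i * x.2 i = ∑ i, x.1 i * w' i then wt x else 0)
        = ∑ w ∈ Fintype.piFinset (fun _ : Fin r => WW),
          ∑ w' ∈ (Nat.finMulAntidiag r (∏ i, w i)).filter (fun w' => w' ≠ w),
          ((∏ i, (1 : ℝ) / w i) * ∑ p ∈ (Fintype.piFinset PP).filter (fun p => ∑ i, p i * w i = ∑ i, p i * w' i),
            ∏ i, (1 : ℝ) / p i) := by
      rw [hG, Finset.sum_product_right]
      refine Finset.sum_congr rfl (fun w _ => ?_)
      have e0 : (∑ x ∈ Fintype.piFinset PP, ∑ w' ∈ (Nat.finMulAntidiag r (∏ i, (x, w).2 i)).filter (fun w' => w' ≠ (x, w).2),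
          (if ∑ i, (x, w).1 i * (x, w).2 i = ∑ i, (x, w).1 i * w' i then wt (x, w) else 0))
          = ∑ x ∈ Fintype.piFinset PP, ∑ w' ∈ (Nat.finMulAntidiag r (∏ i, w i)).filter (fun w' => w' ≠ w),
          (if ∑ i, x i * w i = ∑ i, x i * w' i then wt (x, w) else 0) := rfl
      refine Eq.trans e0 ?_
      rw [Finset.sum_comm]
      refine Finset.sum_congr rfl (fun w' _ => ?_)
      rw [Finset.mul_sum, Finset.sum_filter]
      refine Finset.sum_congr rfl (fun p _ => ?_)
      split_ifs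
      · simp only [hwt]; ring
      · rfl
    have s3 : ∑ w ∈ Fintype.piFinset (fun _ : Fin r => WW),
          ∑ w' ∈ (Nat.finMulAntidiag r (∏ i, w i)).filter (fun w' => w' ≠ w),
          ((∏ i, (1 : ℝ) / w i) * ∑ p ∈ (Fintype.piFinset PP).filter (fun p => ∑ i, p i * w i = ∑ i, p i * w' i),
            ∏ i, (1 : ℝ) / p i)
        ≤ ∑ w ∈ Fintype.piFinset (fun _ : Fin r => WW), (∏ i, (1 : ℝ) / w i) * (1 / 2 * SP) := by
      refine Finset.sum_le_sum (fun w hw => ?_)
      have hw' := Fintype.mem_piFinset.mp hw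
      have hnn : 0 ≤ ∏ i, (1 : ℝ) / w i := Finset.prod_nonneg (fun i _ => by positivity)
      have hM : (∏ i, w i) ≠ 0 := Finset.prod_ne_zero_iff.mpr (fun i _ => by have := (hW _ (hw' i)).1; omega)
      have hcard : ((Nat.finMulAntidiag r (∏ i, w i)).card : ℝ) ≤ (r : ℝ) ^ (d * r) := by
        have c1 := C834.cardAnti r (∏ i, w i) hM
        rcases Nat.eq_zero_or_pos r with hr | hr
        · subst hr
          have : (Nat.finMulAntidiag 0 (∏ i, w i)).card ≤ 1 := by
            refine le_trans (Finset.card_le_univ _) ?_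
            simp
          simpa using (by exact_mod_cast this : ((Nat.finMulAntidiag 0 (∏ i, w i)).card : ℝ) ≤ 1)
        · have c2 : (∏ i, w i).primeFactorsList.length ≤ d * r := by
            have key : ∀ S : Finset (Fin r), (∏ i ∈ S, w i).primeFactorsList.length ≤ d * S.card := by
              intro S
              induction S using Finset.induction_on with
              | empty => simp
              | insert j S hj ih =>
                rw [Finset.prod_insert hj, Finset.card_insert_of_notMem hj]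
                have n1 : w j ≠ 0 := by have := (hW _ (hw' j)).1; omega
                have n2 : (∏ i ∈ S, w i) ≠ 0 :=
                  Finset.prod_ne_zero_iff.mpr (fun i _ => by have := (hW _ (hw' i)).1; omega)
                have := (Nat.perm_primeFactorsList_mul n1 n2).length_eq
                rw [this, List.length_append]
                have := (hW _ (hw' j)).2
                nlinarith
            have := key Finset.univ
            simpa using this
          calc ((Nat.finMulAntidiag r (∏ i, w i)).card : ℝ) ≤ ((r ^ (∏ i, w i).primeFactorsList.length : ℕ) : ℝ) := by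
                exact_mod_cast c1
            _ ≤ (r : ℝ) ^ (d * r) := by
                push_cast
                exact pow_le_pow_right₀ (by exact_mod_cast hr) c2
      calc ∑ w' ∈ (Nat.finMulAntidiag r (∏ i, w i)).filter (fun w' => w' ≠ w),
          ((∏ i, (1 : ℝ) / w i) * ∑ p ∈ (Fintype.piFinset PP).filter (fun p => ∑ i, p i * w i = ∑ i, p i * w' i),
            ∏ i, (1 : ℝ) / p i)
          ≤ ∑ w' ∈ (Nat.finMulAntidiag r (∏ i, w i)).filter (fun w' => w' ≠ w),
            ((∏ i, (1 : ℝ) / w i) * (1 / (A * s) * SP)) := by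
            refine Finset.sum_le_sum (fun w' hw'' => ?_)
            have hne := (Finset.mem_filter.mp hw'').2
            exact mul_le_mul_of_nonneg_left (coll r PP A s hA hs h1 h2 w w' (Ne.symm hne)) hnn
        _ = (((Nat.finMulAntidiag r (∏ i, w i)).filter (fun w' => w' ≠ w)).card : ℝ) *
            ((∏ i, (1 : ℝ) / w i) * (1 / (A * s) * SP)) := by
            rw [Finset.sum_const, nsmul_eq_mul]
        _ ≤ (r : ℝ) ^ (d * r) * ((∏ i, (1 : ℝ) / w i) * (1 / (A * s) * SP)) := by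
            refine mul_le_mul_of_nonneg_right ?_ (mul_nonneg hnn (mul_nonneg (by positivity) hSP0))
            refine le_trans ?_ hcard
            exact_mod_cast Finset.card_filter_le _ _
        _ = (∏ i, (1 : ℝ) / w i) * (((r : ℝ) ^ (d * r) * (1 / (A * s))) * SP) := by ring
        _ ≤ (∏ i, (1 : ℝ) / w i) * (1 / 2 * SP) :=
            mul_le_mul_of_nonneg_left (mul_le_mul_of_nonneg_right hbad hSP0) hnn
    have s4 : ∑ w ∈ Fintype.piFinset (fun _ : Fin r => WW), (∏ i, (1 : ℝ) / w i) * (1 / 2 * SP) = 1 / 2 * (SP * SW) := by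
      rw [← Finset.sum_mul, hSWeq]; ring
    calc ∑ x ∈ G.filter bad, wt x ≤ _ := s1
      _ = _ := s2
      _ ≤ _ := s3
      _ = _ := s4
  have hgood : 1 / 2 * (SP * SW) ≤ ∑ x ∈ G.filter (fun x => ¬ bad x), wt x := by
    have := Finset.sum_filter_add_sum_filter_not G bad wt
    rw [htot] at this
    linarith
  have hInjOn : Set.InjOn (fm r) (G.filter (fun x => ¬ bad x) : Set ((Fin r → ℕ) × (Fin r → ℕ))) := by
    intro x hx y hy hxy
    have hx' := Finset.mem_filter.mp (Finset.mem_coe.mp hx)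
    have hy' := Finset.mem_filter.mp (Finset.mem_coe.mp hy)
    have e1 : ∏ i, x.1 i * x.2 i = ∏ i, y.1 i * y.2 i := congrArg Prod.fst hxy
    have e2 : ∑ i, (x.1 i * x.2 i - 1) = ∑ i, (y.1 i * y.2 i - 1) := congrArg Prod.snd hxy
    have e3 := hinj x hx'.1 y hy'.1 e1
    have xm := Finset.mem_product.mp hx'.1
    have ym := Finset.mem_product.mp hy'.1
    have x1 : ∀ i, 1 ≤ x.1 i := fun i => hP1 i _ (Fintype.mem_piFinset.mp xm.1 i)
    have x2 : ∀ i, 1 ≤ x.2 i := fun i => (hW _ (Fintype.mem_piFinset.mp xm.2 i)).1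
    have y2 : ∀ i, 1 ≤ y.2 i := fun i => (hW _ (Fintype.mem_piFinset.mp ym.2 i)).1
    rw [← e3] at e1 e2
    have e4 : ∏ i, y.2 i = ∏ i, x.2 i := by
      rw [Finset.prod_mul_distrib, Finset.prod_mul_distrib] at e1
      have : 0 < ∏ i, x.1 i := Finset.prod_pos (fun i _ => x1 i)
      exact (Nat.eq_of_mul_eq_mul_left this e1).symm
    have e5 : ∑ i, x.1 i * x.2 i = ∑ i, x.1 i * y.2 i := by
      have f1 : ∑ i, x.1 i * x.2 i = ∑ i, (x.1 i * x.2 i - 1) + ∑ _i : Fin r, 1 := by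
        rw [← Finset.sum_add_distrib]
        refine Finset.sum_congr rfl (fun i _ => ?_)
        have := Nat.mul_pos (x1 i) (x2 i); omega
      have f2 : ∑ i, x.1 i * y.2 i = ∑ i, (x.1 i * y.2 i - 1) + ∑ _i : Fin r, 1 := by
        rw [← Finset.sum_add_distrib]
        refine Finset.sum_congr rfl (fun i _ => ?_)
        have := Nat.mul_pos (x1 i) (y2 i); omega
      rw [f1, f2, e2]
    have e6 : y.2 = x.2 := by
      by_contra hne
      apply hx'.2
      refine ⟨y.2, ?_, hne, e5⟩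
      rw [Nat.mem_finMulAntidiag]
      exact ⟨e4, Finset.prod_ne_zero_iff.mpr (fun i _ => by have := x2 i; omega)⟩
    exact Prod.ext e3 e6.symm
  refine ⟨(G.filter (fun x => ¬ bad x)).image (fm r), ?_, ?_⟩
  · intro q hq
    obtain ⟨x, hx, rfl⟩ := Finset.mem_image.mp hq
    exact ⟨x, (Finset.mem_filter.mp hx).1, rfl⟩
  · rw [Finset.sum_image hInjOn]
    refine le_trans hgood (le_of_eq ?_)
    refine Finset.sum_congr rfl (fun x _ => ?_)
    rw [wt_eq]

end Pool.Agent.SPA.G83
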