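import Pool.Agent.SPM.RecAP92

/-!
# Reciprocals of the primes in dyadic blocks (MP_7a4c99, row G6)
-/

set_option autoImplicit false

namespace Pool.Agent.SPA.PB20

open Finset

theorem block1 : ∃ j₀ : ℕ, ∀ j : ℕ, j₀ ≤ j →
    1 / (4 * ((j : ℝ) + 1)) ≤ ∑ p ∈ (Ioc (2 ^ j) (2 ^ (j + 1))).filter Nat.Prime, (1 : ℝ) / p := by
  obtain ⟨j₀, hj₀⟩ := Pool.Agent.SPM.blockAP (m := 1) (a := 1) isUnit_one
  refine ⟨j₀, fun j hj => ?_⟩
  have h1 := hj₀ j hj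
  have hl2 : 0 < Real.log 2 := Real.log_pos (by norm_num)
  have hl2' : Real.log 2 ≤ 1 := by
    have := Real.log_two_lt_d9
    linarith
  have hsub : Pool.Agent.SPM.prAP (1 : ZMod 1) (2 ^ (j + 1)) \ Pool.Agent.SPM.prAP (1 : ZMod 1) (2 ^ j) ⊆
      (Ioc (2 ^ j) (2 ^ (j + 1))).filter Nat.Prime := by
    intro p hp
    obtain ⟨h2, h3⟩ := mem_sdiff.mp hp
    rw [Pool.Agent.SPM.mem_prAP] at h2 h3
    refine mem_filter.mpr ⟨mem_Ioc.mpr ⟨?_, h2.2.2⟩, h2.1⟩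
    by_contra h4
    exact h3 ⟨h2.1, h2.2.1, by omega⟩
  have hj1 : (0 : ℝ) < (j : ℝ) + 1 := by positivity
  have hpw : (0 : ℝ) < 2 ^ (j + 1) := by positivity
  have h5 : ∀ p ∈ Pool.Agent.SPM.prAP (1 : ZMod 1) (2 ^ (j + 1)) \ Pool.Agent.SPM.prAP (1 : ZMod 1) (2 ^ j),
      Real.log p / (2 ^ (j + 1) * ((j : ℝ) + 1)) ≤ (1 : ℝ) / p := by
    intro p hp
    obtain ⟨h6, h7⟩ := mem_filter.mp (hsub hp)
    obtain ⟨h8, h9⟩ := mem_Ioc.mp h6
    have hp0 : (0 : ℝ) < p := by exact_mod_cast h7.pos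
    have hp2 : (p : ℝ) ≤ 2 ^ (j + 1) := by exact_mod_cast h9
    have hlog : Real.log p ≤ (j : ℝ) + 1 := by
      have h10 := Real.log_le_log hp0 hp2
      rw [Real.log_pow] at h10
      push_cast at h10
      nlinarith
    have hlog0 : 0 ≤ Real.log p := Real.log_nonneg (by exact_mod_cast h7.one_lt.le)
    rw [div_le_div_iff₀ (by positivity) hp0]
    nlinarith [mul_le_mul hlog hp2 hp0.le hj1.le]
  have h6 := sum_le_sum h5
  rw [← sum_div] at h6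
  have h7 := sum_le_sum_of_subset_of_nonneg (f := fun p : ℕ => (1 : ℝ) / p) hsub (fun i _ _ => by positivity)
  refine le_trans ?_ (h6.trans h7)
  rw [le_div_iff₀ (by positivity)]
  refine le_trans (le_of_eq ?_) h1
  simp only [Nat.totient_one, Nat.cast_one, pow_succ]
  field_simp
  ring

theorem pblock : ∃ j₀ : ℕ, ∀ a L : ℕ, j₀ ≤ a → 1 ≤ L →
    (L : ℝ) / (4 * ((a : ℝ) + L)) ≤ ∑ p ∈ (Ioc (2 ^ a) (2 ^ (a + L))).filter Nat.Prime, (1 : ℝ) / p := by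
  obtain ⟨j₀, hj₀⟩ := block1
  refine ⟨j₀, fun a L ha _ => ?_⟩
  have key : ∀ M : ℕ, 1 ≤ M → ∀ k : ℕ, a + k ≤ M →
      (k : ℝ) / (4 * (M : ℝ)) ≤ ∑ p ∈ (Ioc (2 ^ a) (2 ^ (a + k))).filter Nat.Prime, (1 : ℝ) / p := by
    intro M hM k
    induction k with
    | zero => intro _; simp
    | succ k ih =>
      intro hk
      have h1 := ih (by omega)
      have h2 := hj₀ (a + k) (by omega)
      have h3 : 2 ^ a ≤ 2 ^ (a + k) := Nat.pow_le_pow_right (by norm_num) (by omega)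
      have h4 : 2 ^ (a + k) ≤ 2 ^ (a + k + 1) := Nat.pow_le_pow_right (by norm_num) (by omega)
      rw [sum_filter] at h1 h2 ⊢
      rw [show a + (k + 1) = a + k + 1 by ring, ← sum_Ioc_consecutive _ h3 h4]
      have hM0 : (0 : ℝ) < M := by exact_mod_cast hM
      have h5 : (1 : ℝ) / (4 * (M : ℝ)) ≤ 1 / (4 * (((a + k : ℕ) : ℝ) + 1)) := by
        have h6 : ((a + k : ℕ) : ℝ) + 1 ≤ M := by exact_mod_cast hk
        exact one_div_le_one_div_of_le (by positivity) (by linarith)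
      have h7 : ((k + 1 : ℕ) : ℝ) / (4 * (M : ℝ)) = (k : ℝ) / (4 * (M : ℝ)) + 1 / (4 * (M : ℝ)) := by
        push_cast; ring
      rw [h7]
      linarith
  have h1 := key (a + L) (by omega) L le_rfl
  have h2 : ((a + L : ℕ) : ℝ) = (a : ℝ) + L := by push_cast; ring
  rw [h2] at h1
  exact h1

end Pool.Agent.SPA.PB20
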