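import Pool.Agent.SPA.Stmts10
import Pool.Agent.SPA.G83a
import Pool.Agent.SPA.PB20
import Pool.Agent.SPA.W54

/-!
# The family with `log R` about `r² (log r)²` and weight `(log₂ r)^(2 r)` (row G10)
-/

set_option autoImplicit false

namespace Pool.Agent.SPA.G103

open Finset Pool.Agent.SPA.G83

theorem sum_sub_le_prod {ι : Type*} [DecidableEq ι] (S : Finset ι) (f : ι → ℕ) (hf : ∀ i, 1 ≤ f i) :
    ∑ i ∈ S, (f i - 1) + 1 ≤ ∏ i ∈ S, f i := by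
  induction S using Finset.induction_on with
  | empty => simp
  | insert j S hj ih =>
    rw [Finset.sum_insert hj, Finset.prod_insert hj]
    obtain ⟨k, hk⟩ : ∃ k, f j = k + 1 := ⟨f j - 1, by have := hf j; omega⟩
    rw [hk]
    have h1 : 1 ≤ ∏ i ∈ S, f i := by omega
    have h2 : k ≤ k * ∏ i ∈ S, f i := Nat.le_mul_of_pos_right k h1
    have h3 : (k + 1) * ∏ i ∈ S, f i = k * ∏ i ∈ S, f i + ∏ i ∈ S, f i := by ring
    rw [h3]
    omega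

theorem num1 (r ρ d X : ℕ) (hr : 1 ≤ r) (hρ : r ≤ 2 ^ ρ) :
    16 * r * r ^ (d * r) ≤ 2 ^ (r * (ρ * d + ρ + 388 + X)) := by
  have e16 : (16 : ℕ) = 2 ^ 4 := by norm_num
  calc 16 * r * r ^ (d * r) ≤ 16 * 2 ^ ρ * (2 ^ ρ) ^ (d * r) :=
        Nat.mul_le_mul (Nat.mul_le_mul_left 16 hρ) (Nat.pow_le_pow_left hρ _)
    _ = 2 ^ (4 + ρ + ρ * (d * r)) := by
        rw [pow_add, pow_add, e16, ← pow_mul]
    _ ≤ 2 ^ (r * (ρ * d + ρ + 388 + X)) := by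
        refine Nat.pow_le_pow_right (by norm_num) ?_
        have h6 : r * (ρ * d + ρ + 388 + X) = ρ * (d * r) + r * ρ + r * (388 + X) := by ring
        rw [h6]
        have h7 : ρ ≤ r * ρ := Nat.le_mul_of_pos_left ρ hr
        have h8 : 388 + X ≤ r * (388 + X) := Nat.le_mul_of_pos_left _ hr
        omega

theorem numbad (r a d : ℕ) (hr : 1 ≤ r) (hn : 16 * r * r ^ (d * r) ≤ 2 ^ a) :
    (r : ℝ) ^ (d * r) * (1 / ((2 : ℝ) ^ a * (1 / (8 * r)))) ≤ 1 / 2 := by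
  have hrR : (0 : ℝ) < r := by exact_mod_cast hr
  have hnR : 16 * (r : ℝ) * (r : ℝ) ^ (d * r) ≤ (2 : ℝ) ^ a := by exact_mod_cast hn
  have h2a : (0 : ℝ) < (2 : ℝ) ^ a := by positivity
  have e : (r : ℝ) ^ (d * r) * (1 / ((2 : ℝ) ^ a * (1 / (8 * r)))) = (8 * r * (r : ℝ) ^ (d * r)) / (2 : ℝ) ^ a := by
    field_simp
  rw [e, div_le_iff₀ h2a]
  linarith

theorem sq_le (n : ℕ) : n ^ 2 ≤ 2 * 2 ^ n := by
  induction n with
  | zero => norm_num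
  | succ n ih =>
    rcases Nat.lt_or_ge n 3 with h | h
    · interval_cases n <;> norm_num
    · have : (n + 1) ^ 2 ≤ 2 * n ^ 2 := by nlinarith
      calc (n + 1) ^ 2 ≤ 2 * n ^ 2 := this
        _ ≤ 2 * (2 * 2 ^ n) := Nat.mul_le_mul_left _ ih
        _ = 2 * 2 ^ (n + 1) := by ring

theorem fam (j₀ : ℕ) (hj : ∀ a L : ℕ, j₀ ≤ a → 1 ≤ L →
      (L : ℝ) / (4 * ((a : ℝ) + L)) ≤ ∑ p ∈ (Ioc (2 ^ a) (2 ^ (a + L))).filter Nat.Prime, (1 : ℝ) / p)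
    (r g d L a C : ℕ) (hr : 1 ≤ r) (ha : a = r * g) (hg1 : 1 ≤ g) (hja : j₀ ≤ a) (hLa : L ≤ a)
    (hbadN : 16 * r * r ^ (d * r) ≤ 2 ^ a) (hgC : 3 * a * r ≤ C) (B : ℝ) (hB : 0 ≤ B)
    (hBs : B ≤ ∑ w ∈ (Icc (1 : ℕ) (2 ^ L)).filter (fun w : ℕ => w.primeFactorsList.length ≤ d), (1 : ℝ) / w) :
    ∃ T : Finset (ℕ × ℕ),
    (∀ p ∈ T, 1 ≤ p.1 ∧ p.1 ≤ 2 ^ C ∧ p.2 ≤ 2 ^ C ∧
      ∃ s : Multiset ℕ, (∀ a ∈ s, 2 ≤ a ∧ a ≤ 2 ^ C) ∧ s.prod = p.1 ∧ s.sum = p.2 + s.card) ∧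
    (B / (8 * r)) ^ r / 2 ≤ ∑ p ∈ T, (1 : ℝ) / p.1 := by
  classical
  have h3aC : 3 * a ≤ C := le_trans (Nat.le_mul_of_pos_right _ hr) hgC
  have hrR : (0 : ℝ) < r := by exact_mod_cast hr
  set PP : Fin r → Finset ℕ := fun i => (Ioc (2 ^ (a + i * g)) (2 ^ (a + i * g + g))).filter Nat.Prime with hPP
  set WW : Finset ℕ := (Icc (1 : ℕ) (2 ^ L)).filter (fun w : ℕ => w.primeFactorsList.length ≤ d) with hWW
  have hwin : ∀ i : Fin r, a + i * g + g ≤ 2 * a := by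
    intro i
    have : (i : ℕ) + 1 ≤ r := i.2
    have : ((i : ℕ) + 1) * g ≤ r * g := Nat.mul_le_mul_right g this
    rw [← ha] at this
    nlinarith
  have hPmem : ∀ i, ∀ p ∈ PP i, 2 ^ (a + i * g) < p ∧ p ≤ 2 ^ (a + i * g + g) ∧ p.Prime := by
    intro i p hp
    have := Finset.mem_filter.mp hp
    exact ⟨(Finset.mem_Ioc.mp this.1).1, (Finset.mem_Ioc.mp this.1).2, this.2⟩
  have hPa : ∀ i, ∀ p ∈ PP i, 2 ^ a < p := fun i p hp =>
    lt_of_le_of_lt (Nat.pow_le_pow_right (by norm_num) (by omega)) (hPmem i p hp).1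
  have hP2a : ∀ i, ∀ p ∈ PP i, p ≤ 2 ^ (2 * a) := fun i p hp =>
    le_trans (hPmem i p hp).2.1 (Nat.pow_le_pow_right (by norm_num) (hwin i))
  have hWmem : ∀ w ∈ WW, 1 ≤ w ∧ w ≤ 2 ^ L ∧ w.primeFactorsList.length ≤ d := by
    intro w hw
    have := Finset.mem_filter.mp hw
    exact ⟨(Finset.mem_Icc.mp this.1).1, (Finset.mem_Icc.mp this.1).2, this.2⟩
  have h2 : ∀ i, (1 : ℝ) / (8 * r) ≤ ∑ p ∈ PP i, (1 : ℝ) / p := by
    intro i
    have h := hj (a + i * g) g (by omega) hg1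
    refine le_trans ?_ h
    have hgR : (0 : ℝ) < g := by exact_mod_cast hg1
    have h4 : ((a + i * g : ℕ) : ℝ) + g ≤ 2 * (r * g) := by
      have := hwin i
      have h5 : ((a + i * g + g : ℕ) : ℝ) ≤ ((2 * a : ℕ) : ℝ) := by exact_mod_cast this
      rw [ha] at h5
      push_cast at h5 ⊢
      rw [ha] at *
      push_cast at *
      linarith
    rw [div_le_div_iff₀ (by positivity) (by positivity)]
    nlinarith
  have hbad := numbad r a d hr hbadN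
  have hinj : ∀ x ∈ Fintype.piFinset PP ×ˢ Fintype.piFinset (fun _ : Fin r => WW),
      ∀ y ∈ Fintype.piFinset PP ×ˢ Fintype.piFinset (fun _ : Fin r => WW),
        ∏ i, x.1 i * x.2 i = ∏ i, y.1 i * y.2 i → x.1 = y.1 := by
    intro x hx y hy hxy
    have hx1 := Fintype.mem_piFinset.mp (Finset.mem_product.mp hx).1
    have hy1 := Fintype.mem_piFinset.mp (Finset.mem_product.mp hy).1
    have hy2 := Fintype.mem_piFinset.mp (Finset.mem_product.mp hy).2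
    funext i
    have hp := hPmem i _ (hx1 i)
    have hdvd : x.1 i ∣ ∏ i, y.1 i * y.2 i := by
      rw [← hxy]
      exact Dvd.dvd.trans (Dvd.intro _ rfl) (Finset.dvd_prod_of_mem _ (Finset.mem_univ i))
    obtain ⟨j, -, hjd⟩ := (Prime.dvd_finset_prod_iff hp.2.2.prime _).mp hdvd
    rcases (Nat.Prime.dvd_mul hp.2.2).mp hjd with h | h
    · have hq := hPmem j _ (hy1 j)
      have heq : x.1 i = y.1 j := (Nat.prime_dvd_prime_iff_eq hp.2.2 hq.2.2).mp h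
      rcases lt_trichotomy i j with hij | hij | hij
      · exfalso
        have h9 : (i : ℕ) + 1 ≤ j := hij
        have h10 : ((i : ℕ) + 1) * g ≤ j * g := Nat.mul_le_mul_right g h9
        have h11 : a + i * g + g ≤ a + j * g := by nlinarith
        have := Nat.pow_le_pow_right (n := 2) (by norm_num) h11
        omega
      · rw [heq, hij]
      · exfalso
        have h9 : (j : ℕ) + 1 ≤ i := hij
        have h10 : ((j : ℕ) + 1) * g ≤ i * g := Nat.mul_le_mul_right g h9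
        have h11 : a + j * g + g ≤ a + i * g := by nlinarith
        have := Nat.pow_le_pow_right (n := 2) (by norm_num) h11
        omega
    · exfalso
      have h12 := hWmem _ (hy2 j)
      have h13 := Nat.le_of_dvd h12.1 h
      have h14 := hPa i _ (hx1 i)
      have := Nat.pow_le_pow_right (n := 2) (by norm_num) hLa
      omega
  obtain ⟨T, hT, hTs⟩ := good r d PP WW ((2 : ℝ) ^ a) (1 / (8 * r)) (by positivity) (by positivity)
    (fun i p hp => by have := (hPa i p hp).le; exact_mod_cast this) h2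
    (fun w hw => ⟨(hWmem w hw).1, (hWmem w hw).2.2⟩) (fun i p hp => (hPmem i p hp).2.2.one_lt.le) hinj hbad
  refine ⟨T, ?_, ?_⟩
  · intro q hq
    obtain ⟨x, hx, rfl⟩ := hT q hq
    have hx1 := Fintype.mem_piFinset.mp (Finset.mem_product.mp hx).1
    have hx2 := Fintype.mem_piFinset.mp (Finset.mem_product.mp hx).2
    have e2 : ∀ i, 2 ≤ x.1 i * x.2 i := fun i => by
      have u1 := (hPmem i _ (hx1 i)).2.2.two_le
      have u2 := (hWmem _ (hx2 i)).1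
      nlinarith
    have e3 : ∀ i, x.1 i * x.2 i ≤ 2 ^ (3 * a) := fun i => by
      calc x.1 i * x.2 i ≤ 2 ^ (2 * a) * 2 ^ a :=
            Nat.mul_le_mul (hP2a i _ (hx1 i)) (le_trans (hWmem _ (hx2 i)).2.1 (Nat.pow_le_pow_right (by norm_num) hLa))
        _ = 2 ^ (3 * a) := by rw [← pow_add]; congr 1; ring
    have e4 : ∏ i, x.1 i * x.2 i ≤ 2 ^ C := by
      calc ∏ i, x.1 i * x.2 i ≤ ∏ _i : Fin r, 2 ^ (3 * a) := Finset.prod_le_prod' (fun i _ => e3 i)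
        _ = 2 ^ (3 * a * r) := by simp [pow_mul]
        _ ≤ 2 ^ C := Nat.pow_le_pow_right (by norm_num) hgC
    have e5 := sum_sub_le_prod Finset.univ (fun i => x.1 i * x.2 i) (fun i => by have := e2 i; omega)
    have e6 : ∑ i, x.1 i * x.2 i = ∑ i, (x.1 i * x.2 i - 1) + r := by
      have : ∑ i, x.1 i * x.2 i = ∑ i, (x.1 i * x.2 i - 1) + ∑ _i : Fin r, 1 := by
        rw [← Finset.sum_add_distrib]
        refine Finset.sum_congr rfl (fun i _ => ?_)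
        have := e2 i; omega
      simpa using this
    refine ⟨?_, ?_, ?_, ?_⟩
    · exact le_trans (Nat.le_add_left 1 _) e5
    · exact e4
    · refine le_trans ?_ e4
      exact le_trans (Nat.le_succ _) e5
    · refine ⟨Finset.univ.val.map (fun i => x.1 i * x.2 i), ?_, rfl, ?_⟩
      · intro b hb
        obtain ⟨i, -, rfl⟩ := Multiset.mem_map.mp hb
        exact ⟨e2 i, le_trans (e3 i) (Nat.pow_le_pow_right (by norm_num) h3aC)⟩
      · have c1 : (Finset.univ.val.map (fun i => x.1 i * x.2 i)).card = r := by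
          rw [Multiset.card_map]; exact Finset.card_fin r
        rw [c1]
        exact e6
  · refine le_trans ?_ hTs
    have w1 : ((1 : ℝ) / (8 * r)) ^ r ≤ ∏ i, ∑ p ∈ PP i, (1 : ℝ) / p := by
      calc ((1 : ℝ) / (8 * r)) ^ r = ∏ _i : Fin r, (1 : ℝ) / (8 * r) := by
            rw [Finset.prod_const, Finset.card_univ, Fintype.card_fin]
        _ ≤ _ := Finset.prod_le_prod (fun i _ => by positivity) (fun i _ => h2 i)
    have w3 : B ^ r ≤ (∑ w ∈ WW, (1 : ℝ) / w) ^ r := pow_le_pow_left₀ hB hBs r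
    have w4 : ((1 : ℝ) / (8 * r)) ^ r * B ^ r = (B / (8 * r)) ^ r := by
      rw [← mul_pow]
      congr 1
      ring
    have w6 := mul_le_mul w1 w3 (by positivity) (Finset.prod_nonneg (fun i _ => Finset.sum_nonneg (fun p _ => by positivity)))
    rw [w4] at w6
    linarith


theorem g103 : RowG10 := by
  obtain ⟨j₀, hj⟩ := PB20.pblock
  refine ⟨3 * (406 + 2 * j₀), by omega, fun r hr => ?_⟩
  have hρ : r < 2 ^ (Nat.log 2 r + 1) := Nat.lt_pow_succ_log_self (by norm_num) r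
  obtain ⟨ρ, hρd⟩ : ∃ ρ, ρ = Nat.log 2 r + 1 := ⟨_, rfl⟩
  rw [← hρd] at hρ ⊢
  have hρ1 : 1 ≤ ρ := by omega
  obtain ⟨d, hdd⟩ : ∃ d, d = 2 * ρ + 15 + j₀ := ⟨_, rfl⟩
  obtain ⟨g, hg⟩ : ∃ g, g = ρ * d + ρ + 388 + j₀ := ⟨_, rfl⟩
  obtain ⟨a, ha⟩ : ∃ a, a = r * g := ⟨_, rfl⟩
  have hg1 : 1 ≤ g := by omega
  have hga : g ≤ a := by rw [ha]; exact Nat.le_mul_of_pos_left g hr
  have hρ2 : ρ ≤ ρ ^ 2 := by nlinarith
  have hρ3 : 1 ≤ ρ ^ 2 := Nat.one_le_pow _ _ hρ1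
  have hgρ : ρ ^ 2 ≤ g := by rw [hg, hdd]; nlinarith
  have hgle : g ≤ (406 + 2 * j₀) * ρ ^ 2 := by
    have h2 : j₀ ≤ j₀ * ρ ^ 2 := Nat.le_mul_of_pos_right _ hρ3
    have h3 : j₀ * ρ ≤ j₀ * ρ ^ 2 := Nat.mul_le_mul_left _ hρ2
    have e : ρ * (2 * ρ + 15 + j₀) + ρ + 388 + j₀ = 2 * ρ ^ 2 + 16 * ρ + j₀ * ρ + 388 + j₀ := by ring
    have e' : (406 + 2 * j₀) * ρ ^ 2 = 406 * ρ ^ 2 + j₀ * ρ ^ 2 + j₀ * ρ ^ 2 := by ring
    rw [hg, hdd, e, e']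
    omega
  have hgC : 3 * a * r ≤ 3 * (406 + 2 * j₀) * r ^ 2 * ρ ^ 2 := by
    calc 3 * a * r = 3 * r ^ 2 * g := by rw [ha]; ring
      _ ≤ 3 * r ^ 2 * ((406 + 2 * j₀) * ρ ^ 2) := Nat.mul_le_mul_left _ hgle
      _ = _ := by ring
  have hd32 : 32 * (a + 1) ≤ 2 ^ d := by
    have q1 : ρ < 2 ^ ρ := Nat.lt_two_pow_self
    have q2 : ρ ^ 2 ≤ 2 * 2 ^ ρ := sq_le ρ
    have q3 : j₀ < 2 ^ j₀ := Nat.lt_two_pow_self
    have q4 : 1 ≤ 2 ^ ρ := Nat.one_le_two_pow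
    have q5 : g ≤ 2 ^ ρ * (408 + 2 * j₀) := by
      have e : ρ * (2 * ρ + 15 + j₀) + ρ + 388 + j₀ = 2 * ρ ^ 2 + 16 * ρ + j₀ * ρ + 388 + j₀ := by ring
      have e' : 2 ^ ρ * (408 + 2 * j₀) = 4 * 2 ^ ρ + 16 * 2 ^ ρ + j₀ * 2 ^ ρ + 388 * 2 ^ ρ + j₀ * 2 ^ ρ := by ring
      have h3 : j₀ * ρ ≤ j₀ * 2 ^ ρ := Nat.mul_le_mul_left _ q1.le
      have h4 : j₀ ≤ j₀ * 2 ^ ρ := Nat.le_mul_of_pos_right _ q4
      rw [hg, hdd, e, e']
      omega
    have q6 : a + 1 ≤ 2 ^ ρ * (2 ^ ρ * (409 + 2 * j₀)) := by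
      have h5 : r * g + 1 ≤ 2 ^ ρ * g + 2 ^ ρ := Nat.add_le_add (Nat.mul_le_mul_right g hρ.le) q4
      have h6 : 2 ^ ρ * g + 2 ^ ρ ≤ 2 ^ ρ * (2 ^ ρ * (408 + 2 * j₀)) + 2 ^ ρ * 2 ^ ρ :=
        Nat.add_le_add (Nat.mul_le_mul_left _ q5) (Nat.le_mul_of_pos_right _ q4)
      have h7 : 2 ^ ρ * (2 ^ ρ * (408 + 2 * j₀)) + 2 ^ ρ * 2 ^ ρ = 2 ^ ρ * (2 ^ ρ * (409 + 2 * j₀)) := by ring
      rw [ha]; omega
    have q7 : 32 * (409 + 2 * j₀) ≤ 32768 * 2 ^ j₀ := by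
      have : 1 ≤ 2 ^ j₀ := Nat.one_le_two_pow
      omega
    have e2 : 2 ^ d = 2 ^ ρ * (2 ^ ρ * (32768 * 2 ^ j₀)) := by
      rw [hdd, pow_add, pow_add, two_mul, pow_add]; norm_num; ring
    rw [e2]
    calc 32 * (a + 1) ≤ 32 * (2 ^ ρ * (2 ^ ρ * (409 + 2 * j₀))) := Nat.mul_le_mul_left _ q6
      _ = 2 ^ ρ * (2 ^ ρ * (32 * (409 + 2 * j₀))) := by ring
      _ ≤ _ := Nat.mul_le_mul_left _ (Nat.mul_le_mul_left _ q7)
  have hbadN : 16 * r * r ^ (d * r) ≤ 2 ^ a := by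
    rw [ha, hg]
    exact num1 r ρ d j₀ hr hρ.le
  have hsum := W54.sumW a d (by omega) hd32
  obtain ⟨T, h1, h2⟩ := fam j₀ hj r g d a a (3 * (406 + 2 * j₀) * r ^ 2 * ρ ^ 2) hr ha hg1 (by omega) le_rfl hbadN hgC
    ((a : ℝ) / 8) (by positivity) hsum
  refine ⟨T, h1, le_trans ?_ h2⟩
  have hrR : (0 : ℝ) < r := by exact_mod_cast hr
  have e3 : (a : ℝ) / 8 / (8 * r) = (g : ℝ) / 64 := by
    rw [ha]; push_cast; field_simp; norm_num
  rw [e3]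
  have e4 : ((ρ : ℕ) : ℝ) ^ 2 ≤ (g : ℝ) := by exact_mod_cast hgρ
  have e5 : ((ρ : ℝ) ^ 2 / 64) ^ r ≤ ((g : ℝ) / 64) ^ r := pow_le_pow_left₀ (by positivity) (by linarith) r
  linarith

end Pool.Agent.SPA.G103
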