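import Pool.Agent.SPA.Stmts8
import Pool.Agent.SPA.Co3
import Pool.Agent.SPA.C834
import Pool.Agent.SPA.PB20

/-!
# Row G8 (MP_7a4c99): the assembly of the family
-/

set_option autoImplicit false
set_option maxHeartbeats 1000000

namespace Pool.Agent.SPA.G820

open Finset

/-- the tuples that are thrown away -/
def Bad (r : ℕ) (V : Finset (Fin r → ℕ)) (x : (Fin r → ℕ) × (Fin r → ℕ)) : Prop :=
  ∃ w' ∈ V, w' ≠ x.2 ∧ ∏ i, w' i = ∏ i, x.2 i ∧ ∑ i, x.1 i * w' i = ∑ i, x.1 i * x.2 i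

open Classical in
theorem bad_le (r : ℕ) (PP : Fin r → Finset ℕ) (V : Finset (Fin r → ℕ)) (A s K : ℝ) (hA : 0 < A) (hs : 0 < s)
    (h1 : ∀ i, ∀ p ∈ PP i, A ≤ (p : ℝ)) (h2 : ∀ i, s ≤ ∑ p ∈ PP i, (1 : ℝ) / p)
    (hK : ∀ w ∈ V, ((V.filter (fun w' => ∏ i, w' i = ∏ i, w i)).card : ℝ) ≤ K) :
    ∑ x ∈ (Fintype.piFinset PP ×ˢ V).filter (Bad r V), (∏ i, (1 : ℝ) / x.1 i) * (∏ i, (1 : ℝ) / x.2 i) ≤
      K * (1 / (A * s) * ∏ i, ∑ p ∈ PP i, (1 : ℝ) / p) * ∑ w ∈ V, ∏ i, (1 : ℝ) / w i := by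
  rw [sum_filter, sum_product_right, mul_sum]
  refine sum_le_sum (fun w hw => ?_)
  obtain ⟨c, hc⟩ : ∃ c : ℝ, c = ∏ i, (1 : ℝ) / w i := ⟨_, rfl⟩
  obtain ⟨G, hG⟩ : ∃ G : ℝ, G = 1 / (A * s) * ∏ i, ∑ p ∈ PP i, (1 : ℝ) / p := ⟨_, rfl⟩
  have hc0 : 0 ≤ c := by rw [hc]; exact prod_nonneg (fun i _ => by positivity)
  have hG0 : 0 ≤ G := by
    rw [hG]
    refine mul_nonneg (by positivity) (prod_nonneg (fun i _ => sum_nonneg (fun p _ => by positivity)))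
  have hp0 : ∀ p : Fin r → ℕ, 0 ≤ (∏ i, (1 : ℝ) / p i) * c := fun p =>
    mul_nonneg (prod_nonneg (fun i _ => by positivity)) hc0
  simp only
  rw [← hc, ← hG]
  calc ∑ p ∈ Fintype.piFinset PP, (if Bad r V (p, w) then (∏ i, (1 : ℝ) / p i) * c else 0)
      ≤ ∑ p ∈ Fintype.piFinset PP, ∑ w' ∈ V.filter (fun w' => ∏ i, w' i = ∏ i, w i),
          (if w' ≠ w ∧ ∑ i, p i * w' i = ∑ i, p i * w i then (∏ i, (1 : ℝ) / p i) * c else 0) := by
        refine sum_le_sum (fun p _ => ?_)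
        by_cases hB : Bad r V (p, w)
        · rw [if_pos hB]
          obtain ⟨w', hw', hne, hP, hS⟩ := hB
          simp only at hne hP hS
          have h3 := single_le_sum (f := fun w' : Fin r → ℕ =>
            if w' ≠ w ∧ ∑ i, p i * w' i = ∑ i, p i * w i then (∏ i, (1 : ℝ) / p i) * c else 0)
            (s := V.filter (fun w' => ∏ i, w' i = ∏ i, w i))
            (fun v _ => by
              split_ifs
              · exact hp0 p
              · exact le_rfl) (mem_filter.mpr ⟨hw', hP⟩)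
          rw [if_pos ⟨hne, hS⟩] at h3
          exact h3
        · rw [if_neg hB]
          refine sum_nonneg (fun v _ => ?_)
          split_ifs
          · exact hp0 p
          · exact le_rfl
    _ = ∑ w' ∈ V.filter (fun w' => ∏ i, w' i = ∏ i, w i), ∑ p ∈ Fintype.piFinset PP,
          (if w' ≠ w ∧ ∑ i, p i * w' i = ∑ i, p i * w i then (∏ i, (1 : ℝ) / p i) * c else 0) := sum_comm
    _ ≤ ∑ w' ∈ V.filter (fun w' => ∏ i, w' i = ∏ i, w i), G * c := by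
        refine sum_le_sum (fun w' _ => ?_)
        by_cases hne : w' = w
        · refine le_trans (le_of_eq ?_) (mul_nonneg hG0 hc0)
          refine sum_eq_zero (fun p _ => ?_)
          rw [if_neg (fun h => h.1 hne)]
        · have h3 := G83.coll r PP A s hA hs h1 h2 w' w hne
          rw [← hG] at h3
          calc ∑ p ∈ Fintype.piFinset PP,
              (if w' ≠ w ∧ ∑ i, p i * w' i = ∑ i, p i * w i then (∏ i, (1 : ℝ) / p i) * c else 0)
              = (∑ p ∈ (Fintype.piFinset PP).filter (fun p => ∑ i, p i * w' i = ∑ i, p i * w i),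
                  ∏ i, (1 : ℝ) / p i) * c := by
                rw [sum_filter, sum_mul]
                refine sum_congr rfl (fun p _ => ?_)
                by_cases h4 : ∑ i, p i * w' i = ∑ i, p i * w i
                · rw [if_pos ⟨hne, h4⟩, if_pos h4]
                · rw [if_neg (fun h => h4 h.2), if_neg h4, zero_mul]
            _ ≤ G * c := mul_le_mul_of_nonneg_right h3 hc0
    _ = ((V.filter (fun w' => ∏ i, w' i = ∏ i, w i)).card : ℝ) * (G * c) := by rw [sum_const, nsmul_eq_mul]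
    _ ≤ K * (G * c) := mul_le_mul_of_nonneg_right (hK w hw) (mul_nonneg hG0 hc0)
    _ = K * G * c := by ring

theorem rd {r a g L : ℕ} (hLa : L ≤ a) {p p' w w' : Fin r → ℕ}
    (hp : ∀ i : Fin r, (p i).Prime ∧ 2 ^ (a + i * g) < p i ∧ p i ≤ 2 ^ (a + i * g + g))
    (hp' : ∀ i : Fin r, (p' i).Prime ∧ 2 ^ (a + i * g) < p' i ∧ p' i ≤ 2 ^ (a + i * g + g))
    (hw' : ∀ i, 1 ≤ w' i ∧ w' i ≤ 2 ^ L)
    (he : ∏ i, p i * w i = ∏ i, p' i * w' i) : p = p' ∧ ∏ i, w i = ∏ i, w' i := by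
  have key : ∀ i j : Fin r, (i : ℕ) < j → a + i * g + g ≤ a + j * g := by
    intro i j h
    have h1 : ((i : ℕ) + 1) * g ≤ j * g := Nat.mul_le_mul_right g h
    nlinarith
  have h1 : p = p' := by
    funext i
    have h2 : p i ∣ ∏ j, p' j * w' j := by
      rw [← he]
      exact (dvd_mul_right (p i) (w i)).trans (dvd_prod_of_mem (fun j => p j * w j) (mem_univ i))
    obtain ⟨j, -, hj⟩ := (Prime.dvd_finsetProd_iff (hp i).1.prime _).mp h2
    rcases (Nat.Prime.dvd_mul (hp i).1).mp hj with h3 | h3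
    · have h4 := (Nat.prime_dvd_prime_iff_eq (hp i).1 (hp' j).1).mp h3
      have h5 : i = j := by
        rcases lt_trichotomy (i : ℕ) j with h | h | h
        · exfalso
          have h6 := Nat.pow_le_pow_right (show 0 < 2 by norm_num) (key i j h)
          have h7 := (hp i).2.2
          have h8 := (hp' j).2.1
          omega
        · exact Fin.ext h
        · exfalso
          have h6 := Nat.pow_le_pow_right (show 0 < 2 by norm_num) (key j i h)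
          have h7 := (hp' j).2.2
          have h8 := (hp i).2.1
          omega
      subst h5
      exact h4
    · exfalso
      obtain ⟨h4, h5⟩ := hw' j
      have h6 := Nat.le_of_dvd (by omega) h3
      have h7 : 2 ^ L ≤ 2 ^ (a + i * g) := Nat.pow_le_pow_right (by norm_num) (by omega)
      have h8 := (hp i).2.1
      omega
  subst h1
  rw [prod_mul_distrib, prod_mul_distrib] at he
  exact ⟨rfl, Nat.eq_of_mul_eq_mul_left (prod_pos (fun i _ => (hp i).1.pos)) he⟩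

theorem sum_le_prod {ι : Type*} (s : Finset ι) (e : ι → ℕ) (he : ∀ i ∈ s, 1 ≤ e i) :
    ∑ i ∈ s, (e i - 1) + 1 ≤ ∏ i ∈ s, e i := by
  classical
  induction s using Finset.induction_on with
  | empty => simp
  | insert i s hi ih =>
    rw [sum_insert hi, prod_insert hi]
    have h1 := ih (fun j hj => he j (mem_insert_of_mem hj))
    have h2 := he i (mem_insert_self i s)
    obtain ⟨u, hu⟩ : ∃ u, e i = u + 1 := ⟨e i - 1, by omega⟩
    rw [hu]
    obtain ⟨Q, hQ⟩ : ∃ Q, Q = ∏ i ∈ s, e i := ⟨_, rfl⟩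
    rw [← hQ] at h1 ⊢
    have h3 : u * 1 ≤ u * Q := Nat.mul_le_mul_left u (by omega)
    have h4 : (u + 1) * Q = u * Q + Q := by ring
    omega

theorem len_prod {ι : Type*} (s : Finset ι) (w : ι → ℕ) (d : ℕ) (hw : ∀ i ∈ s, w i ≠ 0 ∧ (w i).primeFactorsList.length ≤ d) :
    (∏ i ∈ s, w i) ≠ 0 ∧ (∏ i ∈ s, w i).primeFactorsList.length ≤ s.card * d := by
  classical
  induction s using Finset.induction_on with
  | empty => simp
  | insert i s hi ih =>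
    obtain ⟨h1, h2⟩ := ih (fun j hj => hw j (mem_insert_of_mem hj))
    obtain ⟨h3, h4⟩ := hw i (mem_insert_self i s)
    rw [prod_insert hi, card_insert_of_notMem hi]
    refine ⟨mul_ne_zero h3 h1, ?_⟩
    rw [(Nat.perm_primeFactorsList_mul h3 h1).length_eq, List.length_append]
    nlinarith

/-- the parameters -/
theorem param (r ρ : ℕ) (hr : 1 ≤ r) (hρ : r ≤ 2 ^ ρ) : 32 * (384 * r + 1) ≤ 2 ^ (ρ + 14) := by
  rw [pow_add]
  omega

theorem g8_of (hSW : ∀ L d : ℕ, 1 ≤ L → 32 * (L + 1) ≤ 2 ^ d →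
    (L : ℝ) / 8 ≤ ∑ w ∈ (Icc (1 : ℕ) (2 ^ L)).filter (fun w : ℕ => w.primeFactorsList.length ≤ d),
      (1 : ℝ) / (w : ℝ)) : RowG8 := by
  classical
  obtain ⟨j₀, hj⟩ := PB20.pblock
  refine ⟨3 * (404 + j₀), by omega, fun r hr => ?_⟩
  obtain ⟨ρ, hρd⟩ : ∃ ρ, ρ = Nat.log 2 r + 1 := ⟨_, rfl⟩
  have hρ : r ≤ 2 ^ ρ := by
    rw [hρd]
    exact (Nat.lt_pow_succ_log_self (by norm_num) r).le
  have hρ1 : 1 ≤ ρ := by omega
  obtain ⟨d, hd⟩ : ∃ d, d = ρ + 14 := ⟨_, rfl⟩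
  obtain ⟨g, hg⟩ : ∃ g, g = ρ * d + ρ + 4 + 384 + j₀ := ⟨_, rfl⟩
  obtain ⟨a, ha⟩ : ∃ a, a = r * g := ⟨_, rfl⟩
  obtain ⟨L, hL⟩ : ∃ L, L = 384 * r := ⟨_, rfl⟩
  have hLa : L ≤ a := by
    rw [hL, ha, hg]
    nlinarith [Nat.zero_le (r * (ρ * d + ρ + 4 + j₀))]
  have hga : g ≤ a := by rw [ha]; exact Nat.le_mul_of_pos_left g (by omega)
  obtain ⟨WW, hWW⟩ : ∃ WW, WW = (Icc 1 (2 ^ L)).filter (fun w => w.primeFactorsList.length ≤ d) := ⟨_, rfl⟩
  have hWW1 : ∀ w ∈ WW, 1 ≤ w ∧ w ≤ 2 ^ L ∧ w.primeFactorsList.length ≤ d := by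
    intro w hw
    rw [hWW, mem_filter, mem_Icc] at hw
    exact ⟨hw.1.1, hw.1.2, hw.2⟩
  have hWsum : (48 : ℝ) * r ≤ ∑ w ∈ WW, (1 : ℝ) / w := by
    have h1 := hSW L d (by omega) (by rw [hL, hd]; exact param r ρ hr hρ)
    rw [← hWW, hL] at h1
    push_cast at h1
    linarith
  obtain ⟨PP, hPP⟩ : ∃ PP : Fin r → Finset ℕ,
      PP = fun i : Fin r => (Ioc (2 ^ (a + (i : ℕ) * g)) (2 ^ (a + (i : ℕ) * g + g))).filter Nat.Prime :=
    ⟨_, rfl⟩
  have hPP1 : ∀ i, ∀ p ∈ PP i, p.Prime ∧ 2 ^ (a + i * g) < p ∧ p ≤ 2 ^ (a + i * g + g) := by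
    intro i p hp
    rw [hPP] at hp
    simp only [mem_filter, mem_Ioc] at hp
    exact ⟨hp.2, hp.1.1, hp.1.2⟩
  have hrR : (1 : ℝ) ≤ r := by exact_mod_cast hr
  have hexp : ∀ i : Fin r, a + i * g + g ≤ 2 * (r * g) := by
    intro i
    have h1 : ((i : ℕ) + 1) * g ≤ r * g := Nat.mul_le_mul_right g i.isLt
    rw [ha]
    nlinarith
  have hg1 : 1 ≤ g := by omega
  have hPsum : ∀ i, 1 / (8 * (r : ℝ)) ≤ ∑ p ∈ PP i, (1 : ℝ) / p := by
    intro i
    have h1 := hj (a + i * g) g (by omega) hg1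
    rw [hPP]
    refine le_trans ?_ h1
    have h2 : ((a + i * g : ℕ) : ℝ) + g ≤ 2 * (r * g) := by exact_mod_cast hexp i
    have h3 : (0 : ℝ) < g := by exact_mod_cast hg1
    have h4 : (0 : ℝ) ≤ ((a + i * g : ℕ) : ℝ) := Nat.cast_nonneg _
    rw [div_le_div_iff₀ (by positivity) (by positivity)]
    nlinarith
  have hPA : ∀ i, ∀ p ∈ PP i, (2 : ℝ) ^ a ≤ (p : ℝ) := by
    intro i p hp
    have h1 := (hPP1 i p hp).2.1
    have h2 : 2 ^ a ≤ 2 ^ (a + i * g) := Nat.pow_le_pow_right (by norm_num) (by omega)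
    exact_mod_cast (by omega : 2 ^ a ≤ p)
  obtain ⟨V, hV⟩ : ∃ V, V = Fintype.piFinset (fun _ : Fin r => WW) := ⟨_, rfl⟩
  have hV1 : ∀ w ∈ V, ∀ i, w i ∈ WW := by
    intro w hw
    rw [hV] at hw
    exact Fintype.mem_piFinset.mp hw
  have hK : ∀ w ∈ V, ((V.filter (fun w' => ∏ i, w' i = ∏ i, w i)).card : ℝ) ≤ (r : ℝ) ^ (r * d) := by
    intro w hw
    obtain ⟨h1, h2⟩ := len_prod (univ : Finset (Fin r)) w d (fun i _ => by
      obtain ⟨h3, -, h4⟩ := hWW1 _ (hV1 w hw i)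
      exact ⟨by omega, h4⟩)
    rw [card_univ, Fintype.card_fin] at h2
    have h3 : V.filter (fun w' => ∏ i, w' i = ∏ i, w i) ⊆ Nat.finMulAntidiag r (∏ i, w i) := by
      intro w' hw'
      rw [mem_filter] at hw'
      rw [Nat.mem_finMulAntidiag]
      exact ⟨hw'.2, h1⟩
    have h4 := (card_le_card h3).trans ((C834.cardAnti r _ h1).trans (Nat.pow_le_pow_right hr h2))
    exact_mod_cast h4
  have hbad := bad_le r PP V (2 ^ a) (1 / (8 * r)) ((r : ℝ) ^ (r * d)) (by positivity) (by positivity) hPA hPsum hK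
  obtain ⟨X, hX⟩ : ∃ X : ℝ, X = ∏ i, ∑ p ∈ PP i, (1 : ℝ) / p := ⟨_, rfl⟩
  obtain ⟨Y, hY⟩ : ∃ Y : ℝ, Y = ∑ w ∈ V, ∏ i, (1 : ℝ) / w i := ⟨_, rfl⟩
  rw [← hX, ← hY] at hbad
  have hY2 : Y = ∏ _i : Fin r, ∑ w ∈ WW, (1 : ℝ) / w := by
    rw [hY, hV, prod_univ_sum]
  have hX2 : X = ∑ p ∈ Fintype.piFinset PP, ∏ i, (1 : ℝ) / p i := by
    rw [hX, prod_univ_sum]
  have hX0 : 0 ≤ X := by
    rw [hX]; exact prod_nonneg (fun i _ => sum_nonneg (fun p _ => by positivity))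
  have hY0 : 0 ≤ Y := by
    rw [hY]; exact sum_nonneg (fun w _ => prod_nonneg (fun p _ => by positivity))
  have hXY : (6 : ℝ) ^ r ≤ X * Y := by
    rw [hX, hY2, ← prod_mul_distrib]
    calc (6 : ℝ) ^ r = ∏ _i : Fin r, (6 : ℝ) := by simp
      _ ≤ _ := by
        refine prod_le_prod (fun i _ => by norm_num) (fun i _ => ?_)
        calc (6 : ℝ) = 1 / (8 * r) * (48 * r) := by field_simp; norm_num
          _ ≤ _ := mul_le_mul (hPsum i) hWsum (by positivity) (le_trans (by positivity) (hPsum i))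
  have hhalf : (r : ℝ) ^ (r * d) * (1 / (2 ^ a * (1 / (8 * r)))) ≤ 1 / 2 := by
    have h1 : 16 * r * r ^ (r * d) ≤ 2 ^ a := by
      calc 16 * r * r ^ (r * d) ≤ 2 ^ 4 * 2 ^ ρ * (2 ^ ρ) ^ (r * d) :=
            Nat.mul_le_mul (Nat.mul_le_mul (by norm_num) hρ) (Nat.pow_le_pow_left hρ _)
        _ = 2 ^ (4 + ρ + ρ * (r * d)) := by rw [← pow_mul, ← pow_add, ← pow_add]
        _ ≤ 2 ^ a := by
          refine Nat.pow_le_pow_right (by norm_num) ?_
          rw [ha, hg]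
          have h2 : r * (ρ * d + ρ + 4 + 384 + j₀) = ρ * (r * d) + r * (ρ + 4) + r * (384 + j₀) := by ring
          have h3 : 1 * (ρ + 4) ≤ r * (ρ + 4) := Nat.mul_le_mul_right _ hr
          omega
    have h2 : 16 * (r : ℝ) * (r : ℝ) ^ (r * d) ≤ 2 ^ a := by exact_mod_cast h1
    have h3 : (r : ℝ) ^ (r * d) * (1 / (2 ^ a * (1 / (8 * r)))) = 8 * r * (r : ℝ) ^ (r * d) / 2 ^ a := by
      field_simp
    rw [h3, div_le_div_iff₀ (by positivity) (by norm_num)]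
    linarith
  -- the family
  obtain ⟨Gd, hGd⟩ : ∃ Gd, Gd = (Fintype.piFinset PP ×ˢ V).filter (fun x => ¬ Bad r V x) := ⟨_, rfl⟩
  obtain ⟨F, hF⟩ : ∃ F : (Fin r → ℕ) × (Fin r → ℕ) → ℕ × ℕ,
      F = fun x => (∏ i, x.1 i * x.2 i, ∑ i, (x.1 i * x.2 i - 1)) := ⟨_, rfl⟩
  have hGd1 : ∀ x ∈ Gd, (∀ i, x.1 i ∈ PP i) ∧ (x.2 ∈ V) ∧ ¬ Bad r V x := by
    intro x hx
    rw [hGd, mem_filter, mem_product] at hx
    exact ⟨Fintype.mem_piFinset.mp hx.1.1, hx.1.2, hx.2⟩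
  have hent : ∀ x ∈ Gd, ∀ i, 2 ≤ x.1 i * x.2 i ∧ x.1 i * x.2 i ≤ 2 ^ (3 * (r * g)) := by
    intro x hx i
    obtain ⟨h1, h2, -⟩ := hGd1 x hx
    obtain ⟨h3, h4, h5⟩ := hPP1 i _ (h1 i)
    obtain ⟨h6, h7, -⟩ := hWW1 _ (hV1 _ h2 i)
    refine ⟨le_trans h3.two_le (Nat.le_mul_of_pos_right _ h6), ?_⟩
    calc x.1 i * x.2 i ≤ 2 ^ (a + i * g + g) * 2 ^ L := Nat.mul_le_mul h5 h7
      _ = 2 ^ (a + i * g + g + L) := by rw [← pow_add]
      _ ≤ 2 ^ (3 * (r * g)) := by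
        refine Nat.pow_le_pow_right (by norm_num) ?_
        have := hexp i
        have h8 : L ≤ r * g := by rw [← ha]; exact hLa
        omega
  have hsum : ∀ x ∈ Gd, ∑ i, x.1 i * x.2 i = ∑ i, (x.1 i * x.2 i - 1) + r := by
    intro x hx
    have h1 : ∑ i, x.1 i * x.2 i = ∑ i, ((x.1 i * x.2 i - 1) + 1) := by
      refine sum_congr rfl (fun i _ => ?_)
      have := (hent x hx i).1
      omega
    rw [h1, sum_add_distrib]
    simp
  have hinj : Set.InjOn F (Gd : Set ((Fin r → ℕ) × (Fin r → ℕ))) := by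
    intro x hx y hy hxy
    rw [mem_coe] at hx hy
    obtain ⟨h1, h2, h3⟩ := hGd1 x hx
    obtain ⟨k1, k2, k3⟩ := hGd1 y hy
    rw [hF] at hxy
    simp only [Prod.mk.injEq] at hxy
    obtain ⟨e1, e2⟩ := rd hLa (p := x.1) (p' := y.1) (w := x.2) (w' := y.2)
      (fun i => hPP1 i _ (h1 i)) (fun i => hPP1 i _ (k1 i))
      (fun i => ⟨(hWW1 _ (hV1 _ k2 i)).1, (hWW1 _ (hV1 _ k2 i)).2.1⟩) hxy.1
    have e3 : ∑ i, x.1 i * x.2 i = ∑ i, y.1 i * y.2 i := by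
      rw [hsum x hx, hsum y hy, hxy.2]
    by_cases e4 : y.2 = x.2
    · exact Prod.ext e1 e4.symm
    · exfalso
      refine h3 ⟨y.2, k2, e4, e2.symm, ?_⟩
      rw [e3, e1]
  have hE : 3 * r ^ 2 * g ≤ 3 * (404 + j₀) * r ^ 2 * (Nat.log 2 r + 1) ^ 2 := by
    rw [← hρd]
    have h1 : g ≤ (404 + j₀) * ρ ^ 2 := by
      rw [hg, hd]
      have h2 : ρ ≤ ρ ^ 2 := Nat.le_self_pow (by norm_num) ρ
      have h3 : 1 ≤ ρ ^ 2 := by omega
      have h4 : j₀ * 1 ≤ j₀ * ρ ^ 2 := Nat.mul_le_mul_left _ h3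
      nlinarith
    calc 3 * r ^ 2 * g ≤ 3 * r ^ 2 * ((404 + j₀) * ρ ^ 2) := Nat.mul_le_mul_left _ h1
      _ = _ := by ring
  have hE2 : 3 * (r * g) ≤ 3 * r ^ 2 * g := by
    have h1 : r ≤ r ^ 2 := Nat.le_self_pow (by norm_num) r
    calc 3 * (r * g) = 3 * r * g := by ring
      _ ≤ 3 * r ^ 2 * g := Nat.mul_le_mul_right g (Nat.mul_le_mul_left 3 h1)
  refine ⟨Gd.image F, ?_, ?_⟩
  · intro y hy
    obtain ⟨x, hx, rfl⟩ := mem_image.mp hy
    have h1 := hent x hx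
    have h2 := sum_le_prod (univ : Finset (Fin r)) (fun i => x.1 i * x.2 i) (fun i _ => le_trans (by norm_num) (h1 i).1)
    have h3 : ∏ i, x.1 i * x.2 i ≤ 2 ^ (3 * r ^ 2 * g) := by
      calc ∏ i, x.1 i * x.2 i ≤ ∏ _i : Fin r, 2 ^ (3 * (r * g)) :=
            prod_le_prod' (fun i _ => (h1 i).2)
        _ = 2 ^ (3 * r ^ 2 * g) := by
          rw [prod_const, card_univ, Fintype.card_fin, ← pow_mul]
          congr 1
          ring
    have h4 : 2 ^ (3 * r ^ 2 * g) ≤ 2 ^ (3 * (404 + j₀) * r ^ 2 * (Nat.log 2 r + 1) ^ 2) :=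
      Nat.pow_le_pow_right (by norm_num) hE
    rw [hF]
    simp only
    refine ⟨?_, h3.trans h4, ?_, univ.val.map (fun i => x.1 i * x.2 i), ?_, rfl, ?_⟩
    · exact Nat.one_le_iff_ne_zero.mpr (prod_ne_zero_iff.mpr (fun i _ => by have := (h1 i).1; omega))
    · omega
    · intro b hb
      obtain ⟨i, -, rfl⟩ := Multiset.mem_map.mp hb
      refine ⟨(h1 i).1, (h1 i).2.trans ?_⟩
      exact Nat.pow_le_pow_right (by norm_num) (hE2.trans hE)
    · rw [Multiset.card_map]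
      have h5 := hsum x hx
      have h6 : (univ : Finset (Fin r)).val.card = r := by
        rw [card_val, card_univ, Fintype.card_fin]
      rw [h6]
      exact h5
  · rw [sum_image hinj]
    have h1 : ∑ x ∈ Gd, (1 : ℝ) / (F x).1 = ∑ x ∈ Gd, (∏ i, (1 : ℝ) / x.1 i) * (∏ i, (1 : ℝ) / x.2 i) := by
      refine sum_congr rfl (fun x _ => ?_)
      rw [hF]
      simp only [one_div, Nat.cast_prod, Nat.cast_mul]
      rw [← prod_mul_distrib, ← prod_inv_distrib]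
      refine prod_congr rfl (fun i _ => ?_)
      rw [mul_inv]
    rw [h1]
    have h2 := sum_filter_add_sum_filter_not (Fintype.piFinset PP ×ˢ V) (Bad r V)
      (fun x => (∏ i, (1 : ℝ) / x.1 i) * (∏ i, (1 : ℝ) / x.2 i))
    rw [← hGd] at h2
    have h3 : ∑ x ∈ Fintype.piFinset PP ×ˢ V, (∏ i, (1 : ℝ) / x.1 i) * (∏ i, (1 : ℝ) / x.2 i) = X * Y := by
      rw [hX2, hY, sum_mul_sum, sum_product]
    rw [h3] at h2
    have h4 : (r : ℝ) ^ (r * d) * (1 / (2 ^ a * (1 / (8 * r))) * X) * Y ≤ 1 / 2 * (X * Y) := by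
      calc (r : ℝ) ^ (r * d) * (1 / (2 ^ a * (1 / (8 * r))) * X) * Y
          = ((r : ℝ) ^ (r * d) * (1 / (2 ^ a * (1 / (8 * r))))) * (X * Y) := by ring
        _ ≤ 1 / 2 * (X * Y) := mul_le_mul_of_nonneg_right hhalf (mul_nonneg hX0 hY0)
    have h5 : 2 * (3 : ℝ) ^ r ≤ 6 ^ r := by
      have h6 : (6 : ℝ) ^ r = 2 ^ r * 3 ^ r := by rw [← mul_pow]; norm_num
      have h7 : (2 : ℝ) ≤ 2 ^ r := by
        calc (2 : ℝ) = 2 ^ 1 := by norm_num
          _ ≤ 2 ^ r := pow_le_pow_right₀ (by norm_num) hr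
      rw [h6]
      exact mul_le_mul_of_nonneg_right h7 (by positivity)
    linarith

end Pool.Agent.SPA.G820
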