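import Pool.Agent.SPA.Stmts7
import Pool.Agent.SPA.PB20

/-!
# Row G6 (MP_7a4c99): the family with entries prime times small
-/

set_option autoImplicit false

namespace Pool.Agent.SPA.G620

open Finset

theorem harm (L : ℕ) : (L : ℝ) / 2 ≤ ∑ w ∈ Ioc (0 : ℕ) (2 ^ L : ℕ), (1 : ℝ) / (w : ℝ) := by
  induction L with
  | zero =>
    simp only [Nat.cast_zero, zero_div]
    exact sum_nonneg (fun w _ => by positivity)
  | succ L ih =>
    have h1 : 2 ^ L ≤ 2 ^ (L + 1) := Nat.pow_le_pow_right (by norm_num) (by omega)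
    rw [← sum_Ioc_consecutive _ (Nat.zero_le _) h1]
    have h2 : (1 : ℝ) / 2 ≤ ∑ w ∈ Ioc (2 ^ L : ℕ) (2 ^ (L + 1) : ℕ), (1 : ℝ) / (w : ℝ) := by
      have h3 : ∑ w ∈ Ioc (2 ^ L : ℕ) (2 ^ (L + 1) : ℕ), (1 : ℝ) / (2 ^ (L + 1) : ℝ) ≤
          ∑ w ∈ Ioc (2 ^ L : ℕ) (2 ^ (L + 1) : ℕ), (1 : ℝ) / (w : ℝ) := by
        refine sum_le_sum (fun w hw => ?_)
        obtain ⟨h4, h5⟩ := mem_Ioc.mp hw
        have h6 : (0 : ℝ) < w := by exact_mod_cast (by omega : 0 < w)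
        have h7 : (w : ℝ) ≤ 2 ^ (L + 1) := by exact_mod_cast h5
        exact one_div_le_one_div_of_le h6 h7
      refine le_trans (le_of_eq ?_) h3
      rw [sum_const, Nat.card_Ioc, nsmul_eq_mul]
      have h8 : 2 ^ (L + 1) - 2 ^ L = 2 ^ L := by rw [pow_succ]; omega
      rw [h8]
      push_cast
      rw [pow_succ]
      field_simp
    push_cast
    linarith

/-- the map of one step -/
def fm (x : (ℕ × ℕ) × (ℕ × ℕ)) : ℕ × ℕ := (x.1.1 * (x.2.1 * x.2.2), x.1.2 + x.2.1 * x.2.2 - 1)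

theorem fm_inj {a L P t p w P1 t1 p1 w1 : ℕ} (hL : L ≤ a)
    (hP : ∀ q : ℕ, q.Prime → q ∣ P1 → q ≤ 2 ^ a) (ht : t ≤ 2 ^ a) (ht1 : t1 ≤ 2 ^ a)
    (hp : p.Prime) (hpa : 2 ^ a < p) (hp1 : p1.Prime) (hw : 1 ≤ w) (hw1 : 1 ≤ w1) (hw1L : w1 ≤ 2 ^ L)
    (he1 : P * (p * w) = P1 * (p1 * w1)) (he2 : t + p * w = t1 + p1 * w1) :
    P = P1 ∧ t = t1 ∧ p = p1 ∧ w = w1 := by
  have h1 : p ∣ P1 * (p1 * w1) := by
    rw [← he1]
    exact Dvd.dvd.mul_left (dvd_mul_right p w) P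
  have hpp : p = p1 := by
    rcases (Nat.Prime.dvd_mul hp).mp h1 with h2 | h2
    · have := hP p hp h2
      omega
    · rcases (Nat.Prime.dvd_mul hp).mp h2 with h3 | h3
      · exact (Nat.prime_dvd_prime_iff_eq hp hp1).mp h3
      · have h4 := Nat.le_of_dvd (by omega) h3
        have h5 : 2 ^ L ≤ 2 ^ a := Nat.pow_le_pow_right (by norm_num) hL
        omega
  subst hpp
  have h6 : t = t1 := by
    have h7 : (t + p * w) % p = (t1 + p * w1) % p := by rw [he2]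
    rw [Nat.add_mul_mod_self_left, Nat.add_mul_mod_self_left, Nat.mod_eq_of_lt (by omega),
      Nat.mod_eq_of_lt (by omega)] at h7
    exact h7
  subst h6
  have h8 : w = w1 := Nat.eq_of_mul_eq_mul_left hp.pos (by omega)
  subst h8
  have h9 : 0 < p * w := Nat.mul_pos hp.pos (by omega)
  exact ⟨Nat.eq_of_mul_eq_mul_right h9 he1, rfl, rfl, rfl⟩

theorem family (j₀ : ℕ) (hj : ∀ a L : ℕ, j₀ ≤ a → 1 ≤ L →
    (L : ℝ) / (4 * ((a : ℝ) + L)) ≤ ∑ p ∈ (Ioc (2 ^ a) (2 ^ (a + L))).filter Nat.Prime, (1 : ℝ) / p)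
    (r L : ℕ) (hjL : j₀ ≤ L) (hL : 1 ≤ L) (hr : 1 ≤ r) (i : ℕ) : i ≤ r → ∃ T : Finset (ℕ × ℕ),
    (∀ p ∈ T, 1 ≤ p.1 ∧ p.1 ≤ 2 ^ (3 * i ^ 2 * L) ∧ p.2 + 1 ≤ 2 ^ (3 * i ^ 2 * L) ∧ p.2 ≤ 2 ^ ((3 * i + 1) * L) ∧
      (∀ q : ℕ, q.Prime → q ∣ p.1 → q ≤ 2 ^ ((3 * i + 1) * L)) ∧
      ∃ s : Multiset ℕ, (∀ a ∈ s, 2 ≤ a ∧ a ≤ 2 ^ (3 * r ^ 2 * L)) ∧ s.prod = p.1 ∧ s.sum = p.2 + s.card) ∧
    ((L : ℝ) / (24 * r)) ^ i ≤ ∑ p ∈ T, (1 : ℝ) / p.1 := by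
  induction i with
  | zero =>
    intro _
    refine ⟨{(1, 0)}, ?_, by simp⟩
    intro p hp
    rw [mem_singleton] at hp
    subst hp
    refine ⟨le_rfl, by simp, by simp, Nat.zero_le _, ?_, 0, by simp, by simp, by simp⟩
    intro q hq hq1
    exact absurd (Nat.dvd_one.mp hq1) hq.one_lt.ne'
  | succ i ih =>
    intro hi
    obtain ⟨T, hT, hsum⟩ := ih (by omega)
    set a := (3 * i + 1) * L with ha
    have hLa : L ≤ a := by rw [ha]; nlinarith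
    set S := T ×ˢ ((Ioc (2 ^ a) (2 ^ (a + L))).filter Nat.Prime ×ˢ Ioc 0 (2 ^ L)) with hS
    have hinj : Set.InjOn fm (S : Set ((ℕ × ℕ) × (ℕ × ℕ))) := by
      rintro ⟨⟨P, t⟩, p, w⟩ h ⟨⟨P1, t1⟩, p1, w1⟩ h1 he
      rw [mem_coe, hS, mem_product, mem_product, mem_filter, mem_Ioc, mem_Ioc] at h h1
      obtain ⟨hT1, ⟨⟨hp1, hp2⟩, hp3⟩, hw1, hw2⟩ := h
      obtain ⟨kT1, ⟨⟨kp1, kp2⟩, kp3⟩, kw1, kw2⟩ := h1
      simp only at hp1 hp2 hp3 hw1 hw2 kp1 kp2 kp3 kw1 kw2 hT1 kT1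
      simp only [fm, Prod.mk.injEq] at he
      have hpw : 1 ≤ p * w := Nat.mul_pos hp3.pos hw1
      have kpw : 1 ≤ p1 * w1 := Nat.mul_pos kp3.pos kw1
      obtain ⟨e1, e2, e3, e4⟩ := fm_inj hLa (hT _ kT1).2.2.2.2.1 (hT _ hT1).2.2.2.1 (hT _ kT1).2.2.2.1
        hp3 hp1 kp3 hw1 kw1 kw2 he.1 (by omega)
      simp only at e1 e2 e3 e4
      subst e1 e2 e3 e4
      rfl
    refine ⟨S.image fm, ?_, ?_⟩
    · intro x hx
      obtain ⟨⟨⟨P, t⟩, p, w⟩, h, rfl⟩ := mem_image.mp hx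
      rw [hS, mem_product, mem_product, mem_filter, mem_Ioc, mem_Ioc] at h
      obtain ⟨hT1, ⟨⟨hp1, hp2⟩, hp3⟩, hw1, hw2⟩ := h
      simp only at hp1 hp2 hp3 hw1 hw2 hT1
      obtain ⟨a1, a2, a3, a4, a5, s, a6, a7, a8⟩ := hT _ hT1
      simp only at a1 a2 a3 a4 a5 a7 a8
      simp only [fm]
      have hpw : 1 ≤ p * w := Nat.mul_pos hp3.pos hw1
      have hpw2 : 2 ≤ p * w := le_trans hp3.two_le (Nat.le_mul_of_pos_right p hw1)
      have hpwle : p * w ≤ 2 ^ (a + L) * 2 ^ L := Nat.mul_le_mul hp2 hw2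
      have e1 : 2 ^ (a + L) * 2 ^ L = 2 ^ ((3 * i + 3) * L) := by
        rw [← pow_add]; congr 1; rw [ha]; ring
      rw [e1] at hpwle
      have e2 : 2 ^ (3 * i ^ 2 * L) * 2 ^ ((3 * i + 3) * L) ≤ 2 ^ (3 * (i + 1) ^ 2 * L) := by
        rw [← pow_add]
        refine Nat.pow_le_pow_right (by norm_num) ?_
        nlinarith [Nat.zero_le (i * L)]
      have e3 : 2 ^ ((3 * i + 3) * L) ≤ 2 ^ ((3 * (i + 1) + 1) * L) := by
        refine Nat.pow_le_pow_right (by norm_num) ?_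
        nlinarith
      have e4 : 2 ^ ((3 * i + 3) * L) ≤ 2 ^ (3 * r ^ 2 * L) := by
        refine Nat.pow_le_pow_right (by norm_num) (Nat.mul_le_mul_right L ?_)
        nlinarith
      refine ⟨Nat.mul_pos a1 hpw, (Nat.mul_le_mul a2 hpwle).trans e2, ?_, ?_, ?_, (p * w) ::ₘ s, ?_, ?_, ?_⟩
      · have f1 : 1 ≤ 2 ^ (3 * i ^ 2 * L) := Nat.one_le_two_pow
        have f2 : 1 ≤ 2 ^ ((3 * i + 3) * L) := Nat.one_le_two_pow
        have f3 : 2 ^ (3 * i ^ 2 * L) + 2 ^ ((3 * i + 3) * L) ≤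
            2 ^ (3 * i ^ 2 * L) * 2 ^ ((3 * i + 3) * L) + 1 := by nlinarith
        omega
      · -- t bound
        have f1 : 2 ^ ((3 * (i + 1) + 1) * L) = 2 ^ ((3 * i + 3) * L) * 2 ^ L := by
          rw [← pow_add]; congr 1; ring
        have f2 : 2 ≤ 2 ^ L := by
          calc 2 = 2 ^ 1 := by norm_num
            _ ≤ 2 ^ L := Nat.pow_le_pow_right (by norm_num) hL
        have f3 : 2 ^ a ≤ 2 ^ ((3 * i + 3) * L) := by
          refine Nat.pow_le_pow_right (by norm_num) ?_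
          rw [ha]; nlinarith
        have f4 : 2 ^ ((3 * i + 3) * L) * 2 ≤ 2 ^ ((3 * i + 3) * L) * 2 ^ L := Nat.mul_le_mul_left _ f2
        rw [f1]
        omega
      · intro q hq hqd
        rcases (Nat.Prime.dvd_mul hq).mp hqd with h2 | h2
        · refine (a5 q hq h2).trans ?_
          refine Nat.pow_le_pow_right (by norm_num) ?_
          rw [ha]; nlinarith
        · exact (Nat.le_of_dvd hpw h2).trans (hpwle.trans e3)
      · intro b hb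
        rcases Multiset.mem_cons.mp hb with rfl | hb
        · exact ⟨hpw2, hpwle.trans e4⟩
        · exact a6 b hb
      · rw [Multiset.prod_cons, a7]; ring
      · rw [Multiset.sum_cons, a8, Multiset.card_cons]; omega
    · rw [sum_image hinj, hS, sum_product]
      have h1 : ∀ x ∈ T, ∑ y ∈ (Ioc (2 ^ a) (2 ^ (a + L))).filter Nat.Prime ×ˢ Ioc 0 (2 ^ L),
          (1 : ℝ) / (fm (x, y)).1 = ((1 : ℝ) / x.1) *
          ((∑ p ∈ (Ioc (2 ^ a) (2 ^ (a + L))).filter Nat.Prime, (1 : ℝ) / p) * ∑ w ∈ Ioc (0 : ℕ) (2 ^ L : ℕ), (1 : ℝ) / (w : ℝ)) := by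
        intro x _
        rw [sum_product, sum_mul_sum, mul_sum]
        refine sum_congr rfl (fun p _ => ?_)
        rw [mul_sum]
        refine sum_congr rfl (fun w _ => ?_)
        simp only [fm]
        push_cast
        rw [one_div_mul_one_div, one_div_mul_one_div]
      rw [sum_congr rfl h1, ← sum_mul]
      have hLR : (1 : ℝ) ≤ L := by exact_mod_cast hL
      have hrR : (1 : ℝ) ≤ r := by exact_mod_cast hr
      have hiR : (i : ℝ) + 1 ≤ r := by exact_mod_cast hi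
      have h2 := hj a L (by omega) hL
      have h3 := harm L
      have h4 : 1 / (12 * (r : ℝ)) ≤ (L : ℝ) / (4 * ((a : ℝ) + L)) := by
        have e1 : (a : ℝ) = (3 * i + 1) * L := by rw [ha]; push_cast; ring
        rw [e1, div_le_div_iff₀ (by positivity) (by positivity)]
        nlinarith [mul_nonneg (by linarith : (0 : ℝ) ≤ L) (by linarith : (0 : ℝ) ≤ r - (i + 1))]
      have h5 : (L : ℝ) / (24 * r) ≤ (∑ p ∈ (Ioc (2 ^ a) (2 ^ (a + L))).filter Nat.Prime, (1 : ℝ) / p) *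
          ∑ w ∈ Ioc (0 : ℕ) (2 ^ L : ℕ), (1 : ℝ) / (w : ℝ) := by
        have e1 : (L : ℝ) / (24 * r) = 1 / (12 * (r : ℝ)) * ((L : ℝ) / 2) := by field_simp; ring
        rw [e1]
        exact mul_le_mul (h4.trans h2) h3 (by positivity) (le_trans (by positivity) (h4.trans h2))
      rw [pow_succ]
      exact mul_le_mul hsum h5 (by positivity) (le_trans (by positivity) hsum)

theorem g6 : RowG6 := by
  obtain ⟨j₀, hj⟩ := PB20.pblock
  refine ⟨j₀, fun r L hjL hL hr => ?_⟩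
  obtain ⟨T, hT, hsum⟩ := family j₀ hj r L hjL hL hr r le_rfl
  refine ⟨T, fun p hp => ?_, hsum⟩
  obtain ⟨a1, a2, a3, -, -, s, a6, a7, a8⟩ := hT p hp
  exact ⟨a1, a2, by omega, s, a6, a7, a8⟩

end Pool.Agent.SPA.G620
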