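import Pool.Agent.SPA.Stmts7
import Pool.Agent.SPA.PB20
import Pool.Agent.SPM.Asm92a

/-!
# Row G6: the family with prime times small entries (helper46)
-/

set_option autoImplicit false

namespace Pool.Agent.SPA.G646

open Finset

/-- the primes of a block -/
def Pb (a L : ℕ) : Finset ℕ := (Ioc (2 ^ a) (2 ^ (a + L))).filter Nat.Prime

/-- invariants of the family -/
def Good (L i : ℕ) (T : Finset (ℕ × ℕ)) : Prop :=
  ∀ q ∈ T, 1 ≤ q.1 ∧ (∀ p : ℕ, p.Prime → p ∣ q.1 → p ≤ 2 ^ ((3 * i + 1) * L)) ∧ q.2 < 2 ^ ((3 * i + 1) * L) ∧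
    q.1 ≤ 2 ^ (3 * i ^ 2 * L) ∧ q.2 < 2 ^ (3 * i ^ 2 * L) ∧
    ∃ s : Multiset ℕ, (∀ a ∈ s, 2 ≤ a ∧ a ≤ 2 ^ (3 * i ^ 2 * L)) ∧ s.prod = q.1 ∧ s.sum = q.2 + s.card

/-- one more entry `p w` -/
def stp (T : Finset (ℕ × ℕ)) (a L : ℕ) : Finset (ℕ × ℕ) :=
  (T ×ˢ (Pb a L ×ˢ Icc 1 (2 ^ L))).image (fun q => (q.1.1 * q.2.1 * q.2.2, q.1.2 + q.2.1 * q.2.2 - 1))

lemma inj {a L : ℕ} (haL : L ≤ a) {P t p w P' t' p' w' : ℕ}
    (hP' : ∀ q : ℕ, q.Prime → q ∣ P' → q ≤ 2 ^ a) (ht : t < 2 ^ a) (ht' : t' < 2 ^ a)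
    (hp : p ∈ Pb a L) (hp' : p' ∈ Pb a L) (hw : w ∈ Icc 1 (2 ^ L)) (hw' : w' ∈ Icc 1 (2 ^ L))
    (h1 : P * p * w = P' * p' * w') (h2 : t + p * w - 1 = t' + p' * w' - 1) :
    P = P' ∧ t = t' ∧ p = p' ∧ w = w' := by
  simp only [Pb, mem_filter, mem_Ioc] at hp hp'
  rw [mem_Icc] at hw hw'
  obtain ⟨⟨hp1, hp2⟩, hpp⟩ := hp
  obtain ⟨⟨hp1', hp2'⟩, hpp'⟩ := hp'
  have hLa : 2 ^ L ≤ 2 ^ a := Nat.pow_le_pow_right (by norm_num) haL
  have hpeq : p = p' := by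
    have hd : p ∣ P' * p' * w' := by
      rw [← h1]
      exact (Dvd.intro_left P rfl).mul_right w
    rcases (hpp.dvd_mul).mp hd with h | h
    · rcases (hpp.dvd_mul).mp h with h | h
      · exact absurd (hP' p hpp h) (by omega)
      · exact (Nat.prime_dvd_prime_iff_eq hpp hpp').mp h
    · have := Nat.le_of_dvd (by omega) h
      omega
  subst hpeq
  have hpw : 0 < p * w := Nat.mul_pos hpp.pos (by omega)
  have hpw' : 0 < p * w' := Nat.mul_pos hpp.pos (by omega)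
  have h3 : t + p * w = t' + p * w' := by omega
  have h4 : t = t' := by
    have h5 : (t + p * w) % p = (t' + p * w') % p := by rw [h3]
    rw [Nat.add_mul_mod_self_left, Nat.add_mul_mod_self_left, Nat.mod_eq_of_lt (by omega),
      Nat.mod_eq_of_lt (by omega)] at h5
    exact h5
  subst h4
  have h5 : p * w = p * w' := by omega
  have h6 : w = w' := Nat.eq_of_mul_eq_mul_left hpp.pos h5
  subst h6
  have h7 : P * (p * w) = P' * (p * w) := by rw [← mul_assoc, ← mul_assoc]; exact h1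
  exact ⟨Nat.eq_of_mul_eq_mul_right hpw h7, rfl, rfl, rfl⟩

lemma stp_good {L i : ℕ} (hL : 1 ≤ L) {T : Finset (ℕ × ℕ)} (hT : Good L i T) :
    Good L (i + 1) (stp T ((3 * i + 1) * L) L) := by
  intro q hq
  obtain ⟨r, hr, rfl⟩ := mem_image.mp hq
  rw [mem_product, mem_product] at hr
  obtain ⟨hr1, hr2, hr3⟩ := hr
  obtain ⟨g1, g2, g3, g4, g5, s, g6, g7, g8⟩ := hT _ hr1
  simp only [Pb, mem_filter, mem_Ioc] at hr2
  obtain ⟨⟨hp1, hp2⟩, hpp⟩ := hr2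
  rw [mem_Icc] at hr3
  obtain ⟨hw1, hw2⟩ := hr3
  obtain ⟨a, ha⟩ : ∃ a, a = (3 * i + 1) * L := ⟨_, rfl⟩
  rw [← ha] at hp1 hp2 g2 g3
  have ha' : (3 * (i + 1) + 1) * L = a + 3 * L := by rw [ha]; ring
  have hpw : r.2.1 * r.2.2 ≤ 2 ^ (a + 2 * L) := by
    calc r.2.1 * r.2.2 ≤ 2 ^ (a + L) * 2 ^ L := Nat.mul_le_mul hp2 hw2
      _ = 2 ^ (a + 2 * L) := by rw [← pow_add]; congr 1; ring
  have hpw0 : 2 ≤ r.2.1 * r.2.2 := by
    calc 2 ≤ r.2.1 := hpp.two_le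
      _ = r.2.1 * 1 := (mul_one _).symm
      _ ≤ _ := Nat.mul_le_mul_left _ hw1
  have e1 : a + 2 * L ≤ a + 3 * L - 1 := by omega
  have hexp : a + 2 * L = (3 * i + 3) * L := by rw [ha]; ring
  have hexp2 : 3 * i ^ 2 * L + (a + 2 * L) ≤ 3 * (i + 1) ^ 2 * L := by
    rw [hexp]
    have : 3 * (i + 1) ^ 2 * L = 3 * i ^ 2 * L + (3 * i + 3) * L + 3 * i * L := by ring
    omega
  have hbig : r.2.1 * r.2.2 ≤ 2 ^ (3 * (i + 1) ^ 2 * L) :=
    hpw.trans (Nat.pow_le_pow_right (by norm_num) (by omega))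
  refine ⟨?_, ?_, ?_, ?_, ?_, (r.2.1 * r.2.2) ::ₘ s, ?_, ?_, ?_⟩
  · have : 0 < r.1.1 * r.2.1 * r.2.2 := Nat.mul_pos (Nat.mul_pos g1 hpp.pos) hw1
    exact this
  · intro p hp hd
    rw [ha']
    have h2a : 2 ^ a ≤ 2 ^ (a + 3 * L) := Nat.pow_le_pow_right (by norm_num) (by omega)
    rcases (hp.dvd_mul).mp hd with h | h
    · rcases (hp.dvd_mul).mp h with h | h
      · exact (g2 p hp h).trans h2a
      · have := (Nat.prime_dvd_prime_iff_eq hp hpp).mp h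
        rw [this]
        exact hp2.trans (Nat.pow_le_pow_right (by norm_num) (by omega))
    · exact ((Nat.le_of_dvd hw1 h).trans hw2).trans (Nat.pow_le_pow_right (by norm_num) (by omega))
  · rw [ha']
    have h1 : 2 ^ (a + 3 * L) = 2 ^ (a + 3 * L - 1) + 2 ^ (a + 3 * L - 1) := by
      rw [← two_mul, ← pow_succ']
      congr 1
      omega
    have h2 : 2 ^ a ≤ 2 ^ (a + 3 * L - 1) := Nat.pow_le_pow_right (by norm_num) (by omega)
    have h3 : 2 ^ (a + 2 * L) ≤ 2 ^ (a + 3 * L - 1) := Nat.pow_le_pow_right (by norm_num) (by omega)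
    show r.1.2 + r.2.1 * r.2.2 - 1 < 2 ^ (a + 3 * L)
    omega
  · show r.1.1 * r.2.1 * r.2.2 ≤ _
    calc r.1.1 * r.2.1 * r.2.2 = r.1.1 * (r.2.1 * r.2.2) := by ring
      _ ≤ 2 ^ (3 * i ^ 2 * L) * 2 ^ (a + 2 * L) := Nat.mul_le_mul g4 hpw
      _ = 2 ^ (3 * i ^ 2 * L + (a + 2 * L)) := by rw [← pow_add]
      _ ≤ _ := Nat.pow_le_pow_right (by norm_num) hexp2
  · show r.1.2 + r.2.1 * r.2.2 - 1 < _
    -- `A + B - 1 ≤ A B` for positive `A`, `B`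
    have hA : 1 ≤ 2 ^ (3 * i ^ 2 * L) := Nat.one_le_two_pow
    have hB : 1 ≤ 2 ^ (a + 2 * L) := Nat.one_le_two_pow
    have h1 : 2 ^ (3 * i ^ 2 * L) + 2 ^ (a + 2 * L) ≤ 2 ^ (3 * i ^ 2 * L) * 2 ^ (a + 2 * L) + 1 := by
      obtain ⟨A, hA'⟩ : ∃ A, 2 ^ (3 * i ^ 2 * L) = A + 1 := ⟨2 ^ (3 * i ^ 2 * L) - 1, by omega⟩
      obtain ⟨B, hB'⟩ : ∃ B, 2 ^ (a + 2 * L) = B + 1 := ⟨2 ^ (a + 2 * L) - 1, by omega⟩
      rw [hA', hB']
      nlinarith
    have h2 : 2 ^ (3 * i ^ 2 * L) * 2 ^ (a + 2 * L) ≤ 2 ^ (3 * (i + 1) ^ 2 * L) := by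
      rw [← pow_add]
      exact Nat.pow_le_pow_right (by norm_num) hexp2
    omega
  · intro b hb
    rw [Multiset.mem_cons] at hb
    rcases hb with rfl | hb
    · exact ⟨hpw0, hbig⟩
    · refine ⟨(g6 b hb).1, (g6 b hb).2.trans (Nat.pow_le_pow_right (by norm_num) (by omega))⟩
  · rw [Multiset.prod_cons, g7]
    show r.2.1 * r.2.2 * r.1.1 = r.1.1 * r.2.1 * r.2.2
    ring
  · rw [Multiset.sum_cons, Multiset.card_cons, g8]
    show r.2.1 * r.2.2 + (r.1.2 + Multiset.card s) = r.1.2 + r.2.1 * r.2.2 - 1 + (Multiset.card s + 1)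
    omega

lemma stp_sum {L i : ℕ} (hL : 1 ≤ L) {T : Finset (ℕ × ℕ)} (hT : Good L i T) :
    ∑ q ∈ stp T ((3 * i + 1) * L) L, (1 : ℝ) / q.1 =
      (∑ q ∈ T, (1 : ℝ) / q.1) * ((∑ p ∈ Pb ((3 * i + 1) * L) L, (1 : ℝ) / p) * ∑ w ∈ Icc (1 : ℕ) (2 ^ L), (1 : ℝ) / (w : ℕ)) := by
  unfold stp
  rw [sum_image]
  · rw [sum_product, sum_mul]
    apply sum_congr rfl
    intro q _
    rw [sum_product, sum_mul_sum, mul_sum]
    apply sum_congr rfl
    intro p _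
    rw [mul_sum]
    apply sum_congr rfl
    intro w _
    show (1 : ℝ) / ((q.1 * p * w : ℕ) : ℝ) = _
    push_cast
    rw [one_div, one_div, one_div, one_div, mul_inv, mul_inv, mul_assoc]
  · intro x hx y hy hxy
    simp only [coe_product, Set.mem_prod, mem_coe] at hx hy
    have h1 := (Prod.mk.injEq _ _ _ _).mp hxy
    obtain ⟨e1, e2, e3, e4⟩ := inj (L := L) (a := (3 * i + 1) * L) (by nlinarith)
      (hT _ hy.1).2.1 (hT _ hx.1).2.2.1 (hT _ hy.1).2.2.1 hx.2.1 hy.2.1 hx.2.2 hy.2.2 h1.1 h1.2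
    exact Prod.ext (Prod.ext e1 e2) (Prod.ext e3 e4)

lemma w_sum (L : ℕ) : (L : ℝ) * Real.log 2 ≤ ∑ w ∈ Icc (1 : ℕ) (2 ^ L), (1 : ℝ) / (w : ℕ) := by
  rw [Pool.Agent.SPM.sum_inv_Icc]
  refine le_trans ?_ (log_add_one_le_harmonic (2 ^ L))
  rw [← Real.log_pow]
  apply Real.log_le_log (by positivity)
  push_cast
  linarith

theorem g646 : RowG6 := by
  obtain ⟨j₀, hj⟩ := PB20.pblock
  refine ⟨j₀, fun r L hjL hL hr => ?_⟩
  have hr0 : (0 : ℝ) < r := by exact_mod_cast hr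
  have hL0 : (0 : ℝ) < L := by exact_mod_cast hL
  have key : ∀ i : ℕ, i ≤ r → ∃ T : Finset (ℕ × ℕ), Good L i T ∧
      ((L : ℝ) / (24 * r)) ^ i ≤ ∑ p ∈ T, (1 : ℝ) / p.1 := by
    intro i
    induction i with
    | zero =>
      intro _
      refine ⟨{(1, 0)}, ?_, ?_⟩
      · intro q hq
        rw [mem_singleton] at hq
        subst hq
        refine ⟨le_rfl, ?_, by positivity, by simp, by simp, 0, by simp, by simp, by simp⟩
        intro p hp hd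
        exact absurd (Nat.le_of_dvd one_pos hd) (by have := hp.two_le; omega)
      · simp
    | succ i ih =>
      intro hi
      obtain ⟨T, hT, hW⟩ := ih (by omega)
      refine ⟨stp T ((3 * i + 1) * L) L, stp_good hL hT, ?_⟩
      rw [stp_sum hL hT, pow_succ]
      have h1 := hj ((3 * i + 1) * L) L (by nlinarith) hL
      have h2 := w_sum L
      have hi' : (i : ℝ) + 1 ≤ r := by exact_mod_cast hi
      have h3 : (L : ℝ) / (24 * r) ≤ (∑ p ∈ Pb ((3 * i + 1) * L) L, (1 : ℝ) / p) *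
          ∑ w ∈ Icc (1 : ℕ) (2 ^ L), (1 : ℝ) / (w : ℕ) := by
        have h4 : (L : ℝ) / (4 * ((((3 * i + 1) * L : ℕ) : ℝ) + L)) = 1 / (4 * (3 * (i : ℝ) + 2)) := by
          push_cast
          field_simp
          ring
        rw [h4] at h1
        have h5 : 1 / (12 * (r : ℝ)) ≤ 1 / (4 * (3 * (i : ℝ) + 2)) := by
          apply one_div_le_one_div_of_le (by positivity)
          linarith
        have h6 : (0.69 : ℝ) * L ≤ ∑ w ∈ Icc (1 : ℕ) (2 ^ L), (1 : ℝ) / (w : ℕ) := by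
          have := Real.log_two_gt_d9
          nlinarith
        have h7 : (L : ℝ) / (24 * r) ≤ (1 / (12 * (r : ℝ))) * (0.69 * L) := by
          rw [div_mul_eq_mul_div, div_le_div_iff₀ (by positivity) (by positivity)]
          nlinarith [mul_pos hL0 hr0]
        refine h7.trans ?_
        apply mul_le_mul (h5.trans h1) h6 (by positivity)
        exact sum_nonneg fun _ _ => by positivity
      apply mul_le_mul hW h3 (by positivity)
      exact sum_nonneg fun _ _ => by positivity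
  obtain ⟨T, hT, hW⟩ := key r le_rfl
  refine ⟨T, fun p hp => ?_, hW⟩
  obtain ⟨g1, g2, g3, g4, g5, g6⟩ := hT p hp
  exact ⟨g1, g4, g5.le, g6⟩

end Pool.Agent.SPA.G646
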