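import Pool.Agent.SPA.Stmts

/-! Row G: the family of pairs (product, excess), with a number of scales that may grow. -/

set_option autoImplicit false

namespace Pool.Agent.SPA.G89

open Finset

/-- Pairs (product, excess) of multisets of entries between 2 and R, the product divisible by Q. -/
def Good (Q R : ℕ) (T : Finset (ℕ × ℕ)) : Prop :=
  ∀ p ∈ T, Q ∣ p.1 ∧ 1 ≤ p.1 ∧ p.1 ≤ R ∧ p.2 ≤ R ∧
    ∃ s : Multiset ℕ, (∀ a ∈ s, 2 ≤ a ∧ a ≤ R) ∧ s.prod = p.1 ∧ s.sum = p.2 + s.card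

/-- One more entry u in (U, U^2]. -/
def step (T : Finset (ℕ × ℕ)) (U : ℕ) : Finset (ℕ × ℕ) :=
  (T ×ˢ Ioc U (U ^ 2)).image (fun q => (q.1.1 * q.2, q.1.2 + q.2 - 1))

theorem step_inj {R U P P' t t' u u' : ℕ} (hRU : R ^ 2 ≤ U)
    (_hP : P ≤ R) (hP' : P' ≤ R) (hP1 : 1 ≤ P) (ht : t ≤ R) (ht' : t' ≤ R)
    (hu : U < u) (h1 : P * u = P' * u') (h2 : t + u = t' + u') :
    P = P' ∧ t = t' ∧ u = u' := by
  zify at *
  have hu'' : (u' : ℤ) = u + (t - t') := by linarith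
  rw [hu''] at h1
  have h3 : ((P : ℤ) - P') * u = P' * (t - t') := by linarith
  have hPP : (P : ℤ) = P' := by
    by_contra hne
    have h4 : (1 : ℤ) ≤ |(P : ℤ) - P'| := Int.one_le_abs (sub_ne_zero.mpr hne)
    have h5 : |((P : ℤ) - P') * u| = |(P : ℤ) - P'| * u := by
      rw [abs_mul, abs_of_nonneg (by positivity : (0 : ℤ) ≤ u)]
    have h6 : |(P' : ℤ) * (t - t')| = P' * |(t : ℤ) - t'| := by
      rw [abs_mul, abs_of_nonneg (by positivity : (0 : ℤ) ≤ P')]
    have h7 : |(t : ℤ) - t'| ≤ R := by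
      rw [abs_le]
      have := Int.natCast_nonneg t
      have := Int.natCast_nonneg t'
      constructor <;> linarith
    have h8 : (P' : ℤ) * |(t : ℤ) - t'| ≤ R * R := by
      apply mul_le_mul hP' h7 (abs_nonneg _) (by linarith [Int.natCast_nonneg P'])
    have h9 : (u : ℤ) ≤ |(P : ℤ) - P'| * u := by
      have := Int.natCast_nonneg u
      nlinarith
    rw [h3, h6] at h5
    nlinarith
  have htt : (t : ℤ) = t' := by
    rw [hPP, sub_self, zero_mul] at h3
    have hP0 : (P' : ℤ) ≠ 0 := by rw [← hPP]; linarith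
    rcases mul_eq_zero.mp h3.symm with h | h
    · exact absurd h hP0
    · linarith
  exact ⟨hPP, htt, by linarith⟩

theorem step_good {Q R U : ℕ} {T : Finset (ℕ × ℕ)} (hT : Good Q R T) (hU2 : 2 ≤ U)
    (hR : 1 ≤ R) : Good Q (R * U ^ 2) (step T U) := by
  intro p hp
  simp only [step, mem_image, mem_product, mem_Ioc, Prod.exists] at hp
  obtain ⟨P, t, u, ⟨⟨hPt, hu1, hu2⟩, rfl⟩⟩ := hp
  obtain ⟨h1, h2, h3, h4, m, hm1, hm2, hm3⟩ := hT _ hPt
  simp only at h1 h2 h3 h4 hm2 hm3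
  have hRle : R ≤ R * U ^ 2 := Nat.le_mul_of_pos_right _ (by positivity)
  have hUle : U ^ 2 ≤ R * U ^ 2 := Nat.le_mul_of_pos_left _ (by omega)
  refine ⟨Dvd.dvd.mul_right h1 _, Nat.mul_pos h2 (by omega), Nat.mul_le_mul h3 hu2, ?_,
    u ::ₘ m, ?_, ?_, ?_⟩
  · have : R + U ^ 2 ≤ R * U ^ 2 + 1 := by nlinarith [Nat.pow_le_pow_left hU2 2]
    simp only
    omega
  · intro a ha
    rcases Multiset.mem_cons.mp ha with rfl | ha
    · exact ⟨by omega, hu2.trans hUle⟩
    · exact ⟨(hm1 a ha).1, (hm1 a ha).2.trans hRle⟩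
  · simp [hm2, mul_comm]
  · simp only [Multiset.sum_cons, hm3, Multiset.card_cons]
    omega

theorem step_sum {Q R U : ℕ} {T : Finset (ℕ × ℕ)} (hT : Good Q R T) (hRU : R ^ 2 ≤ U) :
    ∑ p ∈ step T U, (1 : ℝ) / (p.1 : ℝ) =
      (∑ p ∈ T, (1 : ℝ) / (p.1 : ℝ)) * ∑ u ∈ Ioc U (U ^ 2), (1 : ℝ) / (u : ℝ) := by
  rw [step, sum_image, sum_product, sum_mul]
  · apply sum_congr rfl
    intro p _
    rw [mul_sum]
    apply sum_congr rfl
    intro u _
    push_cast
    rw [one_div_mul_one_div]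
  · rintro ⟨⟨P, t⟩, u⟩ h ⟨⟨P', t'⟩, u'⟩ h' he
    simp only [coe_product, Set.mem_prod, mem_coe, mem_Ioc] at h h'
    simp only [Prod.mk.injEq] at he
    obtain ⟨a1, a2, a3, a4, -⟩ := hT _ h.1
    obtain ⟨b1, b2, b3, b4, -⟩ := hT _ h'.1
    simp only at a1 a2 a3 a4 b1 b2 b3 b4
    have := step_inj hRU a3 b3 a2 a4 b4 h.2.1 he.1 (by omega)
    simp [this]

theorem sum_Ioc_ge {U : ℕ} (hU : 2 ≤ U) :
    Real.log U / 2 ≤ ∑ u ∈ Ioc U (U ^ 2), (1 : ℝ) / (u : ℝ) := by
  have h1 : ∀ n : ℕ, U ≤ n →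
      Real.log ((n : ℝ) + 1) - Real.log ((U : ℝ) + 1) ≤ ∑ u ∈ Ioc U n, (1 : ℝ) / (u : ℝ) := by
    intro n hn
    induction n, hn using Nat.le_induction with
    | base => simp
    | succ n hn ih =>
      have hI : Ioc U (n + 1) = insert (n + 1) (Ioc U n) := by
        ext a
        simp only [mem_Ioc, mem_insert]
        omega
      rw [hI, sum_insert (by simp)]
      have hn0 : (0 : ℝ) < (n : ℝ) + 1 := by positivity
      have h2 : Real.log ((n : ℝ) + 1 + 1) - Real.log ((n : ℝ) + 1) ≤ 1 / ((n : ℝ) + 1) := by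
        rw [← Real.log_div (by positivity) (by positivity)]
        have := Real.log_le_sub_one_of_pos (x := ((n : ℝ) + 1 + 1) / ((n : ℝ) + 1)) (by positivity)
        have h3 : ((n : ℝ) + 1 + 1) / ((n : ℝ) + 1) - 1 = 1 / ((n : ℝ) + 1) := by
          field_simp
          ring
        linarith
      push_cast
      linarith
  have h2 := h1 (U ^ 2) (by nlinarith)
  have hUr : (2 : ℝ) ≤ U := by exact_mod_cast hU
  refine le_trans ?_ h2
  have h3 : Real.log U / 2 = Real.log (Real.sqrt U) := by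
    rw [Real.log_sqrt (by positivity)]
  rw [h3, ← Real.log_div (by positivity) (by positivity)]
  apply Real.log_le_log (Real.sqrt_pos.mpr (by positivity))
  rw [le_div_iff₀ (by positivity)]
  push_cast
  have hs : Real.sqrt U * Real.sqrt U = U := Real.mul_self_sqrt (by positivity)
  have hs2 : Real.sqrt 2 ≤ Real.sqrt U := Real.sqrt_le_sqrt hUr
  have h14 : 1.41 < Real.sqrt 2 := by
    rw [show (1.41 : ℝ) = Real.sqrt (1.41 ^ 2) by rw [Real.sqrt_sq]; norm_num]
    apply Real.sqrt_lt_sqrt <;> norm_num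
  set s := Real.sqrt U with hsdef
  rw [← hs]
  have h15 : 1.41 ≤ s := by linarith
  have h16 : 0 ≤ s * (s - 1.41) := mul_nonneg (by linarith) (by linarith)
  have h17 : 0 ≤ s ^ 2 * (s * (s - 1.41)) := mul_nonneg (by positivity) h16
  have h18 : 0 ≤ s ^ 3 * (s - 1.41) := by nlinarith
  nlinarith [mul_nonneg (by positivity : (0 : ℝ) ≤ s) (sub_nonneg.mpr h15),
    mul_nonneg (by positivity : (0 : ℝ) ≤ s ^ 2) (sub_nonneg.mpr h15)]

theorem family {Q y : ℕ} (hQ : 2 ≤ Q) (hQy : Q ≤ y) (hy : 4 ≤ y) (n : ℕ) :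
    ∃ T : Finset (ℕ × ℕ), Good Q (y ^ 5 ^ n) T ∧
      (Real.log y / 2) ^ n / Q ≤ ∑ p ∈ T, (1 : ℝ) / (p.1 : ℝ) := by
  induction n with
  | zero =>
    refine ⟨{(Q, Q - 1)}, ?_, by simp⟩
    intro p hp
    rw [mem_singleton] at hp
    subst hp
    have h5 : y ^ 5 ^ 0 = y := by simp
    rw [h5]
    refine ⟨dvd_rfl, by simp only; omega, hQy, by simp only; omega, {Q}, ?_, by simp, ?_⟩
    · intro a ha
      rw [Multiset.mem_singleton] at ha
      subst ha
      exact ⟨hQ, hQy⟩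
    · simp only [Multiset.sum_singleton, Multiset.card_singleton]
      omega
  | succ n ih =>
    obtain ⟨T, hT, hW⟩ := ih
    set R := y ^ 5 ^ n with hR
    have hyR : y ≤ R := Nat.le_self_pow (by positivity) y
    have hR5 : y ^ 5 ^ (n + 1) = R * (R ^ 2) ^ 2 := by
      rw [pow_succ, pow_mul, ← hR]
      ring
    rw [hR5]
    have hU2 : 2 ≤ R ^ 2 := by nlinarith
    refine ⟨step T (R ^ 2), step_good hT hU2 (by omega), ?_⟩
    rw [step_sum hT le_rfl]
    have h1 := sum_Ioc_ge hU2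
    have hyr : (4 : ℝ) ≤ (y : ℝ) := by exact_mod_cast hy
    have h2 : Real.log y / 2 ≤ Real.log ((R ^ 2 : ℕ) : ℝ) / 2 := by
      have h3 : (y : ℝ) ≤ ((R ^ 2 : ℕ) : ℝ) := by
        have : y ≤ R ^ 2 := by nlinarith
        exact_mod_cast this
      have := Real.log_le_log (by linarith : (0 : ℝ) < y) h3
      linarith
    have h3 : 0 ≤ Real.log y / 2 := by
      have := Real.log_nonneg (by linarith : (1 : ℝ) ≤ y)
      linarith
    calc (Real.log y / 2) ^ (n + 1) / Q = (Real.log y / 2) ^ n / Q * (Real.log y / 2) := by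
          rw [pow_succ]; ring
      _ ≤ _ := mul_le_mul hW (h2.trans h1) h3 (sum_nonneg fun p _ => by positivity)

end Pool.Agent.SPA.G89

namespace Pool.Agent.SPA

/-- Row G. -/
theorem g : RowG := by
  intro r Q y hQ hQy hy
  exact G89.family hQ hQy hy r

end Pool.Agent.SPA
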