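import Pool.Agent.SPA.Stmts10

/-!
# Row GL: sums over multisets
-/

set_option autoImplicit false

namespace Pool.Agent.SPA

open Finset

theorem gl77 : RowGL := by
  classical
  intro N g
  induction N with
  | zero =>
    intro X _ hX
    have hsub : X ⊆ {0} := by
      intro s hs
      rw [Finset.mem_singleton]
      rcases Multiset.empty_or_exists_mem s with h | ⟨a, ha⟩
      · exact h
      · have := hX s hs a ha
        omega
    calc ∑ s ∈ X, (s.map g).prod ≤ ∑ s ∈ ({0} : Finset (Multiset ℕ)), (s.map g).prod := by
          apply Finset.sum_le_sum_of_subset_of_nonneg hsub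
          intro s hs _
          rw [Finset.mem_singleton] at hs
          subst hs
          simp
      _ = 1 := by simp
      _ = ∏ n ∈ Icc 2 0, (1 - g n)⁻¹ := by simp
      _ ≤ _ := le_rfl
  | succ N ih =>
    intro X hg hX
    rcases Nat.eq_zero_or_pos N with rfl | hN
    · have h1 := ih X (fun n h1 h2 => by omega) (fun s hs e he => by have := hX s hs e he; omega)
      simpa using h1
    · have hgN : ∀ n, 2 ≤ n → n ≤ N → 0 ≤ g n ∧ g n ≤ 1 / 2 := fun n h1 h2 => hg n h1 (by omega)
      obtain ⟨g0, g1⟩ := hg (N + 1) (by omega) le_rfl
      set P := ∏ n ∈ Icc 2 N, (1 - g n)⁻¹ with hP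
      have hprod : ∏ n ∈ Icc 2 (N + 1), (1 - g n)⁻¹ = P * (1 - g (N + 1))⁻¹ := by
        rw [Finset.prod_Icc_succ_top (by omega)]
      rw [hprod]
      set P' := P * (1 - g (N + 1))⁻¹ with hP'
      have hne : (1 : ℝ) - g (N + 1) ≠ 0 := by linarith
      have hPpos : 0 ≤ P := by
        apply Finset.prod_nonneg
        intro n hn
        rw [Finset.mem_Icc] at hn
        have := hgN n hn.1 hn.2
        exact inv_nonneg.2 (by linarith)
      have hP'pos : 0 ≤ P' := mul_nonneg hPpos (inv_nonneg.2 (by linarith))
      have hrec : P + g (N + 1) * P' = P' := by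
        rw [hP']
        field_simp
        ring
      have key : ∀ D : ℕ, ∀ Y : Finset (Multiset ℕ), (∀ s ∈ Y, s.card ≤ D) →
          (∀ s ∈ Y, ∀ e ∈ s, 2 ≤ e ∧ e ≤ N + 1) → ∑ s ∈ Y, (s.map g).prod ≤ P' := by
        intro D
        induction D with
        | zero =>
          intro Y hD _
          have hsub : Y ⊆ {0} := by
            intro s hs
            rw [Finset.mem_singleton]
            exact Multiset.card_eq_zero.1 (Nat.le_zero.1 (hD s hs))
          have h1 : (1 : ℝ) ≤ P' := by
            have h2 : ∀ n ∈ Icc 2 N, (1 : ℝ) ≤ (1 - g n)⁻¹ := by
              intro n hn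
              rw [Finset.mem_Icc] at hn
              have := hgN n hn.1 hn.2
              exact (one_le_inv₀ (by linarith)).2 (by linarith)
            have h3 : (1 : ℝ) ≤ P := by
              rw [hP]
              calc (1 : ℝ) = ∏ _n ∈ Icc 2 N, (1 : ℝ) := by simp
                _ ≤ _ := Finset.prod_le_prod (fun _ _ => by norm_num) h2
            have h4 : (1 : ℝ) ≤ (1 - g (N + 1))⁻¹ := (one_le_inv₀ (by linarith)).2 (by linarith)
            calc (1 : ℝ) = 1 * 1 := by norm_num
              _ ≤ P * (1 - g (N + 1))⁻¹ := mul_le_mul h3 h4 (by norm_num) hPpos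
          calc ∑ s ∈ Y, (s.map g).prod ≤ ∑ s ∈ ({0} : Finset (Multiset ℕ)), (s.map g).prod := by
                apply Finset.sum_le_sum_of_subset_of_nonneg hsub
                intro s hs _
                rw [Finset.mem_singleton] at hs
                subst hs
                simp
            _ = 1 := by simp
            _ ≤ P' := h1
        | succ D ihD =>
          intro Y hD hY
          rw [← Finset.sum_filter_add_sum_filter_not Y (fun s => (N + 1) ∉ s)]
          have h0 : ∑ s ∈ Y.filter (fun s => (N + 1) ∉ s), (s.map g).prod ≤ P := by
            apply ih _ hgN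
            intro s hs e he
            rw [Finset.mem_filter] at hs
            have h1 := hY s hs.1 e he
            have h2 : e ≠ N + 1 := fun h => hs.2 (h ▸ he)
            omega
          have h1 : ∑ s ∈ Y.filter (fun s => ¬ (N + 1) ∉ s), (s.map g).prod ≤ g (N + 1) * P' := by
            set Z := Y.filter (fun s => ¬ (N + 1) ∉ s) with hZ
            have hmem : ∀ s ∈ Z, (N + 1) ∈ s := by
              intro s hs
              rw [hZ, Finset.mem_filter] at hs
              exact not_not.1 hs.2
            have hinj : Set.InjOn (fun s : Multiset ℕ => s.erase (N + 1)) (Z : Set (Multiset ℕ)) := by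
              intro s hs t ht hst
              have e1 := Multiset.cons_erase (hmem s (by exact_mod_cast hs))
              have e2 := Multiset.cons_erase (hmem t (by exact_mod_cast ht))
              have hst' : s.erase (N + 1) = t.erase (N + 1) := hst
              rw [← e1, ← e2, hst']
            have hval : ∀ s ∈ Z, (s.map g).prod = g (N + 1) * ((s.erase (N + 1)).map g).prod := by
              intro s hs
              conv_lhs => rw [← Multiset.cons_erase (hmem s hs)]
              rw [Multiset.map_cons, Multiset.prod_cons]
            rw [Finset.sum_congr rfl hval, ← Finset.mul_sum]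
            apply mul_le_mul_of_nonneg_left _ g0
            have himg : ∑ s ∈ Z, ((s.erase (N + 1)).map g).prod =
                ∑ t ∈ Z.image (fun s : Multiset ℕ => s.erase (N + 1)), (t.map g).prod := by
              rw [Finset.sum_image]
              intro s hs t ht hst
              exact hinj hs ht hst
            rw [himg]
            apply ihD
            · intro t ht
              rw [Finset.mem_image] at ht
              obtain ⟨s, hs, rfl⟩ := ht
              have h2 : s ∈ Y := (Finset.mem_filter.1 hs).1
              have h3 := hD s h2
              rw [Multiset.card_erase_of_mem (hmem s hs), Nat.pred_eq_sub_one]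
              omega
            · intro t ht e he
              rw [Finset.mem_image] at ht
              obtain ⟨s, hs, rfl⟩ := ht
              exact hY s (Finset.mem_filter.1 hs).1 e (Multiset.mem_of_mem_erase he)
          linarith
      exact key (X.sup Multiset.card) X (fun s hs => Finset.le_sup (f := Multiset.card) hs) hX

end Pool.Agent.SPA
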