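import Pool.Agent.SPA.Stmts10

/-!
# MP_7a4c99_nt: row GP (helper17)
-/

set_option autoImplicit false

namespace Pool.Agent.SPA

open Finset

theorem inv_le_exp17 {t : ℝ} (h0 : 0 ≤ t) (h1 : t ≤ 1 / 2) : (1 - t)⁻¹ ≤ Real.exp (t + 2 * t ^ 2) := by
  have h2 : t + 2 * t ^ 2 + 1 ≤ Real.exp (t + 2 * t ^ 2) := Real.add_one_le_exp _
  refine le_trans ?_ h2
  rw [inv_le_iff_one_le_mul₀ (by linarith)]
  nlinarith [mul_nonneg (sq_nonneg t) (by linarith : (0 : ℝ) ≤ 1 - 2 * t)]

theorem prod_map_div17 (h : ℕ → ℝ) (l : List ℕ) :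
    (l.map (fun p => h p / (p : ℝ))).prod = (l.map h).prod / ((l.prod : ℕ) : ℝ) := by
  induction l with
  | nil => simp
  | cons a l ih =>
    rw [List.map_cons, List.prod_cons, ih, List.map_cons, List.prod_cons, List.prod_cons, Nat.cast_mul, div_mul_div_comm]

theorem gp17 (hGL : RowGL) : RowGP := by
  intro y h X hh hX
  classical
  set g : ℕ → ℝ := fun n => if n.Prime ∧ n ≤ y then h n / n else 0 with hg
  have hinj : Set.InjOn (fun Q : ℕ => (Q.primeFactorsList : Multiset ℕ)) X := by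
    intro Q hQ R hR hQR
    have h1 : ((Q.primeFactorsList : Multiset ℕ)).prod = ((R.primeFactorsList : Multiset ℕ)).prod := by
      simp only at hQR
      rw [hQR]
    rw [Multiset.prod_coe, Multiset.prod_coe, Nat.prod_primeFactorsList (hX Q hQ).1,
      Nat.prod_primeFactorsList (hX R hR).1] at h1
    exact h1
  have hbound : ∀ n, 2 ≤ n → n ≤ y → 0 ≤ g n ∧ g n ≤ 1 / 2 := by
    intro n _ hn
    simp only [hg]
    split_ifs with hp
    · exact ⟨div_nonneg (hh n hp.1 hn).1 (Nat.cast_nonneg _), (hh n hp.1 hn).2⟩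
    · exact ⟨le_rfl, by norm_num⟩
  have hent : ∀ s ∈ X.image (fun Q : ℕ => (Q.primeFactorsList : Multiset ℕ)), ∀ e ∈ s, 2 ≤ e ∧ e ≤ y := by
    intro s hs e he
    obtain ⟨Q, hQ, rfl⟩ := mem_image.1 hs
    have he' : e ∈ Q.primeFactorsList := Multiset.mem_coe.1 he
    exact ⟨(Nat.prime_of_mem_primeFactorsList he').two_le, (hX Q hQ).2 e he'⟩
  have key := hGL y g (X.image (fun Q : ℕ => (Q.primeFactorsList : Multiset ℕ))) hbound hent
  rw [Finset.sum_image hinj] at key
  have hsum : ∑ Q ∈ X, (Multiset.map g (Q.primeFactorsList : Multiset ℕ)).prod =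
      ∑ Q ∈ X, (Q.primeFactorsList.map h).prod / (Q : ℝ) := by
    refine Finset.sum_congr rfl fun Q hQ => ?_
    rw [Multiset.map_coe, Multiset.prod_coe]
    have e1 : Q.primeFactorsList.map g = Q.primeFactorsList.map (fun p => h p / (p : ℝ)) := by
      refine List.map_congr_left fun p hp => ?_
      simp only [hg]
      rw [if_pos ⟨Nat.prime_of_mem_primeFactorsList hp, (hX Q hQ).2 p hp⟩]
    rw [e1, prod_map_div17, Nat.prod_primeFactorsList (hX Q hQ).1]
  rw [hsum] at key
  refine key.trans ?_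
  rw [Real.exp_sum]
  have hfil : (Icc 1 y).filter Nat.Prime = (Icc 2 y).filter Nat.Prime := by
    ext p
    simp only [mem_filter, mem_Icc]
    constructor
    · rintro ⟨⟨_, h2⟩, hp⟩
      exact ⟨⟨hp.two_le, h2⟩, hp⟩
    · rintro ⟨⟨h1, h2⟩, hp⟩
      exact ⟨⟨by omega, h2⟩, hp⟩
  rw [hfil, Finset.prod_filter]
  refine Finset.prod_le_prod (fun n hn => ?_) fun n hn => ?_
  · obtain ⟨h1, h2⟩ := mem_Icc.1 hn
    have := hbound n h1 h2
    exact inv_nonneg.2 (by linarith)
  · obtain ⟨h1, h2⟩ := mem_Icc.1 hn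
    by_cases hp : n.Prime
    · rw [if_pos hp]
      have e1 : g n = h n / n := by
        simp only [hg]
        rw [if_pos ⟨hp, h2⟩]
      have := hbound n h1 h2
      rw [e1] at this ⊢
      exact inv_le_exp17 this.1 this.2
    · rw [if_neg hp]
      have e1 : g n = 0 := by
        simp only [hg]
        rw [if_neg (fun hh => hp hh.1)]
      rw [e1]
      simp

end Pool.Agent.SPA
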