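import Pool.Agent.SPA.Stmts2

/-!
# Final assembly, first part: Chebyshev and the mean
-/

set_option autoImplicit false

namespace Pool.Agent.SPA

open Finset

lemma cheb (hD : RowD) (E : Finset ((ℕ × ℕ) × (ℕ × ℕ))) (m r : (ℕ × ℕ) × (ℕ × ℕ) → ℕ) (x : ℕ)
    (hm : ∀ i ∈ E, 1 ≤ m i) (Vt μ : ℝ)
    (hV : (∑ i ∈ E, ∑ j ∈ E.filter (fun j => 1 < Nat.gcd (m i) (m j) ∧ r i ≡ r j [MOD Nat.gcd (m i) (m j)]),
        ((Nat.gcd (m i) (m j) : ℕ) : ℝ) / ((m i : ℝ) * m j)) ≤ Vt)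
    (hμ : μ = ∑ i ∈ E, (1 : ℝ) / m i) (hμ0 : 0 < μ) :
    (((Ioc 0 x).filter (fun k => (((E.filter (fun i => m i ∣ k + r i)).card : ℕ) : ℝ) < μ / 2)).card : ℝ)
      ≤ 4 * (x * Vt + 3 * (E.card : ℝ) ^ 2) / μ ^ 2 := by
  have h1 := hD E m r x hm
  rw [← hμ] at h1
  set B := (Ioc 0 x).filter (fun k => (((E.filter (fun i => m i ∣ k + r i)).card : ℕ) : ℝ) < μ / 2) with hB
  have h2 : (B.card : ℝ) * (μ / 2) ^ 2 ≤
      ∑ k ∈ Ioc 0 x, ((((E.filter (fun i => m i ∣ k + r i)).card : ℕ) : ℝ) - μ) ^ 2 := by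
    calc (B.card : ℝ) * (μ / 2) ^ 2 = ∑ k ∈ B, (μ / 2) ^ 2 := by simp
      _ ≤ ∑ k ∈ B, ((((E.filter (fun i => m i ∣ k + r i)).card : ℕ) : ℝ) - μ) ^ 2 := by
          apply sum_le_sum
          intro k hk
          have h3 := (mem_filter.mp hk).2
          have h4 : μ / 2 ≤ μ - (((E.filter (fun i => m i ∣ k + r i)).card : ℕ) : ℝ) := by linarith
          calc (μ / 2) ^ 2 ≤ (μ - (((E.filter (fun i => m i ∣ k + r i)).card : ℕ) : ℝ)) ^ 2 :=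
                pow_le_pow_left₀ (by linarith) h4 2
            _ = _ := by ring
      _ ≤ _ := sum_le_sum_of_subset_of_nonneg (filter_subset _ _) (fun _ _ _ => sq_nonneg _)
  have h5 : (x : ℝ) * (∑ i ∈ E, ∑ j ∈ E.filter (fun j => 1 < Nat.gcd (m i) (m j) ∧ r i ≡ r j [MOD Nat.gcd (m i) (m j)]),
        ((Nat.gcd (m i) (m j) : ℕ) : ℝ) / ((m i : ℝ) * m j)) ≤ x * Vt :=
    mul_le_mul_of_nonneg_left hV (Nat.cast_nonneg x)
  rw [le_div_iff₀ (by positivity)]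
  nlinarith

lemma log_le_sum (U : ℕ) (hU : 1 ≤ U) : ∀ W : ℕ, U ≤ W →
    Real.log (((W : ℝ) + 1) / ((U : ℝ) + 1)) ≤ ∑ u ∈ Ioc U W, (1 : ℝ) / u := by
  intro W hW
  induction W, hW using Nat.le_induction with
  | base =>
    rw [div_self (by positivity)]
    simp
  | succ W hW ih =>
    have h0 : (0 : ℝ) < (W : ℝ) + 1 := by positivity
    have h1 : Ioc U (W + 1) = insert (W + 1) (Ioc U W) := by
      ext u
      simp only [mem_Ioc, mem_insert]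
      omega
    rw [h1, sum_insert (by simp)]
    have h2 : Real.log ((((W + 1 : ℕ) : ℝ) + 1) / ((U : ℝ) + 1)) =
        Real.log (((W : ℝ) + 1) / ((U : ℝ) + 1)) + Real.log (((W : ℝ) + 1 + 1) / ((W : ℝ) + 1)) := by
      rw [← Real.log_mul (by positivity) (by positivity)]
      congr 1
      push_cast
      field_simp
    have h3 : Real.log (((W : ℝ) + 1 + 1) / ((W : ℝ) + 1)) ≤ 1 / ((W : ℝ) + 1) := by
      have := Real.log_le_sub_one_of_pos (show (0 : ℝ) < ((W : ℝ) + 1 + 1) / ((W : ℝ) + 1) by positivity)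
      have h4 : ((W : ℝ) + 1 + 1) / ((W : ℝ) + 1) - 1 = 1 / ((W : ℝ) + 1) := by field_simp; ring
      linarith
    rw [h2]
    push_cast
    linarith

lemma half_log (U : ℕ) (hU : 3 ≤ U) : Real.log U / 2 ≤ ∑ u ∈ Ioc U (U ^ 2), (1 : ℝ) / u := by
  have h1 := log_le_sum U (by omega) (U ^ 2) (by nlinarith)
  refine le_trans ?_ h1
  have hU' : (3 : ℝ) ≤ U := by exact_mod_cast hU
  have h2 : Real.log U / 2 = Real.log (Real.sqrt U) := by rw [Real.log_sqrt (by positivity)]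
  rw [h2]
  apply Real.log_le_log (Real.sqrt_pos.mpr (by linarith))
  rw [le_div_iff₀ (by positivity)]
  push_cast
  have h3 : Real.sqrt U ≤ (U : ℝ) - 1 := by
    rw [Real.sqrt_le_left (by linarith)]
    nlinarith
  have h4 : Real.sqrt U * ((U : ℝ) + 1) ≤ ((U : ℝ) - 1) * (U + 1) := mul_le_mul_of_nonneg_right h3 (by positivity)
  nlinarith

lemma mo_pos {T : Finset (ℕ × ℕ)} {U V : ℕ} (hU : 2 ≤ U) (hV : 2 ≤ V) (hT : ∀ p ∈ T, 1 ≤ p.1)
    {i : (ℕ × ℕ) × (ℕ × ℕ)} (hi : i ∈ Idx T U V) : 1 ≤ mo i ∧ mo i ≤ i.1.1 * i.2.1 * i.2.2 := by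
  simp only [Idx, mem_product, mem_Ioc] at hi
  obtain ⟨h1, ⟨h2, h3⟩, h4, h5⟩ := hi
  have h6 := hT _ h1
  unfold mo
  have : 3 * 3 ≤ i.1.1 * i.2.1 * i.2.2 := by
    calc 3 * 3 ≤ i.2.1 * i.2.2 := Nat.mul_le_mul (by omega) (by omega)
      _ = 1 * i.2.1 * i.2.2 := by ring
      _ ≤ i.1.1 * i.2.1 * i.2.2 := by gcongr
  omega

lemma mean_ge {T : Finset (ℕ × ℕ)} {U V : ℕ} (hU : 3 ≤ U) (hV : 3 ≤ V) (hT : ∀ p ∈ T, 1 ≤ p.1) :
    (∑ p ∈ T, (1 : ℝ) / p.1) * (Real.log U * Real.log V) / 4 ≤ ∑ i ∈ Idx T U V, (1 : ℝ) / mo i := by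
  have h1 : ∑ i ∈ Idx T U V, (1 : ℝ) / ((i.1.1 : ℝ) * i.2.1 * i.2.2) =
      (∑ p ∈ T, (1 : ℝ) / p.1) * ((∑ u ∈ Ioc U (U ^ 2), (1 : ℝ) / u) * ∑ v ∈ Ioc V (V ^ 2), (1 : ℝ) / v) := by
    unfold Idx
    rw [sum_product, sum_mul]
    apply sum_congr rfl
    intro p _
    rw [sum_product, sum_mul_sum, mul_sum]
    apply sum_congr rfl
    intro u _
    rw [mul_sum]
    apply sum_congr rfl
    intro v _
    rw [one_div, one_div, one_div, one_div, mul_inv, mul_inv, mul_assoc]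
  have h2 : ∑ i ∈ Idx T U V, (1 : ℝ) / ((i.1.1 : ℝ) * i.2.1 * i.2.2) ≤ ∑ i ∈ Idx T U V, (1 : ℝ) / mo i := by
    apply sum_le_sum
    intro i hi
    obtain ⟨h3, h4⟩ := mo_pos (by omega) (by omega) hT hi
    apply one_div_le_one_div_of_le
    · exact_mod_cast h3
    · exact_mod_cast h4
  refine le_trans ?_ h2
  rw [h1]
  have h5 := half_log U hU
  have h6 := half_log V hV
  have h7 : 0 ≤ ∑ p ∈ T, (1 : ℝ) / p.1 := sum_nonneg (fun _ _ => by positivity)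
  have h8 : 0 ≤ Real.log U := Real.log_natCast_nonneg U
  have h9 : 0 ≤ Real.log V := Real.log_natCast_nonneg V
  calc (∑ p ∈ T, (1 : ℝ) / p.1) * (Real.log U * Real.log V) / 4
      = (∑ p ∈ T, (1 : ℝ) / p.1) * ((Real.log U / 2) * (Real.log V / 2)) := by ring
    _ ≤ _ := by gcongr

end Pool.Agent.SPA
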