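import Pool.Agent.SPA.Stmts2

/-!
# The finite statement and the asymptotic half of row H2
-/

set_option autoImplicit false

namespace Pool.Agent.SPA

open Finset

/-- the finite statement (helper46) -/
def Core (C : ℝ) : Prop := ∀ (z R x : ℕ) (T : Finset (ℕ × ℕ)), 1 ≤ z → 3 ≤ R →
    (∀ p ∈ T, 1 ≤ p.1 ∧ p.1 ≤ R ∧ p.2 ≤ R ∧ (∀ q : ℕ, q.Prime → q ≤ z → q ∣ p.1) ∧
      ∃ s : Multiset ℕ, (∀ a ∈ s, 2 ≤ a ∧ a ≤ R) ∧ s.prod = p.1 ∧ s.sum = p.2 + s.card) →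
    1 ≤ ∑ p ∈ T, (1 : ℝ) / p.1 →
    (((Icc 2 x).filter (fun k => (Pool.Agent.SPM.N k : ℝ) < 5 * (∑ p ∈ T, (1 : ℝ) / p.1) * Real.log R ^ 2)).card : ℝ)
      ≤ 13 * (R : ℝ) ^ 94 + 4 * C * x * (16 / Real.sqrt z + 3360 / R + 1 / Real.log R ^ 2)

/-- the asymptotic half: `Q = (z + 2)!`, `r = ⌊log log x / 8⌋`, `y = ⌊exp (sqrt (log x))⌋`, `R = y ^ 5 ^ r` -/
def RowAs : Prop := ∀ C : ℝ, 0 < C → Core C → RowG → Main2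

end Pool.Agent.SPA
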