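import Pool.Agent.SPA.H46a
import Pool.Agent.SPA.Stmts3

/-!
# Final assembly, second part: the finite statement
-/

set_option autoImplicit false

namespace Pool.Agent.SPA

open Finset

lemma card_T {T : Finset (ℕ × ℕ)} {R : ℕ} (hT : ∀ p ∈ T, 1 ≤ p.1 ∧ p.1 ≤ R ∧ p.2 ≤ R) : T.card ≤ R * (R + 1) := by
  have h1 : T ⊆ Icc 1 R ×ˢ Icc 0 R := by
    intro p hp
    obtain ⟨h1, h2, h3⟩ := hT p hp
    rw [mem_product, mem_Icc, mem_Icc]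
    exact ⟨⟨h1, h2⟩, Nat.zero_le _, h3⟩
  refine (card_le_card h1).trans ?_
  rw [card_product, Nat.card_Icc, Nat.card_Icc]
  simp

lemma card_Idx {T : Finset (ℕ × ℕ)} {R : ℕ} (hR : 3 ≤ R) (hT : ∀ p ∈ T, 1 ≤ p.1 ∧ p.1 ≤ R ∧ p.2 ≤ R) :
    (Idx T (R ^ 2) (R ^ 20)).card ≤ R ^ 47 := by
  unfold Idx
  rw [card_product, card_product, Nat.card_Ioc, Nat.card_Ioc]
  have h1 := card_T hT
  have h2 : R + 1 ≤ R ^ 2 := by nlinarith
  calc T.card * (((R ^ 2) ^ 2 - R ^ 2) * ((R ^ 20) ^ 2 - R ^ 20)) ≤ (R * (R + 1)) * ((R ^ 2) ^ 2 * (R ^ 20) ^ 2) := by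
        gcongr
        · exact Nat.sub_le _ _
        · exact Nat.sub_le _ _
    _ ≤ (R * R ^ 2) * ((R ^ 2) ^ 2 * (R ^ 20) ^ 2) := by gcongr
    _ = R ^ 47 := by ring

/-- the inequality of row V with a given constant -/
def VStmt (C : ℝ) : Prop := ∀ (z R U V : ℕ) (T : Finset (ℕ × ℕ)), 1 ≤ z → 2 ≤ R → R ^ 2 ≤ U → R ^ 4 * U ^ 8 ≤ V →
    (∀ p ∈ T, 1 ≤ p.1 ∧ p.1 ≤ R ∧ p.2 ≤ R ∧ ∀ q : ℕ, q.Prime → q ≤ z → q ∣ p.1) →
    ∑ i ∈ Idx T U V, ∑ j ∈ (Idx T U V).filter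
        (fun j => 1 < Nat.gcd (mo i) (mo j) ∧ re i ≡ re j [MOD Nat.gcd (mo i) (mo j)]),
        ((Nat.gcd (mo i) (mo j) : ℕ) : ℝ) / ((mo i : ℝ) * mo j)
    ≤ C * Real.log V ^ 2 * (∑ p ∈ T, (1 : ℝ) / p.1) ^ 2 * Real.log U * (Real.log U / Real.sqrt z + Real.log V ^ 2 / U)
      + C * (∑ p ∈ T, (1 : ℝ) / p.1) * Real.log U * (Real.log V + Real.log V ^ 3 / Real.sqrt U)

lemma alg46 (C l W R s : ℝ) (hl : 0 < l) (hW : 0 < W) (hR : 0 < R) (hs : 0 < s) :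
    (C * (20 * l) ^ 2 * W ^ 2 * (2 * l) * (2 * l / s + (20 * l) ^ 2 / R ^ 2)
      + C * W * (2 * l) * (20 * l + (20 * l) ^ 3 / R)) / (10 * W * l ^ 2) ^ 2 =
    C * (16 / s + 3200 * l / R ^ 2 + (2 / 5) * (1 / (W * l ^ 2)) + 160 * (1 / (W * R))) := by
  have h1 : l ≠ 0 := hl.ne'
  have h2 : W ≠ 0 := hW.ne'
  have h3 : R ≠ 0 := hR.ne'
  have h4 : s ≠ 0 := hs.ne'
  field_simp
  ring

lemma alg46b (C l W R s : ℝ) (hC : 0 < C) (hl : 0 < l) (hW : 1 ≤ W) (hR : 0 < R) (hs : 0 < s) (hlR : l ≤ R) :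
    (C * (20 * l) ^ 2 * W ^ 2 * (2 * l) * (2 * l / s + (20 * l) ^ 2 / R ^ 2)
      + C * W * (2 * l) * (20 * l + (20 * l) ^ 3 / R)) / (10 * W * l ^ 2) ^ 2 ≤
    C * (16 / s + 3360 / R + 1 / l ^ 2) := by
  rw [alg46 C l W R s hl (by linarith) hR hs]
  apply mul_le_mul_of_nonneg_left _ hC.le
  have e2 : 3200 * l / R ^ 2 ≤ 3200 / R := by
    rw [div_le_div_iff₀ (by positivity) hR]
    nlinarith [mul_le_mul_of_nonneg_right hlR hR.le]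
  have e3 : 1 / (W * l ^ 2) ≤ 1 / l ^ 2 := by
    apply one_div_le_one_div_of_le (by positivity)
    nlinarith [mul_le_mul_of_nonneg_right hW (sq_nonneg l)]
  have e4 : 1 / (W * R) ≤ 1 / R := by
    apply one_div_le_one_div_of_le hR
    nlinarith [mul_le_mul_of_nonneg_right hW hR.le]
  have e5 : (0 : ℝ) ≤ 1 / l ^ 2 := by positivity
  have e6 : 3360 / R = 3200 / R + 160 * (1 / R) := by ring
  rw [e6]
  linarith

theorem core (hD : RowD) {C : ℝ} (hC : 0 < C) (hV : VStmt C) (hF : RowF) : Core C := by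
  intro z R x T hz hR hT hW
  obtain ⟨W, hWdef⟩ : ∃ W : ℝ, W = ∑ p ∈ T, (1 : ℝ) / p.1 := ⟨_, rfl⟩
  obtain ⟨E, hE⟩ : ∃ E, E = Idx T (R ^ 2) (R ^ 20) := ⟨_, rfl⟩
  obtain ⟨μ, hμ⟩ : ∃ μ : ℝ, μ = ∑ i ∈ E, (1 : ℝ) / mo i := ⟨_, rfl⟩
  obtain ⟨l, hl⟩ : ∃ l : ℝ, l = Real.log R := ⟨_, rfl⟩
  rw [← hWdef] at hW ⊢
  rw [← hl]
  have hR' : (3 : ℝ) ≤ R := by exact_mod_cast hR
  have hl1 : 1 ≤ l := by
    rw [hl, Real.le_log_iff_exp_le (by linarith)]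
    exact (Real.exp_one_lt_d9.le.trans (by norm_num)).trans hR'
  have hlR : l ≤ R := by
    have := Real.log_le_sub_one_of_pos (show (0 : ℝ) < R by linarith)
    rw [hl]; linarith
  have hR2 : 3 ≤ R ^ 2 := by nlinarith
  have hR20 : 3 ≤ R ^ 20 := hR.trans (Nat.le_self_pow (by norm_num) R)
  have hlU : Real.log ((R ^ 2 : ℕ) : ℝ) = 2 * l := by rw [hl]; push_cast; rw [Real.log_pow]; norm_num
  have hlV : Real.log ((R ^ 20 : ℕ) : ℝ) = 20 * l := by rw [hl]; push_cast; rw [Real.log_pow]; norm_num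
  have hμ0 : 10 * W * l ^ 2 ≤ μ := by
    have h1 := mean_ge (T := T) hR2 hR20 (fun p hp => (hT p hp).1)
    rw [hlU, hlV, ← hWdef, ← hE, ← hμ] at h1
    calc 10 * W * l ^ 2 = W * (2 * l * (20 * l)) / 4 := by ring
      _ ≤ μ := h1
  have hl2 : 1 ≤ l ^ 2 := one_le_pow₀ hl1
  have hWl : 1 ≤ W * l ^ 2 := by nlinarith
  have hμ1 : 10 ≤ 10 * W * l ^ 2 := by nlinarith
  have hμpos : 0 < μ := by linarith
  have hUsq : Real.sqrt ((R ^ 2 : ℕ) : ℝ) = R := by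
    push_cast
    exact Real.sqrt_sq (by linarith)
  have h1 := hV z R (R ^ 2) (R ^ 20) T hz (by omega) le_rfl (by
    apply le_of_eq; ring) (fun p hp => ⟨(hT p hp).1, (hT p hp).2.1, (hT p hp).2.2.1, (hT p hp).2.2.2.1⟩)
  rw [hlU, hlV, hUsq, ← hWdef, ← hE] at h1
  have hcast : ((R ^ 2 : ℕ) : ℝ) = (R : ℝ) ^ 2 := by push_cast; ring
  rw [hcast] at h1
  have h2 := cheb hD E mo re x (fun i hi => (mo_pos (by omega) (by omega) (fun p hp => (hT p hp).1) (hE ▸ hi)).1)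
    _ μ h1 hμ hμpos
  -- the number of exceptions
  have hsub : (Icc 2 x).filter (fun k => (Pool.Agent.SPM.N k : ℝ) < 5 * W * l ^ 2) ⊆
      Ioc 0 (R ^ 85) ∪ (Ioc 0 x).filter (fun k => (((E.filter (fun i => mo i ∣ k + re i)).card : ℕ) : ℝ) < μ / 2) := by
    intro k hk
    rw [mem_filter, mem_Icc] at hk
    obtain ⟨⟨hk2, hkx⟩, hk3⟩ := hk
    rw [mem_union]
    by_cases hkR : k ≤ R ^ 85
    · left
      rw [mem_Ioc]
      omega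
    · right
      rw [mem_filter, mem_Ioc]
      refine ⟨⟨by omega, hkx⟩, ?_⟩
      have h3 := hF R (R ^ 2) (R ^ 20) k T (by omega) (by nlinarith) (by
        calc (R ^ 2) ^ 2 = R ^ 4 := by ring
          _ ≤ R ^ 20 := Nat.pow_le_pow_right (by omega) (by norm_num)) (by
        calc R * (R ^ 2) ^ 2 * (R ^ 20) ^ 4 = R ^ 85 := by ring
          _ < k := by omega) (fun p hp => ⟨(hT p hp).2.1, (hT p hp).2.2.1, (hT p hp).2.2.2.2⟩)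
      rw [← hE] at h3
      have h4 : (((E.filter (fun i => mo i ∣ k + re i)).card : ℕ) : ℝ) ≤ Pool.Agent.SPM.N k := by exact_mod_cast h3
      linarith
  obtain ⟨B, hB⟩ : ∃ B : ℕ, B = ((Ioc 0 x).filter (fun k => (((E.filter (fun i => mo i ∣ k + re i)).card : ℕ) : ℝ) < μ / 2)).card :=
    ⟨_, rfl⟩
  rw [← hB] at h2
  have h3 : (((Icc 2 x).filter (fun k => (Pool.Agent.SPM.N k : ℝ) < 5 * W * l ^ 2)).card : ℝ) ≤ (R : ℝ) ^ 85 + B := by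
    have h4 := (card_le_card hsub).trans (card_union_le _ _)
    rw [Nat.card_Ioc, ← hB, Nat.sub_zero] at h4
    exact_mod_cast h4
  refine h3.trans ?_
  have hcard : ((E.card : ℕ) : ℝ) ^ 2 ≤ (R : ℝ) ^ 94 := by
    have h4 := card_Idx hR (fun p hp => ⟨(hT p hp).1, (hT p hp).2.1, (hT p hp).2.2.1⟩)
    rw [← hE] at h4
    have h5 : ((E.card : ℕ) : ℝ) ≤ (R : ℝ) ^ 47 := by exact_mod_cast h4
    calc ((E.card : ℕ) : ℝ) ^ 2 ≤ ((R : ℝ) ^ 47) ^ 2 := by gcongr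
      _ = (R : ℝ) ^ 94 := by ring
  have hx : (0 : ℝ) ≤ x := Nat.cast_nonneg x
  have hl0 : (0 : ℝ) < l := by linarith
  have hW0 : (0 : ℝ) < W := by linarith
  have hR0 : (0 : ℝ) < R := by linarith
  have hs0 : 0 < Real.sqrt z := by
    have : (0 : ℝ) < z := by exact_mod_cast hz
    positivity
  have hDd := alg46b C l W R (Real.sqrt z) hC hl0 hW hR0 hs0 hlR
  obtain ⟨Vt, hVt⟩ : ∃ Vt : ℝ, Vt = C * (20 * l) ^ 2 * W ^ 2 * (2 * l) * (2 * l / Real.sqrt z + (20 * l) ^ 2 / (R : ℝ) ^ 2)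
      + C * W * (2 * l) * (20 * l + (20 * l) ^ 3 / R) := ⟨_, rfl⟩
  rw [← hVt] at h2 hDd
  have hVt0 : 0 ≤ Vt := by
    rw [hVt]
    positivity
  have hA : 4 * (x * Vt + 3 * (E.card : ℝ) ^ 2) / μ ^ 2 ≤ 4 * (x * Vt + 3 * (E.card : ℝ) ^ 2) / (10 * W * l ^ 2) ^ 2 := by
    apply div_le_div_of_nonneg_left (by positivity) (by positivity)
    exact pow_le_pow_left₀ (by positivity) hμ0 2
  have hBb : 4 * (x * Vt + 3 * (E.card : ℝ) ^ 2) / (10 * W * l ^ 2) ^ 2 =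
      4 * x * (Vt / (10 * W * l ^ 2) ^ 2) + 12 * (E.card : ℝ) ^ 2 / (10 * W * l ^ 2) ^ 2 := by ring
  have hCc : 12 * (E.card : ℝ) ^ 2 / (10 * W * l ^ 2) ^ 2 ≤ 12 * (R : ℝ) ^ 94 := by
    have h100 : 1 ≤ (10 * W * l ^ 2) ^ 2 := one_le_pow₀ (by linarith)
    calc 12 * (E.card : ℝ) ^ 2 / (10 * W * l ^ 2) ^ 2 ≤ 12 * (E.card : ℝ) ^ 2 / 1 := by
          apply div_le_div_of_nonneg_left (by positivity) (by norm_num) h100
      _ = 12 * (E.card : ℝ) ^ 2 := by ring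
      _ ≤ _ := by linarith
  have hR85 : (R : ℝ) ^ 85 ≤ (R : ℝ) ^ 94 := pow_le_pow_right₀ (by linarith) (by norm_num)
  have hDx : 4 * x * (Vt / (10 * W * l ^ 2) ^ 2) ≤ 4 * x * (C * (16 / Real.sqrt z + 3360 / R + 1 / l ^ 2)) :=
    mul_le_mul_of_nonneg_left hDd (by positivity)
  have hfin : 4 * C * x * (16 / Real.sqrt z + 3360 / R + 1 / l ^ 2) =
      4 * x * (C * (16 / Real.sqrt z + 3360 / R + 1 / l ^ 2)) := by ring
  rw [hfin]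
  linarith

end Pool.Agent.SPA
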