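import Pool.Agent.SPA.Stmts4

/-!
# The strong form: exceptional set `O(x / (log x)^A)` for every `A`
(the small primes are removed by a sieve lower bound for `A v - 1`, not by a factor `Q`)
-/

set_option autoImplicit false

namespace Pool.Agent.SPA

open Finset

/-- row V1': the off-diagonal part, the common factor has no prime factor up to `z` (uses A, B1, B2) -/
def RowV1s : Prop := ∃ C : ℝ, 0 < C ∧ ∀ (z R U V : ℕ) (T : Finset (ℕ × ℕ)), 1 ≤ z → 2 ≤ R → R ^ 2 ≤ U → R ^ 4 * U ^ 8 ≤ V →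
    (∀ p ∈ T, 1 ≤ p.1 ∧ p.1 ≤ R ∧ p.2 ≤ R) →
    ∑ i ∈ Idx T U V, ∑ j ∈ (Idx T U V).filter
        (fun j => ¬ (j.1 = i.1 ∧ j.2.1 = i.2.1) ∧ z < (Nat.gcd (mo i) (mo j)).minFac ∧
          re i ≡ re j [MOD Nat.gcd (mo i) (mo j)]),
        ((Nat.gcd (mo i) (mo j) : ℕ) : ℝ) / ((mo i : ℝ) * mo j)
    ≤ C * Real.log V ^ 2 * (∑ p ∈ T, (1 : ℝ) / p.1) ^ 2 * Real.log U * (Real.log U / Real.sqrt z + Real.log V ^ 2 / U)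

/-- row V0': the diagonal part, no condition on the primes (uses C) -/
def RowV0s : Prop := ∃ C : ℝ, 0 < C ∧ ∀ (R U V : ℕ) (T : Finset (ℕ × ℕ)), 2 ≤ R → R ^ 2 ≤ U → R ^ 4 * U ^ 8 ≤ V →
    (∀ p ∈ T, 1 ≤ p.1 ∧ p.1 ≤ R ∧ p.2 ≤ R) →
    ∑ i ∈ Idx T U V, ∑ j ∈ (Idx T U V).filter (fun j => j.1 = i.1 ∧ j.2.1 = i.2.1),
        ((Nat.gcd (mo i) (mo j) : ℕ) : ℝ) / ((mo i : ℝ) * mo j)
    ≤ C * (∑ p ∈ T, (1 : ℝ) / p.1) * Real.log U * (Real.log V + Real.log V ^ 3 / Real.sqrt U)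

/-- row S: Brun's sieve from below, for the `v` with `A v - 1` free of primes up to `z` -/
def RowS : Prop := ∃ c K : ℝ, 0 < c ∧ c ≤ 1 ∧ 1 ≤ K ∧ ∀ A z V : ℕ, 1 ≤ A → 3 ≤ z → 3 ≤ V →
    K * Real.log z ^ 2 ≤ Real.log V →
    c / Real.log z ^ 3 * Real.log V ≤
      ∑ v ∈ (Ioc V (V ^ 2)).filter (fun v => z < (A * v - 1).minFac), (1 : ℝ) / v

/-- the finite statement, strong form: `δ = c / (log z)^3` from row S -/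
def Core2 (C c K : ℝ) : Prop := ∀ (z R x : ℕ) (T : Finset (ℕ × ℕ)), 3 ≤ z → 3 ≤ R → K * Real.log z ^ 2 ≤ Real.log R →
    (∀ p ∈ T, 1 ≤ p.1 ∧ p.1 ≤ R ∧ p.2 ≤ R ∧
      ∃ s : Multiset ℕ, (∀ a ∈ s, 2 ≤ a ∧ a ≤ R) ∧ s.prod = p.1 ∧ s.sum = p.2 + s.card) →
    1 ≤ c / Real.log z ^ 3 * ∑ p ∈ T, (1 : ℝ) / p.1 →
    (((Icc 2 x).filter (fun k => (Pool.Agent.SPM.N k : ℝ) < 10 * (c / Real.log z ^ 3) * (∑ p ∈ T, (1 : ℝ) / p.1))).card : ℝ)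
      ≤ 13 * (R : ℝ) ^ 94 + C * x / (c / Real.log z ^ 3) ^ 2 *
        (16 / Real.sqrt z + 3360 / R + 1 / ∑ p ∈ T, (1 : ℝ) / p.1)

/-- the main theorem, strong form -/
def Main4 : Prop := ∃ c : ℝ, 0 < c ∧ ∀ A : ℕ, ∃ B : ℝ, ∀ x : ℕ, 3 ≤ x →
    (((Icc 2 x).filter (fun k => (Pool.Agent.SPM.N k : ℝ) < Real.exp (c * Real.log (Real.log x) ^ 2))).card : ℝ)
      ≤ B * x / Real.log x ^ A

/-- `Q = 2`, `z = ⌊(log x)^(2A+2)⌋ + 3`, `y = ⌊exp (sqrt (log x))⌋`, `r = ⌊log log x / 8⌋`, `R = y ^ 5 ^ r` -/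
def RowAs4 : Prop := ∀ C c K : ℝ, 0 < C → 0 < c → c ≤ 1 → 1 ≤ K → Core2 C c K → RowG → Main4

end Pool.Agent.SPA
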