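import Pool.Agent.SPA.H46b
import Pool.Agent.SPA.Stmts5

/-!
# The finite statement, strong form
-/

set_option autoImplicit false

namespace Pool.Agent.SPA

open Finset

/-- row S with given constants -/
def SStmt (c K : ℝ) : Prop := ∀ A z V : ℕ, 1 ≤ A → 3 ≤ z → 3 ≤ V →
    K * Real.log z ^ 2 ≤ Real.log V →
    c / Real.log z ^ 3 * Real.log V ≤
      ∑ v ∈ (Ioc V (V ^ 2)).filter (fun v => z < (A * v - 1).minFac), (1 : ℝ) / v

lemma mean2 {c K : ℝ} (hS : SStmt c K) {T : Finset (ℕ × ℕ)} {U V z : ℕ} (hU : 3 ≤ U) (hV : 3 ≤ V) (hz : 3 ≤ z)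
    (hK : K * Real.log z ^ 2 ≤ Real.log V) (hc : 0 ≤ c) (hT : ∀ p ∈ T, 1 ≤ p.1) :
    (∑ p ∈ T, (1 : ℝ) / p.1) * (Real.log U * (c / Real.log z ^ 3 * Real.log V)) / 2 ≤
      ∑ i ∈ (Idx T U V).filter (fun i => z < (mo i).minFac), (1 : ℝ) / mo i := by
  obtain ⟨δ, hδ⟩ : ∃ δ : ℝ, δ = c / Real.log z ^ 3 * Real.log V := ⟨_, rfl⟩
  have hlz : 0 ≤ Real.log z := Real.log_natCast_nonneg z
  have hδ0 : 0 ≤ δ := by
    rw [hδ]
    have := Real.log_natCast_nonneg V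
    positivity
  rw [← hδ]
  have h1 : ∑ i ∈ Idx T U V, (if z < (mo i).minFac then (1 : ℝ) / ((i.1.1 : ℝ) * i.2.1 * i.2.2) else 0) ≤
      ∑ i ∈ (Idx T U V).filter (fun i => z < (mo i).minFac), (1 : ℝ) / mo i := by
    rw [sum_filter]
    apply sum_le_sum
    intro i hi
    obtain ⟨h3, h4⟩ := mo_pos (by omega) (by omega) hT hi
    split_ifs
    · apply one_div_le_one_div_of_le
      · exact_mod_cast h3
      · exact_mod_cast h4
    · exact le_rfl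
  refine le_trans ?_ h1
  unfold Idx
  rw [sum_product, sum_mul, sum_div]
  apply sum_le_sum
  intro p hp
  rw [sum_product]
  have hp1 := hT p hp
  have hp0 : (0 : ℝ) < p.1 := by exact_mod_cast hp1
  have h2 : ∀ u ∈ Ioc U (U ^ 2), 1 / (p.1 : ℝ) * (1 / (u : ℝ)) * δ ≤
      ∑ v ∈ Ioc V (V ^ 2), (if z < (mo (p, u, v)).minFac then (1 : ℝ) / ((p.1 : ℝ) * u * v) else 0) := by
    intro u hu
    rw [mem_Ioc] at hu
    have h3 := hS (p.1 * u) z V (Nat.one_le_iff_ne_zero.mpr (by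
      have : 0 < p.1 * u := Nat.mul_pos hp1 (by omega)
      omega)) hz hV hK
    rw [← hδ, sum_filter] at h3
    have h4 : ∑ v ∈ Ioc V (V ^ 2), (if z < (mo (p, u, v)).minFac then (1 : ℝ) / ((p.1 : ℝ) * u * v) else 0) =
        1 / (p.1 : ℝ) * (1 / (u : ℝ)) * ∑ v ∈ Ioc V (V ^ 2), (if z < (p.1 * u * v - 1).minFac then (1 : ℝ) / v else 0) := by
      rw [mul_sum]
      apply sum_congr rfl
      intro v _
      have : mo (p, u, v) = p.1 * u * v - 1 := rfl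
      rw [this]
      split_ifs
      · rw [one_div, one_div, one_div, one_div, mul_inv, mul_inv]
      · simp
    rw [h4]
    exact mul_le_mul_of_nonneg_left h3 (by positivity)
  refine le_trans ?_ (sum_le_sum h2)
  rw [← sum_mul, ← mul_sum]
  have h5 := half_log U hU
  have h6 : 1 / (p.1 : ℝ) * (Real.log U * δ) / 2 = 1 / (p.1 : ℝ) * (Real.log U / 2) * δ := by ring
  rw [h6]
  gcongr

lemma var2 {C0 C1 : ℝ}
    (h0 : ∀ (R U V : ℕ) (T : Finset (ℕ × ℕ)), 2 ≤ R → R ^ 2 ≤ U → R ^ 4 * U ^ 8 ≤ V →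
      (∀ p ∈ T, 1 ≤ p.1 ∧ p.1 ≤ R ∧ p.2 ≤ R) →
      ∑ i ∈ Idx T U V, ∑ j ∈ (Idx T U V).filter (fun j => j.1 = i.1 ∧ j.2.1 = i.2.1),
        ((Nat.gcd (mo i) (mo j) : ℕ) : ℝ) / ((mo i : ℝ) * mo j)
      ≤ C0 * (∑ p ∈ T, (1 : ℝ) / p.1) * Real.log U * (Real.log V + Real.log V ^ 3 / Real.sqrt U))
    (h1 : ∀ (z R U V : ℕ) (T : Finset (ℕ × ℕ)), 1 ≤ z → 2 ≤ R → R ^ 2 ≤ U → R ^ 4 * U ^ 8 ≤ V →
      (∀ p ∈ T, 1 ≤ p.1 ∧ p.1 ≤ R ∧ p.2 ≤ R) →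
      ∑ i ∈ Idx T U V, ∑ j ∈ (Idx T U V).filter
        (fun j => ¬ (j.1 = i.1 ∧ j.2.1 = i.2.1) ∧ z < (Nat.gcd (mo i) (mo j)).minFac ∧
          re i ≡ re j [MOD Nat.gcd (mo i) (mo j)]),
        ((Nat.gcd (mo i) (mo j) : ℕ) : ℝ) / ((mo i : ℝ) * mo j)
      ≤ C1 * Real.log V ^ 2 * (∑ p ∈ T, (1 : ℝ) / p.1) ^ 2 * Real.log U * (Real.log U / Real.sqrt z + Real.log V ^ 2 / U))
    (z R U V : ℕ) (T : Finset (ℕ × ℕ)) (hz : 1 ≤ z) (hR : 2 ≤ R) (hU : R ^ 2 ≤ U) (hV : R ^ 4 * U ^ 8 ≤ V)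
    (hT : ∀ p ∈ T, 1 ≤ p.1 ∧ p.1 ≤ R ∧ p.2 ≤ R) :
    ∑ i ∈ (Idx T U V).filter (fun i => z < (mo i).minFac),
      ∑ j ∈ ((Idx T U V).filter (fun i => z < (mo i).minFac)).filter
        (fun j => 1 < Nat.gcd (mo i) (mo j) ∧ re i ≡ re j [MOD Nat.gcd (mo i) (mo j)]),
        ((Nat.gcd (mo i) (mo j) : ℕ) : ℝ) / ((mo i : ℝ) * mo j)
    ≤ C1 * Real.log V ^ 2 * (∑ p ∈ T, (1 : ℝ) / p.1) ^ 2 * Real.log U * (Real.log U / Real.sqrt z + Real.log V ^ 2 / U)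
      + C0 * (∑ p ∈ T, (1 : ℝ) / p.1) * Real.log U * (Real.log V + Real.log V ^ 3 / Real.sqrt U) := by
  have e0 := h0 R U V T hR hU hV hT
  have e1 := h1 z R U V T hz hR hU hV hT
  refine le_trans ?_ (add_le_add e1 e0)
  rw [← sum_add_distrib]
  have hnn : ∀ i j : (ℕ × ℕ) × (ℕ × ℕ), (0 : ℝ) ≤ ((Nat.gcd (mo i) (mo j) : ℕ) : ℝ) / ((mo i : ℝ) * mo j) :=
    fun i j => by positivity
  refine le_trans (sum_le_sum ?_) (sum_le_sum_of_subset_of_nonneg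
    (filter_subset (fun i => z < (mo i).minFac) (Idx T U V))
    (fun i _ _ => add_nonneg (sum_nonneg fun j _ => hnn i j) (sum_nonneg fun j _ => hnn i j)))
  intro i hi
  have hi2 := (mem_filter.mp hi).2
  rw [← sum_union]
  · apply sum_le_sum_of_subset_of_nonneg
    · intro j hj
      rw [mem_filter, mem_filter] at hj
      obtain ⟨⟨hj1, hj2⟩, hj3, hj4⟩ := hj
      rw [mem_union, mem_filter, mem_filter]
      by_cases hs : j.1 = i.1 ∧ j.2.1 = i.2.1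
      · exact Or.inr ⟨hj1, hs⟩
      · refine Or.inl ⟨hj1, hs, ?_, hj4⟩
        have hne : Nat.gcd (mo i) (mo j) ≠ 1 := by omega
        have hp := Nat.minFac_prime hne
        have hd : (Nat.gcd (mo i) (mo j)).minFac ∣ mo i := (Nat.minFac_dvd _).trans (Nat.gcd_dvd_left _ _)
        exact lt_of_lt_of_le hi2 (Nat.minFac_le_of_dvd hp.two_le hd)
    · intro j _ _
      exact hnn i j
  · rw [disjoint_left]
    intro j hj hj'
    rw [mem_filter] at hj hj'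
    exact hj.2.1 hj'.2

end Pool.Agent.SPA
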