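import Pool.Agent.SPA.H46c

/-!
# The finite statement, strong form: assembly
-/

set_option autoImplicit false

namespace Pool.Agent.SPA

open Finset

lemma alg46c (C l W R s : ℝ) (hC : 0 < C) (hl : 1 ≤ l) (hW : 1 ≤ W) (hR : 0 < R) (hs : 0 < s) (hlR : l ≤ R) :
    (C * (20 * l) ^ 2 * W ^ 2 * (2 * l) * (2 * l / s + (20 * l) ^ 2 / R ^ 2)
      + C * W * (2 * l) * (20 * l + (20 * l) ^ 3 / R)) / (10 * W * l ^ 2) ^ 2 ≤
    C * (16 / s + 3360 / R + 1 / W) := by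
  rw [alg46 C l W R s (by linarith) (by linarith) hR hs]
  apply mul_le_mul_of_nonneg_left _ hC.le
  have hl2 : 1 ≤ l ^ 2 := one_le_pow₀ hl
  have e2 : 3200 * l / R ^ 2 ≤ 3200 / R := by
    rw [div_le_div_iff₀ (by positivity) hR]
    nlinarith [mul_le_mul_of_nonneg_right hlR hR.le]
  have e3 : 1 / (W * l ^ 2) ≤ 1 / W := by
    apply one_div_le_one_div_of_le (by linarith)
    nlinarith
  have e4 : 1 / (W * R) ≤ 1 / R := by
    apply one_div_le_one_div_of_le hR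
    nlinarith [mul_le_mul_of_nonneg_right hW hR.le]
  have e5 : (0 : ℝ) ≤ 1 / W := by positivity
  have e6 : 3360 / R = 3200 / R + 160 * (1 / R) := by ring
  rw [e6]
  linarith

theorem core2 (hD : RowD) (hF : RowF) {c K : ℝ} (hc : 0 < c) (hc1 : c ≤ 1) (hS : SStmt c K)
    (h0s : RowV0s) (h1s : RowV1s) : ∃ C : ℝ, 0 < C ∧ Core2 C c K := by
  obtain ⟨C0, hC0, h0⟩ := h0s
  obtain ⟨C1, hC1, h1⟩ := h1s
  obtain ⟨C, hCdef⟩ : ∃ C : ℝ, C = max C0 C1 := ⟨_, rfl⟩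
  have hC : 0 < C := by rw [hCdef]; exact lt_max_of_lt_left hC0
  have hC0' : C0 ≤ C := by rw [hCdef]; exact le_max_left _ _
  have hC1' : C1 ≤ C := by rw [hCdef]; exact le_max_right _ _
  refine ⟨C, hC, ?_⟩
  intro z R x T hz hR hKz hT hδW
  obtain ⟨W, hWdef⟩ : ∃ W : ℝ, W = ∑ p ∈ T, (1 : ℝ) / p.1 := ⟨_, rfl⟩
  obtain ⟨δ, hδ⟩ : ∃ δ : ℝ, δ = c / Real.log z ^ 3 := ⟨_, rfl⟩
  obtain ⟨E, hE⟩ : ∃ E, E = (Idx T (R ^ 2) (R ^ 20)).filter (fun i => z < (mo i).minFac) := ⟨_, rfl⟩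
  obtain ⟨μ, hμ⟩ : ∃ μ : ℝ, μ = ∑ i ∈ E, (1 : ℝ) / mo i := ⟨_, rfl⟩
  obtain ⟨l, hl⟩ : ∃ l : ℝ, l = Real.log R := ⟨_, rfl⟩
  rw [← hWdef, ← hδ] at hδW
  rw [← hWdef, ← hδ]
  have hz' : (3 : ℝ) ≤ z := by exact_mod_cast hz
  have hlz : 1 ≤ Real.log z := by
    rw [Real.le_log_iff_exp_le (by linarith)]
    exact (Real.exp_one_lt_d9.le.trans (by norm_num)).trans hz'
  have hδ0 : 0 < δ := by rw [hδ]; positivity
  have hδ1 : δ ≤ 1 := by
    rw [hδ, div_le_one (by positivity)]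
    exact hc1.trans (one_le_pow₀ hlz)
  have hR' : (3 : ℝ) ≤ R := by exact_mod_cast hR
  have hl1 : 1 ≤ l := by
    rw [hl, Real.le_log_iff_exp_le (by linarith)]
    exact (Real.exp_one_lt_d9.le.trans (by norm_num)).trans hR'
  have hlR : l ≤ R := by
    have := Real.log_le_sub_one_of_pos (show (0 : ℝ) < R by linarith)
    rw [hl]; linarith
  have hW0' : 0 ≤ W := by rw [hWdef]; positivity
  have hW : 1 ≤ W := by nlinarith
  have hW0 : (0 : ℝ) < W := by linarith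
  have hR2 : 3 ≤ R ^ 2 := by nlinarith
  have hR20 : 3 ≤ R ^ 20 := hR.trans (Nat.le_self_pow (by norm_num) R)
  have hlU : Real.log ((R ^ 2 : ℕ) : ℝ) = 2 * l := by rw [hl]; push_cast; rw [Real.log_pow]; norm_num
  have hlV : Real.log ((R ^ 20 : ℕ) : ℝ) = 20 * l := by rw [hl]; push_cast; rw [Real.log_pow]; norm_num
  have hT3 : ∀ p ∈ T, 1 ≤ p.1 ∧ p.1 ≤ R ∧ p.2 ≤ R := fun p hp => ⟨(hT p hp).1, (hT p hp).2.1, (hT p hp).2.2.1⟩
  have hμ0 : 20 * δ * W * l ^ 2 ≤ μ := by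
    have h1 := mean2 hS (T := T) hR2 hR20 hz (by rw [hlV]; rw [← hl] at hKz; linarith) hc.le (fun p hp => (hT p hp).1)
    rw [hlU, hlV, ← hWdef, ← hE, ← hμ, ← hδ] at h1
    calc 20 * δ * W * l ^ 2 = W * (2 * l * (δ * (20 * l))) / 2 := by ring
      _ ≤ μ := h1
  have hl2 : 1 ≤ l ^ 2 := one_le_pow₀ hl1
  have hδWl0 : δ * W ≤ δ * W * l ^ 2 := le_mul_of_one_le_right (by positivity) hl2
  have hδWl : 1 ≤ δ * W * l ^ 2 := hδW.trans hδWl0
  have hth : 10 * δ * W ≤ μ / 2 := by linarith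
  have hμpos : 0 < μ := by linarith
  have hUsq : Real.sqrt ((R ^ 2 : ℕ) : ℝ) = R := by
    push_cast
    exact Real.sqrt_sq (by linarith)
  have hvar := var2 h0 h1 z R (R ^ 2) (R ^ 20) T (by omega) (by omega) le_rfl (by
    apply le_of_eq; ring) hT3
  rw [hlU, hlV, hUsq, ← hWdef, ← hE] at hvar
  have hcast : ((R ^ 2 : ℕ) : ℝ) = (R : ℝ) ^ 2 := by push_cast; ring
  rw [hcast] at hvar
  have hl0 : (0 : ℝ) < l := by linarith
  have hR0 : (0 : ℝ) < R := by linarith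
  have hs0 : 0 < Real.sqrt z := by positivity
  obtain ⟨Vt, hVt⟩ : ∃ Vt : ℝ, Vt = C * (20 * l) ^ 2 * W ^ 2 * (2 * l) * (2 * l / Real.sqrt z + (20 * l) ^ 2 / (R : ℝ) ^ 2)
      + C * W * (2 * l) * (20 * l + (20 * l) ^ 3 / R) := ⟨_, rfl⟩
  have hvar2 : (∑ i ∈ E, ∑ j ∈ E.filter
        (fun j => 1 < Nat.gcd (mo i) (mo j) ∧ re i ≡ re j [MOD Nat.gcd (mo i) (mo j)]),
        ((Nat.gcd (mo i) (mo j) : ℕ) : ℝ) / ((mo i : ℝ) * mo j)) ≤ Vt := by
    refine hvar.trans ?_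
    rw [hVt]
    gcongr
  have hmpos : ∀ i ∈ E, 1 ≤ mo i := by
    intro i hi
    rw [hE, mem_filter] at hi
    exact (mo_pos (by omega) (by omega) (fun p hp => (hT p hp).1) hi.1).1
  have h2 := cheb hD E mo re x hmpos _ μ hvar2 hμ hμpos
  -- the number of exceptions
  have hsub : (Icc 2 x).filter (fun k => (Pool.Agent.SPM.N k : ℝ) < 10 * δ * W) ⊆
      Ioc 0 (R ^ 85) ∪ (Ioc 0 x).filter (fun k => (((E.filter (fun i => mo i ∣ k + re i)).card : ℕ) : ℝ) < μ / 2) := by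
    intro k hk
    rw [mem_filter, mem_Icc] at hk
    obtain ⟨⟨hk2, hkx⟩, hk3⟩ := hk
    rw [mem_union]
    by_cases hkR : k ≤ R ^ 85
    · left
      rw [mem_Ioc]
      omega
    · right
      rw [mem_filter, mem_Ioc]
      refine ⟨⟨by omega, hkx⟩, ?_⟩
      have h3 := hF R (R ^ 2) (R ^ 20) k T (by omega) (by nlinarith) (by
        calc (R ^ 2) ^ 2 = R ^ 4 := by ring
          _ ≤ R ^ 20 := Nat.pow_le_pow_right (by omega) (by norm_num)) (by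
        calc R * (R ^ 2) ^ 2 * (R ^ 20) ^ 4 = R ^ 85 := by ring
          _ < k := by omega) (fun p hp => ⟨(hT p hp).2.1, (hT p hp).2.2.1, (hT p hp).2.2.2⟩)
      have h4 : (E.filter (fun i => mo i ∣ k + re i)).card ≤ Pool.Agent.SPM.N k := by
        refine le_trans (card_le_card ?_) h3
        rw [hE]
        exact filter_subset_filter _ (filter_subset _ _)
      have h5 : (((E.filter (fun i => mo i ∣ k + re i)).card : ℕ) : ℝ) ≤ Pool.Agent.SPM.N k := by exact_mod_cast h4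
      exact lt_of_le_of_lt h5 (lt_of_lt_of_le hk3 hth)
  obtain ⟨B, hB⟩ : ∃ B : ℕ, B = ((Ioc 0 x).filter (fun k => (((E.filter (fun i => mo i ∣ k + re i)).card : ℕ) : ℝ) < μ / 2)).card :=
    ⟨_, rfl⟩
  rw [← hB] at h2
  have h3 : (((Icc 2 x).filter (fun k => (Pool.Agent.SPM.N k : ℝ) < 10 * δ * W)).card : ℝ) ≤ (R : ℝ) ^ 85 + B := by
    have h4 := (card_le_card hsub).trans (card_union_le _ _)
    rw [Nat.card_Ioc, ← hB, Nat.sub_zero] at h4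
    exact_mod_cast h4
  refine h3.trans ?_
  have hcard : ((E.card : ℕ) : ℝ) ^ 2 ≤ (R : ℝ) ^ 94 := by
    have h4 := card_Idx hR hT3
    have h4' : E.card ≤ R ^ 47 := by
      refine le_trans ?_ h4
      rw [hE]
      exact card_le_card (filter_subset _ _)
    have h5 : ((E.card : ℕ) : ℝ) ≤ (R : ℝ) ^ 47 := by exact_mod_cast h4'
    calc ((E.card : ℕ) : ℝ) ^ 2 ≤ ((R : ℝ) ^ 47) ^ 2 := by gcongr
      _ = (R : ℝ) ^ 94 := by ring
  have hx : (0 : ℝ) ≤ x := Nat.cast_nonneg x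
  have hDd := alg46c C l W R (Real.sqrt z) hC hl1 hW hR0 hs0 hlR
  rw [← hVt] at hDd
  have hVt0 : 0 ≤ Vt := by
    rw [hVt]
    positivity
  have hA : 4 * (x * Vt + 3 * (E.card : ℝ) ^ 2) / μ ^ 2 ≤ 4 * (x * Vt + 3 * (E.card : ℝ) ^ 2) / (20 * δ * W * l ^ 2) ^ 2 := by
    apply div_le_div_of_nonneg_left (by positivity) (by positivity)
    exact pow_le_pow_left₀ (by positivity) hμ0 2
  have hBb : 4 * (x * Vt + 3 * (E.card : ℝ) ^ 2) / (20 * δ * W * l ^ 2) ^ 2 =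
      x / δ ^ 2 * (Vt / (10 * W * l ^ 2) ^ 2) + 12 * (E.card : ℝ) ^ 2 / (20 * δ * W * l ^ 2) ^ 2 := by
    field_simp
    ring
  have hCc : 12 * (E.card : ℝ) ^ 2 / (20 * δ * W * l ^ 2) ^ 2 ≤ 12 * (R : ℝ) ^ 94 := by
    have h100 : 1 ≤ (20 * δ * W * l ^ 2) ^ 2 := one_le_pow₀ (by linarith)
    calc 12 * (E.card : ℝ) ^ 2 / (20 * δ * W * l ^ 2) ^ 2 ≤ 12 * (E.card : ℝ) ^ 2 / 1 := by
          apply div_le_div_of_nonneg_left (by positivity) (by norm_num) h100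
      _ = 12 * (E.card : ℝ) ^ 2 := by ring
      _ ≤ _ := by linarith
  have hR85 : (R : ℝ) ^ 85 ≤ (R : ℝ) ^ 94 := pow_le_pow_right₀ (by linarith) (by norm_num)
  have hDx : x / δ ^ 2 * (Vt / (10 * W * l ^ 2) ^ 2) ≤ x / δ ^ 2 * (C * (16 / Real.sqrt z + 3360 / R + 1 / W)) :=
    mul_le_mul_of_nonneg_left hDd (by positivity)
  have hfin : C * x / δ ^ 2 * (16 / Real.sqrt z + 3360 / R + 1 / W) =
      x / δ ^ 2 * (C * (16 / Real.sqrt z + 3360 / R + 1 / W)) := by ring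
  rw [hfin]
  linarith

end Pool.Agent.SPA
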