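import Pool.Agent.SPA.Stmts10

/-!
# The order of `log (N k)`: both halves together
-/

set_option autoImplicit false

namespace Pool.Agent.SPA

open Finset

theorem G_nonneg46 {x : ℕ} (hx : 16 ≤ x) : 0 ≤ G x := by
  have hx' : (16 : ℝ) ≤ x := by exact_mod_cast hx
  have h16 : Real.log 16 ≤ Real.log x := Real.log_le_log (by norm_num) hx'
  have h2 : Real.log 16 = 4 * Real.log 2 := by
    rw [show (16 : ℝ) = 2 ^ 4 by norm_num, Real.log_pow]; norm_num
  have he : Real.exp 1 ≤ Real.log x := by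
    have := Real.exp_one_lt_d9
    have := Real.log_two_gt_d9
    linarith
  have hl1 : 1 ≤ Real.log (Real.log x) := by
    rw [Real.le_log_iff_exp_le (lt_of_lt_of_le (Real.exp_pos 1) he)]; exact he
  have hl2 : 0 ≤ Real.log (Real.log (Real.log x)) := Real.log_nonneg hl1
  unfold G
  exact div_nonneg (mul_nonneg (Real.sqrt_nonneg _) hl2) (by linarith)

theorem main10_of46 (hL : Low10) (hU : Up10) : Main10 := by
  obtain ⟨c₁, B₁, hc₁, h₁⟩ := hL
  obtain ⟨C, B₂, c₂, hC, hc₂, h₂⟩ := hU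
  refine ⟨min c₁ c₂, C, |B₁| + |B₂|, lt_min hc₁ hc₂, hC, fun x hx => ?_⟩
  have hG := G_nonneg46 hx
  have hm1 : min c₁ c₂ * G x ≤ c₁ * G x := mul_le_mul_of_nonneg_right (min_le_left _ _) hG
  have hm2 : min c₁ c₂ * G x ≤ c₂ * G x := mul_le_mul_of_nonneg_right (min_le_right _ _) hG
  have hsub : (Icc 2 x).filter (fun k => ¬ (Real.exp (min c₁ c₂ * G x) ≤ (Pool.Agent.SPM.N k : ℝ) ∧
        (Pool.Agent.SPM.N k : ℝ) ≤ Real.exp (C * G x))) ⊆
      (Icc 2 x).filter (fun k => (Pool.Agent.SPM.N k : ℝ) < Real.exp (c₁ * G x)) ∪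
      (Icc 2 x).filter (fun k => Real.exp (C * G x) < (Pool.Agent.SPM.N k : ℝ)) := by
    intro k hk
    simp only [mem_filter, mem_union] at hk ⊢
    obtain ⟨hk1, hk2⟩ := hk
    by_cases h : Real.exp (C * G x) < (Pool.Agent.SPM.N k : ℝ)
    · exact Or.inr ⟨hk1, h⟩
    · left
      refine ⟨hk1, ?_⟩
      by_contra hcon
      refine hk2 ⟨?_, not_lt.mp h⟩
      exact le_trans (Real.exp_le_exp.mpr hm1) (not_lt.mp hcon)
  have hcard := (Finset.card_le_card hsub).trans (Finset.card_union_le _ _)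
  have hcard' : (((Icc 2 x).filter (fun k => ¬ (Real.exp (min c₁ c₂ * G x) ≤ (Pool.Agent.SPM.N k : ℝ) ∧
        (Pool.Agent.SPM.N k : ℝ) ≤ Real.exp (C * G x)))).card : ℝ) ≤
      (((Icc 2 x).filter (fun k => (Pool.Agent.SPM.N k : ℝ) < Real.exp (c₁ * G x))).card : ℝ) +
      (((Icc 2 x).filter (fun k => Real.exp (C * G x) < (Pool.Agent.SPM.N k : ℝ))).card : ℝ) := by
    exact_mod_cast hcard
  have hx0 : (0 : ℝ) ≤ x := Nat.cast_nonneg x
  have e1 : B₁ * x * Real.exp (-(c₁ * G x)) ≤ |B₁| * x * Real.exp (-(min c₁ c₂ * G x)) := by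
    apply mul_le_mul
    · exact mul_le_mul_of_nonneg_right (le_abs_self _) hx0
    · exact Real.exp_le_exp.mpr (by linarith)
    · exact (Real.exp_pos _).le
    · positivity
  have e2 : B₂ * x * Real.exp (-(c₂ * G x)) ≤ |B₂| * x * Real.exp (-(min c₁ c₂ * G x)) := by
    apply mul_le_mul
    · exact mul_le_mul_of_nonneg_right (le_abs_self _) hx0
    · exact Real.exp_le_exp.mpr (by linarith)
    · exact (Real.exp_pos _).le
    · positivity
  have a1 := h₁ x hx
  have a2 := h₂ x hx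
  calc _ ≤ _ := hcard'
    _ ≤ |B₁| * x * Real.exp (-(min c₁ c₂ * G x)) + |B₂| * x * Real.exp (-(min c₁ c₂ * G x)) :=
        add_le_add (a1.trans e1) (a2.trans e2)
    _ = _ := by ring

end Pool.Agent.SPA
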