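import Pool.Agent.SPA.Stmts8
import Pool.Agent.SPA.Stmts9

/-!
# The two-sided statement from the lower and the upper bound
-/

set_option autoImplicit false

namespace Pool.Agent.SPA

open Finset

theorem main9_of (h8 : Main8) (hu : RowUp) : Main9 := by
  obtain ⟨c, B, hc, h8⟩ := h8
  obtain ⟨B', hu⟩ := hu
  refine ⟨min c 1, max B 0 + max B' 0, lt_min hc one_pos, ?_⟩
  intro x hx
  have hx16 : (16 : ℝ) ≤ x := by exact_mod_cast hx
  have hl : Real.exp 1 ≤ Real.log x := by
    have h1 : Real.log 16 ≤ Real.log x := Real.log_le_log (by norm_num) hx16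
    have h2 : Real.log 16 = 4 * Real.log 2 := by
      rw [show (16 : ℝ) = 2 ^ 4 by norm_num, Real.log_pow]
      norm_num
    have h3 := Real.log_two_gt_d9
    have h4 := Real.exp_one_lt_d9
    linarith
  have hl0 : 0 < Real.log x := (Real.exp_pos 1).trans_le hl
  have hll : 1 ≤ Real.log (Real.log x) := by
    rw [Real.le_log_iff_exp_le hl0]
    exact hl
  have hll0 : 0 < Real.log (Real.log x) := by linarith
  set s := Real.sqrt (Real.log x) with hs
  have hs0 : 0 ≤ s := Real.sqrt_nonneg _
  have hx0 : (0 : ℝ) ≤ x := by positivity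
  set q := s / Real.log (Real.log x) with hq
  have hq0 : 0 ≤ q := by positivity
  have hqs : q ≤ s := div_le_self hs0 hll
  have e1 : ∀ t : ℝ, t * s / Real.log (Real.log x) = t * q := fun t => by rw [hq, mul_div_assoc]
  have h1 := h8 x (by omega)
  have h2 := hu x (by omega)
  have e2 : ∀ t : ℝ, t * Real.sqrt (Real.log x) / Real.log (Real.log x) = t * q := e1
  simp only [e2] at h1
  simp only [e1]
  have hcc : min c 1 * q ≤ c * q := mul_le_mul_of_nonneg_right (min_le_left _ _) hq0
  have hc1 : min c 1 * q ≤ s := by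
    calc min c 1 * q ≤ 1 * q := mul_le_mul_of_nonneg_right (min_le_right _ _) hq0
      _ = q := one_mul _
      _ ≤ s := hqs
  have hsub : (Icc 2 x).filter (fun k => ¬ (Real.exp (min c 1 * q) ≤ (Pool.Agent.SPM.N k : ℝ) ∧
        (Pool.Agent.SPM.N k : ℝ) ≤ Real.exp (4 * s))) ⊆
      (Icc 2 x).filter (fun k => (Pool.Agent.SPM.N k : ℝ) < Real.exp (c * q)) ∪
      (Icc 2 x).filter (fun k => Real.exp (4 * s) < (Pool.Agent.SPM.N k : ℝ)) := by
    intro k hk
    rw [Finset.mem_filter] at hk
    rw [Finset.mem_union, Finset.mem_filter, Finset.mem_filter]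
    obtain ⟨hk1, hk2⟩ := hk
    by_cases h : (Pool.Agent.SPM.N k : ℝ) < Real.exp (c * q)
    · exact Or.inl ⟨hk1, h⟩
    · right
      refine ⟨hk1, ?_⟩
      by_contra hcon
      apply hk2
      refine ⟨?_, not_lt.1 hcon⟩
      exact (Real.exp_le_exp.2 hcc).trans (not_lt.1 h)
  have hcard := (Finset.card_le_card hsub).trans (Finset.card_union_le _ _)
  have hcard' : (((Icc 2 x).filter (fun k => ¬ (Real.exp (min c 1 * q) ≤ (Pool.Agent.SPM.N k : ℝ) ∧
        (Pool.Agent.SPM.N k : ℝ) ≤ Real.exp (4 * s)))).card : ℝ) ≤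
      (((Icc 2 x).filter (fun k => (Pool.Agent.SPM.N k : ℝ) < Real.exp (c * q))).card : ℝ) +
      (((Icc 2 x).filter (fun k => Real.exp (4 * s) < (Pool.Agent.SPM.N k : ℝ))).card : ℝ) := by
    exact_mod_cast hcard
  refine hcard'.trans ?_
  have b1 : B * x * Real.exp (-(c * q)) ≤ max B 0 * x * Real.exp (-(min c 1 * q)) := by
    apply mul_le_mul
    · exact mul_le_mul_of_nonneg_right (le_max_left _ _) hx0
    · exact Real.exp_le_exp.2 (by linarith)
    · exact (Real.exp_pos _).le
    · exact mul_nonneg (le_max_right _ _) hx0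
  have b2 : B' * x * Real.exp (-s) ≤ max B' 0 * x * Real.exp (-(min c 1 * q)) := by
    apply mul_le_mul
    · exact mul_le_mul_of_nonneg_right (le_max_left _ _) hx0
    · exact Real.exp_le_exp.2 (by linarith)
    · exact (Real.exp_pos _).le
    · exact mul_nonneg (le_max_right _ _) hx0
  calc _ ≤ B * x * Real.exp (-(c * q)) + B' * x * Real.exp (-s) := add_le_add h1 h2
    _ ≤ max B 0 * x * Real.exp (-(min c 1 * q)) + max B' 0 * x * Real.exp (-(min c 1 * q)) := add_le_add b1 b2
    _ = (max B 0 + max B' 0) * x * Real.exp (-(min c 1 * q)) := by ring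

end Pool.Agent.SPA
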