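import Pool.Agent.SPA.Up1046
import Pool.Agent.SPA.As1069

/-!
# The order of `log (N k)` for almost all `k`
-/

set_option autoImplicit false

namespace Pool.Agent.SPA

theorem main10 : Main10 := main10_as46 As1069.as10

end Pool.Agent.SPA
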