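import Pool.Agent.SPA.All46
import Pool.Agent.SPA.RowG820
import Pool.Agent.SPA.As892
import Pool.Agent.SPA.up77
import Pool.Agent.SPA.M977

/-!
# The main theorem: the typical size of `N k`
-/

set_option autoImplicit false

namespace Pool.Agent.SPA

theorem main8 : Main8 := by
  obtain ⟨C, c, K, hC, hc, hc1, hK, h⟩ := all46
  exact as892 C c K hC hc hc1 hK h G820.g8

theorem main46 : Main9 := main9_of main8 up77

end Pool.Agent.SPA
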