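import Pool.Agent.SPA.All46
import Pool.Agent.SPA.G646
import Pool.Agent.SPA.As692

/-!
# The form with the exponent 1/3 (superseded)
-/

set_option autoImplicit false

namespace Pool.Agent.SPA

theorem main6 : Main6 := by
  obtain ⟨C, c, K, hC, hc, hc1, hK, h⟩ := all46
  exact as6 C c K hC hc hc1 hK h G646.g646

end Pool.Agent.SPA
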