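import Pool.Agent.SPA.Stmts8
import Pool.Agent.SPA.Stmts9

/-!
# The two-sided statement from the two rows
-/

set_option autoImplicit false

namespace Pool.Agent.SPA.Main920

open Finset

theorem main9 (h8 : Main8) (hU : RowUp) : Main9 := by
  classical
  obtain ⟨c, B, hc, h⟩ := h8
  obtain ⟨B2, h2⟩ := hU
  refine ⟨min c 1, |B| + |B2|, lt_min hc one_pos, fun x hx => ?_⟩
  have hx0 : (0 : ℝ) ≤ x := Nat.cast_nonneg _
  have hx16 : (16 : ℝ) ≤ x := by exact_mod_cast hx
  have hl16 : Real.exp 1 ≤ Real.log x := by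
    have h3 : Real.log 16 ≤ Real.log x := Real.log_le_log (by norm_num) hx16
    have h4 : Real.log 16 = 4 * Real.log 2 := by
      rw [show (16 : ℝ) = 2 ^ 4 by norm_num, Real.log_pow]
      norm_num
    have h5 := Real.log_two_gt_d9
    have h6 := Real.exp_one_lt_d9
    linarith
  obtain ⟨S, hS⟩ : ∃ S, S = Real.sqrt (Real.log x) := ⟨_, rfl⟩
  obtain ⟨l, hl⟩ : ∃ l, l = Real.log (Real.log x) := ⟨_, rfl⟩
  have h3 := h x (by omega)
  have h4 := h2 x (by omega)
  rw [← hS] at h3 h4 ⊢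
  rw [← hl] at h3 ⊢
  have hl1 : 1 ≤ l := by
    rw [hl, Real.le_log_iff_exp_le (lt_of_lt_of_le (Real.exp_pos 1) hl16)]
    exact hl16
  have hS0 : 0 ≤ S := by rw [hS]; exact Real.sqrt_nonneg _
  have hm0 : 0 < min c 1 := lt_min hc one_pos
  have t1 : min c 1 * S / l ≤ c * S / l :=
    div_le_div_of_nonneg_right (mul_le_mul_of_nonneg_right (min_le_left _ _) hS0) (by linarith)
  have t2 : min c 1 * S / l ≤ S := by
    rw [div_le_iff₀ (by linarith)]
    calc min c 1 * S ≤ 1 * S := mul_le_mul_of_nonneg_right (min_le_right _ _) hS0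
      _ = S * 1 := by ring
      _ ≤ S * l := mul_le_mul_of_nonneg_left hl1 hS0
  have hsub : (Icc 2 x).filter (fun k => ¬ (Real.exp (min c 1 * S / l) ≤ (Pool.Agent.SPM.N k : ℝ) ∧
      (Pool.Agent.SPM.N k : ℝ) ≤ Real.exp (4 * S))) ⊆
      (Icc 2 x).filter (fun k => (Pool.Agent.SPM.N k : ℝ) < Real.exp (c * S / l)) ∪
      (Icc 2 x).filter (fun k => Real.exp (4 * S) < (Pool.Agent.SPM.N k : ℝ)) := by
    intro k hk
    rw [mem_filter, not_and_or, not_le, not_le] at hk
    rw [mem_union, mem_filter, mem_filter]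
    rcases hk.2 with h5 | h5
    · exact Or.inl ⟨hk.1, lt_of_lt_of_le h5 (Real.exp_le_exp.2 t1)⟩
    · exact Or.inr ⟨hk.1, h5⟩
  have h5 : (((Icc 2 x).filter (fun k => ¬ (Real.exp (min c 1 * S / l) ≤ (Pool.Agent.SPM.N k : ℝ) ∧
      (Pool.Agent.SPM.N k : ℝ) ≤ Real.exp (4 * S)))).card : ℝ) ≤
      (((Icc 2 x).filter (fun k => (Pool.Agent.SPM.N k : ℝ) < Real.exp (c * S / l))).card : ℝ) +
      (((Icc 2 x).filter (fun k => Real.exp (4 * S) < (Pool.Agent.SPM.N k : ℝ))).card : ℝ) := by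
    exact_mod_cast (card_le_card hsub).trans (card_union_le _ _)
  have e1 : B * x * Real.exp (-(c * S / l)) ≤ |B| * x * Real.exp (-(min c 1 * S / l)) := by
    refine mul_le_mul (mul_le_mul_of_nonneg_right (le_abs_self B) hx0) (Real.exp_le_exp.2 (by linarith))
      (Real.exp_pos _).le (by positivity)
  have e2 : B2 * x * Real.exp (-S) ≤ |B2| * x * Real.exp (-(min c 1 * S / l)) := by
    refine mul_le_mul (mul_le_mul_of_nonneg_right (le_abs_self B2) hx0) (Real.exp_le_exp.2 (by linarith))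
      (Real.exp_pos _).le (by positivity)
  calc _ ≤ _ := h5
    _ ≤ |B| * x * Real.exp (-(min c 1 * S / l)) + |B2| * x * Real.exp (-(min c 1 * S / l)) := by linarith
    _ = _ := by ring

end Pool.Agent.SPA.Main920
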