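import Pool.Agent.SPA.All46
import Pool.Agent.SPA.As892
import Pool.Agent.SPA.RowG820
import Pool.Agent.SPA.M977
import Pool.Agent.SPA.up77

/-!
# The two-sided theorem, composition (helper92)
-/

set_option autoImplicit false

namespace Pool.Agent.SPA

theorem main8_92 : Main8 := by
  obtain ⟨C, c, K, hC, hc, hc1, hK, h⟩ := all46
  exact as892 C c K hC hc hc1 hK h G820.g8

theorem main9_92 : Main9 := main9_of main8_92 up77

end Pool.Agent.SPA
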