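import Pool.Agent.SPM.RecAP92

/-!
# Reciprocals of the primes in dyadic blocks (helper92)
-/

set_option autoImplicit false

namespace Pool.Agent.SPA.Pb92

open Finset Pool.Agent.SPM

theorem block1 : ∃ j₀ : ℕ, ∀ j : ℕ, j₀ ≤ j →
    (1 : ℝ) / (4 * (j + 1)) ≤ ∑ p ∈ (Ioc (2 ^ j) (2 ^ (j + 1))).filter Nat.Prime, (1 : ℝ) / p := by
  obtain ⟨j₀, hj₀⟩ := blockAP (m := 1) (a := (1 : ZMod 1)) isUnit_one
  refine ⟨j₀, fun j hj => ?_⟩
  have h := hj₀ j hj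
  have hset : prAP (1 : ZMod 1) (2 ^ (j + 1)) \ prAP (1 : ZMod 1) (2 ^ j) =
      (Ioc (2 ^ j) (2 ^ (j + 1))).filter Nat.Prime := by
    ext p
    rw [mem_sdiff, mem_prAP, mem_prAP, mem_filter, mem_Ioc]
    constructor
    · rintro ⟨⟨h1, h2, h3⟩, h4⟩
      refine ⟨⟨?_, h3⟩, h1⟩
      by_contra h5
      exact h4 ⟨h1, h2, not_lt.1 h5⟩
    · rintro ⟨⟨h1, h2⟩, h3⟩
      exact ⟨⟨h3, Subsingleton.elim _ _, h2⟩, fun h4 => absurd h4.2.2 (not_le.2 h1)⟩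
  rw [hset, Nat.totient_one] at h
  have hl2 : 0 < Real.log 2 := Real.log_pos (by norm_num)
  have hl2' : Real.log 2 < 1 := by
    have := Real.log_two_lt_d9
    linarith
  have hj1 : (0 : ℝ) < (j : ℝ) + 1 := by positivity
  have h2 : ∑ p ∈ (Ioc (2 ^ j) (2 ^ (j + 1))).filter Nat.Prime, Real.log p ≤
      ∑ p ∈ (Ioc (2 ^ j) (2 ^ (j + 1))).filter Nat.Prime, (((j : ℝ) + 1) * 2 ^ (j + 1)) * ((1 : ℝ) / p) := by
    apply sum_le_sum
    intro p hp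
    rw [mem_filter, mem_Ioc] at hp
    have hp0 : (0 : ℝ) < p := by exact_mod_cast hp.2.pos
    have hpl : (p : ℝ) ≤ 2 ^ (j + 1) := by exact_mod_cast hp.1.2
    have h3 : Real.log p ≤ (j : ℝ) + 1 := by
      have h4 : Real.log p ≤ Real.log ((2 : ℝ) ^ (j + 1)) := Real.log_le_log hp0 hpl
      rw [Real.log_pow] at h4
      push_cast at h4
      nlinarith
    have h4 : (1 : ℝ) ≤ 2 ^ (j + 1) / p := by
      rw [le_div_iff₀ hp0]
      linarith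
    calc Real.log p ≤ ((j : ℝ) + 1) * 1 := by linarith
      _ ≤ ((j : ℝ) + 1) * (2 ^ (j + 1) / p) := mul_le_mul_of_nonneg_left h4 hj1.le
      _ = (((j : ℝ) + 1) * 2 ^ (j + 1)) * ((1 : ℝ) / p) := by ring
  rw [← mul_sum] at h2
  have h3 := h.trans h2
  push_cast at h3
  rw [div_le_iff₀ (by positivity)]
  have h5 : (0 : ℝ) < 2 ^ j := by positivity
  rw [pow_succ] at h3
  have h6 : (2 : ℝ) ^ j * 1 ≤ 2 ^ j * ((∑ p ∈ (Ioc (2 ^ j) (2 ^ (j + 1))).filter Nat.Prime, (1 : ℝ) / p) * (4 * ((j : ℝ) + 1))) := by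
    have h7 : (2 : ℝ) ^ j / (2 * 1) * 2 ≤ (((j : ℝ) + 1) * (2 ^ j * 2) *
        ∑ p ∈ (Ioc (2 ^ j) (2 ^ (j + 1))).filter Nat.Prime, (1 : ℝ) / p) * 2 :=
      mul_le_mul_of_nonneg_right h3 (by norm_num)
    linarith
  exact le_of_mul_le_mul_left h6 h5

theorem pblock92 : ∃ j₀ : ℕ, ∀ a L : ℕ, j₀ ≤ a →
    (L : ℝ) / (4 * (a + L)) ≤ ∑ p ∈ (Ioc (2 ^ a) (2 ^ (a + L))).filter Nat.Prime, (1 : ℝ) / p := by
  obtain ⟨j₀, hj₀⟩ := block1
  refine ⟨j₀, fun a L ha => ?_⟩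
  have h1 : ∀ L : ℕ, ∑ j ∈ range L, (1 : ℝ) / (4 * ((a + j : ℕ) + 1)) ≤
      ∑ p ∈ (Ioc (2 ^ a) (2 ^ (a + L))).filter Nat.Prime, (1 : ℝ) / p := by
    intro L
    induction L with
    | zero => simp
    | succ L ih =>
      rw [sum_range_succ]
      have hsplit : (Ioc (2 ^ a) (2 ^ (a + (L + 1)))).filter Nat.Prime =
          (Ioc (2 ^ a) (2 ^ (a + L))).filter Nat.Prime ∪ (Ioc (2 ^ (a + L)) (2 ^ (a + L + 1))).filter Nat.Prime := by
        have h2 : 2 ^ a ≤ 2 ^ (a + L) := Nat.pow_le_pow_right (by norm_num) (by omega)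
        have h3 : 2 ^ (a + L) ≤ 2 ^ (a + L + 1) := Nat.pow_le_pow_right (by norm_num) (by omega)
        ext p
        simp only [mem_filter, mem_Ioc, mem_union]
        rw [show a + (L + 1) = a + L + 1 by ring]
        constructor
        · rintro ⟨⟨h4, h5⟩, h6⟩
          by_cases h7 : p ≤ 2 ^ (a + L)
          · exact Or.inl ⟨⟨h4, h7⟩, h6⟩
          · exact Or.inr ⟨⟨by omega, h5⟩, h6⟩
        · rintro (⟨⟨h4, h5⟩, h6⟩ | ⟨⟨h4, h5⟩, h6⟩)
          · exact ⟨⟨h4, by omega⟩, h6⟩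
          · exact ⟨⟨by omega, h5⟩, h6⟩
      have hdisj : Disjoint ((Ioc (2 ^ a) (2 ^ (a + L))).filter Nat.Prime)
          ((Ioc (2 ^ (a + L)) (2 ^ (a + L + 1))).filter Nat.Prime) := by
        rw [disjoint_left]
        intro p hp hq
        rw [mem_filter, mem_Ioc] at hp hq
        omega
      rw [hsplit, sum_union hdisj]
      exact add_le_add ih (hj₀ (a + L) (by omega))
  refine le_trans ?_ (h1 L)
  rcases Nat.eq_zero_or_pos L with hL | hL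
  · subst hL; simp
  have hL0 : (0 : ℝ) < L := by exact_mod_cast hL
  have h2 : ∑ j ∈ range L, (1 : ℝ) / (4 * ((a : ℝ) + L)) ≤ ∑ j ∈ range L, (1 : ℝ) / (4 * ((a + j : ℕ) + 1)) := by
    apply sum_le_sum
    intro j hj
    rw [mem_range] at hj
    apply one_div_le_one_div_of_le (by positivity)
    have h3 : ((a + j : ℕ) : ℝ) + 1 ≤ (a : ℝ) + L := by
      have : a + j + 1 ≤ a + L := by omega
      exact_mod_cast this
    linarith
  rw [sum_const, card_range, nsmul_eq_mul] at h2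
  calc (L : ℝ) / (4 * (a + L)) = L * (1 / (4 * ((a : ℝ) + L))) := by ring
    _ ≤ _ := h2

end Pool.Agent.SPA.Pb92
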