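import Pool.Agent.SPA.G1020
import Pool.Agent.SPA.Stmts10

/-!
# Row G10 (MP_7a4c99)
-/

set_option autoImplicit false

namespace Pool.Agent.SPA.G1020

theorem rowG10 : RowG10 := g10

end Pool.Agent.SPA.G1020
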