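import Pool.Agent.SPA.S69

/-!
# Row S1 in the form used by the assembly (helper69)
-/

set_option autoImplicit false

namespace Pool.Agent.SPA.S69

open Finset

theorem s1all (A z N t : ℕ) (S : ℝ) (hA : 1 ≤ A) (hN : 2 ≤ N)
    (hS : ∑ q ∈ (Icc 1 z).filter Nat.Prime, (1 : ℝ) / q ≤ S) :
    (N : ℝ) * (∏ q ∈ (Icc 1 z).filter Nat.Prime, (1 - 1 / (q : ℝ)) - S ^ (2 * t + 2) / (2 * t + 2).factorial) -
      (1 + (z : ℝ)) ^ (2 * t + 1)
    ≤ (((Ioc N (2 * N)).filter (fun v => z < (A * v - 1).minFac)).card : ℝ) := by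
  classical
  have hsub : PA A z ⊆ (Icc 1 z).filter Nat.Prime := by
    intro q hq
    rw [mem_PA] at hq
    rw [mem_filter, mem_Icc]
    exact ⟨⟨hq.1.one_lt.le, hq.2.1⟩, hq.1⟩
  have h01 : ∀ q ∈ (Icc 1 z).filter Nat.Prime, 0 ≤ 1 - 1 / (q : ℝ) ∧ 1 - 1 / (q : ℝ) ≤ 1 := by
    intro q hq
    rw [mem_filter] at hq
    have h1 : (1 : ℝ) ≤ q := by exact_mod_cast hq.2.one_lt.le
    have h2 : 1 / (q : ℝ) ≤ 1 := by
      rw [div_le_one (by linarith)]
      exact h1
    have h3 : (0 : ℝ) ≤ 1 / (q : ℝ) := by positivity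
    constructor <;> linarith
  have hsum : ∑ q ∈ PA A z, (1 : ℝ) / q ≤ S :=
    (Finset.sum_le_sum_of_subset_of_nonneg hsub fun q _ _ => by positivity).trans hS
  have hsum0 : 0 ≤ ∑ q ∈ PA A z, (1 : ℝ) / q := Finset.sum_nonneg fun q _ => by positivity
  have hprod : ∏ q ∈ (Icc 1 z).filter Nat.Prime, (1 - 1 / (q : ℝ)) ≤ ∏ q ∈ PA A z, (1 - 1 / (q : ℝ)) := by
    rw [← Finset.prod_sdiff hsub]
    have h1 : ∏ q ∈ (Icc 1 z).filter Nat.Prime \ PA A z, (1 - 1 / (q : ℝ)) ≤ 1 :=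
      Finset.prod_le_one (fun q hq => (h01 q (mem_sdiff.1 hq).1).1) fun q hq => (h01 q (mem_sdiff.1 hq).1).2
    have h2 : 0 ≤ ∏ q ∈ PA A z, (1 - 1 / (q : ℝ)) := Finset.prod_nonneg fun q hq => (h01 q (hsub hq)).1
    calc _ ≤ 1 * ∏ q ∈ PA A z, (1 - 1 / (q : ℝ)) := mul_le_mul_of_nonneg_right h1 h2
      _ = _ := one_mul _
  have hpow : (∑ q ∈ PA A z, 1 / (q : ℝ)) ^ (2 * t + 2) / (2 * t + 2).factorial ≤
      S ^ (2 * t + 2) / (2 * t + 2).factorial :=
    div_le_div_of_nonneg_right (pow_le_pow_left₀ hsum0 hsum _) (by positivity)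
  have hN0 : (0 : ℝ) ≤ N := Nat.cast_nonneg N
  have key : (N : ℝ) * (∏ q ∈ (Icc 1 z).filter Nat.Prime, (1 - 1 / (q : ℝ)) - S ^ (2 * t + 2) / (2 * t + 2).factorial) ≤
      (N : ℝ) * (∏ q ∈ PA A z, (1 - 1 / (q : ℝ)) -
        (∑ q ∈ PA A z, 1 / (q : ℝ)) ^ (2 * t + 2) / (2 * t + 2).factorial) :=
    mul_le_mul_of_nonneg_left (by linarith) hN0
  by_cases hz : 3 ≤ z
  · have := s1 A z N t hA hz
    linarith
  -- `z ≤ 2`
  have hle := brunLow (PA A z) (fun q hq => (mem_PA.1 hq).1)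
  have hex : ∀ q : ℕ, ∃ c : ℕ, q ∈ PA A z → c < q ∧ ∀ k : ℕ, 1 ≤ A * (N + k) → q ∣ A * (N + k) - 1 → k % q = c := by
    intro q
    by_cases hq : q ∈ PA A z
    · obtain ⟨c, h1, h2⟩ := cls_exists N (mem_PA.1 hq).1 (mem_PA.1 hq).2.2
      exact ⟨c, fun _ => ⟨h1, h2⟩⟩
    · exact ⟨0, fun h => absurd h hq⟩
  choose c hc using hex
  have hb := hle (fun q => {c q}) (by
    intro q hq r hr
    rw [mem_singleton] at hr
    rw [hr]
    exact (hc q hq).1) N t
  simp only [card_singleton, Nat.cast_one, sum_const, nsmul_eq_mul, mul_one] at hb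
  have hcard : ((PA A z).card : ℝ) ≤ z := by exact_mod_cast card_PA A z
  have hpow2 : (1 + ((PA A z).card : ℝ)) ^ (2 * t + 1) ≤ (1 + z : ℝ) ^ (2 * t + 1) :=
    pow_le_pow_left₀ (by positivity) (by linarith) _
  have hinj : (((Icc 1 N).filter (fun k => ∀ q ∈ PA A z, k % q ∉ ({c q} : Finset ℕ))).card : ℝ) ≤
      (((Ioc N (2 * N)).filter (fun v => z < (A * v - 1).minFac)).card : ℝ) := by
    have : ((Icc 1 N).filter (fun k => ∀ q ∈ PA A z, k % q ∉ ({c q} : Finset ℕ))).card ≤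
        ((Ioc N (2 * N)).filter (fun v => z < (A * v - 1).minFac)).card := by
      refine Finset.card_le_card_of_injOn (fun k => N + k) ?_ ?_
      · intro k hk
        rw [Finset.mem_coe, mem_filter, mem_Icc] at hk
        rw [Finset.mem_coe, mem_filter, mem_Ioc]
        obtain ⟨⟨hk1, hk2⟩, hk3⟩ := hk
        change (N < N + k ∧ N + k ≤ 2 * N) ∧ z < (A * (N + k) - 1).minFac
        refine ⟨⟨by omega, by omega⟩, ?_⟩
        have hv : 3 ≤ A * (N + k) := by
          calc 3 ≤ 1 * (N + k) := by omega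
            _ ≤ A * (N + k) := Nat.mul_le_mul_right _ hA
        by_contra hcon
        push Not at hcon
        have hne : A * (N + k) - 1 ≠ 1 := by omega
        have hpr := Nat.minFac_prime hne
        have hdv := Nat.minFac_dvd (A * (N + k) - 1)
        have hq : (A * (N + k) - 1).minFac ∈ PA A z := by
          refine mem_PA.2 ⟨hpr, hcon, fun hd => ?_⟩
          have h1 : (A * (N + k) - 1).minFac ∣ A * (N + k) := hd.mul_right _
          have h2 : (A * (N + k) - 1).minFac ∣ 1 := by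
            have := (Nat.dvd_sub h1 hdv)
            have e : A * (N + k) - (A * (N + k) - 1) = 1 := by omega
            rwa [e] at this
          exact hpr.one_lt.ne' (Nat.dvd_one.1 h2)
        have := (hc _ hq).2 k (by omega) hdv
        exact hk3 _ hq (mem_singleton.2 this)
      · intro a _ b _ hab
        exact Nat.add_left_cancel hab
    exact_mod_cast this
  linarith

theorem dyJ (p : ℕ → Prop) [DecidablePred p] (V : ℕ) (δ : ℝ) (hV : 1 ≤ V)
    (h : ∀ N : ℕ, V ≤ N → δ * N ≤ (((Ioc N (2 * N)).filter p).card : ℝ)) (J : ℕ) :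
    (J : ℝ) * (δ / 2) ≤ ∑ v ∈ (Ioc V (V * 2 ^ J)).filter p, (1 : ℝ) / v := by
  induction J with
  | zero => simp
  | succ J ih =>
    have hp : 1 ≤ 2 ^ J := Nat.one_le_two_pow
    have hle : V ≤ V * 2 ^ J := Nat.le_mul_of_pos_right V (by positivity)
    have e : V * 2 ^ (J + 1) = 2 * (V * 2 ^ J) := by ring
    have hu : Ioc V (V * 2 ^ (J + 1)) = Ioc V (V * 2 ^ J) ∪ Ioc (V * 2 ^ J) (2 * (V * 2 ^ J)) := by
      rw [e, Finset.Ioc_union_Ioc_eq_Ioc hle (by omega)]
    have hd : Disjoint ((Ioc V (V * 2 ^ J)).filter p) ((Ioc (V * 2 ^ J) (2 * (V * 2 ^ J))).filter p) := by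
      refine Finset.disjoint_filter_filter ?_
      rw [Finset.disjoint_left]
      intro a ha hb
      rw [mem_Ioc] at ha hb
      omega
    rw [hu, filter_union, sum_union hd]
    set N := V * 2 ^ J with hN
    have hN1 : 1 ≤ N := hV.trans hle
    have hN0 : (0 : ℝ) < N := by exact_mod_cast hN1
    have h1 := h N hle
    have h2 : (((Ioc N (2 * N)).filter p).card : ℝ) * (1 / (2 * N)) ≤ ∑ v ∈ (Ioc N (2 * N)).filter p, (1 : ℝ) / v := by
      rw [← nsmul_eq_mul, ← Finset.sum_const]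
      apply Finset.sum_le_sum
      intro v hv
      rw [mem_filter, mem_Ioc] at hv
      have hv0 : (0 : ℝ) < v := by
        have : 0 < v := by omega
        exact_mod_cast this
      have hv2 : (v : ℝ) ≤ 2 * N := by exact_mod_cast hv.1.2
      exact one_div_le_one_div_of_le hv0 hv2
    have h3 : δ * N * (1 / (2 * N)) ≤ (((Ioc N (2 * N)).filter p).card : ℝ) * (1 / (2 * N)) :=
      mul_le_mul_of_nonneg_right h1 (by positivity)
    have h4 : δ * N * (1 / (2 * N)) = δ / 2 := by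
      field_simp
    rw [h4] at h3
    push_cast
    linarith

theorem dyad (p : ℕ → Prop) [DecidablePred p] (V : ℕ) (δ : ℝ) (hV : 2 ≤ V) (hδ : 0 ≤ δ)
    (h : ∀ N : ℕ, V ≤ N → δ * N ≤ (((Ioc N (2 * N)).filter p).card : ℝ)) :
    δ / 4 * Real.log V ≤ ∑ v ∈ (Ioc V (V ^ 2)).filter p, (1 : ℝ) / v := by
  set J := Nat.log 2 V with hJ
  have h1 := dyJ p V δ (by omega) h J
  have h2 : 2 ^ J ≤ V := Nat.pow_log_le_self 2 (by omega)
  have h3 : V < 2 ^ (J + 1) := Nat.lt_pow_succ_log_self (by norm_num) V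
  have hJ1 : 1 ≤ J := by
    rw [hJ]
    exact Nat.log_pos (by norm_num) hV
  have hsub : (Ioc V (V * 2 ^ J)).filter p ⊆ (Ioc V (V ^ 2)).filter p := by
    apply Finset.filter_subset_filter
    apply Finset.Ioc_subset_Ioc_right
    rw [pow_two]
    exact Nat.mul_le_mul_left V h2
  have h4 : ∑ v ∈ (Ioc V (V * 2 ^ J)).filter p, (1 : ℝ) / v ≤ ∑ v ∈ (Ioc V (V ^ 2)).filter p, (1 : ℝ) / v :=
    Finset.sum_le_sum_of_subset_of_nonneg hsub fun q _ _ => by positivity
  have h5 : Real.log V ≤ 2 * J := by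
    have hV0 : (0 : ℝ) < V := by
      have : 0 < V := by omega
      exact_mod_cast this
    have h6 : Real.log V ≤ Real.log ((2 : ℝ) ^ (J + 1)) := by
      apply Real.log_le_log hV0
      exact_mod_cast h3.le
    rw [Real.log_pow] at h6
    have h7 := Real.log_two_lt_d9
    have h8 := Real.log_two_gt_d9
    have h9 : (1 : ℝ) ≤ J := by exact_mod_cast hJ1
    push_cast at h6
    nlinarith
  have h6 : δ / 4 * Real.log V ≤ δ / 4 * (2 * J) := mul_le_mul_of_nonneg_left h5 (by linarith)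
  calc δ / 4 * Real.log V ≤ δ / 4 * (2 * J) := h6
    _ = J * (δ / 2) := by ring
    _ ≤ _ := h1.trans h4

end Pool.Agent.SPA.S69
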