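import Pool.Agent.SPA.S20
import Pool.Agent.SPA.S69b

/-!
# Row S (MP_7a4c99)
-/

set_option autoImplicit false

namespace Pool.Agent.SPA.S20

open Finset

theorem s : RowS :=
  s_of (fun A z N t S hA hN hS => Pool.Agent.SPA.S69.s1all A z N t S hA hN hS)
    (fun p _ V δ hV hδ h => Pool.Agent.SPA.S69.dyad p V δ hV hδ h)

end Pool.Agent.SPA.S20
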