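import Pool.Agent.SPA.S92
import Pool.Agent.SPA.S69b
import Pool.Agent.SPA.M20

/-!
# Row S (helper3 statements, helper69 sieve and dyadic sum, helper20 Mertens, helper92 parameters)
-/

set_option autoImplicit false

namespace Pool.Agent.SPA

/-- row S -/
theorem s : RowS := by
  refine S92.sAsm (fun A z N t S hA hN hS => S69.s1all A z N t S hA hN hS)
    (fun p _ V δ hV hδ h => S69.dyad p V δ hV hδ h) ?_ ?_
  · obtain ⟨C, _, hC⟩ := M20.sum_le
    exact ⟨C, hC⟩
  · obtain ⟨c, hc, _, h⟩ := M20.prod_ge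
    exact ⟨c, hc, h⟩

end Pool.Agent.SPA
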