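import Pool.Agent.SPA.Stmts10
import Pool.Agent.SPA.up77

/-!
# Row UA1: the bad sizes (MP_7a4c99)
-/

set_option autoImplicit false

namespace Pool.Agent.SPA.UA189

open Finset

theorem map_prod (lam η : ℝ) (m : Multiset ℕ) :
    (m.map (fun e : ℕ => lam⁻¹ * (e : ℝ) ^ (-(1 + η)))).prod =
      lam⁻¹ ^ m.card * ((m.prod : ℕ) : ℝ) ^ (-(1 + η)) := by
  induction m using Multiset.induction with
  | empty => simp
  | cons a m ih =>
    rw [Multiset.map_cons, Multiset.prod_cons, ih, Multiset.card_cons, Multiset.prod_cons,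
      Nat.cast_mul, Real.mul_rpow (Nat.cast_nonneg _) (Nat.cast_nonneg _), pow_succ]
    ring

theorem sum_pow_le (η : ℝ) (hη : 0 < η) (N : ℕ) (hN : 1 ≤ N) :
    ∑ n ∈ Icc 2 N, (n : ℝ) ^ (-(1 + η)) ≤ (1 / η) * (1 - (N : ℝ) ^ (-η)) := by
  induction N, hN using Nat.le_induction with
  | base => simp
  | succ N hN ih =>
    rw [Finset.sum_Icc_succ_top (by omega)]
    have h := Up77.tele η hη N hN
    have h8 : (1 / η) * ((N : ℝ) ^ (-η) - ((N + 1 : ℕ) : ℝ) ^ (-η)) =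
      (1 / η) * (1 - ((N + 1 : ℕ) : ℝ) ^ (-η)) - (1 / η) * (1 - (N : ℝ) ^ (-η)) := by ring
    rw [h8] at h
    linarith

theorem large (hGL : RowGL) {N : ℕ} {lam η : ℝ} (hlam : 1 ≤ lam) (hη : 0 < η)
    (X : Finset (Multiset ℕ)) (hX : ∀ s ∈ X, ∀ e ∈ s, 2 ≤ e ∧ e ≤ N) (hN : 1 ≤ N) :
    ∑ s ∈ X, (s.map (fun e : ℕ => lam⁻¹ * (e : ℝ) ^ (-(1 + η)))).prod ≤ Real.exp (2 / (lam * η)) := by
  have hl0 : 0 < lam := by linarith
  have hg : ∀ n : ℕ, 2 ≤ n → 0 ≤ lam⁻¹ * (n : ℝ) ^ (-(1 + η)) ∧ lam⁻¹ * (n : ℝ) ^ (-(1 + η)) ≤ 1 / 2 := by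
    intro n hn
    have h1 := Up77.t_half (1 + η) (by linarith) n hn
    have h2 := Up77.t_pos (1 + η) n hn
    have h3 : lam⁻¹ ≤ 1 := inv_le_one_of_one_le₀ hlam
    refine ⟨by positivity, ?_⟩
    calc lam⁻¹ * (n : ℝ) ^ (-(1 + η)) ≤ 1 * (n : ℝ) ^ (-(1 + η)) := by gcongr
      _ ≤ 1 / 2 := by linarith
  refine (hGL N _ X (fun n hn _ => hg n hn) hX).trans ?_
  have h1 : ∏ n ∈ Icc 2 N, (1 - lam⁻¹ * (n : ℝ) ^ (-(1 + η)))⁻¹ ≤
      ∏ n ∈ Icc 2 N, Real.exp (2 * (lam⁻¹ * (n : ℝ) ^ (-(1 + η)))) := by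
    refine prod_le_prod (fun n hn => ?_) (fun n hn => ?_)
    · have := (hg n (mem_Icc.mp hn).1).2
      exact inv_nonneg.mpr (by linarith)
    · obtain ⟨h0, h2⟩ := hg n (mem_Icc.mp hn).1
      set t := lam⁻¹ * (n : ℝ) ^ (-(1 + η)) with ht
      have h3 : (0 : ℝ) < 1 - t := by linarith
      have h4 := Real.add_one_le_exp (2 * t)
      refine le_trans ?_ h4
      rw [inv_le_iff_one_le_mul₀ h3]
      nlinarith
  refine h1.trans ?_
  rw [← Real.exp_sum]
  apply Real.exp_le_exp.mpr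
  rw [← mul_sum, ← mul_sum]
  have h2 := sum_pow_le η hη N hN
  have h3 : (0 : ℝ) ≤ (N : ℝ) ^ (-η) := by positivity
  have h4 : (1 / η) * (1 - (N : ℝ) ^ (-η)) ≤ 1 / η := by
    have : 0 < 1 / η := by positivity
    nlinarith
  calc 2 * (lam⁻¹ * ∑ n ∈ Icc 2 N, (n : ℝ) ^ (-(1 + η))) ≤ 2 * (lam⁻¹ * (1 / η)) := by
        gcongr
        exact h2.trans h4
    _ = 2 / (lam * η) := by field_simp

/-- The data of one bad size. -/
theorem data {w y M k x n₁ : ℕ} (hy : 1 ≤ y) (hk2 : 2 ≤ k) (hkx : k ≤ x) (hb : Bad w y M k)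
    (hn₁ : 2 * x < y ^ (n₁ + 1)) :
    ∃ (S Q : ℕ) (L : Multiset ℕ), k + S + L.sum = Q * L.prod + L.card ∧
      S < y * (Nat.log 2 (2 * x) + 1) + 1 ∧ Q * L.prod ≤ 2 * x ∧ Q ≠ 0 ∧
      (∀ p ∈ Q.primeFactorsList, p ≤ y) ∧ M < om w Q ∧ (∀ e ∈ L, 2 ≤ e ∧ e ≤ 2 * x) ∧
      L.card ≤ n₁ := by
  obtain ⟨s, hs, hM⟩ := hb
  obtain ⟨-, -, -, hd⟩ := Up77.decomp hs
  have hp := Up77.prod_le hk2 hs
  have hbf : Up77.f s = big s := rfl
  rw [hbf] at hd hp
  set b := big s with hbdef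
  set σ := b.filter (fun a => a ≤ y) with hσ
  set L := b.filter (fun a => ¬ a ≤ y) with hL
  have hbs : σ + L = b := Multiset.filter_add_not _ b
  have hb2 : ∀ a ∈ b, 2 ≤ a := fun a ha => (Multiset.mem_filter.mp ha).2
  have hσ2 : ∀ a ∈ σ, 2 ≤ a ∧ a ≤ y := fun a ha =>
    ⟨hb2 a (Multiset.mem_filter.mp ha).1, (Multiset.mem_filter.mp ha).2⟩
  have hL2 : ∀ a ∈ L, 2 ≤ a ∧ y < a := fun a ha =>
    ⟨hb2 a (Multiset.mem_filter.mp ha).1, not_le.mp (Multiset.mem_filter.mp ha).2⟩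
  have hprod : b.prod = σ.prod * L.prod := by rw [← hbs, Multiset.prod_add]
  have hσpos : 0 < σ.prod := Up77.prod_pos σ (fun a ha => (hσ2 a ha).1)
  have hLpos : 0 < L.prod := Up77.prod_pos L (fun a ha => (hL2 a ha).1)
  have hσc : σ.card ≤ σ.sum := by
    have h1 : σ.card • 1 ≤ σ.sum := Multiset.card_nsmul_le_sum (fun a ha => by have := (hσ2 a ha).1; omega)
    simpa using h1
  have hσlog : σ.card ≤ Nat.log 2 (2 * x) := by
    apply Nat.le_log_of_pow_le (by norm_num)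
    have h1 : 2 ^ σ.card ≤ σ.prod := by
      have := Multiset.pow_card_le_prod (s := σ) (a := 2) (fun a ha => (hσ2 a ha).1)
      exact this
    have h2 : σ.prod ≤ σ.prod * L.prod := Nat.le_mul_of_pos_right _ hLpos
    omega
  have hσsum : σ.sum ≤ y * Nat.log 2 (2 * x) := by
    have h1 : σ.sum ≤ σ.card • y := Multiset.sum_le_card_nsmul σ y (fun a ha => (hσ2 a ha).2)
    rw [smul_eq_mul] at h1
    calc σ.sum ≤ σ.card * y := h1
      _ ≤ Nat.log 2 (2 * x) * y := Nat.mul_le_mul_right y hσlog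
      _ = _ := mul_comm _ _
  refine ⟨σ.sum - σ.card, σ.prod, L, ?_, ?_, ?_, hσpos.ne', ?_, hM, ?_, ?_⟩
  · have h1 : b.sum = σ.sum + L.sum := by rw [← hbs, Multiset.sum_add]
    have h2 : b.card = σ.card + L.card := by rw [← hbs, Multiset.card_add]
    rw [h1, h2, hprod] at hd
    omega
  · have : y * (Nat.log 2 (2 * x) + 1) = y * Nat.log 2 (2 * x) + y := by ring
    omega
  · rw [← hprod]
    omega
  · intro p hp1
    have hpp := Nat.prime_of_mem_primeFactorsList hp1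
    have hpd := Nat.dvd_of_mem_primeFactorsList hp1
    obtain ⟨a, ha, hpa⟩ := Prime.exists_mem_multiset_dvd hpp.prime hpd
    have h1 := Nat.le_of_dvd (by have := (hσ2 a ha).1; omega) hpa
    exact h1.trans (hσ2 a ha).2
  · intro e he
    refine ⟨(hL2 e he).1, ?_⟩
    have h1 : e ≤ L.prod := Nat.le_of_dvd hLpos (Multiset.dvd_prod he)
    have h2 : L.prod ≤ σ.prod * L.prod := Nat.le_mul_of_pos_left _ hσpos
    omega
  · by_contra hcon
    have h1 : y ^ L.card ≤ L.prod :=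
      Multiset.pow_card_le_prod (s := L) (a := y) (fun a ha => (hL2 a ha).2.le)
    have h2 : y ^ (n₁ + 1) ≤ y ^ L.card := Nat.pow_le_pow_right hy (by omega)
    have h3 : L.prod ≤ σ.prod * L.prod := Nat.le_mul_of_pos_left _ hσpos
    omega

/-- **Row UA1.** -/
theorem ua1 : RowGL → RowU1 → RowUA1 := by
  classical
  intro hGL hU1
  obtain ⟨C, hC, hU1⟩ := hU1
  refine ⟨C, hC, ?_⟩
  intro x y w M n₁ Z lam η hx hw hwy hZ hZw hlam hη hη1 hn₁ X hX
  have hy : 1 ≤ y := by omega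
  have hdat := fun k (hk : k ∈ X) => data hy (hX k hk).1 (hX k hk).2.1 (hX k hk).2.2 hn₁
  choose! Sf Qf Lf hdat using hdat
  set P := X.image (fun k => (Qf k, Lf k)) with hP
  set B := y * (Nat.log 2 (2 * x) + 1) + 1 with hB
  have hcard : X.card ≤ B * P.card := by
    have h1 : X.card ≤ (range B ×ˢ P).card := by
      apply card_le_card_of_injOn (fun k => (Sf k, (Qf k, Lf k)))
      · intro k hk
        rw [mem_coe] at hk
        simp only [coe_product, Set.mem_prod, mem_coe, mem_range]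
        exact ⟨(hdat k hk).2.1, mem_image_of_mem _ hk⟩
      · intro k hk k' hk' he
        rw [mem_coe] at hk hk'
        simp only [Prod.mk.injEq] at he
        obtain ⟨e1, e2, e3⟩ := he
        have a1 := (hdat k hk).1
        have a2 := (hdat k' hk').1
        rw [e1, e2, e3] at a1
        omega
    rwa [card_product, card_range] at h1
  have hx0 : (0 : ℝ) < 2 * (x : ℝ) := by
    have : (2 : ℝ) ≤ x := by exact_mod_cast hx
    linarith
  have hZ0 : 0 < Z := by linarith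
  have hl0 : 0 < lam := by linarith
  set K : ℝ := (2 * (x : ℝ)) ^ (1 + η) * (1 / Z) ^ M * lam ^ n₁ with hK
  have hK0 : 0 < K := by positivity
  set F : ℕ → ℝ := fun Q => Z ^ om w Q / (Q : ℝ) with hF
  set H : Multiset ℕ → ℝ := fun m => (m.map (fun e : ℕ => lam⁻¹ * (e : ℝ) ^ (-(1 + η)))).prod with hH
  have hF0 : ∀ Q, 0 ≤ F Q := fun Q => by positivity
  have hH0 : ∀ m, 0 ≤ H m := fun m => by
    simp only [hH, map_prod]
    positivity
  have hone : ∀ p ∈ P, 1 ≤ K * (F p.1 * H p.2) := by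
    intro p hp
    rw [hP, mem_image] at hp
    obtain ⟨k, hk, rfl⟩ := hp
    obtain ⟨-, -, d3, d4, -, d6, d7, d8⟩ := hdat k hk
    simp only
    set Q := Qf k
    set L := Lf k
    have hQ1 : (1 : ℝ) ≤ Q := by exact_mod_cast Nat.one_le_iff_ne_zero.mpr d4
    have hQ0 : (0 : ℝ) < Q := by linarith
    have hLp : 0 < L.prod := Up77.prod_pos L (fun a ha => (d7 a ha).1)
    have hL0 : (0 : ℝ) < ((L.prod : ℕ) : ℝ) := by exact_mod_cast hLp
    have hQL : (Q : ℝ) * ((L.prod : ℕ) : ℝ) ≤ 2 * (x : ℝ) := by exact_mod_cast d3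
    have e1 : H L = lam⁻¹ ^ L.card * ((L.prod : ℕ) : ℝ) ^ (-(1 + η)) := map_prod lam η L
    have e2 : 1 ≤ (1 / Z) ^ M * Z ^ om w Q := by
      have h1 : Z ^ M ≤ Z ^ om w Q := pow_le_pow_right₀ hZ d6.le
      rw [one_div, inv_pow, ← div_eq_inv_mul, le_div_iff₀ (by positivity)]
      linarith
    have e3 : 1 ≤ lam ^ n₁ * lam⁻¹ ^ L.card := by
      have h1 : lam ^ L.card ≤ lam ^ n₁ := pow_le_pow_right₀ hlam d8
      rw [inv_pow, ← div_eq_mul_inv, le_div_iff₀ (by positivity)]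
      linarith
    have e4 : 1 ≤ (2 * (x : ℝ)) ^ (1 + η) * (1 / (Q : ℝ)) * ((L.prod : ℕ) : ℝ) ^ (-(1 + η)) := by
      have h1 : (Q : ℝ) ^ (-(1 + η)) ≤ 1 / (Q : ℝ) := by
        calc (Q : ℝ) ^ (-(1 + η)) ≤ (Q : ℝ) ^ (-1 : ℝ) :=
              Real.rpow_le_rpow_of_exponent_le hQ1 (by linarith)
          _ = 1 / (Q : ℝ) := by rw [Real.rpow_neg_one, one_div]
      have h2 : 1 ≤ (2 * (x : ℝ)) ^ (1 + η) * ((Q : ℝ) ^ (-(1 + η)) * ((L.prod : ℕ) : ℝ) ^ (-(1 + η))) := by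
        rw [← Real.mul_rpow hQ0.le hL0.le, Real.rpow_neg (by positivity), ← div_eq_mul_inv,
          le_div_iff₀ (by positivity), one_mul]
        exact Real.rpow_le_rpow (by positivity) hQL (by linarith)
      refine h2.trans ?_
      rw [mul_assoc]
      gcongr
    calc (1 : ℝ) = 1 * 1 * 1 := by norm_num
      _ ≤ ((1 / Z) ^ M * Z ^ om w Q) * (lam ^ n₁ * lam⁻¹ ^ L.card) *
          ((2 * (x : ℝ)) ^ (1 + η) * (1 / (Q : ℝ)) * ((L.prod : ℕ) : ℝ) ^ (-(1 + η))) := by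
          gcongr
      _ = K * (F Q * H L) := by
          rw [e1, hK, hF]
          ring
  have hPc : (P.card : ℝ) ≤ K * (Real.exp (2 * Z * (Real.log (Real.log y) + C)) * Real.exp (2 / (lam * η))) := by
    have h1 : (P.card : ℝ) ≤ K * ∑ p ∈ P, F p.1 * H p.2 := by
      calc (P.card : ℝ) = ∑ p ∈ P, (1 : ℝ) := by simp
        _ ≤ ∑ p ∈ P, K * (F p.1 * H p.2) := sum_le_sum hone
        _ = _ := by rw [mul_sum]
    refine h1.trans (mul_le_mul_of_nonneg_left ?_ hK0.le)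
    have h2 : ∑ p ∈ P, F p.1 * H p.2 ≤ ∑ p ∈ (P.image Prod.fst) ×ˢ (P.image Prod.snd), F p.1 * H p.2 := by
      apply sum_le_sum_of_subset_of_nonneg
      · intro p hp
        rw [mem_product]
        exact ⟨mem_image_of_mem _ hp, mem_image_of_mem _ hp⟩
      · intro p _ _
        exact mul_nonneg (hF0 _) (hH0 _)
    refine h2.trans ?_
    rw [sum_product, ← sum_mul_sum]
    have h3 : ∑ Q ∈ P.image Prod.fst, F Q ≤ Real.exp (2 * Z * (Real.log (Real.log y) + C)) := by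
      apply hU1 w y Z (P.image Prod.fst) hw hwy hZ hZw
      intro Q hQ
      rw [mem_image] at hQ
      obtain ⟨p, hp, rfl⟩ := hQ
      rw [hP, mem_image] at hp
      obtain ⟨k, hk, rfl⟩ := hp
      exact ⟨(hdat k hk).2.2.2.1, (hdat k hk).2.2.2.2.1⟩
    have h4 : ∑ L ∈ P.image Prod.snd, H L ≤ Real.exp (2 / (lam * η)) := by
      apply large hGL (N := 2 * x) hlam hη _ _ (by omega)
      intro L hL
      rw [mem_image] at hL
      obtain ⟨p, hp, rfl⟩ := hL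
      rw [hP, mem_image] at hp
      obtain ⟨k, hk, rfl⟩ := hp
      exact (hdat k hk).2.2.2.2.2.2.1
    exact mul_le_mul h3 h4 (sum_nonneg fun m _ => hH0 m) (Real.exp_pos _).le
  have hfin : (X.card : ℝ) ≤ (B : ℝ) * P.card := by exact_mod_cast hcard
  calc (X.card : ℝ) ≤ (B : ℝ) * P.card := hfin
    _ ≤ (B : ℝ) * (K * (Real.exp (2 * Z * (Real.log (Real.log y) + C)) * Real.exp (2 / (lam * η)))) := by gcongr
    _ = _ := by
        rw [hK, hB]
        push_cast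
        ring

end Pool.Agent.SPA.UA189
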