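import Pool.Agent.SPA.Stmts10
import Pool.Agent.SPA.up77

/-!
# Row UF (helper92): both counts together
-/

set_option autoImplicit false

namespace Pool.Agent.SPA

open Finset

namespace UF92

open Up77

/-- the solutions of the good `k` -/
theorem good_sum (x w y M : ℕ) (E : Finset ℕ) (hE : ∀ k ∈ E, 2 ≤ k ∧ k ≤ x ∧ ¬ Bad w y M k) :
    ∃ X : Finset (Multiset ℕ), (∀ s ∈ X, (∀ e ∈ s, 2 ≤ e) ∧ s.prod ≤ 2 * x ∧
      om w (s.filter (fun a => a ≤ y)).prod ≤ M) ∧ ∑ k ∈ E, Pool.Agent.SPM.N k = X.card := by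
  classical
  set A : ℕ → Finset (Multiset ℕ) := fun k =>
    if h : 2 ≤ k then ((Pool.Agent.SPM.Sol46.fin h).toFinset).image f else ∅ with hA
  have hcard : ∀ k ∈ E, Pool.Agent.SPM.N k = (A k).card := by
    intro k hk
    have h2 : 2 ≤ k := (hE k hk).1
    simp only [hA, dif_pos h2]
    rw [Finset.card_image_of_injOn]
    · unfold Pool.Agent.SPM.N
      exact Set.ncard_eq_toFinset_card _ _
    · intro s hs s' hs' hss
      rw [Finset.mem_coe, Set.Finite.mem_toFinset] at hs hs'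
      have d1 := decomp hs
      have d2 := decomp hs'
      rw [d1.1, d2.1]
      have hss' : f s = f s' := hss
      rw [hss']
  have hmem : ∀ k ∈ E, ∀ m ∈ A k, ((∀ e ∈ m, 2 ≤ e) ∧ m.prod ≤ 2 * x ∧
      om w (m.filter (fun a => a ≤ y)).prod ≤ M) ∧ k + m.sum = m.prod + m.card := by
    intro k hk m hm
    have h2 : 2 ≤ k := (hE k hk).1
    have hkx : k ≤ x := (hE k hk).2.1
    have hbad := (hE k hk).2.2
    simp only [hA, dif_pos h2, Finset.mem_image, Set.Finite.mem_toFinset] at hm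
    obtain ⟨s, hs, rfl⟩ := hm
    have hp := prod_le h2 hs
    refine ⟨⟨f_two s, by omega, ?_⟩, (decomp hs).2.2.2⟩
    by_contra hcon
    exact hbad ⟨s, hs, not_le.1 hcon⟩
  have hdisj : (E : Set ℕ).PairwiseDisjoint A := by
    intro k hk l hl hkl
    simp only [Function.onFun]
    rw [Finset.disjoint_left]
    intro m h1 h2
    have e1 := (hmem k (by exact_mod_cast hk) m h1).2
    have e2 := (hmem l (by exact_mod_cast hl) m h2).2
    omega
  refine ⟨E.biUnion A, ?_, ?_⟩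
  · intro m hm
    rw [Finset.mem_biUnion] at hm
    obtain ⟨k, hk, hm⟩ := hm
    exact (hmem k hk m hm).1
  · rw [Finset.sum_congr rfl hcard, Finset.card_biUnion (fun k hk l hl hkl => hdisj (by exact_mod_cast hk) (by exact_mod_cast hl) hkl)]

end UF92

/-- row UF -/
theorem uf92 : RowUA1 → RowUA2 → RowU2 → RowUF := by
  intro hA1 hA2 hU2
  classical
  obtain ⟨C1, hC1, hA1⟩ := hA1
  obtain ⟨C2, hC2, hU2⟩ := hU2
  refine ⟨C1 + 2 * C2, by positivity, ?_⟩
  intro x y w M n₁ z Z lam η F hx hw hwy hz hz1 hZ hZw hlam hη hη1 hF hn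
  have hy2 : 2 ≤ y := by omega
  set E := (Icc 2 x).filter (fun k => F < (Pool.Agent.SPM.N k : ℝ)) with hE
  set E1 := E.filter (fun k => Bad w y M k) with hE1
  set E2 := E.filter (fun k => ¬ Bad w y M k) with hE2
  have hcard : (E.card : ℝ) = E1.card + E2.card := by
    have h := Finset.card_filter_add_card_filter_not (s := E) (fun k => Bad w y M k)
    exact_mod_cast h.symm
  have hlogy : 0 < Real.log y := Real.log_pos (by exact_mod_cast (by omega : 1 < y))
  have hlogw : 0 < Real.log w := Real.log_pos (by exact_mod_cast (by omega : 1 < w))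
  -- the bad ones
  have h1 := hA1 x y w M n₁ Z lam η hx hw hwy hZ hZw hlam hη hη1 hn E1 (by
    intro k hk
    rw [hE1, mem_filter, hE, mem_filter, mem_Icc] at hk
    exact ⟨hk.1.1.1, hk.1.1.2, hk.2⟩)
  have h1' : (E1.card : ℝ) ≤ (2 * (x : ℝ)) ^ (1 + η) * lam ^ n₁ * Real.exp (2 / (lam * η)) *
      (((y : ℝ) * (Nat.log 2 (2 * x) + 1) + 1) * (1 / Z) ^ M *
        Real.exp (2 * Z * (Real.log (Real.log y) + (C1 + 2 * C2)))) := by
    have h3 : Real.exp (2 * Z * (Real.log (Real.log y) + C1)) ≤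
        Real.exp (2 * Z * (Real.log (Real.log y) + (C1 + 2 * C2))) := by
      apply Real.exp_le_exp.2
      apply mul_le_mul_of_nonneg_left _ (by positivity)
      linarith
    have h4 : 0 ≤ ((y : ℝ) * (Nat.log 2 (2 * x) + 1) + 1) * (2 * (x : ℝ)) ^ (1 + η) * (1 / Z) ^ M * lam ^ n₁ *
      Real.exp (2 / (lam * η)) := by positivity
    refine h1.trans ((mul_le_mul_of_nonneg_left h3 h4).trans (le_of_eq ?_))
    ring
  -- the good ones
  obtain ⟨X, hX, hsum⟩ := UF92.good_sum x w y M E2 (by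
    intro k hk
    rw [hE2, mem_filter, hE, mem_filter, mem_Icc] at hk
    exact ⟨hk.1.1.1, hk.1.1.2, hk.2⟩)
  have h2 := hA2 x y w M n₁ z lam η X hx hy2 hz hz1 hlam hη hη1 hn hX
  have h5 := hU2 w y z hw hwy hz hz1
  have h6 : F * (E2.card : ℝ) ≤ X.card := by
    have h7 : ∑ k ∈ E2, F ≤ ∑ k ∈ E2, (Pool.Agent.SPM.N k : ℝ) := by
      apply Finset.sum_le_sum
      intro k hk
      rw [hE2, mem_filter, hE, mem_filter] at hk
      exact hk.1.2.le
    rw [Finset.sum_const, nsmul_eq_mul] at h7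
    have h8 : ∑ k ∈ E2, (Pool.Agent.SPM.N k : ℝ) = X.card := by
      have := hsum
      exact_mod_cast this
    linarith
  have h2' : (E2.card : ℝ) ≤ (2 * (x : ℝ)) ^ (1 + η) * lam ^ n₁ * Real.exp (2 / (lam * η)) *
      ((1 / z) ^ M * Real.exp ((C1 + 2 * C2) * Real.log w ^ (1 - z) * Real.log y ^ z) / F) := by
    have h9 : Real.exp (2 * ∑ e ∈ Icc 1 y, z ^ om w e / (e : ℝ)) ≤
        Real.exp ((C1 + 2 * C2) * Real.log w ^ (1 - z) * Real.log y ^ z) := by
      apply Real.exp_le_exp.2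
      have h10 : 0 ≤ Real.log w ^ (1 - z) * Real.log y ^ z := by positivity
      have h11 : 0 ≤ C1 * (Real.log w ^ (1 - z) * Real.log y ^ z) := by positivity
      calc 2 * ∑ e ∈ Icc 1 y, z ^ om w e / (e : ℝ) ≤ 2 * (C2 * Real.log w ^ (1 - z) * Real.log y ^ z) := by
            linarith
        _ ≤ 2 * (C2 * Real.log w ^ (1 - z) * Real.log y ^ z) + C1 * (Real.log w ^ (1 - z) * Real.log y ^ z) := by
            linarith
        _ = (C1 + 2 * C2) * Real.log w ^ (1 - z) * Real.log y ^ z := by ring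
    have h4 : 0 ≤ (2 * (x : ℝ)) ^ (1 + η) * (1 / z) ^ M * lam ^ n₁ * Real.exp (2 / (lam * η)) := by positivity
    have h12 : F * (E2.card : ℝ) ≤ (2 * (x : ℝ)) ^ (1 + η) * (1 / z) ^ M * lam ^ n₁ * Real.exp (2 / (lam * η)) *
        Real.exp ((C1 + 2 * C2) * Real.log w ^ (1 - z) * Real.log y ^ z) :=
      h6.trans (h2.trans (mul_le_mul_of_nonneg_left h9 h4))
    have h13 : (E2.card : ℝ) ≤ (2 * (x : ℝ)) ^ (1 + η) * (1 / z) ^ M * lam ^ n₁ * Real.exp (2 / (lam * η)) *
        Real.exp ((C1 + 2 * C2) * Real.log w ^ (1 - z) * Real.log y ^ z) / F := by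
      rw [le_div_iff₀ hF]
      linarith
    refine h13.trans (le_of_eq ?_)
    ring
  rw [hcard]
  refine (add_le_add h1' h2').trans (le_of_eq ?_)
  ring

end Pool.Agent.SPA
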