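import Pool.Agent.SPA.M1046
import Pool.Agent.SPA.All46
import Pool.Agent.SPA.G1089
import Pool.Agent.SPA.UA189
import Pool.Agent.SPA.UF92
import Pool.Agent.Helper62.Up.UA2

/-!
# The order of `log (N k)`: composition from the last rows
-/

set_option autoImplicit false

namespace Pool.Agent.SPA

theorem low10_of46 (hA : RowAs10) : Low10 := by
  obtain ⟨C, c, K, hC, hc, hc1, hK, h⟩ := all46
  exact hA C c K hC hc hc1 hK h G1089.g10

theorem uf10_of46 (h1 : RowU1) (h2 : RowU2) : RowUF :=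
  uf92 (UA189.ua1 Pool.Agent.Helper62.Up.gl62 h1) Pool.Agent.Helper62.Up.ua262 h2

theorem main10_rows46 (hA : RowAs10) (h1 : RowU1) (h2 : RowU2) (hP : RowUPar) : Main10 :=
  main10_of46 (low10_of46 hA) (hP (uf10_of46 h1 h2))

end Pool.Agent.SPA
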