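import Pool.Agent.SPA.Stmts5
import Pool.Agent.Helper75.LG.Om

/-!
# MP_7a4c99_nt: row S from the sieve bound and the dyadic sum (helper17)
-/

set_option autoImplicit false

namespace Pool.Agent.SPA

open Finset

theorem exp_neg_le17 {x : ℝ} (h0 : 0 ≤ x) (h1 : x ≤ 1 / 2) : Real.exp (-(2 * x)) ≤ 1 - x := by
  have h2 : 1 + 2 * x ≤ Real.exp (2 * x) := by
    have := Real.add_one_le_exp (2 * x)
    linarith
  rw [Real.exp_neg, inv_le_comm₀ (Real.exp_pos _) (by linarith)]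
  refine le_trans ?_ h2
  rw [inv_le_iff_one_le_mul₀ (by linarith)]
  nlinarith

/-- the sieve bound (row S1) -/
def S1 : Prop := ∀ (A z N t : ℕ) (S : ℝ), 1 ≤ A → 3 ≤ z → 2 ≤ N → ∑ q ∈ (Icc 1 z).filter Nat.Prime, (1 : ℝ) / q ≤ S →
  (N : ℝ) * (∏ q ∈ (Icc 1 z).filter Nat.Prime, (1 - 1 / (q : ℝ)) - S ^ (2 * t + 2) / (2 * t + 2).factorial) - (1 + (z : ℝ)) ^ (2 * t + 1)
    ≤ (((Ioc N (2 * N)).filter (fun v => z < (A * v - 1).minFac)).card : ℝ)

/-- the dyadic sum -/
def Dyad : Prop := ∀ (p : ℕ → Prop) [DecidablePred p] (V : ℕ) (δ : ℝ), 2 ≤ V → 0 ≤ δ →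
  (∀ N : ℕ, V ≤ N → δ * N ≤ (((Ioc N (2 * N)).filter p).card : ℝ)) →
  δ / 4 * Real.log V ≤ ∑ v ∈ (Ioc V (V ^ 2)).filter p, (1 : ℝ) / v

/-- `S ^ m / m! ≤ exp (-2 S) / 4` if `6 S + 2 ≤ m` -/
theorem fact17 {S : ℝ} (hS : 0 < S) (m : ℕ) (hm : 6 * S + 2 ≤ m) :
    S ^ m / m.factorial ≤ Real.exp (-(2 * S)) / 4 := by
  have h1 : (4 * S) ^ m / m.factorial ≤ Real.exp (4 * S) :=
    Real.pow_div_factorial_le_exp (4 * S) (by positivity) m
  have h2 : S ^ m / m.factorial = (4 * S) ^ m / m.factorial * ((4 : ℝ) ^ m)⁻¹ := by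
    rw [mul_pow]
    field_simp
  have h3 : 4 * Real.exp (6 * S) ≤ (4 : ℝ) ^ m := by
    have e : (4 : ℝ) ^ m = Real.exp (Real.log 4 * m) := by
      rw [Real.exp_mul, Real.exp_log (by norm_num), Real.rpow_natCast]
    have e4 : (4 : ℝ) * Real.exp (6 * S) = Real.exp (Real.log 4 + 6 * S) := by
      rw [Real.exp_add, Real.exp_log (by norm_num)]
    rw [e, e4, Real.exp_le_exp]
    have hl : (1 : ℝ) ≤ Real.log 4 := by
      rw [show (4 : ℝ) = 2 ^ 2 by norm_num, Real.log_pow]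
      have := Real.log_two_gt_d9
      push_cast
      linarith
    nlinarith
  rw [h2]
  have h4 : ((4 : ℝ) ^ m)⁻¹ ≤ (4 * Real.exp (6 * S))⁻¹ := inv_anti₀ (by positivity) h3
  calc (4 * S) ^ m / m.factorial * ((4 : ℝ) ^ m)⁻¹ ≤ Real.exp (4 * S) * (4 * Real.exp (6 * S))⁻¹ :=
        mul_le_mul h1 h4 (by positivity) (Real.exp_pos _).le
    _ = Real.exp (-(2 * S)) / 4 := by
        rw [mul_inv, ← Real.exp_neg, show -(2 * S) = 4 * S + -(6 * S) by ring, Real.exp_add]
        ring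

theorem s17 (h1 : S1) (h2 : Dyad) : RowS := by
  obtain ⟨C0, hC0⟩ := LG.sum_recip_loglog
  set C1 : ℝ := max C0 1 with hC1
  have hC1' : 1 ≤ C1 := le_max_right _ _
  refine ⟨Real.exp (-(2 * C1)) / 8, 22 + 14 * C1, by positivity, ?_, by linarith, ?_⟩
  · have : Real.exp (-(2 * C1)) ≤ 1 := Real.exp_le_one_iff.2 (by linarith)
    linarith
  intro A z V hA hz hV hK
  have hz3 : (3 : ℝ) ≤ z := by exact_mod_cast hz
  set L : ℝ := Real.log z with hL
  have hL1 : 1 ≤ L := by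
    rw [hL, Real.le_log_iff_exp_le (by linarith)]
    have := Real.exp_one_lt_d9
    linarith
  set S : ℝ := Real.log L + C1 with hS
  have hl0 : 0 ≤ Real.log L := Real.log_nonneg hL1
  have hlL : Real.log L ≤ L - 1 := Real.log_le_sub_one_of_pos (by linarith)
  have hS1 : 1 ≤ S := by linarith
  have hsum : ∑ q ∈ (Icc 1 z).filter Nat.Prime, (1 : ℝ) / q ≤ S := by
    have := hC0 z (by omega)
    have h3 : C0 ≤ C1 := le_max_left _ _
    refine le_trans this ?_
    linarith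
  -- the product
  have hprod : Real.exp (-(2 * S)) ≤ ∏ q ∈ (Icc 1 z).filter Nat.Prime, (1 - 1 / (q : ℝ)) := by
    refine le_trans (Real.exp_le_exp.2 (by linarith : -(2 * S) ≤ -(2 * ∑ q ∈ (Icc 1 z).filter Nat.Prime, (1 : ℝ) / q))) ?_
    rw [Finset.mul_sum, ← Finset.sum_neg_distrib, Real.exp_sum]
    refine Finset.prod_le_prod (fun _ _ => (Real.exp_pos _).le) fun p hp => ?_
    have h3 := (mem_filter.1 hp).2.two_le
    refine exp_neg_le17 (by positivity) ?_
    exact one_div_le_one_div_of_le (by norm_num) (by exact_mod_cast h3)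
  -- the choice of t
  set t : ℕ := ⌈3 * S⌉₊ with ht
  have ht1 : 3 * S ≤ t := Nat.le_ceil _
  have ht2 : (t : ℝ) < 3 * S + 1 := Nat.ceil_lt_add_one (by linarith)
  have hfact : S ^ (2 * t + 2) / (2 * t + 2).factorial ≤ Real.exp (-(2 * S)) / 4 := by
    apply fact17 (by linarith)
    push_cast
    linarith
  -- the error
  have herr : ∀ N : ℕ, V ≤ N → (1 + (z : ℝ)) ^ (2 * t + 1) ≤ N * (Real.exp (-(2 * S)) / 4) := by
    intro N hN
    have hN0 : (0 : ℝ) < N := by
      have : 0 < N := by omega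
      exact_mod_cast this
    have hV0 : (0 : ℝ) < V := by
      have : 0 < V := by omega
      exact_mod_cast this
    have e1 : Real.log (1 + (z : ℝ)) ≤ 2 * L := by
      have : Real.log ((z : ℝ) ^ 2) = 2 * L := by
        rw [Real.log_pow]
        push_cast
        ring
      rw [← this]
      apply Real.log_le_log (by positivity)
      nlinarith
    have hz0 : (0 : ℝ) < 1 + (z : ℝ) := by positivity
    have e0 : 0 ≤ Real.log (1 + (z : ℝ)) := Real.log_nonneg (by linarith)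
    have hlog : Real.log ((1 + (z : ℝ)) ^ (2 * t + 1)) ≤ Real.log (N * (Real.exp (-(2 * S)) / 4)) := by
      rw [Real.log_pow, Real.log_mul hN0.ne' (by positivity), Real.log_div (by positivity) (by norm_num),
        Real.log_exp]
      have e2 : Real.log V ≤ Real.log N := Real.log_le_log hV0 (by exact_mod_cast hN)
      have e3 : Real.log 4 ≤ 2 := by
        rw [show (4 : ℝ) = 2 ^ 2 by norm_num, Real.log_pow]
        have := Real.log_two_lt_d9
        push_cast
        linarith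
      have e4 : ((2 * t + 1 : ℕ) : ℝ) ≤ 6 * S + 3 := by
        push_cast
        linarith
      have e5 : ((2 * t + 1 : ℕ) : ℝ) * Real.log (1 + (z : ℝ)) ≤ (6 * S + 3) * (2 * L) :=
        mul_le_mul e4 e1 e0 (by linarith)
      have e6 : S ≤ L + C1 := by linarith
      have e7 : (6 * S + 3) * (2 * L) ≤ (6 * (L + C1) + 3) * (2 * L) :=
        mul_le_mul_of_nonneg_right (by linarith) (by linarith)
      have e8 : (6 * (L + C1) + 3) * (2 * L) + 2 * (L + C1) + 2 ≤ (22 + 14 * C1) * L ^ 2 := by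
        nlinarith [mul_nonneg (sub_nonneg.2 hL1) (by linarith : (0 : ℝ) ≤ C1),
          mul_nonneg (mul_nonneg (sub_nonneg.2 hL1) (by linarith : (0 : ℝ) ≤ C1)) (by linarith : (0 : ℝ) ≤ L),
          mul_nonneg (sub_nonneg.2 hL1) (by linarith : (0 : ℝ) ≤ L)]
      linarith
    exact (Real.log_le_log_iff (by positivity) (by positivity)).1 hlog
  have hcount : ∀ N : ℕ, V ≤ N → (Real.exp (-(2 * S)) / 2) * N ≤
      (((Ioc N (2 * N)).filter (fun v => z < (A * v - 1).minFac)).card : ℝ) := by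
    intro N hN
    refine le_trans ?_ (h1 A z N t S hA hz (by omega) hsum)
    have e1 := herr N hN
    have hN0 : (0 : ℝ) ≤ N := Nat.cast_nonneg _
    have e2 : (N : ℝ) * (Real.exp (-(2 * S)) - Real.exp (-(2 * S)) / 4) ≤
        (N : ℝ) * (∏ q ∈ (Icc 1 z).filter Nat.Prime, (1 - 1 / (q : ℝ)) - S ^ (2 * t + 2) / (2 * t + 2).factorial) :=
      mul_le_mul_of_nonneg_left (by linarith) hN0
    linarith
  have hfin := h2 (fun v => z < (A * v - 1).minFac) V (Real.exp (-(2 * S)) / 2) (by omega) (by positivity) hcount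
  refine le_trans ?_ hfin
  have hV1 : 0 ≤ Real.log V := Real.log_nonneg (by
    have : 1 ≤ V := by omega
    exact_mod_cast this)
  refine mul_le_mul_of_nonneg_right ?_ hV1
  have eS : Real.exp (-(2 * S)) = Real.exp (-(2 * C1)) / L ^ 2 := by
    rw [hS, show -(2 * (Real.log L + C1)) = -(2 * C1) - Real.log (L ^ 2) by
      rw [Real.log_pow]
      push_cast
      ring, Real.exp_sub, Real.exp_log (by positivity)]
  rw [eS]
  have hL3 : L ^ 2 ≤ L ^ 3 := pow_le_pow_right₀ hL1 (by norm_num)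
  have e9 : Real.exp (-(2 * C1)) / 8 / L ^ 3 ≤ Real.exp (-(2 * C1)) / 8 / L ^ 2 :=
    div_le_div_of_nonneg_left (by positivity) (by positivity) hL3
  refine le_trans e9 (le_of_eq ?_)
  ring

end Pool.Agent.SPA
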