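import Pool.Agent.SPM.Brun34

/-!
# Brun's sieve from below (row S1, helper69)
-/

set_option autoImplicit false

namespace Pool.Agent.SPA.S69

open Finset Pool.Agent.SPM.B34

/-- **The pure Brun sieve, lower bound.** -/
theorem brunLow (P : Finset ℕ) (hP : ∀ q ∈ P, q.Prime) (F : ℕ → Finset ℕ) (hF : ∀ q ∈ P, ∀ r ∈ F q, r < q)
    (x t : ℕ) :
    (x : ℝ) * (∏ q ∈ P, (1 - ((F q).card : ℝ) / q) -
        (∑ q ∈ P, ((F q).card : ℝ) / q) ^ (2 * t + 2) / (2 * t + 2).factorial) -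
      (1 + ∑ q ∈ P, ((F q).card : ℝ)) ^ (2 * t + 1) ≤
    (((Finset.Icc 1 x).filter (fun k => ∀ q ∈ P, k % q ∉ F q)).card : ℝ) := by
  classical
  have hIcc : Finset.Icc 1 x = Finset.Ioc 0 x := by
    ext k
    simp only [Finset.mem_Icc, Finset.mem_Ioc]
    omega
  rw [hIcc]
  set h : ℕ → ℝ := fun q => ((F q).card : ℝ) / q with hh
  have h0 : ∀ q ∈ P, 0 ≤ h q := fun q _ => by rw [hh]; positivity
  have h1 : ∀ q ∈ P, h q ≤ 1 := by
    intro q hq
    have hc : (F q).card ≤ q := by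
      have : F q ⊆ Finset.range q := fun r hr => Finset.mem_range.2 (hF q hq r hr)
      simpa using Finset.card_le_card this
    have hq0 : (0 : ℝ) < q := by exact_mod_cast (hP q hq).pos
    rw [hh]
    simp only
    rw [div_le_one hq0]
    exact_mod_cast hc
  -- indicator
  set ι : ℕ → ℕ → ℝ := fun k q => if k % q ∈ F q then 1 else 0 with hι
  have hι0 : ∀ k, ∀ q ∈ P, 0 ≤ ι k q := by
    intro k q _
    rw [hι]
    simp only
    split_ifs <;> norm_num
  have hι1 : ∀ k, ∀ q ∈ P, ι k q ≤ 1 := by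
    intro k q _
    rw [hι]
    simp only
    split_ifs <;> norm_num
  have s1 : (((Finset.Ioc 0 x).filter (fun k => ∀ q ∈ P, k % q ∉ F q)).card : ℝ) =
      ∑ k ∈ Finset.Ioc 0 x, ∏ q ∈ P, (1 - ι k q) := by
    rw [Finset.card_filter]
    push_cast
    apply Finset.sum_congr rfl
    intro k _
    by_cases hk : ∀ q ∈ P, k % q ∉ F q
    · rw [if_pos hk]
      symm
      apply Finset.prod_eq_one
      intro q hq
      rw [hι]
      simp only
      rw [if_neg (hk q hq), sub_zero]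
    · rw [if_neg hk]
      push Not at hk
      obtain ⟨q, hq, hkq⟩ := hk
      symm
      apply Finset.prod_eq_zero hq
      rw [hι]
      simp only
      rw [if_pos hkq, sub_self]
  have s2 : ∀ k, G P (2 * t + 1) (fun q => - ι k q) ≤ ∏ q ∈ P, (1 - ι k q) := by
    intro k
    have := (bonf P (ι k) (hι0 k) (hι1 k) (2 * t + 1)).1
    rw [pow_succ, pow_mul] at this
    norm_num at this
    exact this
  have s3 : ∑ k ∈ Finset.Ioc 0 x, G P (2 * t + 1) (fun q => - ι k q) =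
      ∑ D ∈ P.powerset, if D.card ≤ 2 * t + 1 then
        (-1) ^ D.card * ((((Finset.Ioc 0 x).filter (fun k => ∀ q ∈ D, k % q ∈ F q)).card : ℕ) : ℝ) else 0 := by
    unfold G
    rw [Finset.sum_comm]
    apply Finset.sum_congr rfl
    intro D _
    by_cases hD : D.card ≤ 2 * t + 1
    · simp only [if_pos hD]
      rw [Finset.card_filter]
      push_cast
      rw [Finset.mul_sum]
      apply Finset.sum_congr rfl
      intro k _
      rw [Finset.prod_neg]
      congr 1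
      by_cases hk : ∀ q ∈ D, k % q ∈ F q
      · rw [if_pos hk]
        apply Finset.prod_eq_one
        intro q hq
        rw [hι]
        simp only
        rw [if_pos (hk q hq)]
      · rw [if_neg hk]
        push Not at hk
        obtain ⟨q, hq, hkq⟩ := hk
        apply Finset.prod_eq_zero hq
        rw [hι]
        simp only
        rw [if_neg hkq]
    · simp only [if_neg hD, Finset.sum_const_zero]
  have s4 : ∀ D ∈ P.powerset, x * ∏ q ∈ D, (- h q) - ∏ q ∈ D, ((F q).card : ℝ) ≤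
      (-1 : ℝ) ^ D.card * ((((Finset.Ioc 0 x).filter (fun k => ∀ q ∈ D, k % q ∈ F q)).card : ℕ) : ℝ) := by
    intro D hD
    have hDP := Finset.mem_powerset.1 hD
    have c := cnt x F D (fun q hq => hP q (hDP hq)) (fun q hq => hF q (hDP hq)) 1 0 one_pos
      (fun q _ => Nat.coprime_one_left q)
    have ef : (Finset.Ioc 0 x).filter (fun k => k ≡ 0 [MOD 1] ∧ ∀ q ∈ D, k % q ∈ F q) =
        (Finset.Ioc 0 x).filter (fun k => ∀ q ∈ D, k % q ∈ F q) := by
      apply Finset.filter_congr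
      intro k _
      simp [Nat.modEq_one]
    rw [ef] at c
    rw [Finset.prod_neg]
    simp only [Nat.cast_one, div_one] at c
    rw [abs_le] at c
    have hsg : ((-1 : ℝ) ^ D.card = 1) ∨ ((-1 : ℝ) ^ D.card = -1) := neg_one_pow_eq_or ℝ D.card
    have hh' : ∏ q ∈ D, h q = ∏ q ∈ D, (((F q).card : ℝ) / q) := rfl
    rw [hh']
    rcases hsg with e | e
    · rw [e]
      linarith [c.1]
    · rw [e]
      linarith [c.2]
  have s5 : x * G P (2 * t + 1) (fun q => - h q) - G P (2 * t + 1) (fun q => ((F q).card : ℝ)) ≤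
      (∑ D ∈ P.powerset, if D.card ≤ 2 * t + 1 then
        (-1) ^ D.card * ((((Finset.Ioc 0 x).filter (fun k => ∀ q ∈ D, k % q ∈ F q)).card : ℕ) : ℝ) else 0) := by
    unfold G
    rw [Finset.mul_sum, ← Finset.sum_sub_distrib]
    apply Finset.sum_le_sum
    intro D hD
    by_cases hc : D.card ≤ 2 * t + 1
    · simp only [if_pos hc]
      exact s4 D hD
    · simp only [if_neg hc]
      norm_num
  have s6 := (bonf P h h0 h1 (2 * t + 1)).2
  have s8 := G_le P (fun q => ((F q).card : ℝ)) (fun q _ => Nat.cast_nonneg _) (2 * t + 1)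
  rw [pow_succ, pow_mul] at s6
  norm_num at s6
  have hx : (0 : ℝ) ≤ x := Nat.cast_nonneg x
  have s9 : ∏ q ∈ P, (1 - h q) - (∑ q ∈ P, h q) ^ (2 * t + 2) / (2 * t + 2).factorial ≤
      G P (2 * t + 1) (fun q => - h q) := by
    have e : 2 * t + 1 + 1 = 2 * t + 2 := rfl
    rw [e] at s6
    linarith
  calc (x : ℝ) * (∏ q ∈ P, (1 - h q) - (∑ q ∈ P, h q) ^ (2 * t + 2) / (2 * t + 2).factorial) -
      (1 + ∑ q ∈ P, ((F q).card : ℝ)) ^ (2 * t + 1)
      ≤ x * G P (2 * t + 1) (fun q => - h q) - G P (2 * t + 1) (fun q => ((F q).card : ℝ)) :=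
        sub_le_sub (mul_le_mul_of_nonneg_left s9 hx) s8
    _ ≤ ∑ k ∈ Finset.Ioc 0 x, G P (2 * t + 1) (fun q => - ι k q) := by
        rw [s3]
        exact s5
    _ ≤ ∑ k ∈ Finset.Ioc 0 x, ∏ q ∈ P, (1 - ι k q) := Finset.sum_le_sum fun k _ => s2 k
    _ = (((Finset.Ioc 0 x).filter (fun k => ∀ q ∈ P, k % q ∉ F q)).card : ℝ) := s1.symm

/-- the primes up to `z` that do not divide `A` -/
def PA (A z : ℕ) : Finset ℕ := (Icc 1 z).filter (fun q => q.Prime ∧ ¬ q ∣ A)

theorem mem_PA {A z q : ℕ} : q ∈ PA A z ↔ q.Prime ∧ q ≤ z ∧ ¬ q ∣ A := by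
  rw [PA, mem_filter, mem_Icc]
  constructor
  · rintro ⟨h1, h2, h3⟩
    exact ⟨h2, h1.2, h3⟩
  · rintro ⟨h1, h2, h3⟩
    exact ⟨⟨h1.one_lt.le, h2⟩, h1, h3⟩

theorem card_PA (A z : ℕ) : (PA A z).card ≤ z := by
  refine (card_le_card (filter_subset _ _)).trans ?_
  simp

/-- the class of `k` modulo `q` with `A (N + k) = 1` modulo `q` -/
theorem cls_exists {A q : ℕ} (N : ℕ) (hq : q.Prime) (hA : ¬ q ∣ A) : ∃ c : ℕ, c < q ∧ ∀ k : ℕ,
    1 ≤ A * (N + k) → q ∣ A * (N + k) - 1 → k % q = c := by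
  by_cases h : ∃ k : ℕ, 1 ≤ A * (N + k) ∧ q ∣ A * (N + k) - 1
  · obtain ⟨k, h1, h2⟩ := h
    refine ⟨k % q, Nat.mod_lt _ hq.pos, fun l h3 h4 => ?_⟩
    have e1 : 1 ≡ A * (N + k) [MOD q] := (Nat.modEq_iff_dvd' h1).2 h2
    have e2 : 1 ≡ A * (N + l) [MOD q] := (Nat.modEq_iff_dvd' h3).2 h4
    have e3 : A * (N + l) ≡ A * (N + k) [MOD q] := e2.symm.trans e1
    have hco : Nat.gcd q A = 1 := (Nat.Prime.coprime_iff_not_dvd hq).2 hA
    have e4 : N + l ≡ N + k [MOD q] := Nat.ModEq.cancel_left_of_coprime hco e3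
    exact Nat.ModEq.add_left_cancel' N e4
  · push Not at h
    exact ⟨0, hq.pos, fun k h1 h2 => absurd h2 (h k h1)⟩

/-- **Row S1.** -/
theorem s1 (A z N t : ℕ) (hA : 1 ≤ A) (hz : 3 ≤ z) :
    (N : ℝ) * (∏ q ∈ PA A z, (1 - 1 / (q : ℝ)) -
        (∑ q ∈ PA A z, 1 / (q : ℝ)) ^ (2 * t + 2) / (2 * t + 2).factorial) - (1 + z : ℝ) ^ (2 * t + 1) ≤
    (((Ioc N (2 * N)).filter (fun v => z < (A * v - 1).minFac)).card : ℝ) := by
  classical
  have hP : ∀ q ∈ PA A z, q.Prime := fun q hq => (mem_PA.1 hq).1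
  have hex : ∀ q : ℕ, ∃ c : ℕ, q ∈ PA A z → c < q ∧ ∀ k : ℕ, 1 ≤ A * (N + k) → q ∣ A * (N + k) - 1 → k % q = c := by
    intro q
    by_cases hq : q ∈ PA A z
    · obtain ⟨c, h1, h2⟩ := cls_exists N (mem_PA.1 hq).1 (mem_PA.1 hq).2.2
      exact ⟨c, fun _ => ⟨h1, h2⟩⟩
    · exact ⟨0, fun h => absurd h hq⟩
  choose c hc using hex
  have hprod1 : ∏ q ∈ PA A z, (1 - 1 / (q : ℝ)) ≤ 1 := by
    apply Finset.prod_le_one
    · intro q hq
      have h1 : (1 : ℝ) ≤ q := by exact_mod_cast (hP q hq).one_lt.le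
      have : 1 / (q : ℝ) ≤ 1 := by
        rw [div_le_one (by linarith)]
        exact h1
      linarith
    · intro q hq
      have : (0 : ℝ) ≤ 1 / (q : ℝ) := by positivity
      linarith
  have hS0 : (0 : ℝ) ≤ (∑ q ∈ PA A z, 1 / (q : ℝ)) ^ (2 * t + 2) / (2 * t + 2).factorial := by positivity
  have hz3 : (3 : ℝ) ≤ z := by exact_mod_cast hz
  by_cases hN : N < 2
  · have hN' : (N : ℝ) ≤ 1 := by exact_mod_cast (by omega : N ≤ 1)
    have hN0 : (0 : ℝ) ≤ N := Nat.cast_nonneg N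
    have h1 : (1 : ℝ) ≤ (1 + z : ℝ) ^ (2 * t + 1) := one_le_pow₀ (by linarith)
    have h2 : (N : ℝ) * (∏ q ∈ PA A z, (1 - 1 / (q : ℝ)) -
        (∑ q ∈ PA A z, 1 / (q : ℝ)) ^ (2 * t + 2) / (2 * t + 2).factorial) ≤ N * 1 :=
      mul_le_mul_of_nonneg_left (by linarith) hN0
    have h3 : (0 : ℝ) ≤ (((Ioc N (2 * N)).filter (fun v => z < (A * v - 1).minFac)).card : ℝ) := Nat.cast_nonneg _
    linarith
  have hb := brunLow (PA A z) hP (fun q => {c q}) (by
    intro q hq r hr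
    rw [mem_singleton] at hr
    rw [hr]
    exact (hc q hq).1) N t
  simp only [card_singleton, Nat.cast_one, sum_const, nsmul_eq_mul, mul_one] at hb
  have hcard : ((PA A z).card : ℝ) ≤ z := by exact_mod_cast card_PA A z
  have hpow : (1 + ((PA A z).card : ℝ)) ^ (2 * t + 1) ≤ (1 + z : ℝ) ^ (2 * t + 1) :=
    pow_le_pow_left₀ (by positivity) (by linarith) _
  have hinj : (((Icc 1 N).filter (fun k => ∀ q ∈ PA A z, k % q ∉ ({c q} : Finset ℕ))).card : ℝ) ≤
      (((Ioc N (2 * N)).filter (fun v => z < (A * v - 1).minFac)).card : ℝ) := by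
    have : ((Icc 1 N).filter (fun k => ∀ q ∈ PA A z, k % q ∉ ({c q} : Finset ℕ))).card ≤
        ((Ioc N (2 * N)).filter (fun v => z < (A * v - 1).minFac)).card := by
      refine Finset.card_le_card_of_injOn (fun k => N + k) ?_ ?_
      · intro k hk
        rw [Finset.mem_coe, mem_filter, mem_Icc] at hk
        rw [Finset.mem_coe, mem_filter, mem_Ioc]
        obtain ⟨⟨hk1, hk2⟩, hk3⟩ := hk
        change (N < N + k ∧ N + k ≤ 2 * N) ∧ z < (A * (N + k) - 1).minFac
        refine ⟨⟨by omega, by omega⟩, ?_⟩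
        have hv : 3 ≤ A * (N + k) := by
          calc 3 ≤ 1 * (N + k) := by omega
            _ ≤ A * (N + k) := Nat.mul_le_mul_right _ hA
        by_contra hcon
        push Not at hcon
        have hne : A * (N + k) - 1 ≠ 1 := by omega
        have hpr := Nat.minFac_prime hne
        have hdv := Nat.minFac_dvd (A * (N + k) - 1)
        have hq : (A * (N + k) - 1).minFac ∈ PA A z := by
          refine mem_PA.2 ⟨hpr, hcon, fun hd => ?_⟩
          have h1 : (A * (N + k) - 1).minFac ∣ A * (N + k) := hd.mul_right _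
          have h2 : (A * (N + k) - 1).minFac ∣ 1 := by
            have := (Nat.dvd_sub h1 hdv)
            have e : A * (N + k) - (A * (N + k) - 1) = 1 := by omega
            rwa [e] at this
          exact hpr.one_lt.ne' (Nat.dvd_one.1 h2)
        have := (hc _ hq).2 k (by omega) hdv
        exact hk3 _ hq (mem_singleton.2 this)
      · intro a _ b _ hab
        exact Nat.add_left_cancel hab
    exact_mod_cast this
  linarith

end Pool.Agent.SPA.S69
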