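import Pool.Agent.SPA.S69b
import Pool.Agent.SPA.S17

/-!
# Row S (helper69, helper17)
-/

set_option autoImplicit false

namespace Pool.Agent.SPA.S69

theorem s : RowS := by
  refine s17 (fun A z N t S hA hN hS => s1all A z N t S hA hN hS) ?_
  intro p hp V δ hV hδ h
  exact dyad p V δ hV hδ h

end Pool.Agent.SPA.S69
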