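import Pool.Agent.SPA.S17
import Pool.Agent.SPA.S69
import Pool.Agent.SPA.Dy75

/-!
# MP_7a4c99_nt: row S (helper17, from helper69 and helper75)
-/

set_option autoImplicit false

namespace Pool.Agent.SPA

open Finset

theorem s1_17 : S1 := by
  intro A z N t S hA hz _ hS
  refine le_trans ?_ (S69.s1 A z N t hA hz)
  have hsub : S69.PA A z ⊆ (Icc 1 z).filter Nat.Prime := by
    intro q hq
    unfold S69.PA at hq
    rw [mem_filter] at hq ⊢
    exact ⟨hq.1, hq.2.1⟩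
  have hN0 : (0 : ℝ) ≤ N := Nat.cast_nonneg _
  have hsum : ∑ q ∈ S69.PA A z, 1 / (q : ℝ) ≤ S :=
    (Finset.sum_le_sum_of_subset_of_nonneg hsub fun _ _ _ => by positivity).trans hS
  have hsum0 : 0 ≤ ∑ q ∈ S69.PA A z, 1 / (q : ℝ) := Finset.sum_nonneg fun _ _ => by positivity
  have hpow : (∑ q ∈ S69.PA A z, 1 / (q : ℝ)) ^ (2 * t + 2) / (2 * t + 2).factorial ≤
      S ^ (2 * t + 2) / (2 * t + 2).factorial :=
    div_le_div_of_nonneg_right (pow_le_pow_left₀ hsum0 hsum _) (by positivity)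
  have hfac : ∀ q ∈ (Icc 1 z).filter Nat.Prime, 0 ≤ 1 - 1 / (q : ℝ) ∧ 1 - 1 / (q : ℝ) ≤ 1 := by
    intro q hq
    have h2 : (2 : ℝ) ≤ q := by exact_mod_cast (mem_filter.1 hq).2.two_le
    have h3 : 1 / (q : ℝ) ≤ 1 / 2 := one_div_le_one_div_of_le (by norm_num) h2
    have h4 : 0 ≤ 1 / (q : ℝ) := by positivity
    constructor <;> linarith
  have hprod : ∏ q ∈ (Icc 1 z).filter Nat.Prime, (1 - 1 / (q : ℝ)) ≤ ∏ q ∈ S69.PA A z, (1 - 1 / (q : ℝ)) := by
    rw [← Finset.prod_sdiff hsub]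
    have h5 : ∏ q ∈ (Icc 1 z).filter Nat.Prime \ S69.PA A z, (1 - 1 / (q : ℝ)) ≤ 1 :=
      Finset.prod_le_one (fun q hq => (hfac q (Finset.mem_sdiff.1 hq).1).1)
        (fun q hq => (hfac q (Finset.mem_sdiff.1 hq).1).2)
    have h6 : 0 ≤ ∏ q ∈ S69.PA A z, (1 - 1 / (q : ℝ)) :=
      Finset.prod_nonneg fun q hq => (hfac q (hsub hq)).1
    have := mul_le_mul_of_nonneg_right h5 h6
    linarith
  have h7 := mul_le_mul_of_nonneg_left (sub_le_sub hprod hpow) hN0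
  exact sub_le_sub_right h7 _

theorem dyad17 : Dyad := fun p _ V δ hV hδ h => dyad75 p V δ hV hδ h

/-- **Row S** -/
theorem sFin17 : RowS := s17 s1_17 dyad17

end Pool.Agent.SPA
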