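import Pool.Agent.SPM.Stmts

/-!
# Statements of the rows (MP_7a4c99, almost all sizes, every power of the logarithm)
-/

set_option autoImplicit false

namespace Pool.Agent.SPA

open Finset

/-- row A: reciprocals of a residue class in `(V, V²]` -/
def RowA : Prop := ∀ V q c : ℕ, 1 ≤ V → 1 ≤ q →
    ∑ v ∈ (Ioc V (V ^ 2)).filter (fun v => v ≡ c [MOD q]), (1 : ℝ) / v ≤ Real.log V / q + 1 / V

/-- row B1: roots of the quadratic modulo `g` -/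
def RowB1 : Prop := ∀ P t A s g U : ℕ, 1 ≤ g → 2 ≤ U → Nat.Coprime g (P * A) →
    ∑ u ∈ (Ioc U (U ^ 2)).filter
      (fun u : ℕ => (g : ℤ) ∣ (P : ℤ) * u * A * ((t : ℤ) + u - s) + A - P * u), (1 : ℝ) / u
    ≤ ∑ d ∈ g.divisors, (Real.log U * ((Nat.gcd d (g / d) : ℕ) : ℝ) / g + 1 / U)

/-- row B2: the sum over the moduli -/
def RowB2 : Prop := ∃ C : ℝ, 0 < C ∧ ∀ (z G U : ℕ) (L : ℝ), 1 ≤ z → 1 ≤ G → 1 ≤ U → 0 ≤ L →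
    ∑ g ∈ (Icc 2 G).filter (fun g => z < g.minFac),
      (1 : ℝ) / g * ∑ d ∈ g.divisors, (L * ((Nat.gcd d (g / d) : ℕ) : ℝ) / g + 1 / U)
    ≤ C * L / Real.sqrt z + (1 + Real.log G) ^ 2 / U

/-- row C: pairs of moduli `A v - 1`, `A w - 1` with the same `A` -/
def RowC : Prop := ∀ A V : ℕ, 1 ≤ A → 2 ≤ V →
    ∑ v ∈ Ioc V (V ^ 2), ∑ w ∈ (Ioc V (V ^ 2)).filter (fun w => w ≠ v),
      ((Nat.gcd (A * v - 1) (((v : ℤ) - w).natAbs) : ℕ) : ℝ) / ((v : ℝ) * w)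
    ≤ 8 * (1 + 2 * Real.log V) * ((1 + Real.log A + Real.log V) * Real.log V + Real.sqrt A)

/-- row D: the second moment -/
def RowD : Prop := ∀ (E : Finset ((ℕ × ℕ) × (ℕ × ℕ))) (m r : (ℕ × ℕ) × (ℕ × ℕ) → ℕ) (x : ℕ), (∀ i ∈ E, 1 ≤ m i) →
    ∑ k ∈ Ioc 0 x, ((((E.filter (fun i => m i ∣ k + r i)).card : ℕ) : ℝ) - ∑ i ∈ E, (1 : ℝ) / m i) ^ 2 ≤
      x * (∑ i ∈ E, ∑ j ∈ E.filter (fun j => 1 < Nat.gcd (m i) (m j) ∧ r i ≡ r j [MOD Nat.gcd (m i) (m j)]),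
        ((Nat.gcd (m i) (m j) : ℕ) : ℝ) / ((m i : ℝ) * m j)) + 3 * (E.card : ℝ) ^ 2

/-- the index set: `((P, t), (u, v))` -/
def Idx (T : Finset (ℕ × ℕ)) (U V : ℕ) : Finset ((ℕ × ℕ) × (ℕ × ℕ)) := T ×ˢ (Ioc U (U ^ 2) ×ˢ Ioc V (V ^ 2))

/-- the modulus `P u v - 1` -/
def mo (i : (ℕ × ℕ) × (ℕ × ℕ)) : ℕ := i.1.1 * i.2.1 * i.2.2 - 1

/-- the residue `t + u + v - 3` -/
def re (i : (ℕ × ℕ) × (ℕ × ℕ)) : ℕ := i.1.2 + i.2.1 + i.2.2 - 3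

/-- row V: the variance of the family (uses A, B1, B2, C) -/
def RowV : Prop := ∃ C : ℝ, 0 < C ∧ ∀ (z R U V : ℕ) (T : Finset (ℕ × ℕ)), 1 ≤ z → 2 ≤ R → R ^ 2 ≤ U → R ^ 4 * U ^ 8 ≤ V →
    (∀ p ∈ T, 1 ≤ p.1 ∧ p.1 ≤ R ∧ p.2 ≤ R ∧ ∀ q : ℕ, q.Prime → q ≤ z → q ∣ p.1) →
    ∑ i ∈ Idx T U V, ∑ j ∈ (Idx T U V).filter
        (fun j => 1 < Nat.gcd (mo i) (mo j) ∧ re i ≡ re j [MOD Nat.gcd (mo i) (mo j)]),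
        ((Nat.gcd (mo i) (mo j) : ℕ) : ℝ) / ((mo i : ℝ) * mo j)
    ≤ C * Real.log V ^ 2 * (∑ p ∈ T, (1 : ℝ) / p.1) ^ 2 * Real.log U * (Real.log U / Real.sqrt z + Real.log V ^ 2 / U)
      + C * (∑ p ∈ T, (1 : ℝ) / p.1) * Real.log U * (Real.log V + Real.log V ^ 3 / Real.sqrt U)

/-- row F: each divisor gives a solution -/
def RowF : Prop := ∀ (R U V k : ℕ) (T : Finset (ℕ × ℕ)), 2 ≤ R → R ≤ U → U ^ 2 ≤ V → R * U ^ 2 * V ^ 4 < k →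
    (∀ p ∈ T, p.1 ≤ R ∧ p.2 ≤ R ∧
      ∃ s : Multiset ℕ, (∀ a ∈ s, 2 ≤ a ∧ a ≤ R) ∧ s.prod = p.1 ∧ s.sum = p.2 + s.card) →
    ((Idx T U V).filter (fun i => mo i ∣ k + re i)).card ≤ Pool.Agent.SPM.N k

/-- row G: the family of the first entries -/
def RowG : Prop := ∀ r Q y : ℕ, 2 ≤ Q → Q ≤ y → 4 ≤ y → ∃ T : Finset (ℕ × ℕ),
    (∀ p ∈ T, Q ∣ p.1 ∧ 1 ≤ p.1 ∧ p.1 ≤ y ^ 5 ^ r ∧ p.2 ≤ y ^ 5 ^ r ∧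
      ∃ s : Multiset ℕ, (∀ a ∈ s, 2 ≤ a ∧ a ≤ y ^ 5 ^ r) ∧ s.prod = p.1 ∧ s.sum = p.2 + s.card) ∧
    (Real.log y / 2) ^ r / Q ≤ ∑ p ∈ T, (1 : ℝ) / p.1

/-- the main theorem -/
def Main : Prop := ∀ (C : ℕ) (ε : ℝ), 0 < ε → ∃ x₀ : ℕ, ∀ x : ℕ, x₀ ≤ x →
    (((Icc 2 x).filter (fun k => (Pool.Agent.SPM.N k : ℝ) < Real.log x ^ C)).card : ℝ) ≤ ε * x

/-- row H: the final choice of parameters -/
def RowH : Prop := RowD → RowV → RowF → RowG → Main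

end Pool.Agent.SPA
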