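import Pool.Agent.SPA.Stmts

/-!
# The growing form (helper89's remark: the number of scales may grow with `x`)
-/

set_option autoImplicit false

namespace Pool.Agent.SPA

open Finset

/-- the main theorem: `N k ≥ exp (c (log log x)²)` for all but `ε x` of the `k ≤ x` -/
def Main2 : Prop := ∃ c : ℝ, 0 < c ∧ ∀ ε : ℝ, 0 < ε → ∃ x₀ : ℕ, ∀ x : ℕ, x₀ ≤ x →
    (((Icc 2 x).filter (fun k => (Pool.Agent.SPM.N k : ℝ) < Real.exp (c * Real.log (Real.log x) ^ 2))).card : ℝ)
      ≤ ε * x

/-- row H2: the final choice of parameters (`z` constant, `log y` about `(log x)^(1/2)`, `r` about `c log log x`) -/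
def RowH2 : Prop := RowD → RowV → RowF → RowG → Main2

end Pool.Agent.SPA
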