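import Pool.Agent.SPA.Stmts3

/-!
# The form with an explicit exceptional set
-/

set_option autoImplicit false

namespace Pool.Agent.SPA

open Finset

/-- `N k ≥ exp (c (log log x)²)` for all but `O(x / log log x)` of the `k ≤ x` -/
def Main3 : Prop := ∃ c B : ℝ, 0 < c ∧ ∀ x : ℕ, 16 ≤ x →
    (((Icc 2 x).filter (fun k => (Pool.Agent.SPM.N k : ℝ) < Real.exp (c * Real.log (Real.log x) ^ 2))).card : ℝ)
      ≤ B * x / Real.log (Real.log x)

/-- `Q = primorial z ≤ 4 ^ z`, `z = ⌊(log log x)² / 200⌋ + 1` -/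
def RowAs2 : Prop := ∀ C : ℝ, 0 < C → Core C → RowG → Main3

end Pool.Agent.SPA
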