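import Pool.Agent.SPA.Stmts5

/-!
# The strongest form: exceptional set `O(x exp (-c (log log x)^2))`
-/

set_option autoImplicit false

namespace Pool.Agent.SPA

open Finset

/-- the main theorem, strongest form -/
def Main5 : Prop := ∃ c B : ℝ, 0 < c ∧ ∀ x : ℕ, 3 ≤ x →
    (((Icc 2 x).filter (fun k => (Pool.Agent.SPM.N k : ℝ) < Real.exp (c * Real.log (Real.log x) ^ 2))).card : ℝ)
      ≤ B * x * Real.exp (-(c * Real.log (Real.log x) ^ 2))

/-- `Q = 2`, `z = ⌊exp ((log log x)^2 / 16)⌋ + 3`, `y = ⌊exp (sqrt (log x))⌋`, `r = ⌊log log x / 8⌋`, `R = y ^ 5 ^ r` -/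
def RowAs5 : Prop := ∀ C c K : ℝ, 0 < C → 0 < c → c ≤ 1 → 1 ≤ K → Core2 C c K → RowG → Main5

end Pool.Agent.SPA
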