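import Pool.Agent.SPA.Stmts6

/-!
# The form with `exp (c (log x)^(1/3))`
-/

set_option autoImplicit false

namespace Pool.Agent.SPA

open Finset

/-- row G6: entries `p_i w_i`, `p_i` prime in `(2^a_i, 2^(a_i + L)]`, `a_i = (3 i + 1) L`, `1 ≤ w_i ≤ 2^L` -/
def RowG6 : Prop := ∃ j₀ : ℕ, ∀ r L : ℕ, j₀ ≤ L → 1 ≤ L → 1 ≤ r → ∃ T : Finset (ℕ × ℕ),
    (∀ p ∈ T, 1 ≤ p.1 ∧ p.1 ≤ 2 ^ (3 * r ^ 2 * L) ∧ p.2 ≤ 2 ^ (3 * r ^ 2 * L) ∧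
      ∃ s : Multiset ℕ, (∀ a ∈ s, 2 ≤ a ∧ a ≤ 2 ^ (3 * r ^ 2 * L)) ∧ s.prod = p.1 ∧ s.sum = p.2 + s.card) ∧
    ((L : ℝ) / (24 * r)) ^ r ≤ ∑ p ∈ T, (1 : ℝ) / p.1

/-- the main theorem: `N k ≥ exp (c (log x)^(1/3))` for all `k ≤ x` but `O(x exp (-c (log x)^(1/3)))` -/
def Main6 : Prop := ∃ c B : ℝ, 0 < c ∧ ∀ x : ℕ, 2 ≤ x →
    (((Icc 2 x).filter (fun k => (Pool.Agent.SPM.N k : ℝ) < Real.exp (c * Real.log x ^ ((1 : ℝ) / 3)))).card : ℝ)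
      ≤ B * x * Real.exp (-(c * Real.log x ^ ((1 : ℝ) / 3)))

/-- `r = ⌊(log x)^(1/3) / 31⌋`, `L = 72 r`, `R = 2 ^ (216 r^3)`, `z = 3 ^ r`, `W ≥ 3 ^ r` -/
def RowAs6 : Prop := ∀ C c K : ℝ, 0 < C → 0 < c → c ≤ 1 → 1 ≤ K → Core2 C c K → RowG6 → Main6

end Pool.Agent.SPA
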