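import Pool.Agent.SPA.Stmts10
import Pool.Agent.Helper75.LG.Om

/-!
# MP_7a4c99_nt: row U1 (helper17)
-/

set_option autoImplicit false

namespace Pool.Agent.SPA

open Finset

theorem map_om17 (w : ℕ) (Z : ℝ) (l : List ℕ) :
    (l.map (fun p => if w < p then Z else 1)).prod = Z ^ (l.filter (fun p => w < p)).length := by
  induction l with
  | nil => simp
  | cons a l ih =>
    rw [List.map_cons, List.prod_cons, ih, List.filter_cons]
    by_cases h : w < a
    · simp only [h, if_true, decide_true, List.length_cons]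
      rw [pow_succ]
      ring
    · simp [h]

theorem u117 (hGP : RowGP) : RowU1 := by
  obtain ⟨C0, hC0⟩ := LG.sum_recip_loglog
  refine ⟨max C0 1, lt_of_lt_of_le one_pos (le_max_right _ _), ?_⟩
  intro w y Z X hw hwy hZ hZw hX
  have hw3 : (3 : ℝ) ≤ w := by exact_mod_cast hw
  set h : ℕ → ℝ := fun p => if w < p then Z else 1 with hh
  have hle : ∀ p : ℕ, 0 ≤ h p ∧ h p ≤ Z := by
    intro p
    simp only [hh]
    split_ifs
    · exact ⟨by linarith, le_rfl⟩
    · exact ⟨by norm_num, hZ⟩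
  have hhalf : ∀ p : ℕ, p.Prime → p ≤ y → 0 ≤ h p ∧ h p / p ≤ 1 / 2 := by
    intro p hp _
    refine ⟨(hle p).1, ?_⟩
    have hp2 : (2 : ℝ) ≤ p := by exact_mod_cast hp.two_le
    rw [div_le_iff₀ (by linarith)]
    simp only [hh]
    split_ifs with hwp
    · have : (w : ℝ) < p := by exact_mod_cast hwp
      linarith
    · linarith
  have key := hGP y h X hhalf hX
  have hsum : ∑ Q ∈ X, (Q.primeFactorsList.map h).prod / (Q : ℝ) = ∑ Q ∈ X, Z ^ om w Q / (Q : ℝ) := by
    refine Finset.sum_congr rfl fun Q _ => ?_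
    rw [hh, map_om17]
    rfl
  rw [hsum] at key
  refine key.trans (Real.exp_le_exp.2 ?_)
  have hterm : ∀ p ∈ (Icc 1 y).filter Nat.Prime, h p / p + 2 * (h p / p) ^ 2 ≤ 2 * Z * (1 / (p : ℝ)) := by
    intro p hp
    rw [mem_filter, mem_Icc] at hp
    have h1 := hhalf p hp.2 hp.1.2
    have hp2 : (2 : ℝ) ≤ p := by exact_mod_cast hp.2.two_le
    have h3 : 0 ≤ h p / p := div_nonneg h1.1 (by linarith)
    have h4 : 2 * (h p / p) ^ 2 ≤ h p / p := by nlinarith [h1.2]
    have h5 : h p / p ≤ Z * (1 / (p : ℝ)) := by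
      rw [mul_one_div]
      exact div_le_div_of_nonneg_right (hle p).2 (by linarith)
    linarith
  refine (Finset.sum_le_sum hterm).trans ?_
  rw [← Finset.mul_sum]
  have hM := hC0 y (by omega)
  have hM' : ∑ p ∈ (Icc 1 y).filter Nat.Prime, 1 / (p : ℝ) ≤ Real.log (Real.log y) + max C0 1 :=
    le_trans hM (by linarith [le_max_left C0 1])
  exact mul_le_mul_of_nonneg_left hM' (by linarith)

end Pool.Agent.SPA
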