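import Pool.Agent.SPA.Stmts10
import Pool.Agent.SPA.M20

/-!
# Row U2: integers weighted with `z ^ om`
-/

set_option autoImplicit false

namespace Pool.Agent.SPA.U234

open Finset

lemma map_list34 (w : ℕ) (z : ℝ) (l : List ℕ) :
    (l.map (fun p => if p ≤ w then (1 : ℝ) else z)).prod = z ^ (l.filter (fun p => w < p)).length := by
  induction l with
  | nil => simp
  | cons a l ih =>
    by_cases h : a ≤ w
    · have h' : ¬ w < a := by omega
      rw [List.map_cons, List.prod_cons, ih, if_pos h, List.filter_cons_of_neg (by simpa using h'), one_mul]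
    · have h' : w < a := by omega
      rw [List.map_cons, List.prod_cons, ih, if_neg h, List.filter_cons_of_pos (by simpa using h'),
        List.length_cons, pow_succ, mul_comm]

/-- **Row U2** -/
theorem u2 : RowGP → RowU2 := by
  intro hGP
  obtain ⟨C0, hC0, hS⟩ := M20.sum_le
  refine ⟨Real.exp (C0 + 2), Real.exp_pos _, ?_⟩
  intro w y z hw hwy hz0 hz1
  have hy : 3 ≤ y := hw.trans hwy
  obtain ⟨h, hh⟩ : ∃ h : ℕ → ℝ, h = fun p => if p ≤ w then (1 : ℝ) else z := ⟨_, rfl⟩
  have hh0 : ∀ p, 0 ≤ h p := by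
    intro p; rw [hh]; simp only []; split_ifs <;> linarith
  have hh1 : ∀ p, h p ≤ 1 := by
    intro p; rw [hh]; simp only []; split_ifs <;> linarith
  have hq := hGP y h (Icc 1 y) (fun p hp _ => ⟨hh0 p, by
      have h2 : (2 : ℝ) ≤ p := by exact_mod_cast hp.two_le
      have h3 : h p / p ≤ 1 / p := div_le_div_of_nonneg_right (hh1 p) (by linarith)
      exact h3.trans (one_div_le_one_div_of_le (by norm_num) h2)⟩)
    (fun Q hQ => by
      rw [Finset.mem_Icc] at hQ
      refine ⟨by omega, fun p hp => ?_⟩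
      exact (Nat.le_of_mem_primeFactorsList hp).trans hQ.2)
  have hL : ∑ Q ∈ Icc 1 y, (Q.primeFactorsList.map h).prod / (Q : ℝ) =
      ∑ e ∈ Icc 1 y, z ^ om w e / (e : ℝ) := by
    refine Finset.sum_congr rfl (fun Q _ => ?_)
    rw [hh, map_list34]
    rfl
  rw [hL] at hq
  refine hq.trans ?_
  have hlw : 0 < Real.log w := Real.log_pos (by
    have : (3 : ℝ) ≤ w := by exact_mod_cast hw
    linarith)
  have hly : 0 < Real.log y := Real.log_pos (by
    have : (3 : ℝ) ≤ y := by exact_mod_cast hy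
    linarith)
  rw [Real.rpow_def_of_pos hlw, Real.rpow_def_of_pos hly, mul_assoc, ← Real.exp_add, ← Real.exp_add]
  refine Real.exp_le_exp.2 ?_
  rw [Finset.sum_add_distrib]
  have hsq : ∑ p ∈ (Icc 1 y).filter Nat.Prime, 2 * (h p / p) ^ 2 ≤ 2 := by
    refine (Finset.sum_le_sum (fun p hp => ?_)).trans (M20.sum_sq y hy)
    have hp2 : (2 : ℝ) ≤ p := by exact_mod_cast (Finset.mem_filter.1 hp).2.two_le
    have h3 : h p / p ≤ 1 / p := div_le_div_of_nonneg_right (hh1 p) (by linarith)
    have h4 : 0 ≤ h p / p := div_nonneg (hh0 p) (by linarith)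
    have h5 : (h p / p) ^ 2 ≤ (1 / (p : ℝ)) ^ 2 := pow_le_pow_left₀ h4 h3 2
    linarith
  have hlin : ∑ p ∈ (Icc 1 y).filter Nat.Prime, h p / p ≤
      (1 - z) * (Real.log (Real.log w) + C0) + z * (Real.log (Real.log y) + C0) := by
    have h1 : ∀ p ∈ (Icc 1 y).filter Nat.Prime,
        h p / (p : ℝ) = (1 - z) * (if p ≤ w then (1 : ℝ) / p else 0) + z * ((1 : ℝ) / p) := by
      intro p _
      rw [hh]
      simp only []
      split_ifs
      · ring
      · ring
    rw [Finset.sum_congr rfl h1, Finset.sum_add_distrib, ← Finset.mul_sum, ← Finset.mul_sum]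
    have h2 : ∑ p ∈ (Icc 1 y).filter Nat.Prime, (if p ≤ w then (1 : ℝ) / p else 0) ≤
        ∑ p ∈ (Icc 1 w).filter Nat.Prime, (1 : ℝ) / p := by
      rw [← Finset.sum_filter]
      refine Finset.sum_le_sum_of_subset_of_nonneg ?_ (fun _ _ _ => by positivity)
      intro p hp
      simp only [Finset.mem_filter, Finset.mem_Icc] at hp ⊢
      exact ⟨⟨hp.1.1.1, hp.2⟩, hp.1.2⟩
    have h3 := h2.trans (hS w hw)
    have h4 := hS y hy
    exact add_le_add (mul_le_mul_of_nonneg_left h3 (by linarith)) (mul_le_mul_of_nonneg_left h4 hz0.le)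
  have hfin : (1 - z) * (Real.log (Real.log w) + C0) + z * (Real.log (Real.log y) + C0) + 2 =
      C0 + 2 + (Real.log (Real.log w) * (1 - z) + Real.log (Real.log y) * z) := by ring
  linarith

end Pool.Agent.SPA.U234
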