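import Pool.Agent.SPA.Stmts10
import Pool.Agent.SPA.up77

/-!
# Row UA2 (MP_7a4c99): multisets with few prime factors in the small entries
-/

set_option autoImplicit false
set_option maxHeartbeats 1000000

namespace Pool.Agent.SPA.UA220

open Finset

theorem om_mul (w a b : ℕ) (ha : a ≠ 0) (hb : b ≠ 0) : om w (a * b) = om w a + om w b := by
  unfold om
  rw [((Nat.perm_primeFactorsList_mul ha hb).filter _).length_eq, List.filter_append, List.length_append]

/-- the weight of an entry -/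
noncomputable def gg (w y : ℕ) (z lam η : ℝ) (e : ℕ) : ℝ :=
  if e ≤ y then z ^ om w e / (e : ℝ) else lam⁻¹ * (e : ℝ) ^ (-(1 + η))

theorem prod_ne (s : Multiset ℕ) (hs : ∀ e ∈ s, 2 ≤ e) : s.prod ≠ 0 := by
  intro h
  have := Multiset.prod_eq_zero_iff.mp h
  have := hs 0 this
  omega

theorem low (w y : ℕ) (z lam η : ℝ) (hz : 0 < z) (hlam : 1 ≤ lam) (hη : 0 < η) (s : Multiset ℕ) :
    (∀ e ∈ s, 2 ≤ e) → z ^ om w (s.filter (fun a => a ≤ y)).prod * lam⁻¹ ^ (s.filter (fun a => ¬ a ≤ y)).card *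
      (s.prod : ℝ) ^ (-(1 + η)) ≤ (s.map (gg w y z lam η)).prod := by
  induction s using Multiset.induction_on with
  | empty =>
    intro _
    simp [om]
  | cons a s ih =>
    intro hs
    have hs2 : ∀ e ∈ s, 2 ≤ e := fun e he => hs e (Multiset.mem_cons_of_mem he)
    have ha := hs a (Multiset.mem_cons_self a s)
    have h1 := ih hs2
    have ha0 : (0 : ℝ) < a := by exact_mod_cast (by omega : 0 < a)
    have hP0 : (0 : ℝ) ≤ (s.prod : ℝ) := Nat.cast_nonneg _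
    have hl0 : 0 < lam⁻¹ := by positivity
    rw [Multiset.map_cons, Multiset.prod_cons, Multiset.prod_cons, Nat.cast_mul, Real.mul_rpow ha0.le hP0]
    by_cases hay : a ≤ y
    · rw [Multiset.filter_cons_of_pos (s := s) (p := fun a => a ≤ y) hay,
        Multiset.filter_cons_of_neg (s := s) (p := fun a => ¬ a ≤ y) (by simpa using hay), Multiset.prod_cons,
        om_mul w a _ (by omega) (prod_ne _ (fun e he => hs2 e (Multiset.mem_filter.mp he).1)), pow_add]
      unfold gg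
      rw [if_pos hay]
      have h2 : (a : ℝ) ^ (-(1 + η)) ≤ (a : ℝ)⁻¹ := by
        rw [← Real.rpow_neg_one]
        exact Real.rpow_le_rpow_of_exponent_le (by exact_mod_cast (by omega : 1 ≤ a)) (by linarith)
      have h3 : 0 ≤ z ^ om w a * (z ^ om w (s.filter (fun a => a ≤ y)).prod *
          lam⁻¹ ^ (s.filter (fun a => ¬ a ≤ y)).card * (s.prod : ℝ) ^ (-(1 + η))) := by
        have := Real.rpow_nonneg hP0 (-(1 + η))
        positivity
      calc z ^ om w a * z ^ om w (s.filter (fun a => a ≤ y)).prod *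
            lam⁻¹ ^ (s.filter (fun a => ¬ a ≤ y)).card * ((a : ℝ) ^ (-(1 + η)) * (s.prod : ℝ) ^ (-(1 + η)))
          = (a : ℝ) ^ (-(1 + η)) * (z ^ om w a * (z ^ om w (s.filter (fun a => a ≤ y)).prod *
          lam⁻¹ ^ (s.filter (fun a => ¬ a ≤ y)).card * (s.prod : ℝ) ^ (-(1 + η)))) := by ring
        _ ≤ (a : ℝ)⁻¹ * (z ^ om w a * (z ^ om w (s.filter (fun a => a ≤ y)).prod *
          lam⁻¹ ^ (s.filter (fun a => ¬ a ≤ y)).card * (s.prod : ℝ) ^ (-(1 + η)))) :=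
            mul_le_mul_of_nonneg_right h2 h3
        _ = z ^ om w a / a * (z ^ om w (s.filter (fun a => a ≤ y)).prod *
          lam⁻¹ ^ (s.filter (fun a => ¬ a ≤ y)).card * (s.prod : ℝ) ^ (-(1 + η))) := by
            rw [div_eq_mul_inv]; ring
        _ ≤ _ := mul_le_mul_of_nonneg_left h1 (by positivity)
    · rw [Multiset.filter_cons_of_neg (s := s) (p := fun a => a ≤ y) hay,
        Multiset.filter_cons_of_pos (s := s) (p := fun a => ¬ a ≤ y) hay, Multiset.card_cons, pow_succ]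
      unfold gg
      rw [if_neg hay]
      calc z ^ om w (s.filter (fun a => a ≤ y)).prod *
            (lam⁻¹ ^ (s.filter (fun a => ¬ a ≤ y)).card * lam⁻¹) * ((a : ℝ) ^ (-(1 + η)) * (s.prod : ℝ) ^ (-(1 + η)))
          = lam⁻¹ * (a : ℝ) ^ (-(1 + η)) * (z ^ om w (s.filter (fun a => a ≤ y)).prod *
          lam⁻¹ ^ (s.filter (fun a => ¬ a ≤ y)).card * (s.prod : ℝ) ^ (-(1 + η))) := by ring
        _ ≤ _ := mul_le_mul_of_nonneg_left h1 (mul_nonneg hl0.le (Real.rpow_nonneg ha0.le _))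

theorem cardb (y : ℕ) (s : Multiset ℕ) : (∀ e ∈ s, 2 ≤ e) → y ^ (s.filter (fun a => ¬ a ≤ y)).card ≤ s.prod := by
  induction s using Multiset.induction_on with
  | empty =>
    intro _
    simp
  | cons a s ih =>
    intro hs
    have hs2 : ∀ e ∈ s, 2 ≤ e := fun e he => hs e (Multiset.mem_cons_of_mem he)
    have ha := hs a (Multiset.mem_cons_self a s)
    have h1 := ih hs2
    rw [Multiset.prod_cons]
    by_cases hay : a ≤ y
    · rw [Multiset.filter_cons_of_neg (s := s) (p := fun a => ¬ a ≤ y) (by simpa using hay)]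
      exact h1.trans (Nat.le_mul_of_pos_left _ (by omega))
    · rw [Multiset.filter_cons_of_pos (s := s) (p := fun a => ¬ a ≤ y) hay, Multiset.card_cons, pow_succ, mul_comm]
      exact Nat.mul_le_mul (by omega) h1

theorem tail (η : ℝ) (hη : 0 < η) (y n : ℕ) (hy : 1 ≤ y) :
    ∑ e ∈ Ioc y (y + n), (e : ℝ) ^ (-(1 + η)) ≤ (1 / η) * ((y : ℝ) ^ (-η) - ((y + n : ℕ) : ℝ) ^ (-η)) := by
  induction n with
  | zero => simp
  | succ n ih =>
    have h1 : Ioc y (y + (n + 1)) = insert (y + n + 1) (Ioc y (y + n)) := by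
      ext e
      simp only [mem_insert, mem_Ioc]
      omega
    rw [h1, sum_insert (by simp only [mem_Ioc]; omega)]
    have h2 := Up77.tele η hη (y + n) (by omega)
    have h3 : (y + (n + 1) : ℕ) = y + n + 1 := by omega
    rw [h3]
    linarith

theorem tail2 (η : ℝ) (hη : 0 < η) (y N : ℕ) (hy : 1 ≤ y) :
    ∑ e ∈ Ioc y N, (e : ℝ) ^ (-(1 + η)) ≤ 1 / η := by
  rcases Nat.lt_or_ge N y with h | h
  · rw [Ioc_eq_empty (by omega), sum_empty]
    positivity
  · obtain ⟨n, rfl⟩ := Nat.exists_eq_add_of_le h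
    refine (tail η hη y n hy).trans ?_
    have h1 : (0 : ℝ) ≤ ((y + n : ℕ) : ℝ) ^ (-η) := Real.rpow_nonneg (Nat.cast_nonneg _) _
    have h2 : (y : ℝ) ^ (-η) ≤ 1 := Real.rpow_le_one_of_one_le_of_nonpos (by exact_mod_cast hy) (by linarith)
    have h3 : (0 : ℝ) < 1 / η := by positivity
    calc 1 / η * ((y : ℝ) ^ (-η) - ((y + n : ℕ) : ℝ) ^ (-η)) ≤ 1 / η * 1 :=
          mul_le_mul_of_nonneg_left (by linarith) h3.le
      _ = 1 / η := mul_one _

theorem inv_le (t : ℝ) (h0 : 0 ≤ t) (h1 : t ≤ 1 / 2) : (1 - t)⁻¹ ≤ Real.exp (2 * t) := by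
  have h2 : (1 - t)⁻¹ ≤ 1 + 2 * t := by
    rw [inv_le_iff_one_le_mul₀ (by linarith)]
    nlinarith
  have h3 := Real.add_one_le_exp (2 * t)
  linarith

theorem ua2 : RowGL → RowUA2 := by
  intro hGL x y w M n₁ z lam η X hx hy hz hz1 hlam hη hη1 hn hX
  have hlam0 : 0 < lam := by linarith
  have hl0 : 0 < lam⁻¹ := by positivity
  have hl1 : lam⁻¹ ≤ 1 := inv_le_one_of_one_le₀ hlam
  have hg : ∀ n, 2 ≤ n → 0 ≤ gg w y z lam η n ∧ gg w y z lam η n ≤ 1 / 2 := by
    intro n hn2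
    have hn0 : (0 : ℝ) < n := by exact_mod_cast (by omega : 0 < n)
    have hn1 : (2 : ℝ) ≤ n := by exact_mod_cast hn2
    unfold gg
    split_ifs with h
    · refine ⟨by positivity, ?_⟩
      have h1 : z ^ om w n ≤ 1 := pow_le_one₀ hz.le hz1
      rw [div_le_div_iff₀ hn0 (by norm_num)]
      linarith
    · refine ⟨mul_nonneg hl0.le (Real.rpow_nonneg hn0.le _), ?_⟩
      have h1 : (n : ℝ) ^ (-(1 + η)) ≤ (n : ℝ)⁻¹ := by
        rw [← Real.rpow_neg_one]
        exact Real.rpow_le_rpow_of_exponent_le (by linarith) (by linarith)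
      have h2 : (n : ℝ)⁻¹ ≤ 1 / 2 := by
        rw [← one_div]
        exact one_div_le_one_div_of_le (by norm_num) hn1
      calc lam⁻¹ * (n : ℝ) ^ (-(1 + η)) ≤ 1 * (1 / 2) :=
            mul_le_mul hl1 (h1.trans h2) (Real.rpow_nonneg hn0.le _) (by norm_num)
        _ = 1 / 2 := by norm_num
  have h1 := hGL (2 * x) (gg w y z lam η) X (fun n hn2 _ => hg n hn2) (fun s hs e he => by
    obtain ⟨a1, a2, -⟩ := hX s hs
    refine ⟨a1 e he, ?_⟩
    exact (Nat.le_of_dvd (Nat.pos_of_ne_zero (prod_ne s a1)) (Multiset.dvd_prod he)).trans a2)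
  -- the lower bound of each term
  have hx0 : (0 : ℝ) < 2 * x := by
    have : 0 < x := by omega
    positivity
  have h2 : ∀ s ∈ X, z ^ M * lam⁻¹ ^ n₁ * (2 * (x : ℝ)) ^ (-(1 + η)) ≤ (s.map (gg w y z lam η)).prod := by
    intro s hs
    obtain ⟨a1, a2, a3⟩ := hX s hs
    refine le_trans ?_ (low w y z lam η hz hlam hη s a1)
    have b1 : (s.filter (fun a => ¬ a ≤ y)).card ≤ n₁ := by
      have b2 := ((cardb y s a1).trans a2).trans_lt hn
      have b3 := (Nat.pow_lt_pow_iff_right (by omega : 1 < y)).mp b2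
      omega
    have b4 : (0 : ℝ) < (s.prod : ℝ) := by exact_mod_cast Nat.pos_of_ne_zero (prod_ne s a1)
    have b5 : (s.prod : ℝ) ≤ 2 * x := by exact_mod_cast a2
    refine mul_le_mul (mul_le_mul (pow_le_pow_of_le_one hz.le hz1 a3) (pow_le_pow_of_le_one hl0.le hl1 b1)
      (by positivity) (by positivity)) ?_ (Real.rpow_nonneg hx0.le _) (by positivity)
    exact Real.rpow_le_rpow_of_nonpos b4 b5 (by linarith)
  have h3 : (X.card : ℝ) * (z ^ M * lam⁻¹ ^ n₁ * (2 * (x : ℝ)) ^ (-(1 + η))) ≤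
      ∏ n ∈ Icc 2 (2 * x), (1 - gg w y z lam η n)⁻¹ := by
    refine le_trans ?_ h1
    rw [← nsmul_eq_mul]
    exact card_nsmul_le_sum X _ _ h2
  have h4 : ∏ n ∈ Icc 2 (2 * x), (1 - gg w y z lam η n)⁻¹ ≤
      Real.exp (2 * ∑ n ∈ Icc 2 (2 * x), gg w y z lam η n) := by
    rw [mul_sum, Real.exp_sum]
    refine prod_le_prod (fun n hn2 => ?_) (fun n hn2 => ?_)
    · have := (hg n (mem_Icc.mp hn2).1).2
      exact inv_nonneg.mpr (by linarith)
    · obtain ⟨c1, c2⟩ := hg n (mem_Icc.mp hn2).1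
      exact inv_le _ c1 c2
  have h5 : ∑ n ∈ Icc 2 (2 * x), gg w y z lam η n ≤
      ∑ e ∈ Icc 1 y, z ^ om w e / (e : ℝ) + lam⁻¹ * (1 / η) := by
    rw [← sum_filter_add_sum_filter_not (Icc 2 (2 * x)) (fun n => n ≤ y)]
    refine add_le_add ?_ ?_
    · calc ∑ n ∈ (Icc 2 (2 * x)).filter (fun n => n ≤ y), gg w y z lam η n
          = ∑ n ∈ (Icc 2 (2 * x)).filter (fun n => n ≤ y), z ^ om w n / (n : ℝ) := by
            refine sum_congr rfl (fun n hn2 => ?_)
            unfold gg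
            rw [if_pos (mem_filter.mp hn2).2]
        _ ≤ _ := by
          refine sum_le_sum_of_subset_of_nonneg (fun n hn2 => ?_) (fun n _ _ => by positivity)
          rw [mem_filter, mem_Icc] at hn2
          rw [mem_Icc]
          omega
    · calc ∑ n ∈ (Icc 2 (2 * x)).filter (fun n => ¬ n ≤ y), gg w y z lam η n
          = ∑ n ∈ (Icc 2 (2 * x)).filter (fun n => ¬ n ≤ y), lam⁻¹ * (n : ℝ) ^ (-(1 + η)) := by
            refine sum_congr rfl (fun n hn2 => ?_)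
            unfold gg
            rw [if_neg (mem_filter.mp hn2).2]
        _ ≤ ∑ n ∈ Ioc y (2 * x), lam⁻¹ * (n : ℝ) ^ (-(1 + η)) := by
          refine sum_le_sum_of_subset_of_nonneg (fun n hn2 => ?_)
            (fun n _ _ => mul_nonneg hl0.le (Real.rpow_nonneg (Nat.cast_nonneg _) _))
          rw [mem_filter, mem_Icc] at hn2
          rw [mem_Ioc]
          omega
        _ = lam⁻¹ * ∑ n ∈ Ioc y (2 * x), (n : ℝ) ^ (-(1 + η)) := by rw [mul_sum]
        _ ≤ _ := mul_le_mul_of_nonneg_left (tail2 η hη y (2 * x) (by omega)) hl0.le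
  have h6 : (X.card : ℝ) * (z ^ M * lam⁻¹ ^ n₁ * (2 * (x : ℝ)) ^ (-(1 + η))) ≤
      Real.exp (2 / (lam * η)) * Real.exp (2 * ∑ e ∈ Icc 1 y, z ^ om w e / (e : ℝ)) := by
    refine (h3.trans h4).trans ?_
    rw [← Real.exp_add]
    apply Real.exp_le_exp.2
    have e1 : 2 / (lam * η) = 2 * (lam⁻¹ * (1 / η)) := by
      field_simp
    rw [e1]
    linarith
  have e2 : (2 * (x : ℝ)) ^ (-(1 + η)) * (2 * (x : ℝ)) ^ (1 + η) = 1 := by
    rw [← Real.rpow_add hx0]
    simp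
  have e3 : z ^ M * (1 / z) ^ M = 1 := by
    rw [← mul_pow, mul_one_div_cancel hz.ne', one_pow]
  have e4 : lam⁻¹ ^ n₁ * lam ^ n₁ = 1 := by
    rw [← mul_pow, inv_mul_cancel₀ hlam0.ne', one_pow]
  have hR : 0 ≤ (2 * (x : ℝ)) ^ (1 + η) * (1 / z) ^ M * lam ^ n₁ := by
    have := Real.rpow_nonneg hx0.le (1 + η)
    positivity
  calc (X.card : ℝ) = (X.card : ℝ) * ((z ^ M * (1 / z) ^ M) * (lam⁻¹ ^ n₁ * lam ^ n₁) *
        ((2 * (x : ℝ)) ^ (-(1 + η)) * (2 * (x : ℝ)) ^ (1 + η))) := by rw [e2, e3, e4]; ring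
    _ = ((2 * (x : ℝ)) ^ (1 + η) * (1 / z) ^ M * lam ^ n₁) *
        ((X.card : ℝ) * (z ^ M * lam⁻¹ ^ n₁ * (2 * (x : ℝ)) ^ (-(1 + η)))) := by ring
    _ ≤ ((2 * (x : ℝ)) ^ (1 + η) * (1 / z) ^ M * lam ^ n₁) *
        (Real.exp (2 / (lam * η)) * Real.exp (2 * ∑ e ∈ Icc 1 y, z ^ om w e / (e : ℝ))) :=
        mul_le_mul_of_nonneg_left h6 hR
    _ = _ := by ring

end Pool.Agent.SPA.UA220
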