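import Pool.Agent.SPA.Stmts10

/-!
# Row UPar: the parameters of the upper bound
-/

set_option autoImplicit false

namespace Pool.Agent.SPA.UPar3

open Finset Filter

/-- the parameters as functions of `l` -/
structure Ok (C l r : ℝ) : Prop where
  hC : 0 < C
  h12 : 12 ≤ l
  h1 : 1 ≤ Real.log l
  h8 : 8 * Real.log l ^ 2 ≤ l
  h2C : 2 * C ≤ l
  hr : r = Real.exp l

section

variable {C l r : ℝ}

theorem Ok.l0 (h : Ok C l r) : 0 < l := by linarith [h.h12]

theorem Ok.r0 (h : Ok C l r) : 0 < r := by rw [h.hr]; exact Real.exp_pos _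

theorem Ok.rbig (h : Ok C l r) : 1 + 7 * l ≤ r := by
  have := Real.quadratic_le_exp_of_nonneg h.l0.le
  rw [h.hr]; nlinarith [h.h12]

theorem Ok.logr (h : Ok C l r) : Real.log r = l := by rw [h.hr, Real.log_exp]

theorem Ok.lam8 (h : Ok C l r) : 8 * Real.log l ≤ l := by nlinarith [h.h8, h.h1]

/-- `u = r log l / l` -/
theorem Ok.u1 (h : Ok C l r) : 7 ≤ r * Real.log l / l := by
  rw [le_div_iff₀ h.l0]
  nlinarith [h.rbig, h.h1, h.l0]

theorem fac1 (h : Ok C l r) {x : ℝ} (hx : 0 < x) (hX : Real.log x = r ^ 2) :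
    (2 * x) ^ (1 + 1 / (r * l)) ≤ Real.exp (r ^ 2 + 2 + r / l) := by
  have hl := h.l0
  have hr := h.r0
  rw [Real.rpow_def_of_pos (by positivity)]
  apply Real.exp_le_exp.2
  rw [Real.log_mul (by norm_num) hx.ne', hX]
  have h2 := Real.log_two_lt_d9
  have h2' : 0 < Real.log 2 := Real.log_pos (by norm_num)
  have e : (Real.log 2 + r ^ 2) * (1 + 1 / (r * l)) = Real.log 2 + r ^ 2 + Real.log 2 / (r * l) + r / l := by
    field_simp
    ring
  rw [e]
  have h3 : Real.log 2 / (r * l) ≤ 1 := by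
    rw [div_le_one (by positivity)]
    nlinarith [h.rbig, h.h12]
  linarith

theorem fac2 (h : Ok C l r) {n : ℕ} (hn : (n : ℝ) ≤ 2 * r / l) :
    (l ^ 2) ^ n ≤ Real.exp (4 * (r * Real.log l / l)) := by
  have hl := h.l0
  have e : (l ^ 2) ^ n = Real.exp (n * (2 * Real.log l)) := by
    rw [Real.exp_nat_mul]
    congr 1
    rw [two_mul, Real.exp_add, Real.exp_log hl]; ring
  rw [e]
  apply Real.exp_le_exp.2
  have := mul_le_mul_of_nonneg_right hn (by linarith [h.h1] : 0 ≤ 2 * Real.log l)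
  refine this.trans (le_of_eq ?_)
  ring

theorem fac3 (h : Ok C l r) : Real.exp (2 / (l ^ 2 * (1 / (r * l)))) ≤ Real.exp (2 * (r * Real.log l / l)) := by
  have hl := h.l0
  have hr := h.r0
  apply Real.exp_le_exp.2
  have e : 2 / (l ^ 2 * (1 / (r * l))) = 2 * (r / l) := by field_simp
  rw [e]
  have : r / l ≤ r * Real.log l / l := by
    apply div_le_div_of_nonneg_right _ hl.le
    nlinarith [h.h1]
  linarith

/-- `T0 ≤ exp (X + 8 u)` -/
theorem T0 (h : Ok C l r) {x : ℝ} (hx : 0 < x) (hX : Real.log x = r ^ 2) {n : ℕ} (hn : (n : ℝ) ≤ 2 * r / l) :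
    (2 * x) ^ (1 + 1 / (r * l)) * (l ^ 2) ^ n * Real.exp (2 / (l ^ 2 * (1 / (r * l)))) ≤
      Real.exp (r ^ 2 + 8 * (r * Real.log l / l)) := by
  have hl := h.l0
  have a1 := fac1 h hx hX
  have a2 := fac2 h hn
  have a3 := fac3 h
  have a4 := mul_le_mul a1 a2 (by positivity) (Real.exp_pos _).le
  have a5 := mul_le_mul a4 a3 (Real.exp_pos _).le (by positivity)
  refine a5.trans ?_
  rw [← Real.exp_add, ← Real.exp_add]
  apply Real.exp_le_exp.2
  have : r / l ≤ r * Real.log l / l := by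
    apply div_le_div_of_nonneg_right _ hl.le
    nlinarith [h.h1, h.r0]
  linarith [h.u1]

/-- `TA` -/
theorem TA (h : Ok C l r) {x y M : ℕ} (hx : 1 ≤ x) (hX : Real.log x = r ^ 2) (hy : (y : ℝ) ≤ Real.exp (r * l))
    (hy3 : 3 ≤ y) (hM : 2 * r ≤ (M : ℝ)) :
    ((y : ℝ) * (Nat.log 2 (2 * x) + 1) + 1) * (1 / (r / l)) ^ M *
      Real.exp (2 * (r / l) * (Real.log (Real.log y) + C)) ≤ Real.exp (-(32 * (r * Real.log l / l))) := by
  have hl := h.l0
  have hr := h.r0
  have hx0 : (0 : ℝ) < x := by exact_mod_cast hx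
  -- the first factor
  have b1 : ((Nat.log 2 (2 * x) : ℕ) : ℝ) ≤ 2 * (r ^ 2 + 1) := by
    have c1 : (2 : ℝ) ^ (Nat.log 2 (2 * x)) ≤ 2 * x := by exact_mod_cast Nat.pow_log_le_self 2 (by omega : 2 * x ≠ 0)
    have c2 := Real.log_le_log (by positivity) c1
    rw [Real.log_pow, Real.log_mul (by norm_num) hx0.ne', hX] at c2
    have c3 := Real.log_two_gt_d9
    have c4 := Real.log_two_lt_d9
    have c5 : (0 : ℝ) ≤ (Nat.log 2 (2 * x) : ℕ) := Nat.cast_nonneg _
    nlinarith
  have hr1 : 1 ≤ r := by linarith [h.rbig]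
  have b2 : (y : ℝ) * (Nat.log 2 (2 * x) + 1) + 1 ≤ Real.exp (r * l) * (7 * r ^ 2) := by
    have d1 : 1 ≤ Real.exp (r * l) := Real.one_le_exp (by positivity)
    have d2 : ((Nat.log 2 (2 * x) : ℕ) : ℝ) + 1 ≤ 6 * r ^ 2 := by nlinarith [h.rbig, h.h12]
    have d3 : (y : ℝ) * (((Nat.log 2 (2 * x) : ℕ) : ℝ) + 1) ≤ Real.exp (r * l) * (6 * r ^ 2) :=
      mul_le_mul hy d2 (by positivity) (Real.exp_pos _).le
    have d4 : (1 : ℝ) ≤ Real.exp (r * l) * r ^ 2 := by nlinarith
    nlinarith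
  have b3 : 7 * r ^ 2 ≤ Real.exp (2 * l + 2) := by
    rw [Real.exp_add, two_mul, Real.exp_add, ← h.hr]
    have : (7 : ℝ) ≤ Real.exp 2 := by
      have e1 := Real.exp_one_gt_d9
      have e2 : Real.exp 2 = Real.exp 1 * Real.exp 1 := by rw [← Real.exp_add]; norm_num
      rw [e2]; nlinarith
    nlinarith [mul_pos hr hr]
  have b4 : (y : ℝ) * (Nat.log 2 (2 * x) + 1) + 1 ≤ Real.exp (r * l + (2 * l + 2)) := by
    rw [Real.exp_add]
    exact b2.trans (mul_le_mul_of_nonneg_left b3 (Real.exp_pos _).le)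
  -- the second factor
  have hZ : 1 ≤ r / l := by rw [le_div_iff₀ hl]; linarith [h.rbig]
  have hlogZ : Real.log (r / l) = l - Real.log l := by rw [Real.log_div hr.ne' hl.ne', h.logr]
  have b5 : (1 / (r / l)) ^ M ≤ Real.exp (-(2 * r * (l - Real.log l))) := by
    have e : (1 / (r / l)) ^ M = Real.exp (-(M * (l - Real.log l))) := by
      rw [← mul_neg, Real.exp_nat_mul, Real.exp_neg, ← hlogZ, Real.exp_log (by positivity), one_div]
    rw [e]
    apply Real.exp_le_exp.2
    have : 0 ≤ l - Real.log l := by linarith [h.lam8, h.l0]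
    nlinarith
  -- the third factor
  have hy0 : (0 : ℝ) < y := by exact_mod_cast (by omega : 0 < y)
  have hlogy : Real.log y ≤ r * l := by
    have := Real.log_le_log hy0 hy
    rwa [Real.log_exp] at this
  have hlogy0 : 0 < Real.log y := Real.log_pos (by exact_mod_cast (by omega : 1 < y))
  have hll : Real.log (Real.log y) ≤ l + Real.log l := by
    have := Real.log_le_log hlogy0 hlogy
    rwa [Real.log_mul hr.ne' hl.ne', h.logr] at this
  have b6 : Real.exp (2 * (r / l) * (Real.log (Real.log y) + C)) ≤ Real.exp (2 * (r / l) * (l + Real.log l + C)) := by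
    apply Real.exp_le_exp.2
    apply mul_le_mul_of_nonneg_left _ (by positivity)
    linarith
  have c1 := mul_le_mul b4 b5 (by positivity) (Real.exp_pos _).le
  have c2 := mul_le_mul c1 b6 (Real.exp_pos _).le (by positivity)
  refine c2.trans ?_
  rw [← Real.exp_add, ← Real.exp_add]
  apply Real.exp_le_exp.2
  have e1 : 2 * (r / l) * (l + Real.log l + C) = 2 * r + 2 * (r * Real.log l / l) + 2 * C * (r / l) := by
    field_simp
  rw [e1]
  have e2 : 34 * (r * Real.log l / l) ≤ 5 * r := by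
    rw [← mul_div_assoc, div_le_iff₀ hl]
    nlinarith [h.lam8, hr]
  have e3 : 2 * C * (r / l) ≤ r := by
    rw [← mul_div_assoc, div_le_iff₀ hl]
    nlinarith [h.h2C, hr]
  have e4 : r * (9 + 2 * Real.log l) ≤ r * l := by
    apply mul_le_mul_of_nonneg_left _ hr.le
    linarith [h.lam8, h.h12]
  nlinarith [h.rbig, h.l0, h.h12]

/-- `TB` -/
theorem TB (h : Ok C l r) {y w M : ℕ} (hy : (y : ℝ) ≤ Real.exp (r * l)) (hw : (w : ℝ) ≤ 2 * r + 1) (hw3 : 3 ≤ w)
    (hy3 : 3 ≤ y) (hM : (M : ℝ) ≤ 2 * r + 1) :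
    (1 / (1 - 4 * Real.log l / l)) ^ M * Real.exp (C * Real.log w ^ (1 - (1 - 4 * Real.log l / l)) *
      Real.log y ^ (1 - 4 * Real.log l / l)) ≤ Real.exp (18 * (r * Real.log l / l)) := by
  have hl := h.l0
  have hr := h.r0
  have hC := h.hC
  have ht0 : 0 ≤ 4 * Real.log l / l := by have := h.h1; positivity
  have ht : 4 * Real.log l / l ≤ 1 / 2 := by
    rw [div_le_iff₀ hl]; linarith [h.lam8]
  set z := 1 - 4 * Real.log l / l with hz
  have hz2 : 1 / 2 ≤ z := by rw [hz]; linarith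
  have hz0 : 0 < z := by linarith
  have b1 : (1 / z) ^ M ≤ Real.exp (16 * (r * Real.log l / l) + 1) := by
    have c1 : 1 / z ≤ Real.exp (8 * Real.log l / l) := by
      have c2 : 1 / z ≤ 1 + 8 * Real.log l / l := by
        rw [div_le_iff₀ hz0, hz]
        have : 8 * Real.log l / l = 2 * (4 * Real.log l / l) := by ring
        rw [this]
        nlinarith
      have c3 := Real.add_one_le_exp (8 * Real.log l / l)
      linarith
    have c4 : (1 / z) ^ M ≤ Real.exp (8 * Real.log l / l) ^ M := pow_le_pow_left₀ (by positivity) c1 M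
    refine c4.trans ?_
    rw [← Real.exp_nat_mul]
    apply Real.exp_le_exp.2
    have c5 : 0 ≤ 8 * Real.log l / l := by have := h.h1; positivity
    have c6 : (M : ℝ) * (8 * Real.log l / l) ≤ (2 * r + 1) * (8 * Real.log l / l) := mul_le_mul_of_nonneg_right hM c5
    have c7 : (2 * r + 1) * (8 * Real.log l / l) = 16 * (r * Real.log l / l) + 8 * Real.log l / l := by ring
    have c8 : 8 * Real.log l / l ≤ 1 := by rw [div_le_one hl]; exact h.lam8
    linarith
  have hw0 : (0 : ℝ) < w := by exact_mod_cast (by omega : 0 < w)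
  have hlogw0 : 0 < Real.log w := Real.log_pos (by exact_mod_cast (by omega : 1 < w))
  have hlogw : Real.log w ≤ 2 * l := by
    have d1 : (w : ℝ) ≤ r * r := by nlinarith [h.rbig, h.h12]
    have d2 := Real.log_le_log hw0 d1
    rw [Real.log_mul hr.ne' hr.ne', h.logr] at d2
    linarith
  have e1 : Real.log w ^ (1 - z) ≤ Real.exp 1 := by
    have f1 : Real.log w ^ (1 - z) ≤ (2 * l) ^ (1 - z) := Real.rpow_le_rpow hlogw0.le hlogw (by rw [hz]; linarith)
    refine f1.trans ?_
    rw [Real.rpow_def_of_pos (by positivity)]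
    apply Real.exp_le_exp.2
    rw [Real.log_mul (by norm_num) hl.ne']
    have f2 : Real.log 2 + Real.log l ≤ 2 * Real.log l := by linarith [Real.log_two_lt_d9, h.h1]
    have f3 : 1 - z = 4 * Real.log l / l := by rw [hz]; ring
    rw [f3]
    have f4 := mul_le_mul_of_nonneg_right f2 ht0
    refine f4.trans ?_
    have f5 : 2 * Real.log l * (4 * Real.log l / l) = 8 * Real.log l ^ 2 / l := by ring
    rw [f5, div_le_one hl]
    exact h.h8
  have hy0 : (0 : ℝ) < y := by exact_mod_cast (by omega : 0 < y)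
  have hlogy0 : 0 < Real.log y := Real.log_pos (by exact_mod_cast (by omega : 1 < y))
  have hlogy : Real.log y ≤ r * l := by
    have := Real.log_le_log hy0 hy
    rwa [Real.log_exp] at this
  have e2 : Real.log y ^ z ≤ r / l ^ 3 := by
    have f1 : Real.log y ^ z ≤ (r * l) ^ z := Real.rpow_le_rpow hlogy0.le hlogy hz0.le
    refine f1.trans ?_
    rw [Real.rpow_def_of_pos (by positivity), Real.log_mul hr.ne' hl.ne', h.logr]
    have f2 : r / l ^ 3 = Real.exp (l - 3 * Real.log l) := by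
      rw [Real.exp_sub, ← h.hr]
      congr 1
      rw [show 3 * Real.log l = ((3 : ℕ) : ℝ) * Real.log l by norm_num, Real.exp_nat_mul, Real.exp_log hl]
    rw [f2]
    apply Real.exp_le_exp.2
    have f3 : (l + Real.log l) * z = l - 3 * Real.log l - 4 * Real.log l ^ 2 / l := by
      rw [hz]; field_simp; ring
    rw [f3]
    have : 0 ≤ 4 * Real.log l ^ 2 / l := by positivity
    linarith
  have e3 : C * Real.log w ^ (1 - z) * Real.log y ^ z ≤ r * Real.log l / l := by
    have g1 : C * Real.log w ^ (1 - z) * Real.log y ^ z ≤ C * Real.exp 1 * (r / l ^ 3) :=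
      mul_le_mul (mul_le_mul_of_nonneg_left e1 hC.le) e2 (Real.rpow_nonneg hlogy0.le _) (by positivity)
    refine g1.trans ?_
    have g2 : C * Real.exp 1 * (r / l ^ 3) = (C * Real.exp 1 / l ^ 2) * (r / l) := by field_simp
    rw [g2]
    have g3 : C * Real.exp 1 / l ^ 2 ≤ 1 := by
      rw [div_le_one (by positivity)]
      nlinarith [Real.exp_one_lt_d9, h.h2C, h.h12]
    have g4 : (C * Real.exp 1 / l ^ 2) * (r / l) ≤ 1 * (r / l) := mul_le_mul_of_nonneg_right g3 (by positivity)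
    have g5 : r / l ≤ r * Real.log l / l := by
      apply div_le_div_of_nonneg_right _ hl.le
      nlinarith [h.h1]
    linarith
  have e4 : Real.exp (C * Real.log w ^ (1 - z) * Real.log y ^ z) ≤ Real.exp (r * Real.log l / l) := Real.exp_le_exp.2 e3
  refine (mul_le_mul b1 e4 (Real.exp_pos _).le (Real.exp_pos _).le).trans ?_
  rw [← Real.exp_add]
  apply Real.exp_le_exp.2
  linarith [h.u1]

theorem grow (h : Ok C l r) {x y n : ℕ} (hx : 1 ≤ x) (hX : Real.log x = r ^ 2) (hy : Real.exp (r * l) < (y : ℝ) + 1)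
    (hn : 2 * r / l < (n : ℝ) + 1) : 2 * x < y ^ (n + 1) := by
  have hl := h.l0
  have hr := h.r0
  have hx0 : (0 : ℝ) < x := by exact_mod_cast hx
  have hE : 2 ≤ Real.exp (r * l) := by
    have := Real.add_one_le_exp (r * l)
    nlinarith [h.rbig, h.h12]
  have hy1 : Real.exp (r * l - 1) ≤ y := by
    rw [Real.exp_sub, div_le_iff₀ (Real.exp_pos 1)]
    have := Real.exp_one_gt_d9
    nlinarith
  have hy0 : (0 : ℝ) < y := lt_of_lt_of_le (Real.exp_pos _) hy1
  have hlogy : r * l - 1 ≤ Real.log y := by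
    rw [Real.le_log_iff_exp_le hy0]; exact hy1
  have key : Real.log (2 * (x : ℝ)) < Real.log ((y : ℝ) ^ (n + 1)) := by
    rw [Real.log_pow, Real.log_mul (by norm_num) hx0.ne', hX]
    push_cast
    have h1 : 0 < r * l - 1 := by nlinarith [h.rbig, h.h12]
    have h2 : 2 * r / l * (r * l - 1) < ((n : ℝ) + 1) * (r * l - 1) := mul_lt_mul_of_pos_right hn h1
    have h3 : ((n : ℝ) + 1) * (r * l - 1) ≤ ((n : ℝ) + 1) * Real.log y :=
      mul_le_mul_of_nonneg_left hlogy (by positivity)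
    have h4 : 2 * r / l * (r * l - 1) = 2 * r ^ 2 - 2 * (r / l) := by field_simp
    have h5 : r / l ≤ r := div_le_self hr.le (by linarith [h.h12])
    nlinarith [h.rbig, h.h12, Real.log_two_lt_d9]
  have := (Real.log_lt_log_iff (by positivity) (by positivity)).1 key
  exact_mod_cast this

end

theorem ev_ok (C : ℝ) (hC : 0 < C) : ∀ᶠ x : ℕ in atTop,
    Ok C (Real.log (Real.sqrt (Real.log x))) (Real.sqrt (Real.log x)) := by
  have t1 : Tendsto (fun x : ℕ => Real.log (Real.sqrt (Real.log x))) atTop atTop := by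
    refine Real.tendsto_log_atTop.comp ?_
    refine Real.tendsto_sqrt_atTop.comp ?_
    exact Real.tendsto_log_atTop.comp tendsto_natCast_atTop_atTop
  have t2 : ∀ᶠ l : ℝ in atTop, 8 * Real.log l ^ 2 ≤ l := by
    have := (Real.isLittleO_pow_log_id_atTop (n := 2)).bound (show (0 : ℝ) < 1 / 8 by norm_num)
    filter_upwards [this, eventually_ge_atTop (0 : ℝ)] with l hl h0
    simp only [id] at hl
    rw [Real.norm_of_nonneg (by positivity), Real.norm_of_nonneg h0] at hl
    linarith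
  have t3 : ∀ᶠ l : ℝ in atTop, 12 ≤ l ∧ 1 ≤ Real.log l ∧ 8 * Real.log l ^ 2 ≤ l ∧ 2 * C ≤ l := by
    filter_upwards [t2, eventually_ge_atTop (12 : ℝ), eventually_ge_atTop (2 * C),
      Real.tendsto_log_atTop.eventually_ge_atTop 1] with l h1 h2 h3 h4
    exact ⟨h2, h4, h1, h3⟩
  filter_upwards [t1.eventually t3, eventually_ge_atTop 16] with x hx h16
  have hpos : 0 < Real.log x := Real.log_pos (by exact_mod_cast (by omega : 1 < x))
  exact ⟨hC, hx.1, hx.2.1, hx.2.2.1, hx.2.2.2, (Real.exp_log (Real.sqrt_pos.2 hpos)).symm⟩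

theorem upar3 : RowUPar := by
  rintro ⟨C, hC, hUF⟩
  obtain ⟨x₀, hx₀⟩ := eventually_atTop.1 (ev_ok C hC)
  refine ⟨100, 2 + ∑ j ∈ range (x₀ + 16), Real.exp (G j), 1, by norm_num, one_pos, ?_⟩
  intro x hx
  have hx1 : 1 ≤ x := by omega
  have hx0 : (0 : ℝ) < x := by exact_mod_cast hx1
  have hS : 0 ≤ ∑ j ∈ range (x₀ + 16), Real.exp (G j) := Finset.sum_nonneg fun j _ => (Real.exp_pos _).le
  rw [one_mul]
  by_cases hsm : x < x₀ + 16
  · have h1 : (((Icc 2 x).filter (fun k => Real.exp (100 * G x) < (Pool.Agent.SPM.N k : ℝ))).card : ℝ) ≤ x := by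
      have a1 := card_le_card (filter_subset (fun k => Real.exp (100 * G x) < (Pool.Agent.SPM.N k : ℝ)) (Icc 2 x))
      have a2 : (Icc 2 x).card ≤ x := by rw [Nat.card_Icc]; omega
      exact_mod_cast a1.trans a2
    have h2 : Real.exp (G x) ≤ ∑ j ∈ range (x₀ + 16), Real.exp (G j) :=
      Finset.single_le_sum (f := fun j : ℕ => Real.exp (G j)) (fun j _ => (Real.exp_pos _).le) (mem_range.2 hsm)
    have h3 : (x : ℝ) = Real.exp (G x) * x * Real.exp (-G x) := by
      rw [mul_right_comm, ← Real.exp_add]; simp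
    refine h1.trans ?_
    calc (x : ℝ) = Real.exp (G x) * x * Real.exp (-G x) := h3
      _ ≤ (2 + ∑ j ∈ range (x₀ + 16), Real.exp (G j)) * x * Real.exp (-G x) := by
        apply mul_le_mul_of_nonneg_right _ (Real.exp_pos _).le
        apply mul_le_mul_of_nonneg_right _ hx0.le
        linarith
  · push_neg at hsm
    have h := hx₀ x (by omega)
    have hlogpos : 0 < Real.log x := Real.log_pos (by exact_mod_cast (by omega : 1 < x))
    have hX : Real.log x = Real.sqrt (Real.log x) ^ 2 := (Real.sq_sqrt hlogpos.le).symm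
    have hG : G x = Real.sqrt (Real.log x) * Real.log (2 * Real.log (Real.sqrt (Real.log x))) /
        (2 * Real.log (Real.sqrt (Real.log x))) := by
      have e : Real.log (Real.log x) = 2 * Real.log (Real.sqrt (Real.log x)) := by
        conv_lhs => rw [hX]
        rw [Real.log_pow]; norm_num
      rw [G, e]
    obtain ⟨r, hrd⟩ : ∃ r, r = Real.sqrt (Real.log x) := ⟨_, rfl⟩
    obtain ⟨l, hld⟩ : ∃ l, l = Real.log r := ⟨_, rfl⟩
    rw [← hrd] at hX h hG
    rw [← hld] at h hG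
    have hl := h.l0
    have hr := h.r0
    have hlog1 := h.h1
    set u := r * Real.log l / l with hu
    have hu7 : 7 ≤ u := h.u1
    have hGle : G x ≤ u := by
      rw [hG, Real.log_mul (by norm_num) hl.ne', hu, div_le_div_iff₀ (by positivity) hl]
      have := Real.log_two_lt_d9
      nlinarith [mul_pos hr hl]
    have hGge : u ≤ 2 * G x := by
      have := Real.log_pos (show (1 : ℝ) < 2 by norm_num)
      rw [hG, Real.log_mul (by norm_num) hl.ne', hu, div_le_iff₀ hl]
      have e : 2 * (r * (Real.log 2 + Real.log l) / (2 * l)) * l = r * (Real.log 2 + Real.log l) := by field_simp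
      rw [e]
      nlinarith
    have hfloor : ((⌊Real.exp (r * l)⌋₊ : ℕ) : ℝ) ≤ Real.exp (r * l) := Nat.floor_le (Real.exp_pos _).le
    have hceil : ((⌈2 * r⌉₊ : ℕ) : ℝ) ≤ 2 * r + 1 := (Nat.ceil_lt_add_one (by positivity)).le
    have hceil2 : 2 * r ≤ ((⌈2 * r⌉₊ : ℕ) : ℝ) := Nat.le_ceil _
    have hw3 : 3 ≤ ⌈2 * r⌉₊ := by
      have : (3 : ℝ) ≤ ((⌈2 * r⌉₊ : ℕ) : ℝ) := by linarith [h.rbig, h.h12]
      exact_mod_cast this
    have hwy : ⌈2 * r⌉₊ ≤ ⌊Real.exp (r * l)⌋₊ := by
      apply Nat.le_floor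
      have := Real.add_one_le_exp (r * l)
      nlinarith [h.h12]
    have hy3 : 3 ≤ ⌊Real.exp (r * l)⌋₊ := hw3.trans hwy
    have hn : ((⌊2 * r / l⌋₊ : ℕ) : ℝ) ≤ 2 * r / l := Nat.floor_le (by positivity)
    have ht : 4 * Real.log l / l ≤ 1 / 2 := by rw [div_le_iff₀ hl]; linarith [h.lam8]
    have ht0 : 0 ≤ 4 * Real.log l / l := by positivity
    have hZ1 : 1 ≤ r / l := by rw [le_div_iff₀ hl]; linarith [h.rbig]
    have hZw : 2 * (r / l) ≤ ((⌈2 * r⌉₊ : ℕ) : ℝ) := by
      have : r / l ≤ r := div_le_self hr.le (by linarith [h.h12])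
      linarith
    have main := hUF x ⌊Real.exp (r * l)⌋₊ ⌈2 * r⌉₊ ⌈2 * r⌉₊ ⌊2 * r / l⌋₊ (1 - 4 * Real.log l / l) (r / l) (l ^ 2)
      (1 / (r * l)) (Real.exp (50 * u)) (by omega) hw3 hwy (by linarith) (by linarith) hZ1 hZw
      (by nlinarith [h.h12]) (by positivity)
      (by rw [div_le_one (by positivity)]; nlinarith [h.rbig, h.h12]) (Real.exp_pos _)
      (grow h hx1 hX (Nat.lt_floor_add_one _) (Nat.lt_floor_add_one _))
    have k0 := T0 h hx0 hX hn
    have k1 := TA h hx1 hX hfloor hy3 hceil2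
    have k2 := TB h hfloor hceil hw3 hy3 hceil
    have k3 : (1 / (1 - 4 * Real.log l / l)) ^ ⌈2 * r⌉₊ * Real.exp (C * Real.log (⌈2 * r⌉₊ : ℕ) ^ (1 - (1 - 4 * Real.log l / l)) *
      Real.log (⌊Real.exp (r * l)⌋₊ : ℕ) ^ (1 - 4 * Real.log l / l)) / Real.exp (50 * u) ≤ Real.exp (-(32 * u)) := by
      rw [div_le_iff₀ (Real.exp_pos _), ← Real.exp_add]
      refine k2.trans (le_of_eq ?_)
      congr 1
      rw [← hu]; ring
    have hz0 : 0 ≤ 1 / (1 - 4 * Real.log l / l) := one_div_nonneg.2 (by linarith)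
    have k4 := mul_le_mul k0 (add_le_add k1 k3) (add_nonneg (by positivity) (div_nonneg
      (mul_nonneg (pow_nonneg hz0 _) (Real.exp_pos _).le) (Real.exp_pos _).le)) (Real.exp_pos _).le
    have k5 := main.trans k4
    have k6 : Real.exp (r ^ 2 + 8 * (r * Real.log l / l)) * (Real.exp (-(32 * (r * Real.log l / l))) + Real.exp (-(32 * u)))
        = 2 * x * Real.exp (-(24 * u)) := by
      rw [← hu, ← two_mul, mul_left_comm, ← Real.exp_add]
      have e : Real.exp (r ^ 2) = x := by rw [← hX, Real.exp_log hx0]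
      rw [mul_assoc, ← e, ← Real.exp_add]
      congr 2
      ring
    rw [k6] at k5
    have hsub : (Icc 2 x).filter (fun k => Real.exp (100 * G x) < (Pool.Agent.SPM.N k : ℝ)) ⊆
        (Icc 2 x).filter (fun k => Real.exp (50 * u) < (Pool.Agent.SPM.N k : ℝ)) := by
      intro k hk
      rw [mem_filter] at hk ⊢
      refine ⟨hk.1, lt_of_le_of_lt (Real.exp_le_exp.2 ?_) hk.2⟩
      linarith
    have k7 : (((Icc 2 x).filter (fun k => Real.exp (100 * G x) < (Pool.Agent.SPM.N k : ℝ))).card : ℝ) ≤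
        2 * x * Real.exp (-(24 * u)) := by
      refine le_trans ?_ k5
      exact_mod_cast card_le_card hsub
    refine k7.trans ?_
    have k8 : Real.exp (-(24 * u)) ≤ Real.exp (-G x) := Real.exp_le_exp.2 (by linarith)
    calc 2 * (x : ℝ) * Real.exp (-(24 * u)) ≤ 2 * x * Real.exp (-G x) := mul_le_mul_of_nonneg_left k8 (by positivity)
      _ ≤ (2 + ∑ j ∈ range (x₀ + 16), Real.exp (G j)) * x * Real.exp (-G x) := by
        apply mul_le_mul_of_nonneg_right _ (Real.exp_pos _).le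
        apply mul_le_mul_of_nonneg_right _ hx0.le
        linarith

end Pool.Agent.SPA.UPar3
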