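import Pool.Agent.SPA.Stmts10

/-!
# Row UPar: the parameters of the upper bound for almost all `k`
-/

set_option autoImplicit false

namespace Pool.Agent.SPA.U83

open Finset

/-- threshold facts: `m` large, `l = exp m`, `r = exp l` -/
lemma facts (C m l r : ℝ) (hC : 0 < C) (hm : 100 + C ≤ m) (hl : l = Real.exp m) (hr : r = Real.exp l) :
    1000 * m ≤ l ∧ C * m ≤ l ∧ 1000 * l ^ 2 ≤ r ∧ 100000 ≤ l ∧ C * Real.exp 1 ≤ Real.exp (2 * m) := by
  have hm0 : 0 ≤ m := by linarith
  have h3 : m ^ 3 / (Nat.factorial 3 : ℕ) ≤ Real.exp m := Real.pow_div_factorial_le_exp m hm0 3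
  have h3' : m ^ 3 / 6 ≤ l := by
    rw [hl]; simpa [Nat.factorial] using h3
  have a1 : 1000 * m ≤ l := by nlinarith [sq_nonneg (m - 100), mul_nonneg hm0 (sq_nonneg (m - 100))]
  have hm100 : 100 ≤ m := by linarith
  have a4 : 100000 ≤ l := by linarith
  have a2 : C * m ≤ l := by
    have : C * m ≤ m * m := by nlinarith
    nlinarith [mul_nonneg hm0 (sq_nonneg m)]
  have hl0 : 0 ≤ l := by linarith
  have h4 : l ^ 3 / (Nat.factorial 3 : ℕ) ≤ Real.exp l := Real.pow_div_factorial_le_exp l hl0 3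
  have h4' : l ^ 3 / 6 ≤ r := by
    rw [hr]; simpa [Nat.factorial] using h4
  have a3 : 1000 * l ^ 2 ≤ r := by nlinarith [mul_nonneg (sub_nonneg.2 a4) (sq_nonneg l)]
  refine ⟨a1, a2, a3, a4, ?_⟩
  have h5 : (2 * m) ^ 2 / (Nat.factorial 2 : ℕ) ≤ Real.exp (2 * m) :=
    Real.pow_div_factorial_le_exp (2 * m) (by linarith) 2
  have h5' : 2 * m ^ 2 ≤ Real.exp (2 * m) := by
    have : (2 * m) ^ 2 / (Nat.factorial 2 : ℕ) = 2 * m ^ 2 := by
      simp [Nat.factorial]; ring
    linarith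
  have he : Real.exp 1 ≤ 3 := by have := Real.exp_one_lt_d9; linarith
  have : C * Real.exp 1 ≤ m * 3 := by nlinarith [Real.exp_pos 1]
  nlinarith

/-- the exponent of the first term -/
lemma T1 (C m l r : ℝ) (hC : 0 < C) (hm : 100 + C ≤ m) (hl : 1000 * m ≤ l) (hCl : C * m ≤ l)
    (hr : 1000 * l ^ 2 ≤ r) :
    (3 * r / l + 2 + 4 * r * m / l) + (r * l + 2 * l + 2 - 2 * r * (l - m) + 2 * (r / l) * (l + m + C))
      ≤ -(r * m / l) := by
  have hm100 : 100 ≤ m := by linarith
  have hl0 : 0 < l := by linarith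
  have hr0 : 0 < r := by nlinarith
  have hq : 0 < r / l := div_pos hr0 hl0
  have e1 : r * m / l = (r / l) * m := by ring
  have e2 : 3 * r / l = 3 * (r / l) := by ring
  have e3 : 4 * r * m / l = 4 * ((r / l) * m) := by ring
  have e4 : r = (r / l) * l := by field_simp
  set q := r / l with hqd
  rw [e1, e2, e3]
  have hq1 : 1000 * l ≤ q := by
    have : 1000 * l * l ≤ q * l := by rw [← e4]; nlinarith
    exact le_of_mul_le_mul_right this hl0
  rw [e4]
  have k1 : 0 ≤ q * (l - 1000 * m) := mul_nonneg hq.le (by linarith)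
  have k2 : 0 ≤ q * (l - C * m) := mul_nonneg hq.le (by linarith)
  have k3 : 0 ≤ q * (m - 100 - C) := mul_nonneg hq.le (by linarith)
  have k4 : 0 ≤ (q * (l - 1000 * m)) * l := mul_nonneg k1 hl0.le
  have k5 : 0 ≤ q * C := mul_nonneg hq.le hC.le
  have k6 : 0 ≤ q * (m - 100) := mul_nonneg hq.le (by linarith)
  have k7 : 0 ≤ q * l * (l - 100000) := mul_nonneg (mul_nonneg hq.le hl0.le) (by linarith)
  have k8 : 0 ≤ (q * l) * (m - 100) := mul_nonneg (mul_nonneg hq.le hl0.le) (by linarith)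
  nlinarith

/-- the exponent of the second term -/
lemma T2 (C m l r : ℝ) (hC : 0 < C) (hm : 100 + C ≤ m) (hl : 1000 * m ≤ l)
    (hr : 1000 * l ^ 2 ≤ r) :
    (3 * r / l + 2 + 4 * r * m / l) + (17 * r * m / l + r / l - 50 * r * m / l)
      ≤ -(r * m / l) := by
  have hm100 : 100 ≤ m := by linarith
  have hl0 : 0 < l := by linarith
  have hr0 : 0 < r := by nlinarith
  have hq : 0 < r / l := div_pos hr0 hl0
  have e1 : r * m / l = (r / l) * m := by ring
  have e2 : 3 * r / l = 3 * (r / l) := by ring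
  have e3 : 4 * r * m / l = 4 * ((r / l) * m) := by ring
  have e5 : 17 * r * m / l = 17 * ((r / l) * m) := by ring
  have e6 : 50 * r * m / l = 50 * ((r / l) * m) := by ring
  have e4 : r = (r / l) * l := by field_simp
  set q := r / l with hqd
  rw [e1, e2, e3, e5, e6]
  have hq1 : 1000 * l ≤ q := by
    have : 1000 * l * l ≤ q * l := by rw [← e4]; nlinarith
    exact le_of_mul_le_mul_right this hl0
  have k3 : 0 ≤ q * (m - 100) := mul_nonneg hq.le (by linarith)
  nlinarith


/-- `(1 - u)⁻¹ ≤ exp (2 u)` for `0 ≤ u ≤ 1 / 2` -/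
lemma inv_le (u : ℝ) (h0 : 0 ≤ u) (h1 : u ≤ 1 / 2) : 1 / (1 - u) ≤ Real.exp (2 * u) := by
  have h2 : 1 / (1 - u) ≤ 1 + 2 * u := by
    rw [div_le_iff₀ (by linarith)]; nlinarith
  have := Real.add_one_le_exp (2 * u)
  linarith

/-- the whole estimate for large `x` -/
lemma big (C : ℝ) (hC : 0 < C)
    (hUF : ∀ (x y w M n₁ : ℕ) (z Z lam η F : ℝ), 2 ≤ x → 3 ≤ w → w ≤ y →
    0 < z → z ≤ 1 → 1 ≤ Z → 2 * Z ≤ w → 1 ≤ lam → 0 < η → η ≤ 1 → 0 < F → 2 * x < y ^ (n₁ + 1) →
    (((Icc 2 x).filter (fun k => F < (Pool.Agent.SPM.N k : ℝ))).card : ℝ) ≤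
      (2 * (x : ℝ)) ^ (1 + η) * lam ^ n₁ * Real.exp (2 / (lam * η)) *
      (((y : ℝ) * (Nat.log 2 (2 * x) + 1) + 1) * (1 / Z) ^ M * Real.exp (2 * Z * (Real.log (Real.log y) + C)) +
        (1 / z) ^ M * Real.exp (C * Real.log w ^ (1 - z) * Real.log y ^ z) / F))
    (x : ℕ) (hx : 16 ≤ x)
    (hm : 100 + C ≤ Real.log (Real.log (Real.sqrt (Real.log x)))) :
    (((Icc 2 x).filter (fun k => Real.exp (100 * G x) < (Pool.Agent.SPM.N k : ℝ))).card : ℝ)
      ≤ 2 * x * Real.exp (-(1 * G x)) := by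
  have hx16 : (16 : ℝ) ≤ x := by exact_mod_cast hx
  have hx0 : (0 : ℝ) < x := by linarith
  have hX : 1 ≤ Real.log x := by
    rw [Real.le_log_iff_exp_le hx0]
    have := Real.exp_one_lt_d9
    linarith
  obtain ⟨r, hr⟩ : ∃ r, r = Real.sqrt (Real.log x) := ⟨_, rfl⟩
  obtain ⟨l, hl⟩ : ∃ l, l = Real.log r := ⟨_, rfl⟩
  obtain ⟨m, hmm⟩ : ∃ m, m = Real.log l := ⟨_, rfl⟩
  rw [← hr, ← hl, ← hmm] at hm
  have hr2 : r ^ 2 = Real.log x := by rw [hr]; exact Real.sq_sqrt (by linarith)
  have hr1 : 1 ≤ r := by rw [hr]; exact Real.one_le_sqrt.2 hX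
  have hr0 : 0 < r := by linarith
  have hl0' : 0 ≤ l := by rw [hl]; exact Real.log_nonneg hr1
  have hl0 : 0 < l := by
    rcases hl0'.lt_or_eq with h | h
    · exact h
    · exfalso; rw [← h] at hmm; rw [Real.log_zero] at hmm; linarith
  have hle : l = Real.exp m := by rw [hmm]; exact (Real.exp_log hl0).symm
  have hre : r = Real.exp l := by rw [hl]; exact (Real.exp_log hr0).symm
  obtain ⟨f1, f2, f3, f4, f5⟩ := facts C m l r hC hm hle hre
  have hm100 : 100 ≤ m := by linarith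
  have t1 := T1 C m l r hC hm f1 f2 f3
  have t2 := T2 C m l r hC hm f1 f3
  have hlog2 : Real.log 2 ≤ 1 := by have := Real.log_two_lt_d9; linarith
  have hlog2' : 1 / 2 ≤ Real.log 2 := by have := Real.log_two_gt_d9; linarith
  -- the size G
  have hG : G x = r * (Real.log 2 + m) / (2 * l) := by
    unfold G
    have h1 : Real.log (Real.log x) = 2 * l := by
      rw [← hr2, Real.log_pow, hl]; norm_num
    rw [h1, Real.log_mul (by norm_num) hl0.ne', ← hmm, ← hr]
  have hq0 : 0 < r / l := div_pos hr0 hl0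
  have hG1 : G x ≤ r * m / l := by
    rw [hG, div_le_div_iff₀ (by linarith) hl0]
    have : 0 ≤ r * l * (m - Real.log 2) := mul_nonneg (mul_nonneg hr0.le hl0.le) (by linarith)
    linarith
  have hG2 : r * m / (2 * l) ≤ G x := by
    rw [hG]
    apply div_le_div_of_nonneg_right _ (by linarith)
    exact mul_le_mul_of_nonneg_left (by linarith) hr0.le
  have hq1 : 1000 * l ≤ r / l := by
    rw [le_div_iff₀ hl0]; linarith
  have hl2 : 1 ≤ l ^ 2 := one_le_pow₀ (by linarith)
  have hr8 : 8 ≤ r := by linarith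
  have h8r : 8 * r ≤ r ^ 2 := by
    have := mul_le_mul_of_nonneg_right hr8 hr0.le
    rw [sq]; exact this
  -- parameters
  obtain ⟨y, hy⟩ : ∃ y : ℕ, y = ⌊Real.exp (r * l)⌋₊ := ⟨_, rfl⟩
  obtain ⟨w, hw⟩ : ∃ w : ℕ, w = ⌈2 * r⌉₊ := ⟨_, rfl⟩
  obtain ⟨n₁, hn⟩ : ∃ n₁ : ℕ, n₁ = ⌊2 * r / l⌋₊ := ⟨_, rfl⟩
  obtain ⟨u, hu⟩ : ∃ u : ℝ, u = 4 * m / l := ⟨_, rfl⟩
  have hu0 : 0 < u := by rw [hu]; positivity
  have hu1 : u ≤ 1 / 2 := by rw [hu, div_le_iff₀ hl0]; linarith
  have hrl2 : 2 * r ≤ r * l := by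
    have := mul_le_mul_of_nonneg_left (show (2 : ℝ) ≤ l by linarith) hr0.le
    linarith
  have hdl : r / l ≤ r := div_le_self hr0.le (by linarith)
  have hyle : (y : ℝ) ≤ Real.exp (r * l) := by
    rw [hy]; exact Nat.floor_le (Real.exp_pos _).le
  have hw1 : 2 * r ≤ w := by rw [hw]; exact Nat.le_ceil _
  have hw2 : (w : ℝ) ≤ 2 * r + 1 := by
    rw [hw]; exact (Nat.ceil_lt_add_one (by linarith)).le
  have hexp1 : 1 + r * l ≤ Real.exp (r * l) := by have := Real.add_one_le_exp (r * l); linarith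
  have hwy : w ≤ y := by
    rw [hy]; apply Nat.le_floor; linarith
  have hw3 : 3 ≤ w := by
    have : (3 : ℝ) ≤ w := by linarith
    exact_mod_cast this
  have hy3 : (3 : ℝ) ≤ y := by
    have : 3 ≤ y := hw3.trans hwy
    exact_mod_cast this
  have hy0 : (0 : ℝ) < y := by linarith
  have hylow : Real.exp (r * l - 1) ≤ y := by
    have h1 : Real.exp (r * l) < y + 1 := by rw [hy]; exact Nat.lt_floor_add_one _
    have h2 : Real.exp (r * l) = Real.exp (r * l - 1) * Real.exp 1 := by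
      rw [← Real.exp_add]; congr 1; ring
    have h3 : 1 ≤ Real.exp (r * l - 1) := Real.one_le_exp (by linarith)
    have h4 : 2 ≤ Real.exp 1 := by have := Real.exp_one_gt_d9; linarith
    have h5 := mul_le_mul_of_nonneg_left h4 (Real.exp_pos (r * l - 1)).le
    linarith
  have hlogy : Real.log y ≤ r * l := by
    rw [Real.log_le_iff_le_exp hy0]; exact hyle
  have hlogy' : r * l - 1 ≤ Real.log y := by
    rw [Real.le_log_iff_exp_le hy0]; exact hylow
  have hlogy0 : 0 < Real.log y := Real.log_pos (by linarith)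
  have hn1 : (n₁ : ℝ) ≤ 2 * r / l := by rw [hn]; exact Nat.floor_le (by positivity)
  have hn2 : 2 * r / l ≤ n₁ + 1 := by rw [hn]; exact (Nat.lt_floor_add_one _).le
  have hlog2x : Real.log (2 * x) = Real.log 2 + r ^ 2 := by
    rw [Real.log_mul (by norm_num) hx0.ne', hr2]
  have hxexp : (x : ℝ) = Real.exp (r ^ 2) := by rw [hr2, Real.exp_log hx0]
  have hcond : 2 * x < y ^ (n₁ + 1) := by
    have h1 : (2 * (x : ℝ)) < (y : ℝ) ^ (n₁ + 1) := by
      rw [← Real.log_lt_log_iff (by positivity) (by positivity), hlog2x, Real.log_pow]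
      push_cast
      have h2 : (2 * r / l) * (r * l - 1) ≤ ((n₁ : ℝ) + 1) * Real.log y := by
        exact mul_le_mul hn2 hlogy' (by linarith) (by positivity)
      have h3 : (2 * r / l) * (r * l - 1) = 2 * r ^ 2 - 2 * (r / l) := by field_simp
      linarith
    exact_mod_cast h1
  have hZ1 : 1 ≤ r / l := by linarith
  have hu_z : (0 : ℝ) < 1 - u := by linarith
  have hη0 : 0 < 1 / (r * l) := by positivity
  have hη1 : 1 / (r * l) ≤ 1 := by rw [div_le_one (by positivity)]; linarith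
  have hmain := hUF x y w w n₁ (1 - u) (r / l) (l ^ 2) (1 / (r * l)) (Real.exp (50 * r * m / l))
    (by omega) hw3 hwy hu_z (by linarith) hZ1
    (by linarith)
    hl2 hη0 hη1 (Real.exp_pos _) hcond
  -- first factor
  have hP1 : (2 * (x : ℝ)) ^ (1 + 1 / (r * l)) ≤ x * Real.exp (r / l + 2) := by
    rw [Real.rpow_def_of_pos (by positivity), hlog2x]
    conv_rhs => rw [hxexp]
    rw [← Real.exp_add]
    apply Real.exp_le_exp.2
    have h1 : r ^ 2 * (1 / (r * l)) = r / l := by field_simp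
    have h2 : Real.log 2 * (1 / (r * l)) ≤ 1 * 1 := mul_le_mul hlog2 hη1 hη0.le (by norm_num)
    have h3 : (Real.log 2 + r ^ 2) * (1 + 1 / (r * l)) =
        Real.log 2 + r ^ 2 + Real.log 2 * (1 / (r * l)) + r ^ 2 * (1 / (r * l)) := by ring
    rw [h3, h1]
    linarith
  have hP2 : (l ^ 2) ^ n₁ ≤ Real.exp (4 * r * m / l) := by
    have h1 : l ^ 2 = Real.exp (2 * m) := by
      rw [hle, ← Real.exp_nat_mul]; norm_num
    rw [h1, ← Real.exp_nat_mul]
    apply Real.exp_le_exp.2
    have h2 : (n₁ : ℝ) * (2 * m) ≤ (2 * r / l) * (2 * m) := mul_le_mul_of_nonneg_right hn1 (by linarith)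
    have h3 : (2 * r / l) * (2 * m) = 4 * r * m / l := by ring
    linarith
  have hP3 : Real.exp (2 / (l ^ 2 * (1 / (r * l)))) = Real.exp (2 * r / l) := by
    congr 1; field_simp
  have hP : (2 * (x : ℝ)) ^ (1 + 1 / (r * l)) * (l ^ 2) ^ n₁ * Real.exp (2 / (l ^ 2 * (1 / (r * l)))) ≤
      x * Real.exp (3 * r / l + 2 + 4 * r * m / l) := by
    rw [hP3]
    calc (2 * (x : ℝ)) ^ (1 + 1 / (r * l)) * (l ^ 2) ^ n₁ * Real.exp (2 * r / l)
        ≤ (x * Real.exp (r / l + 2)) * Real.exp (4 * r * m / l) * Real.exp (2 * r / l) := by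
          gcongr
      _ = x * Real.exp (3 * r / l + 2 + 4 * r * m / l) := by
          rw [mul_assoc, mul_assoc, ← Real.exp_add, ← Real.exp_add]
          congr 2; ring
  -- second factor, first term
  have hN : ((Nat.log 2 (2 * x) : ℕ) : ℝ) ≤ 2 * r ^ 2 + 2 := by
    have h1 : 2 ^ Nat.log 2 (2 * x) ≤ 2 * x := Nat.pow_log_le_self 2 (by omega)
    have h2 : (2 : ℝ) ^ Nat.log 2 (2 * x) ≤ 2 * (x : ℝ) := by exact_mod_cast h1
    have h3 := Real.log_le_log (by positivity) h2
    rw [Real.log_pow, hlog2x] at h3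
    have h4 : (0 : ℝ) ≤ ((Nat.log 2 (2 * x) : ℕ) : ℝ) := Nat.cast_nonneg _
    have h5 := mul_le_mul_of_nonneg_left hlog2' h4
    linarith
  have hA1a : (y : ℝ) * (Nat.log 2 (2 * x) + 1) + 1 ≤ Real.exp (r * l + 2 * l + 2) := by
    have h1 : (y : ℝ) * (Nat.log 2 (2 * x) + 1) ≤ Real.exp (r * l) * (2 * r ^ 2 + 3) :=
      mul_le_mul hyle (by linarith) (by positivity) (Real.exp_pos _).le
    have h2 : 1 ≤ Real.exp (r * l) := Real.one_le_exp (by positivity)
    have h3 : Real.exp (r * l + 2 * l + 2) = Real.exp (r * l) * (r ^ 2 * Real.exp 2) := by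
      have : r ^ 2 = Real.exp (2 * l) := by rw [hre, ← Real.exp_nat_mul]; norm_num
      rw [this, ← Real.exp_add, ← Real.exp_add]; congr 1; ring
    have h4 : (3 : ℝ) ≤ Real.exp 2 := by have := Real.add_one_le_exp (2 : ℝ); linarith
    have h6 := mul_le_mul_of_nonneg_left h4 (sq_nonneg r)
    have h5 : 2 * r ^ 2 + 4 ≤ r ^ 2 * Real.exp 2 := by linarith
    have h7 := mul_le_mul_of_nonneg_left h5 (Real.exp_pos (r * l)).le
    rw [h3]
    linarith
  have hA1b : (1 / (r / l)) ^ w ≤ Real.exp (-(2 * r * (l - m))) := by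
    have h1 : 1 / (r / l) = Real.exp (-(l - m)) := by
      rw [one_div, Real.exp_neg, Real.exp_sub, ← hre, ← hle]
    rw [h1, ← Real.exp_nat_mul]
    apply Real.exp_le_exp.2
    have h2 : 0 ≤ l - m := by linarith
    have h3 : 2 * r * (l - m) ≤ (w : ℝ) * (l - m) := mul_le_mul_of_nonneg_right hw1 h2
    linarith
  have hA1c : Real.exp (2 * (r / l) * (Real.log (Real.log y) + C)) ≤
      Real.exp (2 * (r / l) * (l + m + C)) := by
    apply Real.exp_le_exp.2
    have h1 : Real.log (Real.log y) ≤ l + m := by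
      have h2 := Real.log_le_log hlogy0 hlogy
      rw [Real.log_mul hr0.ne' hl0.ne', ← hl, ← hmm] at h2
      exact h2
    have : 0 ≤ 2 * (r / l) := by positivity
    apply mul_le_mul_of_nonneg_left _ this
    linarith
  have hA1 : ((y : ℝ) * (Nat.log 2 (2 * x) + 1) + 1) * (1 / (r / l)) ^ w *
      Real.exp (2 * (r / l) * (Real.log (Real.log y) + C)) ≤
      Real.exp (r * l + 2 * l + 2 - 2 * r * (l - m) + 2 * (r / l) * (l + m + C)) := by
    calc _ ≤ Real.exp (r * l + 2 * l + 2) * Real.exp (-(2 * r * (l - m))) *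
          Real.exp (2 * (r / l) * (l + m + C)) := by gcongr
      _ = _ := by rw [← Real.exp_add, ← Real.exp_add]; congr 1
  -- second term
  have hA2a : (1 / (1 - u)) ^ w ≤ Real.exp (17 * r * m / l) := by
    have h1 : 1 / (1 - u) ≤ Real.exp (2 * u) := inv_le u hu0.le hu1
    calc (1 / (1 - u)) ^ w ≤ (Real.exp (2 * u)) ^ w := by gcongr
      _ = Real.exp (w * (2 * u)) := by rw [← Real.exp_nat_mul]
      _ ≤ Real.exp (17 * r * m / l) := by
          apply Real.exp_le_exp.2
          have h2 : (w : ℝ) * (2 * u) ≤ (2 * r + 1) * (2 * u) :=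
            mul_le_mul_of_nonneg_right hw2 (by linarith)
          have h3 : (2 * r + 1) * (2 * u) = (16 * r + 8) * (m / l) := by rw [hu]; ring
          have h4 : (16 * r + 8) * (m / l) ≤ (17 * r) * (m / l) :=
            mul_le_mul_of_nonneg_right (by linarith) (by positivity)
          have h5 : (17 * r) * (m / l) = 17 * r * m / l := by ring
          linarith
  have hA2b : C * Real.log w ^ (1 - (1 - u)) * Real.log y ^ (1 - u) ≤ r / l := by
    have hw0 : (0 : ℝ) < w := by linarith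
    have h1 : Real.log w ≤ 2 * l := by
      rw [Real.log_le_iff_le_exp hw0]
      have : Real.exp (2 * l) = r ^ 2 := by rw [hre, ← Real.exp_nat_mul]; norm_num
      rw [this]; linarith
    have h0 : 0 ≤ Real.log w := Real.log_nonneg (by linarith)
    have h2 : Real.log w ^ (1 - (1 - u)) ≤ (2 * l) ^ u := by
      have : 1 - (1 - u) = u := by ring
      rw [this]
      exact Real.rpow_le_rpow h0 h1 hu0.le
    have h3 : Real.log y ^ (1 - u) ≤ (r * l) ^ (1 - u) :=
      Real.rpow_le_rpow hlogy0.le hlogy hu_z.le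
    have h4 : (2 * l) ^ u * (r * l) ^ (1 - u) ≤ Real.exp (l - 3 * m + 1) := by
      rw [Real.rpow_def_of_pos (by positivity), Real.rpow_def_of_pos (by positivity), ← Real.exp_add,
        Real.log_mul (by norm_num) hl0.ne', Real.log_mul hr0.ne' hl0.ne', ← hl, ← hmm]
      apply Real.exp_le_exp.2
      have h5 : u * l = 4 * m := by rw [hu]; field_simp
      have h6 : u * Real.log 2 ≤ (1 / 2) * 1 := mul_le_mul hu1 hlog2 (by linarith) (by norm_num)
      have h7 : (Real.log 2 + m) * u + (l + m) * (1 - u) = u * Real.log 2 + l + m - u * l := by ring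
      rw [h7, h5]
      linarith
    have h5 : C * Real.exp (l - 3 * m + 1) ≤ r / l := by
      have h6 : Real.exp (l - 3 * m + 1) = Real.exp 1 * (r / l) * Real.exp (-(2 * m)) := by
        have : r / l = Real.exp (l - m) := by rw [Real.exp_sub, ← hre, ← hle]
        rw [this, ← Real.exp_add, ← Real.exp_add]; congr 1; ring
      have h7 : C * Real.exp 1 * Real.exp (-(2 * m)) ≤ 1 := by
        rw [Real.exp_neg, ← div_eq_mul_inv, div_le_one (Real.exp_pos _)]; exact f5
      rw [h6]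
      calc C * (Real.exp 1 * (r / l) * Real.exp (-(2 * m))) =
          (C * Real.exp 1 * Real.exp (-(2 * m))) * (r / l) := by ring
        _ ≤ 1 * (r / l) := mul_le_mul_of_nonneg_right h7 hq0.le
        _ = r / l := one_mul _
    calc C * Real.log w ^ (1 - (1 - u)) * Real.log y ^ (1 - u)
        ≤ C * (2 * l) ^ u * (r * l) ^ (1 - u) := by
          apply mul_le_mul _ h3 (Real.rpow_nonneg hlogy0.le _) (by positivity)
          exact mul_le_mul_of_nonneg_left h2 hC.le
      _ = C * ((2 * l) ^ u * (r * l) ^ (1 - u)) := by ring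
      _ ≤ C * Real.exp (l - 3 * m + 1) := mul_le_mul_of_nonneg_left h4 hC.le
      _ ≤ r / l := h5
  have hA2 : (1 / (1 - u)) ^ w * Real.exp (C * Real.log w ^ (1 - (1 - u)) * Real.log y ^ (1 - u)) /
      Real.exp (50 * r * m / l) ≤ Real.exp (17 * r * m / l + r / l - 50 * r * m / l) := by
    rw [Real.exp_sub, Real.exp_add]
    apply div_le_div_of_nonneg_right _ (Real.exp_pos _).le
    apply mul_le_mul hA2a (Real.exp_le_exp.2 hA2b) (Real.exp_pos _).le (Real.exp_pos _).le
  -- together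
  have hsub : (((Icc 2 x).filter (fun k => Real.exp (100 * G x) < (Pool.Agent.SPM.N k : ℝ))).card : ℝ) ≤
      (((Icc 2 x).filter (fun k => Real.exp (50 * r * m / l) < (Pool.Agent.SPM.N k : ℝ))).card : ℝ) := by
    have : ((Icc 2 x).filter (fun k => Real.exp (100 * G x) < (Pool.Agent.SPM.N k : ℝ))).card ≤
      ((Icc 2 x).filter (fun k => Real.exp (50 * r * m / l) < (Pool.Agent.SPM.N k : ℝ))).card := by
      apply Finset.card_le_card
      intro k hk
      rw [Finset.mem_filter] at hk ⊢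
      refine ⟨hk.1, lt_of_le_of_lt ?_ hk.2⟩
      apply Real.exp_le_exp.2
      have : 50 * r * m / l = 100 * (r * m / (2 * l)) := by field_simp; ring
      rw [this]; linarith
    exact_mod_cast this
  have hfin : Real.exp (-(r * m / l)) ≤ Real.exp (-(1 * G x)) := by
    apply Real.exp_le_exp.2; linarith
  refine hsub.trans (hmain.trans ?_)
  calc (2 * (x : ℝ)) ^ (1 + 1 / (r * l)) * (l ^ 2) ^ n₁ * Real.exp (2 / (l ^ 2 * (1 / (r * l)))) *
      (((y : ℝ) * (Nat.log 2 (2 * x) + 1) + 1) * (1 / (r / l)) ^ w *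
        Real.exp (2 * (r / l) * (Real.log (Real.log y) + C)) +
        (1 / (1 - u)) ^ w * Real.exp (C * Real.log w ^ (1 - (1 - u)) * Real.log y ^ (1 - u)) /
          Real.exp (50 * r * m / l))
      ≤ (x * Real.exp (3 * r / l + 2 + 4 * r * m / l)) *
        (Real.exp (r * l + 2 * l + 2 - 2 * r * (l - m) + 2 * (r / l) * (l + m + C)) +
          Real.exp (17 * r * m / l + r / l - 50 * r * m / l)) := by
        apply mul_le_mul hP (add_le_add hA1 hA2) _ (by positivity)
        have : 0 ≤ 1 / (1 - u) := by positivity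
        positivity
    _ = x * (Real.exp ((3 * r / l + 2 + 4 * r * m / l) +
          (r * l + 2 * l + 2 - 2 * r * (l - m) + 2 * (r / l) * (l + m + C))) +
        Real.exp ((3 * r / l + 2 + 4 * r * m / l) + (17 * r * m / l + r / l - 50 * r * m / l))) := by
        rw [Real.exp_add (3 * r / l + 2 + 4 * r * m / l), Real.exp_add (3 * r / l + 2 + 4 * r * m / l)]
        ring
    _ ≤ x * (Real.exp (-(1 * G x)) + Real.exp (-(1 * G x))) := by
        apply mul_le_mul_of_nonneg_left _ hx0.le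
        exact add_le_add ((Real.exp_le_exp.2 t1).trans hfin) ((Real.exp_le_exp.2 t2).trans hfin)
    _ = 2 * x * Real.exp (-(1 * G x)) := by ring

/-- row UPar -/
theorem _root_.Pool.Agent.SPA.upar83 : RowUPar := by
  rintro ⟨C, hC, hUF⟩
  have htend : Filter.Tendsto (fun x : ℕ => Real.log (Real.log (Real.sqrt (Real.log (x : ℝ)))))
      Filter.atTop Filter.atTop :=
    Real.tendsto_log_atTop.comp (Real.tendsto_log_atTop.comp (Real.tendsto_sqrt_atTop.comp
      (Real.tendsto_log_atTop.comp tendsto_natCast_atTop_atTop)))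
  obtain ⟨x0, hx0⟩ := Filter.eventually_atTop.1 (htend.eventually_ge_atTop (100 + C))
  refine ⟨100, 2 + ∑ x ∈ range x0, Real.exp |G x|, 1, by norm_num, one_pos, ?_⟩
  intro x hx
  have hx' : (0 : ℝ) ≤ x := Nat.cast_nonneg _
  have hsum0 : 0 ≤ ∑ x ∈ range x0, Real.exp |G x| := Finset.sum_nonneg fun _ _ => (Real.exp_pos _).le
  rcases lt_or_ge x x0 with h | h
  · have h1 : (((Icc 2 x).filter (fun k => Real.exp (100 * G x) < (Pool.Agent.SPM.N k : ℝ))).card : ℝ) ≤ x := by
      have : ((Icc 2 x).filter (fun k => Real.exp (100 * G x) < (Pool.Agent.SPM.N k : ℝ))).card ≤ x := by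
        refine (Finset.card_filter_le _ _).trans ?_
        rw [Nat.card_Icc]; omega
      exact_mod_cast this
    have h2 : Real.exp |G x| ≤ ∑ x ∈ range x0, Real.exp |G x| :=
      Finset.single_le_sum (f := fun x => Real.exp |G x|) (fun _ _ => (Real.exp_pos _).le)
        (Finset.mem_range.2 h)
    have h3 : 1 ≤ Real.exp |G x| * Real.exp (-(1 * G x)) := by
      rw [← Real.exp_add]
      apply Real.one_le_exp
      have := le_abs_self (G x)
      linarith
    have h4 : Real.exp |G x| * Real.exp (-(1 * G x)) ≤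
        (2 + ∑ x ∈ range x0, Real.exp |G x|) * Real.exp (-(1 * G x)) :=
      mul_le_mul_of_nonneg_right (by linarith) (Real.exp_pos _).le
    calc _ ≤ (x : ℝ) := h1
      _ ≤ x * ((2 + ∑ x ∈ range x0, Real.exp |G x|) * Real.exp (-(1 * G x))) := by
          nlinarith
      _ = _ := by ring
  · have h1 := big C hC hUF x hx (hx0 x h)
    refine h1.trans ?_
    have h2 : 2 * (x : ℝ) ≤ (2 + ∑ x ∈ range x0, Real.exp |G x|) * x := by nlinarith
    exact mul_le_mul_of_nonneg_right h2 (Real.exp_pos _).le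

end Pool.Agent.SPA.U83
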