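import Pool.Agent.SPA.GP17
import Pool.Agent.SPA.U117
import Pool.Agent.SPA.U234
import Pool.Agent.SPA.UA189
import Pool.Agent.SPA.UF92
import Pool.Agent.SPA.UPar3
import Pool.Agent.SPA.GL77
import Pool.Agent.Helper62.Up.UA2

set_option autoImplicit false

namespace Pool.Agent.SPA

theorem gpAll17 : RowGP := gp17 gl77

theorem up1017 : Up10 :=
  UPar3.upar3 (uf92 (UA189.ua1 gl77 (u117 gpAll17)) Pool.Agent.Helper62.Up.ua262 (U234.u2 gpAll17))

end Pool.Agent.SPA
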