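import Pool.Agent.SPA.Rows1046
import Pool.Agent.SPA.GP17
import Pool.Agent.SPA.U117
import Pool.Agent.SPA.U234
import Pool.Agent.SPA.UPar3

/-!
# The order of `log (N k)`: the upper half
-/

set_option autoImplicit false

namespace Pool.Agent.SPA

theorem gp46 : RowGP := gp17 Pool.Agent.Helper62.Up.gl62

theorem up1046 : Up10 := UPar3.upar3 (uf10_of46 (u117 gp46) (U234.u2 gp46))

theorem main10_as46 (hA : RowAs10) : Main10 := main10_of46 (low10_of46 hA) up1046

end Pool.Agent.SPA
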