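import Pool.Agent.SPA.A46

/-!
# Row V, off-diagonal half: the case `D = 0`, the congruence, and the sum over `v`, `w` for one modulus
-/

set_option autoImplicit false

namespace Pool.Agent.SPA

open Finset

/-- the integer `D` of two index points -/
def Dd (P t u P' t' u' : ℕ) : ℤ :=
  (P : ℤ) * u * (P' * u') * ((t : ℤ) + u - ((t' : ℤ) + u')) + P' * u' - P * u

/-- `D = 0` gives the same `(P, t, u)` -/
lemma Dd_zero (R U P t u P' t' u' : ℕ) (hR : 2 ≤ R) (hU : R ^ 2 ≤ U) (hP : 1 ≤ P) (hP' : 1 ≤ P')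
    (hPR : P ≤ R) (hPR' : P' ≤ R) (ht : t ≤ R) (ht' : t' ≤ R) (hu : U < u) (hu' : U < u')
    (h : Dd P t u P' t' u' = 0) : P = P' ∧ t = t' ∧ u = u' := by
  unfold Dd at h
  have hU4 : 4 ≤ U := by nlinarith
  obtain ⟨A, hA⟩ : ∃ A : ℤ, A = (P : ℤ) * u := ⟨_, rfl⟩
  obtain ⟨B, hB⟩ : ∃ B : ℤ, B = (P' : ℤ) * u' := ⟨_, rfl⟩
  have hP1 : (1 : ℤ) ≤ P := by exact_mod_cast hP
  have hP1' : (1 : ℤ) ≤ P' := by exact_mod_cast hP'
  have hu1 : (5 : ℤ) ≤ u := by
    have : 5 ≤ u := by omega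
    exact_mod_cast this
  have hu1' : (5 : ℤ) ≤ u' := by
    have : 5 ≤ u' := by omega
    exact_mod_cast this
  have hA2 : 5 ≤ A := by rw [hA]; nlinarith
  have hB2 : 5 ≤ B := by rw [hB]; nlinarith
  have h1 : A * B * ((t : ℤ) + u - ((t' : ℤ) + u')) + B - A = 0 := by
    rw [hA, hB]
    linarith
  obtain ⟨k, hk⟩ : ∃ k : ℤ, k = (t : ℤ) + u - ((t' : ℤ) + u') := ⟨_, rfl⟩
  rw [← hk] at h1
  have hk0 : k = 0 := by
    rcases lt_trichotomy k 0 with hneg | hz | hpos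
    · exfalso
      have h2 : A * B * k ≤ -(A * B) := by
        have hAB : 0 < A * B := by positivity
        nlinarith
      nlinarith
    · exact hz
    · exfalso
      have h2 : A * B ≤ A * B * k := by
        have hAB : 0 < A * B := by positivity
        nlinarith
      nlinarith
  have hAB : A = B := by
    rw [hk0] at h1
    linarith
  have hs : (t : ℤ) + u = (t' : ℤ) + u' := by linarith
  have hPu : (P : ℤ) * u = (P' : ℤ) * u' := by rw [← hA, ← hB, hAB]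
  have h3 : ((P : ℤ) - P') * u = P' * ((t : ℤ) - t') := by
    have : (u' : ℤ) = t + u - t' := by linarith
    rw [this] at hPu
    linarith
  have hR0 : (0 : ℤ) ≤ R := by positivity
  have htt : |(t : ℤ) - t'| ≤ R := by
    rw [abs_le]
    constructor
    · have : (t' : ℤ) ≤ R := by exact_mod_cast ht'
      have : (0 : ℤ) ≤ t := by positivity
      linarith
    · have : (t : ℤ) ≤ R := by exact_mod_cast ht
      have : (0 : ℤ) ≤ t' := by positivity
      linarith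
  have hPP : P = P' := by
    by_contra hne
    have hne' : (1 : ℤ) ≤ |(P : ℤ) - P'| := by
      apply Int.one_le_abs
      intro h0
      apply hne
      have : (P : ℤ) = P' := by linarith
      exact_mod_cast this
    have h4 : |((P : ℤ) - P') * u| = |(P' : ℤ) * ((t : ℤ) - t')| := by rw [h3]
    rw [abs_mul, abs_mul] at h4
    have h5 : |(u : ℤ)| = u := abs_of_nonneg (by positivity)
    have h6 : |(P' : ℤ)| = P' := abs_of_nonneg (by positivity)
    rw [h5, h6] at h4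
    have h7 : (u : ℤ) ≤ |(P : ℤ) - P'| * u := by nlinarith
    have h8 : (P' : ℤ) * |(t : ℤ) - t'| ≤ R * R := by
      have : (P' : ℤ) ≤ R := by exact_mod_cast hPR'
      exact mul_le_mul this htt (abs_nonneg _) hR0
    have h9 : (R : ℤ) * R ≤ U := by
      have : R * R ≤ U := by nlinarith
      exact_mod_cast this
    have h10 : (U : ℤ) < u := by exact_mod_cast hu
    linarith
  subst hPP
  have huu : (u : ℤ) = u' := by
    have : (P : ℤ) ≠ 0 := by linarith
    exact mul_left_cancel₀ this hPu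
  have huu' : u = u' := by exact_mod_cast huu
  subst huu'
  refine ⟨rfl, ?_, rfl⟩
  have : (t : ℤ) = t' := by linarith
  exact_mod_cast this

/-- a common divisor of two moduli whose residues agree divides `D` -/
lemma dvd_Dd (P t u v P' t' u' w g : ℕ) (h1 : (g : ℤ) ∣ (P : ℤ) * u * v - 1) (h2 : (g : ℤ) ∣ (P' : ℤ) * u' * w - 1)
    (h3 : (g : ℤ) ∣ ((t : ℤ) + u + v) - ((t' : ℤ) + u' + w)) : (g : ℤ) ∣ Dd P t u P' t' u' := by
  unfold Dd
  have : (P : ℤ) * u * (P' * u') * ((t : ℤ) + u - ((t' : ℤ) + u')) + P' * u' - P * u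
      = (P : ℤ) * u * (P' * u') * (((t : ℤ) + u + v) - ((t' : ℤ) + u' + w))
        + P * u * (P' * u' * w - 1) - P' * u' * (P * u * v - 1) := by ring
  rw [this]
  exact dvd_sub (dvd_add (Dvd.dvd.mul_left h3 _) (Dvd.dvd.mul_left h2 _)) (Dvd.dvd.mul_left h1 _)

/-- `D ≠ 0` is at most `V` in absolute value -/
lemma Dd_abs (R U V P t u P' t' u' : ℕ) (hR : 2 ≤ R) (hU : R ^ 2 ≤ U) (hV : R ^ 4 * U ^ 8 ≤ V) (hP : 1 ≤ P) (hP' : 1 ≤ P')
    (hPR : P ≤ R) (hPR' : P' ≤ R) (ht : t ≤ R) (ht' : t' ≤ R) (hu : u ≤ U ^ 2) (hu' : u' ≤ U ^ 2)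
    (hu0 : U < u) (hu0' : U < u') : |Dd P t u P' t' u'| ≤ V := by
  have hU4 : 4 ≤ U := by nlinarith
  have hRU : R ≤ U := by nlinarith
  have hUU : U ≤ U ^ 2 := by nlinarith
  unfold Dd
  obtain ⟨A, hA⟩ : ∃ A : ℤ, A = (P : ℤ) * u := ⟨_, rfl⟩
  obtain ⟨B, hB⟩ : ∃ B : ℤ, B = (P' : ℤ) * u' := ⟨_, rfl⟩
  rw [← hA, ← hB]
  have hA0 : 0 ≤ A := by rw [hA]; positivity
  have hB0 : 0 ≤ B := by rw [hB]; positivity
  have hRU2 : (0 : ℤ) ≤ (R : ℤ) * U ^ 2 := by positivity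
  have hAle : A ≤ (R : ℤ) * U ^ 2 := by
    rw [hA]
    have : P * u ≤ R * U ^ 2 := Nat.mul_le_mul hPR hu
    exact_mod_cast this
  have hBle : B ≤ (R : ℤ) * U ^ 2 := by
    rw [hB]
    have : P' * u' ≤ R * U ^ 2 := Nat.mul_le_mul hPR' hu'
    exact_mod_cast this
  have hs : |(t : ℤ) + u - ((t' : ℤ) + u')| ≤ 2 * (U : ℤ) ^ 2 := by
    have e1 : (t : ℤ) + u ≤ 2 * (U : ℤ) ^ 2 := by
      have : t + u ≤ 2 * U ^ 2 := by omega
      exact_mod_cast this
    have e2 : (t' : ℤ) + u' ≤ 2 * (U : ℤ) ^ 2 := by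
      have : t' + u' ≤ 2 * U ^ 2 := by omega
      exact_mod_cast this
    have e3 : (0 : ℤ) ≤ (t : ℤ) + u := by positivity
    have e4 : (0 : ℤ) ≤ (t' : ℤ) + u' := by positivity
    rw [abs_le]
    constructor <;> linarith
  have h1 : |A * B * ((t : ℤ) + u - ((t' : ℤ) + u'))| ≤ ((R : ℤ) * U ^ 2) * ((R : ℤ) * U ^ 2) * (2 * (U : ℤ) ^ 2) := by
    rw [abs_mul, abs_of_nonneg (mul_nonneg hA0 hB0)]
    exact mul_le_mul (mul_le_mul hAle hBle hB0 hRU2) hs (abs_nonneg _) (by positivity)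
  have h2 : |B - A| ≤ (R : ℤ) * U ^ 2 := by
    rw [abs_le]
    constructor <;> linarith
  have h3 : |A * B * ((t : ℤ) + u - ((t' : ℤ) + u')) + B - A|
      ≤ ((R : ℤ) * U ^ 2) * ((R : ℤ) * U ^ 2) * (2 * (U : ℤ) ^ 2) + (R : ℤ) * U ^ 2 := by
    have : A * B * ((t : ℤ) + u - ((t' : ℤ) + u')) + B - A
        = A * B * ((t : ℤ) + u - ((t' : ℤ) + u')) + (B - A) := by ring
    rw [this]
    exact (abs_add_le _ _).trans (add_le_add h1 h2)
  refine h3.trans ?_
  have h4 : R * U ^ 2 * (R * U ^ 2) * (2 * U ^ 2) + R * U ^ 2 ≤ R ^ 4 * U ^ 8 := by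
    have e1 : R * U ^ 2 * (R * U ^ 2) * (2 * U ^ 2) = R ^ 2 * 2 * U ^ 6 := by ring
    have e2 : R * U ^ 2 ≤ R ^ 2 * U ^ 6 := by
      have : R ≤ R ^ 2 := Nat.le_self_pow (by norm_num) R
      have : U ^ 2 ≤ U ^ 6 := Nat.pow_le_pow_right (by omega) (by norm_num)
      exact Nat.mul_le_mul ‹_› ‹_›
    have e3 : R ^ 4 * U ^ 8 = R ^ 2 * U ^ 6 * (R ^ 2 * U ^ 2) := by ring
    have e4 : 3 ≤ R ^ 2 * U ^ 2 := by nlinarith
    rw [e1, e3]
    nlinarith [Nat.mul_le_mul_left (R ^ 2 * U ^ 6) e4]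
  have h5 := h4.trans hV
  exact_mod_cast h5

/-- the sum over one residue class `g ∣ A v - 1` -/
lemma class_sum (A g V : ℕ) (hg : 1 ≤ g) (hA : 1 ≤ A) (hgV : g ≤ V) (hV : 3 ≤ V) :
    ∑ v ∈ (Ioc V (V ^ 2)).filter (fun v => g ∣ A * v - 1), (1 : ℝ) / ((A * v - 1 : ℕ) : ℝ)
      ≤ 4 * Real.log V / (g * A) := by
  have hg' : (1 : ℝ) ≤ g := by exact_mod_cast hg
  have hA' : (1 : ℝ) ≤ A := by exact_mod_cast hA
  have hV' : (3 : ℝ) ≤ V := by exact_mod_cast hV
  have hlog : 1 ≤ Real.log V := by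
    rw [Real.le_log_iff_exp_le (by linarith)]
    have := Real.exp_one_lt_d9
    linarith
  have hgV' : (g : ℝ) ≤ V := by exact_mod_cast hgV
  by_cases hne : ((Ioc V (V ^ 2)).filter (fun v => g ∣ A * v - 1)).Nonempty
  · obtain ⟨v₀, hv₀⟩ := hne
    rw [mem_filter, mem_Ioc] at hv₀
    have hAv₀ : 1 ≤ A * v₀ := by nlinarith [hv₀.1.1]
    have hcop : Nat.Coprime g A := by
      have h1 : Nat.gcd g A ∣ A * v₀ - 1 := (Nat.gcd_dvd_left g A).trans hv₀.2
      have h2 : Nat.gcd g A ∣ A * v₀ := (Nat.gcd_dvd_right g A).trans (Nat.dvd_mul_right _ _)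
      have h3 : Nat.gcd g A ∣ 1 := by
        have := Nat.dvd_sub h2 h1
        rwa [Nat.sub_sub_self hAv₀] at this
      exact Nat.dvd_one.mp h3
    have hsub : (Ioc V (V ^ 2)).filter (fun v => g ∣ A * v - 1)
        ⊆ (Ioc V (V ^ 2)).filter (fun v => v ≡ v₀ [MOD g]) := by
      intro v hv
      rw [mem_filter, mem_Ioc] at hv
      rw [mem_filter, mem_Ioc]
      refine ⟨hv.1, ?_⟩
      have hAv : 1 ≤ A * v := by nlinarith [hv.1.1]
      have h1 : A * v ≡ A * v₀ [MOD g] := by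
        have e1 : 1 ≡ A * v [MOD g] := (Nat.modEq_iff_dvd' hAv).mpr hv.2
        have e2 : 1 ≡ A * v₀ [MOD g] := (Nat.modEq_iff_dvd' hAv₀).mpr hv₀.2
        exact e1.symm.trans e2
      exact Nat.ModEq.cancel_left_of_coprime hcop h1
    calc ∑ v ∈ (Ioc V (V ^ 2)).filter (fun v => g ∣ A * v - 1), (1 : ℝ) / ((A * v - 1 : ℕ) : ℝ)
        ≤ ∑ v ∈ (Ioc V (V ^ 2)).filter (fun v => g ∣ A * v - 1), 2 / A * ((1 : ℝ) / v) := by
          apply sum_le_sum
          intro v hv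
          rw [mem_filter, mem_Ioc] at hv
          have hv3 : (3 : ℝ) < v := by
            have : 3 < v := by omega
            exact_mod_cast this
          have hAv : 1 ≤ A * v := by nlinarith [hv.1.1]
          have h1 : (A : ℝ) * v / 2 ≤ ((A * v - 1 : ℕ) : ℝ) := by
            rw [Nat.cast_sub hAv, Nat.cast_mul, Nat.cast_one]
            nlinarith
          have h0 : (0 : ℝ) < (A : ℝ) * v / 2 := by positivity
          calc 1 / ((A * v - 1 : ℕ) : ℝ) ≤ 1 / ((A : ℝ) * v / 2) := by gcongr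
            _ = _ := by field_simp
      _ ≤ ∑ v ∈ (Ioc V (V ^ 2)).filter (fun v => v ≡ v₀ [MOD g]), 2 / A * ((1 : ℝ) / v) :=
          sum_le_sum_of_subset_of_nonneg hsub (fun _ _ _ => by positivity)
      _ = 2 / A * ∑ v ∈ (Ioc V (V ^ 2)).filter (fun v => v ≡ v₀ [MOD g]), (1 : ℝ) / v := by rw [mul_sum]
      _ ≤ 2 / A * (Real.log V / g + 1 / V) := by
          exact mul_le_mul_of_nonneg_left (a46 V g v₀ (by omega) hg) (by positivity)
      _ ≤ 2 / A * (2 * Real.log V / g) := by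
          apply mul_le_mul_of_nonneg_left _ (by positivity)
          have h1 : (1 : ℝ) / V ≤ Real.log V / g := by
            rw [div_le_div_iff₀ (by linarith) (by linarith)]
            nlinarith
          have h2 : 2 * Real.log V / g = Real.log V / g + Real.log V / g := by ring
          rw [h2]
          linarith
      _ = _ := by
          field_simp
          ring
  · rw [not_nonempty_iff_eq_empty] at hne
    rw [hne, sum_empty]
    positivity

end Pool.Agent.SPA
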