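import Pool.Agent.SPA.Stmts

/-!
# Row V (variance of the family)
-/

set_option autoImplicit false

namespace Pool.Agent.SPA.V34

open Finset

lemma log_one34 {V : ℕ} (h : 3 ≤ V) : 1 ≤ Real.log V := by
  rw [Real.le_log_iff_exp_le (by positivity)]
  have h1 : Real.exp 1 < 2.7182818286 := Real.exp_one_lt_d9
  have h2 : (3 : ℝ) ≤ V := by exact_mod_cast h
  linarith

/-- the sum over one class -/
lemma clsum34 (hA : RowA) (V g a : ℕ) (hV : 3 ≤ V) (hg : 1 ≤ g) (hgV : g ≤ V) :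
    ∑ v ∈ Ioc V (V ^ 2), (if a * v ≡ 1 [MOD g] then (1 : ℝ) / v else 0) ≤ 2 * Real.log V / g := by
  have hL := log_one34 hV
  have hg0 : (0 : ℝ) < g := by exact_mod_cast hg
  have hV0 : (0 : ℝ) < V := by
    have : 0 < V := by omega
    exact_mod_cast this
  rw [← Finset.sum_filter]
  rcases ((Ioc V (V ^ 2)).filter (fun v => a * v ≡ 1 [MOD g])).eq_empty_or_nonempty with h | ⟨v0, hv0⟩
  · rw [h, Finset.sum_empty]; positivity
  · have h0 : a * v0 ≡ 1 [MOD g] := (Finset.mem_filter.1 hv0).2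
    have hc : Nat.gcd g a = 1 := by
      have h1 := h0.gcd_eq
      have h2 : Nat.Coprime (a * v0) g := by
        unfold Nat.Coprime; rw [h1]; simp
      exact (Nat.Coprime.coprime_dvd_left (dvd_mul_right a v0) h2).symm
    have hsub : (Ioc V (V ^ 2)).filter (fun v => a * v ≡ 1 [MOD g]) ⊆
        (Ioc V (V ^ 2)).filter (fun v => v ≡ v0 [MOD g]) := by
      intro v hv
      rw [Finset.mem_filter] at hv ⊢
      exact ⟨hv.1, Nat.ModEq.cancel_left_of_coprime hc (hv.2.trans h0.symm)⟩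
    refine (Finset.sum_le_sum_of_subset_of_nonneg hsub (fun _ _ _ => by positivity)).trans
      ((hA V g v0 (by omega) hg).trans ?_)
    have h1 : (1 : ℝ) / V ≤ 1 / g := one_div_le_one_div_of_le hg0 (by exact_mod_cast hgV)
    have h2 : (1 : ℝ) / g ≤ Real.log V / g := div_le_div_of_nonneg_right hL hg0.le
    have h3 : 2 * Real.log V / g = Real.log V / g + Real.log V / g := by ring
    linarith

lemma expand34 (T : Finset (ℕ × ℕ)) (U V : ℕ)
    (F : ((ℕ × ℕ) × (ℕ × ℕ)) → ((ℕ × ℕ) × (ℕ × ℕ)) → ℝ) :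
    ∑ i ∈ Idx T U V, ∑ j ∈ Idx T U V, F i j =
      ∑ p ∈ T, ∑ p' ∈ T, ∑ u' ∈ Ioc U (U ^ 2), ∑ u ∈ Ioc U (U ^ 2),
        ∑ v ∈ Ioc V (V ^ 2), ∑ v' ∈ Ioc V (V ^ 2), F (p, (u, v)) (p', (u', v')) := by
  unfold Idx
  simp only [Finset.sum_product]
  refine Finset.sum_congr rfl (fun p _ => ?_)
  have h1 : ∀ u ∈ Ioc U (U ^ 2), ∑ v ∈ Ioc V (V ^ 2), ∑ p' ∈ T, ∑ u' ∈ Ioc U (U ^ 2),
      ∑ v' ∈ Ioc V (V ^ 2), F (p, (u, v)) (p', (u', v')) =
      ∑ p' ∈ T, ∑ u' ∈ Ioc U (U ^ 2), ∑ v ∈ Ioc V (V ^ 2), ∑ v' ∈ Ioc V (V ^ 2),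
        F (p, (u, v)) (p', (u', v')) := by
    intro u _
    rw [Finset.sum_comm]
    refine Finset.sum_congr rfl (fun p' _ => ?_)
    rw [Finset.sum_comm]
  rw [Finset.sum_congr rfl h1, Finset.sum_comm]
  refine Finset.sum_congr rfl (fun p' _ => ?_)
  rw [Finset.sum_comm]

/-- the integer `D` -/
def Dd (P t A s u : ℕ) : ℤ := (P : ℤ) * u * A * ((t : ℤ) + u - s) + A - P * u

/-- first majorant -/
noncomputable def aa (z V : ℕ) (i j : (ℕ × ℕ) × (ℕ × ℕ)) : ℝ :=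
  ∑ g ∈ ((Icc 2 V).filter (fun g => z < g.minFac)).filter
      (fun g : ℕ => (g : ℤ) ∣ Dd i.1.1 i.1.2 (j.1.1 * j.2.1) (j.1.2 + j.2.1) i.2.1 ∧
        Nat.Coprime g (i.1.1 * (j.1.1 * j.2.1))),
    (4 * (g : ℝ) / (((i.1.1 * i.2.1 : ℕ) : ℝ) * ((j.1.1 * j.2.1 : ℕ) : ℝ))) *
      ((if (i.1.1 * i.2.1) * i.2.2 ≡ 1 [MOD g] then (1 : ℝ) / i.2.2 else 0) *
       (if (j.1.1 * j.2.1) * j.2.2 ≡ 1 [MOD g] then (1 : ℝ) / j.2.2 else 0))

/-- second majorant -/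
noncomputable def bb (i j : (ℕ × ℕ) × (ℕ × ℕ)) : ℝ :=
  if i.1 = j.1 ∧ i.2.1 = j.2.1 then
    (if j.2.2 = i.2.2 then 2 / (((i.1.1 * i.2.1 : ℕ) : ℝ) * i.2.2) else 0) +
    (if j.2.2 ≠ i.2.2 then 4 / ((i.1.1 * i.2.1 : ℕ) : ℝ) ^ 2 *
      (((Nat.gcd (i.1.1 * i.2.1 * i.2.2 - 1) (((i.2.2 : ℤ) - j.2.2).natAbs) : ℕ) : ℝ) /
        ((i.2.2 : ℝ) * j.2.2)) else 0)
  else 0

lemma aa_nonneg34 (z V : ℕ) (i j : (ℕ × ℕ) × (ℕ × ℕ)) : 0 ≤ aa z V i j := by
  unfold aa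
  refine Finset.sum_nonneg (fun g _ => ?_)
  have h1 : ∀ (p : Prop) [Decidable p] (x : ℝ), 0 ≤ x → 0 ≤ (if p then x else 0) := by
    intro p _ x hx
    split_ifs <;> simp [hx]
  have := h1 ((i.1.1 * i.2.1) * i.2.2 ≡ 1 [MOD g]) ((1 : ℝ) / i.2.2) (by positivity)
  have := h1 ((j.1.1 * j.2.1) * j.2.2 ≡ 1 [MOD g]) ((1 : ℝ) / j.2.2) (by positivity)
  positivity

lemma bb_nonneg34 (i j : (ℕ × ℕ) × (ℕ × ℕ)) : 0 ≤ bb i j := by
  unfold bb
  split_ifs <;> positivity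

/-- `D = 0` forces equality -/
lemma Dzero34 (R U P t P' t' u u' : ℕ) (hRU : R ^ 2 ≤ U) (hP : 1 ≤ P) (hP' : 1 ≤ P')
    (hPR : P ≤ R) (hPR' : P' ≤ R) (ht : t ≤ R) (ht' : t' ≤ R) (hu : U < u) (hu' : U < u')
    (hR : 2 ≤ R) (hD : Dd P t (P' * u') (t' + u') u = 0) : P = P' ∧ t = t' ∧ u = u' := by
  unfold Dd at hD
  push_cast at hD
  have hPz : (1 : ℤ) ≤ P := by exact_mod_cast hP
  have hPz' : (1 : ℤ) ≤ P' := by exact_mod_cast hP'
  have hU4 : (4 : ℤ) ≤ U := by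
    have : 4 ≤ U := by nlinarith
    exact_mod_cast this
  have huz : (U : ℤ) < u := by exact_mod_cast hu
  have huz' : (U : ℤ) < u' := by exact_mod_cast hu'
  obtain ⟨A, hAd⟩ : ∃ A : ℤ, A = (P : ℤ) * u := ⟨_, rfl⟩
  obtain ⟨B, hBd⟩ : ∃ B : ℤ, B = (P' : ℤ) * u' := ⟨_, rfl⟩
  have hA1 : 1 < A := by rw [hAd]; nlinarith
  have hB1 : 1 < B := by rw [hBd]; nlinarith
  have hD' : A * B * ((t : ℤ) + u - (t' + u')) = A - B := by
    rw [hAd, hBd]; linear_combination hD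
  have hs : (t : ℤ) + u - (t' + u') = 0 := by
    by_contra hne
    have hab : A - B < A * B := by nlinarith
    have hba : B - A < A * B := by nlinarith
    rcases lt_or_gt_of_ne hne with h | h
    · have : A * B * ((t : ℤ) + u - (t' + u')) ≤ A * B * (-1) := by
        apply mul_le_mul_of_nonneg_left (by linarith) (by positivity)
      linarith
    · have : A * B * 1 ≤ A * B * ((t : ℤ) + u - (t' + u')) := by
        apply mul_le_mul_of_nonneg_left (by linarith) (by positivity)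
      linarith
  have hAB : A = B := by
    rw [hs] at hD'; linarith
  have hkey : ((P : ℤ) - P') * u = P' * ((t : ℤ) - t') := by
    have h1 : (P : ℤ) * u = P' * u' := by rw [← hAd, ← hBd, hAB]
    have h2 : (u' : ℤ) = t + u - t' := by linarith
    rw [h2] at h1
    linear_combination h1
  have hRz : (R : ℤ) ^ 2 ≤ U := by exact_mod_cast hRU
  have hPRz : (P : ℤ) ≤ R := by exact_mod_cast hPR
  have hPRz' : (P' : ℤ) ≤ R := by exact_mod_cast hPR'
  have htz : (t : ℤ) ≤ R := by exact_mod_cast ht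
  have htz' : (t' : ℤ) ≤ R := by exact_mod_cast ht'
  have ht0 : (0 : ℤ) ≤ t := by positivity
  have ht0' : (0 : ℤ) ≤ t' := by positivity
  have hR0 : (0 : ℤ) ≤ R := by positivity
  have hup : (P' : ℤ) * ((t : ℤ) - t') ≤ R ^ 2 := by
    have h1 : (P' : ℤ) * ((t : ℤ) - t') ≤ P' * R := by
      apply mul_le_mul_of_nonneg_left (by linarith) (by positivity)
    have h2 : (P' : ℤ) * R ≤ R * R := mul_le_mul_of_nonneg_right hPRz' hR0
    nlinarith
  have hlo : -(R : ℤ) ^ 2 ≤ P' * ((t : ℤ) - t') := by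
    have h1 : (P' : ℤ) * (t' - (t : ℤ)) ≤ P' * R := by
      apply mul_le_mul_of_nonneg_left (by linarith) (by positivity)
    have h2 : (P' : ℤ) * R ≤ R * R := mul_le_mul_of_nonneg_right hPRz' hR0
    nlinarith
  have hPP : (P : ℤ) = P' := by
    by_contra hne
    rcases lt_or_gt_of_ne hne with h | h
    · have : ((P : ℤ) - P') * u ≤ (-1) * u := by
        apply mul_le_mul_of_nonneg_right (by linarith) (by positivity)
      linarith
    · have : (1 : ℤ) * u ≤ ((P : ℤ) - P') * u := by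
        apply mul_le_mul_of_nonneg_right (by linarith) (by positivity)
      linarith
  have htt : (t : ℤ) = t' := by
    rw [hPP, sub_self, zero_mul] at hkey
    have := mul_eq_zero.1 hkey.symm
    rcases this with h | h
    · linarith
    · linarith
  have huu : (u : ℤ) = u' := by linarith
  exact ⟨by exact_mod_cast hPP, by exact_mod_cast htt, by exact_mod_cast huu⟩

lemma Dbound34 (R U V P t P' t' u u' : ℕ) (hRU : R ^ 2 ≤ U) (hV : R ^ 4 * U ^ 8 ≤ V)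
    (hPR : P ≤ R) (hPR' : P' ≤ R) (ht : t ≤ R) (ht' : t' ≤ R)
    (hu : u ≤ U ^ 2) (hu' : u' ≤ U ^ 2)
    (hR : 2 ≤ R) : |Dd P t (P' * u') (t' + u') u| ≤ V := by
  have hU4 : 4 ≤ U := by nlinarith
  obtain ⟨X, hX⟩ : ∃ X : ℕ, X = R * U ^ 2 := ⟨_, rfl⟩
  have hU2 : 2 ≤ U ^ 2 := by nlinarith
  have hX2 : R + U ^ 2 ≤ X := by rw [hX]; nlinarith
  have hXV : X ^ 4 ≤ V := by
    rw [hX]
    calc (R * U ^ 2) ^ 4 = R ^ 4 * U ^ 8 := by ring
      _ ≤ V := hV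
  have hA : P * u ≤ X := by rw [hX]; exact Nat.mul_le_mul hPR hu
  have hB : P' * u' ≤ X := by rw [hX]; exact Nat.mul_le_mul hPR' hu'
  have hX4 : X ^ 3 + X ≤ X ^ 4 := by
    have h2 : 2 ≤ X := by omega
    have h3 : X ≤ X ^ 3 := Nat.le_self_pow (by norm_num) X
    calc X ^ 3 + X ≤ X ^ 3 * 2 := by omega
      _ ≤ X ^ 3 * X := Nat.mul_le_mul_left _ h2
      _ = X ^ 4 := by ring
  unfold Dd
  have hs : |(t : ℤ) + u - ((t' + u' : ℕ) : ℤ)| ≤ X := by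
    rw [abs_le]
    push_cast
    constructor
    · have : t' + u' ≤ X := by omega
      have : ((t' : ℤ) + u') ≤ X := by exact_mod_cast this
      have h1 : (0 : ℤ) ≤ t := by positivity
      have h2 : (0 : ℤ) ≤ u := by positivity
      linarith
    · have : t + u ≤ X := by omega
      have : ((t : ℤ) + u) ≤ X := by exact_mod_cast this
      have h1 : (0 : ℤ) ≤ t' := by positivity
      have h2 : (0 : ℤ) ≤ u' := by positivity
      linarith
  have hAz : ((P : ℤ) * u) ≤ X := by exact_mod_cast hA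
  have hBz : (((P' * u' : ℕ) : ℤ)) ≤ X := by exact_mod_cast hB
  have hA0 : (0 : ℤ) ≤ (P : ℤ) * u := by positivity
  have hB0 : (0 : ℤ) ≤ ((P' * u' : ℕ) : ℤ) := by positivity
  have hX0 : (0 : ℤ) ≤ X := by positivity
  have h1 : |(P : ℤ) * u * ((P' * u' : ℕ) : ℤ) * ((t : ℤ) + u - ((t' + u' : ℕ) : ℤ))| ≤ X * X * X := by
    rw [abs_mul, abs_of_nonneg (mul_nonneg hA0 hB0)]
    exact mul_le_mul (mul_le_mul hAz hBz hB0 hX0) hs (abs_nonneg _) (by positivity)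
  have h2 : |(((P' * u' : ℕ) : ℤ)) - P * u| ≤ X := by
    rw [abs_le]; constructor <;> linarith
  have h3 : (P : ℤ) * u * ((P' * u' : ℕ) : ℤ) * ((t : ℤ) + u - ((t' + u' : ℕ) : ℤ)) + ((P' * u' : ℕ) : ℤ) - P * u
      = (P : ℤ) * u * ((P' * u' : ℕ) : ℤ) * ((t : ℤ) + u - ((t' + u' : ℕ) : ℤ)) + (((P' * u' : ℕ) : ℤ) - P * u) := by
    ring
  rw [h3]
  refine (abs_add_le _ _).trans ?_
  have h4 : ((X ^ 3 + X : ℕ) : ℤ) ≤ V := by exact_mod_cast hX4.trans hXV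
  push_cast at h4
  have h5 : (X : ℤ) * X * X = X ^ 3 := by ring
  linarith

/-- the facts about a common divisor of two moduli -/
lemma facts34 (z R U V : ℕ) (hR : 2 ≤ R) (hRU : R ^ 2 ≤ U) (hV : R ^ 4 * U ^ 8 ≤ V)
    (i j : (ℕ × ℕ) × (ℕ × ℕ)) (T : Finset (ℕ × ℕ))
    (hT : ∀ p ∈ T, 1 ≤ p.1 ∧ p.1 ≤ R ∧ p.2 ≤ R ∧ ∀ q : ℕ, q.Prime → q ≤ z → q ∣ p.1)
    (hi : i ∈ Idx T U V) (hj : j ∈ Idx T U V)
    (hg : 1 < Nat.gcd (mo i) (mo j)) (hre : re i ≡ re j [MOD Nat.gcd (mo i) (mo j)]) :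
    ((i.1.1 * i.2.1) * i.2.2 ≡ 1 [MOD Nat.gcd (mo i) (mo j)]) ∧
    ((j.1.1 * j.2.1) * j.2.2 ≡ 1 [MOD Nat.gcd (mo i) (mo j)]) ∧
    (((Nat.gcd (mo i) (mo j) : ℕ) : ℤ) ∣ Dd i.1.1 i.1.2 (j.1.1 * j.2.1) (j.1.2 + j.2.1) i.2.1) ∧
    Nat.Coprime (Nat.gcd (mo i) (mo j)) (i.1.1 * (j.1.1 * j.2.1)) ∧
    z < (Nat.gcd (mo i) (mo j)).minFac := by
  obtain ⟨⟨P, t⟩, u, v⟩ := i
  obtain ⟨⟨P', t'⟩, u', v'⟩ := j
  simp only [Idx, Finset.mem_product, Finset.mem_Ioc] at hi hj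
  obtain ⟨hiT, ⟨hu1, hu2⟩, hv1, hv2⟩ := hi
  obtain ⟨hjT, ⟨hu1', hu2'⟩, hv1', hv2'⟩ := hj
  obtain ⟨hP1, hPR, htR, hq⟩ := hT _ hiT
  obtain ⟨hP1', hPR', htR', hq'⟩ := hT _ hjT
  simp only at hP1 hPR htR hq hP1' hPR' htR' hq'
  have hU4 : 4 ≤ U := by nlinarith
  simp only [mo, re] at hg hre ⊢
  set g := Nat.gcd (P * u * v - 1) (P' * u' * v' - 1) with hgd
  have hpos : 1 ≤ P * u * v := Nat.succ_le_of_lt (Nat.mul_pos (Nat.mul_pos (by omega) (by omega)) (by omega))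
  have hpos' : 1 ≤ P' * u' * v' := Nat.succ_le_of_lt (Nat.mul_pos (Nat.mul_pos (by omega) (by omega)) (by omega))
  have hg1 : g ∣ P * u * v - 1 := Nat.gcd_dvd_left _ _
  have hg2 : g ∣ P' * u' * v' - 1 := Nat.gcd_dvd_right _ _
  have hm1 : P * u * v ≡ 1 [MOD g] := ((Nat.modEq_iff_dvd' hpos).2 hg1).symm
  have hm2 : P' * u' * v' ≡ 1 [MOD g] := ((Nat.modEq_iff_dvd' hpos').2 hg2).symm
  have hcop : ∀ (a b : ℕ), a * b ≡ 1 [MOD g] → Nat.Coprime g a := by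
    intro a b hab
    have h1 := hab.gcd_eq
    have h2 : Nat.Coprime (a * b) g := by
      unfold Nat.Coprime; rw [h1]; simp
    exact (Nat.Coprime.coprime_dvd_left (dvd_mul_right a b) h2).symm
  have hc1 : Nat.Coprime g (P * u) := hcop _ _ hm1
  have hc2 : Nat.Coprime g (P' * u') := hcop _ _ hm2
  refine ⟨hm1, hm2, ?_, ?_, ?_⟩
  · have hz1 : (g : ℤ) ∣ (P : ℤ) * u * v - 1 := by
      have := Int.natCast_dvd_natCast.2 hg1
      rwa [Nat.cast_sub hpos, Nat.cast_mul, Nat.cast_mul, Nat.cast_one] at this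
    have hz2 : (g : ℤ) ∣ (P' : ℤ) * u' * v' - 1 := by
      have := Int.natCast_dvd_natCast.2 hg2
      rwa [Nat.cast_sub hpos', Nat.cast_mul, Nat.cast_mul, Nat.cast_one] at this
    have hz3 : (g : ℤ) ∣ ((t' : ℤ) + u' + v' - 3) - ((t : ℤ) + u + v - 3) := by
      have := (Nat.modEq_iff_dvd).1 hre
      rw [Nat.cast_sub (by omega), Nat.cast_sub (by omega)] at this
      push_cast at this
      exact this
    obtain ⟨k1, hk1⟩ := hz1
    obtain ⟨k2, hk2⟩ := hz2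
    obtain ⟨k3, hk3⟩ := hz3
    refine ⟨-((P : ℤ) * u * (P' * u')) * k3 - (P' * u') * k1 + (P * u) * k2, ?_⟩
    unfold Dd
    push_cast
    linear_combination -((P : ℤ) * u * (P' * u')) * hk3 - ((P' : ℤ) * u') * hk1 + ((P : ℤ) * u) * hk2
  · exact Nat.Coprime.mul_right (Nat.Coprime.coprime_dvd_right (dvd_mul_right P u) hc1) hc2
  · by_contra hlt
    have hpr : g.minFac.Prime := Nat.minFac_prime (by omega)
    have hd : g.minFac ∣ P := hq _ hpr (by omega)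
    have h1 : g.minFac ∣ Nat.gcd g (P * u) := Nat.dvd_gcd (Nat.minFac_dvd g) (hd.mul_right u)
    rw [hc1] at h1
    exact hpr.one_lt.ne' (Nat.dvd_one.1 h1)

lemma inv_mo34 (A v : ℕ) (hA : 1 ≤ A) (hv : 2 ≤ v) :
    (1 : ℝ) / ((A * v - 1 : ℕ) : ℝ) ≤ 2 / ((A : ℝ) * v) := by
  have h1 : 2 ≤ A * v := by nlinarith
  have h2 : ((A * v : ℕ) : ℝ) ≤ 2 * ((A * v - 1 : ℕ) : ℝ) := by
    have : A * v ≤ 2 * (A * v - 1) := by omega
    exact_mod_cast this
  have h3 : (0 : ℝ) < ((A * v - 1 : ℕ) : ℝ) := by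
    have : 0 < A * v - 1 := by omega
    exact_mod_cast this
  have h4 : (0 : ℝ) < (A : ℝ) * v := by
    have : 0 < A * v := by omega
    exact_mod_cast this
  rw [div_le_div_iff₀ h3 h4]
  push_cast at h2
  linarith

lemma point34 (z R U V : ℕ) (hR : 2 ≤ R) (hRU : R ^ 2 ≤ U) (hV : R ^ 4 * U ^ 8 ≤ V)
    (i j : (ℕ × ℕ) × (ℕ × ℕ)) (T : Finset (ℕ × ℕ))
    (hT : ∀ p ∈ T, 1 ≤ p.1 ∧ p.1 ≤ R ∧ p.2 ≤ R ∧ ∀ q : ℕ, q.Prime → q ≤ z → q ∣ p.1)
    (hi : i ∈ Idx T U V) (hj : j ∈ Idx T U V)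
    (hg : 1 < Nat.gcd (mo i) (mo j)) (hre : re i ≡ re j [MOD Nat.gcd (mo i) (mo j)]) :
    ((Nat.gcd (mo i) (mo j) : ℕ) : ℝ) / ((mo i : ℝ) * mo j) ≤ aa z V i j + bb i j := by
  obtain ⟨h1, h2, h3, h4, h5⟩ := facts34 z R U V hR hRU hV i j T hT hi hj hg hre
  obtain ⟨⟨P, t⟩, u, v⟩ := i
  obtain ⟨⟨P', t'⟩, u', v'⟩ := j
  have hi' := hi
  have hj' := hj
  simp only [Idx, Finset.mem_product, Finset.mem_Ioc] at hi hj
  obtain ⟨hiT, ⟨hu1, hu2⟩, hv1, hv2⟩ := hi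
  obtain ⟨hjT, ⟨hu1', hu2'⟩, hv1', hv2'⟩ := hj
  obtain ⟨hP1, hPR, htR, hq⟩ := hT _ hiT
  obtain ⟨hP1', hPR', htR', hq'⟩ := hT _ hjT
  simp only at hP1 hPR htR hq hP1' hPR' htR' hq'
  have hU4 : 4 ≤ U := by nlinarith
  have hV2 : 2 ≤ V := by
    have h1 : 1 ≤ R ^ 4 := Nat.one_le_pow _ _ (by omega)
    have h2 : 2 ≤ U ^ 8 := by
      calc 2 ≤ U := by omega
        _ ≤ U ^ 8 := Nat.le_self_pow (by norm_num) U
    calc 2 ≤ 1 * U ^ 8 := by omega
      _ ≤ R ^ 4 * U ^ 8 := Nat.mul_le_mul_right _ h1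
      _ ≤ V := hV
  simp only [mo] at hg h1 h2 h3 h4 h5 ⊢
  set g := Nat.gcd (P * u * v - 1) (P' * u' * v' - 1) with hgd
  have hA1 : 1 ≤ P * u := Nat.succ_le_of_lt (Nat.mul_pos (by omega) (by omega))
  have hB1 : 1 ≤ P' * u' := Nat.succ_le_of_lt (Nat.mul_pos (by omega) (by omega))
  have e1 := inv_mo34 (P * u) v hA1 (by omega)
  have e2 := inv_mo34 (P' * u') v' hB1 (by omega)
  have p1 : (0 : ℝ) ≤ (1 : ℝ) / ((P * u * v - 1 : ℕ) : ℝ) := by positivity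
  have p2 : (0 : ℝ) ≤ (1 : ℝ) / ((P' * u' * v' - 1 : ℕ) : ℝ) := by positivity
  have hg0 : (0 : ℝ) ≤ (g : ℝ) := by positivity
  have hmain : (g : ℝ) / (((P * u * v - 1 : ℕ) : ℝ) * ((P' * u' * v' - 1 : ℕ) : ℝ)) ≤
      g * (2 / (((P * u : ℕ) : ℝ) * v) * (2 / (((P' * u' : ℕ) : ℝ) * v'))) := by
    have h6 : (g : ℝ) / (((P * u * v - 1 : ℕ) : ℝ) * ((P' * u' * v' - 1 : ℕ) : ℝ)) =
        g * ((1 : ℝ) / ((P * u * v - 1 : ℕ) : ℝ) * (1 / ((P' * u' * v' - 1 : ℕ) : ℝ))) := by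
      rw [one_div_mul_one_div, mul_one_div]
    rw [h6]
    exact mul_le_mul_of_nonneg_left (mul_le_mul e1 e2 p2 (p1.trans e1)) hg0
  by_cases hD : Dd P t (P' * u') (t' + u') u = 0
  · obtain ⟨rfl, rfl, rfl⟩ := Dzero34 R U P t P' t' u u' hRU hP1 hP1' hPR hPR' htR htR' hu1 hu1' hR hD
    refine le_trans ?_ (le_add_of_nonneg_left (aa_nonneg34 z V _ _))
    unfold bb
    simp only [and_self, if_true]
    by_cases hvv : v' = v
    · subst hvv
      simp only [ne_eq, not_true_eq_false, if_false, if_true, add_zero]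
      have hgg : g = P * u * v' - 1 := by rw [hgd, Nat.gcd_self]
      rw [hgg]
      have h0 : (0 : ℝ) < ((P * u * v' - 1 : ℕ) : ℝ) := by
        have : 0 < P * u * v' - 1 := by
          have : 2 ≤ P * u * v' := by nlinarith
          omega
        exact_mod_cast this
      have h6 : ((P * u * v' - 1 : ℕ) : ℝ) / (((P * u * v' - 1 : ℕ) : ℝ) * ((P * u * v' - 1 : ℕ) : ℝ)) =
          1 / ((P * u * v' - 1 : ℕ) : ℝ) := by
        field_simp
      rw [h6]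
      exact e1
    · simp only [hvv, if_false, ne_eq, not_false_eq_true, if_true, zero_add]
      refine hmain.trans ?_
      have hdv : g ∣ Nat.gcd (P * u * v - 1) (((v : ℤ) - v').natAbs) := by
        refine Nat.dvd_gcd (Nat.gcd_dvd_left _ _) ?_
        have hc : Nat.gcd g (P * u) = 1 := by
          have := h4
          rw [Nat.coprime_mul_iff_right] at this
          exact this.2
        have hvv' : v ≡ v' [MOD g] := Nat.ModEq.cancel_left_of_coprime hc (h1.trans h2.symm)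
        have := (Nat.modEq_iff_dvd).1 hvv'.symm
        exact Int.natCast_dvd.1 this
      have hgle : g ≤ Nat.gcd (P * u * v - 1) (((v : ℤ) - v').natAbs) := by
        refine Nat.le_of_dvd (Nat.gcd_pos_of_pos_right _ ?_) hdv
        rw [Int.natAbs_pos]
        intro h0
        exact hvv (by omega)
      have hgle' : (g : ℝ) ≤ ((Nat.gcd (P * u * v - 1) (((v : ℤ) - v').natAbs) : ℕ) : ℝ) := by
        exact_mod_cast hgle
      have h7 : (4 : ℝ) / ((P * u : ℕ) : ℝ) ^ 2 *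
          (((Nat.gcd (P * u * v - 1) (((v : ℤ) - v').natAbs) : ℕ) : ℝ) / ((v : ℝ) * v')) =
          ((Nat.gcd (P * u * v - 1) (((v : ℤ) - v').natAbs) : ℕ) : ℝ) *
            (2 / (((P * u : ℕ) : ℝ) * v) * (2 / (((P * u : ℕ) : ℝ) * v'))) := by
        have hx : ((P * u : ℕ) : ℝ) ≠ 0 := by
          have : P * u ≠ 0 := by omega
          exact_mod_cast this
        have hy : (v : ℝ) ≠ 0 := by
          have : v ≠ 0 := by omega
          exact_mod_cast this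
        have hy' : (v' : ℝ) ≠ 0 := by
          have : v' ≠ 0 := by omega
          exact_mod_cast this
        field_simp
        ring
      rw [h7]
      exact mul_le_mul_of_nonneg_right hgle' (by positivity)
  · refine le_trans ?_ (le_add_of_nonneg_right (bb_nonneg34 _ _))
    have hgV : g ≤ V := by
      have h6 := Dbound34 R U V P t P' t' u u' hRU hV hPR hPR' htR htR' hu2 hu2' hR
      have h7 : ((g : ℕ) : ℤ) ≤ |Dd P t (P' * u') (t' + u') u| :=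
        Int.le_of_dvd (abs_pos.2 hD) ((dvd_abs _ _).2 h3)
      exact_mod_cast h7.trans h6
    unfold aa
    have hmem : g ∈ ((Icc 2 V).filter (fun g => z < g.minFac)).filter
      (fun g : ℕ => (g : ℤ) ∣ Dd P t (P' * u') (t' + u') u ∧
        Nat.Coprime g (P * (P' * u'))) := by
      simp only [Finset.mem_filter, Finset.mem_Icc]
      exact ⟨⟨⟨by omega, hgV⟩, h5⟩, h3, h4⟩
    refine le_trans ?_ (Finset.single_le_sum (f := fun g : ℕ =>
      (4 * (g : ℝ) / (((P * u : ℕ) : ℝ) * ((P' * u' : ℕ) : ℝ))) *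
      ((if (P * u) * v ≡ 1 [MOD g] then (1 : ℝ) / v else 0) *
       (if (P' * u') * v' ≡ 1 [MOD g] then (1 : ℝ) / v' else 0))) (fun g _ => ?_) hmem)
    · refine hmain.trans (le_of_eq ?_)
      rw [if_pos h1, if_pos h2]
      have hx : ((P * u : ℕ) : ℝ) ≠ 0 := by
        have : P * u ≠ 0 := by omega
        exact_mod_cast this
      have hx' : ((P' * u' : ℕ) : ℝ) ≠ 0 := by
        have : P' * u' ≠ 0 := by omega
        exact_mod_cast this
      have hy : (v : ℝ) ≠ 0 := by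
        have : v ≠ 0 := by omega
        exact_mod_cast this
      have hy' : (v' : ℝ) ≠ 0 := by
        have : v' ≠ 0 := by omega
        exact_mod_cast this
      field_simp
      ring
    · have hh : ∀ (p : Prop) [Decidable p] (x : ℝ), 0 ≤ x → 0 ≤ (if p then x else 0) := by
        intro p _ x hx
        split_ifs <;> simp [hx]
      have := hh ((P * u) * v ≡ 1 [MOD g]) ((1 : ℝ) / v) (by positivity)
      have := hh ((P' * u') * v' ≡ 1 [MOD g]) ((1 : ℝ) / v') (by positivity)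
      positivity

lemma inner34 (hA : RowA) (z V P t A s u : ℕ) (hV : 3 ≤ V) (hP : 1 ≤ P) (hA1 : 1 ≤ A) (hu : 1 ≤ u)
    (p p' : ℕ × ℕ) (u' : ℕ) (hp : p = (P, t)) (hA' : p'.1 * u' = A) (hs : p'.2 + u' = s) :
    ∑ v ∈ Ioc V (V ^ 2), ∑ v' ∈ Ioc V (V ^ 2), aa z V (p, (u, v)) (p', (u', v')) ≤
      ∑ g ∈ ((Icc 2 V).filter (fun g => z < g.minFac)).filter (fun g : ℕ => Nat.Coprime g (P * A)),
        16 * Real.log V ^ 2 / ((P : ℝ) * A) * (1 / g *
          (if (g : ℤ) ∣ Dd P t A s u then (1 : ℝ) / u else 0)) := by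
  subst hp
  unfold aa
  simp only [hA', hs]
  have hc : ∀ v ∈ Ioc V (V ^ 2), ∑ v' ∈ Ioc V (V ^ 2),
      ∑ g ∈ ((Icc 2 V).filter (fun g => z < g.minFac)).filter
        (fun g : ℕ => (g : ℤ) ∣ Dd P t A s u ∧ Nat.Coprime g (P * A)),
        (4 * (g : ℝ) / (((P * u : ℕ) : ℝ) * ((A : ℕ) : ℝ))) *
        ((if (P * u) * v ≡ 1 [MOD g] then (1 : ℝ) / v else 0) *
         (if A * v' ≡ 1 [MOD g] then (1 : ℝ) / v' else 0)) =
      ∑ g ∈ ((Icc 2 V).filter (fun g => z < g.minFac)).filter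
        (fun g : ℕ => (g : ℤ) ∣ Dd P t A s u ∧ Nat.Coprime g (P * A)), ∑ v' ∈ Ioc V (V ^ 2),
        (4 * (g : ℝ) / (((P * u : ℕ) : ℝ) * ((A : ℕ) : ℝ))) *
        ((if (P * u) * v ≡ 1 [MOD g] then (1 : ℝ) / v else 0) *
         (if A * v' ≡ 1 [MOD g] then (1 : ℝ) / v' else 0)) := by
    intro v _
    rw [Finset.sum_comm]
  rw [Finset.sum_congr rfl hc, Finset.sum_comm]
  have hL := log_one34 hV
  have hPr : (0 : ℝ) < P := by exact_mod_cast hP
  have hAr : (0 : ℝ) < A := by exact_mod_cast hA1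
  have hur : (0 : ℝ) < u := by exact_mod_cast hu
  have hfil : ((Icc 2 V).filter (fun g => z < g.minFac)).filter
        (fun g : ℕ => (g : ℤ) ∣ Dd P t A s u ∧ Nat.Coprime g (P * A)) =
      (((Icc 2 V).filter (fun g => z < g.minFac)).filter (fun g : ℕ => Nat.Coprime g (P * A))).filter
        (fun g : ℕ => (g : ℤ) ∣ Dd P t A s u) := by
    ext g
    simp only [Finset.mem_filter]
    tauto
  rw [hfil, Finset.sum_filter]
  refine Finset.sum_le_sum (fun g hg => ?_)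
  simp only [Finset.mem_filter, Finset.mem_Icc] at hg
  obtain ⟨⟨⟨hg2, hgV⟩, _⟩, _⟩ := hg
  have hgr : (0 : ℝ) < g := by
    have : 0 < g := by omega
    exact_mod_cast this
  by_cases hd : (g : ℤ) ∣ Dd P t A s u
  · rw [if_pos hd, if_pos hd]
    have h1 : ∑ v ∈ Ioc V (V ^ 2), ∑ v' ∈ Ioc V (V ^ 2),
        (4 * (g : ℝ) / (((P * u : ℕ) : ℝ) * ((A : ℕ) : ℝ))) *
        ((if (P * u) * v ≡ 1 [MOD g] then (1 : ℝ) / v else 0) *
         (if A * v' ≡ 1 [MOD g] then (1 : ℝ) / v' else 0)) =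
        (4 * (g : ℝ) / (((P * u : ℕ) : ℝ) * ((A : ℕ) : ℝ))) *
        ((∑ v ∈ Ioc V (V ^ 2), (if (P * u) * v ≡ 1 [MOD g] then (1 : ℝ) / v else 0)) *
         (∑ v' ∈ Ioc V (V ^ 2), (if A * v' ≡ 1 [MOD g] then (1 : ℝ) / v' else 0))) := by
      rw [Finset.sum_mul_sum, Finset.mul_sum]
      refine Finset.sum_congr rfl (fun v _ => ?_)
      rw [Finset.mul_sum]
    rw [h1]
    have h2 := clsum34 hA V g (P * u) hV (by omega) hgV
    have h3 := clsum34 hA V g A hV (by omega) hgV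
    have hnn : ∀ a : ℕ, 0 ≤ ∑ v ∈ Ioc V (V ^ 2), (if a * v ≡ 1 [MOD g] then (1 : ℝ) / v else 0) := by
      intro a
      refine Finset.sum_nonneg (fun v _ => ?_)
      split_ifs <;> positivity
    have h4 : (∑ v ∈ Ioc V (V ^ 2), (if (P * u) * v ≡ 1 [MOD g] then (1 : ℝ) / v else 0)) *
         (∑ v' ∈ Ioc V (V ^ 2), (if A * v' ≡ 1 [MOD g] then (1 : ℝ) / v' else 0)) ≤
        (2 * Real.log V / g) * (2 * Real.log V / g) :=
      mul_le_mul h2 h3 (hnn A) ((hnn (P * u)).trans h2)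
    refine (mul_le_mul_of_nonneg_left h4 (by positivity)).trans (le_of_eq ?_)
    push_cast
    field_simp
    ring
  · rw [if_neg hd, if_neg hd]
    simp

lemma part1_34 (hA : RowA) (hB1 : RowB1) (C2 : ℝ)
    (hB2 : ∀ (z G U : ℕ) (L : ℝ), 1 ≤ z → 1 ≤ G → 1 ≤ U → 0 ≤ L →
      ∑ g ∈ (Icc 2 G).filter (fun g => z < g.minFac),
        (1 : ℝ) / g * ∑ d ∈ g.divisors, (L * ((Nat.gcd d (g / d) : ℕ) : ℝ) / g + 1 / U)
      ≤ C2 * L / Real.sqrt z + (1 + Real.log G) ^ 2 / U)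
    (z R U V : ℕ) (T : Finset (ℕ × ℕ)) (hz : 1 ≤ z) (hR : 2 ≤ R) (hRU : R ^ 2 ≤ U)
    (hV3 : 3 ≤ V)
    (hT : ∀ p ∈ T, 1 ≤ p.1) :
    ∑ i ∈ Idx T U V, ∑ j ∈ Idx T U V, aa z V i j ≤
      16 * Real.log V ^ 2 * (C2 * Real.log U / Real.sqrt z + (1 + Real.log V) ^ 2 / U) *
        (∑ p ∈ T, (1 : ℝ) / p.1) ^ 2 * (∑ u ∈ Ioc U (U ^ 2), (1 : ℝ) / u) := by
  rw [expand34]
  have hU4 : 4 ≤ U := by nlinarith
  have hL := log_one34 hV3
  have hLU : 1 ≤ Real.log U := log_one34 (by omega)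
  have hstep : ∀ p ∈ T, ∀ p' ∈ T, ∀ u' ∈ Ioc U (U ^ 2),
      ∑ u ∈ Ioc U (U ^ 2), ∑ v ∈ Ioc V (V ^ 2), ∑ v' ∈ Ioc V (V ^ 2),
        aa z V (p, (u, v)) (p', (u', v')) ≤
      16 * Real.log V ^ 2 * (C2 * Real.log U / Real.sqrt z + (1 + Real.log V) ^ 2 / U) *
        ((1 : ℝ) / p.1 * (1 / p'.1 * (1 / u'))) := by
    intro p hp p' hp' u' hu'
    rw [Finset.mem_Ioc] at hu'
    have hP1 := hT p hp
    have hP1' := hT p' hp'
    have hA1 : 1 ≤ p'.1 * u' := Nat.succ_le_of_lt (Nat.mul_pos (by omega) (by omega))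
    have hPr : (0 : ℝ) < p.1 := by exact_mod_cast hP1
    have hPr' : (0 : ℝ) < p'.1 := by exact_mod_cast hP1'
    have hur' : (0 : ℝ) < u' := by
      have : 0 < u' := by omega
      exact_mod_cast this
    have h1 : ∑ u ∈ Ioc U (U ^ 2), ∑ v ∈ Ioc V (V ^ 2), ∑ v' ∈ Ioc V (V ^ 2),
        aa z V (p, (u, v)) (p', (u', v')) ≤
        ∑ u ∈ Ioc U (U ^ 2), ∑ g ∈ ((Icc 2 V).filter (fun g => z < g.minFac)).filter
          (fun g : ℕ => Nat.Coprime g (p.1 * (p'.1 * u'))),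
        16 * Real.log V ^ 2 / ((p.1 : ℝ) * ((p'.1 * u' : ℕ) : ℝ)) * (1 / g *
          (if (g : ℤ) ∣ Dd p.1 p.2 (p'.1 * u') (p'.2 + u') u then (1 : ℝ) / u else 0)) := by
      refine Finset.sum_le_sum (fun u hu => ?_)
      rw [Finset.mem_Ioc] at hu
      exact inner34 hA z V p.1 p.2 (p'.1 * u') (p'.2 + u') u hV3 hP1 hA1 (by omega) p p' u' rfl rfl rfl
    refine h1.trans ?_
    rw [Finset.sum_comm]
    have h2 : ∀ g ∈ ((Icc 2 V).filter (fun g => z < g.minFac)).filter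
          (fun g : ℕ => Nat.Coprime g (p.1 * (p'.1 * u'))),
        ∑ u ∈ Ioc U (U ^ 2), 16 * Real.log V ^ 2 / ((p.1 : ℝ) * ((p'.1 * u' : ℕ) : ℝ)) * (1 / g *
          (if (g : ℤ) ∣ Dd p.1 p.2 (p'.1 * u') (p'.2 + u') u then (1 : ℝ) / u else 0)) ≤
        16 * Real.log V ^ 2 / ((p.1 : ℝ) * ((p'.1 * u' : ℕ) : ℝ)) * ((1 : ℝ) / g *
          ∑ d ∈ g.divisors, (Real.log U * ((Nat.gcd d (g / d) : ℕ) : ℝ) / g + 1 / U)) := by
      intro g hg
      simp only [Finset.mem_filter, Finset.mem_Icc] at hg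
      obtain ⟨⟨⟨hg2, hgV⟩, _⟩, hcop⟩ := hg
      rw [← Finset.mul_sum, ← Finset.mul_sum, ← Finset.sum_filter]
      have h3 := hB1 p.1 p.2 (p'.1 * u') (p'.2 + u') g U (by omega) (by omega) hcop
      refine mul_le_mul_of_nonneg_left (mul_le_mul_of_nonneg_left ?_ (by positivity)) (by positivity)
      exact h3
    refine (Finset.sum_le_sum h2).trans ?_
    rw [← Finset.mul_sum]
    have h4 : ∑ g ∈ ((Icc 2 V).filter (fun g => z < g.minFac)).filter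
          (fun g : ℕ => Nat.Coprime g (p.1 * (p'.1 * u'))), (1 : ℝ) / g *
          ∑ d ∈ g.divisors, (Real.log U * ((Nat.gcd d (g / d) : ℕ) : ℝ) / g + 1 / U) ≤
        ∑ g ∈ (Icc 2 V).filter (fun g => z < g.minFac), (1 : ℝ) / g *
          ∑ d ∈ g.divisors, (Real.log U * ((Nat.gcd d (g / d) : ℕ) : ℝ) / g + 1 / U) :=
      Finset.sum_le_sum_of_subset_of_nonneg (Finset.filter_subset _ _)
        (fun g _ _ => mul_nonneg (by positivity) (Finset.sum_nonneg (fun d _ => by positivity)))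
    have h5 := h4.trans (hB2 z V U (Real.log U) hz (by omega) (by omega) (by linarith))
    refine (mul_le_mul_of_nonneg_left h5 (by positivity)).trans (le_of_eq ?_)
    push_cast
    field_simp
  have hsum := Finset.sum_le_sum (fun p hp => Finset.sum_le_sum (fun p' hp' =>
    Finset.sum_le_sum (fun u' hu' => hstep p hp p' hp' u' hu')))
  refine hsum.trans (le_of_eq ?_)
  simp only [← Finset.mul_sum, ← Finset.sum_mul]
  ring

lemma bbsum34 (T : Finset (ℕ × ℕ)) (U V : ℕ) (p : ℕ × ℕ) (u v : ℕ) (hp : p ∈ T)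
    (hu : u ∈ Ioc U (U ^ 2)) (hv : v ∈ Ioc V (V ^ 2)) :
    ∑ j ∈ Idx T U V, bb (p, (u, v)) j =
      2 / (((p.1 * u : ℕ) : ℝ) * v) + 4 / ((p.1 * u : ℕ) : ℝ) ^ 2 *
        ∑ v' ∈ (Ioc V (V ^ 2)).filter (fun w => w ≠ v),
          ((Nat.gcd (p.1 * u * v - 1) (((v : ℤ) - v').natAbs) : ℕ) : ℝ) / ((v : ℝ) * v') := by
  unfold Idx
  simp only [Finset.sum_product]
  rw [Finset.sum_eq_single p]
  · rw [Finset.sum_eq_single u]
    · have h1 : ∀ v' ∈ Ioc V (V ^ 2), bb (p, (u, v)) (p, (u, v')) =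
          (if v' = v then 2 / (((p.1 * u : ℕ) : ℝ) * v) else 0) +
          (if v' ≠ v then 4 / ((p.1 * u : ℕ) : ℝ) ^ 2 *
            (((Nat.gcd (p.1 * u * v - 1) (((v : ℤ) - v').natAbs) : ℕ) : ℝ) / ((v : ℝ) * v')) else 0) := by
        intro v' _
        unfold bb
        simp only [and_self, if_true]
      rw [Finset.sum_congr rfl h1, Finset.sum_add_distrib, Finset.sum_ite_eq', if_pos hv,
        ← Finset.sum_filter, ← Finset.mul_sum]
    · intro u' _ hne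
      refine Finset.sum_eq_zero (fun v' _ => ?_)
      unfold bb
      rw [if_neg]
      rintro ⟨_, h⟩
      exact hne h.symm
    · intro h; exact absurd hu h
  · intro p' _ hne
    refine Finset.sum_eq_zero (fun u' _ => Finset.sum_eq_zero (fun v' _ => ?_))
    unfold bb
    rw [if_neg]
    rintro ⟨h, _⟩
    exact hne h.symm
  · intro h; exact absurd hp h

lemma part2_34 (hC : RowC) (R U V : ℕ) (T : Finset (ℕ × ℕ)) (hR : 2 ≤ R) (hRU : R ^ 2 ≤ U)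
    (hV : R ^ 4 * U ^ 8 ≤ V) (hV3 : 3 ≤ V)
    (hSV : ∑ v ∈ Ioc V (V ^ 2), (1 : ℝ) / v ≤ 2 * Real.log V)
    (hT : ∀ p ∈ T, 1 ≤ p.1 ∧ p.1 ≤ R) :
    ∑ i ∈ Idx T U V, ∑ j ∈ Idx T U V, bb i j ≤
      (4 * Real.log V + 384 * Real.log V ^ 3 / Real.sqrt U) *
        ((∑ p ∈ T, (1 : ℝ) / p.1) * (∑ u ∈ Ioc U (U ^ 2), (1 : ℝ) / u)) := by
  have hU4 : 4 ≤ U := by nlinarith
  have hL := log_one34 hV3
  have hUr : (0 : ℝ) < U := by
    have : 0 < U := by omega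
    exact_mod_cast this
  have hVr : (0 : ℝ) < V := by
    have : 0 < V := by omega
    exact_mod_cast this
  have hRUV : R * U ^ 2 ≤ V := by
    refine le_trans ?_ hV
    exact Nat.mul_le_mul (Nat.le_self_pow (by norm_num) R) (Nat.pow_le_pow_right (by omega) (by norm_num))
  have hstep : ∀ p ∈ T, ∀ u ∈ Ioc U (U ^ 2),
      ∑ v ∈ Ioc V (V ^ 2), ∑ j ∈ Idx T U V, bb (p, (u, v)) j ≤
      (4 * Real.log V + 384 * Real.log V ^ 3 / Real.sqrt U) * ((1 : ℝ) / p.1 * (1 / u)) := by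
    intro p hp u hu
    obtain ⟨hP1, hPR⟩ := hT p hp
    have hu' := hu
    rw [Finset.mem_Ioc] at hu'
    rw [Finset.sum_congr rfl (fun v hv => bbsum34 T U V p u v hp hu hv), Finset.sum_add_distrib,
      ← Finset.mul_sum]
    have hAV : p.1 * u ≤ V := (Nat.mul_le_mul hPR hu'.2).trans hRUV
    have hA1 : 1 ≤ p.1 * u := Nat.succ_le_of_lt (Nat.mul_pos (by omega) (by omega))
    have hAU : U ≤ p.1 * u := by nlinarith
    have hc := hC (p.1 * u) V hA1 (by omega)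
    obtain ⟨A, hAd⟩ : ∃ A : ℝ, A = ((p.1 * u : ℕ) : ℝ) := ⟨_, rfl⟩
    have hAU' : (U : ℝ) ≤ A := by rw [hAd]; exact_mod_cast hAU
    have hA0 : 0 < A := lt_of_lt_of_le hUr hAU'
    have hlogA : Real.log A ≤ Real.log V := by
      refine Real.log_le_log hA0 ?_
      rw [hAd]; exact_mod_cast hAV
    rw [← hAd] at hc ⊢
    have hlogA0 : 0 ≤ Real.log A := by
      refine Real.log_nonneg ?_
      rw [hAd]; exact_mod_cast hA1
    have hsA : 0 ≤ Real.sqrt A := Real.sqrt_nonneg A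
    have hL3 : Real.log V ≤ Real.log V ^ 3 := le_self_pow₀ hL (by norm_num)
    have hc' : 8 * (1 + 2 * Real.log V) * ((1 + Real.log A + Real.log V) * Real.log V + Real.sqrt A) ≤
        72 * Real.log V ^ 3 + 24 * Real.log V * Real.sqrt A := by
      have h1 : (1 + Real.log A + Real.log V) * Real.log V + Real.sqrt A ≤
          3 * Real.log V * Real.log V + Real.sqrt A := by nlinarith
      have h2 : 8 * (1 + 2 * Real.log V) ≤ 24 * Real.log V := by linarith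
      calc 8 * (1 + 2 * Real.log V) * ((1 + Real.log A + Real.log V) * Real.log V + Real.sqrt A)
          ≤ (24 * Real.log V) * (3 * Real.log V * Real.log V + Real.sqrt A) :=
            mul_le_mul h2 h1 (by positivity) (by positivity)
        _ = 72 * Real.log V ^ 3 + 24 * Real.log V * Real.sqrt A := by ring
    have hfirst : ∑ v ∈ Ioc V (V ^ 2), 2 / (A * (v : ℝ)) ≤ 4 * Real.log V * (1 / A) := by
      have h1 : ∑ v ∈ Ioc V (V ^ 2), 2 / (A * (v : ℝ)) = 2 / A * ∑ v ∈ Ioc V (V ^ 2), (1 : ℝ) / v := by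
        rw [Finset.mul_sum]
        refine Finset.sum_congr rfl (fun v _ => ?_)
        rw [div_mul_div_comm, mul_one]
      rw [h1]
      refine (mul_le_mul_of_nonneg_left hSV (by positivity)).trans (le_of_eq ?_)
      ring
    have hsU : 0 < Real.sqrt U := Real.sqrt_pos.2 hUr
    have hsUA : Real.sqrt U ≤ Real.sqrt A := Real.sqrt_le_sqrt hAU'
    have hsecond : 4 / A ^ 2 * (72 * Real.log V ^ 3 + 24 * Real.log V * Real.sqrt A) ≤
        384 * Real.log V ^ 3 / Real.sqrt U * (1 / A) := by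
      have hsq : Real.sqrt A * Real.sqrt A = A := Real.mul_self_sqrt hA0.le
      have hsA1 : 0 < Real.sqrt A := lt_of_lt_of_le hsU hsUA
      have h1 : 4 / A ^ 2 * (72 * Real.log V ^ 3 + 24 * Real.log V * Real.sqrt A) =
          (288 * Real.log V ^ 3 / A + 96 * Real.log V * (Real.sqrt A / A)) * (1 / A) := by
        field_simp
        ring
      rw [h1]
      refine mul_le_mul_of_nonneg_right ?_ (by positivity)
      have h2 : Real.sqrt A / A = 1 / Real.sqrt A := by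
        rw [div_eq_div_iff hA0.ne' hsA1.ne']; linarith
      have h3 : 1 / Real.sqrt A ≤ 1 / Real.sqrt U := one_div_le_one_div_of_le hsU hsUA
      have h4 : 1 / A ≤ 1 / Real.sqrt U := by
        refine one_div_le_one_div_of_le hsU ?_
        have h5 : 1 ≤ Real.sqrt A := by
          rw [Real.one_le_sqrt, hAd]
          exact_mod_cast hA1
        nlinarith
      have h6 : 288 * Real.log V ^ 3 / A ≤ 288 * Real.log V ^ 3 * (1 / Real.sqrt U) := by
        rw [div_eq_mul_one_div]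
        exact mul_le_mul_of_nonneg_left h4 (by positivity)
      have h7 : 96 * Real.log V * (Real.sqrt A / A) ≤ 96 * Real.log V ^ 3 * (1 / Real.sqrt U) := by
        rw [h2]
        exact mul_le_mul (by linarith) h3 (by positivity) (by positivity)
      calc 288 * Real.log V ^ 3 / A + 96 * Real.log V * (Real.sqrt A / A)
          ≤ 288 * Real.log V ^ 3 * (1 / Real.sqrt U) + 96 * Real.log V ^ 3 * (1 / Real.sqrt U) := by linarith
        _ = 384 * Real.log V ^ 3 / Real.sqrt U := by ring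
    have hsum2 := mul_le_mul_of_nonneg_left (hc.trans hc') (by positivity : (0:ℝ) ≤ 4 / A ^ 2)
    have hAinv : (1 : ℝ) / p.1 * (1 / u) = 1 / A := by
      rw [hAd]; push_cast
      rw [one_div_mul_one_div]
    rw [hAinv]
    calc _ ≤ 4 * Real.log V * (1 / A) + 384 * Real.log V ^ 3 / Real.sqrt U * (1 / A) :=
          add_le_add hfirst (hsum2.trans hsecond)
      _ = _ := by ring
  have hexp : ∑ i ∈ Idx T U V, ∑ j ∈ Idx T U V, bb i j =
      ∑ p ∈ T, ∑ u ∈ Ioc U (U ^ 2), ∑ v ∈ Ioc V (V ^ 2), ∑ j ∈ Idx T U V, bb (p, (u, v)) j := by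
    conv_lhs => unfold Idx
    simp only [Finset.sum_product]
    simp only [Idx, Finset.sum_product]
  rw [hexp]
  refine (Finset.sum_le_sum (fun p hp => Finset.sum_le_sum (fun u hu => hstep p hp u hu))).trans (le_of_eq ?_)
  rw [Finset.sum_mul_sum]
  simp only [Finset.mul_sum]

lemma harm34 (hA : RowA) (V : ℕ) (hV : 3 ≤ V) :
    ∑ v ∈ Ioc V (V ^ 2), (1 : ℝ) / v ≤ 2 * Real.log V := by
  have h1 := clsum34 hA V 1 1 hV le_rfl (by omega)
  have h2 : ∑ v ∈ Ioc V (V ^ 2), (if 1 * v ≡ 1 [MOD 1] then (1 : ℝ) / v else 0) =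
      ∑ v ∈ Ioc V (V ^ 2), (1 : ℝ) / v := by
    refine Finset.sum_congr rfl (fun v _ => ?_)
    rw [if_pos (Nat.modEq_one)]
  rw [h2] at h1
  simpa using h1

/-- **Row V** -/
theorem v : RowA → RowB1 → RowB2 → RowC → RowV := by
  intro hA hB1 hB2 hC
  obtain ⟨C2, hC2, hB2⟩ := hB2
  refine ⟨32 * (C2 + 4) + 768, by positivity, ?_⟩
  intro z R U V T hz hR hRU hV hT
  have hU4 : 4 ≤ U := by nlinarith
  have hV3 : 3 ≤ V := by
    have h1 : 1 ≤ R ^ 4 := Nat.one_le_pow _ _ (by omega)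
    have h2 : 4 ≤ U ^ 8 := by
      calc 4 ≤ U := hU4
        _ ≤ U ^ 8 := Nat.le_self_pow (by norm_num) U
    calc 3 ≤ 1 * U ^ 8 := by omega
      _ ≤ R ^ 4 * U ^ 8 := Nat.mul_le_mul_right _ h1
      _ ≤ V := hV
  have hL := log_one34 hV3
  have hLU : 1 ≤ Real.log U := log_one34 (by omega)
  have hSU := harm34 hA U (by omega)
  have hSV := harm34 hA V hV3
  have hp1 := part1_34 hA hB1 C2 hB2 z R U V T hz hR hRU hV3 (fun p hp => (hT p hp).1)
  have hp2 := part2_34 hC R U V T hR hRU hV hV3 hSV (fun p hp => ⟨(hT p hp).1, (hT p hp).2.1⟩)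
  have h0 : ∑ i ∈ Idx T U V, ∑ j ∈ (Idx T U V).filter
        (fun j => 1 < Nat.gcd (mo i) (mo j) ∧ re i ≡ re j [MOD Nat.gcd (mo i) (mo j)]),
        ((Nat.gcd (mo i) (mo j) : ℕ) : ℝ) / ((mo i : ℝ) * mo j) ≤
      ∑ i ∈ Idx T U V, ∑ j ∈ Idx T U V, (aa z V i j + bb i j) := by
    refine Finset.sum_le_sum (fun i hi => ?_)
    rw [Finset.sum_filter]
    refine Finset.sum_le_sum (fun j hj => ?_)
    split_ifs with h
    · exact point34 z R U V hR hRU hV i j T hT hi hj h.1 h.2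
    · exact add_nonneg (aa_nonneg34 z V i j) (bb_nonneg34 i j)
  refine h0.trans ?_
  simp only [Finset.sum_add_distrib]
  obtain ⟨W, hW⟩ : ∃ W : ℝ, W = ∑ p ∈ T, (1 : ℝ) / p.1 := ⟨_, rfl⟩
  obtain ⟨S, hS⟩ : ∃ S : ℝ, S = ∑ u ∈ Ioc U (U ^ 2), (1 : ℝ) / u := ⟨_, rfl⟩
  rw [← hW, ← hS] at hp1 hp2
  rw [← hS] at hSU
  rw [← hW]
  have hW0 : 0 ≤ W := by rw [hW]; exact Finset.sum_nonneg (fun p _ => by positivity)
  have hS0 : 0 ≤ S := by rw [hS]; exact Finset.sum_nonneg (fun p _ => by positivity)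
  obtain ⟨L, hLd⟩ : ∃ L : ℝ, L = Real.log V := ⟨_, rfl⟩
  obtain ⟨l, hld⟩ : ∃ l : ℝ, l = Real.log U := ⟨_, rfl⟩
  obtain ⟨sz, hsz⟩ : ∃ sz : ℝ, sz = Real.sqrt z := ⟨_, rfl⟩
  obtain ⟨sU, hsU⟩ : ∃ sU : ℝ, sU = Real.sqrt U := ⟨_, rfl⟩
  rw [← hLd, ← hld, ← hsz] at hp1
  rw [← hLd, ← hsU] at hp2
  rw [← hld] at hSU
  rw [← hLd] at hL
  rw [← hld] at hLU
  rw [← hLd, ← hld, ← hsz, ← hsU]
  have hUr : (0 : ℝ) < U := by
    have : 0 < U := by omega
    exact_mod_cast this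
  have hszp : 0 < sz := by
    rw [hsz]; refine Real.sqrt_pos.2 ?_
    have : 0 < z := by omega
    exact_mod_cast this
  have hsUp : 0 < sU := by rw [hsU]; exact Real.sqrt_pos.2 hUr
  have hq1 : C2 * l / sz + (1 + L) ^ 2 / U ≤ (C2 + 4) * (l / sz + L ^ 2 / U) := by
    have h1 : (1 + L) ^ 2 ≤ 4 * L ^ 2 := by nlinarith
    have h2 : (1 + L) ^ 2 / U ≤ 4 * L ^ 2 / U := div_le_div_of_nonneg_right h1 hUr.le
    have h3 : 0 ≤ 4 * (l / sz) := by positivity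
    have h4 : 0 ≤ C2 * (L ^ 2 / U) := by positivity
    calc C2 * l / sz + (1 + L) ^ 2 / U ≤ C2 * l / sz + 4 * L ^ 2 / U := by linarith
      _ = C2 * (l / sz) + 4 * (L ^ 2 / U) := by ring
      _ ≤ (C2 + 4) * (l / sz + L ^ 2 / U) := by linarith
  have hX : 0 ≤ l / sz + L ^ 2 / U := by positivity
  have e1 : 16 * L ^ 2 * (C2 * l / sz + (1 + L) ^ 2 / U) * W ^ 2 * S ≤
      32 * (C2 + 4) * (L ^ 2 * W ^ 2 * l * (l / sz + L ^ 2 / U)) := by
    calc 16 * L ^ 2 * (C2 * l / sz + (1 + L) ^ 2 / U) * W ^ 2 * S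
        ≤ 16 * L ^ 2 * ((C2 + 4) * (l / sz + L ^ 2 / U)) * W ^ 2 * (2 * l) := by
          have h5 : 16 * L ^ 2 * (C2 * l / sz + (1 + L) ^ 2 / U) * W ^ 2 ≤
              16 * L ^ 2 * ((C2 + 4) * (l / sz + L ^ 2 / U)) * W ^ 2 :=
            mul_le_mul_of_nonneg_right (mul_le_mul_of_nonneg_left hq1 (by positivity)) (by positivity)
          exact mul_le_mul h5 hSU hS0 (by positivity)
      _ = 32 * (C2 + 4) * (L ^ 2 * W ^ 2 * l * (l / sz + L ^ 2 / U)) := by ring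
  have hY : 0 ≤ L + L ^ 3 / sU := by positivity
  have e2 : (4 * L + 384 * L ^ 3 / sU) * (W * S) ≤ 768 * (W * l * (L + L ^ 3 / sU)) := by
    have h6 : 4 * L + 384 * L ^ 3 / sU ≤ 384 * (L + L ^ 3 / sU) := by
      have : 384 * L ^ 3 / sU = 384 * (L ^ 3 / sU) := by ring
      rw [this]; linarith
    calc (4 * L + 384 * L ^ 3 / sU) * (W * S) ≤ (384 * (L + L ^ 3 / sU)) * (W * (2 * l)) := by
          exact mul_le_mul h6 (mul_le_mul_of_nonneg_left hSU hW0) (by positivity) (by positivity)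
      _ = 768 * (W * l * (L + L ^ 3 / sU)) := by ring
  have n1 : 0 ≤ L ^ 2 * W ^ 2 * l * (l / sz + L ^ 2 / U) := by positivity
  have n2 : 0 ≤ W * l * (L + L ^ 3 / sU) := by positivity
  have t1 := hp1.trans e1
  have t2 := hp2.trans e2
  have n3 : 0 ≤ 32 * (C2 + 4) * (W * l * (L + L ^ 3 / sU)) := by positivity
  have n4 : 0 ≤ 768 * (L ^ 2 * W ^ 2 * l * (l / sz + L ^ 2 / U)) := by positivity
  calc _ ≤ 32 * (C2 + 4) * (L ^ 2 * W ^ 2 * l * (l / sz + L ^ 2 / U)) + 768 * (W * l * (L + L ^ 3 / sU)) :=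
        add_le_add t1 t2
    _ ≤ (32 * (C2 + 4) + 768) * (L ^ 2 * W ^ 2 * l * (l / sz + L ^ 2 / U)) +
        (32 * (C2 + 4) + 768) * (W * l * (L + L ^ 3 / sU)) := by linarith
    _ = _ := by ring

end Pool.Agent.SPA.V34
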